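import Pool.Agent.NPA.BAC

/-!
# BSP/Coll: the cumulative hierarchy and least witnesses

`vN α` is the level of the cumulative hierarchy, `mwit P` the set of all `y` of least rank which
satisfy `P`.
-/

universe u

namespace Pool.Agent.ZFIter.NPA.BSM.SP

open Pool.Agent.H78.ZF Pool.Agent.ZFIter Pool.Agent.ZFIter.NPA

variable {M : Type u} [ZFM M] {ι : Type}

/-- the step of the recursion -/
noncomputable def vStep (x s : M) : M := sUn (img x (fun y => pow (ap s y)))

instance DF.vStep (x s : (ι → M) → M) [DF x] [DF s] : DF (fun v => vStep (x v) (s v)) := by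
  unfold SP.vStep
  infer_instance

/-- The cumulative hierarchy. -/
noncomputable def vN (α : M) : M := erec (fun x s => vStep x s) α

instance DF.vN (s : (ι → M) → M) [DF s] : DF (fun v => vN (s v)) := by
  unfold SP.vN
  infer_instance

theorem mem_vN {α x : M} : x ∈ vN α ↔ ∃ β, β ∈ α ∧ x ⊆ vN β := by
  have h1 : vN α = vStep α (mkseq α (fun y => vN y)) := by
    have := erec_eq (G := fun x s => vStep x s) α
    exact this
  rw [h1]
  unfold vStep
  rw [mem_sUn]
  constructor
  · rintro ⟨w, hw, hx⟩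
    rw [mem_img] at hw
    obtain ⟨β, hβ, rfl⟩ := hw
    rw [ap_mkseq hβ, mem_pow] at hx
    exact ⟨β, hβ, hx⟩
  · rintro ⟨β, hβ, hx⟩
    refine ⟨pow (ap (mkseq α (fun y => vN y)) β), ?_, ?_⟩
    · rw [mem_img]
      exact ⟨β, hβ, rfl⟩
    · rw [ap_mkseq hβ, mem_pow]
      exact hx

theorem vN_mono {α β : M} (h : α ⊆ β) : vN α ⊆ vN β := by
  intro x hx
  obtain ⟨γ, hγ, hx⟩ := mem_vN.1 hx
  exact mem_vN.2 ⟨γ, h γ hγ, hx⟩

theorem vN_sub {α β : M} (hα : Ord α) (h : β ∈ α) : vN β ⊆ vN α := vN_mono (hα.1 β h)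

theorem trans_vN {α : M} (hα : Ord α) : Trans (vN α) := by
  intro x hx y hy
  obtain ⟨β, hβ, hx⟩ := mem_vN.1 hx
  exact vN_sub hα hβ y (hx y hy)

theorem exists_vN : ∀ x : M, ∃ α : M, Ord α ∧ x ∈ vN α := by
  apply mem_induction (fun x : M => ∃ α : M, Ord α ∧ x ∈ vN α)
  intro x ih
  obtain ⟨α, hα, h⟩ := exists_ord_gt (img x (fun y => leastO (fun α => y ∈ vN α)))
  refine ⟨succ α, hα.succ, mem_vN.2 ⟨α, by simp, fun y hy => ?_⟩⟩
  have h1 := leastO_spec (fun α => y ∈ vN α) (ih y hy)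
  have h2 : leastO (fun α => y ∈ vN α) ∈ α := by
    refine h _ ?_ h1.1
    rw [mem_img]
    exact ⟨y, hy, rfl⟩
  exact vN_sub hα h2 y h1.2.1

/-- The set of all elements of least rank of a class. -/
noncomputable def mwit (P : M → Prop) : M :=
  sep (vN (leastO (fun α => ∃ y, y ∈ vN α ∧ P y))) P

instance DF.mwit (P : M → (ι → M) → Prop)
    [h : DR (ι := Option ι) (fun v => P (v none) (fun i => v (some i)))] :
    DF (fun v => mwit (fun x => P x v)) := by
  have hw : DR (ι := Option (Option ι)) (fun v => P (v none) (fun i => v (some (some i)))) :=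
    DR.weaken (fun w : Option ι → M => P (w none) (fun i => w (some i)))
      (fun o : Option ι => (match o with | none => none | some i => some (some i) :
        Option (Option ι)))
  have hw2 : DR (ι := Option (Option (Option ι)))
      (fun v => P (v none) (fun i => v (some (some (some i))))) :=
    DR.weaken (fun w : Option ι → M => P (w none) (fun i => w (some i)))
      (fun o : Option ι => (match o with | none => none | some i => some (some (some i)) :
        Option (Option (Option ι))))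
  unfold SP.mwit
  infer_instance

theorem mwit_mem {P : M → Prop} [D1 P] {y : M} (h : y ∈ mwit P) : P y := ((mem_sep _ _ _).1 h).2

theorem exists_mwit (P : M → Prop) [D1 P] (h : ∃ y, P y) : ∃ y, y ∈ mwit P := by
  obtain ⟨y, hy⟩ := h
  obtain ⟨α, hα, hyα⟩ := exists_vN y
  have h1 := leastO_spec (fun α => ∃ y, y ∈ vN α ∧ P y) ⟨α, hα, y, hyα, hy⟩
  obtain ⟨z, hz, hPz⟩ := h1.2.1
  exact ⟨z, (mem_sep _ _ _).2 ⟨hz, hPz⟩⟩

/-- Collection. -/
theorem exists_coll (R : M → M → Prop) [D2 R] (a : M) :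
    ∃ b : M, ∀ x, x ∈ a → (∃ y, R x y) → ∃ y, y ∈ b ∧ R x y := by
  refine ⟨sUn (img a (fun x => mwit (fun y => R x y))), fun x hx h => ?_⟩
  obtain ⟨y, hy⟩ := exists_mwit (fun y => R x y) h
  refine ⟨y, ?_, mwit_mem (P := fun y => R x y) hy⟩
  rw [mem_sUn]
  refine ⟨mwit (fun y => R x y), ?_, hy⟩
  rw [mem_img]
  exact ⟨x, hx, rfl⟩

end Pool.Agent.ZFIter.NPA.BSM.SP
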