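import Pool.Agent.BSP.ARel1

/-!
# BSP/ARel3: a small extension of a small extension decides a set

`tot_sem`. By `uax_up` there is a Levy collapse `L : Fo F.Ext` of `can F κ` with `UAx Φ L.Ext (..)`. By its
fourth axiom for `can L z` (infinite, almost contained in `can L (can F q)`: `em_InfS`, `em_AE`) and `can L A`
there is `z' ⊆ can L z`, infinite, with `P3 Φ .. z' (can L A)` or `P3 Φ .. z' (omega minus can L A)`.
By `split_mem` and `lev_split` in `F.Ext` (`ac_ext`, `inacc_ext`; `c := omega`, `Small` by `small_mem`; take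
`μ := μ0`) there are `μ ∈ κ` (all elements of `can F κ` are `can F μ`: `em_elim`), `F1 : Fo F.Ext` a Levy
collapse of `can F μ`, `F2 : Fo F1.Ext` a Levy collapse of `can F1 (can F κ)`, `e : L.Ext ≃ F2.Ext`,
`z1 : F1.Ext` with `e z' = can F2 z1`. `e (can L x) = can F2 (can F1 x)`, so `P3 Φ` holds in `F2.Ext` for
`(can F2 (can F1 (can F b)), (can F2 z1, can F2 (can F1 A)))` (`UR.iso`), and `lf_of` in `F1.Ext` (`em_opair`).
`z1` is infinite and a subset of `can F1 z`: `em_InfS`, `em_sub` (for `can F2`, and `e`: `UR.iso` for `InfS`,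
or directly). The complement: `can F1 (sep omega (k ∉ A)) = sep omega (k ∉ can F1 A)`.
-/

universe u

namespace Pool.Agent.ZFIter.NPA.BSM.SP

open Pool.Agent.H78.ZF Pool.Agent.ZFIter Pool.Agent.ZFIter.NPA

variable {Φ : ∀ (M : Type u) [ZFM M], M → Prop} [hΦ : U1 Φ] {M : Type u} [ZFM M]

private theorem em_compl {N N' : Type u} [ZFM N] [ZFM N'] (i : N → N') [TEm i] (A : N) :
    i (sep omega (fun k => k ∉ A)) = sep omega (fun k => k ∉ i A) := by
  refine ext fun w => ?_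
  rw [mem_em_sep, mem_sep]
  constructor
  · rintro ⟨y, hy, hyA, rfl⟩
    exact ⟨by rw [← em_omega (i := i)]; exact em_mem.2 hy, fun h => hyA (em_mem.1 h)⟩
  · rintro ⟨h1, h2⟩
    obtain ⟨y, hy, rfl⟩ := (em_nat' i).1 h1
    exact ⟨y, hy, fun h => h2 (em_mem.2 h), rfl⟩

theorem tot_sem [Countable M] (hAC : AC M) {κ b q : M} (hκ : Inacc κ)
    (hax : LF (UAx Φ) κ (opair b q)) (F : Fo M) (hs : Small κ F.P) {z A : F.Ext} (hz : InfS z)
    (hzq : AE z (can F q)) (hA : A ⊆ omega) :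
    ∃ μ, μ ∈ κ ∧ ∃ F1 : Fo F.Ext, IsLev F1 (can F μ) ∧ ∃ z1 : F1.Ext, InfS z1 ∧
      z1 ⊆ can F1 z ∧
      (LF Φ (can F1 (can F κ)) (opair (can F1 (can F b)) (opair z1 (can F1 A))) ∨
        LF Φ (can F1 (can F κ)) (opair (can F1 (can F b))
          (opair z1 (can F1 (sep omega (fun k => k ∉ A)))))) := by
  have hAC' : AC F.Ext := ac_ext hAC
  have hκ' : Inacc (can F κ) := inacc_ext hκ hs
  obtain ⟨L, hL, _, _, _, h4⟩ := uax_up hAC hκ hax F hs
  rw [fs_opair, sn_opair] at h4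
  have hA' : can L A ⊆ omega := by
    rw [← em_omega (i := can L)]
    exact em_sub.2 hA
  obtain ⟨z', hz', hz'z, hP⟩ := h4 (can L z) (can L A) (em_InfS.2 hz) (em_AE.2 hzq) hA'
  have hsub : z' ⊆ can L omega := by
    rw [em_omega (i := can L)]
    exact hz'.1
  obtain ⟨μ0, hμ0, hμ⟩ := split_mem hκ' L hL (small_mem hκ'.2.1) hsub
  obtain ⟨μ, hμκ, rfl⟩ := em_elim.1 hμ0
  obtain ⟨F1, F2, hF1, hG, hF2, e, he, hcan⟩ := lev_split hAC' hκ' L hL hμ0
  obtain ⟨z1, hz1⟩ := hμ (can F μ) (sub_refl _) hμ0 F1 F2 e hF1 hG he hcan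
  refine ⟨μ, hμκ, F1, hF1, z1, ?_, ?_, ?_⟩
  · have h1 : InfS (e z') :=
      (UR.iso (fun (M : Type u) [ZFM M] (v : Unit → M) => InfS (v ())) e he (fun _ => z')).2 hz'
    rw [hz1] at h1
    exact em_InfS.1 h1
  · refine (em_sub (i := can F2)).1 ?_
    rw [← hz1, ← hcan]
    intro w hw
    obtain ⟨w, rfl⟩ := e.surjective w
    rw [he] at hw ⊢
    exact hz'z w hw
  · have key : ∀ B : F.Ext, P3 Φ (can L (can F b)) z' (can L B) →
        LF Φ (can F1 (can F κ)) (opair (can F1 (can F b)) (opair z1 (can F1 B))) := by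
      intro B hB
      have h1 := (UR.iso (fun (M : Type u) [ZFM M] (v : Fin 3 → M) => P3 Φ (v 0) (v 1) (v 2)) e he
        ![can L (can F b), z', can L B]).2 hB
      have h2 : P3 Φ (e (can L (can F b))) (e z') (e (can L B)) := h1
      rw [hz1, hcan, hcan] at h2
      rw [lf_of Φ F2 hF2, em_opair (i := can F2), em_opair (i := can F2)]
      exact h2
    rcases hP with h | h
    · exact Or.inl (key A h)
    · rw [← em_compl] at h
      exact Or.inr (key _ h)

end Pool.Agent.ZFIter.NPA.BSM.SP
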