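import Pool.Agent.BSP.ARel1

/-!
# BSP/ARel4: names for the two-step extension

`F` on `P` small, `F.G h`, `F1 : Fo F.Ext` a Levy collapse of `can F μ`, `F1.P = Lev (can F μ) = can F (Lev μ)`
(`em_Lev`, `em_LevR`). `prod_mk` for `F`, `F1` gives `F' : Fo M` on `prod (fs P) (Lev μ)` with the order `prR`;
let `Q := opair (prod (fs P) (Lev μ)) (prR (fs P) (sn P) (Lev μ) (LevR μ))`, so `OnQ F' Q`, and
`e' : F1.Ext ≃ F'.Ext` with `e' (can F1 (can F x)) = can F' x`.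
`Po Q`: `pre_prR`, `po_of_pre`. Small: `small_prod`, `small_lev` (BSM/VLev or VSm).
`f := mkf (fs Q) (fs P) (fun w => fs w)`; generic map: `Hom` by `le_prR`; for `Dns P D` and `(a, t) ∈ Q` take
`a' ≤ a` in `D`, `q' = (a', t)`.
`exists_nice`: a `Q`-name `ζ` with `vr F' Q ζ = e' z1`. `pull_val`: `vr F' Q (pull Q P f X) = e' (can F1 (vr F P X))`
for every `P`-name `X`: both are subsets of `omega`; `can F' n` is in the left side iff some `F'.G (a, t)` has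
`Nt P X n a`, iff some `F.G a` has it (`F'.G (a, t) ↔ F.G a ∧ F1.G (can F t)`, `F1.gen.ne`), iff
`can F n ∈ vr F P X`.
In `F'.Ext`: `vr F' Q ζ` is infinite, contained in `vr F' Q (pull Q P f z)`, so almost contained in all
`can F' a`, `a ∈ p` (`em_AE` for `can F1`, and `e'`), and `LF Φ (can F' κ) (opair (can F' b) (opair (vr F' Q ζ)
(vr F' Q (pull X))))` by `lf_iso` for `e'` and `pull_val`. `rel_truth` gives `h1`, `F'.G h1`, with `Rel`;
`fsub_truth` gives `h2`, `F'.G h2`, `FSub Q ζ (pull z) h2`; `(h, t) ∈ F'.G` for some `t`. Let `q'` be a common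
extension in `F'.G`. `Rel` and `FSub` go down (`rel_down`, `fsub_iff`), `FInf` is a part of `Yy`.

`fsub_truth`: `Fr` for the uniform relation `fun M _ c => fs c ⊆ sn c` and the name
`opnm (fs Q) (rn Q τ) (rn Q υ)` (`val_opnm`): `truth_Fr` gives `h`, then `fsub_iff` (and `fr_iff`).
-/

universe u

namespace Pool.Agent.ZFIter.NPA.BSM.SP

open Pool.Agent.H78.ZF Pool.Agent.ZFIter Pool.Agent.ZFIter.NPA

variable {Φ : ∀ (M : Type u) [ZFM M], M → Prop} [hΦ : U1 Φ] {M : Type u} [ZFM M]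

/-- `c` is a pair and its first component is a subset of the second. -/
private def SubP : ∀ (M : Type u) [ZFM M], M → Prop := fun _ _ c => fs c ⊆ sn c

private instance u1_SubP : U1 SubP.{u} := by
  constructor
  unfold SubP
  infer_instance

private theorem val_rn2 {Q : M} (F : Fo M) (hF : OnQ F Q) (τ υ : M) :
    F.val (opnm (fs Q) (rn Q τ) (rn Q υ)) = opair (vr F Q τ) (vr F Q υ) := by
  unfold vr
  rw [← hF.1, val_opnm]

omit hΦ in
private theorem tem_equiv {N N' : Type u} [ZFM N] [ZFM N'] (e : N ≃ N')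
    (he : ∀ x y, e x ∈ e y ↔ x ∈ y) : TEm (fun x => e x) :=
  ⟨he, fun _ z _ => ⟨e.symm z, (e.apply_symm_apply z).symm⟩,
    fun α _ => ⟨e.symm α, (e.apply_symm_apply α).symm⟩⟩

theorem fsub_truth [Countable M] {Q τ υ : M} (hQ : BLI.Po Q) {F : Fo M} (hF : OnQ F Q)
    (h1 : vr F Q τ ⊆ vr F Q υ) : ∃ h, F.G h ∧ BLI.FSub Q τ υ h := by
  have h2 : SubP F.Ext (F.val (opnm (fs Q) (rn Q τ) (rn Q υ))) := by
    rw [val_rn2 F hF]
    unfold SubP
    rw [fs_opair, sn_opair]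
    exact h1
  obtain ⟨h, hG, hfr⟩ := (truth_Fr SubP.{u} F _).1 h2
  rw [hF.1, hF.2] at hfr
  have hh : h ∈ fs Q := by
    rw [← hF.1]
    exact Fo.G_mem hG
  refine ⟨h, hG, (fsub_iff hQ hh).2 fun F' hF' hG' => ?_⟩
  have h3 : SubP F'.Ext (F'.val (opnm (fs Q) (rn Q τ) (rn Q υ))) :=
    (truth_Fr SubP.{u} F' _).2 ⟨h, hG', by rw [hF'.1, hF'.2]; exact hfr⟩
  rw [val_rn2 F' hF'] at h3
  unfold SubP at h3
  rwa [fs_opair, sn_opair] at h3

theorem tot_name [Countable M] {κ b p : M} (hκ : Inacc κ) {P z X h μ : M}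
    (hP : BLI.SP (Small κ) P) (hμ : μ ∈ κ) {F : Fo M} (hF : OnQ F P) (hh : F.G h)
    (hy : BLI.Yy P p z h) {F1 : Fo F.Ext} (hF1 : IsLev F1 (can F μ)) {z1 : F1.Ext} (hz1 : InfS z1)
    (hz : z1 ⊆ can F1 (vr F P z))
    (hl : LF Φ (can F1 (can F κ)) (opair (can F1 (can F b)) (opair z1 (can F1 (vr F P X))))) :
    ∃ Q f q' ζ, BLI.SP (Small κ) Q ∧ BLI.IsGen Q P f ∧ q' ∈ fs Q ∧
      BLI.LE P (ap f q') h ∧ BLI.FInf Q ζ q' ∧ BLI.FSub Q ζ (BLI.pull Q P f z) q' ∧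
      Rel Φ κ p b Q ζ (BLI.pull Q P f X) q' := by
  have hPo := hP.1
  have hpreP : Pre (fs P) (sn P) := pre_of_po hPo
  have hP1 : F1.P = can F (Lev μ) := by rw [em_Lev (i := can F)]; exact hF1.1
  have hR1 : F1.R = can F (LevR μ) := by rw [em_LevR (i := can F)]; exact hF1.2
  obtain ⟨F', hP', hR', hG', hI⟩ := prod_mk F F1 (P2 := Lev μ) (R2 := LevR μ) pre_lev hP1 hR1
  obtain ⟨e', he', hc'⟩ := hI
  let Q : M := opair (prod (fs P) (Lev μ)) (prR (fs P) (sn P) (Lev μ) (LevR μ))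
  have hfsQ : fs Q = prod (fs P) (Lev μ) := fs_opair _ _
  have hsnQ : sn Q = prR (fs P) (sn P) (Lev μ) (LevR μ) := sn_opair _ _
  have hPoQ : BLI.Po Q := po_of_pre (pre_prR hpreP pre_lev)
  have hSPQ : BLI.SP (Small κ) Q := by
    refine ⟨hPoQ, ?_⟩
    rw [hfsQ]
    exact small_prod hκ hP.2 (small_lev hκ hμ)
  have hF' : OnQ F' Q := by
    constructor
    · rw [hP', hF.1, hfsQ]
    · rw [hR', hF.1, hF.2, hsnQ]
  have hLE : ∀ a t a' t', BLI.LE Q (opair a t) (opair a' t') ↔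
      BLI.LE P a a' ∧ Le (Lev μ) (LevR μ) t t' := by
    intro a t a' t'
    rw [← le_LE, hfsQ, hsnQ, le_prR, le_LE]
  have hfm : ∀ w, w ∈ fs Q → fs w ∈ fs P := by
    intro w hw
    rw [hfsQ] at hw
    obtain ⟨a, ha, t, ht, rfl⟩ := (mem_prod _ _ _).1 hw
    rw [fs_opair]
    exact ha
  let f : M := mkf (fs Q) (fs P) (fun w => fs w)
  have hfun : Fun f (fs Q) (fs P) := mkf_fun hfm
  have hap : ∀ w, w ∈ fs Q → ap f w = fs w := fun w hw => ap_mkf hfm hw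
  have hhom : BLI.Hom Q P f := by
    refine ⟨hfun, fun x y hxy => ?_⟩
    rw [hap x hxy.1, hap y hxy.2.1]
    have hx := hxy.1
    have hy' := hxy.2.1
    rw [hfsQ] at hx hy'
    obtain ⟨a, ha, t, ht, rfl⟩ := (mem_prod _ _ _).1 hx
    obtain ⟨a', ha', t', ht', rfl⟩ := (mem_prod _ _ _).1 hy'
    rw [fs_opair, fs_opair]
    exact ((hLE _ _ _ _).1 hxy).1
  have hgen : BLI.IsGen Q P f := by
    refine ⟨hhom, fun D hD q hq => ?_⟩
    have hq' := hq
    rw [hfsQ] at hq'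
    obtain ⟨a, ha, t, ht, rfl⟩ := (mem_prod _ _ _).1 hq'
    obtain ⟨a', h1, h2⟩ := hD.2.2 a ha
    have h3 : BLI.LE Q (opair a' t) (opair a t) := (hLE _ _ _ _).2 ⟨h1, pre_lev.refl ht⟩
    refine ⟨opair a' t, h3, ?_⟩
    rw [hap _ h3.1, fs_opair]
    exact h2
  -- elements of the filter
  have hel : ∀ x, F.G x → ∃ t, t ∈ Lev μ ∧ F'.G (opair x t) := by
    intro x hx
    obtain ⟨t', ht'⟩ := F1.gen.ne
    have h1 := Fo.G_mem ht'
    rw [hP1] at h1
    obtain ⟨t, ht, rfl⟩ := (em_elim (i := can F)).1 h1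
    exact ⟨t, ht, (hG' _ _).2 ⟨hx, ht'⟩⟩
  have hGiff : ∀ x, F.G x ↔ ∃ q, F'.G q ∧ BLI.LE P (ap f q) x := by
    intro x
    constructor
    · intro hx
      obtain ⟨t, ht, h1⟩ := hel x hx
      refine ⟨opair x t, h1, ?_⟩
      have h2 := Fo.G_mem h1
      rw [hF'.1] at h2
      rw [hap _ h2, fs_opair]
      have h3 := Fo.G_mem hx
      rw [hF.1] at h3
      exact hPo.1 x h3
    · rintro ⟨q, hq, hl⟩
      have h2 := Fo.G_mem hq
      rw [hF'.1] at h2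
      rw [hap _ h2] at hl
      rw [hfsQ] at h2
      obtain ⟨a, ha, t, ht, rfl⟩ := (mem_prod _ _ _).1 h2
      rw [fs_opair] at hl
      refine F.gen.up a x ((hG' _ _).1 hq).1 ?_
      rw [hF.1, hF.2]
      exact hl
  -- values of the pulled back names
  have hpv : ∀ Y : M, vr F' Q (BLI.pull Q P f Y) = e' (can F1 (vr F P Y)) := by
    intro Y
    have he2 : ∀ x y, e'.symm x ∈ e'.symm y ↔ x ∈ y := by
      intro x y
      rw [← he', Equiv.apply_symm_apply, Equiv.apply_symm_apply]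
    have hc2 : ∀ x, e'.symm (can F' x) = can F1 (can F x) := by
      intro x
      rw [← hc' x, Equiv.symm_apply_apply]
    have h1 := vr_pull (τ := Y) hF' hPo hhom hF hGiff he2 hc2
    rw [← h1, Equiv.apply_symm_apply]
  have hT : TEm (fun x => e' x) := tem_equiv e' he'
  have heo : ∀ x y, e' (opair x y) = opair (e' x) (e' y) := fun x y =>
    em_opair (i := fun x => e' x) x y
  have hes : ∀ x y, e' x ⊆ e' y ↔ x ⊆ y := fun x y => em_sub (i := fun x => e' x)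
  have heI : InfS (e' z1) := (em_InfS (i := fun x => e' x)).2 hz1
  obtain ⟨ζ, hζ⟩ := exists_nice hF' hPoQ (x := e' z1) heI.1
  have hhQ : h ∈ fs P := by
    rw [← hF.1]
    exact Fo.G_mem hh
  have hyF := ((yy_iff hPo).1 hy).2 F hF hh
  have k1 : InfS (vr F' Q ζ) := by
    rw [← hζ]
    exact heI
  have k2 : ∀ a, a ∈ p → AE (vr F' Q ζ) (can F' a) := by
    intro a ha
    rw [← hζ, ← hc' a]
    refine (em_AE (i := fun x => e' x)).2 ?_
    obtain ⟨m, hm, h1⟩ := (em_AE (i := can F1)).2 (hyF.2 a ha)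
    exact ⟨m, hm, fun n hn h2 => h1 n (hz n hn) h2⟩
  have k3 : LF Φ (can F' κ) (opair (can F' b) (opair (vr F' Q ζ)
      (vr F' Q (BLI.pull Q P f X)))) := by
    rw [hpv, ← hζ, ← hc' κ, ← hc' b, ← heo, ← heo]
    exact (lf_iso Φ e' he').2 hl
  have k4 : vr F' Q ζ ⊆ vr F' Q (BLI.pull Q P f z) := by
    rw [hpv, ← hζ, hes]
    exact hz
  obtain ⟨h1, hG1, hrel⟩ := rel_truth hPoQ hF' k1 k2 k3
  obtain ⟨h2, hG2, hfs⟩ := fsub_truth hPoQ hF' k4
  obtain ⟨t, ht, hG3⟩ := hel h hh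
  obtain ⟨q1, hq1, l1, l2⟩ := F'.gen.dir _ _ hG1 hG2
  obtain ⟨q', hq', l3, l4⟩ := F'.gen.dir _ _ hq1 hG3
  rw [hF'.1, hF'.2, le_LE] at l1 l2 l3 l4
  have l5 := hPoQ.2 _ _ _ l3 l1
  have l6 := hPoQ.2 _ _ _ l3 l2
  refine ⟨Q, f, q', ζ, hSPQ, hgen, l4.1, ?_, hrel.1.2.1.down hPoQ l5, hfs.down hPoQ l6,
    rel_down hPoQ hrel l5⟩
  have h5 := hhom.2 _ _ l4
  rw [hap _ l4.2.1, fs_opair] at h5
  exact h5

end Pool.Agent.ZFIter.NPA.BSM.SP
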