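import Pool.Agent.BSP.ARel2
import Pool.Agent.BSP.ARel3
import Pool.Agent.BSP.ARel4

/-!
# BSP/ARel: `Rel` satisfies the axioms of `AbsRel`

`rel_tot`: let `F : Fo M` be on `P` with `F.G h` (`exists_onQ`); `vr F P z` is infinite and almost contained in
`can F q` (`yy_iff`). `tot_sem` for `vr F P z`, `vr F P A` (`vr_sub`) gives `μ, F1, z1`. Apply `tot_name` with
`X := A`, or, in the second case, with `X := cmp P A` (`vr_cmp`), which gives `Rel .. (pull Q P f (cmp P A)) q'`;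
then `rel_mono` (with `FInf`, `FSub` reflexive) and `FSub Q (pull Q P f (cmp P A)) (cmp Q (pull Q P f A)) q'`:
by `fsub_iff`: for every frame `F'` on `Q`, with the image filter `F''` on `P` (`gen_map` of DQuo), both sides
are the complement of `vr F' Q (pull Q P f A)` (`vr_cmp`, `can_mem_vr`: `can F' n ∈ vr F' Q (pull Q P f X)` iff
`∃ k, F''.G k ∧ Nt P X n k` iff `can F'' n ∈ vr F'' P X`, for `X = A` and for `X = cmp P A`).
-/

universe u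

namespace Pool.Agent.ZFIter.NPA.BSM.SP

open Pool.Agent.H78.ZF Pool.Agent.ZFIter Pool.Agent.ZFIter.NPA

variable {Φ : ∀ (M : Type u) [ZFM M], M → Prop} [hΦ : U1 Φ] {M : Type u} [ZFM M]

theorem rel_tot [Countable M] (hAC : AC M) {κ b q p : M} (hκ : Inacc κ) (hq : q ∈ p)
    (hax : LF (UAx Φ) κ (opair b q)) {P z A h : M} (hP : BLI.SP (Small κ) P)
    (hy : BLI.Yy P p z h) : ∃ Q f q' z', BLI.SP (Small κ) Q ∧ BLI.IsGen Q P f ∧ q' ∈ fs Q ∧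
      BLI.LE P (ap f q') h ∧ BLI.FInf Q z' q' ∧ BLI.FSub Q z' (BLI.pull Q P f z) q' ∧
      (Rel Φ κ p b Q z' (BLI.pull Q P f A) q' ∨
        Rel Φ κ p b Q z' (BLI.cmp Q (BLI.pull Q P f A)) q') := by
  obtain ⟨F, hF, hG⟩ := exists_onQ hP.1 hy.1
  have hs : Small κ F.P := by
    rw [hF.1]
    exact hP.2
  obtain ⟨hinf, hae⟩ := ((yy_iff hP.1).1 hy).2 F hF hG
  obtain ⟨μ, hμ, F1, hF1, z1, hz1, hz, hl | hl⟩ :=
    tot_sem (Φ := Φ) hAC hκ hax F hs hinf (hae q hq) (vr_sub hF (τ := A))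
  · obtain ⟨Q, f, q', ζ, h1, h2, h3, h4, h5, h6, h7⟩ :=
      tot_name (Φ := Φ) hκ hP hμ hF hG hy hF1 hz1 hz hl
    exact ⟨Q, f, q', ζ, h1, h2, h3, h4, h5, h6, Or.inl h7⟩
  · rw [← vr_cmp hF hP.1] at hl
    obtain ⟨Q, f, q', ζ, h1, h2, h3, h4, h5, h6, h7⟩ :=
      tot_name (Φ := Φ) hκ hP hμ hF hG hy hF1 hz1 hz hl
    refine ⟨Q, f, q', ζ, h1, h2, h3, h4, h5, h6, Or.inr ?_⟩
    refine rel_mono hAC hκ hq hax h1 h7 h5 (BLI.FSub.refl h1.1 ζ q') ?_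
    refine BLI.FSub.of_le h1.1 (fun n k hn hk => ?_) q'
    obtain ⟨_, hk', h8⟩ := (BLI.Nt_pull h1.1 hP.1 h2.1).1 hk
    obtain ⟨_, _, h9⟩ := (BLI.Nt_cmp hP.1).1 h8
    refine (BLI.Nt_cmp h1.1).2 ⟨hn, hk', fun k' hk'' hN => ?_⟩
    exact h9 (ap f k') (h2.1.2 _ _ hk'') ((BLI.Nt_pull h1.1 hP.1 h2.1).1 hN).2.2

theorem absRel [Countable M] (hAC : AC M) {κ b q p : M} (hκ : Inacc κ) (hq : q ∈ p)
    (hax : LF (UAx Φ) κ (opair b q)) : BLI.AbsRel (Small κ) p (Rel Φ κ p b) where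
  yy := fun _ _ _ _ _ h => h.1
  down := fun _ _ _ _ _ hQ h hl => rel_down hQ.1 h hl
  pull := fun _ _ _ _ _ _ hP hQ hf hq h => rel_pull hAC hκ hP hQ hf hq h
  mono := fun _ _ _ _ _ _ hQ h h1 h2 h3 => rel_mono hAC hκ hq hax hQ h h1 h2 h3
  inter := fun _ _ _ _ _ hQ h h' => rel_inter hAC hκ hq hax hQ h h'
  ne := fun _ _ _ _ hQ h => rel_ne hAC hκ hq hax hQ h
  tot := fun _ _ _ _ hP hy => rel_tot hAC hκ hq hax hP hy

end Pool.Agent.ZFIter.NPA.BSM.SP
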