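import Pool.Agent.BSP.TDefs
import Pool.Agent.BSM.WGen

/-!
# BSP/TLev: the statement that the Levy collapse forces a property; the relation `Rel`

`Fr Φ P R τ p`: `p` forces `Φ(τ)`; `LF Φ κ c`: every condition of the Levy collapse of `κ` forces `Φ(c)`, for
an element `c` of the ground model. These are uniformly definable relations (for all models at once), if
`Φ` is one.
-/

universe u

namespace Pool.Agent.ZFIter.NPA.BSM.SP

open Pool.Agent.H78.ZF Pool.Agent.ZFIter Pool.Agent.ZFIter.NPA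

section

variable (Φ : ∀ (M : Type u) [ZFM M], M → Prop) [hΦ : U1 Φ]

/-- `p` forces `Φ` of the value of `τ`. -/
noncomputable def Fr {M : Type u} [ZFM M] (P R τ p : M) : Prop :=
  have := hΦ.out
  Frc (fun M _ (w : Unit → M) => Φ M (w ())) P R (fun _ => τ) p

instance UR.Fr {ι : Type} (P R τ p : ∀ (M : Type u) [ZFM M], (ι → M) → M) [hP : UF P] [hR : UF R]
    [hτ : UF τ] [hp : UF p] : UR (fun M _ v => Fr Φ (P M v) (R M v) (τ M v) (p M v)) := by
  have := hΦ.out
  have h2 : ∀ i : Unit, UF (fun M _ v => (fun (M : Type u) [ZFM M] (_ : Unit) (v : ι → M) => τ M v) M i v) :=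
    fun _ => hτ
  exact UR.Frc (fun M _ (w : Unit → M) => Φ M (w ())) P R p
    (fun (M : Type u) [ZFM M] (_ : Unit) (v : ι → M) => τ M v)

theorem good_Fr {M : Type u} [ZFM M] (P R : M) [Pre P R] (τ : M) : Good P R (Fr Φ P R τ) := by
  have := hΦ.out
  exact good_Frc (fun M _ (w : Unit → M) => Φ M (w ())) P R (fun _ => τ)

/-- The truth lemma. -/
theorem truth_Fr {M : Type u} [ZFM M] (F : Fo M) (τ : M) :
    Φ F.Ext (F.val τ) ↔ ∃ p, F.G p ∧ Fr Φ F.P F.R τ p := by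
  have := hΦ.out
  exact truth_Frc (fun M _ (w : Unit → M) => Φ M (w ())) F (fun _ => τ)

theorem fr_iff {M : Type u} [ZFM M] [Countable M] {P R : M} [hP : Pre P R] {τ p : M} (hp : p ∈ P) :
    Fr Φ P R τ p ↔ ∀ F : Fo M, F.P = P → F.R = R → F.G p → Φ F.Ext (F.val τ) := by
  constructor
  · intro h F h1 h2 h3
    subst h1 h2
    exact (truth_Fr Φ F τ).2 ⟨p, h3, h⟩
  · intro h
    refine (good_Fr Φ P R τ).dense (fun q hq => ?_)
    obtain ⟨G, hG, hGq⟩ := exists_gen P R q hq.memL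
    obtain ⟨r, hr, h1⟩ := (truth_Fr Φ (Fo.mk P R G hP hG) τ).1
      (h (Fo.mk P R G hP hG) rfl rfl (hG.up q p hGq hq))
    obtain ⟨s, hs, hsr, hsq⟩ := hG.dir r q hr hGq
    exact ⟨s, hsq, (good_Fr Φ P R τ).mono h1 hsr⟩

/-- The Levy collapse of `κ` forces `Φ(c)`. -/
noncomputable def LF {M : Type u} [ZFM M] (κ c : M) : Prop :=
  ∀ t, t ∈ Lev κ → Fr Φ (Lev κ) (LevR κ) (chk (Lev κ) c) t

instance UR.LF {ι : Type} (κ c : ∀ (M : Type u) [ZFM M], (ι → M) → M) [hκ : UF κ] [hc : UF c] :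
    UR (fun M _ v => LF Φ (κ M v) (c M v)) := by
  unfold SP.LF
  infer_instance

end

end Pool.Agent.ZFIter.NPA.BSM.SP
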