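import Pool.Agent.BSP.DDen
import Pool.Agent.BSP.TLev

/-!
# BSP/KHom: the Levy collapse is homogeneous

AUTOMORPHISMS. For conditions `s, t ∈ Lev κ` let `sw s t a ξ` (`a = opair α n`) be: `η` if
`opair a ξ ∈ s` and `opair a η ∈ t`; `η` if `opair a ξ ∈ t` and `opair a η ∈ s`; otherwise `ξ` (values of
partial functions; if `a` is in the domain of both, the values `s(a)`, `t(a)` are exchanged). This is a
definable function (use `iota` or `if`-free: `sUn (sep ..)`), an involution for fixed `a`, and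
`ξ ∈ α → sw .. ξ ∈ α`. `π p := img p (fun z => opair (fs z) (sw s t (fs z) (sn z)))` maps `Lev κ` to itself
(finite: `fin_img`), `π (π p) = p`, `p ⊆ q ↔ π p ⊆ π q`, and `π s ∪ t` is a function: for `a` in both domains
`π s (a) = t(a)`; it is in `Lev κ`. So `d := mkf (Lev κ) (Lev κ) π` is a dense embedding (`DE`) of the Levy
collapse in itself, and `Le r (ap d s)`, `Le r t` for `r := un (π s) t`.

`homog`: let `F, F'` be Levy collapses, `Φ F.Ext (can F c)` and not `Φ F'.Ext (can F' c)`. By `truth_Fr`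
(`can F c = F.val (chk F.P c)`) there are `s`, `F.G s`, and `t`, `F'.G t`, such that `s` forces `Φ(č)` and
`t` forces `¬ Φ(č)` (`Φ'  := fun M _ x => ¬ Φ M x`). Take `d`, `r` as above and `H : Fo M` Levy with `H.G r`
(`exists_gen`). `de_pull H (d)` gives `H'` Levy with `H'.G x ↔ H.G (ap d x)`, so `H'.G s` (upward closure),
and `IsoOv (can H) (can H')`. So `Φ H'.Ext (can H' c)` and `¬ Φ H.Ext (can H c)`, contradiction with
`IsoOv.ur`.
-/

universe u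

namespace Pool.Agent.ZFIter.NPA.BSM.SP

open Pool.Agent.H78.ZF Pool.Agent.ZFIter Pool.Agent.ZFIter.NPA

variable {M : Type u} [ZFM M] {ι : Type}

/-- The values of the two conditions `s`, `t` at the coordinate `a` are exchanged. -/
def SwR (s t a ξ η : M) : Prop :=
  (opair a ξ ∈ s ∧ opair a η ∈ t) ∨ (opair a ξ ∈ t ∧ opair a η ∈ s) ∨
    (ξ = η ∧ (¬ ∃ ζ, opair a ξ ∈ s ∧ opair a ζ ∈ t) ∧ ¬ ∃ ζ, opair a ξ ∈ t ∧ opair a ζ ∈ s)

instance DR.SwR (s t a ξ η : (ι → M) → M) [DF s] [DF t] [DF a] [DF ξ] [DF η] :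
    DR (fun v => SwR (s v) (t v) (a v) (ξ v) (η v)) := by
  unfold SP.SwR
  infer_instance

/-- The pair `x` is obtained from the pair `y` by the exchange. -/
def SwP (s t x y : M) : Prop := ∃ a ξ η, y = opair a ξ ∧ x = opair a η ∧ SwR s t a ξ η

instance DR.SwP (s t x y : (ι → M) → M) [DF s] [DF t] [DF x] [DF y] :
    DR (fun v => SwP (s v) (t v) (x v) (y v)) := by
  unfold SP.SwP
  infer_instance

/-- The image of the condition `p` under the exchange. -/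
noncomputable def swp (κ s t p : M) : M :=
  sep (prod (prod κ omega) κ) (fun x => ∃ y, y ∈ p ∧ SwP s t x y)

instance DF.swp (κ s t p : (ι → M) → M) [DF κ] [DF s] [DF t] [DF p] :
    DF (fun v => swp (κ v) (s v) (t v) (p v)) := by
  unfold SP.swp
  infer_instance

section swap

variable {κ s t p q a ξ η ζ : M}

theorem SwR.symm (h : SwR s t a ξ η) : SwR s t a η ξ := by
  rcases h with h | h | ⟨rfl, h⟩
  · exact Or.inr (Or.inl ⟨h.2, h.1⟩)
  · exact Or.inl ⟨h.2, h.1⟩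
  · exact Or.inr (Or.inr ⟨rfl, h⟩)

theorem swR_total (s t a ξ : M) : ∃ η, SwR s t a ξ η := by
  by_cases h1 : ∃ ζ, opair a ξ ∈ s ∧ opair a ζ ∈ t
  · obtain ⟨ζ, h⟩ := h1
    exact ⟨ζ, Or.inl h⟩
  · by_cases h2 : ∃ ζ, opair a ξ ∈ t ∧ opair a ζ ∈ s
    · obtain ⟨ζ, h⟩ := h2
      exact ⟨ζ, Or.inr (Or.inl h)⟩
    · exact ⟨ξ, Or.inr (Or.inr ⟨rfl, h1, h2⟩)⟩

theorem swR_fun (hs : s ∈ Lev κ) (ht : t ∈ Lev κ) (h : SwR s t a ξ η) (h' : SwR s t a ξ ζ) :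
    η = ζ := by
  have fs := (mem_lev.1 hs).2.2.1
  have ft := (mem_lev.1 ht).2.2.1
  rcases h with h | h | ⟨rfl, h1, h2⟩
  · rcases h' with h' | h' | ⟨rfl, h3, h4⟩
    · exact ft _ _ _ h.2 h'.2
    · rw [ft _ _ _ h.2 h'.1, fs _ _ _ h'.2 h.1]
    · exact absurd ⟨_, h⟩ h3
  · rcases h' with h' | h' | ⟨rfl, h3, h4⟩
    · rw [fs _ _ _ h.2 h'.1, ft _ _ _ h'.2 h.1]
    · exact fs _ _ _ h.2 h'.2
    · exact absurd ⟨_, h⟩ h4
  · rcases h' with h' | h' | ⟨rfl, h3, h4⟩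
    · exact absurd ⟨_, h'⟩ h1
    · exact absurd ⟨_, h'⟩ h2
    · rfl

theorem swR_val (hs : s ∈ Lev κ) (ht : t ∈ Lev κ) (hp : p ∈ Lev κ) (h0 : opair a ξ ∈ p)
    (h : SwR s t a ξ η) : ∃ β n, a = opair β n ∧ β ∈ κ ∧ n ∈ (omega : M) ∧ η ∈ κ ∧ η ∈ β := by
  have key : ∀ u : M, u ∈ Lev κ → opair a η ∈ u →
      ∃ β n, a = opair β n ∧ β ∈ κ ∧ n ∈ (omega : M) ∧ η ∈ κ ∧ η ∈ β := by
    intro u hu hη
    obtain ⟨β, n, ξ', h1, h2, h3, h4, e⟩ := lev_elem hu hη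
    obtain ⟨e1, rfl⟩ := opair_inj e
    exact ⟨β, n, e1, h1, h2, h3, h4⟩
  rcases h with h | h | ⟨rfl, h⟩
  · exact key t ht h.2
  · exact key s hs h.2
  · exact key p hp h0

theorem opair_mem_swp (hs : s ∈ Lev κ) (ht : t ∈ Lev κ) (hp : p ∈ Lev κ) :
    opair a η ∈ swp κ s t p ↔ ∃ ξ, opair a ξ ∈ p ∧ SwR s t a ξ η := by
  unfold swp
  rw [mem_sep]
  constructor
  · rintro ⟨-, y, hy, a', ξ, η', rfl, e, h⟩
    obtain ⟨rfl, rfl⟩ := opair_inj e
    exact ⟨ξ, hy, h⟩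
  · rintro ⟨ξ, h1, h2⟩
    obtain ⟨β, n, rfl, h3, h4, h5, h6⟩ := swR_val hs ht hp h1 h2
    refine ⟨?_, opair (opair β n) ξ, h1, opair β n, ξ, η, rfl, rfl, h2⟩
    rw [opair_mem_prod, opair_mem_prod]
    exact ⟨⟨h3, h4⟩, h5⟩

theorem swp_elem {z : M} (h : z ∈ swp κ s t p) : ∃ a η, z = opair a η := by
  unfold swp at h
  rw [mem_sep, mem_prod] at h
  obtain ⟨⟨a, _, η, _, rfl⟩, _⟩ := h
  exact ⟨a, η, rfl⟩

theorem swp_fin (hs : s ∈ Lev κ) (ht : t ∈ Lev κ) (hp : p ∈ Lev κ) : FinM (swp κ s t p) := by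
  unfold swp
  refine fin_bunion (prod (prod κ omega) κ) (fun x y => SwP s t x y) (mem_lev.1 hp).2.1 ?_
  intro y hy
  obtain ⟨β, n, ξ, -, -, -, -, rfl⟩ := lev_elem hp hy
  obtain ⟨η, hη⟩ := swR_total s t (opair β n) ξ
  refine fin_sub (fin_sing (opair (opair β n) η)) ?_
  intro x hx
  rw [mem_sep] at hx
  obtain ⟨-, a, ξ', η', e1, rfl, h⟩ := hx
  obtain ⟨rfl, rfl⟩ := opair_inj e1
  rw [mem_sing, swR_fun hs ht h hη]

theorem swp_mem (hs : s ∈ Lev κ) (ht : t ∈ Lev κ) (hp : p ∈ Lev κ) : swp κ s t p ∈ Lev κ := by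
  rw [mem_lev]
  refine ⟨?_, swp_fin hs ht hp, ?_, ?_⟩
  · intro z hz
    unfold swp at hz
    rw [mem_sep] at hz
    exact hz.1
  · intro a η ζ h1 h2
    rw [opair_mem_swp hs ht hp] at h1 h2
    obtain ⟨ξ, h3, h4⟩ := h1
    obtain ⟨ξ', h5, h6⟩ := h2
    have e : ξ = ξ' := (mem_lev.1 hp).2.2.1 _ _ _ h3 h5
    rw [← e] at h6
    exact swR_fun hs ht h4 h6
  · intro α n η h1
    rw [opair_mem_swp hs ht hp] at h1
    obtain ⟨ξ, h3, h4⟩ := h1
    obtain ⟨β, m, e, -, -, -, h5⟩ := swR_val hs ht hp h3 h4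
    obtain ⟨rfl, -⟩ := opair_inj e
    exact h5

theorem swp_swp (hs : s ∈ Lev κ) (ht : t ∈ Lev κ) (hp : p ∈ Lev κ) :
    swp κ s t (swp κ s t p) = p := by
  have hp' := swp_mem hs ht hp
  apply Pool.Agent.H78.ZF.ext
  intro z
  constructor
  · intro hz
    obtain ⟨a, ζ, rfl⟩ := swp_elem hz
    rw [opair_mem_swp hs ht hp'] at hz
    obtain ⟨η, h1, h2⟩ := hz
    rw [opair_mem_swp hs ht hp] at h1
    obtain ⟨ξ, h3, h4⟩ := h1
    rwa [swR_fun hs ht h2 h4.symm]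
  · intro hz
    obtain ⟨β, n, ξ, -, -, -, -, rfl⟩ := lev_elem hp hz
    obtain ⟨η, hη⟩ := swR_total s t (opair β n) ξ
    rw [opair_mem_swp hs ht hp']
    exact ⟨η, (opair_mem_swp hs ht hp).2 ⟨ξ, hz, hη⟩, hη.symm⟩

theorem swp_mono (h : p ⊆ q) : swp κ s t p ⊆ swp κ s t q := by
  intro z hz
  unfold swp at hz ⊢
  rw [mem_sep] at hz ⊢
  obtain ⟨h1, y, hy, h2⟩ := hz
  exact ⟨h1, y, h y hy, h2⟩

end swap

/-- Any two conditions become compatible under an automorphism. -/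
theorem exists_aut {κ s t : M} (hs : s ∈ Lev κ) (ht : t ∈ Lev κ) :
    ∃ d r, DE (Lev κ) (LevR κ) (Lev κ) (LevR κ) d ∧ r ∈ Lev κ ∧ ap d s ⊆ r ∧ t ⊆ r := by
  have hm : ∀ x, x ∈ Lev κ → swp κ s t x ∈ Lev κ := fun x hx => swp_mem hs ht hx
  have hap : ∀ {x}, x ∈ Lev κ → ap (mkf (Lev κ) (Lev κ) (fun p => swp κ s t p)) x =
      swp κ s t x := fun hx => ap_mkf hm hx
  refine ⟨mkf (Lev κ) (Lev κ) (fun p => swp κ s t p), un (swp κ s t s) t, ?_, ?_, ?_, ?_⟩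
  · refine ⟨mkf_fun hm, ?_, ?_, ?_⟩
    · intro x y h
      rw [le_lev] at h
      rw [hap h.1, hap h.2.1, le_lev]
      exact ⟨hm x h.1, hm y h.2.1, swp_mono h.2.2⟩
    · intro x y q hx hy h1 h2
      rw [hap hx, le_lev] at h1
      rw [hap hy, le_lev] at h2
      refine ⟨swp κ s t q, ?_, ?_⟩
      · rw [le_lev]
        refine ⟨hm q h1.1, hx, ?_⟩
        have := swp_mono (κ := κ) (s := s) (t := t) h1.2.2
        rwa [swp_swp hs ht hx] at this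
      · rw [le_lev]
        refine ⟨hm q h2.1, hy, ?_⟩
        have := swp_mono (κ := κ) (s := s) (t := t) h2.2.2
        rwa [swp_swp hs ht hy] at this
    · intro q hq
      refine ⟨swp κ s t q, hm q hq, ?_⟩
      rw [hap (hm q hq), swp_swp hs ht hq]
      exact Pre.refl hq
  · have hs' := mem_lev.1 (hm s hs)
    have ht' := mem_lev.1 ht
    have key : ∀ a ξ η, opair a ξ ∈ swp κ s t s → opair a η ∈ t → ξ = η := by
      intro a ξ η h1 h2
      rw [opair_mem_swp hs ht hs] at h1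
      obtain ⟨ζ, h3, h4⟩ := h1
      exact swR_fun hs ht h4 (Or.inl ⟨h3, h2⟩)
    rw [mem_lev]
    refine ⟨?_, fin_un hs'.2.1 ht'.2.1, ?_, ?_⟩
    · intro z hz
      rw [mem_un] at hz
      rcases hz with hz | hz
      · exact hs'.1 z hz
      · exact ht'.1 z hz
    · intro a ξ η h1 h2
      rw [mem_un] at h1 h2
      rcases h1 with h1 | h1 <;> rcases h2 with h2 | h2
      · exact hs'.2.2.1 _ _ _ h1 h2
      · exact key _ _ _ h1 h2
      · exact (key _ _ _ h2 h1).symm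
      · exact ht'.2.2.1 _ _ _ h1 h2
    · intro α n ξ h1
      rw [mem_un] at h1
      rcases h1 with h1 | h1
      · exact hs'.2.2.2 _ _ _ h1
      · exact ht'.2.2.2 _ _ _ h1
  · rw [hap hs]
    intro z hz
    rw [mem_un]
    exact Or.inl hz
  · intro z hz
    rw [mem_un]
    exact Or.inr hz

private theorem homog_aux [Countable M] {κ : M} {F F' : Fo M} (hF : IsLev F κ) (hF' : IsLev F' κ)
    (Φ : ∀ (M : Type u) [ZFM M], M → Prop) [U1 Φ] (c : M)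
    (h : Φ F.Ext (can F c)) (h' : ¬ Φ F'.Ext (can F' c)) : False := by
  have hU : U1 (fun (M : Type u) [ZFM M] (x : M) => ¬ Φ M x) := by infer_instance
  obtain ⟨s, hs, hs1⟩ := (truth_Fr Φ F (chk F.P c)).1 h
  obtain ⟨t, ht, ht1⟩ := (truth_Fr (fun (M : Type u) [ZFM M] (x : M) => ¬ Φ M x) F'
    (chk F'.P c)).1 h'
  have hsP : s ∈ F.P := Fo.G_mem hs
  have htP : t ∈ F'.P := Fo.G_mem ht
  rw [hF.1, hF.2] at hs1
  rw [hF'.1, hF'.2] at ht1
  rw [hF.1] at hsP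
  rw [hF'.1] at htP
  obtain ⟨d, r, hd, hr, h1, h2⟩ := exists_aut hsP htP
  obtain ⟨G, hG, hGr⟩ := exists_gen (Lev κ) (LevR κ) r hr
  obtain ⟨H, hH⟩ : ∃ H : Fo M, H = Fo.mk (Lev κ) (LevR κ) G pre_lev hG := ⟨_, rfl⟩
  have hHP : H.P = Lev κ := by rw [hH]
  have hHR : H.R = LevR κ := by rw [hH]
  have hHG : H.G = G := by rw [hH]
  have hHr : H.G r := by rw [hHG]; exact hGr
  have hadm : ap d s ∈ Lev κ := hd.fn.ap_mem hsP
  have hHt : H.G t := by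
    refine H.gen.up r t hHr ?_
    rw [hHP, hHR, le_lev]
    exact ⟨hr, htP, h2⟩
  have hHs : H.G (ap d s) := by
    refine H.gen.up r (ap d s) hHr ?_
    rw [hHP, hHR, le_lev]
    exact ⟨hr, hadm, h1⟩
  have hn : ¬ Φ H.Ext (can H c) := by
    refine (truth_Fr (fun (M : Type u) [ZFM M] (x : M) => ¬ Φ M x) H (chk H.P c)).2 ⟨t, hHt, ?_⟩
    rw [hHP, hHR]
    exact ht1
  obtain ⟨H', hP', hR', hG', hiso⟩ := de_pull H (P := Lev κ) (R := LevR κ) pre_lev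
    (by rw [hHP, hHR]; exact hd)
  have hy : Φ H'.Ext (can H' c) := by
    refine (truth_Fr Φ H' (chk H'.P c)).2 ⟨s, (hG' s).2 ⟨hsP, hHs⟩, ?_⟩
    rw [hP', hR']
    exact hs1
  have hur := hiso.ur (ι := Unit) (fun (M : Type u) [ZFM M] (w : Unit → M) => Φ M (w ()))
    (fun _ => c)
  exact hn (hur.2 hy)

theorem homog [Countable M] {κ : M} {F F' : Fo M} (hF : IsLev F κ) (hF' : IsLev F' κ)
    (Φ : ∀ (M : Type u) [ZFM M], M → Prop) [U1 Φ] (c : M) :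
    Φ F.Ext (can F c) ↔ Φ F'.Ext (can F' c) := by
  constructor
  · intro h
    by_contra h'
    exact homog_aux hF hF' Φ c h h'
  · intro h
    by_contra h'
    exact homog_aux hF' hF Φ c h h'

end Pool.Agent.ZFIter.NPA.BSM.SP
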