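import Pool.Agent.BSP.KSplit
import Pool.Agent.BSP.KHom

/-!
# BSP/KLF: what the Levy collapse forces about elements of the ground model

* `lf_iff`: `fr_iff` for all `t ∈ Lev κ` (`can F c = F.val (chk F.P c)`); every Levy collapse `F` has some
  `F.G t` (`F.gen.ne`).
* `lf_of`: `lf_iff` and `homog`.
* `lf_small`: take a Levy collapse `F2` of `can F1 κ` over `F1.Ext` (`exists_gen`, `emp_lev`), `absorb` gives
  `F3` over `M` with `IsoOv (can F2 ∘ can F1) (can F3)`; `lf_of` in `M` and in `F1.Ext`, `IsoOv.ur`.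
* `lf_not`, `lf_mono`, `lf_and`: `lf_of` for one Levy collapse. `lf_iso`: `UR.iso` for the uniform relation
  `LF Φ (fs c) (sn c)` or for two variables.
-/

universe u

namespace Pool.Agent.ZFIter.NPA.BSM.SP

open Pool.Agent.H78.ZF Pool.Agent.ZFIter Pool.Agent.ZFIter.NPA

variable (Φ : ∀ (M : Type u) [ZFM M], M → Prop) [hΦ : U1 Φ] {M : Type u} [ZFM M]

theorem exists_lev [Countable M] (κ : M) {t : M} (ht : t ∈ Lev κ) :
    ∃ F : Fo M, IsLev F κ ∧ F.G t := by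
  obtain ⟨G, hG, hGt⟩ := exists_gen (Lev κ) (LevR κ) t ht
  exact ⟨Fo.mk (Lev κ) (LevR κ) G pre_lev hG, ⟨rfl, rfl⟩, hGt⟩

theorem lf_iff [Countable M] {κ c : M} :
    LF Φ κ c ↔ ∀ F : Fo M, IsLev F κ → Φ F.Ext (can F c) := by
  constructor
  · intro h F hF
    obtain ⟨t, ht⟩ := F.gen.ne
    have htP : t ∈ F.P := Fo.G_mem ht
    rw [hF.1] at htP
    have h1 := (fr_iff Φ htP).1 (h t htP) F hF.1 hF.2 ht
    unfold can
    rw [hF.1]
    exact h1
  · intro h t ht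
    refine (fr_iff Φ ht).2 fun F h1 h2 _ => ?_
    have h3 := h F ⟨h1, h2⟩
    unfold can at h3
    rwa [h1] at h3

theorem lf_of [Countable M] {κ c : M} (F : Fo M) (hF : IsLev F κ) :
    LF Φ κ c ↔ Φ F.Ext (can F c) := by
  constructor
  · intro h
    exact (lf_iff Φ).1 h F hF
  · intro h
    exact (lf_iff Φ).2 fun F' hF' => (homog hF hF' Φ c).1 h

theorem lf_small [Countable M] (hAC : AC M) {κ c : M} (hκ : Inacc κ) (F1 : Fo M)
    (h1 : Small κ F1.P) : LF Φ κ c ↔ LF Φ (can F1 κ) (can F1 c) := by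
  obtain ⟨F2, hF2, -⟩ := exists_lev (can F1 κ) (emp_lev (κ := can F1 κ))
  obtain ⟨F3, hF3, hiso⟩ := absorb hAC hκ F1 h1 F2 hF2
  rw [lf_of Φ F3 hF3, lf_of Φ F2 hF2]
  exact (hiso.ur (ι := Unit) (fun (M : Type u) [ZFM M] (w : Unit → M) => Φ M (w ()))
    (fun _ => c)).symm

theorem lf_iso {N : Type u} [ZFM N] (e : M ≃ N) (he : ∀ x y, e x ∈ e y ↔ x ∈ y) {κ c : M} :
    LF Φ (e κ) (e c) ↔ LF Φ κ c :=
  UR.iso (fun (M : Type u) [ZFM M] (v : Fin 2 → M) => LF Φ (v 0) (v 1)) e he ![κ, c]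

end Pool.Agent.ZFIter.NPA.BSM.SP
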