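import Pool.Agent.BSP.TLev

/-!
# BSP/UBli: uniform definability of the notions of the folder BLI which are used for trees
-/

universe u

namespace Pool.Agent.ZFIter.NPA.BSM.SP

open Pool.Agent.H78.ZF Pool.Agent.ZFIter Pool.Agent.ZFIter.NPA

variable {ι : Type}

instance UF.fs (s : ∀ (M : Type u) [ZFM M], (ι → M) → M) [UF s] : UF (fun M _ v => fs (s M v)) := by
  unfold BSM.fs
  infer_instance

instance UF.sn (s : ∀ (M : Type u) [ZFM M], (ι → M) → M) [UF s] : UF (fun M _ v => sn (s M v)) := by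
  unfold BSM.sn
  infer_instance

instance UF.fsw : UF.{u} (ι := ι) (fun _ _ _ => BLI.fsw) := by
  unfold BLI.fsw
  infer_instance

instance UR.Ini (s T : ∀ (M : Type u) [ZFM M], (ι → M) → M) [UF s] [UF T] :
    UR (fun M _ v => BLI.Ini (s M v) (T M v)) := by
  unfold BLI.Ini
  infer_instance

instance UR.Tr (T : ∀ (M : Type u) [ZFM M], (ι → M) → M) [UF T] :
    UR (fun M _ v => BLI.Tr (T M v)) := by
  unfold BLI.Tr
  infer_instance

instance UR.Rkd (T r θ : ∀ (M : Type u) [ZFM M], (ι → M) → M) [UF T] [UF r] [UF θ] :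
    UR (fun M _ v => BLI.Rkd (T M v) (r M v) (θ M v)) := by
  unfold BLI.Rkd
  infer_instance

instance UR.WfT (T : ∀ (M : Type u) [ZFM M], (ι → M) → M) [UF T] :
    UR (fun M _ v => BLI.WfT (T M v)) := by
  unfold BLI.WfT
  infer_instance

instance UF.Br (T : ∀ (M : Type u) [ZFM M], (ι → M) → M) [UF T] :
    UF (fun M _ v => BLI.Br (T M v)) := by
  unfold BLI.Br
  infer_instance

end Pool.Agent.ZFIter.NPA.BSM.SP
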