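import Pool.Agent.BSP.UBli

/-!
# BSP/ZXi: the statements `Xi`, `Ph2`, `PhiOf`

* `Xi Φ c`, `c = (b, q')`: some infinite `y ⊆ q'` has a code `(T, f)`, `T` a ranked tree of finite sets with
  branches `Br T`, `f` a map from the finite sets to `omega`, such that `Φ(b, z, A)`, `z ⊆ y`, implies that
  `f[Br T | z'] ⊆ A` for some `z' ⊆ z`.
* `Ph2 Φ c`, `c = (b, (z, (T, f)))`: `Φ(b, z', f[Br T | z])` for some infinite `z' ⊆ z`.
* `PhiOf Ψ c`, `c = (((s, r), q), (z, A))`: `z ∩ q` is infinite and `Ψ(s, r, z ∩ q, A)`.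
-/

universe u

namespace Pool.Agent.ZFIter.NPA.BSM.SP

open Pool.Agent.H78.ZF Pool.Agent.ZFIter Pool.Agent.ZFIter.NPA

section

variable (Φ : ∀ (M : Type u) [ZFM M], M → Prop) [hΦ : U1 Φ]

/-- `Φ` of the triple `(b, (z, A))`. -/
def P3 {M : Type u} [ZFM M] (b z A : M) : Prop := Φ M (opair b (opair z A))

instance UR.P3 {ι : Type} (b z A : ∀ (M : Type u) [ZFM M], (ι → M) → M) [hb : UF b] [hz : UF z]
    [hA : UF A] : UR (fun M _ v => P3 Φ (b M v) (z M v) (A M v)) := by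
  unfold SP.P3
  exact U1.comp Φ (fun M _ v => opair (b M v) (opair (z M v) (A M v)))

/-- `(T, f)` is a code for the forcing relation below `y`. -/
def Cd {M : Type u} [ZFM M] (b y T f : M) : Prop :=
  ∀ z A : M, InfS z → z ⊆ y → A ⊆ omega → P3 Φ b z A →
    ∃ z', InfS z' ∧ z' ⊆ z ∧ ∀ s, s ∈ BLI.Br T → s ⊆ z' → ap f s ∈ A

instance UR.Cd {ι : Type} (b y T f : ∀ (M : Type u) [ZFM M], (ι → M) → M) [UF b] [UF y]
    [UF T] [UF f] : UR (fun M _ v => Cd Φ (b M v) (y M v) (T M v) (f M v)) := by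
  unfold SP.Cd
  infer_instance

/-- Some infinite subset of `q'` has a code. -/
def Xi : ∀ (M : Type u) [ZFM M], M → Prop := fun M _ c =>
  ∃ y T r θ f : M, InfS y ∧ y ⊆ sn c ∧ BLI.Tr T ∧ BLI.Rkd T r θ ∧ Fun f BLI.fsw omega ∧
    Cd Φ (fs c) y T f

instance u1_Xi : U1 (Xi Φ) := by
  constructor
  unfold Xi
  infer_instance

/-- The set `f[Br T | z]`. -/
noncomputable def fim {M : Type u} [ZFM M] (T f z : M) : M :=
  sep omega (fun e => ∃ s, s ∈ BLI.Br T ∧ s ⊆ z ∧ ap f s = e)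

instance DF.fim {M : Type u} [ZFM M] {ι : Type} (T f z : (ι → M) → M) [DF T] [DF f] [DF z] :
    DF (fun v => fim (T v) (f v) (z v)) := by
  unfold SP.fim
  infer_instance

instance UF.fim {ι : Type} (T f z : ∀ (M : Type u) [ZFM M], (ι → M) → M) [UF T] [UF f] [UF z] :
    UF (fun M _ v => fim (T M v) (f M v) (z M v)) := by
  unfold SP.fim
  infer_instance

theorem mem_fim {M : Type u} [ZFM M] {T f z e : M} :
    e ∈ fim T f z ↔ e ∈ (omega : M) ∧ ∃ s, s ∈ BLI.Br T ∧ s ⊆ z ∧ ap f s = e := by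
  unfold fim
  rw [mem_sep]

/-- Some infinite `z' ⊆ z` forces `f[Br T | z]`; `c = (b, (z, (T, f)))`. -/
def Ph2 : ∀ (M : Type u) [ZFM M], M → Prop := fun M _ c =>
  ∃ z' : M, InfS z' ∧ z' ⊆ fs (sn c) ∧
    P3 Φ (fs c) z' (fim (fs (sn (sn c))) (sn (sn (sn c))) (fs (sn c)))

instance u1_Ph2 : U1 (Ph2 Φ) := by
  constructor
  unfold Ph2
  infer_instance

end

section

/-- The intersection. -/
noncomputable def cap {M : Type u} [ZFM M] (z q : M) : M := sep z (fun k => k ∈ q)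

instance DF.cap {M : Type u} [ZFM M] {ι : Type} (z q : (ι → M) → M) [DF z] [DF q] :
    DF (fun v => cap (z v) (q v)) := by
  unfold SP.cap
  infer_instance

instance UF.cap {ι : Type} (z q : ∀ (M : Type u) [ZFM M], (ι → M) → M) [UF z] [UF q] :
    UF (fun M _ v => cap (z M v) (q M v)) := by
  unfold SP.cap
  infer_instance

@[simp] theorem mem_cap {M : Type u} [ZFM M] {z q k : M} : k ∈ cap z q ↔ k ∈ z ∧ k ∈ q := by
  unfold cap
  rw [mem_sep]

variable (Ψ : ∀ (N : Type u) [ZFM N], N → N → N → N → Prop)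

/-- The property of the triple `(((s, r), q), (z, A))`. -/
def PhiOf : ∀ (M : Type u) [ZFM M], M → Prop := fun M _ c =>
  InfS (cap (fs (sn c)) (sn (fs c))) ∧
    Ψ M (fs (fs (fs c))) (sn (fs (fs c))) (cap (fs (sn c)) (sn (fs c))) (sn (sn c))

variable [hΨ : UR (fun M _ (v : Fin 4 → M) => Ψ M (v 0) (v 1) (v 2) (v 3))]

theorem UR.psi {ι : Type} (s r z A : ∀ (M : Type u) [ZFM M], (ι → M) → M) [hs : UF s] [hr : UF r]
    [hz : UF z] [hA : UF A] : UR (fun M _ v => Ψ M (s M v) (r M v) (z M v) (A M v)) := by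
  let Y : ∀ (M : Type u) [ZFM M], Fin 4 → (ι → M) → M :=
    fun M _ o v => ![s M v, r M v, z M v, A M v] o
  have h2 : ∀ o, UF (fun M _ v => Y M o v) := by
    intro o
    fin_cases o
    · exact hs
    · exact hr
    · exact hz
    · exact hA
  exact UR.subst (fun M _ (v : Fin 4 → M) => Ψ M (v 0) (v 1) (v 2) (v 3)) Y

instance u1_PhiOf : U1 (PhiOf Ψ) := by
  constructor
  unfold PhiOf
  have := UR.psi Ψ (fun M _ (v : Unit → M) => fs (fs (fs (v ()))))
    (fun M _ v => sn (fs (fs (v ())))) (fun M _ v => cap (fs (sn (v ()))) (sn (fs (v ()))))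
    (fun M _ v => sn (sn (v ())))
  infer_instance

omit hΨ in
theorem p3_PhiOf {N : Type u} [ZFM N] {s r q z A : N} :
    P3 (PhiOf Ψ) (opair (opair s r) q) z A ↔ InfS (cap z q) ∧ Ψ N s r (cap z q) A := by
  unfold P3 PhiOf
  simp only [fs_opair, sn_opair]

end

end Pool.Agent.ZFIter.NPA.BSM.SP
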