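import Pool.Agent.BSP.VFc
import Pool.Agent.BSP.KLF
import Pool.Agent.BSP.UBli
import Pool.Agent.BSP.ZXi
import Pool.Agent.BLI.Sub

/-!
# BSP/ARel0: the relation for which the core theorem is applied

`Φ c` is a uniformly definable property of triples `c = (b, (z, A))`, read `z forces A ∈ U` (with a
parameter `b`). `Rel Φ κ p b Q z A h`: the condition `h` of the small forcing notion `Q` forces that `z` is an
infinite set which is almost contained in all elements of `p`, and that the Levy collapse of `κ` forces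
`Φ(b, z, A)`.

`UAx Φ c`, `c = (b, q)`: the axioms of a forcing relation of an ultrafilter, for `z` almost contained in `q`.

PROOFS of the stubs.
* `d4_Rel`: `Yy` has the instance `DR.Yy`; for the second part show (instances `UR.Nt` (unfold `BLI.Nt`,
  `BLI.LE`), `UF.rn`, `UF.tn`) that
  `UR (fun M _ (w : Fin 6 → M) => Fr (Th Φ) (fs (w 0)) (sn (w 0)) (tn (w 0) (w 4) (w 5) (w 1) (w 2)) (w 3))`, then
  `UR.dr` and `DR.subst` with the constants `κ`, `b` for `w 4`, `w 5` (`DF` of constants is an instance).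
* `rel_iff`: `yy_iff`, `fr_iff` (`pre_of_po`), `val_tn`, `fs_opair`, `sn_opair`.
* `rel_truth`: `yy_truth` gives `h1`, `truth_Fr` (with `val_tn`) gives `h2`, take a common extension
  (`F.gen.dir`); `Yy` is inherited downwards (`BLI`: `Yy.down` or from `yy_iff` and `F.gen.up`), `good_Fr.mono`.
* `smC`: `inj`: compose injections; `prod`: `small_prod`; `set`: `small_pow` and `small_mem` for `omega`.
-/

universe u

namespace Pool.Agent.ZFIter.NPA.BSM.SP

open Pool.Agent.H78.ZF Pool.Agent.ZFIter Pool.Agent.ZFIter.NPA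

section em

variable {M : Type u} [ZFM M] {N : Type u} [ZFM N] {i : M → N} [hi : TEm i]

omit hi in
theorem em_nat' (i : M → N) [TEm i] {n : N} : n ∈ (omega : N) ↔ ∃ m, m ∈ (omega : M) ∧ n = i m := by
  rw [← em_omega (i := i), em_elim]

theorem em_InfS {x : M} : InfS (i x) ↔ InfS x := by
  unfold InfS
  rw [← em_omega (i := i), em_sub]
  refine and_congr_right fun _ => ⟨fun h m hm => ?_, fun h m hm => ?_⟩
  · obtain ⟨n, hn, h1⟩ := h (i m) (em_mem.2 hm)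
    obtain ⟨n', hn', rfl⟩ := em_elim.1 hn
    exact ⟨n', hn', em_sub.1 h1⟩
  · obtain ⟨m', hm', rfl⟩ := em_elim.1 hm
    obtain ⟨n, hn, h1⟩ := h m' hm'
    exact ⟨i n, em_mem.2 hn, em_sub.2 h1⟩

theorem em_AE {z q : M} : AE (i z) (i q) ↔ AE z q := by
  unfold AE
  constructor
  · rintro ⟨m, hm, h⟩
    obtain ⟨m', hm', rfl⟩ := (em_nat' i).1 hm
    exact ⟨m', hm', fun n hn h1 => em_mem.1 (h (i n) (em_mem.2 hn) (em_sub.2 h1))⟩
  · rintro ⟨m, hm, h⟩
    refine ⟨i m, (em_nat' i).2 ⟨m, hm, rfl⟩, fun n hn h1 => ?_⟩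
    obtain ⟨n', hn', rfl⟩ := em_elim.1 hn
    exact em_mem.2 (h n' hn' (em_sub.1 h1))

end em

section

variable (Φ : ∀ (M : Type u) [ZFM M], M → Prop) [hΦ : U1 Φ]

/-- The triples for which the Levy collapse forces `Φ`: `c = (κ, c')`. -/
def Th : ∀ (M : Type u) [ZFM M], M → Prop := fun _ _ c => LF Φ (fs c) (sn c)

instance u1_Th : U1 (Th Φ) := by
  constructor
  unfold Th
  infer_instance

/-- The name of `(κ, (b, (z, A)))`. -/
noncomputable def tn {M : Type u} [ZFM M] (Q κ b z A : M) : M :=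
  opnm (fs Q) (chk (fs Q) κ) (opnm (fs Q) (chk (fs Q) b) (opnm (fs Q) (rn Q z) (rn Q A)))

theorem val_tn {M : Type u} [ZFM M] {F : Fo M} {Q : M} (hF : OnQ F Q) (κ b z A : M) :
    F.val (tn Q κ b z A) =
      opair (can F κ) (opair (can F b) (opair (vr F Q z) (vr F Q A))) := by
  unfold tn
  rw [← hF.1, val_opnm, val_opnm, val_opnm]
  rfl

/-- The relation of the core theorem. -/
def Rel {M : Type u} [ZFM M] (κ p b Q z A h : M) : Prop :=
  BLI.Yy Q p z h ∧ Fr (Th Φ) (fs Q) (sn Q) (tn Q κ b z A) h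

/-- The axioms of a forcing relation of an ultrafilter, for the sets almost contained in `q`;
`c = (b, q)`. -/
def UAx : ∀ (M : Type u) [ZFM M], M → Prop := fun M _ c =>
  (∀ z z' A A' : M, AE z (sn c) → InfS z' → z' ⊆ z → A ⊆ A' → A' ⊆ omega →
    P3 Φ (fs c) z A → P3 Φ (fs c) z' A') ∧
  (∀ z A B : M, AE z (sn c) → P3 Φ (fs c) z A → P3 Φ (fs c) z B →
    P3 Φ (fs c) z (sep A (fun k => k ∈ B))) ∧
  (∀ z A : M, AE z (sn c) → P3 Φ (fs c) z A → ∃ n, n ∈ A) ∧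
  (∀ z A : M, InfS z → AE z (sn c) → A ⊆ omega → ∃ z', InfS z' ∧ z' ⊆ z ∧
    (P3 Φ (fs c) z' A ∨ P3 Φ (fs c) z' (sep omega (fun k => k ∉ A))))

instance u1_UAx : U1 (UAx Φ) := by
  constructor
  unfold UAx
  have h1 : UR (fun M _ (v : Unit → M) => ∀ z z' A A' : M, AE z (sn (v ())) → InfS z' → z' ⊆ z →
    A ⊆ A' → A' ⊆ omega → P3 Φ (fs (v ())) z A → P3 Φ (fs (v ())) z' A') := by infer_instance
  have h2 : UR (fun M _ (v : Unit → M) => ∀ z A B : M, AE z (sn (v ())) → P3 Φ (fs (v ())) z A →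
    P3 Φ (fs (v ())) z B → P3 Φ (fs (v ())) z (sep A (fun k => k ∈ B))) := by infer_instance
  have h3 : UR (fun M _ (v : Unit → M) => ∀ z A : M, AE z (sn (v ())) → P3 Φ (fs (v ())) z A →
    ∃ n, n ∈ A) := by infer_instance
  have h4 : UR (fun M _ (v : Unit → M) => ∀ z A : M, InfS z → AE z (sn (v ())) → A ⊆ omega →
    ∃ z', InfS z' ∧ z' ⊆ z ∧ (P3 Φ (fs (v ())) z' A ∨
      P3 Φ (fs (v ())) z' (sep omega (fun k => k ∉ A)))) := by infer_instance
  exact @UR.and _ _ _ h1 (@UR.and _ _ _ h2 (@UR.and _ _ _ h3 h4))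

end

section

variable {Φ : ∀ (M : Type u) [ZFM M], M → Prop} [hΦ : U1 Φ] {M : Type u} [ZFM M]

private instance uR_LE {ι : Type} (Q x y : ∀ (M : Type u) [ZFM M], (ι → M) → M) [UF Q] [UF x]
    [UF y] : UR (fun M _ v => BLI.LE (Q M v) (x M v) (y M v)) := by
  unfold BLI.LE
  infer_instance

private instance uR_Nt {ι : Type} (Q τ n h : ∀ (M : Type u) [ZFM M], (ι → M) → M) [UF Q] [UF τ]
    [UF n] [UF h] : UR (fun M _ v => BLI.Nt (Q M v) (τ M v) (n M v) (h M v)) := by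
  unfold BLI.Nt
  infer_instance

private instance uF_rn {ι : Type} (Q τ : ∀ (M : Type u) [ZFM M], (ι → M) → M) [UF Q] [UF τ] :
    UF (fun M _ v => rn (Q M v) (τ M v)) := by
  unfold SP.rn
  infer_instance

private instance uF_tn {ι : Type} (Q κ b z A : ∀ (M : Type u) [ZFM M], (ι → M) → M) [UF Q] [UF κ]
    [UF b] [UF z] [UF A] : UF (fun M _ v => tn (Q M v) (κ M v) (b M v) (z M v) (A M v)) := by
  unfold SP.tn
  infer_instance

private theorem uR_core : UR (fun M _ (w : Fin 6 → M) =>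
    Fr (Th Φ) (fs (w 0)) (sn (w 0)) (tn (w 0) (w 4) (w 5) (w 1) (w 2)) (w 3)) := by
  infer_instance

instance d4_Rel (κ p b : M) : BLI.D4 (Rel Φ κ p b) := by
  constructor
  have h0 := uR_core (Φ := Φ)
  have h1 := UR.dr (fun M _ (w : Fin 6 → M) =>
    Fr (Th Φ) (fs (w 0)) (sn (w 0)) (tn (w 0) (w 4) (w 5) (w 1) (w 2)) (w 3)) M
  have hF : ∀ i : Fin 6, DF ((fun i : Fin 6 => match i with
    | 0 => fun v => v 0 | 1 => fun v => v 1 | 2 => fun v => v 2 | 3 => fun v => v 3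
    | 4 => fun _ => κ | 5 => fun _ => b : Fin 6 → (Fin 4 → M) → M) i) := by
    intro i
    fin_cases i <;> (simp only; infer_instance)
  have h2 := DR.subst (fun w : Fin 6 → M =>
    Fr (Th Φ) (fs (w 0)) (sn (w 0)) (tn (w 0) (w 4) (w 5) (w 1) (w 2)) (w 3))
    (fun i : Fin 6 => match i with
    | 0 => fun v : Fin 4 → M => v 0 | 1 => fun v => v 1 | 2 => fun v => v 2 | 3 => fun v => v 3
    | 4 => fun _ => κ | 5 => fun _ => b)
  have h3 : DR (fun v : Fin 4 → M => BLI.Yy (v 0) p (v 1) (v 3)) := by infer_instance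
  exact @DR.and _ _ _ _ _ h3 h2

theorem rel_iff [Countable M] {Q κ p b z A h : M} (hQ : BLI.Po Q) :
    Rel Φ κ p b Q z A h ↔ h ∈ fs Q ∧ ∀ F : Fo M, OnQ F Q → F.G h → InfS (vr F Q z) ∧
      (∀ a, a ∈ p → AE (vr F Q z) (can F a)) ∧
      LF Φ (can F κ) (opair (can F b) (opair (vr F Q z) (vr F Q A))) := by
  have hp : Pre (fs Q) (sn Q) := pre_of_po hQ
  have key : ∀ F : Fo M, OnQ F Q → (Th Φ F.Ext (F.val (tn Q κ b z A)) ↔
      LF Φ (can F κ) (opair (can F b) (opair (vr F Q z) (vr F Q A)))) := by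
    intro F hF
    unfold Th
    rw [val_tn hF, fs_opair, sn_opair]
  unfold Rel
  rw [yy_iff hQ]
  constructor
  · rintro ⟨⟨h1, h2⟩, h3⟩
    refine ⟨h1, fun F hF hh => ⟨(h2 F hF hh).1, (h2 F hF hh).2, ?_⟩⟩
    exact (key F hF).1 ((fr_iff (Th Φ) h1).1 h3 F hF.1 hF.2 hh)
  · rintro ⟨h1, h2⟩
    refine ⟨⟨h1, fun F hF hh => ⟨(h2 F hF hh).1, (h2 F hF hh).2.1⟩⟩, ?_⟩
    exact (fr_iff (Th Φ) h1).2 fun F e1 e2 hh => (key F ⟨e1, e2⟩).2 (h2 F ⟨e1, e2⟩ hh).2.2

theorem rel_truth [Countable M] {Q κ p b z A : M} (hQ : BLI.Po Q) {F : Fo M} (hF : OnQ F Q)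
    (h1 : InfS (vr F Q z)) (h2 : ∀ a, a ∈ p → AE (vr F Q z) (can F a))
    (h3 : LF Φ (can F κ) (opair (can F b) (opair (vr F Q z) (vr F Q A)))) :
    ∃ h, F.G h ∧ Rel Φ κ p b Q z A h := by
  have hp : Pre (fs Q) (sn Q) := pre_of_po hQ
  have key : Th Φ F.Ext (F.val (tn Q κ b z A)) := by
    unfold Th
    rw [val_tn hF, fs_opair, sn_opair]
    exact h3
  obtain ⟨k1, hk1, hy⟩ := yy_truth hQ hF h1 h2
  obtain ⟨k2, hk2, hr⟩ := (truth_Fr (Th Φ) F (tn Q κ b z A)).1 key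
  obtain ⟨k, hk, e1, e2⟩ := F.gen.dir k1 k2 hk1 hk2
  have h4 := (good_Fr (Th Φ) F.P F.R (tn Q κ b z A)).mono hr e2
  rw [hF.1, hF.2] at e1
  refine ⟨k, hk, hy.down hQ e1, ?_⟩
  have h5 : ∀ P R : M, F.P = P → F.R = R → Fr (Th Φ) P R (tn Q κ b z A) k := by
    intro P R h6 h7
    subst h6 h7
    exact h4
  exact h5 _ _ hF.1 hF.2

theorem smC {κ : M} (hκ : Inacc κ) : BLI.SmC (Small κ) where
  inj := by
    intro f x y hf hy
    obtain ⟨δ, g, hδ, hg⟩ := hy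
    refine ⟨δ, mkf x δ (fun a => ap g (ap f a)), hδ, ?_⟩
    have h1 : ∀ a, a ∈ x → ap g (ap f a) ∈ δ := fun a ha => hg.fun.ap_mem (hf.fun.ap_mem ha)
    rw [inj_iff]
    refine ⟨mkf_fun h1, fun a c ha hc e => ?_⟩
    rw [ap_mkf h1 ha, ap_mkf h1 hc] at e
    exact hf.ap_inj ha hc (hg.ap_inj (hf.fun.ap_mem ha) (hf.fun.ap_mem hc) e)
  prod := fun _ _ h h' => small_prod hκ h h'
  set := small_pow hκ (small_mem hκ.2.1)

end

end Pool.Agent.ZFIter.NPA.BSM.SP
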