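import Pool.Agent.BSP.ARel0

/-!
# BSP/ARel1: the simple axioms of `AbsRel` for `Rel`

`hax : LF (UAx Φ) κ (opair b q)`, `q ∈ p`. All by `rel_iff`.

`uax_up` (the tool): let `F` be on the small `Q`, and `L : Fo F.Ext` a Levy collapse of `can F κ`. By `lf_small`
(`F.P = fs Q` is small) `LF (UAx Φ) (can F κ) (can F (opair b q))` holds in `F.Ext`, so by `lf_of`
`UAx Φ L.Ext (opair (can L (can F b)) (can L (can F q)))` (`em_opair`). Such an `L` exists (`exists_lev`,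
`emp_lev`).

* `rel_mono`: let `F` be on `Q` with `F.G h`. `z' := vr F Q z1` is infinite (`finf_iff`), a subset of
  `z := vr F Q z0` (`fsub_iff`), so almost contained in all `can F a`; `A ⊆ A'` (`fsub_iff`). For `L` as above
  `Φ L.Ext (can L (opair ..))` by `lf_of`; the first axiom of `UAx` for `can L z`, `can L z'`, ... (`AE` with
  `sn c = can L (can F q)`: `em_AE`, `q ∈ p`; `em_InfS`, `em_sub`, `vr_sub`) gives `Φ` for `(z', A')`; `lf_of`.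
* `rel_inter`: the second axiom; `vr_inr`; `can L (sep A (· ∈ B)) = sep (can L A) (· ∈ can L B)`.
* `rel_ne`: take `F` on `Q` with `F.G h` (`exists_onQ`); third axiom in `L.Ext`: some `n ∈ can L (vr F Q A)`, so
  some `can F n ∈ vr F Q A` (`em_elim`, `mem_vr`), `Nt Q A n h1`, `F.G h1`, take `h'` below `h1, h`.
* `rel_down`: `rel_iff`, upward closure of `F.G`. (Or `good_Fr`.)
-/

universe u

namespace Pool.Agent.ZFIter.NPA.BSM.SP

open Pool.Agent.H78.ZF Pool.Agent.ZFIter Pool.Agent.ZFIter.NPA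

variable {Φ : ∀ (M : Type u) [ZFM M], M → Prop} [hΦ : U1 Φ] {M : Type u} [ZFM M]

theorem uax_up [Countable M] (hAC : AC M) {κ b q : M} (hκ : Inacc κ)
    (hax : LF (UAx Φ) κ (opair b q)) (F : Fo M) (hs : Small κ F.P) :
    ∃ L : Fo F.Ext, IsLev L (can F κ) ∧ UAx Φ L.Ext (opair (can L (can F b)) (can L (can F q))) := by
  have h1 := (lf_small (UAx Φ) hAC hκ F hs).1 hax
  obtain ⟨L, hL, -⟩ := exists_lev (can F κ) (emp_lev (κ := can F κ))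
  refine ⟨L, hL, ?_⟩
  have h2 := (lf_of (UAx Φ) L hL).1 h1
  rw [em_opair (i := can F), em_opair (i := can L)] at h2
  exact h2

theorem rel_down [Countable M] {Q κ p b z A h h' : M} (hQ : BLI.Po Q)
    (hr : Rel Φ κ p b Q z A h) (hl : BLI.LE Q h' h) : Rel Φ κ p b Q z A h' := by
  obtain ⟨_, h2⟩ := (rel_iff hQ).1 hr
  refine (rel_iff hQ).2 ⟨hl.1, fun F hF hG => h2 F hF ?_⟩
  refine F.gen.up h' h hG ?_
  rw [hF.1, hF.2]
  exact hl

theorem rel_mono [Countable M] (hAC : AC M) {κ b q p : M} (hκ : Inacc κ) (hq : q ∈ p)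
    (hax : LF (UAx Φ) κ (opair b q)) {Q z z' A A' h : M} (hQ : BLI.SP (Small κ) Q)
    (hr : Rel Φ κ p b Q z A h) (h1 : BLI.FInf Q z' h) (h2 : BLI.FSub Q z' z h)
    (h3 : BLI.FSub Q A A' h) : Rel Φ κ p b Q z' A' h := by
  obtain ⟨hh, h4⟩ := (rel_iff hQ.1).1 hr
  refine (rel_iff hQ.1).2 ⟨hh, fun F hF hG => ?_⟩
  obtain ⟨_, h6, h7⟩ := h4 F hF hG
  have hz' : InfS (vr F Q z') := (finf_iff hQ.1 hh).1 h1 F hF hG
  have hzz : vr F Q z' ⊆ vr F Q z := (fsub_iff hQ.1 hh).1 h2 F hF hG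
  have hAA : vr F Q A ⊆ vr F Q A' := (fsub_iff hQ.1 hh).1 h3 F hF hG
  refine ⟨hz', fun a ha => ?_, ?_⟩
  · obtain ⟨m, hm, h8⟩ := h6 a ha
    exact ⟨m, hm, fun n hn hmn => h8 n (hzz n hn) hmn⟩
  · have hs : Small κ F.P := by
      rw [hF.1]
      exact hQ.2
    obtain ⟨L, hL, hU⟩ := uax_up hAC hκ hax F hs
    rw [lf_of Φ L hL, em_opair (i := can L), em_opair (i := can L)] at h7 ⊢
    have h9 := hU.1 (can L (vr F Q z)) (can L (vr F Q z')) (can L (vr F Q A)) (can L (vr F Q A'))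
    rw [sn_opair, fs_opair] at h9
    refine h9 (em_AE.2 (h6 q hq)) (em_InfS.2 hz') (em_sub.2 hzz) (em_sub.2 hAA) ?_ h7
    rw [← em_omega (i := can L)]
    exact em_sub.2 (vr_sub hF)

theorem rel_inter [Countable M] (hAC : AC M) {κ b q p : M} (hκ : Inacc κ) (hq : q ∈ p)
    (hax : LF (UAx Φ) κ (opair b q)) {Q z A B h : M} (hQ : BLI.SP (Small κ) Q)
    (hr : Rel Φ κ p b Q z A h) (hr' : Rel Φ κ p b Q z B h) :
    Rel Φ κ p b Q z (BLI.inr Q A B) h := by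
  obtain ⟨hh, h4⟩ := (rel_iff hQ.1).1 hr
  obtain ⟨_, h4'⟩ := (rel_iff hQ.1).1 hr'
  refine (rel_iff hQ.1).2 ⟨hh, fun F hF hG => ?_⟩
  obtain ⟨h5, h6, h7⟩ := h4 F hF hG
  obtain ⟨_, _, h7'⟩ := h4' F hF hG
  refine ⟨h5, h6, ?_⟩
  have hs : Small κ F.P := by
    rw [hF.1]
    exact hQ.2
  obtain ⟨L, hL, hU⟩ := uax_up hAC hκ hax F hs
  rw [lf_of Φ L hL, em_opair (i := can L), em_opair (i := can L)] at h7 h7' ⊢
  have h9 := hU.2.1 (can L (vr F Q z)) (can L (vr F Q A)) (can L (vr F Q B))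
  rw [sn_opair, fs_opair] at h9
  have h10 := h9 (em_AE.2 (h6 q hq)) h7 h7'
  have e : can L (vr F Q (BLI.inr Q A B)) =
      sep (can L (vr F Q A)) (fun k => k ∈ can L (vr F Q B)) := by
    rw [vr_inr hF hQ.1]
    refine ext fun x => ?_
    rw [mem_sep, em_elim, em_elim]
    constructor
    · rintro ⟨y, hy, rfl⟩
      rw [mem_sep] at hy
      exact ⟨⟨y, hy.1, rfl⟩, em_mem.2 hy.2⟩
    · rintro ⟨⟨y, hy, rfl⟩, hy2⟩
      exact ⟨y, (mem_sep _ _ _).2 ⟨hy, em_mem.1 hy2⟩, rfl⟩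
  rw [e]
  exact h10

theorem rel_ne [Countable M] (hAC : AC M) {κ b q p : M} (hκ : Inacc κ) (hq : q ∈ p)
    (hax : LF (UAx Φ) κ (opair b q)) {Q z A h : M} (hQ : BLI.SP (Small κ) Q)
    (hr : Rel Φ κ p b Q z A h) :
    ∃ n, n ∈ (omega : M) ∧ ∃ h', BLI.LE Q h' h ∧ BLI.Nt Q A n h' := by
  obtain ⟨hh, h4⟩ := (rel_iff hQ.1).1 hr
  obtain ⟨F, hF, hG⟩ := exists_onQ hQ.1 hh
  obtain ⟨_, h6, h7⟩ := h4 F hF hG
  have hs : Small κ F.P := by
    rw [hF.1]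
    exact hQ.2
  obtain ⟨L, hL, hU⟩ := uax_up hAC hκ hax F hs
  rw [lf_of Φ L hL, em_opair (i := can L), em_opair (i := can L)] at h7
  have h9 := hU.2.2.1 (can L (vr F Q z)) (can L (vr F Q A))
  rw [sn_opair, fs_opair] at h9
  obtain ⟨x, hx⟩ := h9 (em_AE.2 (h6 q hq)) h7
  obtain ⟨y, hy, _⟩ := em_elim.1 hx
  obtain ⟨n, h1, hn, hG1, hNt, _⟩ := (mem_vr hF).1 hy
  obtain ⟨h', hG', hl1, hl2⟩ := F.gen.dir h1 h hG1 hG
  rw [hF.1, hF.2] at hl1 hl2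
  refine ⟨n, hn, h', hl2, ?_⟩
  obtain ⟨k, hk, hk2⟩ := hNt
  exact ⟨k, hQ.1.2 h' h1 k hl1 hk, hk2⟩

end Pool.Agent.ZFIter.NPA.BSM.SP
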