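import Pool.Agent.BSP.TLev

/-!
# BSP/DQuo: the quotient of a generic map

`F : Fo M` generic for `Q`, `f` a generic map from `Q` to `P` (`BLI.IsGen`: order preserving, and for dense
down-closed `D ⊆ P`, `q ∈ Q`, some `q' ≤ q` has `f(q') ∈ D`). `M` countable.

* `F1.G x := ∃ q, F.G q ∧ LE P (ap f q) x` is generic for `P`: upward closed; directed (`F.gen.dir`, `Hom`);
  for `D ∈ M` dense let `D' := {x ∈ P : ∃ y ∈ D, x ≤ y}`, `Dns P D'`; the set `{q : ap f q ∈ D'}` is dense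
  in `Q`, so some `F.G q` has `ap f q ≤ y ∈ D`.
* `S := sep (can F1 (fs Q)) (fun z => ∀ a, a ∈ gam F1 → ∃ z', LE (can F1 Q) z' z ∧
  opair (ap (can F1 f) z') a ∈ can F1 (sn P))` in `F1.Ext`; so `can F1 q ∈ S` iff
  `∀ a, F1.G a → ∃ q' ≤ q, ap f q' ≤ a`. Every `q` with `F.G q` is in `S`: `a` with `F1.G a` has
  `ap f q1 ≤ a`, `F.G q1`, take `q'` below `q, q1`.
  Order: `can F1 (sn Q)`; `Pre S (can F1 (sn Q))` (`Le` requires membership in `S`).
* `F2.G z := ∃ q, F.G q ∧ z = can F1 q` is generic over `F1.Ext` for `S`. Upward closed: if `q ∈ F.G`,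
  `can F1 q ≤ can F1 r` then `q ≤ r` (`em_opair_mem`). Dense sets: let `D = F1.val y`, `D ⊆ S`,
  dense in `S`. `Φ(c) := ` 'D is a dense subset of S', a uniform statement about
  `c = (y, (P, Q), (f, g))` with the names for `gam F1` (there is a name `gn`, with
  `F.val gn = gam F`, for all frames on `P`: `gam` is `val` of `img P (fun p => opair (chk P p) p)`), so
  some `a0`, `F1.G a0`, forces it for all frames on `P` (`truth_Fr`). Let `Ψ(c) := ` `q'' ∈ y`.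
  `E := {q' ∈ fs Q : ∃ q'', LE Q q' q'' ∧ Fr Ψ (.. y, chk q'') (ap f q')}`. CLAIM: `E` is dense below `q` if
  `F.G q` and `ap f q ≤ a0` (such `q` exists). Let `q1 ≤ q`; take `H : Fo M` generic for `Q`, `H.G q1`
  (`exists_gen`), and let `H1` be its image on `P`, so `H1.G a0`; so `D' := H1.val y` is dense in the
  `S'` of `H1`; `can H1 q1 ∈ S'`, so there is `q'' ≤ q1` with `can H1 q'' ∈ D' ⊆ S'`; some `a`, `H1.G a`, forces
  `q'' ∈ y`; `can H1 q'' ∈ S'` gives `q' ≤ q''` with `ap f q' ≤ a`. So `q' ∈ E`.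
  So `F.G` meets `E`: `q' ≤ q''`, `F1.G (ap f q')`, hence `can F1 q'' ∈ F1.val y = D` and `F.G q''`.
  (`D` need not be a subset of `P2` in `Gen.gen`: it is a hypothesis there.)
* Extension: `exists_iso` (SGen) for `N := F2.Ext`, `i := can F2 ∘ can F1`, `genBy_two F1 F2`, the frame `F`,
  `g := gam F2` (its elements are `can F2 (can F1 q)`, `F.G q`); names: `gam F2` itself has the name `gn` of
  `F` (`ev g (i gn) = g`), `can F2 (gam F1)` has the name `{(chk x, q) : x ∈ P, LE P (ap f q) x}`.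
-/

universe u

namespace Pool.Agent.ZFIter.NPA.BSM.SP

open Pool.Agent.H78.ZF Pool.Agent.ZFIter Pool.Agent.ZFIter.NPA

section Defs

variable {M : Type u} [ZFM M] {ι : Type}

/-- The conditions which have extensions with image below every element of `g`. -/
private noncomputable def qS (A R f T g : M) : M :=
  sep A (fun z => ∀ a, a ∈ g → ∃ z', z' ∈ A ∧ opair z' z ∈ R ∧ opair (ap f z') a ∈ T)

private instance DF.qS (A R f T g : (ι → M) → M) [DF A] [DF R] [DF f] [DF T] [DF g] :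
    DF (fun v => qS (A v) (R v) (f v) (T v) (g v)) := by
  unfold SP.qS
  infer_instance

private instance UF.qS (A R f T g : ∀ (M : Type u) [ZFM M], (ι → M) → M) [UF A] [UF R] [UF f]
    [UF T] [UF g] : UF (fun M _ v => qS (A M v) (R M v) (f M v) (T M v) (g M v)) := by
  unfold SP.qS
  infer_instance

private theorem mem_qS {A R f T g z : M} : z ∈ qS A R f T g ↔
    z ∈ A ∧ ∀ a, a ∈ g → ∃ z', z' ∈ A ∧ opair z' z ∈ R ∧ opair (ap f z') a ∈ T := by
  unfold qS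
  rw [mem_sep]

/-- `D` is a dense subset of the quotient. -/
private def qPhi (D A R f T g : M) : Prop :=
  (∀ x, x ∈ D → x ∈ qS A R f T g) ∧
    ∀ z, z ∈ qS A R f T g → ∃ w, w ∈ D ∧ Le (qS A R f T g) R w z

private instance UR.qPhi (D A R f T g : ∀ (M : Type u) [ZFM M], (ι → M) → M) [UF D] [UF A] [UF R]
    [UF f] [UF T] [UF g] :
    UR (fun M _ v => qPhi (D M v) (A M v) (R M v) (f M v) (T M v) (g M v)) := by
  unfold SP.qPhi
  infer_instance

end Defs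

variable {M : Type u} [ZFM M]

/-- The image of a generic filter under a generic map. -/
theorem gen_map (F : Fo M) {Q P f : M} (hP : BLI.Po P) (hF : OnQ F Q) (hf : BLI.IsGen Q P f) :
    Gen (fs P) (sn P) (fun x => ∃ q, F.G q ∧ BLI.LE P (ap f q) x) := by
  have hG : ∀ q, F.G q → q ∈ fs Q := fun q hq => by
    have := Fo.G_mem hq
    rwa [hF.1] at this
  refine ⟨?_, ?_, ?_, ?_, ?_⟩
  · rintro x ⟨q, _, h⟩
    exact h.2.1
  · obtain ⟨q, hq⟩ := F.gen.ne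
    exact ⟨ap f q, q, hq, hP.1 _ (hf.1.mem (hG q hq))⟩
  · rintro x y ⟨q, hq, h⟩ hxy
    exact ⟨q, hq, hP.2 _ _ _ h hxy⟩
  · rintro x y ⟨q1, hq1, h1⟩ ⟨q2, hq2, h2⟩
    obtain ⟨r, hr, hr1, hr2⟩ := F.gen.dir q1 q2 hq1 hq2
    rw [hF.1, hF.2] at hr1 hr2
    refine ⟨ap f r, ⟨r, hr, hP.1 _ (hf.1.mem (hG r hr))⟩, ?_, ?_⟩
    · exact hP.2 _ _ _ (hf.1.le hr1) h1
    · exact hP.2 _ _ _ (hf.1.le hr2) h2
  · intro D hD hdense
    obtain ⟨q, hq, y, hy, h⟩ := Fo.meet (F := F) (fun q => ∃ y, y ∈ D ∧ BLI.LE P (ap f q) y)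
      (fun p hp => by
        rw [hF.1] at hp
        obtain ⟨q', hq', h⟩ := hf.meet hP (fun x => ∃ y, y ∈ D ∧ BLI.LE P x y)
          (fun x y hxy hy => by
            obtain ⟨z, hz, hyz⟩ := hy
            exact ⟨z, hz, hP.2 _ _ _ hxy hyz⟩)
          (fun x hx => by
            obtain ⟨z, hz, hzx⟩ := hdense x hx
            exact ⟨z, hzx, z, hz, hP.1 z (hD z hz)⟩) hp
        refine ⟨q', ?_, h⟩
        rw [hF.1, hF.2]
        exact hq')
    exact ⟨y, hy, q, hq, h⟩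

/-- The image frame. -/
private noncomputable def imF (F : Fo M) {Q P f : M} (hP : BLI.Po P) (hF : OnQ F Q)
    (hf : BLI.IsGen Q P f) : Fo M :=
  Fo.mk (fs P) (sn P) (fun x => ∃ q, F.G q ∧ BLI.LE P (ap f q) x) (pre_of_po hP)
    (gen_map F hP hF hf)

section Quot

variable {Q P f : M}

/-- the quotient in the extension by `F1` -/
private noncomputable def qT (F1 : Fo M) (Q P f : M) : F1.Ext :=
  qS (can F1 (fs Q)) (can F1 (sn Q)) (can F1 f) (can F1 (sn P)) (gam F1)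

private theorem mem_qT {F1 : Fo M} {q : M} : can F1 q ∈ qT F1 Q P f ↔
    q ∈ fs Q ∧ ∀ a, F1.G a → ∃ q', q' ∈ fs Q ∧ opair q' q ∈ sn Q ∧ opair (ap f q') a ∈ sn P := by
  unfold qT
  rw [mem_qS, em_mem (i := can F1)]
  refine and_congr_right fun _ => ?_
  constructor
  · intro h a ha
    obtain ⟨z', h1, h2, h3⟩ := h (can F1 a) (can_mem_gam.2 ha)
    obtain ⟨q', hq', rfl⟩ := (em_elim (i := can F1)).1 h1
    rw [em_opair_mem (i := can F1)] at h2
    rw [← em_ap (i := can F1), em_opair_mem (i := can F1)] at h3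
    exact ⟨q', hq', h2, h3⟩
  · intro h a ha
    obtain ⟨a, ha', rfl⟩ := mem_gam.1 ha
    obtain ⟨q', h1, h2, h3⟩ := h a ha'
    refine ⟨can F1 q', em_mem.2 h1, em_opair_mem.2 h2, ?_⟩
    rw [← em_ap (i := can F1), em_opair_mem (i := can F1)]
    exact h3

private theorem qT_elim {F1 : Fo M} {z : F1.Ext} (hz : z ∈ qT F1 Q P f) :
    ∃ q, q ∈ fs Q ∧ z = can F1 q := by
  unfold qT at hz
  rw [mem_qS] at hz
  exact em_elim.1 hz.1

private theorem pre_qT {F1 : Fo M} (hQ : BLI.Po Q) : Pre (qT F1 Q P f) (can F1 (sn Q)) where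
  refl := fun {z} hz => by
    obtain ⟨q, hq, rfl⟩ := qT_elim hz
    exact ⟨hz, hz, em_opair_mem.2 (hQ.1 q hq).2.2⟩
  trans := fun {r q p} h1 h2 => by
    obtain ⟨hr, hq, h3⟩ := h1
    obtain ⟨_, hp, h4⟩ := h2
    obtain ⟨r, hr', rfl⟩ := qT_elim hr
    obtain ⟨q, hq', rfl⟩ := qT_elim hq
    obtain ⟨p, hp', rfl⟩ := qT_elim hp
    rw [em_opair_mem (i := can F1)] at h3 h4
    exact ⟨hr, hp, em_opair_mem.2 (hQ.2 r q p ⟨hr', hq', h3⟩ ⟨hq', hp', h4⟩).2.2⟩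

private theorem G_qT (F : Fo M) (hP : BLI.Po P) (hF : OnQ F Q)
    (hf : BLI.IsGen Q P f) {q : M} (hq : F.G q) :
    can (imF F hP hF hf) q ∈ qT (imF F hP hF hf) Q P f := by
  have hG : ∀ q, F.G q → q ∈ fs Q := fun q hq => by
    have := Fo.G_mem hq
    rwa [hF.1] at this
  refine mem_qT.2 ⟨hG q hq, ?_⟩
  rintro a ⟨q1, hq1, h1⟩
  obtain ⟨r, hr, hr1, hr2⟩ := F.gen.dir q q1 hq hq1
  rw [hF.1, hF.2] at hr1 hr2
  exact ⟨r, hG r hr, hr1.2.2, (hP.2 _ _ _ (hf.1.le hr2) h1).2.2⟩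

/-- The truth lemma for the statement that the value of `y` is dense in the quotient. -/
private theorem truth_q (F1 : Fo M) (Q P f y : M) : qPhi (F1.val y) (can F1 (fs Q))
    (can F1 (sn Q)) (can F1 f) (can F1 (sn P)) (gam F1) ↔
    ∃ p, F1.G p ∧ Frc (fun M _ (v : Fin 6 → M) => qPhi (v 0) (v 1) (v 2) (v 3) (v 4) (v 5)) F1.P
      F1.R ![y, chk F1.P (fs Q), chk F1.P (sn Q), chk F1.P f, chk F1.P (sn P),
        img F1.P (fun p => opair (chk F1.P p) p)] p :=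
  truth_Frc (fun M _ (v : Fin 6 → M) => qPhi (v 0) (v 1) (v 2) (v 3) (v 4) (v 5)) F1
    ![y, chk F1.P (fs Q), chk F1.P (sn Q), chk F1.P f, chk F1.P (sn P),
        img F1.P (fun p => opair (chk F1.P p) p)]

private theorem gen_qT [Countable M] (F : Fo M) (hQ : BLI.Po Q) (hP : BLI.Po P) (hF : OnQ F Q)
    (hf : BLI.IsGen Q P f) :
    Gen (qT (imF F hP hF hf) Q P f) (can (imF F hP hF hf) (sn Q))
      (fun z => ∃ q, F.G q ∧ z = can (imF F hP hF hf) q) := by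
  have hG : ∀ q, F.G q → q ∈ fs Q := fun q hq => by
    have := Fo.G_mem hq
    rwa [hF.1] at this
  refine ⟨?_, ?_, ?_, ?_, ?_⟩
  · rintro z ⟨q, hq, rfl⟩
    exact G_qT F hP hF hf hq
  · obtain ⟨q, hq⟩ := F.gen.ne
    exact ⟨_, q, hq, rfl⟩
  · rintro z w ⟨q, hq, rfl⟩ hzw
    obtain ⟨r, hr, rfl⟩ := qT_elim hzw.2.1
    refine ⟨r, F.gen.up q r hq ?_, rfl⟩
    rw [hF.1, hF.2]
    exact ⟨hG q hq, hr, (em_opair_mem (i := can (imF F hP hF hf))).1 hzw.2.2⟩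
  · rintro z w ⟨q1, hq1, rfl⟩ ⟨q2, hq2, rfl⟩
    obtain ⟨r, hr, hr1, hr2⟩ := F.gen.dir q1 q2 hq1 hq2
    rw [hF.1, hF.2] at hr1 hr2
    refine ⟨can _ r, ⟨r, hr, rfl⟩, ?_, ?_⟩
    · exact ⟨G_qT F hP hF hf hr, G_qT F hP hF hf hq1, em_opair_mem.2 hr1.2.2⟩
    · exact ⟨G_qT F hP hF hf hr, G_qT F hP hF hf hq2, em_opair_mem.2 hr2.2.2⟩
  · intro D hD1 hD2
    obtain ⟨y, rfl⟩ := Fo.exists_val D
    have hPhi : qPhi ((imF F hP hF hf).val y) (can (imF F hP hF hf) (fs Q))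
        (can (imF F hP hF hf) (sn Q)) (can (imF F hP hF hf) f) (can (imF F hP hF hf) (sn P))
        (gam (imF F hP hF hf)) := ⟨hD1, hD2⟩
    obtain ⟨a0, ⟨q0, hq0, hq0a⟩, hfrc⟩ := (truth_q _ Q P f y).1 hPhi
    -- the dense set
    obtain ⟨q', hq', q'', hqq, hmem⟩ := Fo.below (F := F)
      (fun q' => ∃ q'', opair q' q'' ∈ sn Q ∧ q'' ∈ fs Q ∧
        FMem (fs P) (sn P) (ap f q') (chk (fs P) q'') y) hq0 (fun q1 hq1 => by
        have hpreQ : Pre (fs Q) (sn Q) := pre_of_po hQ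
        rw [hF.1, hF.2] at hq1
        obtain ⟨G, hGen, hGq1⟩ := exists_gen (fs Q) (sn Q) q1 hq1.1
        let H : Fo M := Fo.mk (fs Q) (sn Q) G hpreQ hGen
        have hH : OnQ H Q := ⟨rfl, rfl⟩
        have hHa : (imF H hP hH hf).G a0 :=
          ⟨q1, hGq1, hP.2 _ _ _ (hf.1.le hq1) hq0a⟩
        have hPhi' := (truth_q (imF H hP hH hf) Q P f y).2 ⟨a0, hHa, hfrc⟩
        obtain ⟨w, hwD, hw⟩ := hPhi'.2 (can (imF H hP hH hf) q1) (G_qT H hP hH hf hGq1)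
        obtain ⟨q'', hq'', rfl⟩ := qT_elim (P := P) (f := f) hw.1
        obtain ⟨a, haG, haF⟩ := Fo.E_val.1 hwD
        have h1 := (mem_qT (P := P) (f := f)).1 hw.1
        obtain ⟨q', hq', h2, h3⟩ := h1.2 a haG
        have h4 : Le (fs Q) (sn Q) q'' q1 :=
          ⟨hq'', hq1.1, (em_opair_mem (i := can (imF H hP hH hf))).1 hw.2.2⟩
        refine ⟨q', ?_, q'', h2, hq'', ?_⟩
        · rw [hF.1, hF.2]
          exact hQ.2 q' q'' q1 ⟨hq', hq'', h2⟩ h4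
        · have : Pre (fs P) (sn P) := pre_of_po hP
          exact fmem_mono haF ⟨hf.1.mem hq', haG.choose_spec.2.2.1, h3⟩)
    refine ⟨can (imF F hP hF hf) q'', Fo.E_val.2 ⟨ap f q', ⟨q', hq', hP.1 _ (hf.1.mem (hG q' hq'))⟩,
      hmem.2⟩, q'', F.gen.up q' q'' hq' ?_, rfl⟩
    rw [hF.1, hF.2]
    exact ⟨hG q' hq', hmem.1, hqq⟩

end Quot

theorem quot [Countable M] (F : Fo M) {Q P f : M} (hQ : BLI.Po Q) (hP : BLI.Po P) (hF : OnQ F Q)
    (hf : BLI.IsGen Q P f) :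
    ∃ (F1 : Fo M) (F2 : Fo F1.Ext), OnQ F1 P ∧ (∀ x, F1.G x ↔ ∃ q, F.G q ∧ BLI.LE P (ap f q) x) ∧
      F2.P ⊆ can F1 (fs Q) ∧ ∃ e : F.Ext ≃ F2.Ext, (∀ x y, e x ∈ e y ↔ x ∈ y) ∧
        ∀ x, e (can F x) = can F2 (can F1 x) := by
  have hG : ∀ q, F.G q → q ∈ fs Q := fun q hq => by
    have := Fo.G_mem hq
    rwa [hF.1] at this
  let F1 : Fo M := imF F hP hF hf
  let F2 : Fo F1.Ext := Fo.mk (qT F1 Q P f) (can F1 (sn Q))
    (fun z => ∃ q, F.G q ∧ z = can F1 q) (pre_qT hQ) (gen_qT F hQ hP hF hf)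
  refine ⟨F1, F2, ⟨rfl, rfl⟩, fun x => Iff.rfl, ?_, ?_⟩
  · intro z hz
    have hz' : z ∈ qS (can F1 (fs Q)) (can F1 (sn Q)) (can F1 f) (can F1 (sn P)) (gam F1) := hz
    rw [mem_qS] at hz'
    exact hz'.1
  · have hT : TEm (fun x => can F2 (can F1 x)) := tem_comp (can F1) (can F2)
    have hg : ∀ z, z ∈ gam F2 ↔ ∃ q, F.G q ∧ z = can F2 (can F1 q) := by
      intro z
      rw [mem_gam]
      constructor
      · rintro ⟨p, ⟨q, hq, rfl⟩, rfl⟩
        exact ⟨q, hq, rfl⟩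
      · rintro ⟨q, hq, rfl⟩
        exact ⟨can F1 q, ⟨q, hq, rfl⟩, rfl⟩
    obtain ⟨e, he, hcan, _, _⟩ := exists_iso (genBy_two F1 F2) F hg (by
      rintro s (rfl | rfl)
      · refine ⟨sep (prod (img (fs P) (fun x => chk F.P x)) (fs Q)) (fun w => ∃ x q,
          w = opair (chk F.P x) q ∧ BLI.LE P (ap f q) x), ?_⟩
        refine ext fun w => ?_
        rw [mem_ev, em_elim]
        constructor
        · rintro ⟨z, r, hz, hr, rfl⟩
          obtain ⟨z', r', hz', rfl, rfl⟩ := em_opair_elim (i := fun x => can F2 (can F1 x)) hz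
          rw [mem_sep] at hz'
          obtain ⟨_, x, q, e1, h1⟩ := hz'
          obtain ⟨rfl, rfl⟩ := opair_inj e1
          obtain ⟨q0, hq0, e2⟩ := (hg _).1 hr
          rw [← em_inj (i := fun x => can F2 (can F1 x)) e2] at hq0
          exact ⟨can F1 x, can_mem_gam.2 ⟨r', hq0, h1⟩,
            ev_chk (i := fun x => can F2 (can F1 x)) hg x⟩
        · rintro ⟨v, hv, rfl⟩
          obtain ⟨x, ⟨q, hq, h1⟩, rfl⟩ := mem_gam.1 hv
          refine ⟨can F2 (can F1 (chk F.P x)), can F2 (can F1 q), ?_, (hg _).2 ⟨q, hq, rfl⟩,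
            (ev_chk (i := fun x => can F2 (can F1 x)) hg x).symm⟩
          refine (em_opair_mem (i := fun x => can F2 (can F1 x))).2 ?_
          rw [mem_sep, opair_mem_prod, mem_img]
          exact ⟨⟨⟨x, h1.2.1, rfl⟩, hG q hq⟩, x, q, rfl, h1⟩
      · obtain ⟨j, _, _, hj1, hj2⟩ := exists_emb (i := fun x => can F2 (can F1 x)) hg
        exact ⟨_, (hj2 (img F.P (fun p => opair (chk F.P p) p))).symm.trans hj1⟩)
    exact ⟨e, he, hcan⟩

end Pool.Agent.ZFIter.NPA.BSM.SP
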