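import Pool.Agent.BSP.ARel0
import Pool.Agent.BSP.DQuo

/-!
# BSP/ARel2: the axiom `pull` of `AbsRel` for `Rel`

`lf_quot`: let `F` be on `Q`, `f` a generic map `Q → P`, `Q` small, `F1, F2, e` from `quot`. Then
`LF Φ (can F κ) x` in `F.Ext` iff `LF Φ (can F1 κ) y` in `F1.Ext` whenever `e x = can F2 y`: by `lf_iso` for
`e` and `lf_small` for `F2 : Fo F1.Ext` (`F2.P ⊆ can F1 (fs Q)` is small in `F1.Ext`: `em_small`, `small_sub`;
`ac_ext`, `inacc_ext` for `F1.P = fs P` small).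

`rel_pull`: `rel_iff`: let `F` be on `Q` with `F.G q`; `F1, F2, e` from `quot`; `F1.G (ap f q)`; by `rel_iff` for
`P` and `F1`: `vr F1 P z` is infinite, almost contained in `can F1 a`, and `LF Φ` of
`(can F1 b, (vr F1 P z, vr F1 P A))`. By `vr_pull`, `e (vr F Q (pull Q P f z)) = can F2 (vr F1 P z)`, so `InfS`
and `AE` go up (`em_InfS`, `em_AE` for `can F2`, and for `e`, which is also a `TEm`; or `UR.iso`).
-/

universe u

namespace Pool.Agent.ZFIter.NPA.BSM.SP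

open Pool.Agent.H78.ZF Pool.Agent.ZFIter Pool.Agent.ZFIter.NPA

variable {Φ : ∀ (M : Type u) [ZFM M], M → Prop} [hΦ : U1 Φ] {M : Type u} [ZFM M]

theorem tem_equiv {N N' : Type u} [ZFM N] [ZFM N'] {e : N ≃ N'} (he : ∀ x y, e x ∈ e y ↔ x ∈ y) :
    TEm (fun x => e x) :=
  ⟨he, fun _ z _ => ⟨e.symm z, (e.apply_symm_apply z).symm⟩,
    fun α _ => ⟨e.symm α, (e.apply_symm_apply α).symm⟩⟩

theorem lf_quot [Countable M] (hAC : AC M) {κ : M} (hκ : Inacc κ) {Q P : M}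
    (hQs : Small κ (fs Q)) (hPs : Small κ (fs P)) {F F1 : Fo M} (hF : OnQ F Q) (hF1 : OnQ F1 P)
    {F2 : Fo F1.Ext} (h2 : F2.P ⊆ can F1 (fs Q)) {e : F.Ext ≃ F2.Ext}
    (he : ∀ x y, e x ∈ e y ↔ x ∈ y) (hc : ∀ x, e (can F x) = can F2 (can F1 x)) {x : F.Ext}
    {y : F1.Ext} (hxy : e x = can F2 y) : LF Φ (can F κ) x ↔ LF Φ (can F1 κ) y := by
  have hs : Small κ F1.P := by
    rw [hF1.1]
    exact hPs
  have h3 : Small (can F1 κ) F2.P := small_sub (em_small (i := can F1) hQs) h2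
  rw [← lf_iso Φ e he, hc κ, hxy]
  exact (lf_small Φ (ac_ext hAC) (inacc_ext hκ hs) F2 h3).symm

theorem rel_pull [Countable M] (hAC : AC M) {κ b p : M} (hκ : Inacc κ) {P Q f z A q : M}
    (hP : BLI.SP (Small κ) P) (hQ : BLI.SP (Small κ) Q) (hf : BLI.IsGen Q P f) (hq : q ∈ fs Q)
    (hr : Rel Φ κ p b P z A (ap f q)) :
    Rel Φ κ p b Q (BLI.pull Q P f z) (BLI.pull Q P f A) q := by
  rw [rel_iff hQ.1]
  refine ⟨hq, fun F hF hFq => ?_⟩
  obtain ⟨F1, F2, hF1, hG, h2, e, he, hc⟩ := quot F hQ.1 hP.1 hF hf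
  have h1 : F1.G (ap f q) := (hG _).2 ⟨q, hFq, hP.1.1 _ (hf.1.mem hq)⟩
  obtain ⟨i1, i2, i3⟩ := ((rel_iff hP.1).1 hr).2 F1 hF1 h1
  have hz : e (vr F Q (BLI.pull Q P f z)) = can F2 (vr F1 P z) :=
    vr_pull hF hP.1 hf.1 hF1 hG he hc
  have hA : e (vr F Q (BLI.pull Q P f A)) = can F2 (vr F1 P A) :=
    vr_pull hF hP.1 hf.1 hF1 hG he hc
  have hT : TEm (fun x => e x) := tem_equiv he
  refine ⟨?_, fun a ha => ?_, ?_⟩
  · rw [← em_InfS (i := fun x => e x)]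
    show InfS (e _)
    rw [hz]
    exact (em_InfS (i := can F2)).2 i1
  · rw [← em_AE (i := fun x => e x)]
    show AE (e _) (e _)
    rw [hz, hc a]
    exact (em_AE (i := can F2)).2 (i2 a ha)
  · refine (lf_quot hAC hκ hQ.2 hP.2 hF hF1 h2 he hc ?_).2 i3
    have e1 : ∀ u v, e (opair u v) = opair (e u) (e v) := fun u v => em_opair (i := fun x => e x) u v
    rw [e1, e1, hz, hA, hc b, em_opair (i := can F2), em_opair (i := can F2)]

end Pool.Agent.ZFIter.NPA.BSM.SP
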