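import Pool.Agent.BSP.TDefs

/-!
# BSP/DDen: dense embeddings and generic extensions

`d` is a dense embedding of `(P, R)` in `(P', R')` (structure `DE` of TDefs), everything in `M`.

`de_push`: let `F : Fo M` be generic for `(P, R)`; put `G' q := q ∈ P' ∧ ∃ x, F.G x ∧ Le P' R' (ap d x) q`.
* `G'` is `Gen P' R'`: upward closed, directed (`F.gen.dir`, `mono`); for `D' ∈ M` dense in `P'` the set
  `sep P (fun x => ∃ q, q ∈ D' ∧ Le P' R' (ap d x) q)` is dense in `P`: given `x`, take `q ∈ D'` with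
  `Le q (ap d x)`, then `y ∈ P` with `Le (ap d y) q` (`dense`); `ap d y` is below `ap d y` and `ap d x`, so by
  `comp` there is `z` below `y` and `x`; `Le (ap d z) (ap d y)`, so `z` is in the set. `F.gen.gen`.
* `F' := ⟨P', R', G', _, _⟩`. Same extension: `same_ext F F'` (SGen) with `g` := the image of `G'` in `F.Ext`,
  which is the element `sep (can F P') (fun q => ∃ x, x ∈ gam F ∧ opair (ap (can F d) x) q ∈ can F R')`
  (`em_ap`, `em_opair_mem` for `can F`; `mem_gam`), and with the `F'`-name `y` of `F.G`, which is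
  `{x ∈ P : G' (ap d x)}`: `F.G x → G' (ap d x)` is clear; conversely let `G' (ap d x)`, so
  `Le (ap d y) (ap d x)` for some `y` with `F.G y`; the set `{z ∈ P : Le z x or z, x have no common
  extension}` is dense, so it has an element `z` with `F.G z`; `z, y` have a common extension `w` with
  `F.G w`; `Le (ap d w) (ap d x)`, so by `comp` (applied to `w`, `x`, `q = ap d w`) some element is below `w`
  and `x`, so below `z` and `x`; hence `Le z x` and `F.G x`. The name is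
  `y = sep (prod (chk P' [P]) P') ..` with pairs `opair (chk P' x) (ap d x)`, `x ∈ P` (an `img P` of a
  definable function); `ev (gam F') (can F' y) = F'.val y = {can F' x : G' (ap d x)}` by `val_ev`, `mem_val'`.

`de_pull`: let `F' : Fo M` be generic for `(P', R')`; put `G x := x ∈ P ∧ F'.G (ap d x)`.
* density: for `D ∈ M` dense in `P`, `sep P' (fun q => ∃ x, x ∈ D ∧ Le P' R' q (ap d x))` is dense in `P'`:
  given `q`, take `x ∈ P` with `Le (ap d x) q`, `y ∈ D` with `Le y x`; then `ap d y` is in the set and below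
  `q`. So `F'.G q` and `Le q (ap d x)`, `x ∈ D`, hence `G x`. Upward closed: `mono`.
  Directed: `x, y` in `G`: the set of all `z ∈ P` which are below `x` and `y`, or have no common extension
  with `x`, or have no common extension with `y`, is dense in `P`; by the density argument it has an
  element `z` in `G`; `ap d z`, `ap d x` have a common extension (in `F'.G`), so by `comp` `z, x` have one.
* the same filter `F'.G` comes back: `F'.G q ↔ ∃ x, G x ∧ Le P' R' (ap d x) q`: the set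
  `{q' ∈ P' : ∃ x ∈ P, Le q' (ap d x) ∧ (Le (ap d x) q ∨ ap d x, q have no common extension)}` is dense
  (given `q'`, if `q', q` have a common extension take it first, then use `dense`).
  So the statement on the extensions follows from `de_push` applied to the new frame (or directly).
-/

universe u

namespace Pool.Agent.ZFIter.NPA.BSM.SP

open Pool.Agent.H78.ZF Pool.Agent.ZFIter Pool.Agent.ZFIter.NPA

variable {M : Type u} [ZFM M]

/-- the part of the proof of `de_push` about the filter -/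
private theorem push_gen (F : Fo M) {P' R' d : M} (hpre : Pre P' R') (h : DE F.P F.R P' R' d) :
    Gen P' R' (fun q => ∃ x, F.G x ∧ Le P' R' (ap d x) q) where
  sub := fun q ⟨x, _, hx⟩ => hx.memR
  ne := by
    obtain ⟨x, hx⟩ := F.gen.ne
    exact ⟨ap d x, x, hx, hpre.refl (h.fn.ap_mem (Fo.G_mem hx))⟩
  up := fun p q ⟨x, hx, h1⟩ h2 => ⟨x, hx, hpre.trans h1 h2⟩
  dir := by
    rintro p q ⟨x, hx, h1⟩ ⟨y, hy, h2⟩
    obtain ⟨z, hz, h3, h4⟩ := F.gen.dir x y hx hy
    exact ⟨ap d z, ⟨z, hz, hpre.refl (h.fn.ap_mem (Fo.G_mem hz))⟩, hpre.trans (h.mono _ _ h3) h1,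
      hpre.trans (h.mono _ _ h4) h2⟩
  gen := by
    intro D hD hden
    obtain ⟨x, hx, q, hq, h1⟩ := Fo.meet (F := F) (fun x => ∃ q, q ∈ D ∧ Le P' R' (ap d x) q) (by
      intro p hp
      obtain ⟨q, hq, h1⟩ := hden (ap d p) (h.fn.ap_mem hp)
      obtain ⟨y, hy, h2⟩ := h.dense q (hD q hq)
      obtain ⟨z, hz1, hz2⟩ := h.comp p y (ap d y) hp hy (hpre.trans h2 h1)
        (hpre.refl (h.fn.ap_mem hy))
      exact ⟨z, hz1, q, hq, hpre.trans (h.mono _ _ hz2) h2⟩)
    exact ⟨q, hq, x, hx, h1⟩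

/-- the filter `F.G` is determined by its image -/
private theorem push_back (F : Fo M) {P' R' d : M} (hpre : Pre P' R') (h : DE F.P F.R P' R' d)
    {x : M} (hx : x ∈ F.P) (hG : ∃ y, F.G y ∧ Le P' R' (ap d y) (ap d x)) : F.G x := by
  obtain ⟨y, hy, h1⟩ := hG
  obtain ⟨z, hz, hA⟩ := Fo.meet (F := F)
    (fun z => Le F.P F.R z x ∨ ¬ ∃ w, Le F.P F.R w z ∧ Le F.P F.R w x) (by
      intro p hp
      by_cases hc : ∃ w, Le F.P F.R w p ∧ Le F.P F.R w x
      · obtain ⟨w, h2, h3⟩ := hc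
        exact ⟨w, h2, Or.inl h3⟩
      · exact ⟨p, Pre.refl hp, Or.inr hc⟩)
  obtain ⟨w, hw, h2, h3⟩ := F.gen.dir z y hz hy
  rcases hA with hA | hA
  · exact F.gen.up z x hz hA
  · exfalso
    have hdw : ap d w ∈ P' := h.fn.ap_mem (Fo.G_mem hw)
    obtain ⟨v, h4, h5⟩ := h.comp w x (ap d w) (Fo.G_mem hw) hx (hpre.refl hdw)
      (hpre.trans (h.mono _ _ h3) h1)
    exact hA ⟨v, Pre.trans h4 h2, h5⟩

theorem de_push (F : Fo M) {P' R' d : M} (hpre : Pre P' R') (h : DE F.P F.R P' R' d) :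
    ∃ F' : Fo M, F'.P = P' ∧ F'.R = R' ∧
      (∀ q, F'.G q ↔ ∃ x, F.G x ∧ Le P' R' (ap d x) q) ∧ IsoOv (can F) (can F') := by
  let F' : Fo M := ⟨P', R', fun q => ∃ x, F.G x ∧ Le P' R' (ap d x) q, hpre, push_gen F hpre h⟩
  refine ⟨F', rfl, rfl, fun q => Iff.rfl, ?_⟩
  set g : F.Ext := sep (can F P')
    (fun q => ∃ x, x ∈ gam F ∧ opair (ap (can F d) x) q ∈ can F R') with hgdef
  have hg : ∀ z, z ∈ g ↔ ∃ q, F'.G q ∧ z = can F q := by
    intro z
    rw [hgdef, mem_sep]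
    constructor
    · rintro ⟨hz, x, hx, h1⟩
      obtain ⟨q, hq, rfl⟩ := (em_elim (i := can F)).1 hz
      obtain ⟨x', hx', rfl⟩ := mem_gam.1 hx
      rw [← em_ap (i := can F), em_opair_mem (i := can F)] at h1
      exact ⟨q, ⟨x', hx', h.fn.ap_mem (Fo.G_mem hx'), hq, h1⟩, rfl⟩
    · rintro ⟨q, ⟨x, hx, h1⟩, rfl⟩
      refine ⟨(em_mem (i := can F)).2 h1.memR, can F x, mem_gam.2 ⟨x, hx, rfl⟩, ?_⟩
      rw [← em_ap (i := can F), em_opair_mem (i := can F)]
      exact h1.2.2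
  set y0 : M := img F.P (fun x => opair (chk P' x) (ap d x)) with hy0
  have hy : ev g (can F y0) = gam F := by
    refine ext fun w => ?_
    rw [mem_ev, mem_gam]
    constructor
    · rintro ⟨z, r, hz, hr, rfl⟩
      obtain ⟨z', r', hz', rfl, rfl⟩ := em_opair_elim (i := can F) hz
      rw [hy0, mem_img] at hz'
      obtain ⟨x, hx, e⟩ := hz'
      obtain ⟨rfl, rfl⟩ := opair_inj e
      obtain ⟨q, ⟨y, hy1, hy2⟩, e⟩ := (hg _).1 hr
      rw [← em_inj (i := can F) e] at hy2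
      exact ⟨x, push_back F hpre h hx ⟨y, hy1, hy2⟩, ev_chk (i := can F) (F := F') hg x⟩
    · rintro ⟨x, hx, rfl⟩
      refine ⟨can F (chk P' x), can F (ap d x), ?_, ?_, ?_⟩
      · rw [em_opair_mem (i := can F), hy0, mem_img]
        exact ⟨x, Fo.G_mem hx, rfl⟩
      · exact (hg _).2 ⟨ap d x, ⟨x, hx, hpre.refl (h.fn.ap_mem (Fo.G_mem hx))⟩, rfl⟩
      · exact (ev_chk (i := can F) (F := F') hg x).symm
  obtain ⟨e, h1, h2, _, _⟩ := same_ext F F' hg hy
  exact IsoOv.symm ⟨e, h1, h2⟩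

theorem de_pull (F' : Fo M) {P R d : M} (hpre : Pre P R) (h : DE P R F'.P F'.R d) :
    ∃ F : Fo M, F.P = P ∧ F.R = R ∧
      (∀ x, F.G x ↔ x ∈ P ∧ F'.G (ap d x)) ∧ IsoOv (can F') (can F) := by
  have key : ∀ (A : M → Prop) [D1 A], (∀ p, p ∈ P → ∃ q, Le P R q p ∧ A q) →
      ∃ x, (x ∈ P ∧ F'.G (ap d x)) ∧ A x := by
    intro A _ hA
    obtain ⟨q, hq, x, hx, hAx, h1⟩ := Fo.meet (F := F')
      (fun q => ∃ x, x ∈ P ∧ A x ∧ Le F'.P F'.R q (ap d x)) (by
        intro p hp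
        obtain ⟨x, hx, h1⟩ := h.dense p hp
        obtain ⟨y, h2, h3⟩ := hA x hx
        exact ⟨ap d y, Pre.trans (h.mono _ _ h2) h1, y, h2.memL, h3,
          Pre.refl (h.fn.ap_mem h2.memL)⟩)
    exact ⟨x, ⟨hx, F'.gen.up q _ hq h1⟩, hAx⟩
  have hcomp : ∀ x y, x ∈ P → y ∈ P → F'.G (ap d x) → F'.G (ap d y) →
      ∃ w, Le P R w x ∧ Le P R w y := by
    intro x y hx hy h1 h2
    obtain ⟨q, _, h3, h4⟩ := F'.gen.dir _ _ h1 h2
    exact h.comp x y q hx hy h3 h4
  have hgen : Gen P R (fun x => x ∈ P ∧ F'.G (ap d x)) := by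
    refine ⟨fun p hp => hp.1, ?_, ?_, ?_, ?_⟩
    · obtain ⟨x, hx, _⟩ := key (fun x => x = x) (fun p hp => ⟨p, hpre.refl hp, rfl⟩)
      exact ⟨x, hx⟩
    · rintro p q ⟨hp, hG⟩ hpq
      exact ⟨hpq.memR, F'.gen.up _ _ hG (h.mono _ _ hpq)⟩
    · rintro x y ⟨hx, hGx⟩ ⟨hy, hGy⟩
      obtain ⟨z, ⟨hz, hGz⟩, hA⟩ := key (fun z => (Le P R z x ∧ Le P R z y) ∨
        (¬ ∃ w, Le P R w z ∧ Le P R w x) ∨ ¬ ∃ w, Le P R w z ∧ Le P R w y) (by
          intro p hp
          by_cases h1 : ∃ w, Le P R w p ∧ Le P R w x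
          · obtain ⟨w, h2, h3⟩ := h1
            by_cases h4 : ∃ v, Le P R v w ∧ Le P R v y
            · obtain ⟨v, h5, h6⟩ := h4
              exact ⟨v, hpre.trans h5 h2, Or.inl ⟨hpre.trans h5 h3, h6⟩⟩
            · exact ⟨w, h2, Or.inr (Or.inr h4)⟩
          · exact ⟨p, hpre.refl hp, Or.inr (Or.inl h1)⟩)
      rcases hA with hA | hA | hA
      · exact ⟨z, ⟨hz, hGz⟩, hA.1, hA.2⟩
      · exact absurd (hcomp z x hz hx hGz hGx) hA
      · exact absurd (hcomp z y hz hy hGz hGy) hA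
    · intro D hD hden
      obtain ⟨x, hx, hxD⟩ := key (fun x => x ∈ D) (fun p hp => by
        obtain ⟨q, h1, h2⟩ := hden p hp
        exact ⟨q, h2, h1⟩)
      exact ⟨x, hxD, hx⟩
  let F : Fo M := ⟨P, R, fun x => x ∈ P ∧ F'.G (ap d x), hpre, hgen⟩
  refine ⟨F, rfl, rfl, fun x => Iff.rfl, ?_⟩
  obtain ⟨F2, hP, hR, hG, hiso⟩ := de_push F F'.pre h
  have hGG : ∀ q, F2.G q ↔ F'.G q := by
    intro q
    rw [hG]
    constructor
    · rintro ⟨x, hx, h1⟩
      exact F'.gen.up _ _ hx.2 h1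
    · intro hq
      obtain ⟨x, ⟨hx, hGx⟩, hA⟩ := key (fun x => Le F'.P F'.R (ap d x) q ∨
        ¬ ∃ r, Le F'.P F'.R r (ap d x) ∧ Le F'.P F'.R r q) (by
          intro p hp
          by_cases hc : ∃ r, Le F'.P F'.R r (ap d p) ∧ Le F'.P F'.R r q
          · obtain ⟨r, h1, h2⟩ := hc
            obtain ⟨y, hy, h3⟩ := h.dense r h1.memL
            obtain ⟨z, h4, h5⟩ := h.comp p y (ap d y) hp hy (Pre.trans h3 h1)
              (Pre.refl (h.fn.ap_mem hy))
            exact ⟨z, h4, Or.inl (Pre.trans (h.mono _ _ h5) (Pre.trans h3 h2))⟩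
          · exact ⟨p, hpre.refl hp, Or.inr hc⟩)
      rcases hA with hA | hA
      · exact ⟨x, ⟨hx, hGx⟩, hA⟩
      · obtain ⟨r, _, h1, h2⟩ := F'.gen.dir _ _ hGx hq
        exact absurd ⟨r, h1, h2⟩ hA
  have hF : F2 = F' := by
    cases F2
    cases F'
    dsimp only at hP hR hGG
    subst hP
    subst hR
    congr 1
    funext q
    exact propext (hGG q)
  rw [hF] at hiso
  exact hiso.symm

end Pool.Agent.ZFIter.NPA.BSM.SP
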