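import Pool.Agent.BSP.TDefs
import Pool.Agent.BSP.TLev

/-!
# BSP/DProd: the product lemma

`prod_mk`: `F1 : Fo M` generic for `(P1, R1)`, `F2 : Fo F1.Ext` generic over `F1.Ext` for the image of
`(P2, R2)`. Let `G w := ∃ a b, w = opair a b ∧ F1.G a ∧ F2.G (can F1 b)`. It is generic over `M` for the
product: for `D ∈ M` dense in the product, the element
`D2 := sep (can F1 P2) (fun b => ∃ a, a ∈ gam F1 ∧ opair a b ∈ can F1 D)` of `F1.Ext` is dense.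

`prod_un`: `F : Fo M` generic for the product. `G1 a := ∃ b, F.G (opair a b)`, `F1 := ⟨P1, R1, G1⟩`;
`F2.G z := ∃ a b, F.G (opair a b) ∧ z = can F1 b` is generic over `F1.Ext` for `can F1 P2` (forcing
theorem for `P1` and generic filters through a given condition).
-/

universe u

namespace Pool.Agent.ZFIter.NPA.BSM.SP

open Pool.Agent.H78.ZF Pool.Agent.ZFIter Pool.Agent.ZFIter.NPA

variable {M : Type u} [ZFM M]

private theorem can_mem' {F : Fo M} {x y : M} : can F x ∈ can F y ↔ x ∈ y := em_mem (i := can F)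

private theorem can_opair {F : Fo M} (x y : M) : can F (opair x y) = opair (can F x) (can F y) :=
  em_opair (i := can F) x y

private theorem le_can {F : Fo M} {P R x y : M} :
    Le (can F P) (can F R) (can F x) (can F y) ↔ Le P R x y := by
  unfold Le
  rw [can_mem', can_mem', ← can_opair, can_mem']

private theorem pre_can {F : Fo M} {P R : M} (h : Pre P R) : Pre (can F P) (can F R) where
  refl := fun {p} hp => by
    obtain ⟨a, ha, rfl⟩ := (em_elim (i := can F)).1 hp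
    exact le_can.2 (h.refl ha)
  trans := fun {r q p} h1 h2 => by
    obtain ⟨a, ha, rfl⟩ := (em_elim (i := can F)).1 h1.1
    obtain ⟨b, hb, rfl⟩ := (em_elim (i := can F)).1 h1.2.1
    obtain ⟨c, hc, rfl⟩ := (em_elim (i := can F)).1 h2.2.1
    rw [le_can] at h1 h2 ⊢
    exact h.trans h1 h2

/-- the product of the two generic filters -/
private theorem gen_prod (F1 : Fo M) (F2 : Fo F1.Ext) {P2 R2 : M} (hpre : Pre P2 R2)
    (hP : F2.P = can F1 P2) (hR : F2.R = can F1 R2) :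
    Gen (prod F1.P P2) (prR F1.P F1.R P2 R2)
      (fun w => ∃ a b, w = opair a b ∧ F1.G a ∧ F2.G (can F1 b)) := by
  have hm : ∀ b, F2.G (can F1 b) → b ∈ P2 := by
    intro b hb
    have h1 := F2.gen.sub _ hb
    rw [hP] at h1
    exact can_mem'.1 h1
  have hel : ∀ z, F2.G z → ∃ b, b ∈ P2 ∧ z = can F1 b := by
    intro z hz
    have h1 := F2.gen.sub _ hz
    rw [hP] at h1
    exact (em_elim (i := can F1)).1 h1
  have hle : ∀ x y, Le F2.P F2.R (can F1 x) (can F1 y) ↔ Le P2 R2 x y := by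
    intro x y
    rw [hP, hR]
    exact le_can
  constructor
  · rintro p ⟨a, b, rfl, ha, hb⟩
    exact (opair_mem_prod _ _ _ _).2 ⟨Fo.G_mem ha, hm b hb⟩
  · obtain ⟨a, ha⟩ := F1.gen.ne
    obtain ⟨z, hz⟩ := F2.gen.ne
    obtain ⟨b, hb, rfl⟩ := hel z hz
    exact ⟨opair a b, a, b, rfl, ha, hz⟩
  · rintro p q ⟨a, b, rfl, ha, hb⟩ h
    obtain ⟨a', ha', b', hb', rfl⟩ := (mem_prod _ _ _).1 h.2.1
    rw [le_prR] at h
    exact ⟨a', b', rfl, F1.gen.up a a' ha h.1, F2.gen.up _ _ hb ((hle _ _).2 h.2)⟩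
  · rintro p q ⟨a, b, rfl, ha, hb⟩ ⟨a', b', rfl, ha', hb'⟩
    obtain ⟨a2, ha2, h1, h2⟩ := F1.gen.dir a a' ha ha'
    obtain ⟨z, hz, h3, h4⟩ := F2.gen.dir _ _ hb hb'
    obtain ⟨b2, hb2, rfl⟩ := hel z hz
    rw [hle] at h3 h4
    exact ⟨opair a2 b2, ⟨a2, b2, rfl, ha2, hz⟩, le_prR.2 ⟨h1, h3⟩, le_prR.2 ⟨h2, h4⟩⟩
  · intro D hD hdense
    let D2 : F1.Ext := sep (can F1 P2) (fun b => ∃ a, a ∈ gam F1 ∧ opair a b ∈ can F1 D)
    obtain ⟨z, hz, hGz⟩ := F2.gen.gen D2 (by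
      intro x hx
      rw [hP]
      exact ((mem_sep _ _ _).1 hx).1) (by
      intro z hz
      rw [hP] at hz
      obtain ⟨b, hb, rfl⟩ := (em_elim (i := can F1)).1 hz
      obtain ⟨a, ha, hGa⟩ := F1.gen.gen
        (sep F1.P (fun a => ∃ b', Le P2 R2 b' b ∧ opair a b' ∈ D))
        (fun x hx => ((mem_sep _ _ _).1 hx).1) (by
          intro p hp
          obtain ⟨w, hw, hle'⟩ := hdense (opair p b) ((opair_mem_prod _ _ _ _).2 ⟨hp, hb⟩)
          obtain ⟨a, ha, b', hb', rfl⟩ := (mem_prod _ _ _).1 (hD w hw)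
          rw [le_prR] at hle'
          exact ⟨a, (mem_sep _ _ _).2 ⟨ha, b', hle'.2, hw⟩, hle'.1⟩)
      obtain ⟨_, b', hb', hab⟩ := (mem_sep _ _ _).1 ha
      refine ⟨can F1 b', ?_, (hle _ _).2 hb'⟩
      refine (mem_sep _ _ _).2 ⟨can_mem'.2 hb'.1, can F1 a, can_mem_gam.2 hGa, ?_⟩
      rw [← can_opair, can_mem']
      exact hab)
    obtain ⟨h1, a, ha, hab⟩ := (mem_sep _ _ _).1 hz
    obtain ⟨b, hb, rfl⟩ := hel z hGz
    obtain ⟨a', ha', rfl⟩ := mem_gam.1 ha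
    rw [← can_opair, can_mem'] at hab
    exact ⟨opair a' b, hab, a', b, rfl, ha', hGz⟩

theorem prod_mk (F1 : Fo M) (F2 : Fo F1.Ext) {P2 R2 : M} (hpre : Pre P2 R2)
    (hP : F2.P = can F1 P2) (hR : F2.R = can F1 R2) :
    ∃ F : Fo M, F.P = prod F1.P P2 ∧ F.R = prR F1.P F1.R P2 R2 ∧
      (∀ a b, F.G (opair a b) ↔ F1.G a ∧ F2.G (can F1 b)) ∧
      IsoOv (fun x => can F2 (can F1 x)) (can F) := by
  let F : Fo M := ⟨prod F1.P P2, prR F1.P F1.R P2 R2,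
    fun w => ∃ a b, w = opair a b ∧ F1.G a ∧ F2.G (can F1 b), pre_prR F1.pre hpre,
    gen_prod F1 F2 hpre hP hR⟩
  have hG : ∀ a b, F.G (opair a b) ↔ F1.G a ∧ F2.G (can F1 b) := by
    intro a b
    constructor
    · rintro ⟨a', b', e, h1, h2⟩
      obtain ⟨rfl, rfl⟩ := opair_inj e
      exact ⟨h1, h2⟩
    · rintro ⟨h1, h2⟩
      exact ⟨a, b, rfl, h1, h2⟩
  refine ⟨F, rfl, rfl, hG, ?_⟩
  let i : M → F2.Ext := fun x => can F2 (can F1 x)
  have hi : TEm i := tem_comp (can F1) (can F2)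
  have him : ∀ x y, i x ∈ i y ↔ x ∈ y := fun x y => em_mem (i := i)
  have hio : ∀ x y, i (opair x y) = opair (i x) (i y) := fun x y => em_opair (i := i) x y
  have hel : ∀ z, F2.G z → ∃ b, b ∈ P2 ∧ z = can F1 b := by
    intro z hz
    have h1 := F2.gen.sub _ hz
    rw [hP] at h1
    exact (em_elim (i := can F1)).1 h1
  let g : F2.Ext := sep (i (prod F1.P P2))
    (fun w => ∃ a b, w = opair a b ∧ a ∈ can F2 (gam F1) ∧ b ∈ gam F2)
  have hg1 : ∀ a, i a ∈ can F2 (gam F1) ↔ F1.G a := by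
    intro a
    rw [← can_mem_gam (F := F1)]
    exact em_mem (i := can F2)
  have hg2 : ∀ b, i b ∈ gam F2 ↔ F2.G (can F1 b) := fun b => can_mem_gam
  have hg : ∀ z, z ∈ g ↔ ∃ q, F.G q ∧ z = i q := by
    intro z
    constructor
    · intro hz
      obtain ⟨h1, a, b, rfl, h2, h3⟩ := (mem_sep _ _ _).1 hz
      obtain ⟨w, hw, e⟩ := (em_elim (i := i)).1 h1
      obtain ⟨a', ha', b', hb', rfl⟩ := (mem_prod _ _ _).1 hw
      rw [hio] at e
      obtain ⟨rfl, rfl⟩ := opair_inj e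
      exact ⟨opair a' b', (hG _ _).2 ⟨(hg1 _).1 h2, (hg2 _).1 h3⟩, (hio _ _).symm⟩
    · rintro ⟨q, ⟨a, b, rfl, h1, h2⟩, rfl⟩
      refine (mem_sep _ _ _).2 ⟨(him _ _).2 ?_, i a, i b, hio _ _, (hg1 _).2 h1, (hg2 _).2 h2⟩
      obtain ⟨b', hb', e⟩ := hel _ h2
      rw [can_inj.1 e]
      exact (opair_mem_prod _ _ _ _).2 ⟨Fo.G_mem h1, hb'⟩
  have hev : ∀ x, ev g (i (chk F.P x)) = i x := fun x => ev_chk (i := i) (F := F) hg x
  obtain ⟨e, he, hcan, _, _⟩ := exists_iso (i := i) (genBy_two F1 F2) F hg (by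
    rintro s (rfl | rfl)
    · refine ⟨img (prod F1.P P2) (fun w => opair (chk (prod F1.P P2) (fs w)) w), ?_⟩
      refine ext fun z => ?_
      rw [mem_ev]
      constructor
      · rintro ⟨x, r, hx, hr, rfl⟩
        obtain ⟨w, hw, e⟩ := (em_elim (i := i)).1 hx
        obtain ⟨w', hw', rfl⟩ := (mem_img _ _ _).1 hw
        rw [hio] at e
        obtain ⟨rfl, rfl⟩ := opair_inj e
        obtain ⟨q, ⟨a, b, rfl, h1, h2⟩, e⟩ := (hg _).1 hr
        rw [em_inj (i := i) e, fs_opair]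
        have h3 := hev a
        rw [show F.P = prod F1.P P2 from rfl] at h3
        rw [h3]
        exact (hg1 a).2 h1
      · intro hz
        obtain ⟨z', hz', rfl⟩ := (em_elim (i := can F2)).1 hz
        obtain ⟨a, ha, rfl⟩ := mem_gam.1 hz'
        obtain ⟨y, hy⟩ := F2.gen.ne
        obtain ⟨b, hb, rfl⟩ := hel y hy
        refine ⟨i (chk (prod F1.P P2) a), i (opair a b), ?_, (hg _).2 ⟨_, (hG _ _).2 ⟨ha, hy⟩, rfl⟩,
          (hev a).symm⟩
        rw [← hio, him, mem_img]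
        exact ⟨opair a b, (opair_mem_prod _ _ _ _).2 ⟨Fo.G_mem ha, hb⟩, by rw [fs_opair]⟩
    · refine ⟨img (prod F1.P P2) (fun w => opair (chk (prod F1.P P2) (sn w)) w), ?_⟩
      refine ext fun z => ?_
      rw [mem_ev]
      constructor
      · rintro ⟨x, r, hx, hr, rfl⟩
        obtain ⟨w, hw, e⟩ := (em_elim (i := i)).1 hx
        obtain ⟨w', hw', rfl⟩ := (mem_img _ _ _).1 hw
        rw [hio] at e
        obtain ⟨rfl, rfl⟩ := opair_inj e
        obtain ⟨q, ⟨a, b, rfl, h1, h2⟩, e⟩ := (hg _).1 hr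
        rw [em_inj (i := i) e, sn_opair]
        have h3 := hev b
        rw [show F.P = prod F1.P P2 from rfl] at h3
        rw [h3]
        exact (hg2 b).2 h2
      · intro hz
        obtain ⟨y, hy, rfl⟩ := mem_gam.1 hz
        obtain ⟨b, hb, rfl⟩ := hel y hy
        obtain ⟨a, ha⟩ := F1.gen.ne
        refine ⟨i (chk (prod F1.P P2) b), i (opair a b), ?_, (hg _).2 ⟨_, (hG _ _).2 ⟨ha, hy⟩, rfl⟩,
          (hev b).symm⟩
        rw [← hio, him, mem_img]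
        exact ⟨opair a b, (opair_mem_prod _ _ _ _).2 ⟨Fo.G_mem ha, hb⟩, by rw [sn_opair]⟩)
  exact IsoOv.symm ⟨e, he, hcan⟩

/-- Two generic filters, one contained in the other, are equal. -/
theorem gen_eq {P R : M} [hpre : Pre P R] {G G' : M → Prop} (h : Gen P R G) (h' : Gen P R G')
    (hs : ∀ p, G p → G' p) (p : M) (hp : G' p) : G p := by
  obtain ⟨q, hq, hG⟩ := h.gen (sep P (fun w => Le P R w p ∨ ∀ r, Le P R r w → ¬ Le P R r p))
    (fun x hx => ((mem_sep _ _ _).1 hx).1) (by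
      intro w hw
      by_cases hc : ∃ r, Le P R r w ∧ Le P R r p
      · obtain ⟨r, h1, h2⟩ := hc
        exact ⟨r, (mem_sep _ _ _).2 ⟨h1.1, Or.inl h2⟩, h1⟩
      · exact ⟨w, (mem_sep _ _ _).2 ⟨hw, Or.inr fun r h1 h2 => hc ⟨r, h1, h2⟩⟩, Pre.refl hw⟩)
  rcases ((mem_sep _ _ _).1 hq).2 with h1 | h1
  · exact h.up q p hG h1
  · obtain ⟨r, _, h2, h3⟩ := h'.dir q p (hs q hG) hp
    exact absurd h3 (h1 r h2)

private theorem fo_ext {F F' : Fo M} (hP : F.P = F'.P) (hR : F.R = F'.R)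
    (hG : ∀ w, F.G w ↔ F'.G w) : F = F' := by
  obtain ⟨P, R, G, pre, gen⟩ := F
  obtain ⟨P', R', G', pre', gen'⟩ := F'
  have e3 : G = G' := funext fun w => propext (hG w)
  subst e3
  cases hP
  cases hR
  rfl

section un

/-- `c` is a triple `(D, P, R)` and `D` is dense in `(P, R)` -/
private def PhiD (M : Type u) [ZFM M] (c : M) : Prop :=
  ∃ y P R, c = opair y (opair P R) ∧ ∀ b, b ∈ P → ∃ b', b' ∈ y ∧ Le P R b' b

private instance : U1 PhiD.{u} := by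
  unfold PhiD
  infer_instance

/-- `c` is a pair `(D, b)` and `b ∈ D` -/
private def PsiD (M : Type u) [ZFM M] (c : M) : Prop := ∃ y b, c = opair y b ∧ b ∈ y

private instance : U1 PsiD.{u} := by
  unfold PsiD
  infer_instance

private instance DR.FrPsi {ι : Type} (P R τ p : (ι → M) → M) [hP : DF P] [hR : DF R] [hτ : DF τ]
    [hp : DF p] : DR (fun v => Fr PsiD.{u} (P v) (R v) (τ v) (p v)) := by
  have h0 : UR.{u} (ι := Fin 4) (fun M _ (v : Fin 4 → M) => Fr PsiD.{u} (v 0) (v 1) (v 2) (v 3)) :=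
    inferInstance
  have h1 : DR (M := M) (ι := Fin 4) (fun v : Fin 4 → M => Fr PsiD.{u} (v 0) (v 1) (v 2) (v 3)) :=
    UR.dr (fun M _ (v : Fin 4 → M) => Fr PsiD.{u} (v 0) (v 1) (v 2) (v 3)) M
  have h2 : ∀ o : Fin 4, DF (M := M) (ι := ι) ((![P, R, τ, p] : Fin 4 → (ι → M) → M) o) := by
    intro o
    fin_cases o
    · exact hP
    · exact hR
    · exact hτ
    · exact hp
  exact @DR.subst M _ ι (Fin 4) _ _ h1 (![P, R, τ, p]) h2

private theorem gen_fst (F : Fo M) {P1 R1 P2 R2 : M} (h1 : Pre P1 R1) (h2 : Pre P2 R2)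
    (hP : F.P = prod P1 P2) (hR : F.R = prR P1 R1 P2 R2) :
    Gen P1 R1 (fun a => ∃ b, F.G (opair a b)) := by
  have hm : ∀ a b, F.G (opair a b) → a ∈ P1 ∧ b ∈ P2 := by
    intro a b h
    have h3 := Fo.G_mem h
    rw [hP] at h3
    exact (opair_mem_prod _ _ _ _).1 h3
  have hle : ∀ a b a' b', Le F.P F.R (opair a b) (opair a' b') ↔ Le P1 R1 a a' ∧ Le P2 R2 b b' := by
    intro a b a' b'
    rw [hP, hR]
    exact le_prR
  constructor
  · rintro a ⟨b, h⟩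
    exact (hm a b h).1
  · obtain ⟨w, hw⟩ := F.gen.ne
    have h3 := Fo.G_mem hw
    rw [hP] at h3
    obtain ⟨a, _, b, _, rfl⟩ := (mem_prod _ _ _).1 h3
    exact ⟨a, b, hw⟩
  · rintro a a' ⟨b, h⟩ hl
    exact ⟨b, F.gen.up _ _ h ((hle _ _ _ _).2 ⟨hl, h2.refl (hm a b h).2⟩)⟩
  · rintro a a' ⟨b, h⟩ ⟨b', h'⟩
    obtain ⟨w, hw, h3, h4⟩ := F.gen.dir _ _ h h'
    have h5 := Fo.G_mem hw
    rw [hP] at h5
    obtain ⟨a2, _, b2, _, rfl⟩ := (mem_prod _ _ _).1 h5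
    exact ⟨a2, ⟨b2, hw⟩, ((hle _ _ _ _).1 h3).1, ((hle _ _ _ _).1 h4).1⟩
  · intro D hD hdense
    obtain ⟨w, hw, hG⟩ := F.gen.gen (sep (prod P1 P2) (fun w => ∃ a b, w = opair a b ∧ a ∈ D))
      (by
        intro x hx
        rw [hP]
        exact ((mem_sep _ _ _).1 hx).1) (by
        intro w hw
        rw [hP] at hw
        obtain ⟨a, ha, b, hb, rfl⟩ := (mem_prod _ _ _).1 hw
        obtain ⟨a', ha', hl⟩ := hdense a ha
        exact ⟨opair a' b, (mem_sep _ _ _).2 ⟨(opair_mem_prod _ _ _ _).2 ⟨hl.1, hb⟩, a', b, rfl, ha'⟩,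
          (hle _ _ _ _).2 ⟨hl, h2.refl hb⟩⟩)
    obtain ⟨_, a, b, rfl, ha⟩ := (mem_sep _ _ _).1 hw
    exact ⟨a, ha, b, hG⟩

private theorem claim [Countable M] {P1 R1 P2 R2 : M} (h1 : Pre P1 R1) {y a0 a b : M}
    (hΦ : Fr PhiD.{u} P1 R1 (opnm P1 y (opnm P1 (chk P1 P2) (chk P1 R2))) a0)
    (ha : Le P1 R1 a a0) (hb : b ∈ P2) :
    ∃ a' b', Le P1 R1 a' a ∧ Le P2 R2 b' b ∧ Fr PsiD.{u} P1 R1 (opnm P1 y (chk P1 b')) a' := by
  obtain ⟨G, hG, hGa⟩ := exists_gen P1 R1 a ha.1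
  let H : Fo M := ⟨P1, R1, G, h1, hG⟩
  have h2 : PhiD H.Ext (H.val (opnm P1 y (opnm P1 (chk P1 P2) (chk P1 R2)))) :=
    (truth_Fr PhiD.{u} H _).2 ⟨a0, hG.up a a0 hGa ha, hΦ⟩
  have e1 : H.val (opnm P1 y (opnm P1 (chk P1 P2) (chk P1 R2))) =
      opair (H.val y) (opair (can H P2) (can H R2)) := by
    rw [show P1 = H.P from rfl, val_opnm, val_opnm]
    rfl
  rw [e1] at h2
  obtain ⟨y', P', R', e, h3⟩ := h2
  obtain ⟨rfl, e2⟩ := opair_inj e
  obtain ⟨rfl, rfl⟩ := opair_inj e2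
  obtain ⟨z, hz, hl⟩ := h3 (can H b) (can_mem'.2 hb)
  obtain ⟨b', hb', rfl⟩ := (em_elim (i := can H)).1 hl.1
  rw [le_can] at hl
  have h4 : PsiD H.Ext (H.val (opnm P1 y (chk P1 b'))) := by
    rw [show P1 = H.P from rfl, val_opnm]
    exact ⟨_, _, rfl, hz⟩
  obtain ⟨a2, ha2, h5⟩ := (truth_Fr PsiD.{u} H _).1 h4
  obtain ⟨a', ha', h6, h7⟩ := hG.dir a a2 hGa ha2
  exact ⟨a', b', h6, hl, (good_Fr PsiD.{u} P1 R1 _).mono h5 h7⟩

end un

theorem prod_un [Countable M] (F : Fo M) {P1 R1 P2 R2 : M} (h1 : Pre P1 R1) (h2 : Pre P2 R2)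
    (hP : F.P = prod P1 P2) (hR : F.R = prR P1 R1 P2 R2) :
    ∃ (F1 : Fo M) (F2 : Fo F1.Ext), F1.P = P1 ∧ F1.R = R1 ∧ F2.P = can F1 P2 ∧ F2.R = can F1 R2 ∧
      (∀ a b, F.G (opair a b) ↔ F1.G a ∧ F2.G (can F1 b)) ∧
      IsoOv (can F) (fun x => can F2 (can F1 x)) := by
  have hm : ∀ a b, F.G (opair a b) → a ∈ P1 ∧ b ∈ P2 := by
    intro a b h
    have h3 := Fo.G_mem h
    rw [hP] at h3
    exact (opair_mem_prod _ _ _ _).1 h3
  have hle : ∀ a b a' b', Le F.P F.R (opair a b) (opair a' b') ↔ Le P1 R1 a a' ∧ Le P2 R2 b b' := by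
    intro a b a' b'
    rw [hP, hR]
    exact le_prR
  have hel : ∀ w, w ∈ F.P → ∃ a b, a ∈ P1 ∧ b ∈ P2 ∧ w = opair a b := by
    intro w hw
    rw [hP] at hw
    obtain ⟨a, ha, b, hb, rfl⟩ := (mem_prod _ _ _).1 hw
    exact ⟨a, b, ha, hb, rfl⟩
  let F1 : Fo M := ⟨P1, R1, fun a => ∃ b, F.G (opair a b), h1, gen_fst F h1 h2 hP hR⟩
  have hGf : ∀ a, F1.G a ↔ ∃ b, F.G (opair a b) := fun a => Iff.rfl
  have g2 : Gen (can F1 P2) (can F1 R2) (fun z => ∃ a b, F.G (opair a b) ∧ z = can F1 b) := by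
    constructor
    · rintro z ⟨a, b, h, rfl⟩
      exact can_mem'.2 (hm a b h).2
    · obtain ⟨w, hw⟩ := F.gen.ne
      obtain ⟨a, b, _, _, rfl⟩ := hel w (Fo.G_mem hw)
      exact ⟨can F1 b, a, b, hw, rfl⟩
    · rintro z q ⟨a, b, h, rfl⟩ hl
      obtain ⟨b', hb', rfl⟩ := (em_elim (i := can F1)).1 hl.2.1
      rw [le_can] at hl
      exact ⟨a, b', F.gen.up _ _ h ((hle _ _ _ _).2 ⟨h1.refl (hm a b h).1, hl⟩), rfl⟩
    · rintro z z' ⟨a, b, h, rfl⟩ ⟨a', b', h', rfl⟩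
      obtain ⟨w, hw, h3, h4⟩ := F.gen.dir _ _ h h'
      obtain ⟨a2, b2, _, _, rfl⟩ := hel w (Fo.G_mem hw)
      exact ⟨can F1 b2, ⟨a2, b2, hw, rfl⟩, le_can.2 ((hle _ _ _ _).1 h3).2,
        le_can.2 ((hle _ _ _ _).1 h4).2⟩
    · intro D _ hdense
      obtain ⟨y, rfl⟩ := Fo.exists_val D
      have h3 : PhiD F1.Ext (F1.val (opnm P1 y (opnm P1 (chk P1 P2) (chk P1 R2)))) := by
        rw [show P1 = F1.P from rfl, val_opnm, val_opnm]
        exact ⟨_, _, _, rfl, hdense⟩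
      obtain ⟨a0, ⟨b0, ha0⟩, h4⟩ := (truth_Fr PhiD.{u} F1 _).1 h3
      obtain ⟨w, hw, a, b, rfl, h5⟩ := Fo.below (F := F)
        (fun w => ∃ a b, w = opair a b ∧ Fr PsiD.{u} P1 R1 (opnm P1 y (chk P1 b)) a) ha0 (by
          intro q hq
          obtain ⟨a, b, _, hb, rfl⟩ := hel q hq.1
          rw [hle] at hq
          obtain ⟨a', b', h6, h7, h8⟩ := claim (P2 := P2) (R2 := R2) h1 h4 hq.1 hb
          exact ⟨opair a' b', (hle _ _ _ _).2 ⟨h6, h7⟩, a', b', rfl, h8⟩)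
      refine ⟨can F1 b, ?_, a, b, hw, rfl⟩
      have h6 : PsiD F1.Ext (F1.val (opnm P1 y (chk P1 b))) :=
        (truth_Fr PsiD.{u} F1 _).2 ⟨a, ⟨b, hw⟩, h5⟩
      rw [show P1 = F1.P from rfl, val_opnm] at h6
      obtain ⟨y', b', e, h7⟩ := h6
      obtain ⟨rfl, rfl⟩ := opair_inj e
      exact h7
  let F2 : Fo F1.Ext := ⟨can F1 P2, can F1 R2, fun z => ∃ a b, F.G (opair a b) ∧ z = can F1 b,
    pre_can h2, g2⟩
  have hG : ∀ a b, F.G (opair a b) ↔ F1.G a ∧ F2.G (can F1 b) := by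
    intro a b
    constructor
    · intro h
      exact ⟨⟨b, h⟩, a, b, h, rfl⟩
    · rintro ⟨⟨b1, h3⟩, a2, b2, h4, e⟩
      rw [can_inj.1 e]
      obtain ⟨w, hw, h5, h6⟩ := F.gen.dir _ _ h3 h4
      obtain ⟨a3, b3, _, _, rfl⟩ := hel w (Fo.G_mem hw)
      exact F.gen.up _ _ hw ((hle _ _ _ _).2 ⟨((hle _ _ _ _).1 h5).1, ((hle _ _ _ _).1 h6).2⟩)
  refine ⟨F1, F2, rfl, rfl, rfl, rfl, hG, ?_⟩
  obtain ⟨F', hP', hR', hG', hI⟩ := prod_mk F1 F2 h2 rfl rfl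
  have e : F = F' := by
    refine fo_ext (hP.trans hP'.symm) (hR.trans hR'.symm) fun w => ?_
    constructor
    · intro h
      obtain ⟨a, b, _, _, rfl⟩ := hel w (Fo.G_mem h)
      exact (hG' a b).2 ((hG a b).1 h)
    · intro h
      have h3 := Fo.G_mem h
      rw [hP'] at h3
      obtain ⟨a, _, b, _, rfl⟩ := (mem_prod _ _ _).1 h3
      exact (hG a b).2 ((hG' a b).1 h)
  rw [e]
  exact hI.symm

end Pool.Agent.ZFIter.NPA.BSM.SP
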