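import Pool.Agent.BSP.FQuo

/-!
# BSP/FChk: check names and the embedding of the ground model

`chk P x = {(chk P y, p) : y ∈ x, p ∈ P}`, by `erec`. `chk_eq`: `erec_eq` and `ap_mkseq`.
`elim_can`: `Fo.E_iff` (`G` is nonempty and included in `P`). `can_mem`, `can_inj`: by
`mem_induction` on `x` prove: for all `y`, if some `p ∈ P` has `FEq p (chk x) (chk y)` then `x = y`
(this is a definable statement about `x` in `M`; `feq_iff` and the induction hypothesis, and
`feq_refl`), then use `Fo.val_eq`, `elim_can`.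
-/

universe u

namespace Pool.Agent.ZFIter.NPA.BSM.SP

open Pool.Agent.H78.ZF Pool.Agent.ZFIter Pool.Agent.ZFIter.NPA

variable {M : Type u} [ZFM M] {ι : Type}

/-- the recursion step -/
noncomputable def chkStep (P x g : M) : M := prod (img x (fun y => ap g y)) P

instance DF.chkStep (P x g : (ι → M) → M) [DF P] [DF x] [DF g] :
    DF (fun v => chkStep (P v) (x v) (g v)) := by
  unfold SP.chkStep
  infer_instance

/-- The canonical name of `x`. -/
noncomputable def chk (P x : M) : M := erec (fun x g => chkStep P x g) x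

instance DF.chk (P x : (ι → M) → M) [DF P] [DF x] : DF (fun v => chk (P v) (x v)) := by
  unfold SP.chk
  infer_instance

theorem chk_eq (P x : M) : chk P x = prod (img x (fun y => chk P y)) P := by
  have e : chk P x = chkStep P x (mkseq x (fun y => chk P y)) :=
    erec_eq (G := fun x g => chkStep P x g) x
  rw [e]
  unfold chkStep
  congr 1
  apply Pool.Agent.H78.ZF.ext
  intro z
  rw [mem_img, mem_img]
  constructor
  · rintro ⟨y, hy, rfl⟩
    exact ⟨y, hy, ap_mkseq hy⟩
  · rintro ⟨y, hy, rfl⟩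
    exact ⟨y, hy, (ap_mkseq hy).symm⟩

theorem opair_mem_chk {P x z s : M} : opair z s ∈ chk P x ↔ (∃ y, y ∈ x ∧ z = chk P y) ∧ s ∈ P := by
  rw [chk_eq, opair_mem_prod, mem_img]

/-- The canonical embedding of `M` into the generic extension. -/
noncomputable def can (F : Fo M) (x : M) : F.Ext := F.val (chk F.P x)

variable {F : Fo M}

theorem elim_can {x : M} {z : F.Ext} : F.E z (can F x) ↔ ∃ y, y ∈ x ∧ z = can F y := by
  obtain ⟨z0, rfl⟩ := Fo.exists_val z
  unfold can
  rw [Fo.E_iff]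
  constructor
  · rintro ⟨w, s, h, _, e⟩
    obtain ⟨⟨y, hy, rfl⟩, _⟩ := opair_mem_chk.1 h
    exact ⟨y, hy, e⟩
  · rintro ⟨y, hy, e⟩
    obtain ⟨s, hs⟩ := F.gen.ne
    exact ⟨chk F.P y, s, opair_mem_chk.2 ⟨⟨y, hy, rfl⟩, Fo.G_mem hs⟩, hs, e⟩

theorem feq_chk {p x y : M} (hp : p ∈ F.P) : FEq F.P F.R p (chk F.P x) (chk F.P y) ↔ x = y := by
  constructor
  · intro h
    have key : ∀ x : M, ∀ y p : M, p ∈ F.P → FEq F.P F.R p (chk F.P x) (chk F.P y) → x = y := by
      refine mem_induction (fun x => ∀ y p : M, p ∈ F.P →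
        FEq F.P F.R p (chk F.P x) (chk F.P y) → x = y) ?_
      intro x ih y p hp h
      obtain ⟨h1, h2⟩ := feq_clause h
      apply Pool.Agent.H78.ZF.ext
      intro a
      constructor
      · intro ha
        obtain ⟨r, hr, w, t, hw, _, hE⟩ := h1 (chk F.P a) p (opair_mem_chk.2 ⟨⟨a, ha, rfl⟩, hp⟩) p
          (Pre.refl hp) (Pre.refl hp)
        obtain ⟨⟨b, hb, rfl⟩, _⟩ := opair_mem_chk.1 hw
        rw [ih a ha b r hr.memL hE]
        exact hb
      · intro ha
        obtain ⟨r, hr, w, t, hw, _, hE⟩ := h2 (chk F.P a) p (opair_mem_chk.2 ⟨⟨a, ha, rfl⟩, hp⟩) p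
          (Pre.refl hp) (Pre.refl hp)
        obtain ⟨⟨b, hb, rfl⟩, _⟩ := opair_mem_chk.1 hw
        rw [← ih b hb a r hr.memL hE]
        exact hb
    exact key x y p hp h
  · rintro rfl
    exact feq_refl _ _

theorem can_inj {x y : M} : can F x = can F y ↔ x = y := by
  constructor
  · intro h
    obtain ⟨p, hp, hE⟩ := Fo.val_eq.1 h
    exact (feq_chk (Fo.G_mem hp)).1 hE
  · rintro rfl
    rfl

theorem can_mem {x y : M} : F.E (can F x) (can F y) ↔ x ∈ y := by
  rw [elim_can]
  constructor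
  · rintro ⟨z, hz, e⟩
    rw [can_inj.1 e]
    exact hz
  · intro h
    exact ⟨x, h, rfl⟩

end Pool.Agent.ZFIter.NPA.BSM.SP
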