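import Pool.Agent.BSP.FRel

/-!
# BSP/FFor: every definable relation of the generic extension has a forcing relation

`frel_formula`: induction on the bounded formula, with `FRel.bot/eq/mem/imp/all/reindex` (terms are
variables since `LSet` has no function symbols; see the proof of `rel_real` in NPA/BRel for the
handling of `Fin.snoc`). `exists_frel`: `def_formula` of NPA/BRel writes the relation as
`φ.Realize (Sum.elim v a)` with parameters `a = val ∘ b`; apply `frel_formula` to `φ` and substitute the
names `b` (constants) in the forcing relation with `DR.subst`.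
`frel1 .. frel3` are the forms for relations with one, two, three arguments, given as `Set.Definable`
facts over the raw structure; they are used to prove the axioms of ZF in the extension.
-/

universe u

namespace Pool.Agent.ZFIter.NPA.BSM.SP

open Pool.Agent.H78.ZF Pool.Agent.ZFIter Pool.Agent.ZFIter.NPA

open FirstOrder

variable {M : Type u} [ZFM M] {F : Fo M}

private theorem ffor_var {α : Type} (t : LSet.Term α) : ∃ a, t = FirstOrder.Language.Term.var a := by
  cases t with
  | var a => exact ⟨a, rfl⟩
  | func f _ => exact nomatch f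

private theorem frel_congr {ι : Type} {Q Q' : (ι → F.Ext) → Prop} (h : ∃ A, FRel F Q A)
    (e : ∀ v, Q v ↔ Q' v) : ∃ A, FRel F Q' A := by
  have : Q = Q' := funext fun v => propext (e v)
  rwa [← this]

private theorem ffor_elim {α : Type} {m : ℕ} (v : α ⊕ Fin m → F.Ext) (a : α ⊕ Fin m) :
    Sum.elim (fun i => v (Sum.inl i)) (fun j => v (Sum.inr j)) a = v a := by
  cases a <;> rfl

theorem frel_formula {α : Type} [Finite α] {m : ℕ} (φ : LSet.BoundedFormula α m) :
    letI := structOf F.E
    ∃ A, FRel F (fun v : α ⊕ Fin m → F.Ext =>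
      φ.Realize (fun i => v (Sum.inl i)) (fun j => v (Sum.inr j))) A := by
  letI := structOf F.E
  induction φ with
  | falsum => exact FRel.bot
  | @equal m t₁ t₂ =>
    obtain ⟨a, rfl⟩ := ffor_var t₁
    obtain ⟨b, rfl⟩ := ffor_var t₂
    refine frel_congr (FRel.eq a b) fun v => ?_
    simp only [Language.BoundedFormula.Realize, Language.Term.realize_var, ffor_elim]
  | @rel m l R ts =>
    cases R
    obtain ⟨a, ha⟩ := ffor_var (ts 0)
    obtain ⟨b, hb⟩ := ffor_var (ts 1)
    refine frel_congr (FRel.mem a b) fun v => ?_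
    have e : ∀ w : Fin 2 → F.Ext,
        (Language.Structure.RelMap (L := LSet) MemSymb.mem w ↔ F.E (w 0) (w 1)) :=
      fun w => Iff.rfl
    simp only [Language.BoundedFormula.Realize, e, ha, hb, Language.Term.realize_var, ffor_elim]
  | @imp m f g ihf ihg => exact FRel.imp ihf ihg
  | @all m f ih =>
    have h1 := FRel.reindex (κ := Option (α ⊕ Fin m)) ih
      (Sum.elim (fun i => some (Sum.inl i)) (Fin.snoc (α := fun _ => Option (α ⊕ Fin m))
          (fun j => some (Sum.inr j)) none))
    refine frel_congr (FRel.all h1) fun v => ?_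
    rw [Language.BoundedFormula.realize_all]
    refine forall_congr' fun x => ?_
    have e1 : (fun j : Fin (m + 1) => (fun o : Option (α ⊕ Fin m) => o.elim x v)
        (Sum.elim (fun i => some (Sum.inl i)) (Fin.snoc (α := fun _ => Option (α ⊕ Fin m))
          (fun j => some (Sum.inr j)) none) (Sum.inr j))) =
        (Fin.snoc (fun j => v (Sum.inr j)) x : Fin (m + 1) → F.Ext) := by
      funext j
      refine Fin.lastCases ?_ (fun j => ?_) j
      · simp
      · simp
    rw [← e1]
    exact Iff.rfl

theorem exists_frel {k : ℕ} (Q : (Fin k → F.Ext) → Prop)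
    (hQ : letI := structOf F.E; (Set.univ : Set F.Ext).Definable LSet {v | Q v}) :
    ∃ A, FRel F Q A := by
  letI := structOf F.E
  obtain ⟨n, φ, a, hφ⟩ := def_formula k _ hQ
  have hQ' : ∀ v : Fin k → F.Ext, Q v ↔ φ.Realize (Sum.elim v a) := by
    intro v
    have : v ∈ {v | Q v} ↔ v ∈ {v | φ.Realize (Sum.elim v a)} := by rw [hφ]
    exact this
  have hb : ∀ i, ∃ x, a i = F.val x := fun i => Fo.exists_val (a i)
  choose b hb using hb
  obtain ⟨A, hA⟩ := frel_formula (F := F) (m := 0) φ
  set w : (Fin k → M) → (Fin k ⊕ Fin n) ⊕ Fin 0 → M := fun v =>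
    Sum.elim (Sum.elim v b) (fun j => j.elim0) with hw
  refine ⟨fun v p => A (w v) p, ⟨?_, fun v => hA.good _, fun v => ?_⟩⟩
  · have h1 : ∀ o : Option ((Fin k ⊕ Fin n) ⊕ Fin 0), DF (M := M) (ι := Option (Fin k))
        ((fun o u => o.elim (u none) (w fun i => u (some i)) :
          Option ((Fin k ⊕ Fin n) ⊕ Fin 0) → (Option (Fin k) → M) → M) o) := by
      intro o
      rcases o with _ | (i | j) | j
      · exact DF.var none
      · exact DF.var (some i)
      · exact (inferInstance : DF (fun _ : Option (Fin k) → M => b j))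
      · exact j.elim0
    exact @DR.subst M _ (Option (Fin k)) (Option ((Fin k ⊕ Fin n) ⊕ Fin 0)) _ _ hA.dr _ h1
  · rw [hQ', ← hA.truth]
    have e1 : (fun i => F.val (w v (Sum.inl i))) = Sum.elim (fun i => F.val (v i)) a := by
      funext i
      rcases i with i | j
      · rfl
      · exact (hb j).symm
    show _ ↔ Language.BoundedFormula.Realize φ (fun i => F.val (w v (Sum.inl i)))
      (fun j => F.val (w v (Sum.inr j)))
    rw [e1, Language.Formula.Realize]
    have e2 : (fun j => F.val (w v (Sum.inr j))) = (default : Fin 0 → F.Ext) :=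
      funext fun j => j.elim0
    rw [e2]

/-- A relation with one argument. -/
theorem frel1 (Q : F.Ext → Prop)
    (hQ : letI := structOf F.E; (Set.univ : Set F.Ext).Definable LSet {v : Fin 1 → F.Ext | Q (v 0)}) :
    ∃ A : M → M → Prop, D2 A ∧ (∀ x, Good F.P F.R (A x)) ∧
      ∀ x, Q (F.val x) ↔ ∃ p, F.G p ∧ A x p := by
  obtain ⟨A, hA⟩ := exists_frel (fun v : Fin 1 → F.Ext => Q (v 0)) hQ
  refine ⟨fun x p => A (fun _ => x) p, ⟨?_⟩, fun x => hA.good _, fun x => hA.truth (fun _ => x)⟩
  have h1 : ∀ o : Option (Fin 1), DF (M := M) (ι := Fin 2)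
      ((fun o u => o.elim (u 1) (fun _ => u 0) : Option (Fin 1) → (Fin 2 → M) → M) o) := by
    intro o
    rcases o with _ | i
    · exact DF.var 1
    · exact DF.var 0
  exact @DR.subst M _ (Fin 2) (Option (Fin 1)) _ _ hA.dr _ h1

/-- A relation with two arguments. -/
theorem frel2 (Q : F.Ext → F.Ext → Prop)
    (hQ : letI := structOf F.E;
      (Set.univ : Set F.Ext).Definable LSet {v : Fin 2 → F.Ext | Q (v 0) (v 1)}) :
    ∃ A : M → M → M → Prop, D3 A ∧ (∀ x y, Good F.P F.R (A x y)) ∧
      ∀ x y, Q (F.val x) (F.val y) ↔ ∃ p, F.G p ∧ A x y p := by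
  obtain ⟨A, hA⟩ := exists_frel (fun v : Fin 2 → F.Ext => Q (v 0) (v 1)) hQ
  refine ⟨fun x y p => A (fun i => if i = 0 then x else y) p, ⟨?_⟩, fun x y => hA.good _,
    fun x y => hA.truth (fun i => if i = 0 then x else y)⟩
  have h1 : ∀ o : Option (Fin 2), DF (M := M) (ι := Fin 3)
      ((fun o u => o.elim (u 2) (fun i => if i = 0 then u 0 else u 1) :
        Option (Fin 2) → (Fin 3 → M) → M) o) := by
    intro o
    rcases o with _ | i
    · exact DF.var 2
    · fin_cases i
      · exact DF.var 0
      · exact DF.var 1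
  exact @DR.subst M _ (Fin 3) (Option (Fin 2)) _ _ hA.dr _ h1

end Pool.Agent.ZFIter.NPA.BSM.SP
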