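import Pool.Agent.BSP.FInst
import Pool.Agent.BSM.EAbs2

/-!
# BSP/FGen: the generic set, evaluation of names inside the extension

* `gam`: the value of the name `{(chk p, p) : p ∈ P}`; `mem_gam`: `mem_val'`.
* `val_opn`: `opn` = name of the ordered pair; `val (upn x y) = upair (val x) (val y)` for
  `upn x y = prod (upair x y) P` by `mem_val'` and `ext`.
* `exists_evf`: for `a : M` let `T = tcl a` (a transitive set with `a ∈ T`, see NPA/Rec). The name of `f` is
  the set of all `(opn (chk x) x, p)`, `x ∈ T`, `p ∈ P` (an `img` over `prod T P` or `prod (img T _) P`).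
  `f` is a function on `can T` (functional by `can_inj`), `ap f (can x) = val x`.
-/

universe u

namespace Pool.Agent.ZFIter.NPA.BSM.SP

open Pool.Agent.H78.ZF Pool.Agent.ZFIter Pool.Agent.ZFIter.NPA

variable {M : Type u} [ZFM M] (F : Fo M)

/-- The generic filter as a set of the extension. -/
noncomputable def gam : F.Ext := F.val (img F.P (fun p => opair (chk F.P p) p))

variable {F}

theorem mem_gam {z : F.Ext} : z ∈ gam F ↔ ∃ p, F.G p ∧ z = can F p := by
  unfold gam
  rw [mem_val']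
  constructor
  · rintro ⟨x, s, h1, h2, rfl⟩
    rw [mem_img] at h1
    obtain ⟨p, _, e⟩ := h1
    obtain ⟨rfl, rfl⟩ := opair_inj e
    exact ⟨s, h2, rfl⟩
  · rintro ⟨p, hp, rfl⟩
    refine ⟨chk F.P p, p, ?_, hp, rfl⟩
    rw [mem_img]
    exact ⟨p, Fo.G_mem hp, rfl⟩

theorem can_mem_gam {p : M} : can F p ∈ gam F ↔ F.G p := by
  rw [mem_gam]
  constructor
  · rintro ⟨q, hq, e⟩
    rwa [can_inj.1 e]
  · intro h
    exact ⟨p, h, rfl⟩

/-- The name of an unordered pair. -/
noncomputable def upnm (P x y : M) : M := prod (upair x y) P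

/-- The name of an ordered pair. -/
noncomputable def opnm (P x y : M) : M := upnm P (upnm P x x) (upnm P x y)

instance DF.upnm {ι : Type} (P x y : (ι → M) → M) [DF P] [DF x] [DF y] :
    DF (fun v => upnm (P v) (x v) (y v)) := by
  unfold SP.upnm
  infer_instance

instance DF.opnm {ι : Type} (P x y : (ι → M) → M) [DF P] [DF x] [DF y] :
    DF (fun v => opnm (P v) (x v) (y v)) := by
  unfold SP.opnm
  infer_instance

theorem val_upnm (x y : M) : F.val (upnm F.P x y) = upair (F.val x) (F.val y) := by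
  apply ext
  intro z
  unfold upnm
  rw [mem_val', mem_upair]
  constructor
  · rintro ⟨w, s, h1, _, rfl⟩
    rw [opair_mem_prod, mem_upair] at h1
    rcases h1.1 with rfl | rfl
    · exact Or.inl rfl
    · exact Or.inr rfl
  · obtain ⟨p, hp⟩ := F.gen.ne
    rintro (rfl | rfl)
    · exact ⟨x, p, by rw [opair_mem_prod, mem_upair]; exact ⟨Or.inl rfl, Fo.G_mem hp⟩, hp, rfl⟩
    · exact ⟨y, p, by rw [opair_mem_prod, mem_upair]; exact ⟨Or.inr rfl, Fo.G_mem hp⟩, hp, rfl⟩

theorem val_opnm (x y : M) : F.val (opnm F.P x y) = opair (F.val x) (F.val y) := by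
  have h1 : upair (F.val x) (F.val x) = sing (F.val x) := by
    apply ext
    intro z
    rw [mem_upair, mem_sing, or_self]
  unfold opnm
  rw [val_upnm, val_upnm, val_upnm, h1]
  rfl

/-- The evaluation function on a transitive set of names. -/
theorem exists_evf (a : M) : ∃ f : F.Ext, IsSeq f (can F (tcl a)) ∧
    ∀ x, x ∈ tcl a → ap f (can F x) = F.val x := by
  set f : F.Ext := F.val (prod (img (tcl a) (fun x => opnm F.P (chk F.P x) x)) F.P) with hf
  have hmem : ∀ z, z ∈ f ↔ ∃ x, x ∈ tcl a ∧ z = opair (can F x) (F.val x) := by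
    intro z
    rw [hf, mem_val']
    constructor
    · rintro ⟨w, s, h1, _, rfl⟩
      rw [opair_mem_prod, mem_img] at h1
      obtain ⟨⟨x, hx, rfl⟩, _⟩ := h1
      exact ⟨x, hx, by rw [val_opnm]; rfl⟩
    · rintro ⟨x, hx, rfl⟩
      obtain ⟨p, hp⟩ := F.gen.ne
      refine ⟨opnm F.P (chk F.P x) x, p, ?_, hp, by rw [val_opnm]; rfl⟩
      rw [opair_mem_prod, mem_img]
      exact ⟨⟨x, hx, rfl⟩, Fo.G_mem hp⟩
  have hop : ∀ x y, x ∈ tcl a → (opair (can F x) y ∈ f ↔ y = F.val x) := by
    intro x y hx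
    rw [hmem]
    constructor
    · rintro ⟨x', _, e⟩
      obtain ⟨e1, rfl⟩ := opair_inj e
      rw [can_inj.1 e1]
    · rintro rfl
      exact ⟨x, hx, rfl⟩
  have hcan : ∀ z : F.Ext, z ∈ can F (tcl a) ↔ ∃ y, y ∈ tcl a ∧ z = can F y := fun z => elim_can
  have hseq : IsSeq f (can F (tcl a)) := by
    constructor
    · intro z hz
      obtain ⟨x, hx, rfl⟩ := (hmem z).1 hz
      exact ⟨can F x, (hcan _).2 ⟨x, hx, rfl⟩, _, rfl⟩
    · intro z hz
      obtain ⟨x, hx, rfl⟩ := (hcan _).1 hz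
      exact ⟨F.val x, (hop x _ hx).2 rfl, fun y hy => (hop x _ hx).1 hy⟩
  refine ⟨f, hseq, fun x hx => ?_⟩
  exact hseq.ap_eq ((hop x _ hx).2 rfl)

end Pool.Agent.ZFIter.NPA.BSM.SP
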