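import Pool.Agent.BSP.FZf2
import Pool.Agent.BSM.EAbs1

/-!
# BSP/FInst: the generic extension as a `ZFM` model

* `fr1`, `fr2`: from `frel1`, `frel2` (`D1`, `D2` over `F.Ext` are definability for the same structure;
  see `exists_sep` and `exists_repl` in H78/ZF/Defn for the conversion of `D1`, `D2`).
* `tem_can`: `can_mem`, `elim_can`; for `ord`: let `α` be an ordinal of the extension which is not in the
  range. For every ordinal `ξ` of `M` the set `can ξ` is an ordinal (`elim_can`: it is a transitive set of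
  transitive sets), so `can ξ ∈ α` by `ord_trichotomy` (if `α ∈ can ξ` or `α = can ξ` then `α` is in the
  range). Let `α = val a`. Let `R(t, ξ)`, for `t = opair z p`, be `p ∈ P` and `FEq p z (chk ξ)`. For `p ∈ P`
  there is at most one such `ξ` (`feq_symm`, `feq_trans`, `feq_chk`), and every ordinal `ξ` has such a `t`
  in the set `prod (sUn (sUn a)) P` (`Fo.E_iff`, `Fo.val_eq`). So by replacement
  (`img` with `F t := iota (fun ξ => Ord ξ ∧ R t ξ)`) there is a set which contains all ordinals of `M`;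
  contradiction with `exists_ord_gt`.
-/

universe u

namespace Pool.Agent.ZFIter.NPA.BSM.SP

open Pool.Agent.H78.ZF Pool.Agent.ZFIter Pool.Agent.ZFIter.NPA

variable {M : Type u} [ZFM M] {F : Fo M}

instance zfmExt : ZFM F.Ext := ⟨F.E, zf_E⟩

theorem mem_ext {x y : F.Ext} : x ∈ y ↔ F.E x y := Iff.rfl

theorem mem_val {x y : M} :
    F.val x ∈ F.val y ↔ ∃ z s, opair z s ∈ y ∧ F.G s ∧ F.val x = F.val z := Fo.E_iff

/-- The elements of the value of a name. -/
theorem mem_val' {z : F.Ext} {y : M} : z ∈ F.val y ↔ ∃ x s, opair x s ∈ y ∧ F.G s ∧ z = F.val x := by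
  obtain ⟨x, rfl⟩ := Fo.exists_val z
  exact mem_val

theorem fr1 (Q : F.Ext → Prop) [D1 Q] : ∃ A : M → M → Prop, D2 A ∧ (∀ x, Good F.P F.R (A x)) ∧
    ∀ x, Q (F.val x) ↔ ∃ p, F.G p ∧ A x p := by
  have h1 : DR (fun v : Fin 1 → F.Ext => Q (v 0)) :=
    DR.weaken (fun v : Unit → F.Ext => Q (v ())) (fun _ => (0 : Fin 1)) (h := D1.out)
  exact frel1 Q h1.out

theorem fr2 (Q : F.Ext → F.Ext → Prop) [D2 Q] :
    ∃ A : M → M → M → Prop, D3 A ∧ (∀ x y, Good F.P F.R (A x y)) ∧
      ∀ x y, Q (F.val x) (F.val y) ↔ ∃ p, F.G p ∧ A x y p := by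
  have h1 : DR (fun v : Fin 2 → F.Ext => Q (v 0) (v 1)) := D2.out
  exact frel2 Q h1.out

private theorem trans_can {x : M} (h : Trans x) : Trans (can F x) := by
  intro y hy z hz
  obtain ⟨y', hy', rfl⟩ := elim_can.1 hy
  obtain ⟨z', hz', rfl⟩ := elim_can.1 hz
  exact can_mem.2 (h y' hy' z' hz')

private theorem ord_can {x : M} (h : Ord x) : Ord (can F x) := by
  refine ⟨trans_can h.1, fun y hy => ?_⟩
  obtain ⟨y', hy', rfl⟩ := elim_can.1 hy
  exact trans_can (h.2 y' hy')

/-- the ordinal which is forced equal to a name -/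
private noncomputable def decod (P R t : M) : M :=
  iota (fun ξ => Ord ξ ∧ ∃ z p, t = opair z p ∧ p ∈ P ∧ FEq P R p z (chk P ξ))

private instance DF.decod {ι : Type} (P R t : (ι → M) → M) [DF P] [DF R] [DF t] :
    DF (fun v => decod (P v) (R v) (t v)) := by
  unfold SP.decod
  infer_instance

private theorem decod_eq {z p ξ : M} (hξ : Ord ξ) (hp : p ∈ F.P)
    (h : FEq F.P F.R p z (chk F.P ξ)) : decod F.P F.R (opair z p) = ξ := by
  refine iota_eq ⟨hξ, z, p, rfl, hp, h⟩ ?_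
  rintro η ⟨_, z', p', e, _, h'⟩
  obtain ⟨rfl, rfl⟩ := opair_inj e
  exact (feq_chk hp).1 (feq_trans (feq_symm h') h)

private theorem exists_can {α : F.Ext} (hα : Ord α) : ∃ x, α = can F x := by
  by_contra hcon
  have h1 : ∀ ξ : M, Ord ξ → can F ξ ∈ α := by
    intro ξ hξ
    rcases ord_trichotomy (ord_can (F := F) hξ) hα with h | h | h
    · exact h
    · exact absurd ⟨ξ, h.symm⟩ hcon
    · obtain ⟨y, _, hy⟩ := elim_can.1 h
      exact absurd ⟨y, hy⟩ hcon
  obtain ⟨a, ha⟩ := Fo.exists_val α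
  obtain ⟨β, hβ, hlt⟩ := exists_ord_gt (img (prod (sUn (sUn a)) F.P) (fun t => decod F.P F.R t))
  have h2 := h1 β hβ
  rw [ha] at h2
  obtain ⟨z, s, hz, _, he⟩ := (mem_val (F := F)).1 h2
  obtain ⟨p, hp, hE⟩ := Fo.val_eq.1 he
  have h3 : β ∈ img (prod (sUn (sUn a)) F.P) (fun t => decod F.P F.R t) := by
    rw [mem_img]
    refine ⟨opair z p, ?_, (decod_eq hβ (Fo.G_mem hp) (feq_symm hE)).symm⟩
    rw [opair_mem_prod]
    refine ⟨?_, Fo.G_mem hp⟩
    rw [mem_sUn]
    refine ⟨sing z, ?_, by simp⟩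
    rw [mem_sUn]
    exact ⟨opair z s, hz, by simp [opair]⟩
  exact not_mem_self β (hlt β h3 hβ)

instance tem_can : TEm (can F) where
  mem _ _ := can_mem
  trans x z hz := by
    obtain ⟨y, _, hy⟩ := elim_can.1 hz
    exact ⟨y, hy⟩
  ord _ hα := exists_can hα

end Pool.Agent.ZFIter.NPA.BSM.SP
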