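import Pool.Agent.BSP.FGen

/-!
# BSP/FLst: the generic extension is the least extension

* `least_ext`: `K` is a transitive class (NOT assumed definable) with ZF, all `can x`, and `gam`. Turn
  `{x // K x}` into a `ZFM` model; the inclusion is a `TEm` (`ord` by `tem_can.ord`), so the lemmas `em_*`
  of EAbs1 apply to it. `Att g t h`: `h` is a function on the transitive set `t` with
  `h(y) = {h(z) : ∃ s ∈ g, opair z s ∈ y}`. Attempts are unique (`Att.uniq`) and exist (`exists_att`),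
  and `Att` is preserved by transitive embeddings. The function `f` of `exists_evf` is an attempt.
* `isExt`: collect (`tem_can`, `mem_gam`, `least_ext`; a set `g` with the elements `can q`, `G q`, is `gam`).
-/

universe u v

namespace Pool.Agent.ZFIter.NPA.BSM.SP

open Pool.Agent.H78.ZF Pool.Agent.ZFIter Pool.Agent.ZFIter.NPA

/-! ### Attempts -/

section Att

variable {M : Type u} [ZFM M] {ι : Type}

/-- the value at `y` computed from the function `h` -/
noncomputable def evv (g y h : M) : M :=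
  img (sep (sUn (sUn y)) (fun z => ∃ r, r ∈ g ∧ opair z r ∈ y)) (fun z => ap h z)

instance DF.evv (g y h : (ι → M) → M) [DF g] [DF y] [DF h] : DF (fun v => evv (g v) (y v) (h v)) := by
  unfold SP.evv
  infer_instance

theorem mem_evv {g y h w : M} : w ∈ evv g y h ↔ ∃ z r, opair z r ∈ y ∧ r ∈ g ∧ w = ap h z := by
  unfold evv
  rw [mem_img]
  constructor
  · rintro ⟨z, hz, rfl⟩
    rw [mem_sep] at hz
    obtain ⟨-, r, hr, hz⟩ := hz
    exact ⟨z, r, hz, hr, rfl⟩
  · rintro ⟨z, r, hz, hr, rfl⟩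
    refine ⟨z, ?_, rfl⟩
    rw [mem_sep, mem_sUn]
    refine ⟨⟨upair z r, ?_, by simp⟩, r, hr, hz⟩
    rw [mem_sUn]
    exact ⟨opair z r, hz, by simp [opair]⟩

theorem mem_of_opair {t y z r : M} (ht : Trans t) (hy : y ⊆ t) (hz : opair z r ∈ y) : z ∈ t := by
  have h1 : opair z r ∈ t := hy _ hz
  have h2 : upair z r ∈ t := ht _ h1 _ (by simp [opair])
  exact ht _ h2 _ (by simp)

theorem evv_congr {g y h h' t : M} (ht : Trans t) (hy : y ⊆ t)
    (hh : ∀ z, z ∈ t → ap h z = ap h' z) : evv g y h = evv g y h' := by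
  refine ext fun w => ?_
  rw [mem_evv, mem_evv]
  constructor
  · rintro ⟨z, r, hz, hr, rfl⟩
    exact ⟨z, r, hz, hr, hh z (mem_of_opair ht hy hz)⟩
  · rintro ⟨z, r, hz, hr, rfl⟩
    exact ⟨z, r, hz, hr, (hh z (mem_of_opair ht hy hz)).symm⟩

/-- `h` is an attempt at the evaluation of the elements of the transitive set `t` -/
def Att (g t h : M) : Prop := Trans t ∧ IsSeq h t ∧ ∀ y, y ∈ t → ap h y = evv g y h

instance DR.Att (g t h : (ι → M) → M) [DF g] [DF t] [DF h] : DR (fun v => Att (g v) (t v) (h v)) := by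
  unfold SP.Att
  infer_instance

theorem Att.uniq {g t h t' h' : M} (H : Att g t h) (H' : Att g t' h') :
    ∀ y, y ∈ t → y ∈ t' → ap h y = ap h' y := by
  have key : ∀ y, (y ∈ t → y ∈ t' → ap h y = ap h' y) ∧
      (∀ a, a ∈ y → a ∈ t → a ∈ t' → ap h a = ap h' a) ∧
      (∀ a, a ∈ y → ∀ b, b ∈ a → b ∈ t → b ∈ t' → ap h b = ap h' b) := by
    apply mem_induction (fun y => (y ∈ t → y ∈ t' → ap h y = ap h' y) ∧
      (∀ a, a ∈ y → a ∈ t → a ∈ t' → ap h a = ap h' a) ∧
      (∀ a, a ∈ y → ∀ b, b ∈ a → b ∈ t → b ∈ t' → ap h b = ap h' b))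
    intro y ih
    refine ⟨fun hy hy' => ?_, fun a ha => (ih a ha).1, fun a ha => (ih a ha).2.1⟩
    rw [H.2.2 y hy, H'.2.2 y hy']
    have hz : ∀ z r, opair z r ∈ y → ap h z = ap h' z := by
      intro z r hz
      refine (ih _ hz).2.2 (upair z r) (by simp [opair]) z (by simp) ?_ ?_
      · exact mem_of_opair H.1 (H.1 y hy) hz
      · exact mem_of_opair H'.1 (H'.1 y hy') hz
    refine ext fun w => ?_
    rw [mem_evv, mem_evv]
    constructor
    · rintro ⟨z, r, h1, h2, rfl⟩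
      exact ⟨z, r, h1, h2, hz z r h1⟩
    · rintro ⟨z, r, h1, h2, rfl⟩
      exact ⟨z, r, h1, h2, (hz z r h1).symm⟩
  exact fun y => (key y).1

/-- the recursion step -/
noncomputable def attStep (g x s : M) : M :=
  ins (sUn (img x (fun y => ap s y)))
    (opair x (evv g x (sUn (img x (fun y => ap s y)))))

instance DF.attStep (g x s : (ι → M) → M) [DF g] [DF x] [DF s] :
    DF (fun v => attStep (g v) (x v) (s v)) := by
  unfold SP.attStep
  infer_instance

/-- the evaluation function on a transitive set with the element `x` -/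
noncomputable def attF (g x : M) : M := erec (fun x s => attStep g x s) x

instance DF.attF (g x : (ι → M) → M) [DF g] [DF x] : DF (fun v => attF (g v) (x v)) := by
  unfold SP.attF
  infer_instance

theorem attF_eq (g x : M) : attF g x = ins (sUn (img x (fun y => attF g y)))
    (opair x (evv g x (sUn (img x (fun y => attF g y))))) := by
  have h1 : img x (fun y => ap (mkseq x (fun y => attF g y)) y) = img x (fun y => attF g y) := by
    refine ext fun z => ?_
    rw [mem_img, mem_img]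
    constructor
    · rintro ⟨y, hy, rfl⟩
      exact ⟨y, hy, ap_mkseq hy⟩
    · rintro ⟨y, hy, rfl⟩
      exact ⟨y, hy, (ap_mkseq hy).symm⟩
  have h2 : attF g x = attStep g x (mkseq x (fun y => attF g y)) := by
    have := erec_eq (G := fun x s => attStep g x s) x
    exact this
  rw [h2]
  unfold attStep
  rw [h1]

theorem att_attF (g : M) : ∀ x, ∃ t, Att g t (attF g x) ∧ x ∈ t := by
  apply mem_induction (fun x => ∃ t, Att g t (attF g x) ∧ x ∈ t)
  intro x ih
  rw [attF_eq]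
  set U : M := sUn (img x (fun y => attF g y)) with hU
  have memU : ∀ p, p ∈ U ↔ ∃ y, y ∈ x ∧ p ∈ attF g y := by
    intro p
    rw [hU, mem_sUn]
    constructor
    · rintro ⟨w, hw, hp⟩
      rw [mem_img] at hw
      obtain ⟨y, hy, rfl⟩ := hw
      exact ⟨y, hy, hp⟩
    · rintro ⟨y, hy, hp⟩
      exact ⟨attF g y, by rw [mem_img]; exact ⟨y, hy, rfl⟩, hp⟩
  set T : M := sep (sUn (sUn U)) (fun z => ∃ v, opair z v ∈ U) with hT
  have memT : ∀ z, z ∈ T ↔ ∃ v, opair z v ∈ U := by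
    intro z
    rw [hT, mem_sep]
    constructor
    · exact fun h => h.2
    · rintro ⟨v, hv⟩
      refine ⟨?_, v, hv⟩
      rw [mem_sUn]
      refine ⟨upair z v, ?_, by simp⟩
      rw [mem_sUn]
      exact ⟨opair z v, hv, by simp [opair]⟩
  have hTt : Trans T := by
    intro z hz w hw
    obtain ⟨v, hv⟩ := (memT z).1 hz
    obtain ⟨y, hy, hp⟩ := (memU _).1 hv
    obtain ⟨t, ht, _⟩ := ih y hy
    have hzt : z ∈ t := (ht.2.1.opair_iff.1 hp).1
    exact (memT w).2 ⟨ap (attF g y) w, (memU _).2 ⟨y, hy, ht.2.1.opair_ap (ht.1 z hzt w hw)⟩⟩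
  have hxT : x ⊆ T := by
    intro y hy
    obtain ⟨t, ht, hyt⟩ := ih y hy
    exact (memT y).2 ⟨ap (attF g y) y, (memU _).2 ⟨y, hy, ht.2.1.opair_ap hyt⟩⟩
  have hUs : IsSeq U T := by
    constructor
    · intro p hp
      obtain ⟨y, hy, hp'⟩ := (memU p).1 hp
      obtain ⟨t, ht, _⟩ := ih y hy
      obtain ⟨z, hz, w, rfl⟩ := ht.2.1.1 p hp'
      exact ⟨z, (memT z).2 ⟨w, hp⟩, w, rfl⟩
    · intro z hz
      obtain ⟨v, hv⟩ := (memT z).1 hz
      refine ⟨v, hv, fun w hw => ?_⟩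
      obtain ⟨y, hy, hp⟩ := (memU _).1 hv
      obtain ⟨y', hy', hp'⟩ := (memU _).1 hw
      obtain ⟨t, ht, _⟩ := ih y hy
      obtain ⟨t', ht', _⟩ := ih y' hy'
      have h1 := ht.2.1.opair_iff.1 hp
      have h2 := ht'.2.1.opair_iff.1 hp'
      rw [h1.2, h2.2]
      exact ht'.uniq ht z h2.1 h1.1
  have hTy : ∀ z, z ∈ T → ∃ y t, y ∈ x ∧ Att g t (attF g y) ∧ z ∈ t ∧
      ∀ w, w ∈ t → ap U w = ap (attF g y) w := by
    intro z hz
    obtain ⟨v, hv⟩ := (memT z).1 hz
    obtain ⟨y, hy, hp⟩ := (memU _).1 hv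
    obtain ⟨t, ht, _⟩ := ih y hy
    exact ⟨y, t, hy, ht, (ht.2.1.opair_iff.1 hp).1, fun w hw =>
      hUs.ap_eq ((memU _).2 ⟨y, hy, ht.2.1.opair_ap hw⟩)⟩
  have hUA : Att g T U := by
    refine ⟨hTt, hUs, fun z hz => ?_⟩
    obtain ⟨y, t, hy, ht, hzt, hap⟩ := hTy z hz
    rw [hap z hzt, ht.2.2 z hzt]
    exact evv_congr ht.1 (ht.1 z hzt) (fun w hw => (hap w hw).symm)
  by_cases hxT' : x ∈ T
  · have h1 : ins U (opair x (evv g x U)) = U := by
      refine ext fun p => ?_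
      rw [mem_ins]
      constructor
      · rintro (hp | rfl)
        · exact hp
        · rw [hUs.opair_iff]
          exact ⟨hxT', (hUA.2.2 x hxT').symm⟩
      · exact Or.inl
    rw [h1]
    exact ⟨T, hUA, hxT'⟩
  have key : ∀ a b, opair a b ∈ ins U (opair x (evv g x U)) ↔
      (a ∈ T ∧ b = ap U a) ∨ (a = x ∧ b = evv g x U) := by
    intro a b
    rw [mem_ins, hUs.opair_iff, opair_eq_iff]
  have hVs : IsSeq (ins U (opair x (evv g x U))) (ins T x) := by
    constructor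
    · intro p hp
      rw [mem_ins] at hp
      rcases hp with hp | rfl
      · obtain ⟨z, hz, w, rfl⟩ := hUs.1 p hp
        exact ⟨z, by rw [mem_ins]; exact Or.inl hz, w, rfl⟩
      · exact ⟨x, by simp, _, rfl⟩
    · intro z hz
      rw [mem_ins] at hz
      rcases hz with hz | rfl
      · refine ⟨ap U z, (key _ _).2 (Or.inl ⟨hz, rfl⟩), fun w hw => ?_⟩
        rcases (key _ _).1 hw with h1 | h1
        · exact h1.2
        · rw [h1.1] at hz; exact absurd hz hxT'
      · refine ⟨_, (key _ _).2 (Or.inr ⟨rfl, rfl⟩), fun w hw => ?_⟩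
        rcases (key _ _).1 hw with h1 | h1
        · exact absurd h1.1 hxT'
        · exact h1.2
  have hVr : ∀ z, z ∈ ins T x → z ⊆ T := by
    intro z hz
    rw [mem_ins] at hz
    rcases hz with hz | rfl
    · exact hTt z hz
    · exact hxT
  have hVap : ∀ z, z ∈ T → ap (ins U (opair x (evv g x U))) z = ap U z := fun z hz =>
    hVs.ap_eq ((key _ _).2 (Or.inl ⟨hz, rfl⟩))
  refine ⟨ins T x, ⟨?_, hVs, ?_⟩, by simp⟩
  · intro z hz w hw
    rw [mem_ins]
    exact Or.inl (hVr z hz w hw)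
  · intro z hz
    rw [evv_congr (h := ins U (opair x (evv g x U))) (h' := U) hTt (hVr z hz) hVap]
    rw [mem_ins] at hz
    rcases hz with hz | rfl
    · rw [hVap z hz]
      exact hUA.2.2 z hz
    · exact hVs.ap_eq ((key _ _).2 (Or.inr ⟨rfl, rfl⟩))

end Att

/-- attempts are preserved by transitive embeddings -/
theorem em_Att {M : Type u} [ZFM M] {N : Type v} [ZFM N] {i : M → N} [hi : TEm i] {g t h : M}
    (H : Att g t h) : Att (i g) (i t) (i h) := by
  refine ⟨em_Trans.2 H.1, em_IsSeq.2 H.2.1, fun y hy => ?_⟩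
  obtain ⟨y', hy', rfl⟩ := em_elim.1 hy
  rw [← em_ap (i := i), H.2.2 y' hy']
  refine ext fun w => ?_
  rw [em_elim, mem_evv]
  constructor
  · rintro ⟨w', hw', rfl⟩
    rw [mem_evv] at hw'
    obtain ⟨z, r, h1, h2, rfl⟩ := hw'
    exact ⟨i z, i r, em_opair_mem.2 h1, em_mem.2 h2, em_ap h z⟩
  · rintro ⟨z, r, h1, h2, rfl⟩
    obtain ⟨z', r', h3, rfl, rfl⟩ := em_opair_elim h1
    exact ⟨ap h z', mem_evv.2 ⟨z', r', h3, em_mem.1 h2, rfl⟩, (em_ap h z').symm⟩

variable {M : Type u} [ZFM M] {F : Fo M}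

theorem att_evf (a : M) : ∃ f : F.Ext, Att (gam F) (can F (tcl a)) f ∧
    ap f (can F a) = F.val a := by
  obtain ⟨f, hf, hv⟩ := exists_evf (F := F) a
  refine ⟨f, ⟨em_Trans.2 (trans_tcl a), hf, fun y hy => ?_⟩, hv a (self_mem_tcl a)⟩
  obtain ⟨y', hy', rfl⟩ := em_elim.1 hy
  rw [hv y' hy']
  refine ext fun w => ?_
  rw [mem_val', mem_evv]
  have hin : ∀ z s, opair z s ∈ y' → z ∈ tcl a := fun z s h =>
    mem_of_opair (trans_tcl a) (trans_tcl a y' hy') h
  constructor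
  · rintro ⟨z, s, h1, h2, rfl⟩
    exact ⟨can F z, can F s, em_opair_mem.2 h1, can_mem_gam.2 h2, (hv z (hin z s h1)).symm⟩
  · rintro ⟨z, s, h1, h2, rfl⟩
    obtain ⟨z', s', h3, rfl, rfl⟩ := em_opair_elim h1
    exact ⟨z', s', h3, can_mem_gam.1 h2, hv z' (hin z' s' h3)⟩

theorem least_ext (K : F.Ext → Prop) (ht : ∀ x y, K y → x ∈ y → K x)
    (hz : IsZFModel (fun x y : {x : F.Ext // K x} => x.1 ∈ y.1)) (hc : ∀ x, K (can F x))
    (hg : K (gam F)) : ∀ z, K z := by
  intro z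
  obtain ⟨a, rfl⟩ := Fo.exists_val z
  let inst : ZFM {x : F.Ext // K x} := ⟨fun x y => x.1 ∈ y.1, hz⟩
  have hT : TEm (fun x : {x : F.Ext // K x} => x.1) := by
    refine ⟨fun x y => Iff.rfl, fun x z hz => ⟨⟨z, ht z x.1 x.2 hz⟩, rfl⟩, fun α hα => ?_⟩
    obtain ⟨x, rfl⟩ := TEm.ord (i := can F) α hα
    exact ⟨⟨can F x, hc x⟩, rfl⟩
  obtain ⟨t, h1, h2⟩ := att_attF (M := {x : F.Ext // K x}) ⟨gam F, hg⟩ ⟨can F a, hc a⟩
  have h3 := em_Att (i := fun x : {x : F.Ext // K x} => x.1) h1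
  obtain ⟨f, h4, h5⟩ := att_evf (F := F) a
  have h6 : can F a ∈ can F (tcl a) := em_mem.2 (self_mem_tcl a)
  have h7 := h3.uniq h4 (can F a) (em_mem (i := fun x : {x : F.Ext // K x} => x.1).2 h2) h6
  rw [h5] at h7
  have h8 := em_ap (i := fun x : {x : F.Ext // K x} => x.1)
    (attF (⟨gam F, hg⟩ : {x : F.Ext // K x}) ⟨can F a, hc a⟩) ⟨can F a, hc a⟩
  rw [← h7]
  have h9 := h8.symm
  simp only at h9
  rw [h9]
  exact Subtype.property _

theorem isExt : IsExt (can F) F.G where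
  mem := fun x y => em_mem
  trans := fun x z hz => TEm.trans x z hz
  ord := fun α hα => TEm.ord α hα
  gen := ⟨gam F, fun z => mem_gam⟩
  least := by
    intro K ht hz hc hg
    exact least_ext K ht hz hc (hg (gam F) (fun z => mem_gam))

end Pool.Agent.ZFIter.NPA.BSM.SP
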