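import Pool.Agent.BSP.FQuo

/-!
# BSP/FZf1: extensionality and foundation in the generic extension

* `ext_E`: if `x, y` have the same elements in the extension: by `Fo.decide` for
  `fun p => FEq P R p x y` we may assume that no `q ≤ p` (`p` in `G`) forces `x = y`. By `feq_iff` and
  `feq_dense`-type arguments below every `q ≤ p` there are `z` and `r ≤ q` such that
  (`FMem r z x` and no `s ≤ r` has `FMem s z y`) or (`FMem r z y` and no `s ≤ r` has `FMem s z x`):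
  otherwise `feq_ext` gives `FEq q x y`. Apply `Fo.below` to this class of `r`; then `val z` is an
  element of one of `val x`, `val y` and not of the other (`Fo.E_val` and a common extension).
* `pair_induction`: let `T'(x) := ∀ y, y ∈ ins (tc x) x → T y`; `mem_induction` for `T'`.
* `fnd_E`: by `pair_induction` on `u`: for every `p` with `FMem p u x` there are `q ≤ p` and `y` such that
  `FMem q y x` and for all `z` and `r ≤ q`: `FMem r z y → ¬ FMem r z x`. (If some `(z, s) ∈ u` and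
  `q ≤ p, s` have `FMem q z x` use the induction hypothesis, otherwise `y = u`.) Then `Fo.below`.
-/

universe u

namespace Pool.Agent.ZFIter.NPA.BSM.SP

open Pool.Agent.H78.ZF Pool.Agent.ZFIter Pool.Agent.ZFIter.NPA

variable {M : Type u} [ZFM M] {F : Fo M}

/-- Two conditions in `G` have a common extension in `G`. -/
theorem fzf1_common {p q : M} (hp : F.G p) (hq : F.G q) :
    ∃ r, F.G r ∧ Le F.P F.R r p ∧ Le F.P F.R r q := F.gen.dir p q hp hq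

theorem ext_E (x y : F.Ext) (h : ∀ z, F.E z x ↔ F.E z y) : x = y := by
  obtain ⟨a, rfl⟩ := Fo.exists_val x
  obtain ⟨b, rfl⟩ := Fo.exists_val y
  obtain ⟨p, hp, hA | hA⟩ := Fo.decide (F := F) (fun p => FEq F.P F.R p a b)
  · exact Fo.val_eq.2 ⟨p, hp, hA⟩
  exfalso
  have hdense : ∀ q, Le F.P F.R q p → ∃ r, Le F.P F.R r q ∧
      ∃ z, (FMem F.P F.R r z a ∧ ∀ s, Le F.P F.R s r → ¬ FMem F.P F.R s z b) ∨
        (FMem F.P F.R r z b ∧ ∀ s, Le F.P F.R s r → ¬ FMem F.P F.R s z a) := by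
    intro q hq
    by_contra hcon
    apply hA q hq
    refine feq_ext (fun q' z hq' hz => fmem_dense fun r hr => ?_)
      (fun q' z hq' hz => fmem_dense fun r hr => ?_)
    · by_contra hs
      exact hcon ⟨r, Pre.trans hr hq', z, Or.inl ⟨fmem_mono hz hr, fun s hs1 hs2 => hs ⟨s, hs1, hs2⟩⟩⟩
    · by_contra hs
      exact hcon ⟨r, Pre.trans hr hq', z, Or.inr ⟨fmem_mono hz hr, fun s hs1 hs2 => hs ⟨s, hs1, hs2⟩⟩⟩
  obtain ⟨r, hr, z, hz⟩ := Fo.below (F := F)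
    (fun r => ∃ z, (FMem F.P F.R r z a ∧ ∀ s, Le F.P F.R s r → ¬ FMem F.P F.R s z b) ∨
        (FMem F.P F.R r z b ∧ ∀ s, Le F.P F.R s r → ¬ FMem F.P F.R s z a)) hp hdense
  rcases hz with ⟨h1, h2⟩ | ⟨h1, h2⟩
  · obtain ⟨p', hp', h3⟩ := Fo.E_val.1 ((h (F.val z)).1 (Fo.E_val.2 ⟨r, hr, h1⟩))
    obtain ⟨s, _, hs1, hs2⟩ := fzf1_common hr hp'
    exact h2 s hs1 (fmem_mono h3 hs2)
  · obtain ⟨p', hp', h3⟩ := Fo.E_val.1 ((h (F.val z)).2 (Fo.E_val.2 ⟨r, hr, h1⟩))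
    obtain ⟨s, _, hs1, hs2⟩ := fzf1_common hr hp'
    exact h2 s hs1 (fmem_mono h3 hs2)

/-- Induction for names. -/
theorem pair_induction (T : M → Prop) [D1 T]
    (h : ∀ x, (∀ z s, opair z s ∈ x → T z) → T x) : ∀ x, T x := by
  have key : ∀ x : M, T x ∧ (∀ z, z ∈ x → T z) ∧ (∀ z, z ∈ x → ∀ w, w ∈ z → T w) := by
    apply mem_induction (fun x : M => T x ∧ (∀ z, z ∈ x → T z) ∧ (∀ z, z ∈ x → ∀ w, w ∈ z → T w))
    intro x ih
    refine ⟨h x fun z s hz => ?_, fun z hz => (ih z hz).1, fun z hz w hw => (ih z hz).2.1 w hw⟩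
    exact (ih _ hz).2.2 (sing z) (by simp [opair]) z (by simp)
  exact fun x => (key x).1

theorem fnd_E (x : F.Ext) (h : ∃ y, F.E y x) : ∃ y, F.E y x ∧ ∀ z, F.E z y → ¬ F.E z x := by
  obtain ⟨a, rfl⟩ := Fo.exists_val x
  obtain ⟨y, hy⟩ := h
  obtain ⟨u, rfl⟩ := Fo.exists_val y
  obtain ⟨p0, hp0, hu⟩ := Fo.E_val.1 hy
  have key : ∀ u : M, ∀ p, p ∈ F.P → FMem F.P F.R p u a → ∃ q, Le F.P F.R q p ∧
      ∃ y, FMem F.P F.R q y a ∧
        ∀ z r, Le F.P F.R r q → FMem F.P F.R r z y → ¬ FMem F.P F.R r z a := by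
    apply pair_induction (fun u : M => ∀ p, p ∈ F.P → FMem F.P F.R p u a → ∃ q, Le F.P F.R q p ∧
      ∃ y, FMem F.P F.R q y a ∧
        ∀ z r, Le F.P F.R r q → FMem F.P F.R r z y → ¬ FMem F.P F.R r z a)
    intro u ih p hp hpu
    by_cases hc : ∃ z s q, opair z s ∈ u ∧ Le F.P F.R q p ∧ Le F.P F.R q s ∧ FMem F.P F.R q z a
    · obtain ⟨z, s, q, hz, hq, hqs, hm⟩ := hc
      obtain ⟨q', hq', y, hy⟩ := ih z s hz q hq.memL hm
      exact ⟨q', Pre.trans hq' hq, y, hy⟩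
    · refine ⟨p, Pre.refl hp, u, hpu, fun z r hr h1 h2 => ?_⟩
      obtain ⟨r', hr', z', s', hz', hs', hE⟩ := h1 r (Pre.refl hr.memL)
      exact hc ⟨z', s', r', hz', Pre.trans hr' hr, hs', fmem_congrL hE (fmem_mono h2 hr')⟩
  obtain ⟨r, hr, y, hy1, hy2⟩ := Fo.below (F := F)
    (fun q => ∃ y, FMem F.P F.R q y a ∧
        ∀ z r, Le F.P F.R r q → FMem F.P F.R r z y → ¬ FMem F.P F.R r z a) hp0
    (fun q hq => key u q hq.memL (fmem_mono hu hq))
  refine ⟨F.val y, Fo.E_val.2 ⟨r, hr, hy1⟩, fun z hz1 hz2 => ?_⟩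
  obtain ⟨w, rfl⟩ := Fo.exists_val z
  obtain ⟨p1, hp1, h1⟩ := Fo.E_val.1 hz1
  obtain ⟨p2, hp2, h2⟩ := Fo.E_val.1 hz2
  obtain ⟨q, hq, hq1, hq2⟩ := fzf1_common hp1 hp2
  obtain ⟨s, _, hs1, hs2⟩ := fzf1_common hq hr
  exact hy2 w s hs2 (fmem_mono h1 (Pre.trans hs1 hq1)) (fmem_mono h2 (Pre.trans hs1 hq2))

end Pool.Agent.ZFIter.NPA.BSM.SP
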