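import Pool.Agent.BSP.FZf1

/-!
# BSP/FZf3: pairing, union, weak power set in the generic extension

Use `Fo.E_iff` (elements of the value of a name), `Fo.exists_val`, `ext_E`, `F.gen.dir`, `F.gen.up`.
Names: pair `prod (upair x y) P`; union: all `(w, q)` with `(u, c) ∈ x`, `(w, d) ∈ u`, `q ≤ c, d`
(a `sep` of `prod (sUn (sUn (sUn (sUn (sUn x))))) P` or similar); weak power set:
`prod (pow (prod (sUn (sUn x)) P)) P`, for a subset `val y` of `val x` take the name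
`{(w, q) : w ∈ sUn (sUn x), q ∈ P, FMem q w y}`, which has the same value as `y`.
-/

universe u

namespace Pool.Agent.ZFIter.NPA.BSM.SP

open Pool.Agent.H78.ZF Pool.Agent.ZFIter Pool.Agent.ZFIter.NPA

variable {M : Type u} [ZFM M] {F : Fo M}

/-- the first component of an element is in the second union -/
theorem fzf3_fst {a u c : M} (h : opair u c ∈ a) : u ∈ sUn (sUn a) := by
  rw [mem_sUn]
  refine ⟨sing u, ?_, by simp⟩
  rw [mem_sUn]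
  exact ⟨opair u c, h, by simp [opair]⟩

theorem pair_E (x y : F.Ext) : ∃ z, ∀ w, F.E w z ↔ w = x ∨ w = y := by
  obtain ⟨a, rfl⟩ := Fo.exists_val x
  obtain ⟨b, rfl⟩ := Fo.exists_val y
  refine ⟨F.val (prod (upair a b) F.P), fun w => ?_⟩
  obtain ⟨c, rfl⟩ := Fo.exists_val w
  rw [Fo.E_iff]
  constructor
  · rintro ⟨z, s, hz, _, e⟩
    rw [opair_mem_prod, mem_upair] at hz
    rcases hz.1 with rfl | rfl
    · exact Or.inl e
    · exact Or.inr e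
  · obtain ⟨s, hs⟩ := F.gen.ne
    rintro (e | e)
    · exact ⟨a, s, by rw [opair_mem_prod]; exact ⟨by simp, Fo.G_mem hs⟩, hs, e⟩
    · exact ⟨b, s, by rw [opair_mem_prod]; exact ⟨by simp, Fo.G_mem hs⟩, hs, e⟩

theorem union_E (x : F.Ext) : ∃ u, ∀ w, F.E w u ↔ ∃ y, F.E y x ∧ F.E w y := by
  obtain ⟨a, rfl⟩ := Fo.exists_val x
  refine ⟨F.val (sep (prod (sUn (sUn (sUn (sUn (sUn a))))) F.P)
    (fun v => ∃ w q u c d, v = opair w q ∧ opair u c ∈ a ∧ opair w d ∈ u ∧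
      Le F.P F.R q c ∧ Le F.P F.R q d)), fun w0 => ?_⟩
  obtain ⟨w0, rfl⟩ := Fo.exists_val w0
  rw [Fo.E_iff]
  constructor
  · rintro ⟨z, s, hz, hs, e⟩
    rw [mem_sep] at hz
    obtain ⟨w, q, u, c, d, e1, huc, hwd, hqc, hqd⟩ := hz.2
    rw [opair_eq_iff] at e1
    obtain ⟨rfl, rfl⟩ := e1
    refine ⟨F.val u, Fo.E_iff.2 ⟨u, c, huc, F.gen.up _ _ hs hqc, rfl⟩, ?_⟩
    rw [e]
    exact Fo.E_iff.2 ⟨z, d, hwd, F.gen.up _ _ hs hqd, rfl⟩
  · rintro ⟨y, hy, hw⟩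
    obtain ⟨u0, rfl⟩ := Fo.exists_val y
    obtain ⟨u, c, huc, hc, e⟩ := Fo.E_iff.1 hy
    rw [e] at hw
    obtain ⟨w, d, hwd, hd, e'⟩ := Fo.E_iff.1 hw
    obtain ⟨q, hq, h1, h2⟩ := F.gen.dir c d hc hd
    refine ⟨w, q, ?_, hq, e'⟩
    rw [mem_sep, opair_mem_prod]
    refine ⟨⟨?_, Fo.G_mem hq⟩, w, q, u, c, d, rfl, huc, hwd, h1, h2⟩
    have h3 : opair w d ∈ sUn (sUn (sUn a)) := by
      rw [mem_sUn]; exact ⟨u, fzf3_fst huc, hwd⟩
    exact fzf3_fst h3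

/-- weak power set -/
theorem pow_E (x : F.Ext) : ∃ p, ∀ w, (∀ z, F.E z w → F.E z x) → F.E w p := by
  obtain ⟨a, rfl⟩ := Fo.exists_val x
  refine ⟨F.val (prod (pow (prod (sUn (sUn a)) F.P)) F.P), fun w hw => ?_⟩
  obtain ⟨y, rfl⟩ := Fo.exists_val w
  have key : F.val y = F.val (sep (prod (sUn (sUn a)) F.P)
      (fun v => ∃ w q, v = opair w q ∧ FMem F.P F.R q w y)) := by
    apply ext_E
    intro z
    obtain ⟨c, rfl⟩ := Fo.exists_val z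
    constructor
    · intro h
      obtain ⟨u, s, hus, hs, e⟩ := Fo.E_iff.1 (hw _ h)
      rw [e] at h ⊢
      obtain ⟨p, hp, hm⟩ := Fo.E_val.1 h
      refine Fo.E_iff.2 ⟨u, p, ?_, hp, rfl⟩
      rw [mem_sep, opair_mem_prod]
      exact ⟨⟨fzf3_fst hus, Fo.G_mem hp⟩, u, p, rfl, hm⟩
    · intro h
      obtain ⟨u, s, hus, hs, e⟩ := Fo.E_iff.1 h
      rw [mem_sep] at hus
      obtain ⟨w', q, e1, hm⟩ := hus.2
      rw [opair_eq_iff] at e1
      obtain ⟨rfl, rfl⟩ := e1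
      rw [e]
      exact Fo.E_val.2 ⟨s, hs, hm⟩
  rw [key]
  obtain ⟨s, hs⟩ := F.gen.ne
  refine Fo.E_iff.2 ⟨_, s, ?_, hs, rfl⟩
  rw [opair_mem_prod, mem_pow]
  refine ⟨fun v hv => ?_, Fo.G_mem hs⟩
  rw [mem_sep] at hv
  exact hv.1

end Pool.Agent.ZFIter.NPA.BSM.SP
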