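import Pool.Agent.BSP.TDefs

/-!
# BSP/KAbs: the Levy collapse is absolute

`i : M → N` transitive embedding (`TEm`). The elements of `i (Lev κ)` are the `i p`, `p ∈ Lev κ`; conversely
an element of `Lev (i κ)` is a finite subset of `i (prod (prod κ omega) κ)` (`em_prod`, `em_omega`), and a
finite subset of `i a` is `i b` for a subset `b` of `a` (`fin_induction` in `N`: `em_emp`, `em_ins`). `FinM`
is preserved in both directions (for `i b` finite in `N` → `b` finite in `M` use the same induction).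
The clauses are bounded (`em_opair_mem`, `em_opair_elim`).
-/

universe u v

namespace Pool.Agent.ZFIter.NPA.BSM.SP

open Pool.Agent.H78.ZF Pool.Agent.ZFIter Pool.Agent.ZFIter.NPA

variable {M : Type u} [ZFM M] {N : Type v} [ZFM N] {i : M → N} [hi : TEm i]

/-- Finite subsets of `i x` are in the range of `i`. -/
theorem fin_sub_em {x : M} {s : N} (hs : FinM s) (h : s ⊆ i x) :
    ∃ s', FinM s' ∧ s' ⊆ x ∧ s = i s' := by
  have key : s ∈ i (sep (pow x) (fun s => FinM s)) := by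
    refine fin_induction (fun s : N => s ⊆ i x → s ∈ i (sep (pow x) (fun s => FinM s))) ?_ ?_ s hs h
    · intro _
      rw [← em_emp (i := i), em_mem, mem_sep, mem_pow]
      exact ⟨emp_sub x, fin_emp⟩
    · intro s a _ _ ih h
      obtain ⟨s', hs', rfl⟩ := em_elim.1 (ih fun z hz => h z (by rw [mem_ins]; exact Or.inl hz))
      obtain ⟨a', ha', rfl⟩ := em_elim.1 (h a (by rw [mem_ins]; exact Or.inr rfl))
      rw [mem_sep, mem_pow] at hs'
      rw [← em_ins, em_mem, mem_sep, mem_pow]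
      refine ⟨fun z hz => ?_, fin_ins hs'.2 a'⟩
      rw [mem_ins] at hz
      rcases hz with hz | rfl
      · exact hs'.1 z hz
      · exact ha'
  obtain ⟨s', hs', e⟩ := em_elim.1 key
  rw [mem_sep, mem_pow] at hs'
  exact ⟨s', hs'.2, hs'.1, e⟩

theorem em_fin {s : M} : FinM (i s) ↔ FinM s := by
  constructor
  · intro h
    obtain ⟨s', h1, _, h3⟩ := fin_sub_em (i := i) h (sub_refl _)
    rw [em_inj h3]
    exact h1
  · rintro ⟨n, hn, f, hf, hf'⟩
    refine ⟨i n, ?_, i f, em_Inj.2 hf, fun y hy => ?_⟩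
    · rw [← em_omega (i := i)]
      exact em_mem.2 hn
    · obtain ⟨y', hy', rfl⟩ := em_elim.1 hy
      obtain ⟨x', hx'⟩ := hf' y' hy'
      exact ⟨i x', em_opair_mem.2 hx'⟩

private theorem em_lev_iff {κ p : M} : i p ∈ Lev (i κ) ↔ p ∈ Lev κ := by
  have h1 : prod (prod (i κ) omega) (i κ) = i (prod (prod κ omega) κ) := by
    rw [em_prod (i := i), em_prod (i := i), em_omega (i := i)]
  rw [mem_lev, mem_lev, em_fin, h1, em_sub]
  constructor
  · rintro ⟨h2, h3, h4, h5⟩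
    refine ⟨h2, h3, fun a ξ η h h' => ?_, fun α n ξ h => ?_⟩
    · exact em_inj (h4 (i a) (i ξ) (i η) (em_opair_mem.2 h) (em_opair_mem.2 h'))
    · refine em_mem.1 (h5 (i α) (i n) (i ξ) ?_)
      rw [← em_opair]
      exact em_opair_mem.2 h
  · rintro ⟨h2, h3, h4, h5⟩
    refine ⟨h2, h3, fun a ξ η h h' => ?_, fun α n ξ h => ?_⟩
    · obtain ⟨a', ξ', h6, rfl, rfl⟩ := em_opair_elim h
      obtain ⟨a2, η', h7, e, rfl⟩ := em_opair_elim h'
      rw [← em_inj e] at h7
      rw [h4 a' ξ' η' h6 h7]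
    · obtain ⟨w, ξ', h6, e, rfl⟩ := em_opair_elim h
      obtain ⟨α', n', rfl, rfl, rfl⟩ := em_of_opair e
      exact em_mem.2 (h5 α' n' ξ' h6)

theorem em_Lev (κ : M) : i (Lev κ) = Lev (i κ) := by
  refine ext fun p => ?_
  constructor
  · intro hp
    obtain ⟨p', hp', rfl⟩ := em_elim.1 hp
    exact em_lev_iff.2 hp'
  · intro hp
    have h1 : prod (prod (i κ) omega) (i κ) = i (prod (prod κ omega) κ) := by
      rw [em_prod (i := i), em_prod (i := i), em_omega (i := i)]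
    have h2 := mem_lev.1 hp
    rw [h1] at h2
    obtain ⟨p', _, _, rfl⟩ := fin_sub_em h2.2.1 h2.1
    exact em_mem.2 (em_lev_iff.1 hp)

private theorem em_supR (A : M) :
    i (sep (prod A A) (fun z => ∃ q p, z = opair q p ∧ p ⊆ q)) =
      sep (prod (i A) (i A)) (fun z => ∃ q p, z = opair q p ∧ p ⊆ q) := by
  refine ext fun z => ?_
  rw [mem_em_sep, mem_sep]
  constructor
  · rintro ⟨y, hy, ⟨q, p, rfl, h⟩, rfl⟩
    rw [opair_mem_prod] at hy
    rw [em_opair (i := i), opair_mem_prod]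
    exact ⟨⟨em_mem.2 hy.1, em_mem.2 hy.2⟩, i q, i p, rfl, em_sub.2 h⟩
  · rintro ⟨hz, q, p, rfl, h⟩
    rw [opair_mem_prod] at hz
    obtain ⟨q', hq', rfl⟩ := em_elim.1 hz.1
    obtain ⟨p', hp', rfl⟩ := em_elim.1 hz.2
    exact ⟨opair q' p', (opair_mem_prod _ _ _ _).2 ⟨hq', hp'⟩, ⟨q', p', rfl, em_sub.1 h⟩,
      (em_opair q' p').symm⟩

theorem em_LevR (κ : M) : i (LevR κ) = LevR (i κ) := by
  unfold LevR
  rw [em_supR (i := i), em_Lev (i := i)]

theorem em_LevI (κ μ : M) : i (LevI κ μ) = LevI (i κ) (i μ) := by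
  refine ext fun p => ?_
  unfold LevI
  rw [mem_em_sep, mem_sep, ← em_Lev]
  constructor
  · rintro ⟨p', hp', h, rfl⟩
    refine ⟨em_mem.2 hp', fun α n ξ h1 h2 => ?_⟩
    obtain ⟨w, ξ', h6, e, rfl⟩ := em_opair_elim h1
    obtain ⟨α', n', rfl, rfl, rfl⟩ := em_of_opair e
    exact h α' n' ξ' h6 (em_mem.1 h2)
  · rintro ⟨hp, h⟩
    obtain ⟨p', hp', rfl⟩ := em_elim.1 hp
    refine ⟨p', hp', fun α n ξ h1 h2 => ?_, rfl⟩
    refine h (i α) (i n) (i ξ) ?_ (em_mem.2 h2)
    rw [← em_opair]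
    exact em_opair_mem.2 h1

theorem em_LevIR (κ μ : M) : i (LevIR κ μ) = LevIR (i κ) (i μ) := by
  unfold LevIR
  rw [em_supR (i := i), em_LevI (i := i)]

theorem em_small {κ x : M} (h : Small κ x) : Small (i κ) (i x) := by
  obtain ⟨δ, f, hδ, hf⟩ := h
  exact ⟨i δ, i f, em_mem.2 hδ, em_Inj.2 hf⟩

end Pool.Agent.ZFIter.NPA.BSM.SP
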