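import Pool.Agent.BSP.KMaps
import Pool.Agent.BSP.DDen

/-!
# BSP/KAbsI: the Levy collapse absorbs small forcing notions (one model)

Chain of dense embeddings: `prod P (LevI κ μ)` → `prod P⁺ (LevI κ μ)` ← `prod (Sq ν) (LevX κ μ ν)` → `LevI κ μ`,
where `P⁺ = ins P P` is `P` with a new greatest element (the inclusion `P → P⁺` is a dense embedding if
`P ≠ emp`; `de_prod`), `ν` from `exists_nu` for the small set `P⁺`, `exists_tree` for `P⁺`, `exists_mapA`,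
`exists_mapB`. Use `de_push`, `de_pull` along the chain in both directions, `IsoOv.trans`.
`P ≠ emp`: in `absI_to` from `F.gen.ne`.
-/

universe u

namespace Pool.Agent.ZFIter.NPA.BSM.SP

open Pool.Agent.H78.ZF Pool.Agent.ZFIter Pool.Agent.ZFIter.NPA

variable {M : Type u} [ZFM M]

/-- A dense embedding times the identity. -/
theorem de_prod {P R P' R' d Q S : M} (h : DE P R P' R' d) (hQ : Pre Q S) :
    ∃ d', DE (prod P Q) (prR P R Q S) (prod P' Q) (prR P' R' Q S) d' := by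
  have hv : ∀ w, w ∈ prod P Q → opair (ap d (fs w)) (sn w) ∈ prod P' Q := by
    intro w hw
    obtain ⟨s, hs, l, hl, rfl⟩ := (mem_prod _ _ _).1 hw
    rw [fs_opair, sn_opair, opair_mem_prod]
    exact ⟨h.fn.ap_mem hs, hl⟩
  have hval : ∀ s l, s ∈ P → l ∈ Q →
      ap (mkf (prod P Q) (prod P' Q) (fun w => opair (ap d (fs w)) (sn w))) (opair s l) =
      opair (ap d s) l := by
    intro s l hs hl
    rw [ap_mkf hv ((opair_mem_prod _ _ _ _).2 ⟨hs, hl⟩), fs_opair, sn_opair]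
  refine ⟨_, mkf_fun hv, ?_, ?_, ?_⟩
  · intro x y hxy
    obtain ⟨s, hs, l, hl, rfl⟩ := (mem_prod _ _ _).1 hxy.1
    obtain ⟨t, ht, l', hl', rfl⟩ := (mem_prod _ _ _).1 hxy.2.1
    rw [le_prR] at hxy
    rw [hval s l hs hl, hval t l' ht hl', le_prR]
    exact ⟨h.mono _ _ hxy.1, hxy.2⟩
  · intro x y q hx hy hqx hqy
    obtain ⟨s, hs, l, hl, rfl⟩ := (mem_prod _ _ _).1 hx
    obtain ⟨t, ht, l', hl', rfl⟩ := (mem_prod _ _ _).1 hy
    obtain ⟨r, hr, m, hm, rfl⟩ := (mem_prod _ _ _).1 hqx.1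
    rw [hval s l hs hl, le_prR] at hqx
    rw [hval t l' ht hl', le_prR] at hqy
    obtain ⟨z, hz1, hz2⟩ := h.comp s t r hs ht hqx.1 hqy.1
    exact ⟨opair z m, le_prR.2 ⟨hz1, hqx.2⟩, le_prR.2 ⟨hz2, hqy.2⟩⟩
  · intro q hq
    obtain ⟨p, hp, m, hm, rfl⟩ := (mem_prod _ _ _).1 hq
    obtain ⟨x, hx, h1⟩ := h.dense p hp
    refine ⟨opair x m, (opair_mem_prod _ _ _ _).2 ⟨hx, hm⟩, ?_⟩
    rw [hval x m hx hm, le_prR]
    exact ⟨h1, hQ.refl hm⟩

/-- A new greatest element. -/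
theorem exists_top' {P R : M} (hP : Pre P R) (hne : P ≠ emp) :
    ∃ R' d, Pre (ins P P) R' ∧ P ∈ ins P P ∧ (∀ x, x ∈ ins P P → Le (ins P P) R' x P) ∧
      DE P R (ins P P) R' d := by
  have hle : ∀ x y, Le (ins P P) (sep (prod (ins P P) (ins P P))
      (fun w => ∃ x y, w = opair x y ∧ (Le P R x y ∨ y = P))) x y ↔
      x ∈ ins P P ∧ y ∈ ins P P ∧ (Le P R x y ∨ y = P) := by
    intro x y
    unfold Le
    rw [mem_sep, opair_mem_prod]
    constructor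
    · rintro ⟨h1, h2, -, x', y', e, h3⟩
      obtain ⟨rfl, rfl⟩ := opair_inj e
      exact ⟨h1, h2, h3⟩
    · rintro ⟨h1, h2, h3⟩
      exact ⟨h1, h2, ⟨h1, h2⟩, x, y, rfl, h3⟩
  have hPP : P ∈ ins P P := by
    rw [mem_ins]
    exact Or.inr rfl
  have hin : ∀ x, x ∈ P → x ∈ ins P P := by
    intro x hx
    rw [mem_ins]
    exact Or.inl hx
  have hv : ∀ x, x ∈ P → x ∈ ins P P := hin
  have hval : ∀ x, x ∈ P → ap (mkf P (ins P P) (fun x => x)) x = x := fun x hx => ap_mkf hv hx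
  refine ⟨sep (prod (ins P P) (ins P P))
      (fun w => ∃ x y, w = opair x y ∧ (Le P R x y ∨ y = P)), mkf P (ins P P) (fun x => x),
      ⟨?_, ?_⟩, hPP, ?_, mkf_fun hv, ?_, ?_, ?_⟩
  · intro p hp
    rw [hle]
    refine ⟨hp, hp, ?_⟩
    rw [mem_ins] at hp
    rcases hp with hp | hp
    · exact Or.inl (hP.refl hp)
    · exact Or.inr hp
  · intro r q p h1 h2
    rw [hle] at h1 h2 ⊢
    refine ⟨h1.1, h2.2.1, ?_⟩
    rcases h2.2.2 with h3 | h3
    · rcases h1.2.2 with h4 | h4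
      · exact Or.inl (hP.trans h4 h3)
      · rw [h4] at h3
        exact absurd h3.memL (not_mem_self _)
    · exact Or.inr h3
  · intro x hx
    rw [hle]
    exact ⟨hx, hPP, Or.inr rfl⟩
  · intro x y hxy
    rw [hval x hxy.memL, hval y hxy.memR, hle]
    exact ⟨hin x hxy.memL, hin y hxy.memR, Or.inl hxy⟩
  · intro x y q hx hy hqx hqy
    rw [hval x hx, hle] at hqx
    rw [hval y hy, hle] at hqy
    rcases hqx.2.2 with h1 | h1
    · rcases hqy.2.2 with h2 | h2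
      · exact ⟨q, h1, h2⟩
      · rw [h2] at hy
        exact absurd hy (not_mem_self _)
    · rw [h1] at hx
      exact absurd hx (not_mem_self _)
  · intro q hq
    have hq' := hq
    rw [mem_ins] at hq'
    rcases hq' with h1 | h1
    · refine ⟨q, h1, ?_⟩
      rw [hval q h1, hle]
      exact ⟨hq, hq, Or.inl (hP.refl h1)⟩
    · obtain ⟨x, hx⟩ := ne_emp_iff.1 hne
      refine ⟨x, hx, ?_⟩
      rw [hval x hx, hle]
      exact ⟨hin x hx, hq, Or.inr h1⟩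

private theorem small_top {κ P : M} (hκ : Inacc κ) (hs : Small κ P) : Small κ (ins P P) := by
  obtain ⟨δ, f, hδ, hf⟩ := hs
  have h1 : ∀ x, x ∈ P → iota (fun w => (x ∈ P ∧ w = ap f x) ∨ (x ∉ P ∧ w = δ)) = ap f x := by
    intro x hx
    apply iota_eq
    · exact Or.inl ⟨hx, rfl⟩
    · rintro w (⟨-, e⟩ | ⟨h2, -⟩)
      · exact e
      · exact absurd hx h2
  have h2 : iota (fun w => (P ∈ P ∧ w = ap f P) ∨ (P ∉ P ∧ w = δ)) = δ := by
    apply iota_eq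
    · exact Or.inr ⟨not_mem_self _, rfl⟩
    · rintro w (⟨h2, -⟩ | ⟨-, e⟩)
      · exact absurd h2 (not_mem_self _)
      · exact e
  have hv : ∀ x, x ∈ ins P P → iota (fun w => (x ∈ P ∧ w = ap f x) ∨ (x ∉ P ∧ w = δ)) ∈
      succ δ := by
    intro x hx
    rw [mem_ins] at hx
    rcases hx with hx | rfl
    · rw [h1 x hx, mem_succ]
      exact Or.inl (hf.fun.ap_mem hx)
    · rw [h2, mem_succ]
      exact Or.inr rfl
  refine ⟨succ δ, mkf (ins P P) (succ δ)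
    (fun x => iota (fun w => (x ∈ P ∧ w = ap f x) ∨ (x ∉ P ∧ w = δ))), inacc_succ hκ hδ, ?_⟩
  rw [inj_iff]
  refine ⟨mkf_fun hv, fun x y hx hy e => ?_⟩
  rw [ap_mkf hv hx, ap_mkf hv hy] at e
  rw [mem_ins] at hx hy
  rcases hx with hx | hx <;> rcases hy with hy | hy
  · rw [h1 x hx, h1 y hy] at e
    exact hf.ap_inj hx hy e
  · exfalso
    subst hy
    rw [h1 x hx, h2] at e
    have := hf.fun.ap_mem hx
    rw [e] at this
    exact not_mem_self _ this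
  · exfalso
    subst hx
    rw [h2, h1 y hy] at e
    have := hf.fun.ap_mem hy
    rw [← e] at this
    exact not_mem_self _ this
  · rw [hx, hy]

/-- the chain of dense embeddings -/
private theorem chain (hAC : AC M) {κ μ P R : M} (hκ : Inacc κ) (hμ : μ ∈ κ) (hP : Pre P R)
    (hs : Small κ P) (hne : P ≠ emp) :
    ∃ P1 R1 P2 R2 d a b : M, Pre P1 R1 ∧ Pre P2 R2 ∧
      DE (prod P (LevI κ μ)) (prR P R (LevI κ μ) (LevIR κ μ)) P1 R1 d ∧
      DE P2 R2 P1 R1 a ∧ DE P2 R2 (LevI κ μ) (LevIR κ μ) b := by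
  obtain ⟨R', d, hpre, htop, hle, hd⟩ := exists_top' hP hne
  obtain ⟨ν, hν, hμν, h0, ⟨j, hj⟩, hν2⟩ := exists_nu hκ (small_top hκ hs) hμ
  obtain ⟨E1, E2, hE⟩ := exists_tree hAC hpre htop hle (hκ.1.mem hν) h0 hj hν2
  obtain ⟨d', hd'⟩ := de_prod hd (pre_LevI (κ := κ) (μ := μ))
  obtain ⟨a, ha⟩ := exists_mapA hκ.1 hμν hν hE
  obtain ⟨b, hb⟩ := exists_mapB (κ := κ) (μ := μ) (ν := ν) hκ.1 hμν hν
  exact ⟨_, _, _, _, d', a, b, pre_prR hpre pre_LevI, pre_prR (pre_Sq ν) (pre_LevX κ μ ν),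
    hd', ha, hb⟩

theorem absI_to (hAC : AC M) {κ μ P R : M} (hκ : Inacc κ) (hμ : μ ∈ κ) (hP : Pre P R)
    (hs : Small κ P) (F : Fo M) (h1 : F.P = prod P (LevI κ μ))
    (h2 : F.R = prR P R (LevI κ μ) (LevIR κ μ)) :
    ∃ F' : Fo M, F'.P = LevI κ μ ∧ F'.R = LevIR κ μ ∧ IsoOv (can F) (can F') := by
  have hne : P ≠ emp := by
    obtain ⟨x, hx⟩ := F.gen.ne
    have hx' := Fo.G_mem hx
    rw [h1, mem_prod] at hx'
    obtain ⟨a, ha, -⟩ := hx'
    exact ne_emp_iff.2 ⟨a, ha⟩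
  obtain ⟨P1, R1, P2, R2, d, a, b, hp1, hp2, hd, ha, hb⟩ := chain hAC hκ hμ hP hs hne
  rw [← h1, ← h2] at hd
  obtain ⟨F1, rfl, rfl, -, i1⟩ := de_push F hp1 hd
  obtain ⟨F2, rfl, rfl, -, i2⟩ := de_pull F1 hp2 ha
  obtain ⟨F3, e1, e2, -, i3⟩ := de_push F2 pre_LevI hb
  exact ⟨F3, e1, e2, (i1.trans i2).trans i3⟩

theorem absI_of (hAC : AC M) {κ μ P R : M} (hκ : Inacc κ) (hμ : μ ∈ κ) (hP : Pre P R)
    (hs : Small κ P) (hne : P ≠ emp) (F' : Fo M) (h1 : F'.P = LevI κ μ) (h2 : F'.R = LevIR κ μ) :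
    ∃ F : Fo M, F.P = prod P (LevI κ μ) ∧ F.R = prR P R (LevI κ μ) (LevIR κ μ) ∧
      IsoOv (can F') (can F) := by
  obtain ⟨P1, R1, P2, R2, d, a, b, hp1, hp2, hd, ha, hb⟩ := chain hAC hκ hμ hP hs hne
  rw [← h1, ← h2] at hb
  obtain ⟨F2, rfl, rfl, -, i1⟩ := de_pull F' hp2 hb
  obtain ⟨F1, rfl, rfl, -, i2⟩ := de_push F2 hp1 ha
  obtain ⟨F0, e1, e2, -, i3⟩ := de_pull F1 (pre_prR hP pre_LevI) hd
  exact ⟨F0, e1, e2, (i1.trans i2).trans i3⟩

end Pool.Agent.ZFIter.NPA.BSM.SP
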