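import Pool.Agent.BSP.TDefs

/-!
# BSP/KMac: maximal antichains

`x, y` are compatible in `(P, R)` if some `z` has `Le P R z x`, `Le P R z y` (`Cmt P R x y`). Let `j` be an
injection of `P` in the ordinal `ν` and `D ⊆ P`. There is `A ⊆ D`, pairwise incompatible, such that every
element of `D` is compatible with an element of `A`.

PROOF. Define by recursion along the ordinals (`erec`, `erec_eq` of NPA with `s` the sequence of the
previous values; see `vN` in BSP/Coll for the pattern) `g(ξ) = {r ∈ D : j(r) = ξ, and for all η ∈ ξ and all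
r' ∈ g(η): r', r are incompatible}`, `A :=` the union of the `g(ξ)`, `ξ ∈ ν`. Each `g(ξ)` has at most one
element. If `r, r' ∈ A` are different then `j r ≠ j r'`, one is smaller, so they are incompatible. If
`r ∈ D` then either `r ∈ g(j r)` (and `r` is compatible with itself) or some `r' ∈ g(η)`, `η ∈ j r`, is
compatible with `r`.
`mac` is a definable function of its arguments (instance `DF.mac`).
-/

universe u

namespace Pool.Agent.ZFIter.NPA.BSM.SP

open Pool.Agent.H78.ZF Pool.Agent.ZFIter Pool.Agent.ZFIter.NPA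

variable {M : Type u} [ZFM M] {ι : Type}

/-- `x` and `y` are compatible. -/
def Cmt (P R x y : M) : Prop := ∃ z, Le P R z x ∧ Le P R z y

instance DR.Cmt (P R x y : (ι → M) → M) [DF P] [DF R] [DF x] [DF y] :
    DR (fun v => Cmt (P v) (R v) (x v) (y v)) := by
  unfold SP.Cmt
  infer_instance

/-- the step of the recursion -/
noncomputable def macStep (P R j D ξ s : M) : M :=
  sep D (fun r => ap j r = ξ ∧ ∀ η, η ∈ ξ → ∀ r', r' ∈ ap s η → ¬ Cmt P R r' r)

instance DF.macStep (P R j D ξ s : (ι → M) → M) [DF P] [DF R] [DF j] [DF D] [DF ξ] [DF s] :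
    DF (fun v => macStep (P v) (R v) (j v) (D v) (ξ v) (s v)) := by
  unfold SP.macStep
  infer_instance

/-- the elements of the antichain with index `ξ` -/
noncomputable def macG (P R j D ξ : M) : M := erec (fun ξ s => macStep P R j D ξ s) ξ

instance DF.macG (P R j D ξ : (ι → M) → M) [DF P] [DF R] [DF j] [DF D] [DF ξ] :
    DF (fun v => macG (P v) (R v) (j v) (D v) (ξ v)) := by
  unfold SP.macG
  infer_instance

/-- The antichain. -/
noncomputable def mac (P R j ν D : M) : M := sUn (img ν (fun ξ => macG P R j D ξ))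

instance DF.mac (P R j ν D : (ι → M) → M) [DF P] [DF R] [DF j] [DF ν] [DF D] :
    DF (fun v => mac (P v) (R v) (j v) (ν v) (D v)) := by
  unfold SP.mac
  infer_instance

theorem mem_macG {P R j D ξ r : M} : r ∈ macG P R j D ξ ↔
    r ∈ D ∧ ap j r = ξ ∧ ∀ η, η ∈ ξ → ∀ r', r' ∈ macG P R j D η → ¬ Cmt P R r' r := by
  have h1 : macG P R j D ξ = macStep P R j D ξ (mkseq ξ (fun y => macG P R j D y)) := by
    have := erec_eq (G := fun ξ s => macStep P R j D ξ s) ξ
    exact this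
  rw [h1]
  unfold macStep
  rw [mem_sep]
  constructor
  · rintro ⟨h2, h3, h4⟩
    refine ⟨h2, h3, fun η hη r' hr' => ?_⟩
    refine h4 η hη r' ?_
    rw [ap_mkseq hη]
    exact hr'
  · rintro ⟨h2, h3, h4⟩
    refine ⟨h2, h3, fun η hη r' hr' => ?_⟩
    rw [ap_mkseq hη] at hr'
    exact h4 η hη r' hr'

theorem mem_mac {P R j ν D r : M} : r ∈ mac P R j ν D ↔ ∃ ξ, ξ ∈ ν ∧ r ∈ macG P R j D ξ := by
  unfold mac
  rw [mem_sUn]
  constructor
  · rintro ⟨w, hw, hr⟩
    rw [mem_img] at hw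
    obtain ⟨ξ, hξ, rfl⟩ := hw
    exact ⟨ξ, hξ, hr⟩
  · rintro ⟨ξ, hξ, hr⟩
    refine ⟨macG P R j D ξ, ?_, hr⟩
    rw [mem_img]
    exact ⟨ξ, hξ, rfl⟩

theorem cmt_symm {P R x y : M} (h : Cmt P R x y) : Cmt P R y x := by
  obtain ⟨z, h1, h2⟩ := h
  exact ⟨z, h2, h1⟩

theorem mac_spec {P R j ν D : M} (hP : Pre P R) (hν : Ord ν) (hj : Inj j P ν) (hD : D ⊆ P) :
    mac P R j ν D ⊆ D ∧
      (∀ x y, x ∈ mac P R j ν D → y ∈ mac P R j ν D → Cmt P R x y → x = y) ∧
      ∀ x, x ∈ D → ∃ y, y ∈ mac P R j ν D ∧ Cmt P R x y := by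
  have key : ∀ x, x ∈ mac P R j ν D → x ∈ D ∧ ap j x ∈ ν ∧ x ∈ macG P R j D (ap j x) := by
    intro x hx
    obtain ⟨ξ, hξ, hx⟩ := mem_mac.1 hx
    have h1 := mem_macG.1 hx
    refine ⟨h1.1, ?_, ?_⟩
    · rw [h1.2.1]; exact hξ
    · rw [h1.2.1]; exact hx
  refine ⟨fun x hx => (key x hx).1, ?_, ?_⟩
  · intro x y hx hy hc
    obtain ⟨hxD, hxν, hxg⟩ := key x hx
    obtain ⟨hyD, hyν, hyg⟩ := key y hy
    rcases ord_trichotomy (hν.mem hxν) (hν.mem hyν) with h | h | h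
    · exact absurd hc ((mem_macG.1 hyg).2.2 _ h x hxg)
    · have h1 := hj.1.opair_ap (hD x hxD)
      have h2 := hj.1.opair_ap (hD y hyD)
      rw [← h] at h2
      exact hj.2 _ _ _ h1 h2
    · exact absurd (cmt_symm hc) ((mem_macG.1 hxg).2.2 _ h y hyg)
  · intro x hx
    have hjx : ap j x ∈ ν := hj.1.ap_mem (hD x hx)
    by_cases h : ∀ η, η ∈ ap j x → ∀ r', r' ∈ macG P R j D η → ¬ Cmt P R r' x
    · refine ⟨x, mem_mac.2 ⟨ap j x, hjx, mem_macG.2 ⟨hx, rfl, h⟩⟩, x, ?_, ?_⟩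
      · exact hP.refl (hD x hx)
      · exact hP.refl (hD x hx)
    · push Not at h
      obtain ⟨η, hη, r', hr', hc⟩ := h
      exact ⟨r', mem_mac.2 ⟨η, hν.trans hη hjx, hr'⟩, cmt_symm hc⟩

theorem exists_mac {P R j ν D : M} (hP : Pre P R) (hν : Ord ν) (hj : Inj j P ν) (hD : D ⊆ P) :
    ∃ A, A ⊆ D ∧ (∀ x y, x ∈ A → y ∈ A → Cmt P R x y → x = y) ∧
      ∀ x, x ∈ D → ∃ y, y ∈ A ∧ Cmt P R x y :=
  ⟨mac P R j ν D, mac_spec hP hν hj hD⟩

end Pool.Agent.ZFIter.NPA.BSM.SP
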