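import Pool.Agent.BSP.KTree

/-!
# BSP/KMaps: the dense embeddings for the absorption lemma

`T := prod (Sq ν) (LevX κ μ ν)` where `LevX` are the conditions in `LevI κ μ` without the coordinate `ν`,
ordered by reverse inclusion (`SqR`, `LevXR`, `prR`). With `col ν c := img c (fun z => opair (opair ν (fs z))
(sn z))` (a finite sequence as a condition at the coordinate `ν ∉ μ`):
* `a (s, l) := opair (ap E1 s) (un (col ν (ap E2 s)) l)` is a dense embedding in `prod P (LevI κ μ)`;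
* `b (s, l) := un (col ν s) l` is a dense embedding in `LevI κ μ`.

`mkf T _ (fun w => ..)`. Membership of the values in `Lev κ`: finite (`fin_img`, `fin_un`), a function since
`l` has no coordinate `ν` (`mem_lev`, BSM/VLev: `lev_elem`, `lev_un`, `lev_ins`).
Order: clear. Compatibility: let `(s, l), (t, l')` have images with the common extension `(q, m)` (or `m`). The
functions `E2 s, E2 t` (resp. `s, t`) are contained in the function `{(n, ξ) : ((ν, n), ξ) ∈ m}` and have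
natural numbers as domains, so one is contained in the other; `E1 s, E1 t` are compatible; so by
`TreeMap.comp` `s ⊆ t` or `t ⊆ s`. `un l l' ⊆ m` is a condition. So `(s, un l l')` or `(t, un l l')` is a common
extension. Density: let `(p, m)` be given; `m' := {z ∈ m : coordinate ≠ ν}`, `c0 := {(n, ξ) : ((ν, n), ξ) ∈ m}`
is a finite partial function from `omega` to `ν`, contained in some `c ∈ Sq ν` (`fin_bounded` for the domain;
value `emp ∈ ν` elsewhere; `mkf`). By `TreeMap.dense` some `s` has `E1 s ≤ p`, `c ⊆ E2 s`; take `(s, m')`.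
-/

universe u

namespace Pool.Agent.ZFIter.NPA.BSM.SP

open Pool.Agent.H78.ZF Pool.Agent.ZFIter Pool.Agent.ZFIter.NPA

variable {M : Type u} [ZFM M] {ι : Type}

/-- The order of the finite sequences. -/
noncomputable def SqR (ν : M) : M := sep (prod (Sq ν) (Sq ν)) (fun w => ∃ t s, w = opair t s ∧ s ⊆ t)

/-- The conditions without the coordinate `ν`. -/
noncomputable def LevX (κ μ ν : M) : M := sep (LevI κ μ) (fun p => ∀ n ξ, opair (opair ν n) ξ ∉ p)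

noncomputable def LevXR (κ μ ν : M) : M :=
  sep (prod (LevX κ μ ν) (LevX κ μ ν)) (fun w => ∃ q p, w = opair q p ∧ p ⊆ q)

theorem le_SqR {ν t s : M} : Le (Sq ν) (SqR ν) t s ↔ t ∈ Sq ν ∧ s ∈ Sq ν ∧ s ⊆ t := by
  unfold Le SqR
  rw [mem_sep, opair_mem_prod]
  constructor
  · rintro ⟨h1, h2, -, q', p', e, h3⟩
    obtain ⟨rfl, rfl⟩ := opair_inj e
    exact ⟨h1, h2, h3⟩
  · rintro ⟨h1, h2, h3⟩
    exact ⟨h1, h2, ⟨h1, h2⟩, t, s, rfl, h3⟩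

theorem le_LevX {κ μ ν q p : M} :
    Le (LevX κ μ ν) (LevXR κ μ ν) q p ↔ q ∈ LevX κ μ ν ∧ p ∈ LevX κ μ ν ∧ p ⊆ q := by
  unfold Le LevXR
  rw [mem_sep, opair_mem_prod]
  constructor
  · rintro ⟨h1, h2, -, q', p', e, h3⟩
    obtain ⟨rfl, rfl⟩ := opair_inj e
    exact ⟨h1, h2, h3⟩
  · rintro ⟨h1, h2, h3⟩
    exact ⟨h1, h2, ⟨h1, h2⟩, q, p, rfl, h3⟩

theorem pre_Sq (ν : M) : Pre (Sq ν) (SqR ν) where
  refl := fun hp => le_SqR.2 ⟨hp, hp, sub_refl _⟩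
  trans := fun h1 h2 => by
    rw [le_SqR] at h1 h2 ⊢
    exact ⟨h1.1, h2.2.1, sub_trans h2.2.2 h1.2.2⟩

theorem pre_LevX (κ μ ν : M) : Pre (LevX κ μ ν) (LevXR κ μ ν) where
  refl := fun hp => le_LevX.2 ⟨hp, hp, sub_refl _⟩
  trans := fun h1 h2 => by
    rw [le_LevX] at h1 h2 ⊢
    exact ⟨h1.1, h2.2.1, sub_trans h2.2.2 h1.2.2⟩

/-- A finite sequence as a condition at the coordinate `ν`. -/
noncomputable def col (κ ν c : M) : M :=
  sep (prod (prod κ omega) κ) (fun x => ∃ k ξ, opair k ξ ∈ c ∧ x = opair (opair ν k) ξ)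

instance DF.col (κ ν c : (ι → M) → M) [DF κ] [DF ν] [DF c] :
    DF (fun v => col (κ v) (ν v) (c v)) := by
  unfold SP.col
  infer_instance

section col

variable {κ μ ν c c' l l' m : M}

theorem mem_col (hκ : Ord κ) (hν : ν ∈ κ) (hc : c ∈ Sq ν) {x : M} :
    x ∈ col κ ν c ↔ ∃ k ξ, opair k ξ ∈ c ∧ x = opair (opair ν k) ξ := by
  unfold col
  rw [mem_sep]
  refine ⟨fun h => h.2, fun h => ⟨?_, h⟩⟩
  obtain ⟨k, ξ, h, rfl⟩ := h
  have h1 := (mem_Sq.1 hc).1 _ h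
  rw [opair_mem_prod] at h1
  rw [opair_mem_prod, opair_mem_prod]
  exact ⟨⟨hν, h1.1⟩, hκ.trans h1.2 hν⟩

theorem opair_mem_col (hκ : Ord κ) (hν : ν ∈ κ) (hc : c ∈ Sq ν) {k ξ : M} :
    opair (opair ν k) ξ ∈ col κ ν c ↔ opair k ξ ∈ c := by
  rw [mem_col hκ hν hc]
  constructor
  · rintro ⟨k', ξ', h, e⟩
    obtain ⟨e1, rfl⟩ := opair_inj e
    obtain ⟨-, rfl⟩ := opair_inj e1
    exact h
  · intro h
    exact ⟨k, ξ, h, rfl⟩

theorem col_mono (h : c ⊆ c') : col κ ν c ⊆ col κ ν c' := by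
  intro x hx
  unfold col at hx ⊢
  rw [mem_sep] at hx ⊢
  obtain ⟨h1, k, ξ, h2, h3⟩ := hx
  exact ⟨h1, k, ξ, h _ h2, h3⟩

theorem sq_fin (hc : c ∈ Sq ν) : FinM c := by
  obtain ⟨h0, n, hn, hf⟩ := mem_Sq.1 hc
  have h1 : FinM (sep c (fun x => ∃ k, k ∈ n ∧ ∃ ξ, x = opair k ξ)) := by
    refine fin_bunion c (fun x k => ∃ ξ, x = opair k ξ) (nat_fin hn) ?_
    intro k hk
    refine fin_sub (fin_sing (opair k (ap c k))) ?_
    intro x hx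
    rw [mem_sep] at hx
    obtain ⟨h2, ξ, rfl⟩ := hx
    rw [mem_sing, hf.ap_eq h2]
  refine fin_sub h1 (fun x hx => ?_)
  rw [mem_sep]
  obtain ⟨k, hk, ξ, -, e⟩ := hf.1 x hx
  exact ⟨hx, k, hk, ξ, e⟩

theorem col_lev (hκ : Ord κ) (hν : ν ∈ κ) (hc : c ∈ Sq ν) : col κ ν c ∈ Lev κ := by
  obtain ⟨h0, n, hn, hf⟩ := mem_Sq.1 hc
  rw [mem_lev]
  refine ⟨fun z hz => ?_, ?_, fun a ξ η h1 h2 => ?_, fun α k ξ h1 => ?_⟩
  · unfold col at hz
    rw [mem_sep] at hz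
    exact hz.1
  · have h1 : FinM (sep (prod (prod κ omega) κ) (fun x => ∃ y, y ∈ c ∧
        ∃ k ξ, y = opair k ξ ∧ x = opair (opair ν k) ξ)) := by
      refine fin_bunion _ (fun x y => ∃ k ξ, y = opair k ξ ∧ x = opair (opair ν k) ξ) (sq_fin hc) ?_
      intro y hy
      obtain ⟨k, -, ξ, -, rfl⟩ := hf.1 y hy
      refine fin_sub (fin_sing (opair (opair ν k) ξ)) ?_
      intro x hx
      rw [mem_sep] at hx
      obtain ⟨-, k', ξ', e, rfl⟩ := hx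
      obtain ⟨rfl, rfl⟩ := opair_inj e
      rw [mem_sing]
    refine fin_sub h1 (fun x hx => ?_)
    unfold col at hx
    rw [mem_sep] at hx ⊢
    obtain ⟨h2, k, ξ, h3, e⟩ := hx
    exact ⟨h2, _, h3, k, ξ, rfl, e⟩
  · rw [mem_col hκ hν hc] at h1 h2
    obtain ⟨k, ξ', h3, e⟩ := h1
    obtain ⟨k', ξ2, h4, e'⟩ := h2
    obtain ⟨rfl, rfl⟩ := opair_inj e
    obtain ⟨e1, rfl⟩ := opair_inj e'
    obtain ⟨-, rfl⟩ := opair_inj e1
    rw [← hf.ap_eq h3, ← hf.ap_eq h4]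
  · rw [mem_col hκ hν hc] at h1
    obtain ⟨k', ξ', h3, e⟩ := h1
    obtain ⟨e1, rfl⟩ := opair_inj e
    obtain ⟨rfl, rfl⟩ := opair_inj e1
    exact (hf.mem_of_opair h3).2

theorem lev_un2 (hl : l ∈ Lev κ) (hm : m ∈ Lev κ)
    (h : ∀ a ξ η, opair a ξ ∈ l → opair a η ∈ m → ξ = η) : un l m ∈ Lev κ := by
  have hl' := mem_lev.1 hl
  have hm' := mem_lev.1 hm
  rw [mem_lev]
  refine ⟨fun z hz => ?_, fin_un hl'.2.1 hm'.2.1, fun a ξ η h1 h2 => ?_, fun α k ξ h1 => ?_⟩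
  · rw [mem_un] at hz
    exact hz.elim (hl'.1 z) (hm'.1 z)
  · rw [mem_un] at h1 h2
    rcases h1 with h1 | h1 <;> rcases h2 with h2 | h2
    · exact hl'.2.2.1 a ξ η h1 h2
    · exact h a ξ η h1 h2
    · exact (h a η ξ h2 h1).symm
    · exact hm'.2.2.1 a ξ η h1 h2
  · rw [mem_un] at h1
    exact h1.elim (hl'.2.2.2 α k ξ) (hm'.2.2.2 α k ξ)

theorem lev_sub (hl : l ∈ Lev κ) (h : m ⊆ l) : m ∈ Lev κ := by
  rw [mem_lev] at hl ⊢
  exact ⟨sub_trans h hl.1, fin_sub hl.2.1 h, fun a ξ η h1 h2 => hl.2.2.1 a ξ η (h _ h1) (h _ h2),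
    fun α k ξ h1 => hl.2.2.2 α k ξ (h _ h1)⟩

theorem lev_un3 (hl : l ∈ Lev κ) (hl' : l' ∈ Lev κ) (hm : m ∈ Lev κ) (h : l ⊆ m) (h' : l' ⊆ m) :
    un l l' ∈ Lev κ :=
  lev_sub hm (fun z hz => by rw [mem_un] at hz; exact hz.elim (h z) (h' z))

theorem mem_LevX {p : M} : p ∈ LevX κ μ ν ↔ p ∈ LevI κ μ ∧ ∀ n ξ, opair (opair ν n) ξ ∉ p := by
  unfold LevX
  rw [mem_sep]

theorem colun_mem (hκ : Ord κ) (hμ : μ ∈ ν) (hν : ν ∈ κ) (hc : c ∈ Sq ν) (hl : l ∈ LevX κ μ ν) :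
    un (col κ ν c) l ∈ LevI κ μ := by
  rw [mem_LevX, mem_LevI] at hl
  rw [mem_LevI]
  refine ⟨lev_un2 (col_lev hκ hν hc) hl.1.1 (fun a ξ η h1 h2 => ?_), fun α n ξ h1 => ?_⟩
  · rw [mem_col hκ hν hc] at h1
    obtain ⟨k, ξ', -, e⟩ := h1
    obtain ⟨rfl, rfl⟩ := opair_inj e
    exact absurd h2 (hl.2 k η)
  · rw [mem_un, mem_col hκ hν hc] at h1
    rcases h1 with ⟨k, ξ', -, e⟩ | h1
    · obtain ⟨e1, rfl⟩ := opair_inj e
      obtain ⟨rfl, rfl⟩ := opair_inj e1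
      intro h2
      exact not_mem_self α ((hκ.mem hν).trans h2 hμ)
    · exact hl.1.2 α n ξ h1

theorem colun_mono (hc : c ⊆ c') (hl : l ⊆ l') : un (col κ ν c) l ⊆ un (col κ ν c') l' := by
  intro z hz
  rw [mem_un] at hz ⊢
  exact hz.imp (col_mono hc z) (hl z)

theorem colun_comp (hκ : Ord κ) (hν : ν ∈ κ) (hc : c ∈ Sq ν) (hc' : c' ∈ Sq ν)
    (hl : l ∈ LevX κ μ ν) (hl' : l' ∈ LevX κ μ ν) (hm : m ∈ LevI κ μ)
    (h : un (col κ ν c) l ⊆ m) (h' : un (col κ ν c') l' ⊆ m) :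
    (c ⊆ c' ∨ c' ⊆ c) ∧ un l l' ∈ LevX κ μ ν := by
  have hm' := mem_LevI.1 hm
  have hf := (mem_lev.1 hm'.1).2.2.1
  have h1 : ∀ x, x ∈ col κ ν c → x ∈ m := fun x hx => h x (by rw [mem_un]; exact Or.inl hx)
  have h1' : ∀ x, x ∈ col κ ν c' → x ∈ m := fun x hx => h' x (by rw [mem_un]; exact Or.inl hx)
  have h2 : l ⊆ m := fun x hx => h x (by rw [mem_un]; exact Or.inr hx)
  have h2' : l' ⊆ m := fun x hx => h' x (by rw [mem_un]; exact Or.inr hx)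
  have key : ∀ c c' : M, c ∈ Sq ν → c' ∈ Sq ν → (∀ x, x ∈ col κ ν c → x ∈ m) →
      (∀ x, x ∈ col κ ν c' → x ∈ m) → ∀ n n', Fun c n ν → Fun c' n' ν → n ⊆ n' → c ⊆ c' := by
    intro c c' hc hc' h1 h1' n n' hf1 hf2 hn z hz
    obtain ⟨k, hk, ξ, -, rfl⟩ := hf1.1 z hz
    have h3 := hf2.opair_ap (hn k hk)
    have h4 := h1 _ ((opair_mem_col hκ hν hc).2 hz)
    have h5 := h1' _ ((opair_mem_col hκ hν hc').2 h3)
    rw [hf _ _ _ h4 h5]
    exact h3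
  constructor
  · obtain ⟨-, n, hn, hf1⟩ := mem_Sq.1 hc
    obtain ⟨-, n', hn', hf2⟩ := mem_Sq.1 hc'
    rcases ord_trichotomy (ord_omega.mem hn) (ord_omega.mem hn') with h3 | h3 | h3
    · exact Or.inl (key c c' hc hc' h1 h1' n n' hf1 hf2 (omega_trans hn' _ h3))
    · exact Or.inl (key c c' hc hc' h1 h1' n n' hf1 hf2 (by rw [h3]; exact sub_refl _))
    · exact Or.inr (key c' c hc' hc h1' h1 n' n hf2 hf1 (omega_trans hn _ h3))
  · rw [mem_LevX, mem_LevI] at hl hl' ⊢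
    refine ⟨⟨lev_un3 hl.1.1 hl'.1.1 hm'.1 h2 h2', fun α n ξ h3 => ?_⟩, fun n ξ h3 => ?_⟩
    · rw [mem_un] at h3
      exact h3.elim (hl.1.2 α n ξ) (hl'.1.2 α n ξ)
    · rw [mem_un] at h3
      exact h3.elim (hl.2 n ξ) (hl'.2 n ξ)

theorem colun_dense (hκ : Ord κ) (hμ : μ ∈ ν) (hν : ν ∈ κ) (hm : m ∈ LevI κ μ) :
    ∃ c l, c ∈ Sq ν ∧ l ∈ LevX κ μ ν ∧ ∀ c', c' ∈ Sq ν → c ⊆ c' → m ⊆ un (col κ ν c') l := by
  have hm' := mem_LevI.1 hm
  have hm2 := mem_lev.1 hm'.1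
  obtain ⟨b, hb, hb'⟩ := fin_bounded (fun y k => ∃ ξ, y = opair (opair ν k) ξ) hm2.2.1
    (fun y hy => by
      obtain ⟨β, n, η, -, hn, -, -, rfl⟩ := lev_elem hm'.1 hy
      refine ⟨succ n, succ_mem_omega hn, fun k _ hk => ?_⟩
      obtain ⟨η', e⟩ := hk
      rw [(opair_inj (opair_inj e).1).2, mem_succ]
      exact Or.inr rfl)
  have he : emp ∈ ν := by
    rcases ord_trichotomy ord_emp (hκ.mem hν) with h1 | h1 | h1
    · exact h1
    · rw [← h1] at hμ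
      exact absurd hμ (not_mem_emp _)
    · exact absurd h1 (not_mem_emp _)
  have hc : Fun (sep (prod b ν) (fun w => ∃ k ξ, w = opair k ξ ∧ (opair (opair ν k) ξ ∈ m ∨
      (ξ = emp ∧ ∀ η, opair (opair ν k) η ∉ m)))) b ν := by
    constructor
    · intro p hp
      rw [mem_sep, mem_prod] at hp
      exact hp.1
    · intro k hk
      by_cases h : ∃ η, opair (opair ν k) η ∈ m
      · obtain ⟨η, hη⟩ := h
        refine ⟨η, ?_, fun ξ hξ => ?_⟩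
        · show opair k η ∈ sep _ _
          rw [mem_sep, opair_mem_prod]
          exact ⟨⟨hk, hm2.2.2.2 _ _ _ hη⟩, k, η, rfl, Or.inl hη⟩
        · obtain ⟨-, k', ξ', e, h2⟩ := (mem_sep _ _ _).1 hξ
          obtain ⟨rfl, rfl⟩ := opair_inj e
          rcases h2 with h2 | h2
          · exact hm2.2.2.1 _ _ _ h2 hη
          · exact absurd hη (h2.2 η)
      · push Not at h
        refine ⟨emp, ?_, fun ξ hξ => ?_⟩
        · show opair k emp ∈ sep _ _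
          rw [mem_sep, opair_mem_prod]
          exact ⟨⟨hk, he⟩, k, emp, rfl, Or.inr ⟨rfl, h⟩⟩
        · obtain ⟨-, k', ξ', e, h2⟩ := (mem_sep _ _ _).1 hξ
          obtain ⟨rfl, rfl⟩ := opair_inj e
          rcases h2 with h2 | h2
          · exact absurd h2 (h ξ)
          · exact h2.1
  refine ⟨sep (prod b ν) (fun w => ∃ k ξ, w = opair k ξ ∧ (opair (opair ν k) ξ ∈ m ∨
      (ξ = emp ∧ ∀ η, opair (opair ν k) η ∉ m))), sep m (fun z => ¬ ∃ n ξ, z = opair (opair ν n) ξ),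
      ?_, ?_, ?_⟩
  · rw [mem_Sq]
    refine ⟨fun z hz => ?_, b, hb, hc⟩
    obtain ⟨k, hk, ξ, hξ, rfl⟩ := hc.1 z hz
    rw [opair_mem_prod]
    exact ⟨omega_sub hb k hk, hξ⟩
  · rw [mem_LevX, mem_LevI]
    refine ⟨⟨lev_sub hm'.1 (fun z hz => ((mem_sep _ _ _).1 hz).1), fun α n ξ h => ?_⟩,
      fun n ξ h => ?_⟩
    · exact hm'.2 α n ξ ((mem_sep _ _ _).1 h).1
    · exact ((mem_sep _ _ _).1 h).2 ⟨n, ξ, rfl⟩
  · intro c' hc' hcc z hz
    rw [mem_un, mem_sep]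
    by_cases h : ∃ n ξ, z = opair (opair ν n) ξ
    · left
      obtain ⟨n, ξ, rfl⟩ := h
      rw [opair_mem_col hκ hν hc']
      apply hcc
      rw [mem_sep, opair_mem_prod]
      obtain ⟨β, n', ξ', -, hn, -, -, e⟩ := lev_elem hm'.1 hz
      obtain ⟨e1, rfl⟩ := opair_inj e
      obtain ⟨-, rfl⟩ := opair_inj e1
      exact ⟨⟨hb' _ hz n hn ⟨ξ, rfl⟩, hm2.2.2.2 _ _ _ hz⟩, n, ξ, rfl, Or.inl hz⟩
    · exact Or.inr ⟨hz, h⟩

end col

theorem exists_mapA {κ μ ν P R E1 E2 : M} (hκ : Ord κ) (hμ : μ ∈ ν) (hν : ν ∈ κ)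
    (h : TreeMap P R ν E1 E2) :
    ∃ a, DE (prod (Sq ν) (LevX κ μ ν)) (prR (Sq ν) (SqR ν) (LevX κ μ ν) (LevXR κ μ ν))
      (prod P (LevI κ μ)) (prR P R (LevI κ μ) (LevIR κ μ)) a := by
  have hv : ∀ w, w ∈ prod (Sq ν) (LevX κ μ ν) →
      opair (ap E1 (fs w)) (un (col κ ν (ap E2 (fs w))) (sn w)) ∈ prod P (LevI κ μ) := by
    intro w hw
    obtain ⟨s, hs, l, hl, rfl⟩ := (mem_prod _ _ _).1 hw
    rw [fs_opair, sn_opair, opair_mem_prod]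
    exact ⟨h.f1.ap_mem hs, colun_mem hκ hμ hν (h.f2.ap_mem hs) hl⟩
  have hval : ∀ s l, s ∈ Sq ν → l ∈ LevX κ μ ν →
      ap (mkf (prod (Sq ν) (LevX κ μ ν)) (prod P (LevI κ μ))
        (fun w => opair (ap E1 (fs w)) (un (col κ ν (ap E2 (fs w))) (sn w)))) (opair s l) =
      opair (ap E1 s) (un (col κ ν (ap E2 s)) l) := by
    intro s l hs hl
    rw [ap_mkf hv ((opair_mem_prod _ _ _ _).2 ⟨hs, hl⟩), fs_opair, sn_opair]
  refine ⟨_, mkf_fun hv, ?_, ?_, ?_⟩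
  · intro x y hxy
    obtain ⟨s, hs, l, hl, rfl⟩ := (mem_prod _ _ _).1 hxy.1
    obtain ⟨t, ht, l', hl', rfl⟩ := (mem_prod _ _ _).1 hxy.2.1
    rw [le_prR, le_SqR, le_LevX] at hxy
    rw [hval s l hs hl, hval t l' ht hl', le_prR, le_LevI]
    have h1 := h.mono t s ht hs hxy.1.2.2
    exact ⟨h1.1, colun_mem hκ hμ hν (h.f2.ap_mem hs) hl, colun_mem hκ hμ hν (h.f2.ap_mem ht) hl',
      colun_mono h1.2 hxy.2.2.2⟩
  · intro x y q hx hy hqx hqy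
    obtain ⟨s, hs, l, hl, rfl⟩ := (mem_prod _ _ _).1 hx
    obtain ⟨t, ht, l', hl', rfl⟩ := (mem_prod _ _ _).1 hy
    obtain ⟨r, hr, m, hm, rfl⟩ := (mem_prod _ _ _).1 hqx.1
    rw [hval s l hs hl, le_prR, le_LevI] at hqx
    rw [hval t l' ht hl', le_prR, le_LevI] at hqy
    obtain ⟨h1, h2⟩ := colun_comp hκ hν (h.f2.ap_mem hs) (h.f2.ap_mem ht) hl hl' hm
      hqx.2.2.2 hqy.2.2.2
    have hl1 : l ⊆ un l l' := fun z hz => by rw [mem_un]; exact Or.inl hz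
    have hl2 : l' ⊆ un l l' := fun z hz => by rw [mem_un]; exact Or.inr hz
    rcases h.comp s t hs ht ⟨r, hqx.1, hqy.1⟩ h1 with h3 | h3
    · refine ⟨opair t (un l l'), ?_, ?_⟩
      · rw [le_prR, le_SqR, le_LevX]
        exact ⟨⟨ht, hs, h3⟩, h2, hl, hl1⟩
      · rw [le_prR, le_SqR, le_LevX]
        exact ⟨⟨ht, ht, sub_refl _⟩, h2, hl', hl2⟩
    · refine ⟨opair s (un l l'), ?_, ?_⟩
      · rw [le_prR, le_SqR, le_LevX]
        exact ⟨⟨hs, hs, sub_refl _⟩, h2, hl, hl1⟩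
      · rw [le_prR, le_SqR, le_LevX]
        exact ⟨⟨hs, ht, h3⟩, h2, hl', hl2⟩
  · intro q hq
    obtain ⟨p, hp, m, hm, rfl⟩ := (mem_prod _ _ _).1 hq
    obtain ⟨c, l, hc, hl, h1⟩ := colun_dense hκ hμ hν hm
    obtain ⟨s, hs, h2, h3⟩ := h.dense p c hp hc
    refine ⟨opair s l, (opair_mem_prod _ _ _ _).2 ⟨hs, hl⟩, ?_⟩
    rw [hval s l hs hl, le_prR, le_LevI]
    exact ⟨h2, colun_mem hκ hμ hν (h.f2.ap_mem hs) hl, hm, h1 _ (h.f2.ap_mem hs) h3⟩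

theorem exists_mapB {κ μ ν : M} (hκ : Ord κ) (hμ : μ ∈ ν) (hν : ν ∈ κ) :
    ∃ b, DE (prod (Sq ν) (LevX κ μ ν)) (prR (Sq ν) (SqR ν) (LevX κ μ ν) (LevXR κ μ ν))
      (LevI κ μ) (LevIR κ μ) b := by
  have hv : ∀ w, w ∈ prod (Sq ν) (LevX κ μ ν) → un (col κ ν (fs w)) (sn w) ∈ LevI κ μ := by
    intro w hw
    obtain ⟨s, hs, l, hl, rfl⟩ := (mem_prod _ _ _).1 hw
    rw [fs_opair, sn_opair]
    exact colun_mem hκ hμ hν hs hl
  have hval : ∀ s l, s ∈ Sq ν → l ∈ LevX κ μ ν →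
      ap (mkf (prod (Sq ν) (LevX κ μ ν)) (LevI κ μ)
        (fun w => un (col κ ν (fs w)) (sn w))) (opair s l) = un (col κ ν s) l := by
    intro s l hs hl
    rw [ap_mkf hv ((opair_mem_prod _ _ _ _).2 ⟨hs, hl⟩), fs_opair, sn_opair]
  refine ⟨_, mkf_fun hv, ?_, ?_, ?_⟩
  · intro x y hxy
    obtain ⟨s, hs, l, hl, rfl⟩ := (mem_prod _ _ _).1 hxy.1
    obtain ⟨t, ht, l', hl', rfl⟩ := (mem_prod _ _ _).1 hxy.2.1
    rw [le_prR, le_SqR, le_LevX] at hxy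
    rw [hval s l hs hl, hval t l' ht hl', le_LevI]
    exact ⟨colun_mem hκ hμ hν hs hl, colun_mem hκ hμ hν ht hl', colun_mono hxy.1.2.2 hxy.2.2.2⟩
  · intro x y q hx hy hqx hqy
    obtain ⟨s, hs, l, hl, rfl⟩ := (mem_prod _ _ _).1 hx
    obtain ⟨t, ht, l', hl', rfl⟩ := (mem_prod _ _ _).1 hy
    rw [hval s l hs hl, le_LevI] at hqx
    rw [hval t l' ht hl', le_LevI] at hqy
    obtain ⟨h1, h2⟩ := colun_comp hκ hν hs ht hl hl' hqx.1 hqx.2.2 hqy.2.2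
    have hl1 : l ⊆ un l l' := fun z hz => by rw [mem_un]; exact Or.inl hz
    have hl2 : l' ⊆ un l l' := fun z hz => by rw [mem_un]; exact Or.inr hz
    rcases h1 with h3 | h3
    · refine ⟨opair t (un l l'), ?_, ?_⟩
      · rw [le_prR, le_SqR, le_LevX]
        exact ⟨⟨ht, hs, h3⟩, h2, hl, hl1⟩
      · rw [le_prR, le_SqR, le_LevX]
        exact ⟨⟨ht, ht, sub_refl _⟩, h2, hl', hl2⟩
    · refine ⟨opair s (un l l'), ?_, ?_⟩
      · rw [le_prR, le_SqR, le_LevX]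
        exact ⟨⟨hs, hs, sub_refl _⟩, h2, hl, hl1⟩
      · rw [le_prR, le_SqR, le_LevX]
        exact ⟨⟨hs, ht, h3⟩, h2, hl', hl2⟩
  · intro m hm
    obtain ⟨c, l, hc, hl, h1⟩ := colun_dense hκ hμ hν hm
    refine ⟨opair c l, (opair_mem_prod _ _ _ _).2 ⟨hc, hl⟩, ?_⟩
    rw [hval c l hc hl, le_LevI]
    exact ⟨colun_mem hκ hμ hν hc hl, hm, h1 _ hc (sub_refl _)⟩

/-- `Lev κ` is the product of `Lev μ` and `LevI κ μ`. -/
theorem exists_mapS {κ μ : M} (hκ : Ord κ) (hμ : μ ∈ κ) :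
    ∃ d, DE (prod (Lev μ) (LevI κ μ)) (prR (Lev μ) (LevR μ) (LevI κ μ) (LevIR κ μ))
      (Lev κ) (LevR κ) d ∧
      ∀ a b, a ∈ Lev μ → b ∈ LevI κ μ → ap d (opair a b) = un a b := by
  have hsub : μ ⊆ κ := fun z hz => hκ.trans hz hμ
  have hun : ∀ a b, a ∈ Lev μ → b ∈ LevI κ μ → un a b ∈ Lev κ := by
    intro a b ha hb
    refine lev_un2 (lev_mono hsub a ha) (mem_LevI.1 hb).1 (fun x ξ η h1 h2 => ?_)
    obtain ⟨β, n, ξ', h3, -, -, -, e⟩ := lev_elem ha h1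
    obtain ⟨rfl, rfl⟩ := opair_inj e
    exact absurd h3 ((mem_LevI.1 hb).2 β n η h2)
  have hv : ∀ w, w ∈ prod (Lev μ) (LevI κ μ) → un (fs w) (sn w) ∈ Lev κ := by
    intro w hw
    obtain ⟨s, hs, l, hl, rfl⟩ := (mem_prod _ _ _).1 hw
    rw [fs_opair, sn_opair]
    exact hun s l hs hl
  have hval : ∀ s l, s ∈ Lev μ → l ∈ LevI κ μ →
      ap (mkf (prod (Lev μ) (LevI κ μ)) (Lev κ) (fun w => un (fs w) (sn w))) (opair s l) =
        un s l := by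
    intro s l hs hl
    rw [ap_mkf hv ((opair_mem_prod _ _ _ _).2 ⟨hs, hl⟩), fs_opair, sn_opair]
  refine ⟨_, ⟨mkf_fun hv, ?_, ?_, ?_⟩, hval⟩
  · intro x y hxy
    obtain ⟨s, hs, l, hl, rfl⟩ := (mem_prod _ _ _).1 hxy.1
    obtain ⟨t, ht, l', hl', rfl⟩ := (mem_prod _ _ _).1 hxy.2.1
    rw [le_prR, le_lev, le_LevI] at hxy
    rw [hval s l hs hl, hval t l' ht hl', le_lev]
    refine ⟨hun s l hs hl, hun t l' ht hl', fun z hz => ?_⟩
    rw [mem_un] at hz ⊢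
    exact hz.imp (hxy.1.2.2 z) (hxy.2.2.2 z)
  · intro x y q hx hy hqx hqy
    obtain ⟨s, hs, l, hl, rfl⟩ := (mem_prod _ _ _).1 hx
    obtain ⟨t, ht, l', hl', rfl⟩ := (mem_prod _ _ _).1 hy
    rw [hval s l hs hl, le_lev] at hqx
    rw [hval t l' ht hl', le_lev] at hqy
    have hq := mem_lev.1 hqx.1
    have h1 : s ⊆ q := fun z hz => hqx.2.2 z (by rw [mem_un]; exact Or.inl hz)
    have h2 : l ⊆ q := fun z hz => hqx.2.2 z (by rw [mem_un]; exact Or.inr hz)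
    have h3 : t ⊆ q := fun z hz => hqy.2.2 z (by rw [mem_un]; exact Or.inl hz)
    have h4 : l' ⊆ q := fun z hz => hqy.2.2 z (by rw [mem_un]; exact Or.inr hz)
    have h5 : un s t ∈ Lev μ :=
      lev_un2 hs ht (fun a ξ η h6 h7 => hq.2.2.1 a ξ η (h1 _ h6) (h3 _ h7))
    have h6 : un l l' ∈ LevI κ μ := by
      rw [mem_LevI] at hl hl' ⊢
      refine ⟨lev_un3 hl.1 hl'.1 hqx.1 h2 h4, fun α n ξ h7 => ?_⟩
      rw [mem_un] at h7
      exact h7.elim (hl.2 α n ξ) (hl'.2 α n ξ)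
    refine ⟨opair (un s t) (un l l'), ?_, ?_⟩
    · rw [le_prR, le_lev, le_LevI]
      exact ⟨⟨h5, hs, fun z hz => by rw [mem_un]; exact Or.inl hz⟩, h6, hl,
        fun z hz => by rw [mem_un]; exact Or.inl hz⟩
    · rw [le_prR, le_lev, le_LevI]
      exact ⟨⟨h5, ht, fun z hz => by rw [mem_un]; exact Or.inr hz⟩, h6, hl',
        fun z hz => by rw [mem_un]; exact Or.inr hz⟩
  · intro q hq
    have h1 : rs q μ ∈ Lev μ := rs_lev hκ hμ hq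
    have h2 : sep q (fun z => ¬ ∃ β n ξ, β ∈ μ ∧ z = opair (opair β n) ξ) ∈ LevI κ μ := by
      rw [mem_LevI]
      refine ⟨lev_sub hq (fun z hz => ((mem_sep _ _ _).1 hz).1), fun α n ξ h3 h4 => ?_⟩
      exact ((mem_sep _ _ _).1 h3).2 ⟨α, n, ξ, h4, rfl⟩
    refine ⟨opair _ _, (opair_mem_prod _ _ _ _).2 ⟨h1, h2⟩, ?_⟩
    rw [hval _ _ h1 h2, le_lev]
    refine ⟨hun _ _ h1 h2, hq, fun z hz => ?_⟩
    rw [mem_un, mem_rs, mem_sep]
    by_cases h : ∃ β n ξ, β ∈ μ ∧ z = opair (opair β n) ξ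
    · exact Or.inl ⟨hz, h⟩
    · exact Or.inr ⟨hz, h⟩

theorem levI_emp (κ : M) : LevI κ emp = Lev κ ∧ LevIR κ emp = LevR κ := by
  have h : LevI κ emp = Lev κ := by
    apply ext
    intro p
    rw [mem_LevI]
    exact ⟨fun h => h.1, fun h => ⟨h, fun α _ _ _ => not_mem_emp α⟩⟩
  refine ⟨h, ?_⟩
  unfold LevIR LevR
  rw [h]

end Pool.Agent.ZFIter.NPA.BSM.SP
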