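import Pool.Agent.BSP.TLev

/-!
# BSP/KNice: every small set of the Levy extension has a name of bounded support

Copy `BSM/VDec` (`decision`) and `BSM/VCh` (`nice_name`) to the frame `Fo` of this folder (the frame there
has a field `vl : V = L` which is not used in these two proofs), and replace `omega` by any set `c` of `M`
with `Small κ c` (the proof of `decision` uses only that: `small_prod`, `small_bdd`, `closure_pt`, `small_lev`).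

`lev_ctb`: copy `col_ctb` (BSM/VCol).
-/

universe u

namespace Pool.Agent.ZFIter.NPA.BSM.SP

open Pool.Agent.H78.ZF Pool.Agent.ZFIter Pool.Agent.ZFIter.NPA

variable {M : Type u} [ZFM M] {F : Fo M} {κ : M}

/-- some value is forced by `r` -/
private def Dc (κ : M) (B : M → M → M → Prop) (n r : M) : Prop := ∃ ξ, ξ ∈ κ ∧ B n ξ r

private instance dr_Dc {ι : Type} (κ : M) (B : M → M → M → Prop) [D3 B] (n r : (ι → M) → M) [DF n]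
    [DF r] : DR (fun v => Dc κ B (n v) (r v)) := by
  unfold Dc
  infer_instance

/-- step (1) -/
private theorem step1 (hP : F.P = Lev κ) (hR : F.R = LevR κ) (c : M) (B : M → M → M → Prop) [D3 B]
    (hB : ∀ n ξ, Good F.P F.R (B n ξ))
    (h : ∀ n, n ∈ c → ∃ ξ p, ξ ∈ κ ∧ F.G p ∧ B n ξ p) :
    ∃ p0, F.G p0 ∧ ∀ n, n ∈ c → ∀ q, q ∈ Lev κ → p0 ⊆ q →
      ∃ r, r ∈ Lev κ ∧ q ⊆ r ∧ Dc κ B n r := by
  have hle : ∀ q p, Le F.P F.R q p ↔ q ∈ Lev κ ∧ p ∈ Lev κ ∧ p ⊆ q := by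
    intro q p
    rw [hP, hR]
    exact le_lev
  obtain ⟨p, hp, h1 | h1⟩ := Fo.decide (F := F) (fun p => ∀ n, n ∈ c → ∀ q, q ∈ Lev κ →
    p ⊆ q → ∃ r, r ∈ Lev κ ∧ q ⊆ r ∧ Dc κ B n r)
  · exact ⟨p, hp, h1⟩
  · exfalso
    obtain ⟨q, hq, n, hn, h2⟩ := Fo.below (F := F)
      (fun q => ∃ n, n ∈ c ∧ ∀ r, r ∈ Lev κ → q ⊆ r → ¬ Dc κ B n r) hp (by
        intro q hq
        have h2 := h1 q hq
        push Not at h2
        obtain ⟨n, hn, q', hq', hqq', h3⟩ := h2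
        exact ⟨q', (hle _ _).2 ⟨hq', ((hle _ _).1 hq).1, hqq'⟩, n, hn, h3⟩)
    obtain ⟨ξ, p', hξ, hp', hB'⟩ := h n hn
    obtain ⟨r, _, hr1, hr2⟩ := F.gen.dir q p' hq hp'
    exact h2 r ((hle _ _).1 hr1).1 ((hle _ _).1 hr1).2.2 ⟨ξ, hξ, (hB n ξ).mono hB' hr2⟩

theorem decision_small (hκ : Inacc κ) (hP : F.P = Lev κ) (hR : F.R = LevR κ)
    {c : M} (hc : Small κ c) (B : M → M → M → Prop) [D3 B]
    (hB : ∀ n ξ, Good F.P F.R (B n ξ))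
    (h : ∀ n, n ∈ c → ∃ ξ p, ξ ∈ κ ∧ F.G p ∧ B n ξ p) :
    ∃ α, α ∈ κ ∧ ∀ n, n ∈ c → ∃ ξ r, ξ ∈ κ ∧ F.G r ∧ r ∈ Lev α ∧ B n ξ r := by
  have hle : ∀ q p, Le F.P F.R q p ↔ q ∈ Lev κ ∧ p ∈ Lev κ ∧ p ⊆ q := by
    intro q p
    rw [hP, hR]
    exact le_lev
  have hlim : ∀ β, β ∈ κ → succ β ∈ κ := fun β hβ => inacc_succ hκ hβ
  have hne : κ ≠ emp := ne_emp_iff.2 ⟨_, hκ.2.1⟩
  obtain ⟨p0, hp0, h0⟩ := step1 hP hR c B hB h
  have hp0' : p0 ∈ Lev κ := by rw [← hP]; exact Fo.G_mem hp0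
  -- the bounding function
  have key : ∀ β, β ∈ κ → ∃ η, η ∈ κ ∧ ∀ q, q ∈ Lev β → p0 ⊆ q → ∀ n, n ∈ c →
      ∃ r, r ∈ Lev η ∧ q ⊆ r ∧ Dc κ B n r := by
    intro β hβ
    have hsm : Small κ (prod (Lev β) c) := small_prod hκ (small_lev hκ hβ) hc
    have hex : ∀ q n, q ∈ Lev β → p0 ⊆ q → n ∈ c →
        ∃ γ, γ ∈ κ ∧ ∃ r, r ∈ Lev γ ∧ q ⊆ r ∧ Dc κ B n r := by
      intro q n hq hpq hn
      obtain ⟨r, hr, hqr, hD⟩ := h0 n hn q (lev_mono (hκ.1.1 β hβ) q hq) hpq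
      obtain ⟨γ, hγ, hrγ⟩ := lev_lim hκ.1 hlim hne hr
      exact ⟨γ, hγ, r, hrγ, hqr, hD⟩
    obtain ⟨η, hη, hb⟩ := small_bdd hκ hsm
      (fun z => leastO (fun γ => γ ∈ κ ∧ ∀ q n, z = opair q n → p0 ⊆ q →
        ∃ r, r ∈ Lev γ ∧ q ⊆ r ∧ Dc κ B n r)) (by
        intro z hz
        rw [mem_prod] at hz
        obtain ⟨q, hq, n, hn, rfl⟩ := hz
        refine (leastO_spec (fun γ => γ ∈ κ ∧ ∀ q' n', opair q n = opair q' n' → p0 ⊆ q' →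
          ∃ r, r ∈ Lev γ ∧ q' ⊆ r ∧ Dc κ B n' r) ?_).2.1.1
        by_cases hpq : p0 ⊆ q
        · obtain ⟨γ, hγ, h2⟩ := hex q n hq hpq hn
          refine ⟨γ, hκ.1.mem hγ, hγ, fun q' n' e _ => ?_⟩
          obtain ⟨rfl, rfl⟩ := opair_inj e
          exact h2
        · refine ⟨omega, hκ.1.mem hκ.2.1, hκ.2.1, fun q' n' e h => ?_⟩
          obtain ⟨rfl, rfl⟩ := opair_inj e
          exact absurd h hpq)
    refine ⟨η, hη, fun q hq hpq n hn => ?_⟩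
    have h1 := hb (opair q n) (by rw [mem_prod]; exact ⟨q, hq, n, hn, rfl⟩)
    have h2 := (leastO_spec (fun γ => γ ∈ κ ∧ ∀ q' n', opair q n = opair q' n' → p0 ⊆ q' →
          ∃ r, r ∈ Lev γ ∧ q' ⊆ r ∧ Dc κ B n' r) (by
            obtain ⟨γ, hγ, h2⟩ := hex q n hq hpq hn
            refine ⟨γ, hκ.1.mem hγ, hγ, fun q' n' e _ => ?_⟩
            obtain ⟨rfl, rfl⟩ := opair_inj e
            exact h2)).2.1.2 q n rfl hpq
    obtain ⟨r, hr, hqr, hD⟩ := h2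
    exact ⟨r, lev_mono ((hκ.1.mem hη).1 _ h1) r hr, hqr, hD⟩
  obtain ⟨α0, hα0, hp0α⟩ := lev_lim hκ.1 hlim hne hp0'
  obtain ⟨α, hα, h0α, hsα, hcl⟩ := closure_pt hκ
    (fun β => leastO (fun η => ∀ q, q ∈ Lev β → p0 ⊆ q → ∀ n, n ∈ c →
      ∃ r, r ∈ Lev η ∧ q ⊆ r ∧ Dc κ B n r)) (by
      intro β hβ
      obtain ⟨η, hη, h1⟩ := key β hβ
      have h2 := leastO_le (fun η => ∀ q, q ∈ Lev β → p0 ⊆ q → ∀ n, n ∈ c →
        ∃ r, r ∈ Lev η ∧ q ⊆ r ∧ Dc κ B n r) (hκ.1.mem hη) h1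
      have h3 := (leastO_spec (fun η => ∀ q, q ∈ Lev β → p0 ⊆ q → ∀ n, n ∈ c →
        ∃ r, r ∈ Lev η ∧ q ⊆ r ∧ Dc κ B n r) ⟨η, hκ.1.mem hη, h1⟩).1
      rcases (ord_sub_iff h3 (hκ.1.mem hη)).1 h2 with h4 | h4
      · exact hκ.1.trans h4 hη
      · rw [h4]; exact hη) hα0
  have hαo : Ord α := hκ.1.mem hα
  have hαne : α ≠ emp := ne_emp_iff.2 ⟨_, h0α⟩
  have hακ : α ⊆ κ := hκ.1.1 α hα
  have hp0α' : p0 ∈ Lev α := lev_mono (hαo.1 α0 h0α) p0 hp0α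
  refine ⟨α, hα, fun n hn => ?_⟩
  obtain ⟨r, hr, r', hr', hrr', ξ, hξ, hBr⟩ := Fo.below (F := F)
    (fun r => ∃ r', r' ∈ Lev α ∧ r' ⊆ r ∧ Dc κ B n r') hp0 (by
      intro q hq
      have hq' := (hle _ _).1 hq
      have hrs : rs q α ∈ Lev α := rs_lev hκ.1 hα hq'.1
      have hpr : p0 ⊆ rs q α := sub_rs hp0α' hq'.2.2
      obtain ⟨β, hβ, hrβ⟩ := lev_lim hαo hsα hαne hrs
      have hβκ := hκ.1.trans hβ hα
      obtain ⟨η, hη, h1⟩ := key β hβκ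
      have h3 := (leastO_spec (fun η => ∀ q, q ∈ Lev β → p0 ⊆ q → ∀ n, n ∈ c →
        ∃ r, r ∈ Lev η ∧ q ⊆ r ∧ Dc κ B n r) ⟨η, hκ.1.mem hη, h1⟩).2.1
      obtain ⟨r', hr', hqr', hD⟩ := h3 _ hrβ hpr n hn
      have hr'α : r' ∈ Lev α := lev_mono (hαo.1 _ (hcl β hβ)) r' hr'
      have hun := lev_un hακ hq'.1 hr'α hqr'
      exact ⟨un q r', (hle _ _).2 ⟨hun, hq'.1, sub_un_left q r'⟩, r', hr'α, sub_un_right q r', hD⟩)
  refine ⟨ξ, r', hξ, ?_, hr', hBr⟩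
  refine F.gen.up r r' hr ((hle _ _).2 ⟨?_, lev_mono hακ r' hr', hrr'⟩)
  rw [← hP]
  exact Fo.G_mem hr

theorem nice_name (hκ : Inacc κ) (hF : IsLev F κ) {c : M} (hc : Small κ c) {x : F.Ext}
    (hx : x ⊆ can F c) :
    ∃ α t, α ∈ κ ∧ t ⊆ prod c (Lev α) ∧
      ∀ n, n ∈ c → (can F n ∈ x ↔ ∃ r, F.G r ∧ opair n r ∈ t) := by
  obtain ⟨A, hD, hG, hT⟩ := fr2 (F := F)
    (fun n y => (y = emp ∧ n ∉ x) ∨ (y = succ emp ∧ n ∈ x))
  have hT' : ∀ n ξ, ((can F ξ = emp ∧ can F n ∉ x) ∨ (can F ξ = succ emp ∧ can F n ∈ x)) ↔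
      ∃ p, F.G p ∧ A (chk F.P n) (chk F.P ξ) p := fun n ξ => hT _ _
  have he : can F emp = emp := em_emp
  have hs : can F (succ emp) = succ emp := by rw [em_succ (i := can F), he]
  have h0κ : emp ∈ κ := hκ.1.trans emp_mem_omega hκ.2.1
  have h1κ : succ emp ∈ κ := hκ.1.trans (succ_mem_omega emp_mem_omega) hκ.2.1
  have hne : (succ emp : F.Ext) ≠ emp := succ_ne_emp emp
  obtain ⟨α, hα, hdec⟩ := decision_small hκ hF.1 hF.2 hc (fun n ξ p => A (chk F.P n) (chk F.P ξ) p)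
    (fun n ξ => hG _ _) (by
    intro n hn
    by_cases h : can F n ∈ x
    · obtain ⟨p, hp, h2⟩ := (hT' n (succ emp)).1 (Or.inr ⟨hs, h⟩)
      exact ⟨succ emp, p, h1κ, hp, h2⟩
    · obtain ⟨p, hp, h2⟩ := (hT' n emp).1 (Or.inl ⟨he, h⟩)
      exact ⟨emp, p, h0κ, hp, h2⟩)
  refine ⟨α, sep (prod c (Lev α)) (fun z => ∃ n r, z = opair n r ∧
    A (chk F.P n) (chk F.P (succ emp)) r), hα, fun z hz => ((mem_sep _ _ _).1 hz).1, fun n hn => ?_⟩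
  constructor
  · intro hnx
    obtain ⟨ξ, r, hξ, hr, hrα, hA⟩ := hdec n hn
    refine ⟨r, hr, ?_⟩
    rw [mem_sep, mem_prod]
    refine ⟨⟨n, hn, r, hrα, rfl⟩, n, r, rfl, ?_⟩
    rcases (hT' n ξ).2 ⟨r, hr, hA⟩ with h | h
    · exact absurd hnx h.2
    · have : ξ = succ emp := em_inj (i := can F) (by rw [h.1, hs])
      rw [← this]
      exact hA
  · rintro ⟨r, hr, h⟩
    rw [mem_sep] at h
    obtain ⟨_, n', r', e, hA⟩ := h
    obtain ⟨rfl, rfl⟩ := opair_inj e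
    rcases (hT' n (succ emp)).2 ⟨r, hr, hA⟩ with h | h
    · rw [hs] at h
      exact absurd h.1 hne
    · exact h.2

/-- a pair belongs to the union of the generic set iff it belongs to an element of `G` -/
private theorem mem_union {x : M} : can F x ∈ sUn (gam F) ↔ ∃ p, F.G p ∧ x ∈ p := by
  rw [mem_sUn]
  constructor
  · rintro ⟨y, hy, hx⟩
    obtain ⟨p, hp, rfl⟩ := mem_gam.1 hy
    exact ⟨p, hp, em_mem.1 hx⟩
  · rintro ⟨p, hp, hx⟩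
    exact ⟨can F p, can_mem_gam.2 hp, em_mem.2 hx⟩

private theorem col_ctb (hκ : Inacc κ) (hP : F.P = Lev κ) (hR : F.R = LevR κ) {α : M} (hα : α ∈ κ) :
    Ctb (can F α) := by
  have hle : ∀ q p, Le F.P F.R q p ↔ q ∈ Lev κ ∧ p ∈ Lev κ ∧ p ⊆ q := by
    intro q p
    rw [hP, hR]
    exact le_lev
  refine ctb_image (ctb_omega (M := F.Ext)) (fun n ξ => opair (opair (can F α) n) ξ ∈ sUn (gam F)) ?_ ?_
  · intro z hz
    obtain ⟨ξ, hξ, rfl⟩ := em_elim.1 hz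
    obtain ⟨p, hp, n, hn, h1⟩ := Fo.meet (F := F)
      (fun p => ∃ n, n ∈ (omega : M) ∧ opair (opair α n) ξ ∈ p) (by
        intro p hp
        rw [hP] at hp
        obtain ⟨q, hq, hpq, n, hn, h⟩ := lev_val hκ.1 hp hα hξ
        exact ⟨q, (hle _ _).2 ⟨hq, hp, hpq⟩, n, hn, h⟩)
    refine ⟨can F n, ?_, ?_⟩
    · rw [← em_omega (i := can F)]
      exact em_mem.2 hn
    · rw [← em_opair, ← em_opair]
      exact mem_union.2 ⟨p, hp, h1⟩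
  · intro n z z' hz hz' h h'
    obtain ⟨ξ, hξ, rfl⟩ := em_elim.1 hz
    obtain ⟨ξ', hξ', rfl⟩ := em_elim.1 hz'
    obtain ⟨w, hw⟩ : ∃ w, opair (opair (can F α) n) (can F ξ) = can F w := by
      rw [mem_sUn] at h
      obtain ⟨y, hy, hx⟩ := h
      obtain ⟨p, hp, rfl⟩ := mem_gam.1 hy
      obtain ⟨w, _, e⟩ := em_elim.1 hx
      exact ⟨w, e⟩
    obtain ⟨u, _, _, e1, _⟩ := em_of_opair hw
    obtain ⟨_, m, _, _, e2⟩ := em_of_opair e1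
    rw [e2] at h h'
    rw [← em_opair, ← em_opair] at h h'
    obtain ⟨p, hp, h1⟩ := mem_union.1 h
    obtain ⟨q, hq, h2⟩ := mem_union.1 h'
    obtain ⟨r, hr, hr1, hr2⟩ := F.gen.dir p q hp hq
    have h3 := ((hle _ _).1 hr1).2.2 _ h1
    have h4 := ((hle _ _).1 hr2).2.2 _ h2
    have h5 := ((hle _ _).1 hr1).1
    unfold Lev at h5
    rw [mem_sep] at h5
    rw [h5.2.2.1 _ _ _ h3 h4]

/-- Every small set of the ground model is countable in the Levy extension. -/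
theorem lev_ctb (hκ : Inacc κ) (hF : IsLev F κ) {x : M} (hx : Small κ x) (hne : x ≠ emp) :
    ∃ f : F.Ext, Fun f omega (can F x) ∧ ∀ z, z ∈ x → ∃ n, n ∈ (omega : F.Ext) ∧ ap f n = can F z := by
  obtain ⟨δ, g, hδ, hg⟩ := hx
  have h1 : Ctb (can F x) := by
    refine ctb_image (col_ctb hκ hF.1 hF.2 hδ) (fun ξ z => ap (can F g) z = ξ) ?_ ?_
    · intro z hz
      obtain ⟨z, hz', rfl⟩ := em_elim.1 hz
      refine ⟨ap (can F g) (can F z), ?_, rfl⟩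
      rw [← em_ap]
      exact em_mem.2 (hg.fun.ap_mem hz')
    · intro ξ z z' hz hz' e e'
      obtain ⟨a, ha, rfl⟩ := em_elim.1 hz
      obtain ⟨b, hb, rfl⟩ := em_elim.1 hz'
      rw [← e', ← em_ap, ← em_ap] at e
      rw [hg.ap_inj ha hb (em_inj e)]
  obtain ⟨k, hk⟩ := h1
  obtain ⟨x0, hx0⟩ := ne_emp_iff.1 hne
  have hx0' : can F x0 ∈ can F x := em_mem.2 hx0
  have hval : ∀ z, z ∈ can F x → iota (fun w => (w ∈ can F x ∧ ap k w = ap k z) ∨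
      ((¬ ∃ w', w' ∈ can F x ∧ ap k w' = ap k z) ∧ w = can F x0)) = z := by
    intro z hz
    apply iota_eq
    · exact Or.inl ⟨hz, rfl⟩
    · rintro w (⟨hw, e⟩ | ⟨hn, -⟩)
      · exact hk.ap_inj hw hz e
      · exact absurd ⟨z, hz, rfl⟩ hn
  have hmem : ∀ n, n ∈ (omega : F.Ext) → iota (fun w => (w ∈ can F x ∧ ap k w = n) ∨
      ((¬ ∃ w', w' ∈ can F x ∧ ap k w' = n) ∧ w = can F x0)) ∈ can F x := by
    intro n _
    by_cases h : ∃ w', w' ∈ can F x ∧ ap k w' = n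
    · obtain ⟨w', hw', rfl⟩ := h
      rw [hval w' hw']
      exact hw'
    · have : iota (fun w => (w ∈ can F x ∧ ap k w = n) ∨
          ((¬ ∃ w', w' ∈ can F x ∧ ap k w' = n) ∧ w = can F x0)) = can F x0 := by
        apply iota_eq
        · exact Or.inr ⟨h, rfl⟩
        · rintro w (⟨hw, e⟩ | ⟨-, e⟩)
          · exact absurd ⟨w, hw, e⟩ h
          · exact e
      rw [this]
      exact hx0'
  refine ⟨mkf omega (can F x) (fun n => iota (fun w => (w ∈ can F x ∧ ap k w = n) ∨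
      ((¬ ∃ w', w' ∈ can F x ∧ ap k w' = n) ∧ w = can F x0))), mkf_fun hmem, fun z hz => ?_⟩
  have hz' : can F z ∈ can F x := em_mem.2 hz
  refine ⟨ap k (can F z), hk.fun.ap_mem hz', ?_⟩
  rw [ap_mkf hmem (hk.fun.ap_mem hz')]
  exact hval _ hz'

end Pool.Agent.ZFIter.NPA.BSM.SP
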