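import Pool.Agent.BSP.TDefs
import Pool.Agent.BSM.VEnum

/-!
# BSP/KNu: large ordinals closed under pairing, Schroeder-Bernstein, choice functions

* `exists_nu`: `P` injects into some `δ ∈ κ` (`Small`). Let `idx a b := iota (fun β => Ord β ∧ dI β = emp ∧
  dB β = a ∧ dC β = b)` (BSM/VEnum: `dec_mem`, `dec_inj` in NPA) and apply `closure_pt` (BSM/VSm) to
  `Φ β := ` the union of the `succ (idx a b)`, `a, b ∈ succ β`, which is in `κ` for `β ∈ κ` (`small_bdd` for the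
  small set `prod (succ β) (succ β)`), and to `α0 := un (un μ δ) omega`. The point `ν` is closed under
  `idx`, and `(a, b) ↦ idx a b` is an injection of `prod ν ν` in `ν`.
* `bij_of_inj` (Schroeder-Bernstein): let `f : x → y`, `g : y → x` be injective; let `C` be the set of all
  `z ∈ x` which belong to every `C' ⊆ x` that contains `x` minus the range of `g` and is closed under
  `z ↦ ap g (ap f z)`. Map `z ∈ C` to `ap f z` and `z ∉ C` to the `w ∈ y` with `ap g w = z`.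
* `exists_choice`: by `AC` let `h` be an injection of `a` into an ordinal; `c X` is the element of `X` with
  the least `h`-value.
* `exists_choice2`: for every `x ∈ a` some `y ∈ b` with `R x y`: apply `exists_choice` to `b`.
-/

universe u

namespace Pool.Agent.ZFIter.NPA.BSM.SP

open Pool.Agent.H78.ZF Pool.Agent.ZFIter Pool.Agent.ZFIter.NPA

variable {M : Type u} [ZFM M]

private theorem kn_idx {κ : M} (hκ : Inacc κ) : ∃ idx : M → M → M, F2 idx ∧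
    ∀ a b, a ∈ κ → b ∈ κ → idx a b ∈ κ ∧ dB (idx a b) = a ∧ dC (idx a b) = b := by
  refine ⟨fun a b => iota (fun β => Ord β ∧ dI β = emp ∧ dB β = a ∧ dC β = b), ?_, ?_⟩
  · infer_instance
  · intro a b ha hb
    obtain ⟨β, hβ, e1, e2, e3⟩ := dec_mem hκ ha hb
    have h : iota (fun β => Ord β ∧ dI β = emp ∧ dB β = a ∧ dC β = b) = β := by
      apply iota_eq
      · exact ⟨hκ.1.mem hβ, e1, e2, e3⟩
      · rintro γ ⟨h0, h1, h2, h3⟩
        exact dec_inj h0 (hκ.1.mem hβ) (by rw [h1, e1]) (by rw [h2, e2]) (by rw [h3, e3])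
    beta_reduce
    rw [h]
    exact ⟨hβ, e2, e3⟩

theorem exists_nu {κ P μ : M} (hκ : Inacc κ) (hP : Small κ P) (hμ : μ ∈ κ) :
    ∃ ν, ν ∈ κ ∧ μ ∈ ν ∧ omega ∈ ν ∧ (∃ f, Inj f P ν) ∧ ∃ f, Inj f (prod ν ν) ν := by
  obtain ⟨δ, f, hδ, hf⟩ := hP
  obtain ⟨idx, hidx, hspec⟩ := kn_idx hκ
  have hval : ∀ a b, iota (fun w => ∃ a' b', opair a b = opair a' b' ∧ w = idx a' b') =
      idx a b := by
    intro a b
    apply iota_eq
    · exact ⟨a, b, rfl, rfl⟩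
    · rintro w ⟨a', b', e, rfl⟩
      obtain ⟨rfl, rfl⟩ := opair_inj e
      rfl
  have hex : ∀ β, β ∈ κ → ∃ η, Ord η ∧ (η ∈ κ ∧ ∀ a b, a ∈ succ β → b ∈ succ β →
      idx a b ∈ η) := by
    intro β hβ
    have hs := inacc_succ hκ hβ
    obtain ⟨η, hη, hb⟩ := small_bdd hκ (small_prod hκ (small_mem hs) (small_mem hs))
      (fun p => iota (fun w => ∃ a' b', p = opair a' b' ∧ w = idx a' b')) (by
        intro p hp
        obtain ⟨a, ha, b, hb, rfl⟩ := (mem_prod _ _ _).1 hp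
        rw [hval]
        exact (hspec a b (hκ.1.trans ha hs) (hκ.1.trans hb hs)).1)
    refine ⟨η, hκ.1.mem hη, hη, fun a b ha hb' => ?_⟩
    have h1 := hb (opair a b) ((opair_mem_prod _ _ _ _).2 ⟨ha, hb'⟩)
    beta_reduce at h1
    rw [hval] at h1
    exact h1
  obtain ⟨Ψ, hΨ1, hΨ⟩ : ∃ Ψ : M → M, F1 Ψ ∧ ∀ β, β ∈ κ → Ψ β ∈ κ ∧
      ∀ a b, a ∈ succ β → b ∈ succ β → idx a b ∈ Ψ β :=
    ⟨fun β => leastO (fun η => η ∈ κ ∧ ∀ a b, a ∈ succ β → b ∈ succ β → idx a b ∈ η),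
      inferInstance, fun β hβ => (leastO_spec (fun η => η ∈ κ ∧ ∀ a b, a ∈ succ β →
        b ∈ succ β → idx a b ∈ η) (hex β hβ)).2.1⟩
  have hα0 : un (un μ δ) omega ∈ κ := inacc_un hκ (inacc_un hκ hμ hδ) hκ.2.1
  obtain ⟨ν, hν, h0, -, hcl⟩ := closure_pt hκ Ψ (fun β hβ => (hΨ β hβ).1) hα0
  have hνo : Ord ν := hκ.1.mem hν
  have hmem : ∀ x, Ord x → x ⊆ un (un μ δ) omega → x ∈ ν := by
    intro x hx hxs
    rcases (ord_sub_iff hx (hκ.1.mem hα0)).1 hxs with h | h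
    · exact hνo.trans h h0
    · rw [h]; exact h0
  have hμν : μ ∈ ν := hmem μ (hκ.1.mem hμ)
    (sub_trans (sub_un_left _ _) (sub_un_left _ _))
  have hδν : δ ∈ ν := hmem δ (hκ.1.mem hδ)
    (sub_trans (sub_un_right _ _) (sub_un_left _ _))
  have hων : omega ∈ ν := hmem omega (hκ.1.mem hκ.2.1) (sub_un_right _ _)
  have hidxν : ∀ a b, a ∈ ν → b ∈ ν → idx a b ∈ ν := by
    intro a b ha hb
    have hc : un a b ∈ ν := by
      rcases ord_un_cases (hνo.mem ha) (hνo.mem hb) with ⟨e, -⟩ | ⟨e, -⟩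
      · rw [e]; exact ha
      · rw [e]; exact hb
    have hs : ∀ x, Ord x → x ⊆ un a b → x ∈ succ (un a b) := by
      intro x hx hxs
      rw [mem_succ]
      exact (ord_sub_iff hx (hνo.mem hc)).1 hxs
    have h1 := (hΨ _ (hκ.1.trans hc hν)).2 a b (hs a (hνo.mem ha) (sub_un_left _ _))
      (hs b (hνo.mem hb) (sub_un_right _ _))
    exact hνo.trans h1 (hcl _ hc)
  refine ⟨ν, hν, hμν, hων, ⟨f, ?_⟩, mkf (prod ν ν) ν
    (fun p => iota (fun w => ∃ a' b', p = opair a' b' ∧ w = idx a' b')), ?_⟩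
  · rw [inj_iff]
    refine ⟨hf.fun.mono fun x hx => hνo.trans (hf.fun.ap_mem hx) hδν, fun x x' hx hx' e => ?_⟩
    exact hf.ap_inj hx hx' e
  · have hm : ∀ p, p ∈ prod ν ν →
        iota (fun w => ∃ a' b', p = opair a' b' ∧ w = idx a' b') ∈ ν := by
      intro p hp
      obtain ⟨a, ha, b, hb, rfl⟩ := (mem_prod _ _ _).1 hp
      rw [hval]
      exact hidxν a b ha hb
    rw [inj_iff]
    refine ⟨mkf_fun hm, ?_⟩
    intro p p' hp hp' e
    rw [ap_mkf hm hp, ap_mkf hm hp'] at e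
    obtain ⟨a, ha, b, hb, rfl⟩ := (mem_prod _ _ _).1 hp
    obtain ⟨a', ha', b', hb', rfl⟩ := (mem_prod _ _ _).1 hp'
    rw [hval, hval] at e
    have h1 := hspec a b (hκ.1.trans ha hν) (hκ.1.trans hb hν)
    have h2 := hspec a' b' (hκ.1.trans ha' hν) (hκ.1.trans hb' hν)
    rw [e] at h1
    rw [← h1.2.1, ← h1.2.2, h2.2.1, h2.2.2]

theorem bij_of_inj {x y f g : M} (hf : Inj f x y) (hg : Inj g y x) : ∃ h, Bij h x y := by
  obtain ⟨C, hC⟩ : ∃ C : M, ∀ z, z ∈ C ↔ z ∈ x ∧ ∀ C' : M,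
      (∀ w, w ∈ x → (∀ v, v ∈ y → ap g v ≠ w) → w ∈ C') →
      (∀ w, w ∈ C' → ap g (ap f w) ∈ C') → z ∈ C' :=
    ⟨sep x (fun z => ∀ C' : M, (∀ w, w ∈ x → (∀ v, v ∈ y → ap g v ≠ w) → w ∈ C') →
      (∀ w, w ∈ C' → ap g (ap f w) ∈ C') → z ∈ C'), fun z => mem_sep _ _ _⟩
  have hCx : ∀ z, z ∈ C → z ∈ x := fun z hz => ((hC z).1 hz).1
  have hCcl : ∀ z, z ∈ C → ap g (ap f z) ∈ C := by
    intro z hz
    rw [hC] at hz ⊢
    exact ⟨hg.fun.ap_mem (hf.fun.ap_mem hz.1), fun C' h1 h2 => h2 _ (hz.2 C' h1 h2)⟩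
  have hCb : ∀ z, z ∈ x → z ∉ C → ∃ w, w ∈ y ∧ ap g w = z := by
    intro z hz hzC
    by_contra hcon
    refine hzC ((hC z).2 ⟨hz, fun C' h1 _ => h1 z hz fun v hv e => hcon ⟨v, hv, e⟩⟩)
  have hv1 : ∀ z, z ∈ C →
      iota (fun w => (z ∈ C ∧ w = ap f z) ∨ (z ∉ C ∧ w ∈ y ∧ ap g w = z)) = ap f z := by
    intro z hz
    apply iota_eq
    · exact Or.inl ⟨hz, rfl⟩
    · rintro w (⟨-, h⟩ | ⟨h, -⟩)
      · exact h
      · exact absurd hz h
  have hv2 : ∀ z w, z ∉ C → w ∈ y → ap g w = z →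
      iota (fun w => (z ∈ C ∧ w = ap f z) ∨ (z ∉ C ∧ w ∈ y ∧ ap g w = z)) = w := by
    intro z w hz hw e
    apply iota_eq
    · exact Or.inr ⟨hz, hw, e⟩
    · rintro w' (⟨h, -⟩ | ⟨-, hw', e'⟩)
      · exact absurd h hz
      · exact hg.ap_inj hw' hw (e'.trans e.symm)
  have hm : ∀ z, z ∈ x →
      iota (fun w => (z ∈ C ∧ w = ap f z) ∨ (z ∉ C ∧ w ∈ y ∧ ap g w = z)) ∈ y := by
    intro z hz
    by_cases hzC : z ∈ C
    · rw [hv1 z hzC]
      exact hf.fun.ap_mem hz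
    · obtain ⟨w, hw, e⟩ := hCb z hz hzC
      rw [hv2 z w hzC hw e]
      exact hw
  refine ⟨mkf x y (fun z => iota (fun w => (z ∈ C ∧ w = ap f z) ∨
    (z ∉ C ∧ w ∈ y ∧ ap g w = z))), ?_⟩
  rw [bij_iff]
  refine ⟨mkf_fun hm, ?_, ?_⟩
  · intro z z' hz hz' e
    rw [ap_mkf hm hz, ap_mkf hm hz'] at e
    by_cases hzC : z ∈ C <;> by_cases hzC' : z' ∈ C
    · rw [hv1 z hzC, hv1 z' hzC'] at e
      exact hf.ap_inj hz hz' e
    · obtain ⟨w, hw, ew⟩ := hCb z' hz' hzC'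
      rw [hv1 z hzC, hv2 z' w hzC' hw ew] at e
      exfalso
      apply hzC'
      rw [← ew, ← e]
      exact hCcl z hzC
    · obtain ⟨w, hw, ew⟩ := hCb z hz hzC
      rw [hv1 z' hzC', hv2 z w hzC hw ew] at e
      exfalso
      apply hzC
      rw [← ew, e]
      exact hCcl z' hzC'
    · obtain ⟨w, hw, ew⟩ := hCb z hz hzC
      obtain ⟨w', hw', ew'⟩ := hCb z' hz' hzC'
      rw [hv2 z w hzC hw ew, hv2 z' w' hzC' hw' ew'] at e
      rw [← ew, ← ew', e]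
  · intro w hw
    by_cases hwC : ap g w ∈ C
    · by_contra hcon
      have h1 := (hC (ap g w)).1 hwC
      have h2 := h1.2 (sep C (fun z => z ≠ ap g w)) (by
        intro v hv hv'
        rw [mem_sep]
        refine ⟨(hC v).2 ⟨hv, fun C' h3 _ => h3 v hv hv'⟩, fun e => hv' w hw e.symm⟩) (by
        intro z hz
        rw [mem_sep] at hz ⊢
        refine ⟨hCcl z hz.1, fun e => hcon ⟨z, hCx z hz.1, ?_⟩⟩
        rw [ap_mkf hm (hCx z hz.1), hv1 z hz.1]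
        exact hg.ap_inj (hf.fun.ap_mem (hCx z hz.1)) hw e)
      rw [mem_sep] at h2
      exact h2.2 rfl
    · refine ⟨ap g w, hg.fun.ap_mem hw, ?_⟩
      rw [ap_mkf hm (hg.fun.ap_mem hw), hv2 _ w hwC hw rfl]

theorem exists_choice (hAC : AC M) (a : M) :
    ∃ c : M, ∀ X, X ⊆ a → X ≠ emp → ap c X ∈ X := by
  obtain ⟨α, h, hα, hh⟩ := hAC a
  have hspec : ∀ X, X ⊆ a → X ≠ emp → ∃ x, x ∈ X ∧
      iota (fun x => x ∈ X ∧ ap h x = leastO (fun ξ => ∃ x, x ∈ X ∧ ap h x = ξ)) = x := by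
    intro X hX hne
    obtain ⟨z, hz⟩ := ne_emp_iff.1 hne
    obtain ⟨-, ⟨x, hx, ex⟩, -⟩ := leastO_spec (fun ξ => ∃ x, x ∈ X ∧ ap h x = ξ)
      ⟨ap h z, hα.mem (hh.fun.ap_mem (hX z hz)), z, hz, rfl⟩
    refine ⟨x, hx, ?_⟩
    apply iota_eq
    · exact ⟨hx, ex⟩
    · rintro x' ⟨hx', ex'⟩
      exact hh.ap_inj (hX x' hx') (hX x hx) (ex'.trans ex.symm)
  have hm : ∀ X, X ∈ sep (pow a) (fun X => X ≠ emp) →
      iota (fun x => x ∈ X ∧ ap h x = leastO (fun ξ => ∃ x, x ∈ X ∧ ap h x = ξ)) ∈ a := by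
    intro X hX
    rw [mem_sep, mem_pow] at hX
    obtain ⟨x, hx, e⟩ := hspec X hX.1 hX.2
    rw [e]
    exact hX.1 x hx
  refine ⟨mkf (sep (pow a) (fun X => X ≠ emp)) a (fun X => iota (fun x => x ∈ X ∧
    ap h x = leastO (fun ξ => ∃ x, x ∈ X ∧ ap h x = ξ))), ?_⟩
  intro X hX hne
  have hX' : X ∈ sep (pow a) (fun X => X ≠ emp) := by
    rw [mem_sep, mem_pow]
    exact ⟨hX, hne⟩
  rw [ap_mkf hm hX']
  obtain ⟨x, hx, e⟩ := hspec X hX hne
  rw [e]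
  exact hx

theorem exists_choice2 (hAC : AC M) (R : M → M → Prop) [D2 R] (a b : M)
    (h : ∀ x, x ∈ a → ∃ y, y ∈ b ∧ R x y) : ∃ c, Fun c a b ∧ ∀ x, x ∈ a → R x (ap c x) := by
  obtain ⟨c, hc⟩ := exists_choice hAC b
  have hv : ∀ x, x ∈ a → ap c (sep b (fun y => R x y)) ∈ sep b (fun y => R x y) := by
    intro x hx
    apply hc
    · intro y hy
      rw [mem_sep] at hy
      exact hy.1
    · rw [ne_emp_iff]
      obtain ⟨y, hy, hR⟩ := h x hx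
      exact ⟨y, by rw [mem_sep]; exact ⟨hy, hR⟩⟩
  have hm : ∀ x, x ∈ a → ap c (sep b (fun y => R x y)) ∈ b := by
    intro x hx
    have := hv x hx
    rw [mem_sep] at this
    exact this.1
  refine ⟨mkf a b (fun x => ap c (sep b (fun y => R x y))), mkf_fun hm, ?_⟩
  intro x hx
  rw [ap_mkf hm hx]
  have := hv x hx
  rw [mem_sep] at this
  exact this.2

end Pool.Agent.ZFIter.NPA.BSM.SP
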