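import Pool.Agent.BSP.FLst
import Pool.Agent.BSM.VSm
import Pool.Agent.NMB.IDefs

/-!
# BSP/PInac: small forcing preserves inaccessible cardinals
-/

universe u

namespace Pool.Agent.ZFIter.NPA.BSM.SP

open Pool.Agent.H78.ZF Pool.Agent.ZFIter Pool.Agent.ZFIter.NPA

variable {M : Type u} [ZFM M] {F : Fo M}

private theorem mem_name {τ x y : M} : opair (can F x) (can F y) ∈ F.val τ ↔
    ∃ p, F.G p ∧ FMem F.P F.R p (opnm F.P (chk F.P x) (chk F.P y)) τ := by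
  rw [mem_ext, ← Fo.E_val, val_opnm]
  rfl

private theorem mem_name1 {τ x : M} : can F x ∈ F.val τ ↔
    ∃ p, F.G p ∧ FMem F.P F.R p (chk F.P x) τ := by
  rw [mem_ext, ← Fo.E_val]
  rfl

/-- the value forced by `p` of the function with name `τ` at `ξ` -/
private noncomputable def fvl (P R τ κ ξ p : M) : M :=
  leastO (fun η => η ∈ κ ∧ FMem P R p (opnm P (chk P ξ) (chk P η)) τ)

private instance DF.fvl {ι : Type} (P R τ κ ξ p : (ι → M) → M) [DF P] [DF R] [DF τ] [DF κ] [DF ξ]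
    [DF p] : DF (fun v => fvl (P v) (R v) (τ v) (κ v) (ξ v) (p v)) := by
  unfold SP.fvl
  infer_instance

private theorem fvl_mem {P R τ κ ξ p : M} (hκ : Ord κ) (h0 : emp ∈ κ) : fvl P R τ κ ξ p ∈ κ := by
  by_cases h : ∃ η, η ∈ κ ∧ FMem P R p (opnm P (chk P ξ) (chk P η)) τ
  · obtain ⟨η, h1, h2⟩ := h
    exact (leastO_spec (fun η => η ∈ κ ∧ FMem P R p (opnm P (chk P ξ) (chk P η)) τ)
      ⟨η, hκ.mem h1, h1, h2⟩).2.1.1
  · have e : fvl P R τ κ ξ p = emp := by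
      unfold fvl leastO
      refine iota_neg ?_
      rintro ⟨η, ⟨_, h1, _⟩, _⟩
      exact h ⟨η, h1⟩
    rw [e]
    exact h0

/-- Small forcing preserves the regularity of `κ`. -/
theorem reg_ext {κ : M} (hκ : Inacc κ) (hs : Small κ F.P) {γ h : F.Ext} (hγ : γ ∈ can F κ)
    (hh : Fun h γ (can F κ)) : ∃ η, η ∈ can F κ ∧ ∀ ξ, ξ ∈ γ → ap h ξ ∈ η := by
  obtain ⟨γ, hγ', rfl⟩ := em_elim.1 hγ
  obtain ⟨τ, rfl⟩ := Fo.exists_val h
  have h0 : (emp : M) ∈ κ := hκ.1.trans emp_mem_omega hκ.2.1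
  obtain ⟨η, hη, h1⟩ := small_bdd hκ (small_prod hκ (small_mem hγ') hs)
    (fun w => fvl F.P F.R τ κ (fs w) (sn w)) (fun w _ => fvl_mem hκ.1 h0)
  refine ⟨can F η, em_mem.2 hη, fun ξ hξ => ?_⟩
  obtain ⟨ξ, hξ', rfl⟩ := em_elim.1 hξ
  obtain ⟨ζ, hζ, hζe⟩ := em_elim.1 (hh.ap_mem hξ)
  obtain ⟨p, hp, hA⟩ := mem_name.1 (show opair (can F ξ) (can F ζ) ∈ F.val τ by
    rw [← hζe]
    exact hh.opair_ap hξ)
  have h2 := h1 (opair ξ p) ((opair_mem_prod _ _ _ _).2 ⟨hξ', Fo.G_mem hp⟩)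
  rw [fs_opair, sn_opair] at h2
  obtain ⟨_, ⟨h3, h4⟩, _⟩ := leastO_spec
    (fun η => η ∈ κ ∧ FMem F.P F.R p (opnm F.P (chk F.P ξ) (chk F.P η)) τ)
    ⟨ζ, hκ.1.mem hζ, hζ, hA⟩
  have h5 : ap (F.val τ) (can F ξ) = can F (fvl F.P F.R τ κ ξ p) :=
    hh.ap_eq (mem_name.2 ⟨p, hp, h4⟩)
  rw [h5]
  exact em_mem.2 h2

/-- the subset of `γ` with the name `n` -/
private noncomputable def dcd (γ g n : M) : M := sep γ (fun ξ => ∃ p, p ∈ g ∧ opair ξ p ∈ n)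

private instance DF.dcd {ι : Type} (γ g n : (ι → M) → M) [DF γ] [DF g] [DF n] :
    DF (fun v => dcd (γ v) (g v) (n v)) := by
  unfold SP.dcd
  infer_instance

private theorem exists_code {γ : M} {x : F.Ext} (hx : x ⊆ can F γ) :
    ∃ n, n ∈ can F (pow (prod γ F.P)) ∧ dcd (can F γ) (gam F) n = x := by
  obtain ⟨τ, rfl⟩ := Fo.exists_val x
  refine ⟨can F (sep (prod γ F.P) (fun w => FMem F.P F.R (sn w) (chk F.P (fs w)) τ)), ?_, ?_⟩
  · refine em_mem.2 ?_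
    rw [mem_pow]
    exact fun z hz => ((mem_sep _ _ _).1 hz).1
  · refine ext fun z => ?_
    unfold dcd
    rw [mem_sep]
    constructor
    · rintro ⟨hz, p, hp, h⟩
      obtain ⟨ξ, hξ, rfl⟩ := em_elim.1 hz
      obtain ⟨q, hq, rfl⟩ := mem_gam.1 hp
      rw [em_opair_mem, mem_sep, fs_opair, sn_opair] at h
      exact mem_name1.2 ⟨q, hq, h.2⟩
    · intro hz
      have hz' := hx z hz
      obtain ⟨ξ, hξ, rfl⟩ := em_elim.1 hz'
      obtain ⟨p, hp, h⟩ := mem_name1.1 hz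
      refine ⟨hz', can F p, can_mem_gam.2 hp, ?_⟩
      rw [em_opair_mem, mem_sep, fs_opair, sn_opair, opair_mem_prod]
      exact ⟨⟨hξ, Fo.G_mem hp⟩, h⟩

/-- Small forcing: the power sets of the elements of `κ` stay small. -/
theorem pow_ext {κ : M} (hκ : Inacc κ) (hs : Small κ F.P) {γ : F.Ext} (hγ : γ ∈ can F κ) :
    ∃ δ f, δ ∈ can F κ ∧ Inj f (pow γ) δ := by
  obtain ⟨γ, hγ', rfl⟩ := em_elim.1 hγ
  obtain ⟨δ, e, hδ, he⟩ := small_pow hκ (small_prod hκ (small_mem hγ') hs)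
  have hδo : Ord (can F δ) := (em_Ord (i := can F)).2 (hκ.1.mem hδ)
  have he' : Inj (can F e) (can F (pow (prod γ F.P))) (can F δ) := (em_Inj (i := can F)).2 he
  have hsp : ∀ x, x ∈ pow (can F γ) →
      ∃ n, n ∈ can F (pow (prod γ F.P)) ∧
        leastO (fun β => ∃ n, n ∈ can F (pow (prod γ F.P)) ∧ β = ap (can F e) n ∧
          dcd (can F γ) (gam F) n = x) = ap (can F e) n ∧ dcd (can F γ) (gam F) n = x := by
    intro x hx
    rw [mem_pow] at hx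
    obtain ⟨n, hn, h1⟩ := exists_code hx
    exact (leastO_spec (fun β => ∃ n, n ∈ can F (pow (prod γ F.P)) ∧ β = ap (can F e) n ∧
          dcd (can F γ) (gam F) n = x) ⟨ap (can F e) n, hδo.mem (he'.fun.ap_mem hn), n, hn, rfl,
            h1⟩).2.1
  have hm : ∀ x, x ∈ pow (can F γ) →
      leastO (fun β => ∃ n, n ∈ can F (pow (prod γ F.P)) ∧ β = ap (can F e) n ∧
          dcd (can F γ) (gam F) n = x) ∈ can F δ := by
    intro x hx
    obtain ⟨n, hn, h1, _⟩ := hsp x hx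
    rw [h1]
    exact he'.fun.ap_mem hn
  refine ⟨can F δ, mkf (pow (can F γ)) (can F δ) (fun x =>
    leastO (fun β => ∃ n, n ∈ can F (pow (prod γ F.P)) ∧ β = ap (can F e) n ∧
          dcd (can F γ) (gam F) n = x)), em_mem.2 hδ, ?_⟩
  rw [inj_iff]
  refine ⟨mkf_fun hm, fun x y hx hy heq => ?_⟩
  rw [ap_mkf hm hx, ap_mkf hm hy] at heq
  obtain ⟨n, hn, h1, h2⟩ := hsp x hx
  obtain ⟨m, hm', h3, h4⟩ := hsp y hy
  rw [h1, h3] at heq
  rw [← h2, ← h4, he'.ap_inj hn hm' heq]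

/-- Small forcing preserves inaccessible cardinals. -/
theorem inacc_ext {κ : M} (hκ : Inacc κ) (hs : Small κ F.P) : Inacc (can F κ) := by
  refine ⟨(em_Ord (i := can F)).2 hκ.1, ?_, fun γ h hγ hh => reg_ext hκ hs hγ hh,
    fun γ hγ => pow_ext hκ hs hγ⟩
  rw [← em_omega (i := can F)]
  exact em_mem.2 hκ.2.1

end Pool.Agent.ZFIter.NPA.BSM.SP
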