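import Pool.Agent.BSP.KAbsI
import Pool.Agent.BSP.KAbs
import Pool.Agent.BSP.KNice
import Pool.Agent.BSP.DProd
import Pool.Agent.BSP.PInac
import Pool.Agent.BSP.FAc

/-!
# BSP/KSplit: absorption and splitting of Levy extensions

* `absorb`: `F2.P = Lev (can F1 κ) = can F1 (Lev κ)` (`em_Lev`), so `prod_mk` gives a frame on
  `prod F1.P (Lev κ)`, `Lev κ = LevI κ emp` (`levI_emp`), and `absI_to` with `μ = emp`.
* `lev_split`: `exists_mapS` and `de_pull` give a frame `F'` on `prod (Lev μ) (LevI κ μ)`; `prod_un` gives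
  `F1` on `Lev μ`, `F2` over `F1.Ext` on `can F1 (LevI κ μ) = LevI (can κ) (can μ)` (`em_LevI`). In `F1.Ext`:
  `ac_ext`, `inacc_ext` (`Lev μ` is small, `small_lev` of BSM/VSm or VCh), so `absI_of` with `P := Lev (can μ)`
  gives a frame on `prod (Lev (can μ)) (LevI (can κ) (can μ))` and `exists_mapS`, `de_push` in `F1.Ext` give a
  Levy collapse of `can κ` with the same extension. `F1.G x ↔ x ∈ Lev μ ∧ F.G x`: `F'.G (a, b)` iff
  `F.G (un a b)` (`de_pull`, `exists_mapS`) and `F1.G a` iff `∃ b, F'.G (a, b)`, upward closure.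
* `split_mem`: `nice_name` gives `α, t`; `μ0 := α`. For `μ ⊇ α`, `t ⊆ prod c (Lev μ)` (`lev_mono`).
  Let `x1 := F1.val t'`, `t' := {(chk n, r) : (n, r) ∈ t}`, so `x1 = {can F1 n : ∃ r, F1.G r ∧ (n, r) ∈ t}`
  (`mem_val'`). `e x` and `can F2 x1` have the same elements: the elements of `x` are `can F n`, `n ∈ c`, and
  `e (can F n) = can F2 (can F1 n)`.
-/

universe u

namespace Pool.Agent.ZFIter.NPA.BSM.SP

open Pool.Agent.H78.ZF Pool.Agent.ZFIter Pool.Agent.ZFIter.NPA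

variable {M : Type u} [ZFM M]

theorem absorb (hAC : AC M) {κ : M} (hκ : Inacc κ) (F1 : Fo M) (h1 : Small κ F1.P) (F2 : Fo F1.Ext)
    (h2 : IsLev F2 (can F1 κ)) :
    ∃ F3 : Fo M, IsLev F3 κ ∧ IsoOv (fun x => can F2 (can F1 x)) (can F3) := by
  have hP : F2.P = can F1 (Lev κ) := by rw [h2.1, em_Lev (i := can F1)]
  have hR : F2.R = can F1 (LevR κ) := by rw [h2.2, em_LevR (i := can F1)]
  obtain ⟨F, hFP, hFR, _, hiso⟩ := prod_mk F1 F2 (pre_lev (κ := κ)) hP hR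
  obtain ⟨e1, e2⟩ := levI_emp κ
  have h0 : (emp : M) ∈ κ := hκ.1.trans emp_mem_omega hκ.2.1
  obtain ⟨F', hP', hR', hiso'⟩ := absI_to hAC hκ h0 F1.pre h1 F (by rw [hFP, e1])
    (by rw [hFR, e1, e2])
  exact ⟨F', ⟨by rw [hP', e1], by rw [hR', e2]⟩, hiso.trans hiso'⟩

theorem lev_split [Countable M] (hAC : AC M) {κ : M} (hκ : Inacc κ) (F : Fo M) (hF : IsLev F κ)
    {μ : M} (hμ : μ ∈ κ) : ∃ (F1 : Fo M) (F2 : Fo F1.Ext), IsLev F1 μ ∧
      (∀ x, F1.G x ↔ x ∈ Lev μ ∧ F.G x) ∧ IsLev F2 (can F1 κ) ∧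
      ∃ e : F.Ext ≃ F2.Ext, (∀ x y, e x ∈ e y ↔ x ∈ y) ∧ ∀ x, e (can F x) = can F2 (can F1 x) := by
  obtain ⟨d, hd, hdv⟩ := exists_mapS hκ.1 hμ
  have hd' : DE (prod (Lev μ) (LevI κ μ)) (prR (Lev μ) (LevR μ) (LevI κ μ) (LevIR κ μ)) F.P F.R d := by
    rw [hF.1, hF.2]
    exact hd
  obtain ⟨F', hP', hR', hG', hiso1⟩ := de_pull F
    (pre_prR (pre_lev (κ := μ)) (pre_LevI (κ := κ) (μ := μ))) hd'
  obtain ⟨F1, F2', h1P, h1R, h2P, h2R, hG1, hiso2⟩ := prod_un F' (pre_lev (κ := μ))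
    (pre_LevI (κ := κ) (μ := μ)) hP' hR'
  have hsm : Small κ F1.P := by rw [h1P]; exact small_lev hκ hμ
  have hAC' : AC F1.Ext := ac_ext hAC
  have hκ' : Inacc (can F1 κ) := inacc_ext hκ hsm
  have hμ' : can F1 μ ∈ can F1 κ := em_mem.2 hμ
  have hne : Lev (can F1 μ) ≠ emp := ne_emp_iff.2 ⟨emp, emp_lev⟩
  obtain ⟨F3, h3P, h3R, hiso3⟩ := absI_of hAC' hκ' hμ' (pre_lev (κ := can F1 μ))
    (small_lev hκ' hμ') hne F2' (by rw [h2P, em_LevI (i := can F1)])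
    (by rw [h2R, em_LevIR (i := can F1)])
  obtain ⟨d2, hd2, _⟩ := exists_mapS hκ'.1 hμ'
  obtain ⟨F2, h4P, h4R, _, hiso4⟩ := de_push F3 (pre_lev (κ := can F1 κ)) (d := d2)
    (by rw [h3P, h3R]; exact hd2)
  refine ⟨F1, F2, ⟨h1P, h1R⟩, ?_, ⟨h4P, h4R⟩, ?_⟩
  · intro x
    constructor
    · intro hx
      have hxL : x ∈ Lev μ := by rw [← h1P]; exact Fo.G_mem hx
      refine ⟨hxL, ?_⟩
      obtain ⟨z, hz⟩ := F2'.gen.ne
      have hz' : z ∈ can F1 (LevI κ μ) := by rw [← h2P]; exact Fo.G_mem hz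
      obtain ⟨b, hb, rfl⟩ := em_elim.1 hz'
      have h5 := ((hG' _).1 ((hG1 x b).2 ⟨hx, hz⟩)).2
      rw [hdv x b hxL hb] at h5
      refine F.gen.up _ _ h5 ?_
      rw [hF.1, hF.2, le_lev]
      refine ⟨?_, lev_mono (hκ.1.1 μ hμ) x hxL, sub_un_left x b⟩
      rw [← hF.1]
      exact Fo.G_mem h5
    · rintro ⟨hx, hFx⟩
      have hb : (emp : M) ∈ LevI κ μ := by
        rw [mem_LevI]
        exact ⟨emp_lev, fun α n ξ h => absurd h (not_mem_emp _)⟩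
      refine ((hG1 x emp).1 ((hG' _).2 ⟨?_, ?_⟩)).1
      · exact (opair_mem_prod _ _ _ _).2 ⟨hx, hb⟩
      · rw [hdv x emp hx hb]
        have : un x emp = x := by
          refine ext fun w => ?_
          rw [mem_un]
          exact ⟨fun h => h.elim id fun h => absurd h (not_mem_emp _), Or.inl⟩
        rw [this]
        exact hFx
  · exact (hiso1.trans hiso2).trans ((hiso3.trans hiso4).comp (can F1))

theorem split_mem {κ : M} (hκ : Inacc κ) (F : Fo M) (hF : IsLev F κ) {c : M} (hc : Small κ c)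
    {x : F.Ext} (hx : x ⊆ can F c) : ∃ μ0, μ0 ∈ κ ∧ ∀ μ, μ0 ⊆ μ → μ ∈ κ →
      ∀ (F1 : Fo M) (F2 : Fo F1.Ext) (e : F.Ext ≃ F2.Ext), IsLev F1 μ →
        (∀ x, F1.G x ↔ x ∈ Lev μ ∧ F.G x) → (∀ x y, e x ∈ e y ↔ x ∈ y) →
        (∀ x, e (can F x) = can F2 (can F1 x)) → ∃ x1 : F1.Ext, e x = can F2 x1 := by
  obtain ⟨α, t, hα, ht, hn⟩ := nice_name hκ hF hc hx
  refine ⟨α, hα, fun μ hαμ hμ F1 F2 e hF1 hG he hcan => ?_⟩
  have hmem : ∀ w, w ∈ F1.val (img t (fun w => opair (chk F1.P (fs w)) (sn w))) ↔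
      ∃ n r, opair n r ∈ t ∧ F1.G r ∧ w = can F1 n := by
    intro w
    rw [mem_val']
    constructor
    · rintro ⟨z, s, hz, hs, rfl⟩
      rw [mem_img] at hz
      obtain ⟨w, hw, e1⟩ := hz
      obtain ⟨rfl, rfl⟩ := opair_inj e1
      obtain ⟨n, _, r, _, rfl⟩ := (mem_prod _ _ _).1 (ht w hw)
      rw [fs_opair, sn_opair] at *
      exact ⟨n, r, hw, hs, rfl⟩
    · rintro ⟨n, r, h1, h2, rfl⟩
      refine ⟨chk F1.P n, r, ?_, h2, rfl⟩
      rw [mem_img]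
      exact ⟨opair n r, h1, by rw [fs_opair, sn_opair]⟩
  refine ⟨F1.val (img t (fun w => opair (chk F1.P (fs w)) (sn w))), ext fun v => ?_⟩
  rw [em_elim (i := can F2)]
  constructor
  · intro hv
    obtain ⟨u, rfl⟩ := e.surjective v
    rw [he] at hv
    obtain ⟨n, hnc, rfl⟩ := em_elim.1 (hx u hv)
    obtain ⟨r, hr, hnr⟩ := (hn n hnc).1 hv
    refine ⟨can F1 n, (hmem _).2 ⟨n, r, hnr, (hG r).2 ⟨?_, hr⟩, rfl⟩, hcan n⟩
    exact lev_mono hαμ r ((opair_mem_prod _ _ _ _).1 (ht _ hnr)).2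
  · rintro ⟨u, hu, rfl⟩
    obtain ⟨n, r, hnr, hr, rfl⟩ := (hmem _).1 hu
    rw [← hcan, he]
    exact (hn n ((opair_mem_prod _ _ _ _).1 (ht _ hnr)).1).2 ⟨r, ((hG r).1 hr).2, hnr⟩

end Pool.Agent.ZFIter.NPA.BSM.SP
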