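import Pool.Agent.BSP.PNr

/-!
# BSP/PSel: the generic filter of the infinite subsets of omega is a selective ultrafilter
-/

universe u

namespace Pool.Agent.ZFIter.NPA.BSM.SP

open Pool.Agent.H78.ZF Pool.Agent.ZFIter Pool.Agent.ZFIter.NPA

variable {M : Type u} [ZFM M]

/-! ### Infinite sets -/

private theorem not_unb {X : M} (hX : X ⊆ omega) (h : ¬ Unb X) :
    ∃ N, N ∈ (omega : M) ∧ ∀ k, k ∈ X → k ∈ N := by
  unfold Unb at h
  push Not at h
  obtain ⟨N, hN, h1⟩ := h hX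
  exact ⟨N, hN, fun k hk => (le_or_lt hN (hX k hk)).resolve_left (h1 k hk)⟩

/-- One of two parts of an infinite set is infinite. -/
private theorem split {X Y : M} (hY : Unb Y) :
    Unb (sep Y (fun k => k ∈ X)) ∨ Unb (sep Y (fun k => k ∉ X)) := by
  by_contra hcon
  push Not at hcon
  obtain ⟨h1, h2⟩ := hcon
  obtain ⟨N, hN, h3⟩ := not_unb (fun k hk => hY.1 k ((mem_sep _ _ _).1 hk).1) h1
  obtain ⟨N', hN', h4⟩ := not_unb (fun k hk => hY.1 k ((mem_sep _ _ _).1 hk).1) h2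
  obtain ⟨k, hk, hkn⟩ := hY.2 (un N N') (un_omega hN hN')
  by_cases hkX : k ∈ X
  · exact not_mem_self k (hkn k (by
      rw [mem_un]
      exact Or.inl (h3 k ((mem_sep _ _ _).2 ⟨hk, hkX⟩))))
  · exact not_mem_self k (hkn k (by
      rw [mem_un]
      exact Or.inr (h4 k ((mem_sep _ _ _).2 ⟨hk, hkX⟩))))

/-- Every function on `omega` is constant or injective on an infinite subset of a given infinite
set. -/
private theorem ramsey1 {g p : M} (hp : Unb p) : ∃ q, Unb q ∧ q ⊆ p ∧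
    ((∃ n, ∀ k, k ∈ q → ap g k = n) ∨
      ∀ j k, j ∈ q → k ∈ q → ap g j = ap g k → j = k) := by
  by_cases h : ∃ n, Unb (sep p (fun k => ap g k = n))
  · obtain ⟨n, hn⟩ := h
    exact ⟨_, hn, fun k hk => ((mem_sep _ _ _).1 hk).1, Or.inl ⟨n, fun k hk =>
      ((mem_sep _ _ _).1 hk).2⟩⟩
  · push Not at h
    refine ⟨sep p (fun k => ∀ j, j ∈ p → j ∈ k → ap g j ≠ ap g k), ?_,
      fun k hk => ((mem_sep _ _ _).1 hk).1, Or.inr ?_⟩
    · by_contra hcon
      obtain ⟨N, hN, h1⟩ := not_unb (fun k hk => hp.1 k ((mem_sep _ _ _).1 hk).1) hcon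
      obtain ⟨B, hB, h2⟩ := fin_bounded (fun z k => k ∈ p ∧ ap g k = ap g z) (nat_fin hN)
        (fun z _ => by
          obtain ⟨b, hb, h3⟩ := not_unb (fun k hk => hp.1 k ((mem_sep _ _ _).1 hk).1) (h (ap g z))
          exact ⟨b, hb, fun k _ hk => h3 k ((mem_sep _ _ _).2 hk)⟩)
      obtain ⟨k, hk, hBk⟩ := hp.2 B hB
      have hko := hp.1 k hk
      obtain ⟨j, hjo, ⟨hj1, hj2⟩, hmin⟩ := exists_least (fun j => j ∈ p ∧ ap g j = ap g k)
        ⟨k, hko, hk, rfl⟩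
      have hjN : j ∈ N := h1 j ((mem_sep _ _ _).2 ⟨hj1, fun i hi hij e =>
        hmin i hij ⟨hi, e.trans hj2⟩⟩)
      exact not_mem_self k (hBk k (h2 j hjN k hko ⟨hk, hj2.symm⟩))
    · intro j k hj hk e
      rw [mem_sep] at hj hk
      rcases trichotomy (hp.1 j hj.1) (hp.1 k hk.1) with h1 | h1 | h1
      · exact absurd e (hk.2 j hj.1 h1)
      · exact h1
      · exact absurd e.symm (hj.2 k hk.1 h1)

/-! ### The generic filter -/

variable {F : Fo M}

section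

variable (hP : F.P = IS) (hR : F.R = ISR)

include hP in
theorem is_unb {X : M} (hX : F.G X) : Unb X := by
  have := Fo.G_mem hX
  rw [hP] at this
  exact mem_IS.1 this

include hP hR

theorem is_scl : Scl F.P F.R := by
  rw [hP, hR]
  exact scl_IS

theorem is_up {X Y : M} (hX : F.G X) (h : X ⊆ Y) (hY : Y ⊆ omega) : F.G Y := by
  have hXU := is_unb hP hX
  refine F.gen.up X Y hX ?_
  rw [hP, hR, le_IS]
  refine ⟨hXU, ⟨hY, fun n hn => ?_⟩, h⟩
  obtain ⟨k, hk, h1⟩ := hXU.2 n hn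
  exact ⟨k, h k hk, h1⟩

theorem is_dir {X Y : M} (hX : F.G X) (hY : F.G Y) : ∃ Z, F.G Z ∧ Z ⊆ X ∧ Z ⊆ Y := by
  obtain ⟨Z, hZ, h1, h2⟩ := F.gen.dir X Y hX hY
  rw [hP, hR] at h1 h2
  exact ⟨Z, hZ, (le_IS.1 h1).2.2, (le_IS.1 h2).2.2⟩

theorem is_meet (A : M → Prop) [D1 A] (h : ∀ X, Unb X → ∃ Y, Unb Y ∧ Y ⊆ X ∧ A Y) :
    ∃ Y, F.G Y ∧ A Y := by
  refine Fo.meet A fun p hp => ?_
  rw [hP, mem_IS] at hp
  obtain ⟨Y, h1, h2, h3⟩ := h p hp
  refine ⟨Y, ?_, h3⟩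
  rw [hP, hR, le_IS]
  exact ⟨h1, hp, h2⟩

omit hP hR in
private theorem gam_elim {A : F.Ext} (h : A ∈ gam F) : ∃ X, F.G X ∧ A = can F X := mem_gam.1 h

omit hP hR in
private theorem can_sep (X : M) (P : M → Prop) [D1 P] (Q : F.Ext → Prop) [D1 Q]
    (h : ∀ k, k ∈ X → (P k ↔ Q (can F k))) : can F (sep X P) = sep (can F X) Q := by
  refine ext fun z => ?_
  rw [mem_em_sep, mem_sep, em_elim]
  constructor
  · rintro ⟨y, hy, hPy, rfl⟩
    exact ⟨⟨y, hy, rfl⟩, (h y hy).1 hPy⟩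
  · rintro ⟨⟨y, hy, rfl⟩, hQ⟩
    exact ⟨y, hy, (h y hy).2 hQ, rfl⟩

omit hP hR in
private theorem can_om : can F (omega : M) = omega := em_omega (i := can F)

theorem uf_gam (hAC : AC M) : Uf (gam F) := by
  refine ⟨?_, ?_, ?_, ?_, ?_, ?_⟩
  · intro A hA
    obtain ⟨X, hX, rfl⟩ := gam_elim hA
    rw [← can_om, em_sub]
    exact (is_unb hP hX).1
  · obtain ⟨X, hX⟩ := F.gen.ne
    rw [← can_om]
    exact can_mem_gam.2 (is_up hP hR hX (is_unb hP hX).1 (sub_refl _))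
  · intro h
    obtain ⟨X, hX, e⟩ := gam_elim h
    rw [← em_emp (i := can F)] at e
    rw [← em_inj e] at hX
    obtain ⟨k, hk, _⟩ := (is_unb hP hX).2 emp emp_mem_omega
    exact not_mem_emp k hk
  · intro A B hA hB
    obtain ⟨X, hX, rfl⟩ := gam_elim hA
    obtain ⟨Y, hY, rfl⟩ := gam_elim hB
    rw [← can_sep X (fun k => k ∈ Y) (fun k => k ∈ can F Y) (fun k _ => em_mem.symm), can_mem_gam]
    obtain ⟨Z, hZ, h1, h2⟩ := is_dir hP hR hX hY
    exact is_up hP hR hZ (fun k hk => (mem_sep _ _ _).2 ⟨h1 k hk, h2 k hk⟩)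
      (fun k hk => (is_unb hP hX).1 k ((mem_sep _ _ _).1 hk).1)
  · intro A B hA hAB hB
    obtain ⟨X, hX, rfl⟩ := gam_elim hA
    obtain ⟨Y, hY, rfl⟩ := noreal hAC (is_scl hP hR) hB
    rw [em_sub] at hAB
    exact can_mem_gam.2 (is_up hP hR hX hAB hY)
  · intro A hA
    obtain ⟨X, hX, rfl⟩ := noreal hAC (is_scl hP hR) hA
    obtain ⟨Y, hY, h1⟩ := is_meet hP hR (fun Y => Y ⊆ X ∨ ∀ k, k ∈ Y → k ∉ X) (fun p hp => by
      rcases split (X := X) hp with h | h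
      · exact ⟨_, h, fun k hk => ((mem_sep _ _ _).1 hk).1, Or.inl fun k hk =>
          ((mem_sep _ _ _).1 hk).2⟩
      · exact ⟨_, h, fun k hk => ((mem_sep _ _ _).1 hk).1, Or.inr fun k hk =>
          ((mem_sep _ _ _).1 hk).2⟩)
    rcases h1 with h1 | h1
    · exact Or.inl (can_mem_gam.2 (is_up hP hR hY h1 hX))
    · right
      have e : sep (omega : F.Ext) (fun k => k ∉ can F X) = can F (sep omega (fun k => k ∉ X)) := by
        rw [can_sep omega (fun k => k ∉ X) (fun k => k ∉ can F X) (fun k _ => not_congr em_mem.symm),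
          can_om]
      rw [e]
      exact can_mem_gam.2 (is_up hP hR hY (fun k hk => (mem_sep _ _ _).2
        ⟨(is_unb hP hY).1 k hk, h1 k hk⟩) (fun k hk => ((mem_sep _ _ _).1 hk).1))

omit hR in
theorem nonpr_gam : Nonpr (gam F) := by
  intro n hn h
  obtain ⟨X, hX, e⟩ := gam_elim h
  rw [← can_om] at hn
  obtain ⟨m, hm, rfl⟩ := em_elim.1 hn
  rw [← em_sing (i := can F)] at e
  rw [← em_inj e] at hX
  obtain ⟨k, hk, h1⟩ := (is_unb hP hX).exists_gt hm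
  rw [mem_sing] at hk
  rw [hk] at h1
  exact not_mem_self m h1

theorem sel_gam (hAC : AC M) : Selective (gam F) := by
  refine ⟨uf_gam hP hR hAC, nonpr_gam hP, fun f hf => ?_⟩
  obtain ⟨g, hg, rfl⟩ := nors hAC (is_scl hP hR) hf
  obtain ⟨Y, hY, h1⟩ := is_meet hP hR (fun q => (∃ n, ∀ k, k ∈ q → ap g k = n) ∨
      ∀ j k, j ∈ q → k ∈ q → ap g j = ap g k → j = k) (fun p hp => ramsey1 hp)
  have hYU := is_unb hP hY
  rcases h1 with ⟨n, h1⟩ | h1
  · left
    obtain ⟨k0, hk0, _⟩ := hYU.2 emp emp_mem_omega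
    have hn : n ∈ (omega : M) := by
      rw [← h1 k0 hk0]
      exact (mem_RS.1 hg).ap_mem (hYU.1 k0 hk0)
    refine ⟨can F n, ?_, ?_⟩
    · rw [← can_om]
      exact em_mem.2 hn
    · have e : sep (omega : F.Ext) (fun k => ap (can F g) k = can F n) =
          can F (sep omega (fun k => ap g k = n)) := by
        rw [can_sep omega (fun k => ap g k = n) (fun k => ap (can F g) k = can F n) (fun k _ => by
          rw [← em_ap (i := can F), em_eq]), can_om]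
      rw [e]
      exact can_mem_gam.2 (is_up hP hR hY (fun k hk => (mem_sep _ _ _).2
        ⟨hYU.1 k hk, h1 k hk⟩) (fun k hk => ((mem_sep _ _ _).1 hk).1))
  · right
    refine ⟨can F Y, can_mem_gam.2 hY, fun j k hj hk e => ?_⟩
    obtain ⟨j', hj', rfl⟩ := em_elim.1 hj
    obtain ⟨k', hk', rfl⟩ := em_elim.1 hk
    rw [← em_ap (i := can F), ← em_ap (i := can F), em_eq] at e
    rw [h1 j' k' hj' hk' e]

end

end Pool.Agent.ZFIter.NPA.BSM.SP
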