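import Pool.Agent.BSP.KAbs
import Pool.Agent.BSP.PSel
import Pool.Agent.BLI.NW
import Pool.Agent.BSM.WGen
import Pool.Agent.BSP.FAc

/-!
# BSP/KTr: trees of finite sets and their branches are absolute; two-colourings of branches

`nw`: in a countable model with choice, for a tree `T`, an infinite `z`, a function `f` on the branches of `T`
and a set `A` there is an infinite `x ⊆ z` such that all branches `s ⊆ x` have `f(s) ∈ A`, or none has.
Proof: force with the infinite sets below `z`; the generic filter is a selective ultrafilter (`sel_gam`),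
apply `BLI.nw_sel` in the extension; there are no new sets of numbers (`noreal`).
-/

universe u v

namespace Pool.Agent.ZFIter.NPA.BSM.SP

open Pool.Agent.H78.ZF Pool.Agent.ZFIter Pool.Agent.ZFIter.NPA

section

variable {M : Type u} [ZFM M] {N : Type v} [ZFM N] {i : M → N} [hi : TEm i]

theorem em_fsw : i (BLI.fsw : M) = BLI.fsw := by
  refine ext fun s => ?_
  rw [em_elim, BLI.mem_fsw]
  constructor
  · rintro ⟨s', hs', rfl⟩
    rw [BLI.mem_fsw] at hs'
    rw [← em_omega (i := i), em_sub, em_fin]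
    exact hs'
  · rintro ⟨h1, h2⟩
    rw [← em_omega (i := i)] at h1
    obtain ⟨s', h3, h4, rfl⟩ := fin_sub_em h2 h1
    exact ⟨s', BLI.mem_fsw.2 ⟨h4, h3⟩, rfl⟩

theorem em_Ini {s T : M} : BLI.Ini (i s) (i T) ↔ BLI.Ini s T := by
  unfold BLI.Ini
  rw [em_sub]
  refine and_congr_right fun _ => ⟨fun h k hk hks j hj => ?_, fun h k hk hks j hj => ?_⟩
  · exact em_mem.1 (h (i k) (em_mem.2 hk) (fun h' => hks (em_mem.1 h')) (i j) (em_mem.2 hj))
  · obtain ⟨k', hk', rfl⟩ := em_elim.1 hk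
    obtain ⟨j', hj', rfl⟩ := em_elim.1 hj
    exact em_mem.2 (h k' hk' (fun h' => hks (em_mem.2 h')) j' hj')

private theorem em_above {s n : M} : (∀ k, k ∈ i s → k ∈ i n) ↔ ∀ k, k ∈ s → k ∈ n :=
  em_sub (i := i)

private theorem em_nat {n : N} : n ∈ (omega : N) ↔ ∃ m, m ∈ (omega : M) ∧ n = i m := by
  rw [← em_omega (i := i), em_elim]

theorem em_Tr {T : M} : BLI.Tr (i T) ↔ BLI.Tr T := by
  unfold BLI.Tr
  rw [← em_fsw (i := i), em_sub, ← em_emp (i := i), em_mem]
  refine and_congr_right fun h1 => and_congr_right fun _ => and_congr ?_ ?_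
  · constructor
    · intro h s s' hs hI
      exact em_mem.1 (h (i s) (i s') (em_mem.2 hs) (em_Ini.2 hI))
    · intro h s s' hs hI
      obtain ⟨t, ht, rfl⟩ := em_elim.1 hs
      have hfin : FinM s' := fin_sub (em_fin.2 (BLI.mem_fsw.1 (h1 t ht)).2) hI.1
      obtain ⟨t', _, _, rfl⟩ := fin_sub_em hfin hI.1
      exact em_mem.2 (h t t' ht (em_Ini.1 hI))
  · constructor
    · intro h s m n hs hm hn h2 h3 h4
      have := h (i s) (i m) (i n) (em_mem.2 hs) (em_nat.2 ⟨m, hm, rfl⟩) (em_nat.2 ⟨n, hn, rfl⟩)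
        (em_above.2 h2) (em_above.2 h3) (by rw [← em_ins]; exact em_mem.2 h4)
      rw [← em_ins] at this
      exact em_mem.1 this
    · intro h s m n hs hm hn h2 h3 h4
      obtain ⟨s, hs', rfl⟩ := em_elim.1 hs
      obtain ⟨m, hm', rfl⟩ := (em_nat (i := i)).1 hm
      obtain ⟨n, hn', rfl⟩ := (em_nat (i := i)).1 hn
      rw [← em_ins] at h4 ⊢
      exact em_mem.2 (h s m n hs' hm' hn' (em_above.1 h2) (em_above.1 h3) (em_mem.1 h4))

theorem em_Br (T : M) : i (BLI.Br T) = BLI.Br (i T) := by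
  refine ext fun s => ?_
  rw [em_elim, BLI.mem_Br]
  constructor
  · rintro ⟨s, hs, rfl⟩
    rw [BLI.mem_Br] at hs
    refine ⟨em_mem.2 hs.1, fun n hn h h' => ?_⟩
    obtain ⟨n, hn', rfl⟩ := (em_nat (i := i)).1 hn
    rw [← em_ins] at h'
    exact hs.2 n hn' (em_above.1 h) (em_mem.1 h')
  · rintro ⟨h1, h2⟩
    obtain ⟨s, hs, rfl⟩ := em_elim.1 h1
    refine ⟨s, BLI.mem_Br.2 ⟨hs, fun n hn h h' => ?_⟩, rfl⟩
    refine h2 (i n) (em_nat.2 ⟨n, hn, rfl⟩) (em_above.2 h) ?_
    rw [← em_ins]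
    exact em_mem.2 h'

theorem em_Rkd {T r θ : M} : BLI.Rkd (i T) (i r) (i θ) ↔ BLI.Rkd T r θ := by
  unfold BLI.Rkd
  rw [em_Ord]
  refine and_congr_right fun _ => and_congr ?_ ?_
  · constructor
    · intro h s hs
      have := h (i s) (em_mem.2 hs)
      rw [← em_ap] at this
      exact em_mem.1 this
    · intro h s hs
      obtain ⟨s, hs', rfl⟩ := em_elim.1 hs
      rw [← em_ap]
      exact em_mem.2 (h s hs')
  · constructor
    · intro h s n hs hn h2 h3
      have := h (i s) (i n) (em_mem.2 hs) (em_nat.2 ⟨n, hn, rfl⟩) (em_above.2 h2)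
        (by rw [← em_ins]; exact em_mem.2 h3)
      rw [← em_ins, ← em_ap, ← em_ap] at this
      exact em_mem.1 this
    · intro h s n hs hn h2 h3
      obtain ⟨s, hs', rfl⟩ := em_elim.1 hs
      obtain ⟨n, hn', rfl⟩ := (em_nat (i := i)).1 hn
      rw [← em_ins] at h3 ⊢
      rw [← em_ap, ← em_ap]
      exact em_mem.2 (h s n hs' hn' (em_above.1 h2) (em_mem.1 h3))

end

/-- Two-colourings of the branches of a tree, below an infinite set. -/
theorem nw {M : Type u} [ZFM M] [Countable M] (hAC : AC M) {T f A z : M} (hT : BLI.Tr T)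
    (hz : InfS z) : ∃ x, InfS x ∧ x ⊆ z ∧ ((∀ s, s ∈ BLI.Br T → s ⊆ x → ap f s ∈ A) ∨
      ∀ s, s ∈ BLI.Br T → s ⊆ x → ap f s ∉ A) := by
  obtain ⟨G, hG, hGz⟩ := exists_gen (IS : M) ISR z (mem_IS.2 hz)
  obtain ⟨F, hF⟩ : ∃ F : Fo M, F = Fo.mk IS ISR G pre_IS hG := ⟨_, rfl⟩
  have hP : F.P = IS := by rw [hF]
  have hR : F.R = ISR := by rw [hF]
  have hFz : F.G z := by rw [hF]; exact hGz
  have hsel : Selective (gam F) := sel_gam hP hR hAC
  obtain ⟨x', hx', hxz, h⟩ := BLI.nw_sel (ac_ext hAC) (f := can F f) (A := can F A) hsel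
    ((em_Tr (i := can F)).2 hT) (can_mem_gam.2 hFz)
  obtain ⟨x, hx, rfl⟩ := mem_gam.1 hx'
  rw [em_sub] at hxz
  refine ⟨x, is_unb hP hx, hxz, ?_⟩
  rw [← em_Br (i := can F)] at h
  rcases h with h | h
  · left
    intro s hs hsx
    have := h (can F s) (em_mem.2 hs) (em_sub.2 hsx)
    rw [← em_ap (i := can F)] at this
    exact em_mem.1 this
  · right
    intro s hs hsx hA
    refine h (can F s) (em_mem.2 hs) (em_sub.2 hsx) ?_
    rw [← em_ap (i := can F)]
    exact em_mem.2 hA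

end Pool.Agent.ZFIter.NPA.BSM.SP
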