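import Pool.Agent.BSP.KMac
import Pool.Agent.BSP.KNu

/-!
# BSP/KTree: the tree lemma

`Sq ν` is the set of the finite sequences of elements of `ν` (functions on some `n ∈ omega`). Let `(P, R)` have a
greatest element `one` and let `j` be an injection of `P` in the infinite ordinal `ν`, and let `ν × ν` inject
into `ν`. Then there are functions `E1 : Sq ν → P`, `E2 : Sq ν → Sq ν` such that `s ↦ (E1 s, E2 s)` is a
dense embedding in `P × Sq ν` (`T1`-`T4` below).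

PROOF. For `p ∈ P`, `ξ ∈ ν` let `D(p, ξ) := {r ∈ P : r ≤ p, and for all p' ∈ P with j(p') = ξ: r ≤ p' or r, p'
incompatible}`; it is dense below `p` (at most one `p'`; if `r ≤ p` is compatible with `p'` take a common
extension). By `exists_mac` and `exists_choice2` (codomain `pow P`, domain `prod P ν`) there is `A` with
`ap A (opair p ξ)` a maximal antichain in `D(p, ξ)`: pairwise incompatible, subset of `D(p, ξ)`, and every
`r ≤ p` is compatible with one of its elements; in particular it is not empty.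
`S(p) := {(ξ, r) : ξ ∈ ν, r ∈ A(p, ξ)}` is a subset of `ν × P`, which injects into `ν × ν` and so into `ν`, and `ν`
injects into `S(p)` (choose `r` for each `ξ`); by `bij_of_inj` and `exists_choice2` there is `B` such that
`ap B p` is a bijection of `ν` and `S(p)` for all `p ∈ P`.
`E1, E2`: for `s ∈ Sq ν` iterate (`recc`) `st ↦ step s st` on triples `st = (k, (p, c))`, from `(∅, (one, ∅))`:
`b := ap (ap B p) (ap s k)`, `step := (succ k, (sn b, ins c (opair k (fs b))))`; for `dom s = n` let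
`(n, (E1 s, E2 s))` be the `n`-th value. Then (`succ_induction` on `k ≤ n`): the `k`-th value is `(k, (p, c))` with
`p ∈ P`, `Fun c k ν`, it depends only on the restriction of `s` to `k`, `p` decreases and `c` increases.
So with `s⌢η := ins s (opair n η)`: `E1 (s⌢η) = sn b`, `E2 (s⌢η) = ins (E2 s) (opair n (fs b))`,
`b = ap (ap B (E1 s)) η ∈ S(E1 s)`.
T3: let `E1 s, E1 t` be compatible and `E2 s, E2 t` compatible as functions, `dom s ⊆ dom t`. By induction on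
`k`, `s(k) = t(k)` for `k ∈ dom s`: let `u` be the common restriction to `k`, `p = E1 u`, `(ξ, r)`, `(ξ', r')` the
values of `B_p` at `s(k)`, `t(k)`. Then `ξ = E2 s (k) = E2 t (k) = ξ'`, `E1 s ≤ r`, `E1 t ≤ r'`, so `r, r'` are
compatible elements of `A(p, ξ)`, `r = r'`, and `s(k) = t(k)` as `B_p` is injective.
T4: let `p ∈ P`, `c ∈ Sq ν`, `dom c = n`. By induction on `k ≤ n` there is `s`, `dom s = k`, `E2 s ⊆ c`, `E1 s`
compatible with `p`: (`k = 0`: `one`.) Step: let `q ≤ E1 s, p`; some `r ∈ A(E1 s, c(k))` is compatible with `q`;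
`s⌢η` with `B(η) = (c(k), r)`. For `k = n`: `E2 s = c`, let `p' ≤ E1 s, p`, `ξ := j(p')`, `r ∈ A(E1 s, ξ)` compatible
with `p'`; `r ∈ D(E1 s, ξ)` so `r ≤ p'`. `s⌢η` with `B(η) = (ξ, r)` has `E1 ≤ p' ≤ p` and `E2 ⊇ c`.
-/

universe u

namespace Pool.Agent.ZFIter.NPA.BSM.SP

open Pool.Agent.H78.ZF Pool.Agent.ZFIter Pool.Agent.ZFIter.NPA

variable {M : Type u} [ZFM M] {ι : Type}

/-- The finite sequences of elements of `ν`. -/
noncomputable def Sq (ν : M) : M := sep (pow (prod omega ν)) (fun s => ∃ n, n ∈ (omega : M) ∧ Fun s n ν)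

instance DF.Sq (ν : (ι → M) → M) [DF ν] : DF (fun v => Sq (ν v)) := by
  unfold SP.Sq
  infer_instance

theorem mem_Sq {ν s : M} : s ∈ Sq ν ↔ s ⊆ prod omega ν ∧ ∃ n, n ∈ (omega : M) ∧ Fun s n ν := by
  unfold Sq
  rw [mem_sep, mem_pow]

/-- The data of the tree lemma. -/
structure TreeMap (P R ν E1 E2 : M) : Prop where
  f1 : Fun E1 (Sq ν) P
  f2 : Fun E2 (Sq ν) (Sq ν)
  mono : ∀ s t, s ∈ Sq ν → t ∈ Sq ν → s ⊆ t → Le P R (ap E1 t) (ap E1 s) ∧ ap E2 s ⊆ ap E2 t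
  comp : ∀ s t, s ∈ Sq ν → t ∈ Sq ν → Cmt P R (ap E1 s) (ap E1 t) →
    (ap E2 s ⊆ ap E2 t ∨ ap E2 t ⊆ ap E2 s) → s ⊆ t ∨ t ⊆ s
  dense : ∀ p c, p ∈ P → c ∈ Sq ν → ∃ s, s ∈ Sq ν ∧ Le P R (ap E1 s) p ∧ c ⊆ ap E2 s

/-! ### The recursion -/

/-- the step of the recursion -/
noncomputable def ktStep (B s st : M) : M :=
  opair (succ (fs st)) (opair (sn (ap (ap B (fs (sn st))) (ap s (fs st))))
    (ins (sn (sn st)) (opair (fs st) (fs (ap (ap B (fs (sn st))) (ap s (fs st)))))))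

instance DF.ktStep (B s st : (ι → M) → M) [DF B] [DF s] [DF st] :
    DF (fun v => ktStep (B v) (s v) (st v)) := by
  unfold SP.ktStep
  infer_instance

/-- the states -/
noncomputable def ktG (B o s k : M) : M :=
  recc (fun x => ktStep B s x) (opair emp (opair o emp)) k

instance DF.ktG (B o s k : (ι → M) → M) [DF B] [DF o] [DF s] [DF k] :
    DF (fun v => ktG (B v) (o v) (s v) (k v)) := by
  unfold SP.ktG
  infer_instance

/-- the first component -/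
noncomputable def ktP (B o s k : M) : M := fs (sn (ktG B o s k))

instance DF.ktP (B o s k : (ι → M) → M) [DF B] [DF o] [DF s] [DF k] :
    DF (fun v => ktP (B v) (o v) (s v) (k v)) := by
  unfold SP.ktP
  infer_instance

/-- the second component -/
noncomputable def ktC (B o s k : M) : M := sn (sn (ktG B o s k))

instance DF.ktC (B o s k : (ι → M) → M) [DF B] [DF o] [DF s] [DF k] :
    DF (fun v => ktC (B v) (o v) (s v) (k v)) := by
  unfold SP.ktC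
  infer_instance

/-- the domain -/
noncomputable def ktD (s : M) : M := sep omega (fun k => ∃ y, opair k y ∈ s)

instance DF.ktD (s : (ι → M) → M) [DF s] : DF (fun v => ktD (s v)) := by
  unfold SP.ktD
  infer_instance

section

variable {B o s t k n ν : M}

theorem ktG_fs (hk : k ∈ (omega : M)) : fs (ktG B o s k) = k := by
  apply omega_induction (fun k => fs (ktG B o s k) = k) _ _ k hk
  · unfold ktG
    rw [recc_zero, fs_opair]
  · intro k hk ih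
    have e : ktG B o s (succ k) = ktStep B s (ktG B o s k) := by
      unfold ktG
      rw [recc_succ hk]
    rw [e]
    unfold ktStep
    rw [fs_opair, ih]

theorem ktP_zero : ktP B o s emp = o := by
  unfold ktP ktG
  rw [recc_zero, sn_opair, fs_opair]

theorem ktC_zero : ktC B o s emp = emp := by
  unfold ktC ktG
  rw [recc_zero, sn_opair, sn_opair]

theorem ktP_succ (hk : k ∈ (omega : M)) :
    ktP B o s (succ k) = sn (ap (ap B (ktP B o s k)) (ap s k)) := by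
  have e : ktG B o s (succ k) = ktStep B s (ktG B o s k) := by
    unfold ktG
    rw [recc_succ hk]
  unfold ktP
  rw [e]
  unfold ktStep
  rw [sn_opair, fs_opair, ktG_fs hk]

theorem ktC_succ (hk : k ∈ (omega : M)) :
    ktC B o s (succ k) = ins (ktC B o s k) (opair k (fs (ap (ap B (ktP B o s k)) (ap s k)))) := by
  have e : ktG B o s (succ k) = ktStep B s (ktG B o s k) := by
    unfold ktG
    rw [recc_succ hk]
  unfold ktC ktP
  rw [e]
  unfold ktStep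
  rw [sn_opair, sn_opair, ktG_fs hk]

theorem kt_agree (hk : k ∈ (omega : M)) (h : ∀ i, i ∈ k → ap s i = ap t i) :
    ktP B o s k = ktP B o t k ∧ ktC B o s k = ktC B o t k := by
  apply omega_induction (fun k => (∀ i, i ∈ k → ap s i = ap t i) →
    ktP B o s k = ktP B o t k ∧ ktC B o s k = ktC B o t k) _ _ k hk h
  · intro _
    rw [ktP_zero, ktP_zero, ktC_zero, ktC_zero]
    exact ⟨rfl, rfl⟩
  · intro k hk ih h
    obtain ⟨h1, h2⟩ := ih (fun i hi => h i (by rw [mem_succ]; exact Or.inl hi))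
    have h3 := h k (by simp)
    rw [ktP_succ hk, ktP_succ hk, ktC_succ hk, ktC_succ hk, h1, h2, h3]
    exact ⟨rfl, rfl⟩

theorem kt_dom (hn : n ∈ (omega : M)) (hs : Fun s n ν) : ktD s = n := by
  apply Pool.Agent.H78.ZF.ext
  intro z
  unfold ktD
  rw [mem_sep]
  constructor
  · rintro ⟨_, y, hy⟩
    exact (hs.mem_of_opair hy).1
  · intro hz
    exact ⟨mem_omega_of_mem hz hn, ap s z, hs.opair_ap hz⟩

theorem kt_mem_Sq (hn : n ∈ (omega : M)) (hs : Fun s n ν) : s ∈ Sq ν := by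
  rw [mem_Sq]
  refine ⟨fun z hz => ?_, n, hn, hs⟩
  obtain ⟨x, hx, y, hy, rfl⟩ := hs.1 z hz
  rw [opair_mem_prod]
  exact ⟨mem_omega_of_mem hx hn, hy⟩

theorem kt_fun_ins {c ξ : M} (hc : Fun c k ν) (hξ : ξ ∈ ν) :
    Fun (ins c (opair k ξ)) (succ k) ν := by
  constructor
  · intro p hp
    rw [mem_ins] at hp
    rcases hp with hp | rfl
    · obtain ⟨x, hx, y, hy, rfl⟩ := hc.1 p hp
      exact ⟨x, by rw [mem_succ]; exact Or.inl hx, y, hy, rfl⟩
    · exact ⟨k, by simp, ξ, hξ, rfl⟩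
  · intro x hx
    rw [mem_succ] at hx
    rcases hx with hx | rfl
    · refine ⟨ap c x, ?_, fun y hy => ?_⟩
      · show opair x (ap c x) ∈ _
        rw [mem_ins]
        exact Or.inl (hc.opair_ap hx)
      · replace hy := (mem_ins _ _ _).1 hy
        rcases hy with hy | hy
        · exact (hc.ap_eq hy).symm
        · exfalso
          rw [(opair_inj hy).1] at hx
          exact not_mem_self _ hx
    · refine ⟨ξ, ?_, fun y hy => ?_⟩
      · show opair x ξ ∈ _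
        rw [mem_ins]
        exact Or.inr rfl
      · replace hy := (mem_ins _ _ _).1 hy
        rcases hy with hy | hy
        · exact absurd (hc.mem_of_opair hy).1 (not_mem_self _)
        · exact (opair_inj hy).2

theorem kt_ap_ins {c ξ : M} (hc : Fun c k ν) (hξ : ξ ∈ ν) : ap (ins c (opair k ξ)) k = ξ :=
  (kt_fun_ins hc hξ).ap_eq (by rw [mem_ins]; exact Or.inr rfl)

theorem kt_ap_ins' {c ξ i : M} (hc : Fun c k ν) (hξ : ξ ∈ ν) (hi : i ∈ k) :
    ap (ins c (opair k ξ)) i = ap c i :=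
  (kt_fun_ins hc hξ).ap_eq (by rw [mem_ins]; exact Or.inl (hc.opair_ap hi))

end

theorem kt_cmt_symm {P R x y : M} (h : Cmt P R x y) : Cmt P R y x := by
  obtain ⟨z, h1, h2⟩ := h
  exact ⟨z, h2, h1⟩

/-- The data of the construction. -/
structure KtH (P R j ν A B : M) : Prop where
  a1 : ∀ p ξ r, p ∈ P → ξ ∈ ν → r ∈ ap A (opair p ξ) → Le P R r p ∧
    ∀ p', p' ∈ P → ap j p' = ξ → Le P R r p' ∨ ¬ Cmt P R r p'
  a2 : ∀ p ξ r r', p ∈ P → ξ ∈ ν → r ∈ ap A (opair p ξ) → r' ∈ ap A (opair p ξ) →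
    Cmt P R r r' → r = r'
  a3 : ∀ p ξ r, p ∈ P → ξ ∈ ν → Le P R r p → ∃ r', r' ∈ ap A (opair p ξ) ∧ Cmt P R r r'
  b1 : ∀ p η, p ∈ P → η ∈ ν → ∃ ξ r, ap (ap B p) η = opair ξ r ∧ ξ ∈ ν ∧ r ∈ ap A (opair p ξ)
  b2 : ∀ p η η', p ∈ P → η ∈ ν → η' ∈ ν → ap (ap B p) η = ap (ap B p) η' → η = η'
  b3 : ∀ p ξ r, p ∈ P → ξ ∈ ν → r ∈ ap A (opair p ξ) → ∃ η, η ∈ ν ∧ ap (ap B p) η = opair ξ r

/-- `y` is a maximal antichain of the set `D(p, ξ)`, `x = (p, ξ)`. -/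
def ktQ (P R j x y : M) : Prop := ∀ p ξ, x = opair p ξ →
  (∀ r, r ∈ y → Le P R r p ∧ ∀ p', p' ∈ P → ap j p' = ξ → Le P R r p' ∨ ¬ Cmt P R r p') ∧
  (∀ r r', r ∈ y → r' ∈ y → Cmt P R r r' → r = r') ∧
  (∀ r, Le P R r p → ∃ r', r' ∈ y ∧ Cmt P R r r')

instance DR.ktQ (P R j x y : (ι → M) → M) [DF P] [DF R] [DF j] [DF x] [DF y] :
    DR (fun v => ktQ (P v) (R v) (j v) (x v) (y v)) := by
  unfold SP.ktQ
  infer_instance

/-- The set of the pairs `(ξ, r)`, `r ∈ A(p, ξ)`. -/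
noncomputable def ktS (P ν A p : M) : M :=
  sep (prod ν P) (fun w => sn w ∈ ap A (opair p (fs w)))

instance DF.ktS (P ν A p : (ι → M) → M) [DF P] [DF ν] [DF A] [DF p] :
    DF (fun v => ktS (P v) (ν v) (A v) (p v)) := by
  unfold SP.ktS
  infer_instance

theorem mem_ktS {P ν A p ξ r : M} : opair ξ r ∈ ktS P ν A p ↔
    ξ ∈ ν ∧ r ∈ P ∧ r ∈ ap A (opair p ξ) := by
  unfold ktS
  rw [mem_sep, opair_mem_prod, fs_opair, sn_opair, and_assoc]

theorem mem_ktS' {P ν A p w : M} (h : w ∈ ktS P ν A p) : ∃ ξ r, w = opair ξ r ∧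
    ξ ∈ ν ∧ r ∈ P ∧ r ∈ ap A (opair p ξ) := by
  have h1 := h
  unfold ktS at h1
  rw [mem_sep, mem_prod] at h1
  obtain ⟨⟨ξ, _, r, _, rfl⟩, _⟩ := h1
  exact ⟨ξ, r, rfl, mem_ktS.1 h⟩

theorem exists_ktA (hAC : AC M) {P R j ν : M} (hP : Pre P R) (hν : Ord ν) (hj : Inj j P ν) :
    ∃ A, ∀ p ξ, p ∈ P → ξ ∈ ν → ktQ P R j (opair p ξ) (ap A (opair p ξ)) := by
  obtain ⟨A, hA1, hA2⟩ := exists_choice2 hAC (fun x y => ktQ P R j x y) (prod P ν) (pow P) (by
    intro x hx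
    obtain ⟨p, hp, ξ, hξ, rfl⟩ := (mem_prod _ _ _).1 hx
    have hD : ∀ r, r ∈ sep P (fun r => Le P R r p ∧ ∀ p', p' ∈ P → ap j p' = ξ →
        Le P R r p' ∨ ¬ Cmt P R r p') ↔ r ∈ P ∧ Le P R r p ∧ ∀ p', p' ∈ P → ap j p' = ξ →
        Le P R r p' ∨ ¬ Cmt P R r p' := fun r => mem_sep _ _ _
    obtain ⟨y, hy1, hy2, hy3⟩ := exists_mac hP hν hj (D := sep P (fun r => Le P R r p ∧
        ∀ p', p' ∈ P → ap j p' = ξ → Le P R r p' ∨ ¬ Cmt P R r p')) (fun r hr => ((hD r).1 hr).1)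
    refine ⟨y, ?_, ?_⟩
    · rw [mem_pow]
      exact fun r hr => ((hD r).1 (hy1 r hr)).1
    · intro p0 ξ0 e
      obtain ⟨rfl, rfl⟩ := opair_inj e
      refine ⟨fun r hr => ((hD r).1 (hy1 r hr)).2, hy2, fun r hr => ?_⟩
      by_cases hc : ∃ p', p' ∈ P ∧ ap j p' = ξ ∧ Cmt P R r p'
      · obtain ⟨p', hp', e', r0, hr0, hr0'⟩ := hc
        obtain ⟨r', h1, z, h2, h3⟩ := hy3 r0 ((hD r0).2 ⟨hr0.memL, hP.trans hr0 hr,
          fun p'' hp'' e'' => Or.inl (by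
            rw [hj.ap_inj hp'' hp' (e''.trans e'.symm)]
            exact hr0')⟩)
        exact ⟨r', h1, z, hP.trans h2 hr0, h3⟩
      · obtain ⟨r', h1, h2⟩ := hy3 r ((hD r).2 ⟨hr.memL, hr,
          fun p'' hp'' e'' => Or.inr (fun h => hc ⟨p'', hp'', e'', h⟩)⟩)
        exact ⟨r', h1, h2⟩)
  exact ⟨A, fun p ξ hp hξ => hA2 _ (by rw [opair_mem_prod]; exact ⟨hp, hξ⟩)⟩

theorem exists_ktH (hAC : AC M) {P R j ν : M} (hP : Pre P R) (hν : Ord ν) (hj : Inj j P ν)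
    (hν2 : ∃ f, Inj f (prod ν ν) ν) : ∃ A B, KtH P R j ν A B := by
  obtain ⟨A, hA⟩ := exists_ktA hAC hP hν hj
  obtain ⟨f2, hf2⟩ := hν2
  have a1 : ∀ p ξ r, p ∈ P → ξ ∈ ν → r ∈ ap A (opair p ξ) → Le P R r p ∧
      ∀ p', p' ∈ P → ap j p' = ξ → Le P R r p' ∨ ¬ Cmt P R r p' :=
    fun p ξ r hp hξ hr => (hA p ξ hp hξ p ξ rfl).1 r hr
  have a2 : ∀ p ξ r r', p ∈ P → ξ ∈ ν → r ∈ ap A (opair p ξ) → r' ∈ ap A (opair p ξ) →
      Cmt P R r r' → r = r' :=
    fun p ξ r r' hp hξ hr hr' => (hA p ξ hp hξ p ξ rfl).2.1 r r' hr hr'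
  have a3 : ∀ p ξ r, p ∈ P → ξ ∈ ν → Le P R r p → ∃ r', r' ∈ ap A (opair p ξ) ∧ Cmt P R r r' :=
    fun p ξ r hp hξ hr => (hA p ξ hp hξ p ξ rfl).2.2 r hr
  obtain ⟨B, hB1, hB2⟩ := exists_choice2 hAC (fun p y => Bij y ν (ktS P ν A p)) P
    (pow (prod ν (prod ν P))) (by
    intro p hp
    obtain ⟨c, hc1, hc2⟩ := exists_choice2 hAC (fun ξ r => r ∈ ap A (opair p ξ)) ν P (by
      intro ξ hξ
      obtain ⟨r', h1, -⟩ := a3 p ξ p hp hξ (hP.refl hp)
      exact ⟨r', (a1 p ξ r' hp hξ h1).1.memL, h1⟩)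
    have m1 : ∀ ξ, ξ ∈ ν → opair ξ (ap c ξ) ∈ ktS P ν A p := fun ξ hξ =>
      mem_ktS.2 ⟨hξ, hc1.ap_mem hξ, hc2 ξ hξ⟩
    have i1 : Inj (mkf ν (ktS P ν A p) (fun ξ => opair ξ (ap c ξ))) ν (ktS P ν A p) := by
      rw [inj_iff]
      refine ⟨mkf_fun m1, fun x x' hx hx' e => ?_⟩
      rw [ap_mkf m1 hx, ap_mkf m1 hx'] at e
      exact (opair_inj e).1
    have m2 : ∀ w, w ∈ ktS P ν A p → ap f2 (opair (fs w) (ap j (sn w))) ∈ ν := by
      intro w hw
      obtain ⟨ξ, r, rfl, h1, h2, -⟩ := mem_ktS' hw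
      rw [fs_opair, sn_opair]
      apply hf2.fun.ap_mem
      rw [opair_mem_prod]
      exact ⟨h1, hj.fun.ap_mem h2⟩
    have i2 : Inj (mkf (ktS P ν A p) ν (fun w => ap f2 (opair (fs w) (ap j (sn w)))))
        (ktS P ν A p) ν := by
      rw [inj_iff]
      refine ⟨mkf_fun m2, fun x x' hx hx' e => ?_⟩
      rw [ap_mkf m2 hx, ap_mkf m2 hx'] at e
      obtain ⟨ξ, r, rfl, h1, h2, -⟩ := mem_ktS' hx
      obtain ⟨ξ', r', rfl, h1', h2', -⟩ := mem_ktS' hx'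
      rw [fs_opair, sn_opair, fs_opair, sn_opair] at e
      have e2 := hf2.ap_inj (by rw [opair_mem_prod]; exact ⟨h1, hj.fun.ap_mem h2⟩)
        (by rw [opair_mem_prod]; exact ⟨h1', hj.fun.ap_mem h2'⟩) e
      obtain ⟨e3, e4⟩ := opair_inj e2
      rw [e3, hj.ap_inj h2 h2' e4]
    obtain ⟨b, hb⟩ := bij_of_inj i1 i2
    refine ⟨b, ?_, hb⟩
    rw [mem_pow]
    intro z hz
    obtain ⟨x, hx, y, hy, rfl⟩ := hb.fun.1 z hz
    obtain ⟨ξ, r, rfl, h1, h2, -⟩ := mem_ktS' hy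
    rw [opair_mem_prod, opair_mem_prod]
    exact ⟨hx, h1, h2⟩)
  refine ⟨A, B, a1, a2, a3, ?_, ?_, ?_⟩
  · intro p η hp hη
    obtain ⟨ξ, r, e, h1, -, h2⟩ := mem_ktS' ((hB2 p hp).fun.ap_mem hη)
    exact ⟨ξ, r, e, h1, h2⟩
  · intro p η η' hp hη hη' e
    exact (hB2 p hp).inj.ap_inj hη hη' e
  · intro p ξ r hp hξ hr
    obtain ⟨η, hη, e⟩ := (bij_iff.1 (hB2 p hp)).2.2 (opair ξ r)
      (mem_ktS.2 ⟨hξ, (a1 p ξ r hp hξ hr).1.memL, hr⟩)
    exact ⟨η, hη, e⟩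

section

variable {P R j ν A B o : M} (H : KtH P R j ν A B) (hP : Pre P R) (ho : o ∈ P)

include H ho

theorem KtH.inv {s n : M} (hn : n ∈ (omega : M)) (hs : Fun s n ν) :
    ∀ k, k ∈ (omega : M) → k ⊆ n → ktP B o s k ∈ P ∧ Fun (ktC B o s k) k ν := by
  apply omega_induction (fun k => k ⊆ n → ktP B o s k ∈ P ∧ Fun (ktC B o s k) k ν)
  · intro _
    rw [ktP_zero, ktC_zero]
    exact ⟨ho, fun p hp => absurd hp (not_mem_emp p), fun x hx => absurd hx (not_mem_emp x)⟩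
  · intro k hk ih hkn
    have hk' := (succ_le_iff hn).1 hkn
    obtain ⟨h1, h2⟩ := ih (omega_trans hn k hk')
    obtain ⟨ξ, r, e, h3, h4⟩ := H.b1 _ _ h1 (hs.ap_mem hk')
    rw [ktP_succ hk, ktC_succ hk, e, fs_opair, sn_opair]
    exact ⟨(H.a1 _ ξ r h1 h3 h4).1.memL, kt_fun_ins h2 h3⟩

include hP

theorem KtH.mono {s n : M} (hn : n ∈ (omega : M)) (hs : Fun s n ν) {k : M}
    (hk : k ∈ (omega : M)) : ∀ l, l ∈ (omega : M) → k ⊆ l → l ⊆ n →
    Le P R (ktP B o s l) (ktP B o s k) ∧ ktC B o s k ⊆ ktC B o s l := by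
  apply omega_induction (fun l => k ⊆ l → l ⊆ n →
    Le P R (ktP B o s l) (ktP B o s k) ∧ ktC B o s k ⊆ ktC B o s l)
  · intro hkl hln
    have e : k = emp := eq_emp fun z hz => not_mem_emp z (hkl z hz)
    rw [e]
    exact ⟨hP.refl (H.inv ho hn hs _ emp_mem_omega hln).1, sub_refl _⟩
  · intro l hl ih hkl hln
    have hl' := (succ_le_iff hn).1 hln
    have hln' := omega_trans hn l hl'
    rcases (le_iff hk (succ_mem_omega hl)).1 hkl with h | h
    · obtain ⟨h1, h2⟩ := ih ((lt_succ_iff hk hl).1 h) hln'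
      obtain ⟨h3, h4⟩ := H.inv ho hn hs l hl hln'
      obtain ⟨ξ, r, e, h5, h6⟩ := H.b1 _ _ h3 (hs.ap_mem hl')
      rw [ktP_succ hl, ktC_succ hl, e, fs_opair, sn_opair]
      refine ⟨hP.trans (H.a1 _ ξ r h3 h5 h6).1 h1, fun z hz => ?_⟩
      rw [mem_ins]
      exact Or.inl (h2 z hz)
    · rw [h]
      exact ⟨hP.refl (H.inv ho hn hs _ (succ_mem_omega hl) hln).1, sub_refl _⟩

theorem KtH.comp {s t n m : M} (hn : n ∈ (omega : M)) (hs : Fun s n ν) (hm : m ∈ (omega : M))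
    (ht : Fun t m ν) (hc : Cmt P R (ktP B o s n) (ktP B o t m))
    (hsub : ktC B o s n ⊆ ktC B o t m) : s ⊆ t := by
  obtain ⟨i1, i2⟩ := H.inv ho hn hs n hn (sub_refl n)
  obtain ⟨i3, i4⟩ := H.inv ho hm ht m hm (sub_refl m)
  have hnm : n ⊆ m := fun z hz => (i4.mem_of_opair (hsub _ (i2.opair_ap hz))).1
  have key : ∀ k, k ∈ (omega : M) → k ⊆ n → ∀ i, i ∈ k → ap s i = ap t i := by
    apply omega_induction (fun k => k ⊆ n → ∀ i, i ∈ k → ap s i = ap t i)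
    · intro _ i hi
      exact absurd hi (not_mem_emp i)
    · intro k hk ih hkn i hi
      have hk' := (succ_le_iff hn).1 hkn
      have hkn' := omega_trans hn k hk'
      have ih' := ih hkn'
      rw [mem_succ] at hi
      rcases hi with hi | rfl
      · exact ih' i hi
      · have hkm := hnm _ hk'
        have hkm' := omega_trans hm _ hkm
        obtain ⟨e1, e2⟩ := kt_agree (B := B) (o := o) hk ih'
        obtain ⟨h1, h2⟩ := H.inv ho hn hs _ hk hkn'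
        obtain ⟨ξ, r, e, h5, h6⟩ := H.b1 _ _ h1 (hs.ap_mem hk')
        obtain ⟨ξ', r', e', h5', h6'⟩ := H.b1 _ _ h1 (ht.ap_mem hkm)
        have g1 := H.mono hP ho hn hs (succ_mem_omega hk) n hn hkn (sub_refl n)
        have g2 := H.mono hP ho hm ht (succ_mem_omega hk) m hm ((succ_le_iff hm).2 hkm)
          (sub_refl m)
        rw [ktP_succ hk, ktC_succ hk, e, fs_opair, sn_opair] at g1
        rw [ktP_succ hk, ktC_succ hk, ← e1, e', fs_opair, sn_opair] at g2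
        have g3 : opair i ξ ∈ ktC B o t m := hsub _ (g1.2 _ (by rw [mem_ins]; exact Or.inr rfl))
        have g4 : opair i ξ' ∈ ktC B o t m := g2.2 _ (by rw [mem_ins]; exact Or.inr rfl)
        have g5 : ξ = ξ' := by rw [← i4.ap_eq g3, ← i4.ap_eq g4]
        rw [← g5] at h6' e'
        obtain ⟨z, hz1, hz2⟩ := hc
        have g6 := H.a2 _ ξ r r' h1 h5 h6 h6' ⟨z, hP.trans hz1 g1.1, hP.trans hz2 g2.1⟩
        rw [← g6] at e'
        exact H.b2 _ _ _ h1 (hs.ap_mem hk') (ht.ap_mem hkm) (e.trans e'.symm)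
  intro z hz
  obtain ⟨x, hx, y, hy, rfl⟩ := hs.1 z hz
  rw [← hs.ap_eq hz, key n hn (sub_refl n) x hx]
  exact ht.opair_ap (hnm x hx)

/-- extension of a sequence by one element -/
theorem KtH.ext1 {s k ξ r : M} (hk : k ∈ (omega : M)) (hs : Fun s k ν) (hξ : ξ ∈ ν)
    (hr : r ∈ ap A (opair (ktP B o s k) ξ)) : ∃ s', Fun s' (succ k) ν ∧
    ktP B o s' (succ k) = r ∧ ktC B o s' (succ k) = ins (ktC B o s k) (opair k ξ) := by
  obtain ⟨η, hη, e⟩ := H.b3 _ ξ r (H.inv ho hk hs k hk (sub_refl k)).1 hξ hr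
  obtain ⟨e1, e2⟩ := kt_agree (B := B) (o := o) (s := ins s (opair k η)) (t := s) hk
    (fun i hi => kt_ap_ins' hs hη hi)
  refine ⟨ins s (opair k η), kt_fun_ins hs hη, ?_, ?_⟩
  · rw [ktP_succ hk, e1, kt_ap_ins hs hη, e, sn_opair]
  · rw [ktC_succ hk, e1, e2, kt_ap_ins hs hη, e, fs_opair]

theorem KtH.dense (hj : Inj j P ν) (htop : ∀ x, x ∈ P → Le P R x o) {p c n : M}
    (hp : p ∈ P) (hn : n ∈ (omega : M)) (hc : Fun c n ν) :
    ∃ s, Fun s (succ n) ν ∧ Le P R (ktP B o s (succ n)) p ∧ c ⊆ ktC B o s (succ n) := by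
  have key : ∀ k, k ∈ (omega : M) → k ⊆ n → ∃ s, Fun s k ν ∧ ktC B o s k ⊆ c ∧
      Cmt P R (ktP B o s k) p := by
    apply omega_induction (fun k => k ⊆ n → ∃ s, Fun s k ν ∧ ktC B o s k ⊆ c ∧
      Cmt P R (ktP B o s k) p)
    · intro _
      refine ⟨emp, ⟨fun p hp => absurd hp (not_mem_emp p), fun x hx => absurd hx (not_mem_emp x)⟩,
        ?_, ?_⟩
      · rw [ktC_zero]
        exact emp_sub _
      · rw [ktP_zero]
        exact ⟨p, htop p hp, hP.refl hp⟩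
    · intro k hk ih hkn
      have hk' := (succ_le_iff hn).1 hkn
      obtain ⟨s, hs, h1, q, hq1, hq2⟩ := ih (omega_trans hn k hk')
      have hp1 := (H.inv ho hk hs k hk (sub_refl k)).1
      obtain ⟨r, hr, z, hz1, hz2⟩ := H.a3 _ (ap c k) q hp1 (hc.ap_mem hk') hq1
      obtain ⟨s', hs', e1, e2⟩ := H.ext1 hP ho hk hs (hc.ap_mem hk') hr
      refine ⟨s', hs', ?_, ?_⟩
      · rw [e2]
        intro w hw
        rw [mem_ins] at hw
        rcases hw with hw | rfl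
        · exact h1 w hw
        · exact hc.opair_ap hk'
      · rw [e1]
        exact ⟨z, hz2, hP.trans hz1 hq2⟩
  obtain ⟨s, hs, h1, p', hp1, hp2⟩ := key n hn (sub_refl n)
  have i1 := (H.inv ho hn hs n hn (sub_refl n))
  have hξ : ap j p' ∈ ν := hj.fun.ap_mem hp1.memL
  obtain ⟨r, hr, hcr⟩ := H.a3 _ (ap j p') p' i1.1 hξ hp1
  have h2 : Le P R r p' := ((H.a1 _ _ r i1.1 hξ hr).2 p' hp1.memL rfl).resolve_right
    (fun h => h (kt_cmt_symm hcr))
  obtain ⟨s', hs', e1, e2⟩ := H.ext1 hP ho hn hs hξ hr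
  refine ⟨s', hs', ?_, ?_⟩
  · rw [e1]
    exact hP.trans h2 hp2
  · rw [e2]
    intro w hw
    rw [mem_ins]
    left
    obtain ⟨x, hx, y, hy, rfl⟩ := hc.1 w hw
    have h3 := h1 _ (i1.2.opair_ap hx)
    rw [← hc.ap_eq hw, hc.ap_eq h3]
    exact i1.2.opair_ap hx

end

theorem exists_tree (hAC : AC M) {P R j ν one : M} (hP : Pre P R) (h1 : one ∈ P)
    (htop : ∀ x, x ∈ P → Le P R x one) (hν : Ord ν) (h0 : omega ∈ ν) (hj : Inj j P ν)
    (hν2 : ∃ f, Inj f (prod ν ν) ν) : ∃ E1 E2, TreeMap P R ν E1 E2 := by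
  obtain ⟨A, B, H⟩ := exists_ktH hAC hP hν hj hν2
  have m1 : ∀ s, s ∈ Sq ν → ktP B one s (ktD s) ∈ P := by
    intro s hs
    obtain ⟨-, n, hn, hf⟩ := mem_Sq.1 hs
    rw [kt_dom hn hf]
    exact (H.inv h1 hn hf n hn (sub_refl n)).1
  have m2 : ∀ s, s ∈ Sq ν → ktC B one s (ktD s) ∈ Sq ν := by
    intro s hs
    obtain ⟨-, n, hn, hf⟩ := mem_Sq.1 hs
    rw [kt_dom hn hf]
    exact kt_mem_Sq hn (H.inv h1 hn hf n hn (sub_refl n)).2
  have e1 : ∀ s n, n ∈ (omega : M) → Fun s n ν →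
      ap (mkf (Sq ν) P (fun s => ktP B one s (ktD s))) s = ktP B one s n := by
    intro s n hn hf
    rw [ap_mkf m1 (kt_mem_Sq hn hf), kt_dom hn hf]
  have e2 : ∀ s n, n ∈ (omega : M) → Fun s n ν →
      ap (mkf (Sq ν) (Sq ν) (fun s => ktC B one s (ktD s))) s = ktC B one s n := by
    intro s n hn hf
    rw [ap_mkf m2 (kt_mem_Sq hn hf), kt_dom hn hf]
  refine ⟨mkf (Sq ν) P (fun s => ktP B one s (ktD s)),
    mkf (Sq ν) (Sq ν) (fun s => ktC B one s (ktD s)), mkf_fun m1, mkf_fun m2, ?_, ?_, ?_⟩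
  · intro s t hs ht hst
    obtain ⟨-, n, hn, hf⟩ := mem_Sq.1 hs
    obtain ⟨-, m, hm, hg⟩ := mem_Sq.1 ht
    rw [e1 s n hn hf, e1 t m hm hg, e2 s n hn hf, e2 t m hm hg]
    have hnm : n ⊆ m := fun z hz => (hg.mem_of_opair (hst _ (hf.opair_ap hz))).1
    obtain ⟨g1, g2⟩ := kt_agree (B := B) (o := one) hn
      (fun i hi => (hg.ap_eq (hst _ (hf.opair_ap hi))).symm)
    rw [g1, g2]
    exact H.mono hP h1 hm hg hn m hm hnm (sub_refl m)
  · intro s t hs ht hc hor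
    obtain ⟨-, n, hn, hf⟩ := mem_Sq.1 hs
    obtain ⟨-, m, hm, hg⟩ := mem_Sq.1 ht
    rw [e1 s n hn hf, e1 t m hm hg] at hc
    rw [e2 s n hn hf, e2 t m hm hg] at hor
    rcases hor with hor | hor
    · exact Or.inl (H.comp hP h1 hn hf hm hg hc hor)
    · exact Or.inr (H.comp hP h1 hm hg hn hf (kt_cmt_symm hc) hor)
  · intro p c hp hc
    obtain ⟨-, n, hn, hf⟩ := mem_Sq.1 hc
    obtain ⟨s, hs, g1, g2⟩ := H.dense hP h1 hj htop hp hn hf
    refine ⟨s, kt_mem_Sq (succ_mem_omega hn) hs, ?_, ?_⟩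
    · rw [e1 s _ (succ_mem_omega hn) hs]
      exact g1
    · rw [e2 s _ (succ_mem_omega hn) hs]
      exact g2

end Pool.Agent.ZFIter.NPA.BSM.SP
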