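import Pool.Agent.BSP.TDefs
import Pool.Agent.NPA.ACh

/-!
# BSP/PNr: forcing with the infinite subsets of omega adds no new sequences

`Scl P R`: descending sequences of conditions have a lower bound in the separative quotient. Then a
generic extension has no new functions from `omega` to elements of the ground model (`noseq`), and no
new reals (`noreal`, `nors`). `IS` is the set of all infinite subsets of `omega`, ordered by inclusion
(`ISR`); it has the property `Scl` (`scl_IS`).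
-/

universe u

namespace Pool.Agent.ZFIter.NPA.BSM.SP

open Pool.Agent.H78.ZF Pool.Agent.ZFIter Pool.Agent.ZFIter.NPA

section

variable {M : Type u} [ZFM M] {ι : Type}

/-- Descending sequences of conditions have a lower bound, in the separative quotient. -/
def Scl (P R : M) : Prop :=
  ∀ s, Fun s omega P → (∀ n, n ∈ (omega : M) → Le P R (ap s (succ n)) (ap s n)) →
    ∃ q, q ∈ P ∧ ∀ n, n ∈ (omega : M) → ∀ r, Le P R r q → ∃ r', Le P R r' r ∧ Le P R r' (ap s n)

theorem scl_meet (hAC : AC M) {P R : M} [Pre P R] (hcl : Scl P R) (A : M → M → M → Prop) [D3 A]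
    (a : M) (hmono : ∀ n y p q, A n y p → Le P R q p → A n y q)
    (hden : ∀ n y p, (∀ q, Le P R q p → ∃ r, Le P R r q ∧ A n y r) → A n y p) {p : M} (hp : p ∈ P)
    (h : ∀ n, n ∈ (omega : M) → ∀ q, Le P R q p → ∃ r, Le P R r q ∧ ∃ y, y ∈ a ∧ A n y r) :
    ∃ q, Le P R q p ∧ ∃ g, Fun g omega a ∧ ∀ n, n ∈ (omega : M) → A n (ap g n) q := by
  have hX : ∀ x, x ∈ sep P (fun q => Le P R q p) ↔ Le P R x p := fun x => by
    rw [mem_sep]
    exact ⟨fun h => h.2, fun h => ⟨h.memL, h⟩⟩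
  have hD : D3 (fun n x y : M => Le P R y x ∧ ∃ u, u ∈ a ∧ A n u y) := by infer_instance
  obtain ⟨s, hs, hs0, hs1⟩ := dc_seq hAC (sep P (fun q => Le P R q p))
    (fun n x y => Le P R y x ∧ ∃ u, u ∈ a ∧ A n u y) p ((hX p).2 (Pre.refl hp)) (by
      intro n hn x hx
      obtain ⟨r, hr, u, hu, hA⟩ := h n hn x ((hX x).1 hx)
      exact ⟨r, (hX r).2 (Pre.trans hr ((hX x).1 hx)), hr, u, hu, hA⟩)
  obtain ⟨g, hg, hg1⟩ := ac_rel hAC omega a (fun n u => A n u (ap s (succ n)))
    (fun n hn => (hs1 n hn).2)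
  have hsP : Fun s omega P := hs.mono fun n hn => ((hX _).1 (hs.ap_mem hn)).memL
  obtain ⟨q0, hq0, hq1⟩ := hcl s hsP (fun n hn => (hs1 n hn).1)
  obtain ⟨r, hr, hrs⟩ := hq1 emp emp_mem_omega q0 (Pre.refl hq0)
  rw [hs0] at hrs
  refine ⟨r, hrs, g, hg, fun n hn => hden _ _ _ fun r1 hr1 => ?_⟩
  obtain ⟨r', h1, h2⟩ := hq1 (succ n) (succ_mem_omega hn) r1 (Pre.trans hr1 hr)
  exact ⟨r', h1, hmono _ _ _ _ (hg1 n hn) h2⟩

end

section

variable {M : Type u} [ZFM M] {F : Fo M}

/-- No new functions from `omega` to an element of the ground model. -/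
theorem noseq (hAC : AC M) (hcl : Scl F.P F.R) {a : M} {f : F.Ext}
    (hf : Fun f omega (can F a)) : ∃ g, Fun g omega a ∧ f = can F g := by
  obtain ⟨τ, rfl⟩ := Fo.exists_val f
  have key : ∀ n y, opair (can F n) (can F y) ∈ F.val τ ↔
      ∃ p, F.G p ∧ FMem F.P F.R p (opnm F.P (chk F.P n) (chk F.P y)) τ := by
    intro n y
    rw [mem_ext, ← Fo.E_val, val_opnm]
    rfl
  have hmono : ∀ n y p q, FMem F.P F.R p (opnm F.P (chk F.P n) (chk F.P y)) τ → Le F.P F.R q p →
      FMem F.P F.R q (opnm F.P (chk F.P n) (chk F.P y)) τ := fun n y p q h h' => fmem_mono h h'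
  obtain ⟨p, hp, hB | hB⟩ := Fo.decide (F := F) (fun q => ∃ n, n ∈ (omega : M) ∧
    ∀ r, Le F.P F.R r q → ¬ ∃ y, y ∈ a ∧ FMem F.P F.R r (opnm F.P (chk F.P n) (chk F.P y)) τ)
  · exfalso
    obtain ⟨n, hn, h1⟩ := hB
    have hno : can F n ∈ (omega : F.Ext) := by
      rw [← em_omega (i := can F)]
      exact em_mem.2 hn
    obtain ⟨y, hy, hye⟩ := em_elim.1 (hf.ap_mem hno)
    have h2 : opair (can F n) (can F y) ∈ F.val τ := by
      rw [← hye]
      exact hf.opair_ap hno
    obtain ⟨r, hr, h3⟩ := (key n y).1 h2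
    obtain ⟨r', _, h4, h5⟩ := F.gen.dir p r hp hr
    exact h1 r' h4 ⟨y, hy, fmem_mono h3 h5⟩
  · have h1 : ∀ q, Le F.P F.R q p → ∃ r, Le F.P F.R r q ∧ ∃ g, Fun g omega a ∧
        ∀ n, n ∈ (omega : M) → FMem F.P F.R r (opnm F.P (chk F.P n) (chk F.P (ap g n))) τ := by
      intro q hq
      refine scl_meet hAC hcl (fun n y r => FMem F.P F.R r (opnm F.P (chk F.P n) (chk F.P y)) τ) a
        (fun n y p q => hmono n y p q) (fun n y p h => fmem_dense h) hq.memL ?_
      intro n hn q' hq'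
      by_contra hcon
      exact hB q' (Pre.trans hq' hq) ⟨n, hn, fun r hr hy => hcon ⟨r, hr, hy⟩⟩
    obtain ⟨r, hr, g, hg, hg1⟩ := Fo.below (F := F) (fun r => ∃ g, Fun g omega a ∧
        ∀ n, n ∈ (omega : M) → FMem F.P F.R r (opnm F.P (chk F.P n) (chk F.P (ap g n))) τ) hp h1
    refine ⟨g, hg, ?_⟩
    have hg' : Fun (can F g) omega (can F a) := by
      rw [← em_omega (i := can F)]
      exact (em_Fun (i := can F)).2 hg
    refine hf.ext hg' fun x hx => ?_
    rw [← em_omega (i := can F)] at hx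
    obtain ⟨n, hn, rfl⟩ := em_elim.1 hx
    rw [← em_ap (i := can F)]
    exact hf.ap_eq ((key n _).2 ⟨r, hr, hg1 n hn⟩)

private theorem em_two : can F (upair emp (sing emp)) = upair emp (sing emp) := by
  rw [em_upair (i := can F), em_sing (i := can F), em_emp (i := can F)]

/-- No new subsets of `omega`. -/
theorem noreal (hAC : AC M) (hcl : Scl F.P F.R) {x : F.Ext} (hx : x ⊆ omega) :
    ∃ x0, x0 ⊆ omega ∧ x = can F x0 := by
  have hv : ∀ k : F.Ext, sep (sing emp) (fun _ => k ∈ x) ∈ (upair emp (sing emp) : F.Ext) := by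
    intro k
    rw [mem_upair]
    by_cases h : k ∈ x
    · right
      refine ext fun z => ?_
      rw [mem_sep]
      exact ⟨fun h' => h'.1, fun h' => ⟨h', h⟩⟩
    · left
      refine eq_emp fun z hz => ?_
      rw [mem_sep] at hz
      exact h hz.2
  have hf : Fun (mkf omega (upair emp (sing emp)) (fun k => sep (sing emp) (fun _ => k ∈ x)))
      (omega : F.Ext) (can F (upair emp (sing emp))) := by
    rw [em_two]
    exact mkf_fun fun k _ => hv k
  obtain ⟨g, hg, hfg⟩ := noseq hAC hcl hf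
  refine ⟨sep omega (fun k => emp ∈ ap g k), fun k hk => ((mem_sep _ _ _).1 hk).1, ?_⟩
  have h1 : ∀ k, k ∈ (omega : M) → (can F k ∈ x ↔ emp ∈ ap g k) := by
    intro k hk
    have hko : can F k ∈ (omega : F.Ext) := by
      rw [← em_omega (i := can F)]
      exact em_mem.2 hk
    have h2 : can F (ap g k) = sep (sing emp) (fun _ => can F k ∈ x) := by
      rw [em_ap (i := can F), ← hfg]
      exact ap_mkf (fun k _ => hv k) hko
    rw [← em_mem (i := can F), em_emp (i := can F), h2, mem_sep]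
    exact ⟨fun h => ⟨by simp, h⟩, fun h => h.2⟩
  refine ext fun z => ?_
  rw [em_elim]
  constructor
  · intro hz
    have hzo := hx z hz
    rw [← em_omega (i := can F)] at hzo
    obtain ⟨k, hk, rfl⟩ := em_elim.1 hzo
    exact ⟨k, (mem_sep _ _ _).2 ⟨hk, (h1 k hk).1 hz⟩, rfl⟩
  · rintro ⟨k, hk, rfl⟩
    rw [mem_sep] at hk
    exact (h1 k hk.1).2 hk.2

/-- No new functions from `omega` to `omega`. -/
theorem nors (hAC : AC M) (hcl : Scl F.P F.R) {f : F.Ext} (hf : f ∈ (RS : F.Ext)) :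
    ∃ g, g ∈ (RS : M) ∧ f = can F g := by
  have h : Fun f omega (can F omega) := by
    rw [em_omega (i := can F)]
    exact mem_RS.1 hf
  obtain ⟨g, hg, e⟩ := noseq hAC hcl h
  exact ⟨g, mem_RS.2 hg, e⟩

end

/-! ### The infinite subsets of omega -/

section

variable {M : Type u} [ZFM M] {ι : Type}

/-- Descending sequences of infinite sets have a pseudo-intersection. -/
theorem scl_IS : Scl (IS : M) ISR := by
  intro s hs hdec
  have hU : ∀ n, n ∈ (omega : M) → Unb (ap s n) := fun n hn => mem_IS.1 (hs.ap_mem hn)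
  have hanti : ∀ n, n ∈ (omega : M) → ∀ m, m ∈ (omega : M) → n ⊆ m → ap s m ⊆ ap s n := by
    intro n hn
    refine omega_induction (fun m => n ⊆ m → ap s m ⊆ ap s n) ?_ ?_
    · intro h
      rw [eq_emp fun z hz => not_mem_emp z (h z hz)]
      exact sub_refl _
    · intro m hm ih h
      rcases (le_iff hn (succ_mem_omega hm)).1 h with h1 | h1
      · rw [mem_succ] at h1
        exact sub_trans (le_IS.1 (hdec m hm)).2.2 (ih ((le_iff hn hm).2 h1))
      · rw [← h1]
        exact sub_refl _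
  have hb : ∀ n, n ∈ (omega : M) → next (ap s n) n ∈ ap s n ∧ n ∈ next (ap s n) n :=
    fun n hn => (hU n hn).next_spec hn
  have hq : ∀ k, k ∈ img (omega : M) (fun n => next (ap s n) n) ↔
      ∃ n, n ∈ (omega : M) ∧ k = next (ap s n) n := fun k => mem_img _ _ _
  have hqU : Unb (img (omega : M) (fun n => next (ap s n) n)) := by
    refine ⟨fun k hk => ?_, fun n hn => ?_⟩
    · obtain ⟨n, hn, rfl⟩ := (hq k).1 hk
      exact (hU n hn).1 _ (hb n hn).1
    · exact ⟨_, (hq _).2 ⟨n, hn, rfl⟩, omega_trans ((hU n hn).1 _ (hb n hn).1) n (hb n hn).2⟩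
  refine ⟨img omega (fun n => next (ap s n) n), mem_IS.2 hqU, fun n hn r hr => ?_⟩
  obtain ⟨hrU, _, hrq⟩ := le_IS.1 hr
  obtain ⟨B, hB, hB1⟩ := fin_bounded (fun y k => k = next (ap s y) y) (nat_fin hn) (fun y hy => by
    have hyo := mem_omega_of_mem hy hn
    have h1 := (hU y hyo).1 _ (hb y hyo).1
    exact ⟨succ (next (ap s y) y), succ_mem_omega h1, fun k _ e => by rw [e]; simp⟩)
  have hr' : Unb (sep r (fun k => k ∈ ap s n)) := by
    refine ⟨fun k hk => hrU.1 k ((mem_sep _ _ _).1 hk).1, fun N hN => ?_⟩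
    obtain ⟨k, hk, hNk⟩ := hrU.2 (un N B) (un_omega hN hB)
    refine ⟨k, (mem_sep _ _ _).2 ⟨hk, ?_⟩, fun z hz => hNk z (by rw [mem_un]; exact Or.inl hz)⟩
    obtain ⟨m, hm, e⟩ := (hq k).1 (hrq k hk)
    rcases le_or_lt hn hm with h1 | h1
    · rw [e]
      exact hanti n hn m hm h1 _ (hb m hm).1
    · exfalso
      have hko := hrU.1 k hk
      have h2 := hB1 m h1 k hko e
      exact not_mem_self k (hNk k (by rw [mem_un]; exact Or.inr h2))
  refine ⟨sep r (fun k => k ∈ ap s n), le_IS.2 ⟨hr', hrU, fun k hk => ((mem_sep _ _ _).1 hk).1⟩,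
    le_IS.2 ⟨hr', hU n hn, fun k hk => ((mem_sep _ _ _).1 hk).2⟩⟩

end

end Pool.Agent.ZFIter.NPA.BSM.SP
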