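import Pool.Agent.BSP.UBase
import Pool.Agent.BSM.WEl

/-!
# BSP/RLow: a uniformly definable statement which holds in all countable models holds in all models
-/

universe u

namespace Pool.Agent.ZFIter.NPA.BSM.SP

open Pool.Agent.H78.ZF Pool.Agent.ZFIter Pool.Agent.ZFIter.NPA
open FirstOrder

theorem exists_elemS {M : Type u} [ZFM M] (s : Set M) (hs : s.Countable) :
    ∃ S : Set M, S.Countable ∧ s ⊆ S ∧ Elem ZFM.E S := by
  have := infinite_zfm M
  have hL : LSet.card ≤ Cardinal.aleph0 := by
    have h1 : Countable LSet.Symbols := by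
      have h2 : Countable (Σ n, LSet.Functions n) := by
        have : IsEmpty (Σ n, LSet.Functions n) := ⟨fun x => nomatch x.2⟩
        infer_instance
      have h3 : Countable (Σ n, LSet.Relations n) := by
        have : ∀ x : (Σ n, LSet.Relations n), x = ⟨2, MemSymb.mem⟩ := by
          rintro ⟨n, r⟩
          cases r
          rfl
        have : Subsingleton (Σ n, LSet.Relations n) := ⟨fun x y => (this x).trans (this y).symm⟩
        infer_instance
      unfold Language.Symbols
      infer_instance
    exact Cardinal.mk_le_aleph0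
  have hs' : Cardinal.mk s ≤ Cardinal.aleph0 := Cardinal.le_aleph0_iff_set_countable.2 hs
  obtain ⟨S, hS, hc⟩ := Language.exists_elementarySubstructure_card_eq LSet (M := M) s
    Cardinal.aleph0.{0} le_rfl (by simpa using hs') (by simpa using hL) (by simp)
  refine ⟨(S : Set M), ?_, hS, ?_⟩
  · have h1 : Cardinal.mk (S : Set M) ≤ Cardinal.aleph0 := by
      have h2 : Cardinal.lift.{0} (Cardinal.mk S) = Cardinal.lift.{u} Cardinal.aleph0.{0} := hc
      rw [Cardinal.lift_aleph0, Cardinal.lift_uzero] at h2
      exact h2.le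
    exact Cardinal.le_aleph0_iff_set_countable.1 h1
  · have e : (inferInstance : LSet.Structure S) = structOf (rE ZFM.E (S : Set M)) := by
      apply Language.Structure.ext
      · funext n f
        exact nomatch f
      · funext n r v
        cases r
        rfl
    refine ⟨@Language.ElementaryEmbedding.mk LSet S M (structOf (rE ZFM.E (S : Set M)))
      (structOf ZFM.E) Subtype.val ?_, fun x => rfl⟩
    intro n φ x
    rw [← e]
    exact S.subtype.map_formula φ x

theorem UR.of_countable {ι : Type} [Countable ι] (Φ : ∀ (M : Type u) [ZFM M], (ι → M) → Prop)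
    [hu : UR Φ] (h : ∀ (M : Type u) [ZFM M] [Countable M] (v : ι → M), Φ M v) (M : Type u) [ZFM M]
    (v : ι → M) : Φ M v := by
  obtain ⟨φ, hφ⟩ := hu.out
  obtain ⟨S, hc, hs, hS⟩ := exists_elemS (Set.range v) (Set.countable_range v)
  have hc' : Countable S := hc.to_subtype
  let inst : ZFM S := ⟨rE ZFM.E S, zf_elem hS⟩
  have h1 := h S (fun i => (⟨v i, hs ⟨i, rfl⟩⟩ : S))
  rw [← hφ S] at h1
  rw [← hφ M]
  exact (hS.formula φ (fun i => (⟨v i, hs ⟨i, rfl⟩⟩ : S))).1 h1

end Pool.Agent.ZFIter.NPA.BSM.SP
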