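import Pool.Agent.BSP.SExt2
import Pool.Agent.BSM.VLev
import Pool.Agent.BLI.UDefs

/-!
# BSP/TDefs: definitions for the semantic half of the positive theorem

* `InfS x`: `x` is an infinite subset of `omega`; `IS`, `ISR`: the forcing notion of these sets with
  inclusion; `AE z q`: `z` is almost contained in `q`.
* `GenLR p`: `p` is generic over `L(R)` for the forcing notion `IS`.
* `IsoOv i j`: the two extensions `i : M → N` and `j : M → N'` of `M` are isomorphic.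
* `IsLev F κ`: `F` is a Levy collapse of `κ`.
* `prR`: the product order; `DE`: dense embeddings; `LevI κ μ`: conditions of the Levy collapse with
  coordinates in `[μ, κ)`.
* `vr F τ`: the value of the `BLI`-name `τ` (names for subsets of `omega` in the sense of `BLI/Defs`), the
  set of all `n` with `Nt Q τ n h` for some `h` in the generic filter.
-/

universe u v

namespace Pool.Agent.ZFIter.NPA.BSM.SP

open Pool.Agent.H78.ZF Pool.Agent.ZFIter Pool.Agent.ZFIter.NPA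

section

variable {M : Type u} [ZFM M] {ι : Type}

/-- `x` is an infinite subset of `omega`. -/
def InfS (x : M) : Prop := x ⊆ omega ∧ ∀ m, m ∈ (omega : M) → ∃ n, n ∈ x ∧ m ⊆ n

instance DR.InfS (s : (ι → M) → M) [DF s] : DR (fun v => InfS (s v)) := by
  unfold SP.InfS
  infer_instance

instance UR.InfS (s : ∀ (M : Type u) [ZFM M], (ι → M) → M) [UF s] :
    UR (fun M _ v => InfS (s M v)) := by
  unfold SP.InfS
  infer_instance

/-- `z` is almost contained in `q`. -/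
def AE (z q : M) : Prop := ∃ m, m ∈ (omega : M) ∧ ∀ n, n ∈ z → m ⊆ n → n ∈ q

instance DR.AE (s t : (ι → M) → M) [DF s] [DF t] : DR (fun v => AE (s v) (t v)) := by
  unfold SP.AE
  infer_instance

instance UR.AE (s t : ∀ (M : Type u) [ZFM M], (ι → M) → M) [UF s] [UF t] :
    UR (fun M _ v => AE (s M v) (t M v)) := by
  unfold SP.AE
  infer_instance

/-- The infinite subsets of `omega`. -/
noncomputable def IS : M := sep (pow omega) (fun x => InfS x)

instance DF.IS : DF (fun _ : ι → M => (IS : M)) := by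
  unfold SP.IS
  infer_instance

instance UF.IS : UF.{u} (ι := ι) (fun _ _ _ => SP.IS) := by
  unfold SP.IS
  infer_instance

theorem mem_IS {x : M} : x ∈ (IS : M) ↔ InfS x := by
  unfold IS
  rw [mem_sep, mem_pow]
  exact ⟨fun h => h.2, fun h => ⟨h.1, h⟩⟩

/-- The order of `IS`: inclusion. -/
noncomputable def ISR : M := sep (prod IS IS) (fun w => ∃ x y, w = opair x y ∧ x ⊆ y)

instance DF.ISR : DF (fun _ : ι → M => (ISR : M)) := by
  unfold SP.ISR
  infer_instance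

instance UF.ISR : UF.{u} (ι := ι) (fun _ _ _ => SP.ISR) := by
  unfold SP.ISR
  infer_instance

theorem le_IS {x y : M} : Le (IS : M) ISR x y ↔ InfS x ∧ InfS y ∧ x ⊆ y := by
  unfold Le ISR
  rw [mem_IS, mem_IS, mem_sep, opair_mem_prod, mem_IS, mem_IS]
  constructor
  · rintro ⟨h1, h2, -, x', y', e, h3⟩
    obtain ⟨rfl, rfl⟩ := opair_inj e
    exact ⟨h1, h2, h3⟩
  · rintro ⟨h1, h2, h3⟩
    exact ⟨h1, h2, ⟨h1, h2⟩, x, y, rfl, h3⟩

instance pre_IS : Pre (IS : M) ISR where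
  refl := fun hp => le_IS.2 ⟨mem_IS.1 hp, mem_IS.1 hp, sub_refl _⟩
  trans := fun h1 h2 => by
    rw [le_IS] at h1 h2 ⊢
    exact ⟨h1.1, h2.2.1, sub_trans h1.2.2 h2.2.2⟩

/-- `p` is generic over `L(R)` for the infinite subsets of `omega`, ordered by inclusion: every dense
set which belongs to all inner models with all reals has an element in `p`. -/
def GenLR (p : M) : Prop :=
  ∀ D : M, (∀ (K : M → Prop) [Inner K], (∀ x, x ∈ (RS : M) → K x) → K D) →
    (∀ x, x ∈ D → InfS x) → (∀ x, InfS x → ∃ y, y ∈ D ∧ y ⊆ x) → ∃ x, x ∈ D ∧ x ∈ p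

/-- The set of pairs `(a, a') ∈ P1`, `(b, b') ∈ P2` ordered coordinatewise. -/
noncomputable def prR (P1 R1 P2 R2 : M) : M := sep (prod (prod P1 P2) (prod P1 P2))
  (fun w => ∃ a b a' b', w = opair (opair a b) (opair a' b') ∧ opair a a' ∈ R1 ∧ opair b b' ∈ R2)

instance DF.prR (P1 R1 P2 R2 : (ι → M) → M) [DF P1] [DF R1] [DF P2] [DF R2] :
    DF (fun v => prR (P1 v) (R1 v) (P2 v) (R2 v)) := by
  unfold SP.prR
  infer_instance

theorem le_prR {P1 R1 P2 R2 a b a' b' : M} :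
    Le (prod P1 P2) (prR P1 R1 P2 R2) (opair a b) (opair a' b') ↔ Le P1 R1 a a' ∧ Le P2 R2 b b' := by
  unfold Le prR
  rw [mem_sep, opair_mem_prod, opair_mem_prod, opair_mem_prod, opair_mem_prod, opair_mem_prod]
  constructor
  · rintro ⟨h1, h2, -, x, y, x', y', e, h3, h4⟩
    obtain ⟨e1, e2⟩ := opair_inj e
    obtain ⟨rfl, rfl⟩ := opair_inj e1
    obtain ⟨rfl, rfl⟩ := opair_inj e2
    exact ⟨⟨h1.1, h2.1, h3⟩, h1.2, h2.2, h4⟩
  · rintro ⟨⟨h1, h2, h3⟩, h4, h5, h6⟩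
    exact ⟨⟨h1, h4⟩, ⟨h2, h5⟩, ⟨⟨h1, h4⟩, h2, h5⟩, a, b, a', b', rfl, h3, h6⟩

theorem pre_prR {P1 R1 P2 R2 : M} (h1 : Pre P1 R1) (h2 : Pre P2 R2) :
    Pre (prod P1 P2) (prR P1 R1 P2 R2) where
  refl := fun {p} hp => by
    obtain ⟨a, ha, b, hb, rfl⟩ := (mem_prod _ _ _).1 hp
    exact le_prR.2 ⟨h1.refl ha, h2.refl hb⟩
  trans := fun {r q p} h h' => by
    obtain ⟨a, ha, b, hb, rfl⟩ := (mem_prod _ _ _).1 h.1
    obtain ⟨a', ha', b', hb', rfl⟩ := (mem_prod _ _ _).1 h.2.1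
    obtain ⟨a2, ha2, b2, hb2, rfl⟩ := (mem_prod _ _ _).1 h'.2.1
    rw [le_prR] at h h' ⊢
    exact ⟨h1.trans h.1 h'.1, h2.trans h.2 h'.2⟩

/-- `d` is a dense embedding of `(P, R)` in `(P', R')`. -/
structure DE (P R P' R' d : M) : Prop where
  fn : Fun d P P'
  mono : ∀ x y, Le P R x y → Le P' R' (ap d x) (ap d y)
  comp : ∀ x y q, x ∈ P → y ∈ P → Le P' R' q (ap d x) → Le P' R' q (ap d y) →
    ∃ z, Le P R z x ∧ Le P R z y
  dense : ∀ q, q ∈ P' → ∃ x, x ∈ P ∧ Le P' R' (ap d x) q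

/-- The conditions of the Levy collapse with coordinates in `[μ, κ)`. -/
noncomputable def LevI (κ μ : M) : M := sep (Lev κ) (fun p => ∀ α n ξ, opair (opair α n) ξ ∈ p → α ∉ μ)

instance DF.LevI (κ μ : (ι → M) → M) [DF κ] [DF μ] : DF (fun v => LevI (κ v) (μ v)) := by
  unfold SP.LevI
  infer_instance

instance UF.LevI (κ μ : ∀ (M : Type u) [ZFM M], (ι → M) → M) [UF κ] [UF μ] :
    UF (fun M _ v => LevI (κ M v) (μ M v)) := by
  unfold SP.LevI
  infer_instance

noncomputable def LevIR (κ μ : M) : M :=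
  sep (prod (LevI κ μ) (LevI κ μ)) (fun z => ∃ q p, z = opair q p ∧ p ⊆ q)

instance DF.LevIR (κ μ : (ι → M) → M) [DF κ] [DF μ] : DF (fun v => LevIR (κ v) (μ v)) := by
  unfold SP.LevIR
  infer_instance

theorem mem_LevI {κ μ p : M} : p ∈ LevI κ μ ↔ p ∈ Lev κ ∧ ∀ α n ξ, opair (opair α n) ξ ∈ p → α ∉ μ := by
  unfold LevI
  rw [mem_sep]

theorem le_LevI {κ μ q p : M} :
    Le (LevI κ μ) (LevIR κ μ) q p ↔ q ∈ LevI κ μ ∧ p ∈ LevI κ μ ∧ p ⊆ q := by
  unfold Le LevIR
  rw [mem_sep, opair_mem_prod]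
  constructor
  · rintro ⟨h1, h2, -, q', p', e, h3⟩
    obtain ⟨rfl, rfl⟩ := opair_inj e
    exact ⟨h1, h2, h3⟩
  · rintro ⟨h1, h2, h3⟩
    exact ⟨h1, h2, ⟨h1, h2⟩, q, p, rfl, h3⟩

instance pre_LevI {κ μ : M} : Pre (LevI κ μ) (LevIR κ μ) where
  refl := fun hp => le_LevI.2 ⟨hp, hp, sub_refl _⟩
  trans := fun h1 h2 => by
    rw [le_LevI] at h1 h2 ⊢
    exact ⟨h1.1, h2.2.1, sub_trans h2.2.2 h1.2.2⟩

/-- `F` is the Levy collapse of `κ`. -/
def IsLev (F : Fo M) (κ : M) : Prop := F.P = Lev κ ∧ F.R = LevR κ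

/-- `F` is a filter on the forcing notion `Q` (in the sense of `BLI`). -/
def OnQ (F : Fo M) (Q : M) : Prop := F.P = fs Q ∧ F.R = sn Q

theorem le_LE {Q x y : M} : Le (fs Q) (sn Q) x y ↔ BLI.LE Q x y := Iff.rfl

theorem pre_of_po {Q : M} (h : BLI.Po Q) : Pre (fs Q) (sn Q) where
  refl := fun hp => h.1 _ hp
  trans := fun h1 h2 => h.2 _ _ _ h1 h2

theorem po_of_pre {P R : M} (h : Pre P R) : BLI.Po (opair P R) := by
  have e : ∀ x y, BLI.LE (opair P R) x y ↔ Le P R x y := fun x y => by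
    unfold BLI.LE Le
    rw [fs_opair, sn_opair]
  constructor
  · intro x hx
    rw [fs_opair] at hx
    rw [e]
    exact h.refl hx
  · intro x y z h1 h2
    rw [e] at h1 h2 ⊢
    exact h.trans h1 h2

instance countable_ext [Countable M] (F : Fo M) : Countable F.Ext :=
  (inferInstance : Countable (Quotient F.setoid))

/-- The canonical name of the value of a `BLI`-name. -/
noncomputable def rn (Q τ : M) : M :=
  sep (prod (img omega (fun n => chk (fs Q) n)) (fs Q))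
    (fun w => ∃ n h, n ∈ (omega : M) ∧ w = opair (chk (fs Q) n) h ∧ BLI.Nt Q τ n h)

instance DF.rn (Q τ : (ι → M) → M) [DF Q] [DF τ] : DF (fun v => rn (Q v) (τ v)) := by
  unfold SP.rn
  infer_instance

/-- The value of a `BLI`-name. -/
noncomputable def vr (F : Fo M) (Q τ : M) : F.Ext := F.val (rn Q τ)

end

/-- The extensions `i` and `j` of `M` are isomorphic over `M`. -/
def IsoOv {A : Type u} {N N' : Type v} [ZFM N] [ZFM N'] (i : A → N) (j : A → N') : Prop :=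
  ∃ e : N ≃ N', (∀ x y, e x ∈ e y ↔ x ∈ y) ∧ ∀ x, e (i x) = j x

section

variable {A : Type u} {N N' N'' : Type v} [ZFM N] [ZFM N'] [ZFM N'']

theorem IsoOv.refl (i : A → N) : IsoOv i i := ⟨Equiv.refl N, fun _ _ => Iff.rfl, fun _ => rfl⟩

theorem IsoOv.symm {i : A → N} {j : A → N'} (h : IsoOv i j) : IsoOv j i := by
  obtain ⟨e, he, h⟩ := h
  refine ⟨e.symm, fun x y => ?_, fun x => ?_⟩
  · rw [← he, Equiv.apply_symm_apply, Equiv.apply_symm_apply]
  · rw [← h, Equiv.symm_apply_apply]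

theorem IsoOv.trans {i : A → N} {j : A → N'} {k : A → N''} (h : IsoOv i j) (h' : IsoOv j k) :
    IsoOv i k := by
  obtain ⟨e, he, h⟩ := h
  obtain ⟨e', he', h'⟩ := h'
  refine ⟨e.trans e', fun x y => ?_, fun x => ?_⟩
  · exact (he' _ _).trans (he _ _)
  · show e' (e (i x)) = k x
    rw [h, h']

theorem IsoOv.comp {B : Type u} {i : A → N} {j : A → N'} (h : IsoOv i j) (k : B → A) :
    IsoOv (fun x => i (k x)) (fun x => j (k x)) := by
  obtain ⟨e, he, h⟩ := h
  exact ⟨e, he, fun x => h (k x)⟩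

/-- Isomorphic extensions have the same uniformly definable properties. -/
theorem IsoOv.ur {i : A → N} {j : A → N'} (h : IsoOv i j) {ι : Type}
    (Φ : ∀ (M : Type v) [ZFM M], (ι → M) → Prop) [UR Φ] (w : ι → A) :
    Φ N (fun a => i (w a)) ↔ Φ N' (fun a => j (w a)) := by
  obtain ⟨e, he, h⟩ := h
  rw [← UR.iso Φ e he (fun a => i (w a))]
  simp only [h]

end

end Pool.Agent.ZFIter.NPA.BSM.SP
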