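import Pool.Agent.BSM.RAbs
import Pool.Agent.BSP.TDefs

/-!
# BSP/RUni: the hierarchy of `L(R)` is uniformly definable
-/

universe u

namespace Pool.Agent.ZFIter.NPA.BSM.SP

open Pool.Agent.H78.ZF Pool.Agent.ZFIter Pool.Agent.ZFIter.NPA
open FirstOrder

variable {ι : Type}

instance UF.num (n : ℕ) : UF.{u} (ι := ι) (fun _ _ _ => Pool.Agent.ZFIter.NPA.num n) := by
  induction n with
  | zero => exact UF.emp
  | succ n ih =>
    unfold Pool.Agent.ZFIter.NPA.num
    infer_instance

instance UF.tri (i b c : ∀ (M : Type u) [ZFM M], (ι → M) → M) [UF i] [UF b] [UF c] :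
    UF (fun M _ v => NPA.tri (i M v) (b M v) (c M v)) := by
  unfold NPA.tri
  infer_instance

instance UR.TLt (i b c i' b' c' : ∀ (M : Type u) [ZFM M], (ι → M) → M) [UF i] [UF b] [UF c] [UF i']
    [UF b'] [UF c'] :
    UR (fun M _ v => NPA.TLt (i M v) (b M v) (c M v) (i' M v) (b' M v) (c' M v)) := by
  unfold NPA.TLt NPA.TL NPA.MaxLt
  infer_instance

instance UF.decStep (a g : ∀ (M : Type u) [ZFM M], (ι → M) → M) [UF a] [UF g] :
    UF (fun M _ v => NPA.decStep (a M v) (g M v)) := by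
  unfold NPA.decStep
  infer_instance

instance UF.dec (s : ∀ (M : Type u) [ZFM M], (ι → M) → M) [UF s] :
    UF (fun M _ v => NPA.dec (s M v)) := by
  unfold NPA.dec
  infer_instance

instance UF.dI (s : ∀ (M : Type u) [ZFM M], (ι → M) → M) [UF s] :
    UF (fun M _ v => NPA.dI (s M v)) := by
  unfold NPA.dI
  infer_instance

instance UF.dB (s : ∀ (M : Type u) [ZFM M], (ι → M) → M) [UF s] :
    UF (fun M _ v => NPA.dB (s M v)) := by
  unfold NPA.dB
  infer_instance

instance UF.dC (s : ∀ (M : Type u) [ZFM M], (ι → M) → M) [UF s] :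
    UF (fun M _ v => NPA.dC (s M v)) := by
  unfold NPA.dC
  infer_instance

set_option synthInstance.maxSize 100000 in
instance UR.OpMem (A a i X Y w : ∀ (M : Type u) [ZFM M], (ι → M) → M) [UF A] [UF a] [UF i] [UF X]
    [UF Y] [UF w] :
    UR (fun M _ v => NPA.OpMem (A M v) (a M v) (i M v) (X M v) (Y M v) (w M v)) := by
  unfold NPA.OpMem
  infer_instance

instance UF.wstep (z : ∀ (M : Type u) [ZFM M], (ι → M) → M) [UF z] :
    UF (fun M _ v => Pool.Agent.H78.ZF.wstep (z M v)) := by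
  unfold Pool.Agent.H78.ZF.wstep
  infer_instance

instance UR.RecClosed (T a z f : ∀ (M : Type u) [ZFM M], (ι → M) → M) [UF T] [UF a] [UF z] [UF f] :
    UR (fun M _ v => Pool.Agent.H78.ZF.RecClosed (T M v) (a M v) (z M v) (f M v)) := by
  unfold Pool.Agent.H78.ZF.RecClosed
  infer_instance

instance UF.recf (a z f : ∀ (M : Type u) [ZFM M], (ι → M) → M) [UF a] [UF z] [UF f] :
    UF (fun M _ v => Pool.Agent.H78.ZF.recf (a M v) (z M v) (f M v)) := by
  unfold Pool.Agent.H78.ZF.recf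
  infer_instance

instance UF.walk : UF.{u} (ι := ι) (fun _ _ _ => Pool.Agent.H78.ZF.walk) := by
  unfold Pool.Agent.H78.ZF.walk Pool.Agent.H78.ZF.wZ
  infer_instance

instance UF.pr (s t : ∀ (M : Type u) [ZFM M], (ι → M) → M) [UF s] [UF t] :
    UF (fun M _ v => Pool.Agent.H78.ZF.pr (s M v) (t M v)) := by
  unfold Pool.Agent.H78.ZF.pr
  infer_instance

instance UF.pL (s : ∀ (M : Type u) [ZFM M], (ι → M) → M) [UF s] :
    UF (fun M _ v => NPA.pL (s M v)) := by
  unfold NPA.pL
  infer_instance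

instance UF.pR (s : ∀ (M : Type u) [ZFM M], (ι → M) → M) [UF s] :
    UF (fun M _ v => NPA.pR (s M v)) := by
  unfold NPA.pR
  infer_instance

instance UF.rSt (a g : ∀ (M : Type u) [ZFM M], (ι → M) → M) [UF a] [UF g] :
    UF (fun M _ v => BSM.rSt (a M v) (g M v)) := by
  unfold BSM.rSt
  infer_instance

instance UF.rStep (a g : ∀ (M : Type u) [ZFM M], (ι → M) → M) [UF a] [UF g] :
    UF (fun M _ v => BSM.rStep (a M v) (g M v)) := by
  unfold BSM.rStep
  infer_instance

instance UF.hQ (s : ∀ (M : Type u) [ZFM M], (ι → M) → M) [UF s] :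
    UF (fun M _ v => BSM.hQ (s M v)) := by
  unfold BSM.hQ
  infer_instance

instance UF.hP (s t : ∀ (M : Type u) [ZFM M], (ι → M) → M) [UF s] [UF t] :
    UF (fun M _ v => BSM.hP (s M v) (t M v)) := by
  unfold BSM.hP
  infer_instance

instance UR.LR (s : ∀ (M : Type u) [ZFM M], (ι → M) → M) [UF s] :
    UR (fun M _ v => BSM.LR (s M v)) := by
  unfold BSM.LR
  infer_instance

end Pool.Agent.ZFIter.NPA.BSM.SP
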