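import Pool.Agent.BSP.RFrc
import Pool.Agent.BSP.RLow
import Pool.Agent.BSP.RUni

/-!
# BSP/RAx: names for ultrafilters for the forcing with infinite subsets of omega

`FU y q`: `q` forces that `y` is an ultrafilter on `omega`. `FM A y z`: `z` forces that the set `A` belongs
to `y`. The rules are proved for countable models with generic filters (`frc_iff`) and transferred to
all models (`UR.of_countable`).
-/

universe u

namespace Pool.Agent.ZFIter.NPA.BSM.SP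

open Pool.Agent.H78.ZF Pool.Agent.ZFIter Pool.Agent.ZFIter.NPA
open FirstOrder

instance UR.uf0 : UR.{u} (fun _ _ (v : Fin 1 → _) => BSM.Uf (v 0)) := by infer_instance
instance UR.mem01 : UR.{u} (fun _ _ (v : Fin 2 → _) => v 0 ∈ v 1) := by infer_instance

/-- `q` forces that `y` is an ultrafilter on `omega`. -/
def FU {M : Type u} [ZFM M] (y q : M) : Prop :=
  Frc (fun _ _ (v : Fin 1 → _) => Uf (v 0)) (IS : M) ISR ![y] q

/-- `z` forces that `A` belongs to `y`. -/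
def FM {M : Type u} [ZFM M] (A y z : M) : Prop :=
  Frc (fun _ _ (v : Fin 2 → _) => v 0 ∈ v 1) (IS : M) ISR ![chk IS A, y] z

instance UR.FU {κ : Type} (y q : ∀ (M : Type u) [ZFM M], (κ → M) → M) [UF y] [UF q] :
    UR (fun M _ v => SP.FU (y M v) (q M v)) := by
  unfold SP.FU
  refine UR.Frc _ (fun _ _ _ => SP.IS) (fun _ _ _ => SP.ISR) q (fun M _ i v => ![y M v] i)
    (hs := fun i => ?_)
  fin_cases i
  exact (inferInstance : UF y)

instance UR.FM {κ : Type} (A y z : ∀ (M : Type u) [ZFM M], (κ → M) → M) [UF A] [UF y] [UF z] :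
    UR (fun M _ v => SP.FM (A M v) (y M v) (z M v)) := by
  unfold SP.FM
  refine UR.Frc _ (fun _ _ _ => SP.IS) (fun _ _ _ => SP.ISR) z
    (fun M _ i v => ![chk SP.IS (A M v), y M v] i) (hs := fun i => ?_)
  fin_cases i
  · exact (inferInstance : UF (fun M _ v => chk SP.IS (A M v)))
  · exact (inferInstance : UF y)

section ctb

variable {M : Type u} [ZFM M] [Countable M]

theorem fu_iff {y q : M} (hq : q ∈ (IS : M)) : FU y q ↔ ∀ (G : M → Prop) (hG : Gen IS ISR G), G q →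
    Uf ((Fo.mk IS ISR G pre_IS hG).val y) := by
  unfold FU
  rw [frc_iff _ _ hq]
  exact Iff.rfl

theorem fm_iff {A y z : M} (hz : z ∈ (IS : M)) : FM A y z ↔ ∀ (G : M → Prop) (hG : Gen IS ISR G),
    G z → can (Fo.mk IS ISR G pre_IS hG) A ∈ (Fo.mk IS ISR G pre_IS hG).val y := by
  unfold FM
  rw [frc_iff _ _ hz]
  exact Iff.rfl

omit [Countable M] in
theorem fm_truth {A y : M} {G : M → Prop} (hG : Gen IS ISR G) :
    can (Fo.mk IS ISR G pre_IS hG) A ∈ (Fo.mk IS ISR G pre_IS hG).val y ↔ ∃ z, G z ∧ FM A y z :=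
  truth_Frc (fun _ _ (v : Fin 2 → _) => v 0 ∈ v 1) (Fo.mk IS ISR G pre_IS hG) ![chk IS A, y]

omit [Countable M] in
theorem gen_up {G : M → Prop} (hG : Gen IS ISR G) {x y : M} (h : G x) (hxy : Le IS ISR x y) : G y :=
  hG.up x y h hxy

theorem c_mono {y q z z' A A' : M} (h : FU y q) (hzq : Le IS ISR z q) (h1 : FM A y z)
    (h2 : Le IS ISR z' z) (h3 : A ⊆ A') (h4 : A' ⊆ omega) : FM A' y z' := by
  rw [fm_iff h2.memL]
  intro G hG hGz
  have hGz' := gen_up hG hGz h2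
  have hu := (fu_iff hzq.2.1).1 h G hG (gen_up hG hGz' hzq)
  have hA := (fm_iff hzq.memL).1 h1 G hG hGz'
  refine hu.2.2.2.2.1 _ _ hA (em_sub.2 h3) ?_
  rw [← em_omega (i := can (Fo.mk IS ISR G pre_IS hG))]
  exact em_sub.2 h4

theorem c_inter {y q z A B : M} (h : FU y q) (hzq : Le IS ISR z q) (h1 : FM A y z)
    (h2 : FM B y z) : FM (sep A (fun k => k ∈ B)) y z := by
  rw [fm_iff hzq.memL]
  intro G hG hGz
  have hu := (fu_iff hzq.2.1).1 h G hG (gen_up hG hGz hzq)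
  have hA := (fm_iff hzq.memL).1 h1 G hG hGz
  have hB := (fm_iff hzq.memL).1 h2 G hG hGz
  have h3 := hu.2.2.2.1 _ _ hA hB
  have e : can (Fo.mk IS ISR G pre_IS hG) (sep A (fun k => k ∈ B)) =
      sep (can (Fo.mk IS ISR G pre_IS hG) A) (fun k => k ∈ can (Fo.mk IS ISR G pre_IS hG) B) := by
    apply ext
    intro x
    rw [mem_em_sep, mem_sep]
    constructor
    · rintro ⟨k, hk, hk', rfl⟩
      exact ⟨em_mem.2 hk, em_mem.2 hk'⟩
    · rintro ⟨hk, hk'⟩
      obtain ⟨k, hk2, rfl⟩ := em_elim.1 hk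
      exact ⟨k, hk2, em_mem.1 hk', rfl⟩
  rwa [e]

theorem c_ne {y q z : M} (h : FU y q) (hzq : Le IS ISR z q) : ¬ FM emp y z := by
  intro h1
  obtain ⟨G, hG, hGz⟩ := exists_gen (IS : M) ISR z hzq.memL
  have hu := (fu_iff hzq.2.1).1 h G hG (gen_up hG hGz hzq)
  have hA := (fm_iff hzq.memL).1 h1 G hG hGz
  rw [em_emp (i := can (Fo.mk IS ISR G pre_IS hG))] at hA
  exact hu.2.2.1 hA

theorem c_tot {y q z A : M} (h : FU y q) (hzq : Le IS ISR z q) (hA : A ⊆ omega) :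
    ∃ z', Le IS ISR z' z ∧ (FM A y z' ∨ FM (sep omega (fun k => k ∉ A)) y z') := by
  obtain ⟨G, hG, hGz⟩ := exists_gen (IS : M) ISR z hzq.memL
  have hu := (fu_iff hzq.2.1).1 h G hG (gen_up hG hGz hzq)
  have hA' : can (Fo.mk IS ISR G pre_IS hG) A ⊆ omega := by
    rw [← em_omega (i := can (Fo.mk IS ISR G pre_IS hG))]
    exact em_sub.2 hA
  have hgo : ∀ B, can (Fo.mk IS ISR G pre_IS hG) B ∈ (Fo.mk IS ISR G pre_IS hG).val y →
      ∃ z', Le IS ISR z' z ∧ FM B y z' := by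
    intro B hB
    obtain ⟨r, hr, h1⟩ := (fm_truth hG).1 hB
    obtain ⟨s, _, h2, h3⟩ := hG.dir r z hr hGz
    exact ⟨s, h3, (good_Frc _ (IS : M) ISR ![chk IS B, y]).mono h1 h2⟩
  rcases hu.2.2.2.2.2 _ hA' with h1 | h1
  · obtain ⟨z', h2, h3⟩ := hgo A h1
    exact ⟨z', h2, Or.inl h3⟩
  · have e : can (Fo.mk IS ISR G pre_IS hG) (sep omega (fun k => k ∉ A)) =
        sep omega (fun k => k ∉ can (Fo.mk IS ISR G pre_IS hG) A) := by
      apply ext
      intro x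
      rw [mem_em_sep, mem_sep, ← em_omega (i := can (Fo.mk IS ISR G pre_IS hG))]
      constructor
      · rintro ⟨k, hk, hk', rfl⟩
        exact ⟨em_mem.2 hk, fun h => hk' (em_mem.1 h)⟩
      · rintro ⟨hk, hk'⟩
        obtain ⟨k, hk2, rfl⟩ := em_elim.1 hk
        exact ⟨k, hk2, fun h => hk' (em_mem.2 h), rfl⟩
    rw [← e] at h1
    obtain ⟨z', h2, h3⟩ := hgo _ h1
    exact ⟨z', h2, Or.inr h3⟩

end ctb

/-! ### The rules in all models -/

section all

variable {M : Type u} [ZFM M]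

theorem fm_mono {y q z z' A A' : M} (h : FU y q) (hzq : Le IS ISR z q) (h1 : FM A y z)
    (h2 : Le IS ISR z' z) (h3 : A ⊆ A') (h4 : A' ⊆ omega) : FM A' y z' := by
  have key := UR.of_countable (ι := Fin 6) (fun M _ (v : Fin 6 → M) => SP.FU (v 0) (v 1) →
    Le SP.IS SP.ISR (v 2) (v 1) → SP.FM (v 4) (v 0) (v 2) → Le SP.IS SP.ISR (v 3) (v 2) →
    v 4 ⊆ v 5 → v 5 ⊆ omega → SP.FM (v 5) (v 0) (v 3))
    (fun M _ _ v h hzq h1 h2 h3 h4 => c_mono h hzq h1 h2 h3 h4) M ![y, q, z, z', A, A']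
  exact key h hzq h1 h2 h3 h4

theorem fm_inter {y q z A B : M} (h : FU y q) (hzq : Le IS ISR z q) (h1 : FM A y z)
    (h2 : FM B y z) : FM (sep A (fun k => k ∈ B)) y z := by
  have key := UR.of_countable (ι := Fin 5) (fun M _ (v : Fin 5 → M) => SP.FU (v 0) (v 1) →
    Le SP.IS SP.ISR (v 2) (v 1) → SP.FM (v 3) (v 0) (v 2) → SP.FM (v 4) (v 0) (v 2) →
    SP.FM (sep (v 3) (fun k => k ∈ v 4)) (v 0) (v 2))
    (fun M _ _ v h hzq h1 h2 => c_inter h hzq h1 h2) M ![y, q, z, A, B]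
  exact key h hzq h1 h2

theorem fm_ne {y q z : M} (h : FU y q) (hzq : Le IS ISR z q) : ¬ FM emp y z := by
  have key := UR.of_countable (ι := Fin 3) (fun M _ (v : Fin 3 → M) => SP.FU (v 0) (v 1) →
    Le SP.IS SP.ISR (v 2) (v 1) → ¬ SP.FM emp (v 0) (v 2))
    (fun M _ _ v h hzq => c_ne h hzq) M ![y, q, z]
  exact key h hzq

theorem fm_tot {y q z A : M} (h : FU y q) (hzq : Le IS ISR z q) (hA : A ⊆ omega) :
    ∃ z', Le IS ISR z' z ∧ (FM A y z' ∨ FM (sep omega (fun k => k ∉ A)) y z') := by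
  have key := UR.of_countable (ι := Fin 4) (fun M _ (v : Fin 4 → M) => SP.FU (v 0) (v 1) →
    Le SP.IS SP.ISR (v 2) (v 1) → v 3 ⊆ omega → ∃ z', Le SP.IS SP.ISR z' (v 2) ∧
      (SP.FM (v 3) (v 0) z' ∨ SP.FM (sep omega (fun k => k ∉ v 3)) (v 0) z'))
    (fun M _ _ v h hzq hA => c_tot h hzq hA) M ![y, q, z, A]
  exact key h hzq hA

end all

end Pool.Agent.ZFIter.NPA.BSM.SP
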