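import Pool.Agent.BSP.UFor
import Pool.Agent.BSM.WGen

/-!
# BSP/RFrc: the forcing theorem for countable models
-/

universe u

namespace Pool.Agent.ZFIter.NPA.BSM.SP

open Pool.Agent.H78.ZF Pool.Agent.ZFIter Pool.Agent.ZFIter.NPA
open FirstOrder

theorem frc_iff {ι : Type} [Finite ι] {M : Type u} [ZFM M] [Countable M]
    (Φ : ∀ (M : Type u) [ZFM M], (ι → M) → Prop) [UR Φ] {P R : M} [hpre : Pre P R] (v : ι → M) {p : M}
    (hp : p ∈ P) : Frc Φ P R v p ↔ ∀ (G : M → Prop) (hG : Gen P R G), G p →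
      Φ (Fo.mk P R G hpre hG).Ext (fun i => (Fo.mk P R G hpre hG).val (v i)) := by
  constructor
  · intro h G hG hGp
    exact (truth_Frc Φ (Fo.mk P R G hpre hG) v).2 ⟨p, hGp, h⟩
  · intro h
    have hgood := good_Frc Φ P R v
    refine hgood.dense fun q hq => ?_
    obtain ⟨G, hG, hGq⟩ := exists_gen P R q hq.memL
    have hGp : G p := hG.up q p hGq hq
    obtain ⟨r, hr, h1⟩ := (truth_Frc Φ (Fo.mk P R G hpre hG) v).1 (h G hG hGp)
    obtain ⟨s, hs, h2, h3⟩ := hG.dir r q hr hGq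
    exact ⟨s, h3, hgood.mono h1 h2⟩

end Pool.Agent.ZFIter.NPA.BSM.SP
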