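import Pool.Agent.BSP.RSpec

/-!
# BSP/RInt: the interface with section (R), forcing over `L(R)`

`Ψ N s r z A`: `L(R)` satisfies: the condition `z` forces that `A` is an element of the set named by the
`s`-th name definable from the real `r`.
-/

universe u

namespace Pool.Agent.ZFIter.NPA.BSM.SP

open Pool.Agent.H78.ZF Pool.Agent.ZFIter Pool.Agent.ZFIter.NPA

/-- The relation `R z A`, for `z ⊆ q`, is the forcing relation of an ultrafilter. -/
structure PsiAx {N : Type u} [ZFM N] (R : N → N → Prop) (q : N) : Prop where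
  mono : ∀ z z' A A', z ⊆ q → InfS z → InfS z' → z' ⊆ z → A ⊆ A' → A' ⊆ omega → R z A → R z' A'
  inter : ∀ z A B, z ⊆ q → InfS z → R z A → R z B → R z (sep A (fun k => k ∈ B))
  ne : ∀ z A, z ⊆ q → InfS z → R z A → ∃ n, n ∈ A
  tot : ∀ z A, z ⊆ q → InfS z → A ⊆ omega →
    ∃ z', z' ⊆ z ∧ InfS z' ∧ (R z' A ∨ R z' (sep omega (fun k => k ∉ A)))

section

variable {N : Type u} [ZFM N]

private theorem le_sub {x y : N} (hx : InfS x) (hy : InfS y) (h : x ⊆ y) :
    Le (IS : Sub (LR : N → Prop)) ISR (mkSub x (lr_subom hx.1)) (mkSub y (lr_subom hy.1)) :=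
  le_IS.2 ⟨sub_InfS.2 hx, sub_InfS.2 hy, abs_sub.2 h⟩

private theorem psiAx_of {s r q : N} (hs : LR s) (hr : LR r) (hq : InfS q)
    (h : FU (M := Sub (LR : N → Prop)) (hP (mkSub s hs) (mkSub r hr)) (mkSub q (lr_subom hq.1))) :
    PsiAx (Psi N s r) q where
  mono z z' A A' hzq hz hz' hzz hAA hA' h1 := by
    have hA : A ⊆ omega := sub_trans hAA hA'
    rw [psi_iff hs hr (lr_subom hz.1) (lr_subom hA)] at h1
    rw [psi_iff hs hr (lr_subom hz'.1) (lr_subom hA')]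
    refine fm_mono h (le_sub hz hq hzq) h1 (le_sub hz' hz hzz) (abs_sub.2 hAA) (abs_sub.2 ?_)
    rw [abs_omega]
    exact hA'
  inter z A B hzq hz h1 h2 := by
    have hA : LR A := (psi_lr h1).2.2.2
    have hB : LR B := (psi_lr h2).2.2.2
    rw [psi_iff hs hr (lr_subom hz.1) hA] at h1
    rw [psi_iff hs hr (lr_subom hz.1) hB] at h2
    have h3 := fm_inter h (le_sub hz hq hzq) h1 h2
    have e : (sep (mkSub A hA : Sub (LR : N → Prop)) (fun k => k ∈ mkSub B hB)).1 =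
        sep A (fun k => k ∈ B) :=
      em_inter (i := fun x : Sub (LR : N → Prop) => x.1) (mkSub A hA) (mkSub B hB)
    have h4 : LR (sep A (fun k => k ∈ B)) := by
      rw [← e]
      exact (sep (mkSub A hA : Sub (LR : N → Prop)) (fun k => k ∈ mkSub B hB)).2
    rw [psi_iff hs hr (lr_subom hz.1) h4]
    have e2 : sep (mkSub A hA : Sub (LR : N → Prop)) (fun k => k ∈ mkSub B hB) =
        mkSub (sep A (fun k => k ∈ B)) h4 := sub_inj e
    rw [← e2]
    exact h3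
  ne z A hzq hz h1 := by
    by_contra hcon
    push Not at hcon
    have hA : LR A := (psi_lr h1).2.2.2
    rw [psi_iff hs hr (lr_subom hz.1) hA] at h1
    refine fm_ne h (le_sub hz hq hzq) ?_
    have e : (mkSub A hA : Sub (LR : N → Prop)) = emp := by
      apply sub_inj
      rw [abs_emp]
      exact eq_emp hcon
    rw [← e]
    exact h1
  tot z A hzq hz hA := by
    have hA2 : (mkSub A (lr_subom hA) : Sub (LR : N → Prop)) ⊆ omega := by
      rw [abs_sub, abs_omega]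
      exact hA
    have hc : (sep omega (fun k => k ∉ A) : N) ⊆ omega := fun k hk => ((mem_sep _ _ _).1 hk).1
    obtain ⟨z', h1, h2⟩ := fm_tot h (le_sub hz hq hzq) hA2
    rw [le_IS] at h1
    refine ⟨z'.1, abs_sub.1 h1.2.2, sub_InfS.1 h1.1, ?_⟩
    rcases h2 with h2 | h2
    · left
      rw [psi_iff hs hr z'.2 (lr_subom hA)]
      exact h2
    · right
      rw [psi_iff hs hr z'.2 (lr_subom hc)]
      have e : sep (omega : Sub (LR : N → Prop)) (fun k => k ∉ mkSub A (lr_subom hA)) =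
          mkSub (sep omega (fun k => k ∉ A)) (lr_subom hc) :=
        sub_inj (em_compl (i := fun x : Sub (LR : N → Prop) => x.1) (mkSub A (lr_subom hA)))
      rw [← e]
      exact h2

end

/-- Section (R): every ultrafilter of `L(R)[p]`, `p` generic over `L(R)`, is given by a forcing relation
which is uniformly definable and absolute between the model and its inner models with all reals. -/
theorem exists_psi : ∃ Ψ : ∀ (N : Type u) [ZFM N], N → N → N → N → Prop,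
    UR (fun M _ (v : Fin 4 → M) => Ψ M (v 0) (v 1) (v 2) (v 3)) ∧
    (∀ (N : Type u) [ZFM N] (K : N → Prop) [Inner K], (∀ x, x ∈ (RS : N) → K x) →
      ∀ s r z A : Sub K, Ψ (Sub K) s r z A ↔ Ψ N s.1 r.1 z.1 A.1) ∧
    ∀ (N : Type u) [ZFM N] (p U : N), Uf p → Nonpr p → GenLR p → Uf U → InLRp p U →
      ∃ s r q : N, Ord s ∧ r ∈ (RS : N) ∧ q ∈ p ∧ InfS q ∧ PsiAx (Ψ N s r) q ∧
        ∀ A, A ⊆ omega → (A ∈ U ↔ ∃ z, z ∈ p ∧ z ⊆ q ∧ Ψ N s r z A) := by
  refine ⟨Psi, ur_Psi, fun N _ K _ hR s r z A => abs_Psi hR s r z A, ?_⟩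
  intro N _ p U hp hn hg hU hUp
  obtain ⟨y0, hy0, rfl⟩ := rv_of_inLRp hp hn hg hUp
  obtain ⟨F, j, hFP, hFR, hFG, hj, hcan, hgam, hval⟩ := exists_embLR hp hn hg
  obtain ⟨s, hs, r, hr, hsr⟩ := lr_LR (mkSub y0 hy0)
  have hsO : Ord s.1 := abs_Ord.1 hs
  have hrR : r.1 ∈ (RS : N) := abs_RS.1 hr
  have hsL : LR s.1 := s.2
  have hrL : LR r.1 := r.2
  have hv0 : j (F.val (mkSub y0 hy0)) = ev p y0 := hval _
  have huf : Uf (F.val (mkSub y0 hy0)) := by
    apply em_Uf (i := j)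
    rw [hv0]
    exact hU
  obtain ⟨q, hqG, hq⟩ := (truth_Frc (fun _ _ (v : Fin 1 → _) => Uf (v 0)) F ![mkSub y0 hy0]).1 huf
  rw [hFP, hFR] at hq
  have hqp : q.1 ∈ p := (hFG q).1 hqG
  have hqI : InfS q.1 := uf_inf hp hn hqp
  have hq' : FU (M := Sub (LR : N → Prop)) (hP (mkSub s.1 hsL) (mkSub r.1 hrL))
      (mkSub q.1 (lr_subom hqI.1)) := by
    have e : hP (mkSub s.1 hsL) (mkSub r.1 hrL) = (mkSub y0 hy0 : Sub (LR : N → Prop)) := hsr.symm
    rw [e]
    exact hq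
  have hAx := psiAx_of hsL hrL hqI hq'
  refine ⟨s.1, r.1, q.1, hsO, hrR, hqp, hqI, hAx, fun A hA => ?_⟩
  have hps : ∀ z (hz : InfS z), (Psi N s.1 r.1 z A ↔
      FM (mkSub A (lr_subom hA)) (mkSub y0 hy0) (mkSub z (lr_subom hz.1))) := by
    intro z hz
    rw [psi_iff hsL hrL (lr_subom hz.1) (lr_subom hA)]
    have e : hP (mkSub s.1 hsL) (mkSub r.1 hrL) = (mkSub y0 hy0 : Sub (LR : N → Prop)) := hsr.symm
    rw [e]
  have ht : (A ∈ ev p y0 ↔ ∃ z, F.G z ∧ FM (mkSub A (lr_subom hA)) (mkSub y0 hy0) z) := by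
    have h1 := truth_Frc (fun _ _ (v : Fin 2 → _) => v 0 ∈ v 1) F
      ![chk IS (mkSub A (lr_subom hA)), mkSub y0 hy0]
    rw [hFP, hFR] at h1
    have h2 : (A ∈ ev p y0 ↔ can F (mkSub A (lr_subom hA)) ∈ F.val (mkSub y0 hy0)) := by
      rw [← em_mem (i := j), hv0, hcan]
      exact Iff.rfl
    rw [h2]
    have h3 : can F (mkSub A (lr_subom hA)) = F.val (chk IS (mkSub A (lr_subom hA))) := by
      rw [← hFP]
      rfl
    rw [h3]
    exact h1
  rw [ht]
  constructor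
  · rintro ⟨z, hz, h1⟩
    have hzp : z.1 ∈ p := (hFG z).1 hz
    have h2 := hp.inter hzp hqp
    have h3 := uf_inf hp hn h2
    refine ⟨sep z.1 (fun k => k ∈ q.1), h2, fun k hk => ((mem_sep _ _ _).1 hk).2, ?_⟩
    rw [hps _ h3]
    exact (good_Frc (fun _ _ (v : Fin 2 → _) => v 0 ∈ v 1) (IS : Sub (LR : N → Prop)) ISR
      ![chk IS (mkSub A (lr_subom hA)), mkSub y0 hy0]).mono h1
      (le_sub h3 (uf_inf hp hn hzp) (fun k hk => ((mem_sep _ _ _).1 hk).1))
  · rintro ⟨z, hzp, _, h1⟩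
    have h3 := uf_inf hp hn hzp
    rw [hps _ h3] at h1
    exact ⟨mkSub z (lr_subom h3.1), (hFG _).2 hzp, h1⟩

end Pool.Agent.ZFIter.NPA.BSM.SP
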