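import Pool.Agent.BSP.UZf

/-!
# BSP/RRel: relativization to an inner model, uniformly in all models of ZF
-/

universe u

namespace Pool.Agent.ZFIter.NPA.BSM.SP

open Pool.Agent.H78.ZF Pool.Agent.ZFIter Pool.Agent.ZFIter.NPA
open FirstOrder

/-- An element of an inner model, as an element of the type `Sub K`. -/
def mkSub {M : Type u} [ZFM M] {K : M → Prop} (x : M) (h : K x) : Sub K := ⟨x, h⟩

section

variable (K : ∀ (M : Type u) [ZFM M], M → Prop)

private theorem rrel_var {α : Type} (t : LSet.Term α) : ∃ a, t = FirstOrder.Language.Term.var a := by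
  cases t with
  | var a => exact ⟨a, rfl⟩
  | func f _ => exact nomatch f

private theorem rel_formula (κ : LSet.Formula Unit)
    (hκ : ∀ (M : Type u) [ZFM M] (v : Unit → M), κ.Realize v ↔ K M (v ())) {α : Type} {m : ℕ}
    (φ : LSet.BoundedFormula α m) :
    ∃ ψ : LSet.BoundedFormula α m, ∀ (M : Type u) [ZFM M] (v : α → M) (xs : Fin m → M)
      (hv : ∀ i, K M (v i)) (hxs : ∀ j, K M (xs j)),
      (ψ.Realize v xs ↔
        @Language.BoundedFormula.Realize LSet {x : M // K M x}
          (structOf (fun x y : {x : M // K M x} => x.1 ∈ y.1)) α m φ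
          (fun i => ⟨v i, hv i⟩) (fun j => ⟨xs j, hxs j⟩)) := by
  induction φ with
  | falsum => exact ⟨⊥, fun M _ v xs hv hxs => Iff.rfl⟩
  | @equal m t₁ t₂ =>
    obtain ⟨a, rfl⟩ := rrel_var t₁
    obtain ⟨b, rfl⟩ := rrel_var t₂
    refine ⟨Language.BoundedFormula.equal (Language.Term.var a) (Language.Term.var b),
      fun M _ v xs hv hxs => ?_⟩
    let _ := structOf (fun x y : {x : M // K M x} => x.1 ∈ y.1)
    simp only [Language.BoundedFormula.Realize, Language.Term.realize_var]
    have h1 : ∀ a : α ⊕ Fin m, (Sum.elim (fun i => (⟨v i, hv i⟩ : {x : M // K M x}))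
        (fun j => ⟨xs j, hxs j⟩) a).1 = Sum.elim v xs a := by
      intro a
      cases a <;> rfl
    rw [← h1 a, ← h1 b]
    exact Subtype.ext_iff.symm
  | @rel m l R ts =>
    refine ⟨Language.BoundedFormula.rel R ts, fun M _ v xs hv hxs => ?_⟩
    cases R
    obtain ⟨a, ha⟩ := rrel_var (ts 0)
    obtain ⟨b, hb⟩ := rrel_var (ts 1)
    let _ := structOf (fun x y : {x : M // K M x} => x.1 ∈ y.1)
    have h1 : ∀ a : α ⊕ Fin m, (Sum.elim (fun i => (⟨v i, hv i⟩ : {x : M // K M x}))
        (fun j => ⟨xs j, hxs j⟩) a).1 = Sum.elim v xs a := by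
      intro a
      cases a <;> rfl
    have e : ∀ w : Fin 2 → M,
        (Language.Structure.RelMap (L := LSet) MemSymb.mem w ↔ w 0 ∈ w 1) := fun w => Iff.rfl
    have e' : ∀ w : Fin 2 → {x : M // K M x},
        (Language.Structure.RelMap (L := LSet) MemSymb.mem w ↔ (w 0).1 ∈ (w 1).1) :=
      fun w => Iff.rfl
    simp only [Language.BoundedFormula.Realize]
    rw [e, e', ha, hb, Language.Term.realize_var, Language.Term.realize_var,
      Language.Term.realize_var, Language.Term.realize_var, h1, h1]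
  | @imp m f g ihf ihg =>
    obtain ⟨ψ1, h1⟩ := ihf
    obtain ⟨ψ2, h2⟩ := ihg
    refine ⟨ψ1.imp ψ2, fun M _ v xs hv hxs => ?_⟩
    let _ := structOf (fun x y : {x : M // K M x} => x.1 ∈ y.1)
    rw [Language.BoundedFormula.realize_imp, Language.BoundedFormula.realize_imp, h1 M v xs hv hxs,
      h2 M v xs hv hxs]
  | @all m f ih =>
    obtain ⟨ψ, h⟩ := ih
    let κ' : LSet.BoundedFormula α (m + 1) := Language.BoundedFormula.relabel (n := m + 1) (k := 0)
      (fun _ : Unit => (Sum.inr (Fin.last m) : α ⊕ Fin (m + 1))) κ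
    refine ⟨(κ'.imp ψ).all, fun M _ v xs hv hxs => ?_⟩
    let _ := structOf (fun x y : {x : M // K M x} => x.1 ∈ y.1)
    have hκ' : ∀ x : M, κ'.Realize v (Fin.snoc xs x) ↔ K M x := by
      intro x
      rw [← hκ M (fun _ => x)]
      show (Language.BoundedFormula.relabel (n := m + 1) (k := 0)
        (fun _ : Unit => (Sum.inr (Fin.last m) : α ⊕ Fin (m + 1))) κ).Realize v (Fin.snoc xs x) ↔ _
      rw [Language.BoundedFormula.realize_relabel]
      unfold Language.Formula.Realize
      have e1 : (Sum.elim v ((Fin.snoc xs x : Fin (m + 1) → M) ∘ Fin.castAdd 0) ∘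
          fun _ : Unit => (Sum.inr (Fin.last m) : α ⊕ Fin (m + 1))) = fun _ => x := by
        funext _
        show (Fin.snoc xs x : Fin (m + 1) → M) (Fin.last m) = x
        rw [Fin.snoc_last]
      have e2 : ((Fin.snoc xs x : Fin (m + 1) → M) ∘ Fin.natAdd (m + 1) : Fin 0 → M) = default := by
        funext i
        exact i.elim0
      rw [e1, e2]
    rw [Language.BoundedFormula.realize_all, Language.BoundedFormula.realize_all]
    constructor
    · intro h1 x
      have h2 := h1 x.1
      rw [Language.BoundedFormula.realize_imp, hκ'] at h2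
      have h3 := h2 x.2
      have hs : ∀ j, K M ((Fin.snoc xs x.1 : Fin (m + 1) → M) j) := by
        intro j
        refine Fin.lastCases ?_ (fun j => ?_) j
        · rw [Fin.snoc_last]; exact x.2
        · rw [Fin.snoc_castSucc]; exact hxs j
      rw [h M v _ hv hs] at h3
      have e : (fun j => (⟨(Fin.snoc xs x.1 : Fin (m + 1) → M) j, hs j⟩ : {x : M // K M x})) =
          Fin.snoc (fun j => ⟨xs j, hxs j⟩) x := by
        funext j
        refine Fin.lastCases ?_ (fun j => ?_) j
        · apply Subtype.ext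
          simp only [Fin.snoc_last]
        · apply Subtype.ext
          simp only [Fin.snoc_castSucc]
      rw [e] at h3
      exact h3
    · intro h1 x
      rw [Language.BoundedFormula.realize_imp, hκ']
      intro hx
      have hs : ∀ j, K M ((Fin.snoc xs x : Fin (m + 1) → M) j) := by
        intro j
        refine Fin.lastCases ?_ (fun j => ?_) j
        · rw [Fin.snoc_last]; exact hx
        · rw [Fin.snoc_castSucc]; exact hxs j
      rw [h M v _ hv hs]
      have e : (fun j => (⟨(Fin.snoc xs x : Fin (m + 1) → M) j, hs j⟩ : {x : M // K M x})) =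
          Fin.snoc (fun j => ⟨xs j, hxs j⟩) ⟨x, hx⟩ := by
        funext j
        refine Fin.lastCases ?_ (fun j => ?_) j
        · apply Subtype.ext
          simp only [Fin.snoc_last]
        · apply Subtype.ext
          simp only [Fin.snoc_castSucc]
      rw [e]
      exact h1 ⟨x, hx⟩

end

theorem UR.forall_fin {ι : Type} (n : ℕ) (P : Fin n → ∀ (M : Type u) [ZFM M], (ι → M) → Prop)
    (h : ∀ i, UR (P i)) : UR (fun M _ v => ∀ i, P i M v) := by
  induction n with
  | zero =>
    refine (UR.const True).congr fun M _ v => ?_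
    simp
  | succ n ih =>
    have h1 := ih (fun i => P i.castSucc) (fun i => h _)
    have h2 := h (Fin.last n)
    have h3 : UR (fun M _ (v : ι → M) => (∀ i : Fin n, P i.castSucc M v) ∧ P (Fin.last n) M v) :=
      UR.and _ _
    refine h3.congr fun M _ v => ?_
    rw [Fin.forall_fin_succ']

/-- Relativization of a uniformly definable relation to a uniformly definable inner model. -/
theorem UR.rel {n : ℕ} (K : ∀ (M : Type u) [ZFM M], M → Prop) [hK : U1 K]
    [hI : ∀ (M : Type u) [ZFM M], Inner (K M)] (Φ : ∀ (M : Type u) [ZFM M], (Fin n → M) → Prop)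
    [h : UR Φ] :
    UR (fun M _ (v : Fin n → M) => ∃ h : ∀ i, K M (v i),
      Φ (Sub (K M)) (fun i => mkSub (v i) (h i))) := by
  obtain ⟨κ, hκ⟩ := hK.out.out
  obtain ⟨φ, hφ⟩ := h.out
  obtain ⟨ψ, hψ⟩ := rel_formula K κ hκ φ
  have h1 : UR (fun M _ (v : Fin n → M) => ∀ i, K M (v i)) :=
    UR.forall_fin n _ (fun i => U1.comp K (fun M _ v => v i))
  have h2 : UR (fun M _ (v : Fin n → M) => Language.Formula.Realize ψ v) := ⟨⟨ψ, fun M _ v => Iff.rfl⟩⟩
  have h3 : UR (fun M _ (v : Fin n → M) => (∀ i, K M (v i)) ∧ Language.Formula.Realize ψ v) :=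
    UR.and _ _
  refine h3.congr fun M _ v => ?_
  have key : ∀ hv : ∀ i, K M (v i), (Language.Formula.Realize ψ v ↔
      Φ (Sub (K M)) (fun i => mkSub (v i) (hv i))) := by
    intro hv
    refine Iff.trans ?_ (hφ (Sub (K M)) (fun i => mkSub (v i) (hv i)))
    unfold Language.Formula.Realize
    rw [hψ M v default hv (fun j => j.elim0)]
    have e : (fun j : Fin 0 => (⟨(default : Fin 0 → M) j, j.elim0⟩ : {x : M // K M x})) = default := by
      funext j
      exact j.elim0
    rw [e]
    exact Iff.rfl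
  constructor
  · rintro ⟨hv, h4⟩
    exact ⟨hv, (key hv).1 h4⟩
  · rintro ⟨hv, h4⟩
    exact ⟨hv, (key hv).2 h4⟩

end Pool.Agent.ZFIter.NPA.BSM.SP
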