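import Pool.Agent.BSP.UFor
import Pool.Agent.ZFIter.Copy

/-!
# BSP/SIso: isomorphic models
-/

universe u

namespace Pool.Agent.ZFIter.NPA.BSM.SP

open Pool.Agent.H78.ZF Pool.Agent.ZFIter Pool.Agent.ZFIter.NPA
open FirstOrder

/-- A relation which corresponds to the membership relation of a model of ZF under a bijection is
the membership relation of a model of ZF. -/
theorem isZF_equiv {S T : Type u} {E : S → S → Prop} {E' : T → T → Prop} (e : S ≃ T)
    (he : ∀ x y, E' (e x) (e y) ↔ E x y) (h : IsZFModel E) : IsZFModel E' := by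
  have h1 : copyRel e E = E' := by
    funext x y
    apply propext
    show E (e.symm x) (e.symm y) ↔ E' x y
    rw [← he, Equiv.apply_symm_apply, Equiv.apply_symm_apply]
  rw [← h1]
  exact isZFModel_copy e E h

/-- Isomorphic models satisfy the same uniformly definable relations. -/
theorem UR.iso {ι : Type} (Φ : ∀ (M : Type u) [ZFM M], (ι → M) → Prop) [h : UR Φ] {M N : Type u}
    [ZFM M] [ZFM N] (e : M ≃ N) (he : ∀ x y, e x ∈ e y ↔ x ∈ y) (v : ι → M) :
    Φ N (fun i => e (v i)) ↔ Φ M v := by
  obtain ⟨φ, hφ⟩ := h.out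
  rw [← hφ, ← hφ]
  let f : M ≃[LSet] N :=
    { toEquiv := e
      map_fun' := fun f _ => nomatch f
      map_rel' := fun r v => by
        cases r
        exact he (v 0) (v 1) }
  exact FirstOrder.Language.StrongHomClass.realize_formula f φ

end Pool.Agent.ZFIter.NPA.BSM.SP
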