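import Pool.Agent.BSP.RAx
import Pool.Agent.BSP.RRel
import Pool.Agent.BSP.SIso

/-!
# BSP/RPsi: the forcing relation over `L(R)`

`Psi N s r z A`: in `L(R)` (of `N`) the condition `z` forces that `A` belongs to the set with the name
`hP s r`.
-/

universe u

namespace Pool.Agent.ZFIter.NPA.BSM.SP

open Pool.Agent.H78.ZF Pool.Agent.ZFIter Pool.Agent.ZFIter.NPA
open FirstOrder

instance U1.LR : U1.{u} (fun _ _ x => BSM.LR x) :=
  ⟨(inferInstance : UR.{u} (fun _ _ (v : Unit → _) => BSM.LR (v ())))⟩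

/-- The relation in one model. -/
def Phi0 (M : Type u) [ZFM M] (v : Fin 4 → M) : Prop := FM (v 3) (hP (v 0) (v 1)) (v 2)

instance UR.Phi0 : UR.{u} SP.Phi0 := by
  show UR.{u} (fun M _ (v : Fin 4 → M) => SP.FM (v 3) (hP (v 0) (v 1)) (v 2))
  infer_instance

/-- `Phi0` in `L(R)`. -/
def Psi (N : Type u) [ZFM N] (s r z A : N) : Prop :=
  ∃ h : ∀ i, LR (![s, r, z, A] i), Phi0 (Sub (LR : N → Prop)) (fun i => mkSub (![s, r, z, A] i) (h i))

theorem ur_Psi : UR.{u} (fun M _ (v : Fin 4 → M) => Psi M (v 0) (v 1) (v 2) (v 3)) := by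
  have h := UR.rel.{u} (fun M _ => (LR : M → Prop)) SP.Phi0
  refine h.congr fun M _ v => ?_
  have e : v = ![v 0, v 1, v 2, v 3] := by
    funext i
    fin_cases i <;> rfl
  constructor
  · rintro ⟨h1, h2⟩
    rw [e] at h1
    refine ⟨h1, ?_⟩
    have e2 : (fun i => mkSub (v i) (by rw [e]; exact h1 i)) =
        (fun i => mkSub (![v 0, v 1, v 2, v 3] i) (h1 i) : Fin 4 → Sub (LR : M → Prop)) := by
      funext i
      fin_cases i <;> rfl
    rw [← e2]
    exact h2
  · rintro ⟨h1, h2⟩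
    have h3 : ∀ i, LR (v i) := by
      intro i
      rw [e]
      exact h1 i
    refine ⟨h3, ?_⟩
    have e2 : (fun i => mkSub (v i) (h3 i)) =
        (fun i => mkSub (![v 0, v 1, v 2, v 3] i) (h1 i) : Fin 4 → Sub (LR : M → Prop)) := by
      funext i
      fin_cases i <;> rfl
    rw [e2]
    exact h2

theorem psi_iff {N : Type u} [ZFM N] {s r z A : N} (hs : LR s) (hr : LR r) (hz : LR z) (hA : LR A) :
    Psi N s r z A ↔ FM (M := Sub (LR : N → Prop)) (mkSub A hA) (hP (mkSub s hs) (mkSub r hr))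
      (mkSub z hz) := by
  constructor
  · rintro ⟨h, h1⟩
    exact h1
  · intro h1
    refine ⟨fun i => ?_, h1⟩
    fin_cases i
    · exact hs
    · exact hr
    · exact hz
    · exact hA

theorem psi_lr {N : Type u} [ZFM N] {s r z A : N} (h : Psi N s r z A) : LR s ∧ LR r ∧ LR z ∧ LR A := by
  obtain ⟨h, _⟩ := h
  exact ⟨h 0, h 1, h 2, h 3⟩

section abs

variable {N : Type u} [ZFM N] {K : N → Prop} [Inner K] (hR : ∀ x, x ∈ (RS : N) → K x)
include hR

/-- The model `L(R)` of an inner model with all reals. -/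
private def lrE : Sub (LR : Sub K → Prop) ≃ Sub (LR : N → Prop) where
  toFun x := mkSub x.1.1 ((abs_LR hR).1 x.2)
  invFun y := mkSub (mkSub y.1 (lr_min hR y.2)) ((abs_LR hR).2 y.2)
  left_inv x := rfl
  right_inv y := rfl

theorem abs_Psi (s r z A : Sub K) : Psi (Sub K) s r z A ↔ Psi N s.1 r.1 z.1 A.1 := by
  have key : ∀ (hs : LR s) (hr : LR r) (hz : LR z) (hA : LR A),
      (Psi (Sub K) s r z A ↔ Psi N s.1 r.1 z.1 A.1) := by
    intro hs hr hz hA
    rw [psi_iff hs hr hz hA, psi_iff ((abs_LR hR).1 hs) ((abs_LR hR).1 hr) ((abs_LR hR).1 hz)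
      ((abs_LR hR).1 hA)]
    exact (UR.iso SP.Phi0 (lrE hR) (fun x y => Iff.rfl)
      ![mkSub s hs, mkSub r hr, mkSub z hz, mkSub A hA]).symm
  constructor
  · intro h
    obtain ⟨h1, h2, h3, h4⟩ := psi_lr h
    exact (key h1 h2 h3 h4).1 h
  · intro h
    obtain ⟨h1, h2, h3, h4⟩ := psi_lr h
    exact (key ((abs_LR hR).2 h1) ((abs_LR hR).2 h2) ((abs_LR hR).2 h3) ((abs_LR hR).2 h4)).2 h

end abs

end Pool.Agent.ZFIter.NPA.BSM.SP
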