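import Pool.Agent.BSP.SEv

/-!
# BSP/SEmb: the extension `M[G]` inside a model `N` which contains `M` and `G`

`i : M → N` is a transitive embedding (`TEm`), `g ∈ N` is the generic filter `F.G`. Then
`j(val y) := ev g (i y)` is a transitive embedding of `F.Ext` in `N`.

KEY LEMMA: `F.val a = F.val b ↔ ev g (i a) = ev g (i b)`. Let `t` be a transitive set of `M` with
`a, b ∈ t` (`tcl`), and `W ∈ M` the set of all `opair p (opair x y)`, `p ∈ P`, `x, y ∈ t`, with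
`FEq P R p x y`. Everything below is an induction INSIDE `N` (`mem_induction` in `N`, for statements
which mention only `i W`, `g`, `i t`); the elements of `i W`, `i t` are of the form `i _` (`em_elim`,
`em_opair_elim`).
(→) For all `x y q` in `N`: `opair q (opair x y) ∈ i W` and `q ∈ g` imply `ev g x = ev g y`
  (induction on `x`; `FEq` satisfies the clause `FEq_def`, `Half1`, `Half2` / `feq_iff`, and `G` meets every
  definable class of `M` which is dense below an element of `G` (`Fo.below`): for `(z, s) ∈ x`, `s ∈ g`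
  there is `r ∈ g` and `(w, t) ∈ y`, `r ≤ t`, with `FEq r z w`; so `ev g z = ev g w ∈ ev g y`, using `mem_ev`).
(←) For all `x y` in `i t`: `ev g x = ev g y` implies `opair q (opair x y) ∈ i W` for some `q ∈ g`
  (induction on `x`): otherwise some `p ∈ G` has no extension which forces `x' = y'` (`Fo.decide`), so
  below `p` it is dense that the clause for equality fails (`feq_iff`): some `(z, s) ∈ x'` and a
  condition `q' ≤ s` such that no `r ≤ q'` has `(w, t) ∈ y'`, `r ≤ t`, `FEq r z w` (or the same with `x', y'`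
  exchanged); `G` contains such a `q'`; `ev g z ∈ ev g x = ev g y`, so `ev g z = ev g w` with `(w, t) ∈ y`,
  `t ∈ g`, by the induction hypothesis some `r ∈ G` forces `z = w`; a common extension of `q', r, t`
  gives a contradiction.

Then: membership (`mem_val'`, `mem_ev`), transitivity, ordinals. `j (can x) = i x`: let
`c = mkseq (tcl x) (fun x => chk P x) ∈ M`; by induction in `N`, `ev g (ap (i c) w) = w` for all
`w ∈ i (tcl x)` (`opair_mem_chk`). `j (gam F) = g`: definition of `gam`.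
-/

universe u v

namespace Pool.Agent.ZFIter.NPA.BSM.SP

open Pool.Agent.H78.ZF Pool.Agent.ZFIter Pool.Agent.ZFIter.NPA

section

variable {M : Type u} [ZFM M] {N : Type v} [ZFM N] {i : M → N} [hi : TEm i] {F : Fo M} {g : N}

/-- the set of all forced equalities between elements of `t` -/
private noncomputable def eqs (P R t : M) : M :=
  sep (prod P (prod t t)) (fun w => ∃ p x y, w = opair p (opair x y) ∧ FEq P R p x y)

private theorem mem_eqs {P R t p x y : M} :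
    opair p (opair x y) ∈ eqs P R t ↔ p ∈ P ∧ x ∈ t ∧ y ∈ t ∧ FEq P R p x y := by
  unfold eqs
  rw [mem_sep, opair_mem_prod, opair_mem_prod]
  constructor
  · rintro ⟨⟨h1, h2, h3⟩, p', x', y', e, h4⟩
    obtain ⟨rfl, e2⟩ := opair_inj e
    obtain ⟨rfl, rfl⟩ := opair_inj e2
    exact ⟨h1, h2, h3, h4⟩
  · rintro ⟨h1, h2, h3, h4⟩
    exact ⟨⟨h1, h2, h3⟩, p, x, y, rfl, h4⟩

private theorem em_eqs {P R t : M} {q x y : N} :
    opair q (opair x y) ∈ i (eqs P R t) ↔ ∃ q' x' y', q = i q' ∧ x = i x' ∧ y = i y' ∧ q' ∈ P ∧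
      x' ∈ t ∧ y' ∈ t ∧ FEq P R q' x' y' := by
  constructor
  · intro h
    obtain ⟨q', w, h1, rfl, h2⟩ := em_opair_elim h
    obtain ⟨x', y', rfl, rfl, rfl⟩ := em_of_opair h2
    obtain ⟨h3, h4, h5, h6⟩ := mem_eqs.1 h1
    exact ⟨q', x', y', rfl, rfl, rfl, h3, h4, h5, h6⟩
  · rintro ⟨q', x', y', rfl, rfl, rfl, h3, h4, h5, h6⟩
    rw [← em_opair, em_opair_mem]
    exact mem_eqs.2 ⟨h3, h4, h5, h6⟩

private theorem emb1 (hg : ∀ z, z ∈ g ↔ ∃ q, F.G q ∧ z = i q) {t : M} (ht : Trans t) (x : N) :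
    ∀ y q, opair q (opair x y) ∈ i (eqs F.P F.R t) → q ∈ g → ev g x = ev g y := by
  revert x
  refine pair_induction (fun x => ∀ y q, opair q (opair x y) ∈ i (eqs F.P F.R t) → q ∈ g →
    ev g x = ev g y) ?_
  intro x ih y q hW hq
  obtain ⟨q', x', y', rfl, rfl, rfl, hqP, hx, hy, hE⟩ := em_eqs.1 hW
  have hG : F.G q' := by
    obtain ⟨q2, h1, h2⟩ := (hg _).1 hq
    rw [em_inj h2]
    exact h1
  have hcl := feq_clause hE
  refine ext fun w => ?_
  rw [mem_ev, mem_ev]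
  constructor
  · rintro ⟨z, r, hz, hr, rfl⟩
    obtain ⟨z', r', hz', rfl, rfl⟩ := em_opair_elim hz
    have hGr : F.G r' := by
      obtain ⟨q2, h1, h2⟩ := (hg _).1 hr
      rw [em_inj h2]
      exact h1
    obtain ⟨p0, hp0, h1, h2⟩ := F.gen.dir q' r' hG hGr
    obtain ⟨r2, hr2, w, u, hw, hu, hE2⟩ := Fo.below (F := F)
      (fun r => ∃ w t, opair w t ∈ y' ∧ Le F.P F.R r t ∧ FEq F.P F.R r z' w) hp0
      (fun p hp => hcl.1 z' r' hz' p (Pre.trans hp h1) (Pre.trans hp h2))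
    refine ⟨i w, i u, em_opair_mem.2 hw, (hg _).2 ⟨u, F.gen.up r2 u hr2 hu, rfl⟩, ?_⟩
    exact ih (i z') (i r') hz (i w) (i r2) (em_eqs.2 ⟨r2, z', w, rfl, rfl, rfl, Fo.G_mem hr2,
      mem_of_opair ht (ht _ hx) hz', mem_of_opair ht (ht _ hy) hw, hE2⟩) ((hg _).2 ⟨r2, hr2, rfl⟩)
  · rintro ⟨w, u, hw, hu, rfl⟩
    obtain ⟨w', u', hw', rfl, rfl⟩ := em_opair_elim hw
    have hGu : F.G u' := by
      obtain ⟨q2, h1, h2⟩ := (hg _).1 hu
      rw [em_inj h2]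
      exact h1
    obtain ⟨p0, hp0, h1, h2⟩ := F.gen.dir q' u' hG hGu
    obtain ⟨r2, hr2, z, s, hz, hs, hE2⟩ := Fo.below (F := F)
      (fun r => ∃ z s, opair z s ∈ x' ∧ Le F.P F.R r s ∧ FEq F.P F.R r z w') hp0
      (fun p hp => hcl.2 w' u' hw' p (Pre.trans hp h1) (Pre.trans hp h2))
    refine ⟨i z, i s, em_opair_mem.2 hz, (hg _).2 ⟨s, F.gen.up r2 s hr2 hs, rfl⟩, ?_⟩
    exact (ih (i z) (i s) (em_opair_mem.2 hz) (i w') (i r2) (em_eqs.2 ⟨r2, z, w', rfl, rfl, rfl,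
      Fo.G_mem hr2, mem_of_opair ht (ht _ hx) hz, mem_of_opair ht (ht _ hy) hw', hE2⟩)
      ((hg _).2 ⟨r2, hr2, rfl⟩)).symm

/-- the statement that below `p` some element of `x` is not forced to be in `y` -/
private def Bad (P R x y p : M) : Prop :=
  (∃ z s, opair z s ∈ x ∧ Le P R p s ∧ ∀ r, Le P R r p → ∀ w t, opair w t ∈ y → Le P R r t →
      ¬ FEq P R r z w) ∨
    ∃ w t, opair w t ∈ y ∧ Le P R p t ∧ ∀ r, Le P R r p → ∀ z s, opair z s ∈ x → Le P R r s →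
      ¬ FEq P R r z w

private instance DR.Bad {ι : Type} (P R x y p : (ι → M) → M) [DF P] [DF R] [DF x] [DF y] [DF p] :
    DR (fun v => Bad (P v) (R v) (x v) (y v) (p v)) := by
  unfold SP.Bad
  infer_instance

private theorem exists_bad {P R x y q : M} (hE : ¬ FEq P R q x y) :
    ∃ r, Le P R r q ∧ Bad P R x y r := by
  rw [feq_iff] at hE
  unfold EqClause at hE
  rw [not_and_or] at hE
  rcases hE with hE | hE
  · push Not at hE
    obtain ⟨z, s, hz, r, hr, hs, h⟩ := hE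
    exact ⟨r, hr, Or.inl ⟨z, s, hz, hs, fun r' hr' w t hw ht he => h r' hr' w t hw ht he⟩⟩
  · push Not at hE
    obtain ⟨w, t, hw, r, hr, hs, h⟩ := hE
    exact ⟨r, hr, Or.inr ⟨w, t, hw, hs, fun r' hr' z s hz hs' he => h r' hr' z s hz hs' he⟩⟩

private theorem emb2 (hg : ∀ z, z ∈ g ↔ ∃ q, F.G q ∧ z = i q) {t : M} (ht : Trans t) (x : N) :
    x ∈ i t → ∀ y, y ∈ i t → ev g x = ev g y →
      ∃ q, q ∈ g ∧ opair q (opair x y) ∈ i (eqs F.P F.R t) := by
  revert x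
  refine pair_induction (fun x => x ∈ i t → ∀ y, y ∈ i t → ev g x = ev g y →
      ∃ q, q ∈ g ∧ opair q (opair x y) ∈ i (eqs F.P F.R t)) ?_
  intro x ih hx y hy he
  obtain ⟨x', hx', rfl⟩ := em_elim.1 hx
  obtain ⟨y', hy', rfl⟩ := em_elim.1 hy
  obtain ⟨p, hp, hA | hA⟩ := Fo.decide (F := F) (fun p => FEq F.P F.R p x' y')
  · exact ⟨i p, (hg _).2 ⟨p, hp, rfl⟩, em_eqs.2 ⟨p, x', y', rfl, rfl, rfl, Fo.G_mem hp, hx', hy', hA⟩⟩
  exfalso
  obtain ⟨r, hr, hB⟩ := Fo.below (F := F) (fun r => Bad F.P F.R x' y' r) hp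
    (fun q hq => exists_bad (hA q hq))
  have key : ∀ z s w u, opair z s ∈ x' → F.G s → opair w u ∈ y' → F.G u →
      ev g (i z) = ev g (i w) → ∃ q, F.G q ∧ FEq F.P F.R q z w := by
    intro z s w u hz hs hw hu hzw
    have hzt : z ∈ t := mem_of_opair ht (ht _ hx') hz
    have hwt : w ∈ t := mem_of_opair ht (ht _ hy') hw
    obtain ⟨q, hq, hW⟩ := ih (i z) (i s) (em_opair_mem.2 hz) (em_mem.2 hzt) (i w) (em_mem.2 hwt) hzw
    obtain ⟨q', z', w', rfl, e1, e2, _, _, _, hE⟩ := em_eqs.1 hW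
    rw [← em_inj e1, ← em_inj e2] at hE
    obtain ⟨q2, h1, h2⟩ := (hg _).1 hq
    rw [← em_inj h2] at h1
    exact ⟨q', h1, hE⟩
  rcases hB with ⟨z, s, hz, hs, h⟩ | ⟨w, u, hw, hu, h⟩
  · have hGs := F.gen.up r s hr hs
    have h1 : ev g (i z) ∈ ev g (i x') :=
      mem_ev.2 ⟨i z, i s, em_opair_mem.2 hz, (hg _).2 ⟨s, hGs, rfl⟩, rfl⟩
    rw [he] at h1
    obtain ⟨w, u, hw, hu, hzw⟩ := mem_ev.1 h1
    obtain ⟨w', u', hw', rfl, rfl⟩ := em_opair_elim hw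
    obtain ⟨u2, hu2, e⟩ := (hg _).1 hu
    rw [← em_inj e] at hu2
    obtain ⟨q, hq, hE⟩ := key z s w' u' hz hGs hw' hu2 hzw
    obtain ⟨r1, hr1, h2, h3⟩ := F.gen.dir q u' hq hu2
    obtain ⟨r2, hr2, h4, h5⟩ := F.gen.dir r1 r hr1 hr
    exact h r2 h5 w' u' hw' (Pre.trans h4 h3) (feq_mono hE (Pre.trans h4 h2))
  · have hGu := F.gen.up r u hr hu
    have h1 : ev g (i w) ∈ ev g (i y') :=
      mem_ev.2 ⟨i w, i u, em_opair_mem.2 hw, (hg _).2 ⟨u, hGu, rfl⟩, rfl⟩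
    rw [← he] at h1
    obtain ⟨z, s, hz, hs, hzw⟩ := mem_ev.1 h1
    obtain ⟨z', s', hz', rfl, rfl⟩ := em_opair_elim hz
    obtain ⟨s2, hs2, e⟩ := (hg _).1 hs
    rw [← em_inj e] at hs2
    obtain ⟨q, hq, hE⟩ := key z' s' w u hz' hs2 hw hGu hzw.symm
    obtain ⟨r1, hr1, h2, h3⟩ := F.gen.dir q s' hq hs2
    obtain ⟨r2, hr2, h4, h5⟩ := F.gen.dir r1 r hr1 hr
    exact h r2 h5 z' s' hz' (Pre.trans h4 h3) (feq_mono hE (Pre.trans h4 h2))

theorem emb_eq (hg : ∀ z, z ∈ g ↔ ∃ q, F.G q ∧ z = i q) {a b : M} :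
    F.val a = F.val b ↔ ev g (i a) = ev g (i b) := by
  set t : M := tcl (upair a b) with htdef
  have ht : Trans t := trans_tcl _
  have hab : upair a b ⊆ t := ht _ (self_mem_tcl _)
  have ha : a ∈ t := hab a (by simp)
  have hb : b ∈ t := hab b (by simp)
  constructor
  · intro h
    obtain ⟨p, hp, hE⟩ := Fo.val_eq.1 h
    exact emb1 hg ht (i a) (i b) (i p) (em_eqs.2 ⟨p, a, b, rfl, rfl, rfl, Fo.G_mem hp, ha, hb, hE⟩)
      ((hg _).2 ⟨p, hp, rfl⟩)
  · intro h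
    obtain ⟨q, hq, hW⟩ := emb2 hg ht (i a) (em_mem.2 ha) (i b) (em_mem.2 hb) h
    obtain ⟨q', a', b', rfl, e1, e2, _, _, _, hE⟩ := em_eqs.1 hW
    rw [← em_inj e1, ← em_inj e2] at hE
    obtain ⟨q2, h1, h2⟩ := (hg _).1 hq
    rw [← em_inj h2] at h1
    exact Fo.val_eq.2 ⟨q', h1, hE⟩

theorem ev_chk (hg : ∀ z, z ∈ g ↔ ∃ q, F.G q ∧ z = i q) (x : M) : ev g (i (chk F.P x)) = i x := by
  set c : M := mkseq (tcl x) (fun y => chk F.P y) with hc
  have hap : ∀ y, y ∈ tcl x → ap (i c) (i y) = i (chk F.P y) := by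
    intro y hy
    rw [← em_ap, hc, ap_mkseq hy]
  have key : ∀ w : N, w ∈ i (tcl x) → ev g (ap (i c) w) = w := by
    refine mem_induction (fun w : N => w ∈ i (tcl x) → ev g (ap (i c) w) = w) ?_
    intro w ih hw
    obtain ⟨w', hw', rfl⟩ := em_elim.1 hw
    rw [hap w' hw']
    refine ext fun v => ?_
    rw [mem_ev, em_elim]
    constructor
    · rintro ⟨z, r, hz, hr, rfl⟩
      obtain ⟨z', r', hz', rfl, rfl⟩ := em_opair_elim hz
      obtain ⟨⟨y, hy, rfl⟩, _⟩ := opair_mem_chk.1 hz'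
      have hyt : y ∈ tcl x := trans_tcl x _ hw' _ hy
      refine ⟨y, hy, ?_⟩
      rw [← hap y hyt]
      exact ih (i y) (em_mem.2 hy) (em_mem.2 hyt)
    · rintro ⟨y, hy, rfl⟩
      have hyt : y ∈ tcl x := trans_tcl x _ hw' _ hy
      obtain ⟨s, hs⟩ := F.gen.ne
      refine ⟨i (chk F.P y), i s, em_opair_mem.2 (opair_mem_chk.2 ⟨⟨y, hy, rfl⟩, Fo.G_mem hs⟩),
        (hg _).2 ⟨s, hs, rfl⟩, ?_⟩
      rw [← hap y hyt]
      exact (ih (i y) (em_mem.2 hy) (em_mem.2 hyt)).symm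
  have h1 := key (i x) (em_mem.2 (self_mem_tcl x))
  rwa [hap x (self_mem_tcl x)] at h1

theorem exists_emb (hg : ∀ z, z ∈ g ↔ ∃ q, F.G q ∧ z = i q) :
    ∃ j : F.Ext → N, TEm j ∧ (∀ x, j (can F x) = i x) ∧ j (gam F) = g ∧
      ∀ y, j (F.val y) = ev g (i y) := by
  let j : F.Ext → N := Quotient.lift (fun y => ev g (i y))
    (fun a b h => (emb_eq (i := i) hg).1 (Fo.val_eq.2 h))
  have hj : ∀ y, j (F.val y) = ev g (i y) := fun y => rfl
  have hcan : ∀ x, j (can F x) = i x := fun x => ev_chk hg x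
  refine ⟨j, ⟨?_, ?_, ?_⟩, hcan, ?_, hj⟩
  · intro x y
    obtain ⟨x, rfl⟩ := Fo.exists_val x
    obtain ⟨y, rfl⟩ := Fo.exists_val y
    rw [hj, hj, mem_ev, mem_val]
    constructor
    · rintro ⟨z, r, hz, hr, he⟩
      obtain ⟨z', r', hz', rfl, rfl⟩ := em_opair_elim hz
      obtain ⟨r2, hr2, e⟩ := (hg _).1 hr
      rw [← em_inj e] at hr2
      exact ⟨z', r', hz', hr2, (emb_eq (i := i) hg).2 he⟩
    · rintro ⟨z, s, hz, hs, he⟩
      exact ⟨i z, i s, em_opair_mem.2 hz, (hg _).2 ⟨s, hs, rfl⟩, (emb_eq (i := i) hg).1 he⟩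
  · intro x z hz
    obtain ⟨x, rfl⟩ := Fo.exists_val x
    rw [hj, mem_ev] at hz
    obtain ⟨z', r, hz', _, rfl⟩ := hz
    obtain ⟨z2, r2, _, rfl, _⟩ := em_opair_elim hz'
    exact ⟨F.val z2, (hj z2).symm⟩
  · intro α hα
    obtain ⟨x, rfl⟩ := TEm.ord (i := i) α hα
    exact ⟨can F x, (hcan x).symm⟩
  · refine ext fun w => ?_
    unfold gam
    rw [hj, mem_ev, hg]
    constructor
    · rintro ⟨z, r, hz, hr, rfl⟩
      obtain ⟨z', r', hz', rfl, rfl⟩ := em_opair_elim hz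
      rw [mem_img] at hz'
      obtain ⟨p, _, e⟩ := hz'
      obtain ⟨rfl, rfl⟩ := opair_inj e
      obtain ⟨r2, hr2, e⟩ := (hg _).1 hr
      rw [← em_inj e] at hr2
      exact ⟨r', hr2, ev_chk hg r'⟩
    · rintro ⟨q, hq, rfl⟩
      refine ⟨i (chk F.P q), i q, em_opair_mem.2 ?_, (hg _).2 ⟨q, hq, rfl⟩, (ev_chk hg q).symm⟩
      rw [mem_img]
      exact ⟨q, Fo.G_mem hq, rfl⟩

end

end Pool.Agent.ZFIter.NPA.BSM.SP
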