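import Pool.Agent.BSP.RPsi
import Pool.Agent.BSP.SEmb
import Pool.Agent.BLI.Sel

/-!
# BSP/RSpec: preparations for section (R)

Subsets of `omega` are in `L(R)` (`lr_subom`); elements of nonprincipal ultrafilters are infinite
(`uf_inf`); the forcing notion `IS` is absolute.
-/

universe u

namespace Pool.Agent.ZFIter.NPA.BSM.SP

open Pool.Agent.H78.ZF Pool.Agent.ZFIter Pool.Agent.ZFIter.NPA

variable {N : Type u} [ZFM N]

/-- every subset of `omega` is in `L(R)` -/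
theorem lr_subom {x : N} (hx : x ⊆ omega) : LR x := by
  set f : N := sep (prod omega omega) (fun w => ∃ n k, w = opair n k ∧
    ((n ∈ x ∧ k = num 1) ∨ (n ∉ x ∧ k = num 0))) with hf
  have hmem : ∀ n k, opair n k ∈ f ↔ (n ∈ (omega : N) ∧ k ∈ (omega : N)) ∧
      ((n ∈ x ∧ k = num 1) ∨ (n ∉ x ∧ k = num 0)) := by
    intro n k
    rw [hf, mem_sep, opair_mem_prod]
    constructor
    · rintro ⟨h1, n', k', e, h2⟩
      obtain ⟨rfl, rfl⟩ := opair_inj e
      exact ⟨h1, h2⟩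
    · rintro ⟨h1, h2⟩
      exact ⟨h1, n, k, rfl, h2⟩
  have h10 : (num 1 : N) ≠ num 0 := by
    intro h
    exact absurd (num_inj h) (by norm_num)
  have hfun : Fun f omega omega := by
    constructor
    · intro w hw
      rw [hf, mem_sep, mem_prod] at hw
      exact hw.1
    · intro n hn
      by_cases h : n ∈ x
      · refine ⟨num 1, (hmem n _).2 ⟨⟨hn, num_mem 1⟩, Or.inl ⟨h, rfl⟩⟩, ?_⟩
        intro y hy
        rcases ((hmem n y).1 hy).2 with h1 | h1
        · exact h1.2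
        · exact absurd h h1.1
      · refine ⟨num 0, (hmem n _).2 ⟨⟨hn, num_mem 0⟩, Or.inr ⟨h, rfl⟩⟩, ?_⟩
        intro y hy
        rcases ((hmem n y).1 hy).2 with h1 | h1
        · exact absurd h1.1 h
        · exact h1.2
  have hfK : LR f := lr_real (mem_RS.2 hfun)
  have e : ∀ z (h : LR z), ((opair (mkSub z h) (num 1) : Sub (LR : N → Prop)) ∈ mkSub f hfK ↔
      opair z (num 1) ∈ f) := by
    intro z h
    rw [sub_mem, abs_opair, abs_num]
    exact Iff.rfl
  have h1 := (sep (omega : Sub (LR : N → Prop)) (fun n => opair n (num 1) ∈ mkSub f hfK)).2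
  have h2 : (sep (omega : Sub (LR : N → Prop)) (fun n => opair n (num 1) ∈ mkSub f hfK)).1 = x := by
    apply ext
    intro z
    rw [mem_abs_sep, abs_omega]
    constructor
    · rintro ⟨h3, h4, h5⟩
      rcases ((hmem z (num 1)).1 ((e z h4).1 h5)).2 with h6 | h6
      · exact h6.1
      · exact absurd h6.2 h10
    · intro hz
      have h3 : z ∈ (omega : N) := hx z hz
      exact ⟨h3, Inner.ord z (ord_omega.mem h3), (e z _).2
        ((hmem z (num 1)).2 ⟨⟨h3, num_mem 1⟩, Or.inl ⟨hz, rfl⟩⟩)⟩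
  rw [← h2]
  exact h1

instance tem_sub (K : N → Prop) [Inner K] : TEm (fun x : Sub K => x.1) where
  mem _ _ := Iff.rfl
  trans _ z hz := ⟨mkSub z (sub_of_mem hz), rfl⟩
  ord α hα := ⟨mkSub α (Inner.ord α hα), rfl⟩

/-- elements of nonprincipal ultrafilters are infinite -/
theorem uf_inf {p x : N} (hp : Uf p) (hn : Nonpr p) (hx : x ∈ p) : InfS x := by
  have key : ∀ m, m ∈ (omega : N) → m ∉ p := by
    apply omega_induction (fun m => m ∉ p)
    · exact hp.2.2.1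
    · intro m hm ih h
      have h1 : sing m ∉ p := hn m hm
      have hs : (sing m : N) ⊆ omega := by
        intro k hk
        rw [mem_sing] at hk
        rw [hk]
        exact hm
      have h2 := (hp.2.2.2.2.2 m (omega_sub hm)).resolve_left ih
      have h3 := (hp.2.2.2.2.2 (sing m) hs).resolve_left h1
      obtain ⟨k, hk⟩ := hp.ne (hp.inter (hp.inter h2 h3) h)
      rw [mem_sep, mem_sep, mem_sep, mem_sep, mem_sing, mem_succ] at hk
      rcases hk.2 with h4 | h4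
      · exact hk.1.1.2 h4
      · exact hk.1.2.2 h4
  refine ⟨hp.1 x hx, fun m hm => ?_⟩
  by_contra hcon
  push Not at hcon
  apply key m hm
  refine hp.up hx ?_ (omega_sub hm)
  intro k hk
  rcases le_or_lt hm (hp.1 x hx k hk) with h | h
  · exact absurd h (hcon k hk)
  · exact h

section

variable {K : N → Prop} [Inner K]

theorem sub_InfS {x : Sub K} : InfS x ↔ InfS x.1 := by
  unfold InfS
  rw [abs_sub, abs_omega]
  constructor
  · rintro ⟨h1, h2⟩
    refine ⟨h1, fun m hm => ?_⟩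
    obtain ⟨n, hn, h3⟩ := h2 (mkSub m (Inner.ord m (ord_omega.mem hm))) (by
      rw [sub_mem, abs_omega]
      exact hm)
    exact ⟨n.1, hn, abs_sub.1 h3⟩
  · rintro ⟨h1, h2⟩
    refine ⟨h1, fun m hm => ?_⟩
    rw [sub_mem, abs_omega] at hm
    obtain ⟨n, hn, h3⟩ := h2 m.1 hm
    exact ⟨mkSub n (sub_of_mem hn), hn, abs_sub.2 h3⟩

end

theorem em_inter {A : Type u} [ZFM A] {i : A → N} [TEm i] (x y : A) :
    i (sep x (fun k => k ∈ y)) = sep (i x) (fun k => k ∈ i y) := by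
  apply ext
  intro z
  rw [mem_em_sep, mem_sep]
  constructor
  · rintro ⟨k, hk, hk', rfl⟩
    exact ⟨em_mem.2 hk, em_mem.2 hk'⟩
  · rintro ⟨hk, hk'⟩
    obtain ⟨k, hk2, rfl⟩ := em_elim.1 hk
    exact ⟨k, hk2, em_mem.1 hk', rfl⟩

theorem em_compl {A : Type u} [ZFM A] {i : A → N} [TEm i] (x : A) :
    i (sep omega (fun k => k ∉ x)) = sep omega (fun k => k ∉ i x) := by
  apply ext
  intro z
  rw [mem_em_sep, mem_sep, ← em_omega (i := i)]
  constructor
  · rintro ⟨k, hk, hk', rfl⟩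
    exact ⟨em_mem.2 hk, fun h => hk' (em_mem.1 h)⟩
  · rintro ⟨hk, hk'⟩
    obtain ⟨k, hk2, rfl⟩ := em_elim.1 hk
    exact ⟨k, hk2, fun h => hk' (em_mem.2 h), rfl⟩

/-- ultrafilters are ultrafilters in the smaller model -/
theorem em_Uf {A : Type u} [ZFM A] {i : A → N} [TEm i] {u : A} (h : Uf (i u)) : Uf u := by
  refine ⟨fun x hx => ?_, ?_, ?_, fun x y hx hy => ?_, fun x y hx hxy hy => ?_, fun x hx => ?_⟩
  · rw [← em_sub (i := i), em_omega (i := i)]
    exact h.1 _ (em_mem.2 hx)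
  · rw [← em_mem (i := i), em_omega (i := i)]
    exact h.2.1
  · intro h1
    rw [← em_mem (i := i), em_emp (i := i)] at h1
    exact h.2.2.1 h1
  · rw [← em_mem (i := i), em_inter (i := i)]
    exact h.inter (em_mem.2 hx) (em_mem.2 hy)
  · rw [← em_mem (i := i)]
    refine h.up (em_mem.2 hx) (em_sub.2 hxy) ?_
    rw [← em_omega (i := i)]
    exact em_sub.2 hy
  · have hx' : i x ⊆ omega := by
      rw [← em_omega (i := i)]
      exact em_sub.2 hx
    rcases h.2.2.2.2.2 _ hx' with h1 | h1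
    · exact Or.inl (em_mem.1 h1)
    · rw [← em_compl (i := i)] at h1
      exact Or.inr (em_mem.1 h1)

section

variable {p : N}

theorem gen_LR (hp : Uf p) (hn : Nonpr p) (hg : GenLR p) :
    Gen (IS : Sub (LR : N → Prop)) ISR (fun z => z.1 ∈ p) where
  sub z hz := mem_IS.2 (sub_InfS.2 (uf_inf hp hn hz))
  ne := ⟨omega, by
    show (omega : Sub (LR : N → Prop)).1 ∈ p
    rw [abs_omega]
    exact hp.2.1⟩
  up x y hx hxy := by
    rw [le_IS] at hxy
    exact hp.up hx (abs_sub.1 hxy.2.2) (sub_InfS.1 hxy.2.1).1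
  dir x y hx hy := by
    have h1 := hp.inter hx hy
    have h2 := uf_inf hp hn h1
    refine ⟨mkSub (sep x.1 (fun k => k ∈ y.1)) (lr_subom h2.1), h1, ?_, ?_⟩
    · rw [le_IS]
      refine ⟨sub_InfS.2 h2, sub_InfS.2 (uf_inf hp hn hx), abs_sub.2 fun k hk => ?_⟩
      exact ((mem_sep _ _ _).1 hk).1
    · rw [le_IS]
      refine ⟨sub_InfS.2 h2, sub_InfS.2 (uf_inf hp hn hy), abs_sub.2 fun k hk => ?_⟩
      exact ((mem_sep _ _ _).1 hk).2
  gen D hD hD' := by
    obtain ⟨x, hx, hxp⟩ := hg D.1 (fun K _ hR => lr_min hR D.2)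
      (fun x hx => sub_InfS.1 (mem_IS.1 (hD (mkSub x (sub_of_mem hx)) hx)))
      (fun x hx => by
        obtain ⟨y, hy, hyx⟩ := hD' (mkSub x (lr_subom hx.1)) (mem_IS.2 (sub_InfS.2 hx))
        rw [le_IS] at hyx
        exact ⟨y.1, hy, abs_sub.1 hyx.2.2⟩)
    exact ⟨mkSub x (sub_of_mem hx), hx, hxp⟩

/-- The class of the values of the names in `L(R)`. -/
def RV (p z : N) : Prop := ∃ y, LR y ∧ z = ev p y

instance DR.RV {ι : Type} (s t : (ι → N) → N) [DF s] [DF t] : DR (fun v => RV (s v) (t v)) := by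
  unfold SP.RV
  infer_instance

theorem exists_embLR (hp : Uf p) (hn : Nonpr p) (hg : GenLR p) :
    ∃ (F : Fo (Sub (LR : N → Prop))) (j : F.Ext → N), F.P = IS ∧ F.R = ISR ∧
      (∀ z, F.G z ↔ z.1 ∈ p) ∧ TEm j ∧ (∀ x, j (can F x) = x.1) ∧ j (gam F) = p ∧
      ∀ y, j (F.val y) = ev p y.1 := by
  let F : Fo (Sub (LR : N → Prop)) := Fo.mk IS ISR (fun z => z.1 ∈ p) pre_IS (gen_LR hp hn hg)
  obtain ⟨j, h1, h2, h3, h4⟩ := exists_emb (i := fun x : Sub (LR : N → Prop) => x.1) (F := F)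
    (g := p) (fun z => ⟨fun hz => ⟨mkSub z (lr_subom (hp.1 z hz)), hz, rfl⟩, by
      rintro ⟨q, hq, rfl⟩
      exact hq⟩)
  exact ⟨F, j, rfl, rfl, fun z => Iff.rfl, h1, h2, h3, h4⟩

theorem inner_RV (hp : Uf p) (hn : Nonpr p) (hg : GenLR p) : Inner (RV p) := by
  obtain ⟨F, j, -, -, -, hj, hcan, -, hval⟩ := exists_embLR hp hn hg
  have hr : ∀ z, RV p z ↔ ∃ w, j w = z := by
    intro z
    constructor
    · rintro ⟨y, hy, rfl⟩
      exact ⟨F.val (mkSub y hy), hval _⟩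
    · rintro ⟨w, rfl⟩
      obtain ⟨y, rfl⟩ := Fo.exists_val w
      exact ⟨y.1, y.2, hval y⟩
  refine ⟨inferInstance, fun x y hy hx => ?_, ?_, fun α hα => ?_⟩
  · rw [hr] at hy ⊢
    obtain ⟨y, rfl⟩ := hy
    obtain ⟨x', _, rfl⟩ := em_elim.1 hx
    exact ⟨x', rfl⟩
  · let e : F.Ext ≃ {z : N // RV p z} :=
      Equiv.ofBijective (fun y => ⟨j y, (hr _).2 ⟨y, rfl⟩⟩) ⟨fun a b h => em_inj (i := j)
        (congrArg Subtype.val h), fun ⟨z, hz⟩ => by
          obtain ⟨w, rfl⟩ := (hr z).1 hz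
          exact ⟨w, rfl⟩⟩
    exact isZF_equiv (E := fun x y : F.Ext => x ∈ y) e (fun x y => em_mem (i := j))
      (ZFM.zf (M := F.Ext))
  · rw [hr]
    obtain ⟨x, hx⟩ := hj.ord α hα
    exact ⟨x, hx.symm⟩

theorem rv_of_inLRp (hp : Uf p) (hn : Nonpr p) (hg : GenLR p) {U : N} (hU : InLRp p U) :
    RV p U := by
  have _ : Inner (RV p) := inner_RV hp hn hg
  obtain ⟨F, j, -, -, -, hj, hcan, hgam, hval⟩ := exists_embLR hp hn hg
  refine hU (RV p) (fun x hx => ?_) ?_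
  · obtain ⟨y, hy⟩ := Fo.exists_val (can F (mkSub x (lr_real hx)))
    refine ⟨y.1, y.2, ?_⟩
    rw [← hval, ← hy, hcan]
    rfl
  · obtain ⟨y, hy⟩ := Fo.exists_val (gam F)
    refine ⟨y.1, y.2, ?_⟩
    rw [← hval, ← hy, hgam]

end

end Pool.Agent.ZFIter.NPA.BSM.SP
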