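import Pool.Agent.BSP.UFor

/-!
# BSP/SEv: evaluation of names inside a model

`ev g y = {ev g z : ∃ r ∈ g, (z, r) ∈ y}` (`mem_ev`), by the attempts `attF` of FLst. Transitive
embeddings preserve it (`em_ev`), and in a generic extension `val y = ev gam (can y)` (`val_ev`).

* `mem_ev`: `att_attF` gives attempts for `y` and for its elements, `Att.uniq`, `mem_evv`.
* `em_ev`: `em_Att`, `em_ap`, `Att.uniq`.
* `val_ev`: `att_evf` and `att_attF`, `Att.uniq`.
-/

universe u v

namespace Pool.Agent.ZFIter.NPA.BSM.SP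

open Pool.Agent.H78.ZF Pool.Agent.ZFIter Pool.Agent.ZFIter.NPA

section

variable {M : Type u} [ZFM M] {ι : Type}

/-- The value of the name `y` computed from the filter `g`. -/
noncomputable def ev (g y : M) : M := ap (attF g y) y

instance DF.ev (g y : (ι → M) → M) [DF g] [DF y] : DF (fun v => ev (g v) (y v)) := by
  unfold SP.ev
  infer_instance

instance UF.ev (g y : ∀ (M : Type u) [ZFM M], (ι → M) → M) [UF g] [UF y] :
    UF (fun M _ v => ev (g M v) (y M v)) := by
  unfold SP.ev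
  infer_instance

theorem ev_of_att {g t h y : M} (H : Att g t h) (hy : y ∈ t) : ap h y = ev g y := by
  obtain ⟨t', H', hy'⟩ := att_attF g y
  exact H.uniq H' y hy hy'

theorem mem_ev {g y w : M} : w ∈ ev g y ↔ ∃ z r, opair z r ∈ y ∧ r ∈ g ∧ w = ev g z := by
  obtain ⟨t, ht, hy⟩ := att_attF g y
  have h1 : ev g y = evv g y (attF g y) := ht.2.2 y hy
  have h2 : ∀ z r, opair z r ∈ y → ap (attF g y) z = ev g z := fun z r hz =>
    ev_of_att ht (mem_of_opair ht.1 (ht.1 y hy) hz)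
  rw [h1, mem_evv]
  constructor
  · rintro ⟨z, r, hz, hr, rfl⟩
    exact ⟨z, r, hz, hr, h2 z r hz⟩
  · rintro ⟨z, r, hz, hr, rfl⟩
    exact ⟨z, r, hz, hr, (h2 z r hz).symm⟩

/-- a class function with the recursion of `ev` is `ev` -/
theorem ev_uniq {g : M} (F : M → M) [F1 F]
    (h : ∀ y w, w ∈ F y ↔ ∃ z r, opair z r ∈ y ∧ r ∈ g ∧ w = F z) (y : M) : F y = ev g y := by
  have key : ∀ y, F y = ev g y ∧ (∀ a, a ∈ y → F a = ev g a) ∧
      (∀ a, a ∈ y → ∀ b, b ∈ a → F b = ev g b) := by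
    apply mem_induction (fun y => F y = ev g y ∧ (∀ a, a ∈ y → F a = ev g a) ∧
      (∀ a, a ∈ y → ∀ b, b ∈ a → F b = ev g b))
    intro y ih
    refine ⟨?_, fun a ha => (ih a ha).1, fun a ha => (ih a ha).2.1⟩
    have hz : ∀ z r, opair z r ∈ y → F z = ev g z := by
      intro z r hz
      exact (ih _ hz).2.2 (upair z r) (by simp [opair]) z (by simp)
    refine ext fun w => ?_
    rw [h, mem_ev]
    constructor
    · rintro ⟨z, r, h1, h2, rfl⟩
      exact ⟨z, r, h1, h2, hz z r h1⟩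
    · rintro ⟨z, r, h1, h2, rfl⟩
      exact ⟨z, r, h1, h2, (hz z r h1).symm⟩
  exact (key y).1

end

theorem em_ev {M : Type u} [ZFM M] {N : Type v} [ZFM N] {i : M → N} [hi : TEm i] (g y : M) :
    i (ev g y) = ev (i g) (i y) := by
  obtain ⟨t, ht, hy⟩ := att_attF g y
  rw [← ev_of_att (em_Att (i := i) ht) (em_mem.2 hy), ← em_ap]
  rfl

theorem val_ev {M : Type u} [ZFM M] {F : Fo M} (y : M) : F.val y = ev (gam F) (can F y) := by
  obtain ⟨f, h4, h5⟩ := att_evf (F := F) y
  rw [← h5]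
  exact ev_of_att h4 (em_mem.2 (self_mem_tcl y))

end Pool.Agent.ZFIter.NPA.BSM.SP
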