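import Pool.Agent.BSP.SGen

/-!
# BSP/SExt2: two-step extensions

* `tem_comp`: clear.
* `genBy_two`: let `K` be as in `GenBy`. First every `can F2 (F1.val y)` is in `K`: it is
  `ev (can F2 (gam F1)) (can F2 (can F1 y))` (`val_ev`, `em_ev` for `can F2`), and `K` is closed under `ev`:
  the inclusion of `{x // K x}` (with the structure given by `K`) is a `TEm` (ordinals: all ordinals of
  `F2.Ext` are of the form `can F2 (can F1 α)`), apply `em_ev` to it. Then `genBy_ext F2`.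
-/

universe u v w

namespace Pool.Agent.ZFIter.NPA.BSM.SP

open Pool.Agent.H78.ZF Pool.Agent.ZFIter Pool.Agent.ZFIter.NPA

theorem tem_comp {A : Type u} {B : Type v} {C : Type w} [ZFM A] [ZFM B] [ZFM C] (i : A → B)
    (j : B → C) [TEm i] [TEm j] : TEm (fun x => j (i x)) := by
  refine ⟨fun x y => (em_mem (i := j)).trans (em_mem (i := i)), fun x z hz => ?_, fun α hα => ?_⟩
  · obtain ⟨b, hb, rfl⟩ := (em_elim (i := j)).1 hz
    obtain ⟨a, _, rfl⟩ := (em_elim (i := i)).1 hb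
    exact ⟨a, rfl⟩
  · obtain ⟨b, rfl⟩ := TEm.ord (i := j) α hα
    obtain ⟨a, rfl⟩ := TEm.ord (i := i) b ((em_Ord (i := j)).1 hα)
    exact ⟨a, rfl⟩

/-- A transitive class which is a model of ZF and contains all ordinals is closed under `ev`. -/
theorem closed_ev {N : Type u} [ZFM N] (K : N → Prop) (ht : ∀ x y, K y → x ∈ y → K x)
    (hz : IsZFModel (fun x y : {x : N // K x} => x.1 ∈ y.1)) (ho : ∀ α, Ord α → K α) {g y : N}
    (hg : K g) (hy : K y) : K (ev g y) := by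
  let inst : ZFM {x : N // K x} := ⟨fun x y => x.1 ∈ y.1, hz⟩
  have hT : TEm (fun x : {x : N // K x} => x.1) :=
    ⟨fun x y => Iff.rfl, fun x z hz => ⟨⟨z, ht z x.1 x.2 hz⟩, rfl⟩, fun α hα => ⟨⟨α, ho α hα⟩, rfl⟩⟩
  have h1 := em_ev (i := fun x : {x : N // K x} => x.1) ⟨g, hg⟩ ⟨y, hy⟩
  rw [← h1]
  exact Subtype.property _

theorem genBy_two {M : Type u} [ZFM M] (F1 : Fo M) (F2 : Fo F1.Ext) :
    GenBy (fun x => can F2 (can F1 x)) (fun s => s = can F2 (gam F1) ∨ s = gam F2) := by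
  intro K ht hz hi hs
  have ho : ∀ α, Ord α → K α := by
    intro α hα
    obtain ⟨b, rfl⟩ := TEm.ord (i := can F2) α hα
    obtain ⟨a, rfl⟩ := TEm.ord (i := can F1) b ((em_Ord (i := can F2)).1 hα)
    exact hi a
  refine genBy_ext F2 K ht hz ?_ ?_
  · intro x
    obtain ⟨y, rfl⟩ := Fo.exists_val x
    rw [val_ev, em_ev (i := can F2)]
    exact closed_ev K ht hz ho (hs _ (Or.inl rfl)) (hi y)
  · rintro s rfl
    exact hs _ (Or.inr rfl)

end Pool.Agent.ZFIter.NPA.BSM.SP
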