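import Pool.Agent.BSP.SEmb
import Pool.Agent.BSP.SIso

/-!
# BSP/SGen: extensions generated by sets, isomorphism of extensions

* `genBy_surj`: apply `GenBy` to the class `K z := ∃ y, z = j y`; the structure on `{z // K z}` is
  isomorphic to `A` (`isZF_equiv`, `em_inj`).
* `exists_iso`: `exists_emb` and `genBy_surj`; `Equiv.ofBijective`.
* `same_ext`: `exists_iso` with `i = can F`, `genBy_ext F`.
-/

universe u v

namespace Pool.Agent.ZFIter.NPA.BSM.SP

open Pool.Agent.H78.ZF Pool.Agent.ZFIter Pool.Agent.ZFIter.NPA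

/-- `N` is the least transitive model of ZF which contains the range of `i` and the elements
of `S`. -/
def GenBy {M : Type u} {N : Type v} [ZFM N] (i : M → N) (S : N → Prop) : Prop :=
  ∀ K : N → Prop, (∀ x y, K y → x ∈ y → K x) →
    IsZFModel (fun x y : {x : N // K x} => x.1 ∈ y.1) → (∀ x, K (i x)) → (∀ s, S s → K s) → ∀ z, K z

theorem genBy_ext {M : Type u} [ZFM M] (F : Fo M) : GenBy (can F) (fun s => s = gam F) :=
  fun K ht hz hi hs => least_ext K ht hz hi (hs _ rfl)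

theorem genBy_surj {M : Type u} [ZFM M] {A N : Type v} [ZFM N] {i : M → N} {S : N → Prop}
    (hS : GenBy i S) [ZFM A] (j : A → N) [TEm j] (hi : ∀ x, ∃ y, j y = i x)
    (hs : ∀ s, S s → ∃ y, j y = s) : Function.Surjective j := by
  refine hS (fun z => ∃ y, j y = z) ?_ ?_ hi hs
  · rintro x y ⟨y, rfl⟩ hx
    obtain ⟨x', _, rfl⟩ := em_elim.1 hx
    exact ⟨x', rfl⟩
  · let e : A ≃ {z : N // ∃ y, j y = z} :=
      Equiv.ofBijective (fun y => ⟨j y, y, rfl⟩) ⟨fun a b h => em_inj (i := j)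
        (congrArg Subtype.val h), fun ⟨z, y, hy⟩ => ⟨y, Subtype.ext hy⟩⟩
    exact isZF_equiv (E := fun x y : A => x ∈ y) e (fun x y => em_mem (i := j)) (ZFM.zf (M := A))

/-- If `N` is generated over `M` by sets which have names, then `N` is `M[G]`. -/
theorem exists_iso {M N : Type u} [ZFM M] [ZFM N] {i : M → N} [TEm i] {S : N → Prop}
    (hS : GenBy i S) (F : Fo M) {g : N} (hg : ∀ z, z ∈ g ↔ ∃ q, F.G q ∧ z = i q)
    (hs : ∀ s, S s → ∃ y, ev g (i y) = s) :
    ∃ e : F.Ext ≃ N, (∀ x y, e x ∈ e y ↔ x ∈ y) ∧ (∀ x, e (can F x) = i x) ∧ e (gam F) = g ∧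
      ∀ y, e (F.val y) = ev g (i y) := by
  obtain ⟨j, hj, hcan, hgam, hval⟩ := exists_emb (i := i) hg
  have hsur : Function.Surjective j := genBy_surj hS j (fun x => ⟨can F x, hcan x⟩) (by
    intro s h
    obtain ⟨y, hy⟩ := hs s h
    exact ⟨F.val y, (hval y).trans hy⟩)
  exact ⟨Equiv.ofBijective j ⟨fun a b h => em_inj h, hsur⟩, fun x y => em_mem (i := j), hcan, hgam,
    hval⟩

/-- Two generic extensions of `M` are the same, if each of the generic filters is in the other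
extension. -/
theorem same_ext {M : Type u} [ZFM M] (F F' : Fo M) {g : F.Ext}
    (hg : ∀ z, z ∈ g ↔ ∃ q, F'.G q ∧ z = can F q) {y0 : M} (hy : ev g (can F y0) = gam F) :
    ∃ e : F'.Ext ≃ F.Ext, (∀ x y, e x ∈ e y ↔ x ∈ y) ∧ (∀ x, e (can F' x) = can F x) ∧
      e (gam F') = g ∧ ∀ y, e (F'.val y) = ev g (can F y) := by
  refine exists_iso (genBy_ext F) F' hg ?_
  rintro s rfl
  exact ⟨y0, hy⟩

end Pool.Agent.ZFIter.NPA.BSM.SP
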