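import Pool.Agent.BSM.DefsG

/-!
# BSP/UBase: relations and functions defined by one formula in all models of ZF

`P : ∀ (M : Type u) [ZFM M], (ι → M) → Prop` is a family of relations, one for each model of ZF. `UR P`:
there is ONE formula of set theory without parameters which defines `P M` in every model `M`. `UF t`:
the same for functions. The instances are found by type class inference, in the same way as `DR`
and `DF` (unfold the definition, `infer_instance`).
-/

universe u

namespace Pool.Agent.ZFIter.NPA.BSM.SP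

open FirstOrder Pool.Agent.H78.ZF Pool.Agent.ZFIter Pool.Agent.ZFIter.NPA

/-- uniformly definable relation -/
class UR {ι : Type} (P : ∀ (M : Type u) [ZFM M], (ι → M) → Prop) : Prop where
  out : ∃ φ : LSet.Formula ι, ∀ (M : Type u) [ZFM M] (v : ι → M), φ.Realize v ↔ P M v

/-- uniformly definable function -/
class UF {ι : Type} (t : ∀ (M : Type u) [ZFM M], (ι → M) → M) : Prop where
  out : UR (ι := Option ι) (fun M _ v => t M (fun i => v (some i)) = v none)

section closure

variable {ι κ : Type}

theorem UR.congr {P Q : ∀ (M : Type u) [ZFM M], (ι → M) → Prop} (h : UR P)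
    (e : ∀ (M : Type u) [ZFM M] (v : ι → M), P M v ↔ Q M v) : UR Q := by
  obtain ⟨φ, hφ⟩ := h.out
  exact ⟨⟨φ, fun M _ v => (hφ M v).trans (e M v)⟩⟩

theorem UR.memV (i j : ι) : UR.{u} (fun _ _ v => v i ∈ v j) := by
  let r : LSet.Relations 2 := MemSymb.mem
  refine ⟨⟨r.formula₂ (Language.Term.var i) (Language.Term.var j), fun M _ v => ?_⟩⟩
  exact Language.Formula.realize_rel₂

theorem UR.eqV (i j : ι) : UR.{u} (fun _ _ v => v i = v j) := by
  refine ⟨⟨Language.Term.equal (L := LSet) (Language.Term.var i) (Language.Term.var j),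
    fun M _ v => ?_⟩⟩
  rw [Language.Formula.realize_equal]
  rfl

instance UR.const (p : Prop) : UR.{u} (ι := ι) (fun _ _ _ => p) := by
  by_cases h : p
  · refine ⟨⟨⊤, fun M _ v => ?_⟩⟩
    simp [h]
  · refine ⟨⟨⊥, fun M _ v => ?_⟩⟩
    simp only [h, iff_false]
    exact fun h => h

instance UR.not (P : ∀ (M : Type u) [ZFM M], (ι → M) → Prop) [h : UR P] :
    UR (fun M _ v => ¬ P M v) := by
  obtain ⟨φ, hφ⟩ := h.out
  refine ⟨⟨φ.not, fun M _ v => ?_⟩⟩
  rw [Language.Formula.realize_not, hφ M v]

instance UR.and (P Q : ∀ (M : Type u) [ZFM M], (ι → M) → Prop) [h : UR P] [h' : UR Q] :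
    UR (fun M _ v => P M v ∧ Q M v) := by
  obtain ⟨φ, hφ⟩ := h.out
  obtain ⟨ψ, hψ⟩ := h'.out
  refine ⟨⟨φ ⊓ ψ, fun M _ v => ?_⟩⟩
  rw [Language.Formula.realize_inf, hφ M v, hψ M v]

instance UR.or (P Q : ∀ (M : Type u) [ZFM M], (ι → M) → Prop) [h : UR P] [h' : UR Q] :
    UR (fun M _ v => P M v ∨ Q M v) := by
  obtain ⟨φ, hφ⟩ := h.out
  obtain ⟨ψ, hψ⟩ := h'.out
  refine ⟨⟨φ ⊔ ψ, fun M _ v => ?_⟩⟩
  rw [Language.Formula.realize_sup, hφ M v, hψ M v]

instance UR.imp (P Q : ∀ (M : Type u) [ZFM M], (ι → M) → Prop) [h : UR P] [h' : UR Q] :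
    UR (fun M _ v => P M v → Q M v) := by
  obtain ⟨φ, hφ⟩ := h.out
  obtain ⟨ψ, hψ⟩ := h'.out
  refine ⟨⟨φ.imp ψ, fun M _ v => ?_⟩⟩
  rw [Language.Formula.realize_imp, hφ M v, hψ M v]

instance UR.iff (P Q : ∀ (M : Type u) [ZFM M], (ι → M) → Prop) [h : UR P] [h' : UR Q] :
    UR (fun M _ v => (P M v ↔ Q M v)) := by
  obtain ⟨φ, hφ⟩ := h.out
  obtain ⟨ψ, hψ⟩ := h'.out
  refine ⟨⟨φ.iff ψ, fun M _ v => ?_⟩⟩
  rw [Language.Formula.realize_iff, hφ M v, hψ M v]

/-- Quantifiers: the bound variable becomes the free variable `none`. -/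
instance UR.ex (P : ∀ (M : Type u) [ZFM M], M → (ι → M) → Prop)
    [h : UR (ι := Option ι) (fun M _ v => P M (v none) (fun i => v (some i)))] :
    UR (fun M _ v => ∃ x, P M x v) := by
  obtain ⟨φ, hφ⟩ := h.out
  refine ⟨⟨Language.BoundedFormula.ex (n := 0) (Language.BoundedFormula.relabel (n := 1) (k := 0)
    (fun o : Option ι => (match o with | none => Sum.inr 0 | some i => Sum.inl i : ι ⊕ Fin 1)) φ),
    fun M _ v => ?_⟩⟩
  unfold Language.Formula.Realize
  rw [Language.BoundedFormula.realize_ex]
  refine exists_congr fun x => ?_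
  have h1 := hφ M (fun o => (match o with | none => x | some i => v i : M))
  simp only at h1
  rw [← h1]
  unfold Language.Formula.Realize
  rw [Language.BoundedFormula.realize_relabel]
  have e1 : (Sum.elim v ((Fin.snoc default x : Fin (0 + 1) → M) ∘ Fin.castAdd 0) ∘
      fun o : Option ι => (match o with | none => Sum.inr 0 | some i => Sum.inl i : ι ⊕ Fin 1)) =
      fun o => (match o with | none => x | some i => v i : M) := by
    funext o
    cases o with
    | none => rfl
    | some i => rfl
  rw [e1]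
  have e2 : ((Fin.snoc default x : Fin (0 + 1) → M) ∘ Fin.natAdd 1 : Fin 0 → M) = default := by
    funext i
    exact i.elim0
  rw [e2]

instance UR.all (P : ∀ (M : Type u) [ZFM M], M → (ι → M) → Prop)
    [h : UR (ι := Option ι) (fun M _ v => P M (v none) (fun i => v (some i)))] :
    UR (fun M _ v => ∀ x, P M x v) := by
  have h1 : UR (fun M _ (v : ι → M) => ¬ ∃ x, ¬ P M x v) := by
    have := UR.ex (fun M _ x (v : ι → M) => ¬ P M x v)
    infer_instance
  exact h1.congr fun M _ v => by simp

instance (priority := low) UR.weaken (P : ∀ (M : Type u) [ZFM M], (ι → M) → Prop) (f : ι → κ)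
    [h : UR P] : UR (fun M _ (v : κ → M) => P M (fun i => v (f i))) := by
  obtain ⟨φ, hφ⟩ := h.out
  refine ⟨⟨φ.relabel f, fun M _ v => ?_⟩⟩
  rw [Language.Formula.realize_relabel]
  exact hφ M _

instance (priority := low) UF.weaken (t : ∀ (M : Type u) [ZFM M], (ι → M) → M) (f : ι → κ)
    [h : UF t] : UF (fun M _ (v : κ → M) => t M (fun i => v (f i))) := by
  constructor
  have h1 := h.out
  have h2 := UR.weaken (κ := Option κ) _ (fun o : Option ι =>
      (match o with | none => none | some i => some (f i) : Option κ)) (h := h1)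
  exact h2

instance UF.var (i : ι) : UF.{u} (fun _ _ v => v i) := ⟨UR.eqV (some i) none⟩

/-- the statement that a uniformly definable function has the value given by a variable -/
theorem UF.eqV (t : ∀ (M : Type u) [ZFM M], (ι → M) → M) [h : UF t] :
    UR (ι := Option ι) (fun M _ v => t M (fun i => v (some i)) = v none) := h.out

instance UR.eq (s t : ∀ (M : Type u) [ZFM M], (ι → M) → M) [hs : UF s] [ht : UF t] :
    UR (fun M _ v => s M v = t M v) := by
  have h1 := hs.out
  have h2 := ht.out
  have h3 : UR (fun M _ (v : ι → M) => ∃ x, s M v = x ∧ t M v = x) := by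
    have : UR (ι := Option ι) (fun M _ v => s M (fun i => v (some i)) = v none ∧
      t M (fun i => v (some i)) = v none) := UR.and _ _
    exact UR.ex (fun M _ x (v : ι → M) => s M v = x ∧ t M v = x)
  refine h3.congr fun M _ v => ?_
  constructor
  · rintro ⟨x, h1, h2⟩
    rw [h1, h2]
  · intro h
    exact ⟨_, h, rfl⟩

/-- Substitution of a uniformly definable function for the variable `none`. -/
theorem UR.subst1 (P : ∀ (M : Type u) [ZFM M], M → (ι → M) → Prop)
    (s : ∀ (M : Type u) [ZFM M], (ι → M) → M)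
    (hP : UR (ι := Option ι) (fun M _ v => P M (v none) (fun i => v (some i)))) [hs : UF s] :
    UR (fun M _ v => P M (s M v) v) := by
  have h1 := hs.out
  have h3 : UR (fun M _ (v : ι → M) => ∃ x, s M v = x ∧ P M x v) := by
    have : UR (ι := Option ι) (fun M _ v => s M (fun i => v (some i)) = v none ∧
      P M (v none) (fun i => v (some i))) := UR.and _ _
    exact UR.ex (fun M _ x (v : ι → M) => s M v = x ∧ P M x v)
  refine h3.congr fun M _ v => ?_
  constructor
  · rintro ⟨x, h1, h2⟩
    rw [h1]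
    exact h2
  · intro h
    exact ⟨_, rfl, h⟩

instance UR.mem (s t : ∀ (M : Type u) [ZFM M], (ι → M) → M) [hs : UF s] [ht : UF t] :
    UR (fun M _ v => s M v ∈ t M v) := by
  have a1 : UR (ι := Option (Option ι)) (fun M _ v => v none ∈ v (some none)) := UR.memV _ _
  have a2 : UR (ι := Option ι) (fun M _ v => s M (fun i => v (some i)) ∈ v none) :=
    UR.subst1 (ι := Option ι) (fun M _ x v => x ∈ v none) (fun M _ v => s M (fun i => v (some i))) a1
  exact UR.subst1 (ι := ι) (fun M _ x v => s M v ∈ x) t a2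

theorem UR.substN (n : ℕ) : ∀ {ι : Type} (P : ∀ (M : Type u) [ZFM M], (Fin n → M) → (ι → M) → Prop)
    (F : ∀ (M : Type u) [ZFM M], Fin n → (ι → M) → M)
    (_ : UR (ι := Fin n ⊕ ι) (fun M _ v => P M (fun i => v (Sum.inl i)) (fun i => v (Sum.inr i))))
    (_ : ∀ i, UF (fun M _ v => F M i v)), UR (fun M _ v => P M (fun i => F M i v) v) := by
  induction n with
  | zero =>
    intro ι P F hP hF
    have h1 := UR.weaken (κ := ι) _ (fun o : Fin 0 ⊕ ι => (match o with
      | Sum.inl i => i.elim0 | Sum.inr i => i : ι)) (h := hP)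
    refine h1.congr fun M _ v => ?_
    have e : (fun i : Fin 0 => v ((match Sum.inl i with
      | Sum.inl i => i.elim0 | Sum.inr i => i : ι))) = fun i => F M i v := by
      funext i; exact i.elim0
    exact iff_of_eq (congrArg (fun w => P M w v) e)
  | succ n ih =>
    intro ι P F hP hF
    have h1 : UR (ι := Fin n ⊕ Option ι) (fun M _ v =>
        P M (Fin.snoc (fun i => v (Sum.inl i)) (v (Sum.inr none))) (fun i => v (Sum.inr (some i)))) := by
      have h2 := UR.weaken (κ := Fin n ⊕ Option ι) _ (fun o : Fin (n + 1) ⊕ ι => (match o with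
        | Sum.inl i => Fin.lastCases (motive := fun _ => Fin n ⊕ Option ι) (Sum.inr none)
            (fun j => Sum.inl j) i
        | Sum.inr i => Sum.inr (some i) : Fin n ⊕ Option ι)) (h := hP)
      refine h2.congr fun M _ v => ?_
      refine iff_of_eq (congrArg (fun w => P M w (fun i => v (Sum.inr (some i)))) ?_)
      funext i
      refine Fin.lastCases ?_ (fun j => ?_) i
      · simp
      · simp
    have h2 := ih (ι := Option ι) (fun M _ w v => P M (Fin.snoc w (v none)) (fun i => v (some i)))
      (fun M _ i v => F M i.castSucc (fun i => v (some i))) h1 (fun i =>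
        UF.weaken _ (fun i => some i) (h := hF i.castSucc))
    have h3 := UR.subst1 (ι := ι) (fun M _ x v => P M (Fin.snoc (fun i => F M (Fin.castSucc i) v) x) v)
      (fun M _ v => F M (Fin.last n) v) h2 (hs := hF (Fin.last n))
    refine h3.congr fun M _ v => ?_
    refine iff_of_eq (congrArg (fun w => P M w v) ?_)
    funext i
    refine Fin.lastCases ?_ (fun j => ?_) i
    · simp
    · simp

/-- Substitution of uniformly definable functions in a uniformly definable relation. -/
theorem UR.subst [Finite κ] (P : ∀ (M : Type u) [ZFM M], (κ → M) → Prop) [hP : UR P]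
    (F : ∀ (M : Type u) [ZFM M], κ → (ι → M) → M) [hF : ∀ i, UF (fun M _ v => F M i v)] :
    UR (fun M _ v => P M (fun i => F M i v)) := by
  obtain ⟨n, ⟨e⟩⟩ := Finite.exists_equiv_fin κ
  have h1 : UR (ι := Fin n ⊕ ι) (fun M _ v => P M (fun i => v (Sum.inl (e i)))) :=
    UR.weaken P (fun i => Sum.inl (e i))
  have h2 := UR.substN n (ι := ι) (fun M _ w _ => P M (fun i => w (e i)))
    (fun M _ i v => F M (e.symm i) v) h1 (fun i => hF (e.symm i))
  refine h2.congr fun M _ v => ?_
  simp

theorem UF.subst [Finite κ] (t : ∀ (M : Type u) [ZFM M], (κ → M) → M) [ht : UF t]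
    (F : ∀ (M : Type u) [ZFM M], κ → (ι → M) → M) [hF : ∀ i, UF (fun M _ v => F M i v)] :
    UF (fun M _ v => t M (fun i => F M i v)) := by
  constructor
  have h1 := ht.out
  have h2 : ∀ o : Option κ, UF (ι := Option ι) (fun M _ v =>
      (o.elim (v none) (fun i => F M i (fun j => v (some j))) : M)) := by
    intro o
    cases o with
    | none => exact UF.var none
    | some i => exact UF.weaken _ (fun i => some i) (h := hF i)
  exact UR.subst (ι := Option ι) (κ := Option κ) _ (hP := h1) (fun M _ o v =>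
    (o.elim (v none) (fun i => F M i (fun j => v (some j))) : M)) (hF := h2)

instance UR.exU (P : ∀ (M : Type u) [ZFM M], M → (ι → M) → Prop)
    [h : UR (ι := Option ι) (fun M _ v => P M (v none) (fun i => v (some i)))] :
    UR (fun M _ v => ∃! x, P M x v) := by
  have hw : UR (ι := Option (Option ι)) (fun M _ v => P M (v none) (fun i => v (some (some i)))) :=
    UR.weaken (fun M _ (w : Option ι → M) => P M (w none) (fun i => w (some i)))
      (fun o : Option ι => (match o with | none => none | some i => some (some i) :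
        Option (Option ι)))
  have : UR (fun M _ (v : ι → M) => ∃ x, P M x v ∧ ∀ y, P M y v → y = x) := by infer_instance
  exact this

/-- Unary, binary, ternary uniformly definable relations and functions. -/
class U1 (P : ∀ (M : Type u) [ZFM M], M → Prop) : Prop where
  out : UR (fun M _ (v : Unit → M) => P M (v ()))
class U2 (P : ∀ (M : Type u) [ZFM M], M → M → Prop) : Prop where
  out : UR (fun M _ (v : Fin 2 → M) => P M (v 0) (v 1))
class U3 (P : ∀ (M : Type u) [ZFM M], M → M → M → Prop) : Prop where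
  out : UR (fun M _ (v : Fin 3 → M) => P M (v 0) (v 1) (v 2))
class V1 (F : ∀ (M : Type u) [ZFM M], M → M) : Prop where
  out : UF (fun M _ (v : Unit → M) => F M (v ()))
class V2 (F : ∀ (M : Type u) [ZFM M], M → M → M) : Prop where
  out : UF (fun M _ (v : Fin 2 → M) => F M (v 0) (v 1))

theorem U1.comp (P : ∀ (M : Type u) [ZFM M], M → Prop) (s : ∀ (M : Type u) [ZFM M], (ι → M) → M)
    [h : U1 P] [hs : UF s] : UR (fun M _ v => P M (s M v)) := by
  have := h.out
  exact UR.subst (fun M _ (v : Unit → M) => P M (v ())) (fun M _ _ v => s M v) (hF := fun _ => hs)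

theorem U2.comp (P : ∀ (M : Type u) [ZFM M], M → M → Prop)
    (s t : ∀ (M : Type u) [ZFM M], (ι → M) → M) [h : U2 P] [hs : UF s] [ht : UF t] :
    UR (fun M _ v => P M (s M v) (t M v)) := by
  have := h.out
  refine UR.subst (fun M _ (v : Fin 2 → M) => P M (v 0) (v 1)) (fun M _ i v => ![s M v, t M v] i)
    (hF := fun i => ?_)
  fin_cases i
  · exact hs
  · exact ht

theorem U3.comp (P : ∀ (M : Type u) [ZFM M], M → M → M → Prop)
    (s t r : ∀ (M : Type u) [ZFM M], (ι → M) → M) [h : U3 P] [hs : UF s] [ht : UF t] [hr : UF r] :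
    UR (fun M _ v => P M (s M v) (t M v) (r M v)) := by
  have := h.out
  refine UR.subst (fun M _ (v : Fin 3 → M) => P M (v 0) (v 1) (v 2))
    (fun M _ i v => ![s M v, t M v, r M v] i) (hF := fun i => ?_)
  fin_cases i
  · exact hs
  · exact ht
  · exact hr

theorem V1.comp (F : ∀ (M : Type u) [ZFM M], M → M) (s : ∀ (M : Type u) [ZFM M], (ι → M) → M)
    [h : V1 F] [hs : UF s] : UF (fun M _ v => F M (s M v)) := by
  have := h.out
  exact UF.subst (fun M _ (v : Unit → M) => F M (v ())) (fun M _ _ v => s M v) (hF := fun _ => hs)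

theorem V2.comp (F : ∀ (M : Type u) [ZFM M], M → M → M)
    (s t : ∀ (M : Type u) [ZFM M], (ι → M) → M) [h : V2 F] [hs : UF s] [ht : UF t] :
    UF (fun M _ v => F M (s M v) (t M v)) := by
  have := h.out
  refine UF.subst (fun M _ (v : Fin 2 → M) => F M (v 0) (v 1)) (fun M _ i v => ![s M v, t M v] i)
    (hF := fun i => ?_)
  fin_cases i
  · exact hs
  · exact ht

attribute [instance low] U1.comp U2.comp U3.comp V1.comp V2.comp

theorem U1.mk' (P : ∀ (M : Type u) [ZFM M], M → Prop)
    [h : UR (fun M _ (v : Unit → M) => P M (v ()))] : U1 P := ⟨h⟩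
theorem U2.mk' (P : ∀ (M : Type u) [ZFM M], M → M → Prop)
    [h : UR (fun M _ (v : Fin 2 → M) => P M (v 0) (v 1))] : U2 P := ⟨h⟩
theorem U3.mk' (P : ∀ (M : Type u) [ZFM M], M → M → M → Prop)
    [h : UR (fun M _ (v : Fin 3 → M) => P M (v 0) (v 1) (v 2))] : U3 P := ⟨h⟩
theorem V1.mk' (F : ∀ (M : Type u) [ZFM M], M → M)
    [h : UF (fun M _ (v : Unit → M) => F M (v ()))] : V1 F := ⟨h⟩
theorem V2.mk' (F : ∀ (M : Type u) [ZFM M], M → M → M)
    [h : UF (fun M _ (v : Fin 2 → M) => F M (v 0) (v 1))] : V2 F := ⟨h⟩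

attribute [instance low] U1.mk' U2.mk' U3.mk' V1.mk' V2.mk'

end closure

section link

variable {ι : Type}

/-- A uniformly definable relation is definable in each model. -/
theorem UR.dr (P : ∀ (M : Type u) [ZFM M], (ι → M) → Prop) [h : UR P] (M : Type u) [ZFM M] :
    DR (P M) := by
  obtain ⟨φ, hφ⟩ := h.out
  constructor
  have h1 : (∅ : Set M).Definable LSet {v | P M v} := by
    rw [Set.empty_definable_iff]
    refine ⟨φ, ?_⟩
    ext v
    exact (hφ M v).symm
  exact h1.mono (Set.empty_subset _)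

theorem UF.df (t : ∀ (M : Type u) [ZFM M], (ι → M) → M) [h : UF t] (M : Type u) [ZFM M] :
    DF (t M) := by
  rw [DF_iff]
  have := h.out
  exact UR.dr (fun M _ (v : Option ι → M) => t M (fun i => v (some i)) = v none) M

end link

end Pool.Agent.ZFIter.NPA.BSM.SP
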