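import Pool.Agent.BSP.UBase
import Pool.Agent.BSP.FLst

/-!
# BSP/UZf: uniform definability of the basic notions

Every notion has one instance, in the form of the corresponding `DR` or `DF` instance.
-/

universe u

namespace Pool.Agent.ZFIter.NPA.BSM.SP

open FirstOrder Pool.Agent.H78.ZF Pool.Agent.ZFIter Pool.Agent.ZFIter.NPA

variable {ι κ : Type}

instance UF.iota (P : ∀ (M : Type u) [ZFM M], M → (ι → M) → Prop)
    [h : UR (ι := Option ι) (fun M _ v => P M (v none) (fun i => v (some i)))] :
    UF (fun M _ v => iota (fun x => P M x v)) := by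
  constructor
  have hw : UR (ι := Option (Option ι)) (fun M _ v => P M (v none) (fun i => v (some (some i)))) :=
    UR.weaken (fun M _ (w : Option ι → M) => P M (w none) (fun i => w (some i)))
      (fun o : Option ι => (match o with | none => none | some i => some (some i) :
        Option (Option ι)))
  have h2 : UR (ι := Option ι) (fun M _ v => (∃! x, P M x (fun i => v (some i)))) := by
    have := UR.exU P
    infer_instance
  have he : UR (ι := Option ι) (fun M _ v => ∀ z, ¬ z ∈ v none) := by infer_instance
  have h3 : UR (ι := Option ι) (fun M _ v => (P M (v none) (fun i => v (some i)) ∧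
      ∀ y, P M y (fun i => v (some i)) → y = v none) ∨
      ((¬ ∃! x, P M x (fun i => v (some i))) ∧ ∀ z, ¬ z ∈ v none)) := by
    infer_instance
  refine h3.congr fun M _ v => ?_
  constructor
  · rintro (⟨h1, h2⟩ | ⟨h1, h2⟩)
    · exact iota_eq h1 h2
    · rw [iota_neg h1]
      exact (eq_emp h2).symm
  · intro hv
    by_cases hu : ∃! x, P M x (fun i => v (some i))
    · left
      rw [← hv]
      refine ⟨iota_spec hu, fun y hy => ?_⟩
      exact hu.unique hy (iota_spec hu)
    · right
      refine ⟨hu, ?_⟩
      rw [← hv, iota_neg hu]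
      exact not_mem_emp

instance UF.emp : UF.{u} (ι := ι) (fun _ _ _ => Pool.Agent.H78.ZF.emp) := by
  constructor
  have h : UR.{u} (ι := Option ι) (fun M _ v => ∀ z, ¬ z ∈ v none) := by infer_instance
  refine h.congr fun M _ v => ?_
  constructor
  · intro h
    exact (eq_emp h).symm
  · intro h
    rw [← h]
    exact not_mem_emp

instance UR.sub (s t : ∀ (M : Type u) [ZFM M], (ι → M) → M) [UF s] [UF t] : UR (fun M _ v => s M v ⊆ t M v) := by
  simp only [sub_def]
  infer_instance

instance UF.sep (a : ∀ (M : Type u) [ZFM M], (ι → M) → M) (P : ∀ (M : Type u) [ZFM M], M → (ι → M) → Prop) [UF a]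
    [h : UR (ι := Option ι) (fun M _ v => P M (v none) (fun i => v (some i)))] :
    UF (fun M _ v => sep (a M v) (fun x => P M x v)) := by
  have hw : UR (ι := Option (Option ι)) (fun M _ v => P M (v none) (fun i => v (some (some i)))) :=
    UR.weaken (fun M _ (w : Option ι → M) => P M (w none) (fun i => w (some i)))
      (fun o : Option ι => (match o with | none => none | some i => some (some i) :
        Option (Option ι)))
  unfold Pool.Agent.H78.ZF.sep
  infer_instance

instance UF.upair (s t : ∀ (M : Type u) [ZFM M], (ι → M) → M) [UF s] [UF t] :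
    UF (fun M _ v => upair (s M v) (t M v)) := by
  unfold Pool.Agent.H78.ZF.upair
  infer_instance

instance UF.sing (s : ∀ (M : Type u) [ZFM M], (ι → M) → M) [UF s] : UF (fun M _ v => sing (s M v)) := by
  unfold Pool.Agent.H78.ZF.sing
  infer_instance

instance UF.sUn (s : ∀ (M : Type u) [ZFM M], (ι → M) → M) [UF s] : UF (fun M _ v => sUn (s M v)) := by
  unfold Pool.Agent.H78.ZF.sUn
  infer_instance

instance UF.pow (s : ∀ (M : Type u) [ZFM M], (ι → M) → M) [UF s] : UF (fun M _ v => pow (s M v)) := by
  unfold Pool.Agent.H78.ZF.pow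
  infer_instance

instance UF.un (s t : ∀ (M : Type u) [ZFM M], (ι → M) → M) [UF s] [UF t] : UF (fun M _ v => un (s M v) (t M v)) := by
  unfold Pool.Agent.H78.ZF.un
  infer_instance

instance UF.ins (s t : ∀ (M : Type u) [ZFM M], (ι → M) → M) [UF s] [UF t] : UF (fun M _ v => ins (s M v) (t M v)) := by
  unfold Pool.Agent.H78.ZF.ins
  infer_instance

instance UF.opair (s t : ∀ (M : Type u) [ZFM M], (ι → M) → M) [UF s] [UF t] :
    UF (fun M _ v => opair (s M v) (t M v)) := by
  unfold Pool.Agent.H78.ZF.opair
  infer_instance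

instance UF.prod (s t : ∀ (M : Type u) [ZFM M], (ι → M) → M) [UF s] [UF t] :
    UF (fun M _ v => prod (s M v) (t M v)) := by
  unfold Pool.Agent.H78.ZF.prod
  infer_instance

/-! ### Application of families with parameters -/

theorem UF.app (F : ∀ (M : Type u) [ZFM M], M → (ι → M) → M)
    [h : UF (ι := Option ι) (fun M _ v => F M (v none) (fun i => v (some i)))]
    (s : ∀ (M : Type u) [ZFM M], (κ → M) → M) [hs : UF s] (e : ι → κ) :
    UF (fun M _ (v : κ → M) => F M (s M v) (fun i => v (e i))) := by
  constructor
  have h1 : UR (ι := Option (Option ι)) (fun M _ v =>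
      F M (v (some none)) (fun i => v (some (some i))) = v none) := h.out
  have h2 : UR (ι := Option (Option κ)) (fun M _ v => F M (v none) (fun i => v (some (some (e i)))) =
      v (some none)) := by
    exact UR.weaken (fun M _ (v : Option (Option ι) → M) =>
      F M (v (some none)) (fun i => v (some (some i))) = v none)
      (fun o : Option (Option ι) => (match o with
        | none => some none | some none => none | some (some i) => some (some (e i)) :
        Option (Option κ))) (h := h1)
  exact UR.subst1 (ι := Option κ) (fun M _ y v => F M y (fun i => v (some (e i))) = v none)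
    (fun M _ v => s M (fun i => v (some i))) h2

theorem UR.app (P : ∀ (M : Type u) [ZFM M], M → (ι → M) → Prop)
    [h : UR (ι := Option ι) (fun M _ v => P M (v none) (fun i => v (some i)))]
    (s : ∀ (M : Type u) [ZFM M], (κ → M) → M) [hs : UF s] (e : ι → κ) :
    UR (fun M _ (v : κ → M) => P M (s M v) (fun i => v (e i))) := by
  have h2 : UR (ι := Option κ) (fun M _ v => P M (v none) (fun i => v (some (e i)))) := by
    exact UR.weaken (fun M _ (v : Option ι → M) => P M (v none) (fun i => v (some i)))
      (fun o : Option ι => (match o with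
        | none => none | some i => some (e i) : Option κ)) (h := h)
  exact UR.subst1 (ι := κ) (fun M _ y v => P M y (fun i => v (e i))) s h2

theorem UF.app2 (G : ∀ (M : Type u) [ZFM M], M → M → (ι → M) → M)
    [h : UF (ι := Option (Option ι)) (fun M _ v => G M (v (some none)) (v none) (fun i => v (some (some i))))]
    (s t : ∀ (M : Type u) [ZFM M], (κ → M) → M) [hs : UF s] [ht : UF t] (e : ι → κ) :
    UF (fun M _ (v : κ → M) => G M (s M v) (t M v) (fun i => v (e i))) := by
  have h2 : UF (ι := Option κ) (fun M _ (v : Option κ → M) => G M (v none) (t M (fun i => v (some i)))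
      (fun i => v (some (e i)))) := by
    have := UF.app (ι := Option ι) (κ := Option κ)
      (fun M _ y w => G M (w none) y (fun i => w (some i))) (h := h)
      (fun M _ v => t M (fun i => v (some i)))
      (fun o : Option ι => match o with | none => none | some i => some (e i))
    exact this
  exact UF.app (ι := κ) (κ := κ) (fun M _ x w => G M x (t M w) (fun i => w (e i))) (h := h2) s (fun i => i)

instance UF.succ (s : ∀ (M : Type u) [ZFM M], (ι → M) → M) [UF s] : UF (fun M _ v => succ (s M v)) := by
  unfold Pool.Agent.H78.ZF.succ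
  infer_instance

instance UR.Inductive (s : ∀ (M : Type u) [ZFM M], (ι → M) → M) [UF s] : UR (fun M _ v => Inductive (s M v)) := by
  unfold Pool.Agent.H78.ZF.Inductive
  infer_instance

instance UF.omega : UF.{u} (ι := ι) (fun _ _ _ => Pool.Agent.H78.ZF.omega) := by
  constructor
  have h : UR.{u} (ι := Option ι) (fun M _ v => ∀ n, n ∈ v none ↔ ∀ I : M, Pool.Agent.H78.ZF.Inductive I → n ∈ I) := by
    infer_instance
  refine h.congr fun M _ v => ?_
  constructor
  · intro h
    exact Pool.Agent.H78.ZF.ext fun z => by rw [h z, mem_omega]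
  · intro h n
    rw [← h, mem_omega]

instance UF.least (P : ∀ (M : Type u) [ZFM M], M → (ι → M) → Prop)
    [h : UR (ι := Option ι) (fun M _ v => P M (v none) (fun i => v (some i)))] :
    UF (fun M _ v => least (fun x => P M x v)) := by
  have hw : UR (ι := Option (Option ι)) (fun M _ v => P M (v none) (fun i => v (some (some i)))) :=
    UR.weaken (fun M _ (w : Option ι → M) => P M (w none) (fun i => w (some i)))
      (fun o : Option ι => (match o with | none => none | some i => some (some i) :
        Option (Option ι)))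
  unfold Pool.Agent.H78.ZF.least
  infer_instance

instance UR.Fun (f a b : ∀ (M : Type u) [ZFM M], (ι → M) → M) [UF f] [UF a] [UF b] :
    UR (fun M _ v => Fun (f M v) (a M v) (b M v)) := by
  unfold Pool.Agent.H78.ZF.Fun
  infer_instance

instance UR.Inj (f a b : ∀ (M : Type u) [ZFM M], (ι → M) → M) [UF f] [UF a] [UF b] :
    UR (fun M _ v => Inj (f M v) (a M v) (b M v)) := by
  unfold Pool.Agent.H78.ZF.Inj
  infer_instance

instance UR.Bij (f a b : ∀ (M : Type u) [ZFM M], (ι → M) → M) [UF f] [UF a] [UF b] :
    UR (fun M _ v => Bij (f M v) (a M v) (b M v)) := by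
  unfold Pool.Agent.H78.ZF.Bij
  infer_instance

instance UF.ap (f x : ∀ (M : Type u) [ZFM M], (ι → M) → M) [UF f] [UF x] : UF (fun M _ v => ap (f M v) (x M v)) := by
  unfold Pool.Agent.H78.ZF.ap
  infer_instance

instance UF.mkf (a b : ∀ (M : Type u) [ZFM M], (ι → M) → M) (F : ∀ (M : Type u) [ZFM M], M → (ι → M) → M) [UF a] [UF b]
    [h : UF (ι := Option ι) (fun M _ v => F M (v none) (fun i => v (some i)))] :
    UF (fun M _ v => mkf (a M v) (b M v) (fun x => F M x v)) := by
  have hw : UF (ι := Option (Option ι)) (fun M _ v => F M (v none) (fun i => v (some (some i)))) :=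
    UF.weaken (fun M _ (w : Option ι → M) => F M (w none) (fun i => w (some i)))
      (fun o : Option ι => (match o with | none => none | some i => some (some i) :
        Option (Option ι)))
  unfold Pool.Agent.H78.ZF.mkf
  infer_instance

instance UR.FinM (s : ∀ (M : Type u) [ZFM M], (ι → M) → M) [UF s] : UR (fun M _ v => FinM (s M v)) := by
  unfold Pool.Agent.H78.ZF.FinM
  infer_instance

instance UF.img (a : ∀ (M : Type u) [ZFM M], (ι → M) → M) (F : ∀ (M : Type u) [ZFM M], M → (ι → M) → M) [UF a]
    [h : UF (ι := Option ι) (fun M _ v => F M (v none) (fun i => v (some i)))] :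
    UF (fun M _ v => img (a M v) (fun x => F M x v)) := by
  have hw : ∀ {κ : Type} (s : ∀ (M : Type u) [ZFM M], (κ → M) → M) (e : ι → κ) [UF s],
    UF (fun M _ (v : κ → M) => F M (s M v) (fun i => v (e i))) := fun s e _ => UF.app F s e
  unfold Pool.Agent.ZFIter.img
  infer_instance

instance UR.RecSeq (F : ∀ (M : Type u) [ZFM M], M → (ι → M) → M) (z0 f n : ∀ (M : Type u) [ZFM M], (ι → M) → M) [UF z0] [UF f] [UF n]
    [h : UF (ι := Option ι) (fun M _ v => F M (v none) (fun i => v (some i)))] :
    UR (fun M _ v => RecSeq (fun x => F M x v) (z0 M v) (f M v) (n M v)) := by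
  have hw : ∀ {κ : Type} (s : ∀ (M : Type u) [ZFM M], (κ → M) → M) (e : ι → κ) [UF s],
    UF (fun M _ (v : κ → M) => F M (s M v) (fun i => v (e i))) := fun s e _ => UF.app F s e
  unfold Pool.Agent.ZFIter.RecSeq
  infer_instance

instance UF.recc (F : ∀ (M : Type u) [ZFM M], M → (ι → M) → M) (z0 n : ∀ (M : Type u) [ZFM M], (ι → M) → M) [UF z0] [UF n]
    [h : UF (ι := Option ι) (fun M _ v => F M (v none) (fun i => v (some i)))] :
    UF (fun M _ v => recc (fun x => F M x v) (z0 M v) (n M v)) := by
  have hw : ∀ {κ : Type} (s : ∀ (M : Type u) [ZFM M], (κ → M) → M) (e : ι → κ) [UF s],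
    UF (fun M _ (v : κ → M) => F M (s M v) (fun i => v (e i))) := fun s e _ => UF.app F s e
  unfold Pool.Agent.ZFIter.recc
  have : UR (ι := Option (Option ι)) (fun M _ v => ZFIter.RecSeq (fun x => F M x fun i => v (some (some i)))
      (z0 M fun i => v (some (some i))) (v none) (n M fun i => v (some (some i)))) := by
    exact UR.RecSeq (ι := Option (Option ι)) (fun M _ x v => F M x fun i => v (some (some i))) _ _ _
  infer_instance

instance UR.Trans (s : ∀ (M : Type u) [ZFM M], (ι → M) → M) [UF s] : UR (fun M _ v => Trans (s M v)) := by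
  unfold Pool.Agent.ZFIter.Trans
  infer_instance

instance UF.tc (s : ∀ (M : Type u) [ZFM M], (ι → M) → M) [UF s] : UF (fun M _ v => tc (s M v)) := by
  unfold Pool.Agent.ZFIter.tc
  infer_instance

instance UR.IsSeq (f a : ∀ (M : Type u) [ZFM M], (ι → M) → M) [UF f] [UF a] : UR (fun M _ v => IsSeq (f M v) (a M v)) := by
  unfold Pool.Agent.ZFIter.IsSeq
  infer_instance

instance UF.res (p a : ∀ (M : Type u) [ZFM M], (ι → M) → M) [UF p] [UF a] : UF (fun M _ v => res (p M v) (a M v)) := by
  unfold Pool.Agent.ZFIter.res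
  infer_instance

instance UF.mkseq (a : ∀ (M : Type u) [ZFM M], (ι → M) → M) (F : ∀ (M : Type u) [ZFM M], M → (ι → M) → M) [UF a]
    [h : UF (ι := Option ι) (fun M _ v => F M (v none) (fun i => v (some i)))] :
    UF (fun M _ v => mkseq (a M v) (fun x => F M x v)) := by
  unfold Pool.Agent.ZFIter.mkseq
  infer_instance

instance UR.Ord (s : ∀ (M : Type u) [ZFM M], (ι → M) → M) [UF s] : UR (fun M _ v => Ord (s M v)) := by
  unfold Pool.Agent.ZFIter.Ord
  infer_instance

instance UR.RAtt (G : ∀ (M : Type u) [ZFM M], M → M → (ι → M) → M) (t f : ∀ (M : Type u) [ZFM M], (ι → M) → M) [UF t] [UF f]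
    [h : UF (ι := Option (Option ι)) (fun M _ v => G M (v (some none)) (v none) (fun i => v (some (some i))))] :
    UR (fun M _ v => RAtt (fun x y => G M x y v) (t M v) (f M v)) := by
  unfold Pool.Agent.ZFIter.NPA.RAtt
  have hw : UF (ι := Option ι) (fun M _ v => G M (v none) (ZFIter.res (f M (fun i => v (some i))) (v none))
      (fun i => v (some i))) :=
    UF.app2 G (κ := Option ι) (fun M _ v => v none) (fun M _ v => ZFIter.res (f M (fun i => v (some i))) (v none))
      (fun i => some i)
  infer_instance

instance UF.erec (G : ∀ (M : Type u) [ZFM M], M → M → (ι → M) → M) (s : ∀ (M : Type u) [ZFM M], (ι → M) → M) [UF s]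
    [h : UF (ι := Option (Option ι)) (fun M _ v => G M (v (some none)) (v none) (fun i => v (some (some i))))] :
    UF (fun M _ v => erec (fun x y => G M x y v) (s M v)) := by
  unfold Pool.Agent.ZFIter.NPA.erec
  have h1 : UF (ι := Option (Option (Option ι))) (fun M _ v =>
      G M (s M (fun i => v (some (some (some i))))) (ZFIter.res (v none) (s M (fun i => v (some (some (some i))))))
        (fun i => v (some (some (some i))))) :=
    UF.app2 G (κ := Option (Option (Option ι))) (fun M _ v => s M (fun i => v (some (some (some i)))))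
      (fun M _ v => ZFIter.res (v none) (s M (fun i => v (some (some (some i))))))
      (fun i => some (some (some i)))
  have h2 : UR (ι := Option (Option (Option ι))) (fun M _ v =>
      NPA.RAtt (fun x y => G M x y (fun i => v (some (some (some i))))) (v (some none)) (v none)) := by
    have h3 : UF (ι := Option (Option (Option (Option (Option ι))))) (fun M _ v =>
        G M (v (some none)) (v none) (fun i => v (some (some (some (some (some i))))))) :=
      UF.app2 G (fun M _ v => v (some none)) (fun M _ v => v none)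
        (fun i => some (some (some (some (some i)))))
    exact UR.RAtt (ι := Option (Option (Option ι))) (fun M _ x y v => G M x y (fun i => v (some (some (some i)))))
      (fun M _ v => v (some none)) (fun M _ v => v none)
  infer_instance

instance UF.tcl (s : ∀ (M : Type u) [ZFM M], (ι → M) → M) [UF s] : UF (fun M _ v => tcl (s M v)) := by
  unfold Pool.Agent.ZFIter.NPA.tcl
  infer_instance

instance UF.leastO (P : ∀ (M : Type u) [ZFM M], M → (ι → M) → Prop)
    [h : UR (ι := Option ι) (fun M _ v => P M (v none) (fun i => v (some i)))] :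
    UF (fun M _ v => leastO (fun x => P M x v)) := by
  have hw : UR (ι := Option (Option ι)) (fun M _ v => P M (v none) (fun i => v (some (some i)))) :=
    UR.weaken (fun M _ (w : Option ι → M) => P M (w none) (fun i => w (some i)))
      (fun o : Option ι => (match o with | none => none | some i => some (some i) :
        Option (Option ι)))
  unfold Pool.Agent.ZFIter.NPA.leastO
  infer_instance

instance UF.RS : UF.{u} (ι := ι) (fun _ _ _ => Pool.Agent.ZFIter.NPA.RS) := by
  unfold Pool.Agent.ZFIter.NPA.RS
  infer_instance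

instance UR.Le (P R q p : ∀ (M : Type u) [ZFM M], (ι → M) → M) [UF P] [UF R] [UF q] [UF p] :
    UR (fun M _ v => Le (P M v) (R M v) (q M v) (p M v)) := by
  unfold Pool.Agent.ZFIter.Le
  infer_instance

instance UR.Half1 (P R W p x y : ∀ (M : Type u) [ZFM M], (ι → M) → M) [UF P] [UF R] [UF W] [UF p] [UF x] [UF y] :
    UR (fun M _ v => Half1 (P M v) (R M v) (W M v) (p M v) (x M v) (y M v)) := by
  unfold Pool.Agent.ZFIter.Half1
  infer_instance

instance UR.Half2 (P R W p x y : ∀ (M : Type u) [ZFM M], (ι → M) → M) [UF P] [UF R] [UF W] [UF p] [UF x] [UF y] :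
    UR (fun M _ v => Half2 (P M v) (R M v) (W M v) (p M v) (x M v) (y M v)) := by
  unfold Pool.Agent.ZFIter.Half2
  infer_instance

instance UR.FEq (P R p x y : ∀ (M : Type u) [ZFM M], (ι → M) → M) [UF P] [UF R] [UF p] [UF x] [UF y] :
    UR (fun M _ v => FEq (P M v) (R M v) (p M v) (x M v) (y M v)) := by
  simp only [FEq_def]
  infer_instance

instance UR.FMem (P R p x y : ∀ (M : Type u) [ZFM M], (ι → M) → M) [UF P] [UF R] [UF p] [UF x] [UF y] :
    UR (fun M _ v => FMem (P M v) (R M v) (p M v) (x M v) (y M v)) := by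
  unfold Pool.Agent.ZFIter.FMem
  infer_instance

instance UF.vStep (x s : ∀ (M : Type u) [ZFM M], (ι → M) → M) [UF x] [UF s] : UF (fun M _ v => vStep (x M v) (s M v)) := by
  unfold Pool.Agent.ZFIter.NPA.BSM.SP.vStep
  infer_instance

instance UF.vN (s : ∀ (M : Type u) [ZFM M], (ι → M) → M) [UF s] : UF (fun M _ v => vN (s M v)) := by
  unfold Pool.Agent.ZFIter.NPA.BSM.SP.vN
  infer_instance

instance UF.mwit (P : ∀ (M : Type u) [ZFM M], M → (ι → M) → Prop)
    [h : UR (ι := Option ι) (fun M _ v => P M (v none) (fun i => v (some i)))] :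
    UF (fun M _ v => mwit (fun x => P M x v)) := by
  have hw : UR (ι := Option (Option ι)) (fun M _ v => P M (v none) (fun i => v (some (some i)))) :=
    UR.weaken (fun M _ (w : Option ι → M) => P M (w none) (fun i => w (some i)))
      (fun o : Option ι => (match o with | none => none | some i => some (some i) :
        Option (Option ι)))
  have hw2 : UR (ι := Option (Option (Option ι)))
      (fun M _ v => P M (v none) (fun i => v (some (some (some i))))) :=
    UR.weaken (fun M _ (w : Option ι → M) => P M (w none) (fun i => w (some i)))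
      (fun o : Option ι => (match o with | none => none | some i => some (some (some i)) :
        Option (Option (Option ι))))
  unfold Pool.Agent.ZFIter.NPA.BSM.SP.mwit
  infer_instance

instance UF.chkStep (P x g : ∀ (M : Type u) [ZFM M], (ι → M) → M) [UF P] [UF x] [UF g] :
    UF (fun M _ v => chkStep (P M v) (x M v) (g M v)) := by
  unfold Pool.Agent.ZFIter.NPA.BSM.SP.chkStep
  infer_instance

instance UF.chk (P x : ∀ (M : Type u) [ZFM M], (ι → M) → M) [UF P] [UF x] : UF (fun M _ v => chk (P M v) (x M v)) := by
  unfold Pool.Agent.ZFIter.NPA.BSM.SP.chk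
  infer_instance

instance UF.upnm {ι : Type} (P x y : ∀ (M : Type u) [ZFM M], (ι → M) → M) [UF P] [UF x] [UF y] :
    UF (fun M _ v => upnm (P M v) (x M v) (y M v)) := by
  unfold Pool.Agent.ZFIter.NPA.BSM.SP.upnm
  infer_instance

instance UF.opnm {ι : Type} (P x y : ∀ (M : Type u) [ZFM M], (ι → M) → M) [UF P] [UF x] [UF y] :
    UF (fun M _ v => opnm (P M v) (x M v) (y M v)) := by
  unfold Pool.Agent.ZFIter.NPA.BSM.SP.opnm
  infer_instance

instance UF.evv (g y h : ∀ (M : Type u) [ZFM M], (ι → M) → M) [UF g] [UF y] [UF h] : UF (fun M _ v => evv (g M v) (y M v) (h M v)) := by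
  unfold Pool.Agent.ZFIter.NPA.BSM.SP.evv
  infer_instance

instance UR.Att (g t h : ∀ (M : Type u) [ZFM M], (ι → M) → M) [UF g] [UF t] [UF h] : UR (fun M _ v => Att (g M v) (t M v) (h M v)) := by
  unfold Pool.Agent.ZFIter.NPA.BSM.SP.Att
  infer_instance

instance UF.attStep (g x s : ∀ (M : Type u) [ZFM M], (ι → M) → M) [UF g] [UF x] [UF s] :
    UF (fun M _ v => attStep (g M v) (x M v) (s M v)) := by
  unfold Pool.Agent.ZFIter.NPA.BSM.SP.attStep
  infer_instance

instance UF.attF (g x : ∀ (M : Type u) [ZFM M], (ι → M) → M) [UF g] [UF x] : UF (fun M _ v => attF (g M v) (x M v)) := by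
  unfold Pool.Agent.ZFIter.NPA.BSM.SP.attF
  infer_instance

instance UR.Uf (s : ∀ (M : Type u) [ZFM M], (ι → M) → M) [UF s] : UR (fun M _ v => Uf (s M v)) := by
  unfold Pool.Agent.ZFIter.NPA.BSM.Uf
  infer_instance

instance UR.Nonpr (s : ∀ (M : Type u) [ZFM M], (ι → M) → M) [UF s] : UR (fun M _ v => Nonpr (s M v)) := by
  unfold Pool.Agent.ZFIter.NPA.BSM.Nonpr
  infer_instance

instance UR.Selective (s : ∀ (M : Type u) [ZFM M], (ι → M) → M) [UF s] : UR (fun M _ v => Selective (s M v)) := by
  unfold Pool.Agent.ZFIter.NPA.BSM.Selective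
  infer_instance

instance UF.rkImg (f u : ∀ (M : Type u) [ZFM M], (ι → M) → M) [UF f] [UF u] : UF (fun M _ v => rkImg (f M v) (u M v)) := by
  unfold Pool.Agent.ZFIter.NPA.BSM.rkImg
  infer_instance

instance UF.ulim (u s : ∀ (M : Type u) [ZFM M], (ι → M) → M) [UF u] [UF s] : UF (fun M _ v => ulim (u M v) (s M v)) := by
  unfold Pool.Agent.ZFIter.NPA.BSM.ulim
  infer_instance

instance UR.Inacc (s : ∀ (M : Type u) [ZFM M], (ι → M) → M) [UF s] : UR (fun M _ v => Inacc (s M v)) := by
  unfold Pool.Agent.ZFIter.NPA.BSM.Inacc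
  infer_instance

instance UF.Lev (s : ∀ (M : Type u) [ZFM M], (ι → M) → M) [UF s] : UF (fun M _ v => Lev (s M v)) := by
  unfold Pool.Agent.ZFIter.NPA.BSM.Lev
  infer_instance

instance UF.LevR (s : ∀ (M : Type u) [ZFM M], (ι → M) → M) [UF s] : UF (fun M _ v => LevR (s M v)) := by
  unfold Pool.Agent.ZFIter.NPA.BSM.LevR
  infer_instance

end Pool.Agent.ZFIter.NPA.BSM.SP
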