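import Pool.Agent.BSP.FInst
import Pool.Agent.BSP.UZf

/-!
# BSP/UFor: the forcing theorem, uniformly for all models and all generic filters

`exists_frc`: for every uniformly definable relation `Φ` there is one uniformly definable relation
`Ψ(P, R, v, p)` (`p` forces `Φ` of the names `v`, for the forcing notion `(P, R)`) with the truth lemma
for all models, all forcing notions and all generic filters. `Frc Φ P R v p` is a choice of it.
-/

universe u

namespace Pool.Agent.ZFIter.NPA.BSM.SP

open Pool.Agent.H78.ZF Pool.Agent.ZFIter Pool.Agent.ZFIter.NPA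
open FirstOrder

section expl

variable {M : Type u} [ZFM M] {F : Fo M} {ι κ : Type} [Finite ι] [Finite κ]

theorem FRel.dr_w {Q : (ι → F.Ext) → Prop} {A : (ι → M) → M → Prop} (h : FRel F Q A)
    {κ : Type} (e : ι → κ) (s : (κ → M) → M) [hs : DF s] : DR (fun v : κ → M => A (fun i => v (e i)) (s v)) := by
  have h1 : ∀ o : Option ι, DF (M := M) (ι := κ)
      ((fun o w => o.elim (s w) (fun i => w (e i)) : Option ι → (κ → M) → M) o) := by
    intro o
    cases o with
    | none => exact hs
    | some i => exact DF.var (e i)
  exact @DR.subst M _ κ (Option ι) _ _ h.dr (fun o w => o.elim (s w) (fun i => w (e i))) h1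

theorem FRel.imp' {Q Q' : (ι → F.Ext) → Prop} {A B : (ι → M) → M → Prop} (hA : FRel F Q A)
    (hB : FRel F Q' B) :
    FRel F (fun v => Q v → Q' v) (fun v => (forc F.P F.R).imp (A v) (B v)) := by
  refine ⟨?_, fun v => ?_, fun v => ?_⟩
  · have h1 : DR (ι := Option (Option ι)) (fun v => A (fun i => v (some (some i))) (v none)) :=
      FRel.dr_w hA (fun i => some (some i)) (fun v => v none)
    have h2 : DR (ι := Option (Option ι)) (fun v => B (fun i => v (some (some i))) (v none)) :=
      FRel.dr_w hB (fun i => some (some i)) (fun v => v none)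
    show DR (ι := Option ι) (fun v => ∀ q, Le F.P F.R q (v none) → A (fun i => v (some i)) q →
      B (fun i => v (some i)) q)
    infer_instance
  · have := hA.good v
    have := hB.good v
    exact Good.fimp _ _
  · have gA := hA.good v
    have gB := hB.good v
    have dA := hA.d1 v
    have dB := hB.d1 v
    have dI : D1 ((forc F.P F.R).imp (A v) (B v)) := by
      show D1 (fun p => ∀ q, Le F.P F.R q p → A v q → B v q)
      infer_instance
    constructor
    · intro hQ
      obtain ⟨p, hp, h1 | h1⟩ := Fo.decide (F := F) ((forc F.P F.R).imp (A v) (B v))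
      · exact ⟨p, hp, h1⟩
      · exfalso
        obtain ⟨s, hs, hAs, hBs⟩ := Fo.below (F := F)
          (fun s => A v s ∧ ∀ t, Le F.P F.R t s → ¬ B v t) hp (by
            intro q hq
            have h2 := h1 q hq
            have h3 : ∃ r, Le F.P F.R r q ∧ A v r ∧ ¬ B v r := by
              by_contra hc
              exact h2 fun r hr hAr => by
                by_contra hBr
                exact hc ⟨r, hr, hAr, hBr⟩
            obtain ⟨r, hr, hAr, hBr⟩ := h3
            have h4 : ∃ s, Le F.P F.R s r ∧ ∀ t, Le F.P F.R t s → ¬ B v t := by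
              by_contra hc
              refine hBr (gB.dense fun s hs => ?_)
              by_contra hd
              exact hc ⟨s, hs, fun t ht hBt => hd ⟨t, ht, hBt⟩⟩
            obtain ⟨s, hs, h5⟩ := h4
            exact ⟨s, Pre.trans hs hr, gA.mono hAr hs, h5⟩)
        obtain ⟨t, ht, hBt⟩ := (hB.truth v).1 (hQ ((hA.truth v).2 ⟨s, hs, hAs⟩))
        obtain ⟨r, _, hr1, hr2⟩ := F.gen.dir s t hs ht
        exact hBs r hr1 (gB.mono hBt hr2)
    · rintro ⟨p, hp, h1⟩ hQ
      obtain ⟨q, hq, hAq⟩ := (hA.truth v).1 hQ
      obtain ⟨r, hr, hr1, hr2⟩ := F.gen.dir p q hp hq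
      exact (hB.truth v).2 ⟨r, hr, h1 r hr1 (gA.mono hAq hr2)⟩

theorem FRel.all' {Q : (Option ι → F.Ext) → Prop} {A : (Option ι → M) → M → Prop}
    (hA : FRel F Q A) :
    FRel F (fun v => ∀ x, Q (fun o => o.elim x v)) (fun v p => ∀ x, A (fun o => o.elim x v) p) := by
  refine ⟨?_, fun v => ?_, fun v => ?_⟩
  · have h1 : ∀ o : Option (Option ι), DF (M := M) (ι := Option (Option ι))
        ((fun o w => o.elim (w (some none)) (fun o' => o'.elim (w none) (fun i => w (some (some i)))) :
          Option (Option ι) → (Option (Option ι) → M) → M) o) := by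
      intro o
      rcases o with _ | _ | i
      · exact DF.var (some none)
      · exact DF.var none
      · exact DF.var (some (some i))
    have h2 := @DR.subst M _ (Option (Option ι)) (Option (Option ι)) _ _ hA.dr _ h1
    have h3 : DR (ι := Option (Option ι)) (fun w =>
        A (fun o : Option ι => o.elim (w none) (fun i => w (some (some i)))) (w (some none))) := h2
    exact DR.all (ι := Option ι) (fun x v => A (fun o => o.elim x (fun i => v (some i))) (v none))
  · exact ⟨fun h hq x => (hA.good _).mono (h x) hq, fun h x => (hA.good _).dense fun q hq => by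
      obtain ⟨r, hr, h1⟩ := h q hq
      exact ⟨r, hr, h1 x⟩⟩
  · have h3 : DR (ι := Option Unit) (fun w : Option Unit → M =>
        A (fun o : Option ι => o.elim (w none) v) (w (some ()))) := by
      have h1 : ∀ o : Option (Option ι), DF (M := M) (ι := Option Unit)
          ((fun o w => o.elim (w (some ())) (fun o' => o'.elim (w none) v) :
            Option (Option ι) → (Option Unit → M) → M) o) := by
        intro o
        rcases o with _ | _ | i
        · exact DF.var (some ())
        · exact DF.var none
        · exact (inferInstance : DF (fun _ : Option Unit → M => v i))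
      exact @DR.subst M _ (Option Unit) (Option (Option ι)) _ _ hA.dr _ h1
    have d1 : D1 (fun p => ∀ x, A (fun o : Option ι => o.elim x v) p) :=
      ⟨DR.all (ι := Unit) (fun x w => A (fun o : Option ι => o.elim x v) (w ()))⟩
    have d2 : D2 (fun x p => A (fun o : Option ι => o.elim x v) p) := by
      have h1 : ∀ o : Option (Option ι), DF (M := M) (ι := Fin 2)
          ((fun o w => o.elim (w 1) (fun o' => o'.elim (w 0) v) :
            Option (Option ι) → (Fin 2 → M) → M) o) := by
        intro o
        rcases o with _ | _ | i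
        · exact DF.var 1
        · exact DF.var 0
        · exact (inferInstance : DF (fun _ : Fin 2 → M => v i))
      exact ⟨@DR.subst M _ (Fin 2) (Option (Option ι)) _ _ hA.dr _ h1⟩
    obtain ⟨B, dB, hB⟩ : ∃ B : M → M → Prop, D2 B ∧
        ∀ x p, B x p ↔ A (fun o : Option ι => o.elim x v) p := ⟨_, d2, fun _ _ => Iff.rfl⟩
    constructor
    · intro hQ
      obtain ⟨p, hp, h1 | h1⟩ := Fo.decide (F := F) (fun p => ∀ x, A (fun o => o.elim x v) p)
      · exact ⟨p, hp, h1⟩
      · exfalso
        obtain ⟨s, hs, x, hx⟩ := Fo.below (F := F)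
          (fun s => ∃ x, ∀ t, Le F.P F.R t s → ¬ B x t) hp (by
            intro q hq
            simp only [hB]
            have h2 := h1 q hq
            push Not at h2
            obtain ⟨x, hx⟩ := h2
            have h4 : ∃ s, Le F.P F.R s q ∧ ∀ t, Le F.P F.R t s → ¬ A (fun o => o.elim x v) t := by
              by_contra hc
              refine hx ((hA.good _).dense fun s hs => ?_)
              by_contra hd
              exact hc ⟨s, hs, fun t ht hBt => hd ⟨t, ht, hBt⟩⟩
            obtain ⟨s, hs, h5⟩ := h4
            exact ⟨s, hs, x, h5⟩)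
        have e : (fun i : Option ι => F.val ((fun o : Option ι => o.elim x v) i)) =
            fun o => o.elim (F.val x) (fun i => F.val (v i)) := by
          funext o; cases o <;> rfl
        have h5 := hQ (F.val x)
        simp only [hB] at hx
        rw [← e] at h5
        obtain ⟨t, ht, hBt⟩ := (hA.truth _).1 h5
        obtain ⟨r, _, hr1, hr2⟩ := F.gen.dir s t hs ht
        exact hx r hr1 ((hA.good _).mono hBt hr2)
    · rintro ⟨p, hp, h1⟩ x
      obtain ⟨x, rfl⟩ := Fo.exists_val x
      have e : (fun i : Option ι => F.val ((fun o : Option ι => o.elim x v) i)) =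
          fun o => o.elim (F.val x) (fun i => F.val (v i)) := by
        funext o; cases o <;> rfl
      rw [← e]
      exact (hA.truth _).2 ⟨p, hp, h1 x⟩

omit [Finite κ] in
theorem FRel.reindex' {Q : (ι → F.Ext) → Prop} {A : (ι → M) → M → Prop} (hA : FRel F Q A)
    (f : ι → κ) : FRel F (fun v : κ → F.Ext => Q (fun i => v (f i))) (fun v p => A (fun i => v (f i)) p) :=
  ⟨FRel.dr_w hA (fun i => some (f i)) (fun v => v none), fun v => hA.good _, fun v => hA.truth _⟩

end expl

/-! ### Families -/

/-- The family `A` of relations of the models is a forcing relation for the family `Q` of relations of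
the generic extensions. -/
structure UFam {ι : Type} (Q : ∀ (M : Type u) [ZFM M] (F : Fo M), (ι → F.Ext) → Prop)
    (A : ∀ (M : Type u) [ZFM M], M → M → (ι → M) → M → Prop) : Prop where
  ur : UR (ι := Option (Option (Option ι))) (fun M _ v => A M (v none) (v (some none))
    (fun i => v (some (some (some i)))) (v (some (some none))))
  good : ∀ (M : Type u) [ZFM M] (P R : M) [Pre P R] (v : ι → M), Good P R (A M P R v)
  fr : ∀ (M : Type u) [ZFM M] (F : Fo M), FRel F (Q M F) (A M F.P F.R)

theorem UFam.congr {ι : Type} {Q Q' : ∀ (M : Type u) [ZFM M] (F : Fo M), (ι → F.Ext) → Prop}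
    (h : ∃ A, UFam Q A) (e : ∀ (M : Type u) [ZFM M] (F : Fo M) v, Q M F v ↔ Q' M F v) :
    ∃ A, UFam Q' A := by
  obtain ⟨A, hA⟩ := h
  exact ⟨A, hA.ur, hA.good, fun M _ F =>
    ⟨(hA.fr M F).dr, (hA.fr M F).good, fun v => (e M F _).symm.trans ((hA.fr M F).truth v)⟩⟩

section fam

variable {ι κ : Type} [Finite ι] [Finite κ]

omit [Finite ι] in
theorem UFam.bot : ∃ A, UFam.{u} (ι := ι) (fun _ _ _ _ => False) A := by
  refine ⟨fun _ _ P R _ p => ∀ q, ¬ Le P R q p, ?_, ?_, ?_⟩
  · infer_instance
  · intro M _ P R _ v
    refine ⟨fun {p q} h hq r hr => h r (Pre.trans hr hq), fun {p} h q hq => ?_⟩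
    obtain ⟨r, hr, h1⟩ := h q hq
    exact h1 r (Pre.refl hr.memL)
  · intro M _ F
    refine ⟨inferInstance, fun v => ⟨?_, ?_⟩, fun v => ⟨False.elim, ?_⟩⟩
    · intro p q h hq r hr
      exact h r (Pre.trans hr hq)
    · intro p h q hq
      obtain ⟨r, hr, h1⟩ := h q hq
      exact h1 r (Pre.refl hr.memL)
    · rintro ⟨p, hp, h⟩
      exact h p (Pre.refl (Fo.G_mem hp))

omit [Finite ι] in
theorem UFam.eq (i j : ι) : ∃ A, UFam.{u} (fun _ _ _ v => v i = v j) A :=
  ⟨fun _ _ P R v p => FEq P R p (v i) (v j), inferInstance, fun _ _ _ _ _ _ => Good.feq _ _,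
    fun _ _ _ => ⟨inferInstance, fun _ => Good.feq _ _, fun _ => Fo.val_eq⟩⟩

omit [Finite ι] in
theorem UFam.mem (i j : ι) : ∃ A, UFam.{u} (fun _ _ _ v => v i ∈ v j) A :=
  ⟨fun _ _ P R v p => FMem P R p (v i) (v j), inferInstance, fun _ _ _ _ _ _ => Good.fmem _ _,
    fun _ _ _ => ⟨inferInstance, fun _ => Good.fmem _ _, fun _ => Fo.E_val⟩⟩

theorem UFam.imp {Q Q' : ∀ (M : Type u) [ZFM M] (F : Fo M), (ι → F.Ext) → Prop}
    (h : ∃ A, UFam Q A) (h' : ∃ A, UFam Q' A) :
    ∃ A, UFam (fun M _ F v => Q M F v → Q' M F v) A := by
  obtain ⟨A, hA⟩ := h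
  obtain ⟨B, hB⟩ := h'
  refine ⟨fun M _ P R v => (forc P R).imp (A M P R v) (B M P R v), ?_, ?_, ?_⟩
  · have h1 : UR (ι := Option (Option (Option (Option ι)))) (fun M _ v =>
        A M (v (some none)) (v (some (some none)))
        (fun i => v (some (some (some (some i))))) (v none)) :=
      UR.weaken _ (fun o : Option (Option (Option ι)) => (match o with
        | none => some none
        | some none => some (some none)
        | some (some none) => none
        | some (some (some i)) => some (some (some (some i))) :
          Option (Option (Option (Option ι))))) (h := hA.ur)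
    have h2 : UR (ι := Option (Option (Option (Option ι)))) (fun M _ v =>
        B M (v (some none)) (v (some (some none)))
        (fun i => v (some (some (some (some i))))) (v none)) :=
      UR.weaken _ (fun o : Option (Option (Option ι)) => (match o with
        | none => some none
        | some none => some (some none)
        | some (some none) => none
        | some (some (some i)) => some (some (some (some i))) :
          Option (Option (Option (Option ι))))) (h := hB.ur)
    show UR (ι := Option (Option (Option ι))) (fun M _ v => ∀ q,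
      Le (v none) (v (some none)) q (v (some (some none))) →
      A M (v none) (v (some none)) (fun i => v (some (some (some i)))) q →
      B M (v none) (v (some none)) (fun i => v (some (some (some i)))) q)
    exact UR.all (ι := Option (Option (Option ι))) (fun M _ q v =>
      Le (v none) (v (some none)) q (v (some (some none))) →
      A M (v none) (v (some none)) (fun i => v (some (some (some i)))) q →
      B M (v none) (v (some none)) (fun i => v (some (some (some i)))) q)
  · intro M _ P R _ v
    have := hA.good M P R v
    have := hB.good M P R v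
    exact Good.fimp _ _
  · intro M _ F
    exact FRel.imp' (hA.fr M F) (hB.fr M F)

theorem UFam.all {Q : ∀ (M : Type u) [ZFM M] (F : Fo M), (Option ι → F.Ext) → Prop}
    (h : ∃ A, UFam Q A) :
    ∃ A, UFam (fun M _ F v => ∀ x, Q M F (fun o => o.elim x v)) A := by
  obtain ⟨A, hA⟩ := h
  refine ⟨fun M _ P R v p => ∀ x, A M P R (fun o => o.elim x v) p, ?_, ?_, ?_⟩
  · have h1 : UR (ι := Option (Option (Option (Option ι)))) (fun M _ v =>
        A M (v (some none)) (v (some (some none)))
        (fun o : Option ι => o.elim (v none) (fun i => v (some (some (some (some i))))))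
        (v (some (some (some none))))) := by
      have h2 := UR.weaken (κ := Option (Option (Option (Option ι)))) _
        (fun o : Option (Option (Option (Option ι))) => (match o with
        | none => some none
        | some none => some (some none)
        | some (some none) => some (some (some none))
        | some (some (some none)) => none
        | some (some (some (some i))) => some (some (some (some i))) :
          Option (Option (Option (Option ι))))) (h := hA.ur)
      refine h2.congr fun M _ v => ?_
      refine iff_of_eq (congrArg (fun w => A M (v (some none)) (v (some (some none))) w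
        (v (some (some (some none))))) ?_)
      funext o
      cases o <;> rfl
    exact UR.all (ι := Option (Option (Option ι))) (fun M _ x v =>
      A M (v none) (v (some none)) (fun o : Option ι => o.elim x (fun i => v (some (some (some i)))))
        (v (some (some none))))
  · intro M _ P R _ v
    exact ⟨fun h hq x => (hA.good M P R _).mono (h x) hq, fun h x =>
      (hA.good M P R _).dense fun q hq => by
        obtain ⟨r, hr, h1⟩ := h q hq
        exact ⟨r, hr, h1 x⟩⟩
  · intro M _ F
    exact FRel.all' (hA.fr M F)

omit [Finite κ] in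
theorem UFam.reindex {Q : ∀ (M : Type u) [ZFM M] (F : Fo M), (ι → F.Ext) → Prop}
    (h : ∃ A, UFam Q A) (f : ι → κ) :
    ∃ A, UFam (fun M _ F (v : κ → F.Ext) => Q M F (fun i => v (f i))) A := by
  obtain ⟨A, hA⟩ := h
  refine ⟨fun M _ P R v p => A M P R (fun i => v (f i)) p, ?_, ?_, ?_⟩
  · exact UR.weaken _ (fun o : Option (Option (Option ι)) => (match o with
        | none => none
        | some none => some none
        | some (some none) => some (some none)
        | some (some (some i)) => some (some (some (f i))) :
          Option (Option (Option κ)))) (h := hA.ur)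
  · intro M _ P R _ v
    exact hA.good M P R _
  · intro M _ F
    exact FRel.reindex' (hA.fr M F) f

private theorem ufor_var {α : Type} (t : LSet.Term α) : ∃ a, t = FirstOrder.Language.Term.var a := by
  cases t with
  | var a => exact ⟨a, rfl⟩
  | func f _ => exact nomatch f

private theorem ufor_elim {S : Type u} {α : Type} {m : ℕ} (v : α ⊕ Fin m → S) (a : α ⊕ Fin m) :
    Sum.elim (fun i => v (Sum.inl i)) (fun j => v (Sum.inr j)) a = v a := by
  cases a <;> rfl

theorem ufam_formula {α : Type} [Finite α] {m : ℕ} (φ : LSet.BoundedFormula α m) :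
    ∃ A, UFam.{u} (fun _ _ _ v => φ.Realize (fun i => v (Sum.inl i)) (fun j => v (Sum.inr j))) A := by
  induction φ with
  | falsum => exact UFam.bot
  | @equal m t₁ t₂ =>
    obtain ⟨a, rfl⟩ := ufor_var t₁
    obtain ⟨b, rfl⟩ := ufor_var t₂
    refine UFam.congr (UFam.eq a b) fun M _ F v => ?_
    simp only [Language.BoundedFormula.Realize, Language.Term.realize_var, ufor_elim]
  | @rel m l R ts =>
    cases R
    obtain ⟨a, ha⟩ := ufor_var (ts 0)
    obtain ⟨b, hb⟩ := ufor_var (ts 1)
    refine UFam.congr (UFam.mem a b) fun M _ F v => ?_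
    have e : ∀ w : Fin 2 → F.Ext,
        (Language.Structure.RelMap (L := LSet) MemSymb.mem w ↔ w 0 ∈ w 1) :=
      fun w => Iff.rfl
    simp only [Language.BoundedFormula.Realize, e, ha, hb, Language.Term.realize_var, ufor_elim]
  | @imp m f g ihf ihg => exact UFam.imp ihf ihg
  | @all m f ih =>
    have h1 := UFam.reindex (κ := Option (α ⊕ Fin m)) ih
      (Sum.elim (fun i => some (Sum.inl i)) (Fin.snoc (α := fun _ => Option (α ⊕ Fin m))
          (fun j => some (Sum.inr j)) none))
    refine UFam.congr (UFam.all h1) fun M _ F v => ?_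
    rw [Language.BoundedFormula.realize_all]
    refine forall_congr' fun x => ?_
    have e1 : (fun j : Fin (m + 1) => (fun o : Option (α ⊕ Fin m) => o.elim x v)
        (Sum.elim (fun i => some (Sum.inl i)) (Fin.snoc (α := fun _ => Option (α ⊕ Fin m))
          (fun j => some (Sum.inr j)) none) (Sum.inr j))) =
        (Fin.snoc (fun j => v (Sum.inr j)) x : Fin (m + 1) → F.Ext) := by
      funext j
      refine Fin.lastCases ?_ (fun j => ?_) j
      · simp
      · simp
    rw [← e1]
    exact Iff.rfl

/-- **The forcing theorem**, uniformly for all models and all generic filters. -/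
theorem exists_frc (Φ : ∀ (M : Type u) [ZFM M], (ι → M) → Prop) [h : UR Φ] :
    ∃ A, UFam (fun _ _ F v => Φ F.Ext v) A := by
  obtain ⟨φ, hφ⟩ := h.out
  obtain ⟨A, hA⟩ := UFam.reindex (κ := ι) (ufam_formula.{u} (m := 0) φ)
    (Sum.elim (fun i => i) (fun j => j.elim0))
  refine UFam.congr ⟨A, hA⟩ fun M _ F v => ?_
  rw [← hφ F.Ext v]
  unfold Language.Formula.Realize
  have e2 : (fun j : Fin 0 => v (Sum.elim (fun i => i) (fun j => j.elim0) (Sum.inr j : ι ⊕ Fin 0))) =
      (default : Fin 0 → F.Ext) := funext fun j => j.elim0
  rw [e2]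
  exact Iff.rfl

/-- `p` forces `Φ(v)` for the forcing notion `(P, R)`. -/
noncomputable def Frc (Φ : ∀ (M : Type u) [ZFM M], (ι → M) → Prop) [UR Φ] {M : Type u} [ZFM M]
    (P R : M) (v : ι → M) (p : M) : Prop := Classical.choose (exists_frc Φ) M P R v p

section frc

variable (Φ : ∀ (M : Type u) [ZFM M], (ι → M) → Prop) [UR Φ]

theorem ur_Frc : UR (ι := Option (Option (Option ι))) (fun M _ v => Frc Φ (M := M) (v none)
    (v (some none)) (fun i => v (some (some (some i)))) (v (some (some none)))) :=
  (Classical.choose_spec (exists_frc Φ)).ur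

theorem good_Frc {M : Type u} [ZFM M] (P R : M) [Pre P R] (v : ι → M) : Good P R (Frc Φ P R v) :=
  (Classical.choose_spec (exists_frc Φ)).good M P R v

/-- The truth lemma. -/
theorem truth_Frc {M : Type u} [ZFM M] (F : Fo M) (v : ι → M) :
    Φ F.Ext (fun i => F.val (v i)) ↔ ∃ p, F.G p ∧ Frc Φ F.P F.R v p :=
  ((Classical.choose_spec (exists_frc Φ)).fr M F).truth v

/-- The instance for inference: all arguments are definable functions. -/
instance UR.Frc {κ : Type} (P R p : ∀ (M : Type u) [ZFM M], (κ → M) → M)
    (s : ∀ (M : Type u) [ZFM M], ι → (κ → M) → M) [hP : UF P] [hR : UF R] [hp : UF p]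
    [hs : ∀ i, UF (fun M _ v => s M i v)] :
    UR (fun M _ v => SP.Frc Φ (P M v) (R M v) (fun i => s M i v) (p M v)) := by
  have h1 := UR.subst (κ := Option (Option (Option ι))) (ι := κ) _ (hP := ur_Frc Φ)
    (fun M _ o v => (match o with
      | none => P M v
      | some none => R M v
      | some (some none) => p M v
      | some (some (some i)) => s M i v : M)) (hF := by
        intro o
        rcases o with _ | _ | _ | i
        · exact hP
        · exact hR
        · exact hp
        · exact hs i)
  exact h1

end frc

end fam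

end Pool.Agent.ZFIter.NPA.BSM.SP
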