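import Pool.Agent.BSP.VNm

/-!
# BSP/VFc: the combinatorial forcing relations of `BLI/Defs` and generic filters

`M` countable, so for every condition `h` there is a frame `F : Fo M` on `Q` with `F.G h` (`exists_gen` of
BSM/WGen, `pre_of_po`): this gives the directions from right to left (by contraposition: if `FSub` fails at
`n`, `h' ≤ h`, `Nt Q τ n h'`, not `Fc Q υ n h'`, then some `h'' ≤ h'` has no extension with `Nt Q υ n`; take `F.G h''`).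
Left to right: density, `Fo.below`.

* `fsub_iff`, `finf_iff`, `yy_iff` as stated.
* `yy_truth`: `A h := ` `h` satisfies `Yy Q p τ h` or no `h' ≤ h` satisfies it; this is dense (`Fo.decide`), so
  some `F.G h` satisfies one of the two; in the second case: the statement
  'τ is infinite and almost contained in all a ∈ p' is a uniform statement `Φ c` about `c = (τ-value, p)`,
  `Φ M c := InfS (fs c) ∧ ∀ a, a ∈ sn c → AE (fs c) a`, which holds in `F.Ext` for `opair (vr F Q τ) (can F p)`,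
  so by `truth_Fr` (names `opnm (fs Q) (rn Q τ) (chk (fs Q) p)`) some `F.G h1` forces it; below `h, h1` there is
  `h2`, and every frame with `h2` satisfies `Φ`, so `Yy Q p τ h2` by `yy_iff`: contradiction.
-/

universe u

namespace Pool.Agent.ZFIter.NPA.BSM.SP

open Pool.Agent.H78.ZF Pool.Agent.ZFIter Pool.Agent.ZFIter.NPA

variable {M : Type u} [ZFM M] [Countable M] {Q : M}

theorem exists_onQ (hQ : BLI.Po Q) {h : M} (hh : h ∈ fs Q) : ∃ F : Fo M, OnQ F Q ∧ F.G h := by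
  have hp : Pre (fs Q) (sn Q) := pre_of_po hQ
  obtain ⟨G, hG, h1⟩ := exists_gen (fs Q) (sn Q) h hh
  exact ⟨⟨fs Q, sn Q, G, hp, hG⟩, ⟨rfl, rfl⟩, h1⟩

theorem onQ_up {F : Fo M} (hF : OnQ F Q) {x y : M} (hx : F.G x) (h : BLI.LE Q x y) : F.G y :=
  F.gen.up x y hx ((onQ_le hF).2 h)

omit [Countable M] in
/-- The forcing lemma for `below`. -/
theorem onQ_below {F : Fo M} (hF : OnQ F Q) (A : M → Prop) [D1 A] {p0 : M} (hp0 : F.G p0)
    (h : ∀ q, BLI.LE Q q p0 → ∃ r, BLI.LE Q r q ∧ A r) : ∃ r, F.G r ∧ A r :=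
  Fo.below (F := F) A hp0 fun q hq => by
    obtain ⟨r, h1, h2⟩ := h q ((onQ_le hF).1 hq)
    exact ⟨r, (onQ_le hF).2 h1, h2⟩

theorem fsub_iff (hQ : BLI.Po Q) {τ υ h : M} (hh : h ∈ fs Q) :
    BLI.FSub Q τ υ h ↔ ∀ F : Fo M, OnQ F Q → F.G h → vr F Q τ ⊆ vr F Q υ := by
  constructor
  · intro H F hF hG z hz
    obtain ⟨n, k, hn, hk, hN, rfl⟩ := (mem_vr hF).1 hz
    obtain ⟨r, hr, hrk, hrh⟩ := onQ_dir hF hk hG
    have h1 := H n hn r hrh (BLI.Nt.down hQ hN hrk)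
    obtain ⟨q, hq, h2⟩ := onQ_below hF (fun x => BLI.Nt Q υ n x) hr (fun q hq => h1 q hq)
    exact (can_mem_vr hF hn).2 ⟨q, hq, h2⟩
  · intro H n hn h' hh' hN h1 hh1
    obtain ⟨F, hF, hG⟩ := exists_onQ hQ hh1.1
    have h2 := H F hF (onQ_up hF hG (hQ.2 _ _ _ hh1 hh')) (can F n)
      ((can_mem_vr hF hn).2 ⟨h1, hG, BLI.Nt.down hQ hN hh1⟩)
    obtain ⟨k, hk, hNk⟩ := (can_mem_vr hF hn).1 h2
    obtain ⟨r, hr, hrk, hrh⟩ := onQ_dir hF hk hG
    exact ⟨r, hrh, BLI.Nt.down hQ hNk hrk⟩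

theorem finf_iff (hQ : BLI.Po Q) {τ h : M} (hh : h ∈ fs Q) :
    BLI.FInf Q τ h ↔ ∀ F : Fo M, OnQ F Q → F.G h → InfS (vr F Q τ) := by
  constructor
  · intro H F hF hG
    refine ⟨vr_sub hF, fun m hm => ?_⟩
    rw [← em_omega (i := can F)] at hm
    obtain ⟨N, hN, rfl⟩ := em_elim.1 hm
    obtain ⟨q, hq, n, hn, hNn, hNt⟩ := onQ_below hF
      (fun x => ∃ n, n ∈ (omega : M) ∧ N ⊆ n ∧ BLI.Nt Q τ n x) hG (by
        intro q hq
        obtain ⟨n, hn, hNn, h'', h1, h2⟩ := H N hN q hq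
        exact ⟨h'', h1, n, hn, hNn, h2⟩)
    exact ⟨can F n, (can_mem_vr hF hn).2 ⟨q, hq, hNt⟩, em_sub.2 hNn⟩
  · intro H N hN h' hh'
    obtain ⟨F, hF, hG⟩ := exists_onQ hQ hh'.1
    obtain ⟨_, h1⟩ := H F hF (onQ_up hF hG hh')
    obtain ⟨z, hz, hNz⟩ := h1 (can F N) (by
      rw [← em_omega (i := can F)]
      exact em_mem.2 hN)
    obtain ⟨n, k, hn, hk, hNt, rfl⟩ := (mem_vr hF).1 hz
    obtain ⟨r, hr, hrk, hrh⟩ := onQ_dir hF hk hG
    exact ⟨n, hn, em_sub.1 hNz, r, hrh, BLI.Nt.down hQ hNt hrk⟩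

theorem fae_iff (hQ : BLI.Po Q) {τ a h : M} (hh : h ∈ fs Q) :
    BLI.FAe Q τ a h ↔ ∀ F : Fo M, OnQ F Q → F.G h → AE (vr F Q τ) (can F a) := by
  constructor
  · intro H F hF hG
    obtain ⟨q, hq, N, hN, h1⟩ := onQ_below hF
      (fun x => ∃ N, N ∈ (omega : M) ∧ ∀ n, n ∈ (omega : M) → N ⊆ n → n ∉ a → BLI.Nc Q τ n x) hG (by
        intro q hq
        obtain ⟨h'', h1, h2⟩ := H q hq
        exact ⟨h'', h1, h2⟩)
    refine ⟨can F N, ?_, fun z hz hNz => ?_⟩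
    · rw [← em_omega (i := can F)]
      exact em_mem.2 hN
    · obtain ⟨n, k, hn, hk, hNt, rfl⟩ := (mem_vr hF).1 hz
      by_contra hc
      have hna : n ∉ a := fun hna => hc (em_mem.2 hna)
      obtain ⟨r, hr, hrk, hrq⟩ := onQ_dir hF hk hq
      exact h1 n hn (em_sub.1 hNz) hna r hrq (BLI.Nt.down hQ hNt hrk)
  · intro H h' hh'
    obtain ⟨F, hF, hG⟩ := exists_onQ hQ hh'.1
    obtain ⟨m, hm, h1⟩ := H F hF (onQ_up hF hG hh')
    rw [← em_omega (i := can F)] at hm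
    obtain ⟨N, hN, rfl⟩ := em_elim.1 hm
    obtain ⟨q, hq, h2 | h2⟩ := Fo.decide (F := F)
      (fun x => ∀ n, n ∈ (omega : M) → N ⊆ n → n ∉ a → BLI.Nc Q τ n x)
    · obtain ⟨r, hr, hrq, hrh⟩ := onQ_dir hF hq hG
      exact ⟨r, hrh, N, hN, fun n hn hNn hna => BLI.Nc.down hQ (h2 n hn hNn hna) hrq⟩
    · exfalso
      obtain ⟨r, hr, n, hn, hNn, hna, hNt⟩ := onQ_below hF
        (fun x => ∃ n, n ∈ (omega : M) ∧ N ⊆ n ∧ n ∉ a ∧ BLI.Nt Q τ n x) hq (by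
          intro q1 hq1
          have h3 := h2 q1 ((onQ_le hF).2 hq1)
          by_contra hc
          apply h3
          intro n hn hNn hna k hk hNt
          exact hc ⟨k, hk, n, hn, hNn, hna, hNt⟩)
      exact hna (em_mem.1 (h1 (can F n) ((can_mem_vr hF hn).2 ⟨r, hr, hNt⟩) (em_sub.2 hNn)))

theorem yy_iff (hQ : BLI.Po Q) {p τ h : M} :
    BLI.Yy Q p τ h ↔ h ∈ fs Q ∧ ∀ F : Fo M, OnQ F Q → F.G h →
      InfS (vr F Q τ) ∧ ∀ a, a ∈ p → AE (vr F Q τ) (can F a) := by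
  constructor
  · rintro ⟨h1, h2, h3⟩
    exact ⟨h1, fun F hF hG => ⟨(finf_iff hQ h1).1 h2 F hF hG,
      fun a ha => (fae_iff hQ h1).1 (h3 a ha) F hF hG⟩⟩
  · rintro ⟨h1, h2⟩
    exact ⟨h1, (finf_iff hQ h1).2 fun F hF hG => (h2 F hF hG).1,
      fun a ha => (fae_iff hQ h1).2 fun F hF hG => (h2 F hF hG).2 a ha⟩

/-- The statement of `yy_iff` as a uniformly definable statement about a pair. -/
def PhiY (M : Type u) [ZFM M] (c : M) : Prop :=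
  ∀ x y, c = opair x y → InfS x ∧ ∀ a, a ∈ y → AE x a

instance U1.PhiY : U1 PhiY.{u} := by
  refine ⟨?_⟩
  unfold SP.PhiY
  infer_instance

theorem yy_truth (hQ : BLI.Po Q) {F : Fo M} (hF : OnQ F Q) {p τ : M} (h1 : InfS (vr F Q τ))
    (h2 : ∀ a, a ∈ p → AE (vr F Q τ) (can F a)) : ∃ h, F.G h ∧ BLI.Yy Q p τ h := by
  have key : ∀ F : Fo M, OnQ F Q → F.val (opnm (fs Q) (rn Q τ) (chk (fs Q) p)) =
      opair (vr F Q τ) (can F p) := by
    intro F hF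
    unfold vr can
    rw [← hF.1, val_opnm]
  have h3 : PhiY F.Ext (F.val (opnm (fs Q) (rn Q τ) (chk (fs Q) p))) := by
    rw [key F hF]
    intro x y e
    obtain ⟨rfl, rfl⟩ := opair_inj e
    refine ⟨h1, fun a ha => ?_⟩
    obtain ⟨b, hb, rfl⟩ := em_elim.1 ha
    exact h2 b hb
  obtain ⟨q, hq, h4⟩ := (truth_Fr PhiY F _).1 h3
  refine ⟨q, hq, (yy_iff hQ).2 ⟨onQ_mem hF hq, fun F' hF' hG' => ?_⟩⟩
  have h5 : PhiY F'.Ext (F'.val (opnm (fs Q) (rn Q τ) (chk (fs Q) p))) := by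
    refine (truth_Fr PhiY F' _).2 ⟨q, hG', ?_⟩
    rw [hF.1, hF.2] at h4
    rw [hF'.1, hF'.2]
    exact h4
  rw [key F' hF'] at h5
  obtain ⟨h6, h7⟩ := h5 _ _ rfl
  exact ⟨h6, fun a ha => h7 (can F' a) (em_mem.2 ha)⟩

end Pool.Agent.ZFIter.NPA.BSM.SP
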