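import Pool.Agent.BSP.TLev

/-!
# BSP/VNm: the values of `BLI`-names in generic extensions

`F : Fo M` on `Q` (`OnQ F Q`: `F.P = fs Q`, `F.R = sn Q`), `vr F Q τ = F.val (rn Q τ)`, and `rn Q τ` consists of
the pairs `(chk n, h)` with `Nt Q τ n h`.

* `mem_vr`: `mem_val'`, `can F n = F.val (chk F.P n)` (definition of `can`).
* `vr_sub`, `can_mem_vr` (`can_inj`), `vr_chk`, `vr_inr` (directedness: `Nt` is inherited by stronger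
  conditions, `BLI/Basic`), `vr_cmp` (`Fo.decide` for the definable class of all `h` with `Nt Q τ n h`: some
  `h`, `F.G h`, satisfies `Nt Q τ n h` or `∀ h' ≤ h, ¬ Nt Q τ n h'`, that is `Nc Q τ n h`),
* `vr_imgN`: `s` is a finite subset of `omega`, so if `s ⊆ vr F Q y` then one `h`, `F.G h`, has `Nt Q y i h` for
  all `i ∈ s` (`fin_induction` on subsets of `s`); all elements of `can F F0` are `can F s`, `em_ap`.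
* `vr_pull`: `x ∈ (can F n ∈ vr F Q (pull Q P f τ))` iff `∃ h, F.G h ∧ Nt P τ n (ap f h)` iff
  `∃ k, F1.G k ∧ Nt P τ n k`, for `F1.G k ↔ ∃ q, F.G q ∧ LE P (ap f q) k`; then apply the isomorphism `e`:
  both sides are subsets of `omega` (`e` maps `omega` to `omega`; or: the elements of `vr` are of the form
  `can F n`, and `e (can F n) = can F2 (can F1 n)`).
* `exists_nice`: every `x ⊆ omega` in `F.Ext` is `vr F Q τ`: `fr1`/`fr2` or `Fr` for the uniform relation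
  `fs c ∈ sn c`: `x = F.val y`; `τ := sep (prod omega (fs Q)) (fun w => Fr _ (fs Q) (sn Q) (opnm (fs Q)
  (chk (fs Q) (fs w)) y) (sn w))` (`val_opnm`, `truth_Fr`, `good_Fr`).
-/

universe u

namespace Pool.Agent.ZFIter.NPA.BSM.SP

open Pool.Agent.H78.ZF Pool.Agent.ZFIter Pool.Agent.ZFIter.NPA

variable {M : Type u} [ZFM M] {F : Fo M} {Q : M}

theorem mem_rn {Q τ x s : M} : opair x s ∈ rn Q τ ↔
    ∃ n, n ∈ (omega : M) ∧ x = chk (fs Q) n ∧ BLI.Nt Q τ n s := by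
  unfold rn
  rw [mem_sep, opair_mem_prod, mem_img]
  constructor
  · rintro ⟨_, n, h, hn, e, hN⟩
    obtain ⟨rfl, rfl⟩ := opair_inj e
    exact ⟨n, hn, rfl, hN⟩
  · rintro ⟨n, hn, rfl, hN⟩
    exact ⟨⟨⟨n, hn, rfl⟩, BLI.Nt.mem hN⟩, n, s, hn, rfl, hN⟩

theorem po_of_onQ (hF : OnQ F Q) : BLI.Po Q := by
  have h := F.pre
  rw [hF.1, hF.2] at h
  exact ⟨fun x hx => h.refl hx, fun x y z h1 h2 => h.trans h1 h2⟩

theorem onQ_mem (hF : OnQ F Q) {h : M} (hh : F.G h) : h ∈ fs Q := by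
  rw [← hF.1]
  exact Fo.G_mem hh

theorem onQ_le (hF : OnQ F Q) {x y : M} : Le F.P F.R x y ↔ BLI.LE Q x y := by
  rw [hF.1, hF.2]
  exact Iff.rfl

theorem onQ_dir (hF : OnQ F Q) {x y : M} (hx : F.G x) (hy : F.G y) :
    ∃ z, F.G z ∧ BLI.LE Q z x ∧ BLI.LE Q z y := by
  obtain ⟨z, hz, h1, h2⟩ := F.gen.dir x y hx hy
  exact ⟨z, hz, (onQ_le hF).1 h1, (onQ_le hF).1 h2⟩

theorem mem_vr (hF : OnQ F Q) {τ : M} {z : F.Ext} :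
    z ∈ vr F Q τ ↔ ∃ n h, n ∈ (omega : M) ∧ F.G h ∧ BLI.Nt Q τ n h ∧ z = can F n := by
  unfold vr can
  rw [mem_val']
  constructor
  · rintro ⟨x, s, h1, h2, h3⟩
    obtain ⟨n, hn, rfl, hN⟩ := mem_rn.1 h1
    refine ⟨n, s, hn, h2, hN, ?_⟩
    rw [h3, hF.1]
  · rintro ⟨n, h, hn, hh, hN, hz⟩
    refine ⟨chk (fs Q) n, h, mem_rn.2 ⟨n, hn, rfl, hN⟩, hh, ?_⟩
    rw [hz, hF.1]

theorem can_mem_vr (hF : OnQ F Q) {τ n : M} (hn : n ∈ (omega : M)) :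
    can F n ∈ vr F Q τ ↔ ∃ h, F.G h ∧ BLI.Nt Q τ n h := by
  rw [mem_vr hF]
  constructor
  · rintro ⟨m, h, _, hh, hN, e⟩
    rw [can_inj] at e
    subst e
    exact ⟨h, hh, hN⟩
  · rintro ⟨h, hh, hN⟩
    exact ⟨n, h, hn, hh, hN, rfl⟩

theorem vr_sub (hF : OnQ F Q) {τ : M} : vr F Q τ ⊆ omega := by
  intro z hz
  obtain ⟨n, h, hn, _, _, rfl⟩ := (mem_vr hF).1 hz
  rw [← em_omega (i := can F)]
  exact em_mem.2 hn

theorem vr_chk (hF : OnQ F Q) {A : M} (hA : A ⊆ omega) : vr F Q (BLI.chk Q A) = can F A := by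
  have hQ := po_of_onQ hF
  apply Pool.Agent.H78.ZF.ext
  intro z
  rw [mem_vr hF, em_elim]
  constructor
  · rintro ⟨n, h, hn, hh, hN, rfl⟩
    exact ⟨n, ((BLI.Nt_chk hQ).1 hN).2.1, rfl⟩
  · rintro ⟨n, hn, rfl⟩
    obtain ⟨h, hh⟩ := F.gen.ne
    exact ⟨n, h, hA n hn, hh, (BLI.Nt_chk hQ).2 ⟨hA n hn, hn, onQ_mem hF hh⟩, rfl⟩

theorem vr_inr (hF : OnQ F Q) (hQ : BLI.Po Q) {τ υ : M} :
    vr F Q (BLI.inr Q τ υ) = sep (vr F Q τ) (fun k => k ∈ vr F Q υ) := by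
  apply Pool.Agent.H78.ZF.ext
  intro z
  rw [mem_sep, mem_vr hF]
  constructor
  · rintro ⟨n, h, hn, hh, hN, rfl⟩
    obtain ⟨_, h1, h2⟩ := (BLI.Nt_inr hQ).1 hN
    exact ⟨(can_mem_vr hF hn).2 ⟨h, hh, h1⟩, (can_mem_vr hF hn).2 ⟨h, hh, h2⟩⟩
  · rintro ⟨h1, h2⟩
    obtain ⟨n, h, hn, hh, hN, rfl⟩ := (mem_vr hF).1 h1
    obtain ⟨h', hh', hN'⟩ := (can_mem_vr hF hn).1 h2
    obtain ⟨r, hr, hr1, hr2⟩ := onQ_dir hF hh hh'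
    exact ⟨n, r, hn, hr, (BLI.Nt_inr hQ).2 ⟨hn, BLI.Nt.down hQ hN hr1, BLI.Nt.down hQ hN' hr2⟩, rfl⟩

theorem vr_cmp (hF : OnQ F Q) (hQ : BLI.Po Q) {τ : M} :
    vr F Q (BLI.cmp Q τ) = sep omega (fun k => k ∉ vr F Q τ) := by
  apply Pool.Agent.H78.ZF.ext
  intro z
  rw [mem_sep, mem_vr hF]
  constructor
  · rintro ⟨n, h, hn, hh, hN, rfl⟩
    obtain ⟨_, _, h2⟩ := (BLI.Nt_cmp hQ).1 hN
    refine ⟨?_, fun hc => ?_⟩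
    · rw [← em_omega (i := can F)]
      exact em_mem.2 hn
    · obtain ⟨h', hh', hN'⟩ := (can_mem_vr hF hn).1 hc
      obtain ⟨r, hr, hr1, hr2⟩ := onQ_dir hF hh hh'
      exact h2 r hr1 (BLI.Nt.down hQ hN' hr2)
  · rintro ⟨h1, h2⟩
    rw [← em_omega (i := can F)] at h1
    obtain ⟨n, hn, rfl⟩ := em_elim.1 h1
    obtain ⟨p, hp, h3 | h3⟩ := Fo.decide (F := F) (fun h => BLI.Nt Q τ n h)
    · exact absurd ((can_mem_vr hF hn).2 ⟨p, hp, h3⟩) h2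
    · refine ⟨n, p, hn, hp, (BLI.Nt_cmp hQ).2 ⟨hn, onQ_mem hF hp, fun q hq => ?_⟩, rfl⟩
      exact h3 q ((onQ_le hF).2 hq)

theorem dens_fin (hQ : BLI.Po Q) {y : M} : ∀ x : M, FinM x → ∀ h, h ∈ fs Q → ∃ h', BLI.LE Q h' h ∧
    ((∀ i, i ∈ x → BLI.Nt Q y i h') ∨ ∃ i, i ∈ x ∧ BLI.Nc Q y i h') := by
  apply fin_induction (fun x => ∀ h, h ∈ fs Q → ∃ h', BLI.LE Q h' h ∧
    ((∀ i, i ∈ x → BLI.Nt Q y i h') ∨ ∃ i, i ∈ x ∧ BLI.Nc Q y i h'))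
  · intro h hh
    exact ⟨h, hQ.1 h hh, Or.inl fun i hi => absurd hi (not_mem_emp i)⟩
  · intro x a _ _ ih h hh
    obtain ⟨h', h1, h2 | ⟨i, hi, h2⟩⟩ := ih h hh
    · by_cases hc : ∃ h'', BLI.LE Q h'' h' ∧ BLI.Nt Q y a h''
      · obtain ⟨h'', h3, h4⟩ := hc
        refine ⟨h'', hQ.2 _ _ _ h3 h1, Or.inl fun i hi => ?_⟩
        rw [mem_ins] at hi
        rcases hi with hi | rfl
        · exact BLI.Nt.down hQ (h2 i hi) h3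
        · exact h4
      · refine ⟨h', h1, Or.inr ⟨a, by rw [mem_ins]; exact Or.inr rfl, fun k hk hN => hc ⟨k, hk, hN⟩⟩⟩
    · exact ⟨h', h1, Or.inr ⟨i, by rw [mem_ins]; exact Or.inl hi, h2⟩⟩

theorem exists_nt_fin (hF : OnQ F Q) (hQ : BLI.Po Q) {y s : M} (hs : FinM s) (hso : s ⊆ omega)
    (h : can F s ⊆ vr F Q y) : ∃ h, F.G h ∧ ∀ i, i ∈ s → BLI.Nt Q y i h := by
  obtain ⟨q, hq, h1⟩ := Fo.meet (F := F)
    (fun h => (∀ i, i ∈ s → BLI.Nt Q y i h) ∨ ∃ i, i ∈ s ∧ BLI.Nc Q y i h) (by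
      intro p hp
      rw [hF.1] at hp
      obtain ⟨h', h2, h3⟩ := dens_fin (y := y) hQ s hs p hp
      exact ⟨h', (onQ_le hF).2 h2, h3⟩)
  rcases h1 with h1 | ⟨i, hi, h1⟩
  · exact ⟨q, hq, h1⟩
  · obtain ⟨h', hh', hN'⟩ := (can_mem_vr hF (hso i hi)).1 (h (can F i) (em_mem.2 hi))
    obtain ⟨r, hr, hr1, hr2⟩ := onQ_dir hF hq hh'
    exact absurd (BLI.Nt.down hQ hN' hr2) (h1 r hr1)

theorem mem_vr_imgN (hF : OnQ F Q) (hQ : BLI.Po Q) {F0 f y : M} (h0 : F0 ⊆ BLI.fsw)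
    (hf : ∀ s, s ∈ F0 → ap f s ∈ (omega : M)) {z : F.Ext} :
    z ∈ vr F Q (BLI.imgN Q F0 f y) ↔ ∃ s, s ∈ can F F0 ∧ s ⊆ vr F Q y ∧ z = ap (can F f) s := by
  rw [mem_vr hF]
  constructor
  · rintro ⟨n, h, hn, hh, hN, rfl⟩
    obtain ⟨_, _, s, hs, h1, h2⟩ := (BLI.Nt_imgN hQ).1 hN
    refine ⟨can F s, em_mem.2 hs, fun w hw => ?_, ?_⟩
    · obtain ⟨i, hi, rfl⟩ := em_elim.1 hw
      exact (can_mem_vr hF ((BLI.mem_fsw.1 (h0 s hs)).1 i hi)).2 ⟨h, hh, h1 i hi⟩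
    · rw [← h2, em_ap (i := can F)]
  · rintro ⟨s', hs', h1, rfl⟩
    obtain ⟨s, hs, rfl⟩ := em_elim.1 hs'
    have hsw := BLI.mem_fsw.1 (h0 s hs)
    obtain ⟨h, hh, h2⟩ := exists_nt_fin hF hQ hsw.2 hsw.1 h1
    exact ⟨ap f s, h, hf s hs, hh, (BLI.Nt_imgN hQ).2 ⟨hf s hs, onQ_mem hF hh, s, hs, h2, rfl⟩,
      (em_ap (i := can F) f s).symm⟩

theorem vr_pull {P f τ : M} (hF : OnQ F Q) (hP : BLI.Po P) (hf : BLI.Hom Q P f) {F1 : Fo M}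
    (hF1 : OnQ F1 P) (h1 : ∀ x, F1.G x ↔ ∃ q, F.G q ∧ BLI.LE P (ap f q) x) {F2 : Fo F1.Ext}
    {e : F.Ext ≃ F2.Ext} (he : ∀ x y, e x ∈ e y ↔ x ∈ y)
    (hc : ∀ x, e (can F x) = can F2 (can F1 x)) :
    e (vr F Q (BLI.pull Q P f τ)) = can F2 (vr F1 P τ) := by
  have hQ := po_of_onQ hF
  apply Pool.Agent.H78.ZF.ext
  intro z
  obtain ⟨z, rfl⟩ := e.surjective z
  rw [he, mem_vr hF, em_elim]
  constructor
  · rintro ⟨n, h, hn, hh, hN, rfl⟩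
    obtain ⟨_, _, h2⟩ := (BLI.Nt_pull hQ hP hf).1 hN
    refine ⟨can F1 n, (can_mem_vr hF1 hn).2 ⟨ap f h, (h1 _).2 ⟨h, hh, ?_⟩, h2⟩, hc n⟩
    exact hf.2 h h (hQ.1 h (onQ_mem hF hh))
  · rintro ⟨w, hw, hz⟩
    obtain ⟨n, k, hn, hk, hN, rfl⟩ := (mem_vr hF1).1 hw
    obtain ⟨q, hq, hqk⟩ := (h1 k).1 hk
    refine ⟨n, q, hn, hq, (BLI.Nt_pull hQ hP hf).2 ⟨hn, onQ_mem hF hq, BLI.Nt.down hP hN hqk⟩, ?_⟩
    rw [← hc] at hz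
    exact e.injective hz

theorem exists_nice (hF : OnQ F Q) (hQ : BLI.Po Q) {x : F.Ext} (hx : x ⊆ omega) :
    ∃ τ, x = vr F Q τ := by
  obtain ⟨A, hA, hg, h1⟩ := fr1 (F := F) (fun z => z ∈ x)
  have hA' : D2 (fun n h : M => A (chk (fs Q) n) h) :=
    ⟨D2.comp A (fun v : Fin 2 → M => chk (fs Q) (v 0)) (fun v => v 1)⟩
  refine ⟨BLI.mkNm Q (fun n h => A (chk (fs Q) n) h), ?_⟩
  have hN : ∀ n k, BLI.Nt Q (BLI.mkNm Q (fun n h => A (chk (fs Q) n) h)) n k ↔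
      n ∈ (omega : M) ∧ k ∈ fs Q ∧ A (chk (fs Q) n) k := fun n k =>
    BLI.Nt_mkNm (A := fun n h : M => A (chk (fs Q) n) h) hQ (fun n k k' hk h => (hg _).mono h ((onQ_le hF).2 hk))
  apply Pool.Agent.H78.ZF.ext
  intro z
  rw [mem_vr hF]
  constructor
  · intro hz
    have hzo := hx z hz
    rw [← em_omega (i := can F)] at hzo
    obtain ⟨n, hn, rfl⟩ := em_elim.1 hzo
    obtain ⟨p, hp, h2⟩ := (h1 (chk F.P n)).1 hz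
    rw [hF.1] at h2
    exact ⟨n, p, hn, hp, (hN n p).2 ⟨hn, onQ_mem hF hp, h2⟩, rfl⟩
  · rintro ⟨n, h, hn, hh, hNt, rfl⟩
    obtain ⟨_, _, h2⟩ := (hN n h).1 hNt
    refine (h1 (chk F.P n)).2 ⟨h, hh, ?_⟩
    rw [hF.1]
    exact h2

end Pool.Agent.ZFIter.NPA.BSM.SP
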