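import Pool.Agent.BSP.YPd
import Pool.Agent.BSP.ARel2
import Pool.Agent.BSP.ARel4
import Pool.Agent.BLI.MGen

/-!
# BSP/YDic: all pseudo-intersections of a selective ultrafilter below one of its elements look alike

`M` countable, `p ∈ M` selective, `Φ` a uniformly definable property of pairs `(b, y)`.
Let `Q0 := MP p`, `w := mname p` (the `Q0`-name of the generic real), `τ := opnm (fs Q0) (chk (fs Q0) κ)
(opnm (fs Q0) (chk (fs Q0) b) (rn Q0 w))`, `A d := Fr (Th Φ) (fs Q0) (sn Q0) τ d` and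
`B d := Fr (Th Φ') .. τ d` for `Φ' := ¬ Φ`.
`dic_one`: assume `A (opair emp a)`, `a ∈ p`. Let `F` be a Levy collapse of `κ`, `y : F.Ext` infinite, almost
contained in all `can F c`, `c ∈ p`, and `y ⊆ can F a`. CLAIM `Φ F.Ext (opair (can F b) y)`.
`lev_split`, `split_mem` for `y` (`c := omega`): `μ`, `F1` on `P := opair (Lev μ) (LevR μ)`, `F2`, `e`, `y1 : F1.Ext`,
`e y = can F2 y1`. It is enough that `LF Φ (can F1 κ) (opair (can F1 b) y1)` holds in `F1.Ext` (`lf_of`, `UR.iso`).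
`y1 = vr F1 P y0` (`exists_nice`). Assume not; some `h1`, `F1.G h1`, forces `¬ Th Φ` of the name of
`(κ, (b, y0))`; `yy_truth` gives `h0` with `Yy P p y0 h0`, `fsub_truth` gives `h2` with
`FSub P y0 (BLI.chk P a) h2` (`vr_chk`, `em_sub`); `h` a common extension in `F1.G`. `BLI.mgen` (with
`Sm := Small κ`, `smC`; `SP P`: `small_lev`) for `P, y0, h` gives `Q, r, s, q`: `IsGen Q P r`,
`IsProj Q (MP p) s` (so `IsGen`, BLI/Basic), `LE P (ap r q) h`, and the names `pull Q P r y0`,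
`pull Q (MP p) s (mname p)` are forced to be equal. Take `FQ : Fo M` on `Q` with `FQ.G q` (`exists_onQ`).
`quot` for `r`: `FP, FP2, e1`, `FP.G h`. `quot` for `s`: `FM, FM2, e2` on `MP p`.
(1) `vr FQ Q (pull Q P r y0) = vr FQ Q (pull Q (MP p) s (mname p))` (`fsub_iff` twice).
(2) `vr FM (MP p) (mname p) ⊆ can FM a`: by `vr_pull` for both maps, (1), and `fsub_iff` for `h2` in `FP`.
(3) `FM.G (opair emp a)`: the class of all `d` which are below `(emp, a)` or have no common extension with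
it is dense; so some `d = (s', c')`, `FM.G d`, is in it. The elements of `s'` are in `vr FM (MP p) (mname p)`
(`can_mem_vr`, `Nt_mname` of BLI), so `s' ⊆ a`, and `(s', c' ∩ a)` is a common extension of `d` and `(emp, a)`. So
`d ≤ (emp, a)`.
(4) so `LF Φ (can FM κ) (opair (can FM b) (vr FM (MP p) (mname p)))` in `FM.Ext` (`truth_Fr`); by `lf_quot` for
`s` it holds in `FQ.Ext` for `(can FQ b, vr FQ Q (pull ..))`, and by (1) and `lf_quot` for `r` in `FP.Ext` for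
`(can FP b, vr FP P y0)`. Contradiction to `FP.G h`, `h ≤ h1`.
(`MP p` is small: `sp_MP` in BLI/Sub; `LF` of pairs: `em_opair`.)

`dicho`: `pure_dec` for `A`, `B` (`D1` instances: `UR.Fr`, `UR.dr`; `good_Fr`; density of `A ∨ B`: for a
condition `d` take `F : Fo M` on `MP p` with `F.G d`; in `F.Ext`, `LF Φ x ∨ LF Φ' x` (`lf_of` for one Levy
collapse), so some condition in `F.G` forces one of them), then `dic_one` for `Φ` or for `Φ'`.
-/

universe u

namespace Pool.Agent.ZFIter.NPA.BSM.SP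

open Pool.Agent.H78.ZF Pool.Agent.ZFIter Pool.Agent.ZFIter.NPA

variable (Φ : ∀ (M : Type u) [ZFM M], M → Prop) [hΦ : U1 Φ] {M : Type u} [ZFM M]

/-- The name of `(κ, (b, w))`, `w` the Mathias real. -/
noncomputable def mnm (p κ b : M) : M :=
  opnm (fs (BLI.MP p)) (chk (fs (BLI.MP p)) κ)
    (opnm (fs (BLI.MP p)) (chk (fs (BLI.MP p)) b) (rn (BLI.MP p) (BLI.mname p)))

/-- The name of `(κ, (b, τ))`. -/
private noncomputable def gnm (Q κ b τ : M) : M :=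
  opnm (fs Q) (chk (fs Q) κ) (opnm (fs Q) (chk (fs Q) b) (rn Q τ))

private theorem gnm_th {Q κ b τ : M} {F : Fo M} (hF : OnQ F Q) :
    Th Φ F.Ext (F.val (gnm Q κ b τ)) ↔ LF Φ (can F κ) (opair (can F b) (vr F Q τ)) := by
  have e : F.val (gnm Q κ b τ) = opair (can F κ) (opair (can F b) (vr F Q τ)) := by
    unfold gnm
    rw [← hF.1, val_opnm, val_opnm]
    rfl
  rw [e]
  unfold Th
  rw [fs_opair, sn_opair]

private theorem mem_fM {p a : M} (hp : Uf p) (ha : a ∈ p) (hm : opair emp a ∈ fs (BLI.MP p))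
    {FM : Fo M} (hFM : OnQ FM (BLI.MP p))
    (hsub : vr FM (BLI.MP p) (BLI.mname p) ⊆ can FM a) : FM.G (opair emp a) := by
  obtain ⟨d, hd, h | h⟩ := Fo.decide (F := FM) (fun d => BLI.LE (BLI.MP p) d (opair emp a))
  · refine FM.gen.up d _ hd ?_
    exact (onQ_le hFM).2 h
  · exfalso
    have hdm := onQ_mem hFM hd
    obtain ⟨h1, h2, h3, h4⟩ := BLI.MP_fs hdm
    have hdo := (BLI.mem_fsw.1 h1).1
    have hsa : fs d ⊆ a := by
      intro i hi
      have h5 : can FM i ∈ vr FM (BLI.MP p) (BLI.mname p) :=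
        (can_mem_vr hFM (hdo i hi)).2 ⟨d, hd, BLI.Nt_mname.2 ⟨hdo i hi, hdm, hi⟩⟩
      exact em_mem.1 (hsub _ h5)
    have h6 := BLI.mp_shrink hdm (BLI.UF.itr hp h2 ha) (fun k hk => (BLI.mem_itr.1 hk).1)
    refine h _ ((onQ_le hFM).2 h6) ?_
    rw [BLI.LE_MP]
    refine ⟨h6.1, hm, ?_, ?_, ?_⟩
    · rw [fs_opair]
      exact emp_sub _
    · intro i hi _
      rw [fs_opair] at hi
      rw [sn_opair]
      exact hsa i hi
    · rw [sn_opair, sn_opair]
      exact fun k hk => (BLI.mem_itr.1 hk).2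

theorem dic_one [Countable M] (hAC : AC M) {κ p b a : M} (hκ : Inacc κ) (hp : Selective p)
    (ha : a ∈ p) (hm : opair emp a ∈ fs (BLI.MP p))
    (hA : Fr (Th Φ) (fs (BLI.MP p)) (sn (BLI.MP p)) (mnm p κ b) (opair emp a)) {F : Fo M}
    (hF : IsLev F κ) {y : F.Ext} (hy : InfS y) (hyp : ∀ c, c ∈ p → AE y (can F c))
    (hya : y ⊆ can F a) : Φ F.Ext (opair (can F b) y) := by
  have hSm : BLI.SmC (Small κ) := smC hκ
  have hMs : BLI.SP (Small κ) (BLI.MP p) :=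
    BLI.sp_MP hSm fun a ha => (mem_pow _ _).2 (BLI.UF.sub hp.1 ha)
  have hao : a ⊆ omega := BLI.UF.sub hp.1 ha
  have hyo : y ⊆ can F omega := by
    rw [em_omega (i := can F)]
    exact hy.1
  obtain ⟨μ, hμ, hsp⟩ := split_mem hκ F hF (small_mem hκ.2.1) hyo
  obtain ⟨F1, F2, hF1, hG1, hF2, e, he, hc⟩ := lev_split hAC hκ F hF hμ
  obtain ⟨y1, hy1⟩ := hsp μ (sub_refl _) hμ F1 F2 e hF1 hG1 he hc
  have hTe : TEm (fun x => e x) := tem_equiv he
  obtain ⟨P, hPdef⟩ : ∃ P : M, P = opair (Lev μ) (LevR μ) := ⟨_, rfl⟩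
  have hPP : BLI.SP (Small κ) P := by
    rw [hPdef]
    exact ⟨po_of_pre (pre_lev (κ := μ)), by rw [fs_opair]; exact small_lev hκ hμ⟩
  have hOn : OnQ F1 P := by
    rw [hPdef]
    exact ⟨by rw [fs_opair]; exact hF1.1, by rw [sn_opair]; exact hF1.2⟩
  have hi1 : InfS y1 := by
    rw [← em_InfS (i := can F2), ← hy1]
    exact (em_InfS (i := fun x => e x)).2 hy
  have hae1 : ∀ c, c ∈ p → AE y1 (can F1 c) := by
    intro c hcp
    rw [← em_AE (i := can F2), ← hy1, ← hc c]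
    exact (em_AE (i := fun x => e x)).2 (hyp c hcp)
  have hsub1 : y1 ⊆ can F1 a := by
    rw [← em_sub (i := can F2), ← hy1, ← hc a]
    exact (em_sub (i := fun x => e x)).2 hya
  have suff : LF Φ (can F1 κ) (opair (can F1 b) y1) → Φ F.Ext (opair (can F b) y) := by
    intro h
    rw [lf_of Φ F2 hF2, em_opair (i := can F2), ← hc, ← hy1] at h
    have e1 : ∀ u v, e (opair u v) = opair (e u) (e v) :=
      fun u v => em_opair (i := fun x => e x) u v
    rw [← e1] at h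
    exact (UR.iso (fun (M : Type u) [ZFM M] (v : Unit → M) => Φ M (v ())) e he
      (fun _ => opair (can F b) y)).1 h
  apply suff
  obtain ⟨y0, hy0⟩ := exists_nice hOn hPP.1 hi1.1
  by_contra hcon
  have hth : ¬ Th Φ F1.Ext (F1.val (gnm P κ b y0)) := by
    rw [gnm_th Φ hOn, ← hy0]
    exact hcon
  obtain ⟨h1, hGh1, hf1⟩ :=
    (truth_Fr (fun (M : Type u) [ZFM M] (x : M) => ¬ Th Φ M x) F1 (gnm P κ b y0)).1 hth
  rw [hOn.1, hOn.2] at hf1
  obtain ⟨h0, hGh0, hyy⟩ := yy_truth hPP.1 hOn (p := p) (τ := y0) (by rw [← hy0]; exact hi1)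
    (by rw [← hy0]; exact hae1)
  obtain ⟨h2, hGh2, hfs⟩ := fsub_truth hPP.1 hOn (τ := y0) (υ := BLI.chk P a)
    (by rw [vr_chk hOn hao, ← hy0]; exact hsub1)
  obtain ⟨h3, hGh3, l1, l0⟩ := onQ_dir hOn hGh1 hGh0
  obtain ⟨h, hGh, l3, l2⟩ := onQ_dir hOn hGh3 hGh2
  have lh1 : BLI.LE P h h1 := hPP.1.2 _ _ _ l3 l1
  have lh0 : BLI.LE P h h0 := hPP.1.2 _ _ _ l3 l0
  obtain ⟨Q, r, s, q, hQ, hr, hs, hq, hrq, hs1, hs2⟩ :=
    BLI.mgen hAC hSm hp hPP (hyy.down hPP.1 lh0)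
  obtain ⟨FQ, hFQ, hGq⟩ := exists_onQ hQ.1 hq
  obtain ⟨FP, FP2, hFP, hGP, hP2, e1, he1, hc1⟩ := quot FQ hQ.1 hPP.1 hFQ hr
  obtain ⟨FM, FM2, hFM, hGM, hM2, e2, he2, hc2⟩ := quot FQ hQ.1 hMs.1 hFQ hs.isGen
  have hT1 : TEm (fun x => e1 x) := tem_equiv he1
  have hT2 : TEm (fun x => e2 x) := tem_equiv he2
  have hPh : FP.G h := (hGP h).2 ⟨q, hGq, hrq⟩
  have key1 : vr FQ Q (BLI.pull Q P r y0) = vr FQ Q (BLI.pull Q (BLI.MP p) s (BLI.mname p)) :=
    ext fun z => ⟨(fsub_iff hQ.1 hq).1 (hs1 q) FQ hFQ hGq z,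
      (fsub_iff hQ.1 hq).1 (hs2 q) FQ hFQ hGq z⟩
  have v1 : e1 (vr FQ Q (BLI.pull Q P r y0)) = can FP2 (vr FP P y0) :=
    vr_pull hFQ hPP.1 hr.1 hFP hGP he1 hc1
  have v2 : e2 (vr FQ Q (BLI.pull Q (BLI.MP p) s (BLI.mname p))) =
      can FM2 (vr FM (BLI.MP p) (BLI.mname p)) :=
    vr_pull hFQ hMs.1 hs.isGen.1 hFM hGM he2 hc2
  have hPa : vr FP P y0 ⊆ can FP a := by
    have h4 := (fsub_iff hPP.1 l2.1).1 (hfs.down hPP.1 l2) FP hFP hPh
    rwa [vr_chk hFP hao] at h4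
  have hQa : vr FQ Q (BLI.pull Q P r y0) ⊆ can FQ a := by
    rw [← em_sub (i := fun x => e1 x)]
    show e1 _ ⊆ e1 _
    rw [v1, hc1 a]
    exact (em_sub (i := can FP2)).2 hPa
  have hMa : vr FM (BLI.MP p) (BLI.mname p) ⊆ can FM a := by
    rw [← em_sub (i := can FM2), ← v2, ← hc2 a, ← key1]
    exact (em_sub (i := fun x => e2 x)).2 hQa
  have hGa : FM.G (opair emp a) := mem_fM hp.1 ha hm hFM hMa
  have hM3 : LF Φ (can FM κ) (opair (can FM b) (vr FM (BLI.MP p) (BLI.mname p))) := by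
    rw [← gnm_th Φ hFM]
    refine (truth_Fr (Th Φ) FM _).2 ⟨_, hGa, ?_⟩
    rw [hFM.1, hFM.2]
    exact hA
  have hQ3 : LF Φ (can FQ κ) (opair (can FQ b)
      (vr FQ Q (BLI.pull Q (BLI.MP p) s (BLI.mname p)))) := by
    refine (lf_quot hAC hκ hQ.2 hMs.2 hFQ hFM hM2 he2 hc2 ?_).2 hM3
    have e3 : ∀ u v, e2 (opair u v) = opair (e2 u) (e2 v) :=
      fun u v => em_opair (i := fun x => e2 x) u v
    rw [e3, hc2, v2, em_opair (i := can FM2)]
  rw [← key1] at hQ3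
  have hP3 : LF Φ (can FP κ) (opair (can FP b) (vr FP P y0)) := by
    refine (lf_quot hAC hκ hQ.2 hPP.2 hFQ hFP hP2 he1 hc1 ?_).1 hQ3
    have e3 : ∀ u v, e1 (opair u v) = opair (e1 u) (e1 v) :=
      fun u v => em_opair (i := fun x => e1 x) u v
    rw [e3, hc1, v1, em_opair (i := can FP2)]
  have hPh1 : FP.G h1 := onQ_up hFP hPh lh1
  have hfin : ¬ Th Φ FP.Ext (FP.val (gnm P κ b y0)) :=
    (truth_Fr (fun (M : Type u) [ZFM M] (x : M) => ¬ Th Φ M x) FP (gnm P κ b y0)).2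
      ⟨h1, hPh1, by rw [hFP.1, hFP.2]; exact hf1⟩
  exact hfin ((gnm_th Φ hFP).2 hP3)

/-- the class of all conditions which force `Φ` is definable -/
private theorem d1_fr (Ψ : ∀ (M : Type u) [ZFM M], M → Prop) [hΨ : U1 Ψ] (P R τ : M) :
    D1 (fun d : M => Fr Ψ P R τ d) := by
  have h1 := UR.dr (fun M _ (w : Fin 4 → M) => Fr Ψ (w 0) (w 1) (w 2) (w 3)) M
  have hF : ∀ i : Fin 4, DF ((fun i : Fin 4 => match i with
    | 0 => fun _ => P | 1 => fun _ => R | 2 => fun _ => τ | 3 => fun v => v ()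
      : Fin 4 → (Unit → M) → M) i) := by
    intro i
    fin_cases i <;> (simp only; infer_instance)
  have h2 := DR.subst (fun w : Fin 4 → M => Fr Ψ (w 0) (w 1) (w 2) (w 3))
    (fun i : Fin 4 => match i with
    | 0 => fun _ : Unit → M => P | 1 => fun _ => R | 2 => fun _ => τ | 3 => fun v => v ())
  exact ⟨h2⟩

theorem dicho [Countable M] (hAC : AC M) {κ p b : M} (hκ : Inacc κ) (hp : Selective p) :
    ∃ a, a ∈ p ∧ ((∀ F : Fo M, IsLev F κ → ∀ y : F.Ext, InfS y → (∀ c, c ∈ p → AE y (can F c)) →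
      y ⊆ can F a → Φ F.Ext (opair (can F b) y)) ∨
      (∀ F : Fo M, IsLev F κ → ∀ y : F.Ext, InfS y → (∀ c, c ∈ p → AE y (can F c)) →
      y ⊆ can F a → ¬ Φ F.Ext (opair (can F b) y))) := by
  have hpo := BLI.po_MP p
  have hpre : Pre (fs (BLI.MP p)) (sn (BLI.MP p)) := pre_of_po hpo
  have hU : U1 (fun (M : Type u) [ZFM M] (x : M) => ¬ Φ M x) := by infer_instance
  have hDA := d1_fr (Th Φ) (fs (BLI.MP p)) (sn (BLI.MP p)) (mnm p κ b)
  have hDB := d1_fr (Th (fun (M : Type u) [ZFM M] (x : M) => ¬ Φ M x)) (fs (BLI.MP p))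
    (sn (BLI.MP p)) (mnm p κ b)
  have gA := good_Fr (Th Φ) (fs (BLI.MP p)) (sn (BLI.MP p)) (mnm p κ b)
  have gB := good_Fr (Th (fun (M : Type u) [ZFM M] (x : M) => ¬ Φ M x)) (fs (BLI.MP p))
    (sn (BLI.MP p)) (mnm p κ b)
  obtain ⟨a, ha, hm, h | h⟩ := pure_dec hAC hp
    (fun d => Fr (Th Φ) (fs (BLI.MP p)) (sn (BLI.MP p)) (mnm p κ b) d)
    (fun d => Fr (Th (fun (M : Type u) [ZFM M] (x : M) => ¬ Φ M x)) (fs (BLI.MP p))
      (sn (BLI.MP p)) (mnm p κ b) d)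
    (fun d d' h1 h2 => gA.mono h1 h2) (fun d d' h1 h2 => gB.mono h1 h2)
    (fun d _ h1 => gA.dense fun q hq => h1 q hq) (fun d _ h1 => gB.dense fun q hq => h1 q hq)
    (by
      intro d hd
      obtain ⟨F, hF, hG⟩ := exists_onQ hpo hd
      have key : (∃ h, F.G h ∧ Fr (Th Φ) (fs (BLI.MP p)) (sn (BLI.MP p)) (mnm p κ b) h) ∨
          ∃ h, F.G h ∧ Fr (Th (fun (M : Type u) [ZFM M] (x : M) => ¬ Φ M x)) (fs (BLI.MP p))
            (sn (BLI.MP p)) (mnm p κ b) h := by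
        by_cases hc : LF Φ (can F κ) (opair (can F b) (vr F (BLI.MP p) (BLI.mname p)))
        · left
          have h1 := (truth_Fr (Th Φ) F _).1 ((gnm_th Φ hF).2 hc)
          rw [hF.1, hF.2] at h1
          exact h1
        · right
          obtain ⟨L, hL, -⟩ := exists_lev (can F κ) (emp_lev (κ := can F κ))
          have h2 : LF (fun (M : Type u) [ZFM M] (x : M) => ¬ Φ M x) (can F κ)
              (opair (can F b) (vr F (BLI.MP p) (BLI.mname p))) := by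
            rw [lf_of _ L hL]
            rw [lf_of _ L hL] at hc
            exact hc
          have h1 := (truth_Fr (Th (fun (M : Type u) [ZFM M] (x : M) => ¬ Φ M x)) F _).1
            ((gnm_th _ hF).2 h2)
          rw [hF.1, hF.2] at h1
          exact h1
      rcases key with ⟨h, hGh, h1⟩ | ⟨h, hGh, h1⟩
      · obtain ⟨d', _, l1, l2⟩ := onQ_dir hF hG hGh
        exact ⟨d', l1, Or.inl (gA.mono h1 l2)⟩
      · obtain ⟨d', _, l1, l2⟩ := onQ_dir hF hG hGh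
        exact ⟨d', l1, Or.inr (gB.mono h1 l2)⟩)
  · exact ⟨a, ha, Or.inl fun F hF y hy hyp hya => dic_one Φ hAC hκ hp ha hm h hF hy hyp hya⟩
  · exact ⟨a, ha, Or.inr fun F hF y hy hyp hya =>
      dic_one (fun (M : Type u) [ZFM M] (x : M) => ¬ Φ M x) hAC hκ hp ha hm h hF hy hyp hya⟩

end Pool.Agent.ZFIter.NPA.BSM.SP
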