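import Pool.Agent.BSP.YMain
import Pool.Agent.NMB.IGp

/-!
# BSP/YEq: for `p` generic over `L(R)`, the ultrafilters in `L(R)[p]` are exactly the elements of `G^p`
-/

universe u

namespace Pool.Agent.ZFIter.NPA.BSM.SP

open Pool.Agent.H78.ZF Pool.Agent.ZFIter Pool.Agent.ZFIter.NPA

section code

variable {N : Type u} [ZFM N] {ι : Type}

/-- `f` maps the branches of `T` in some element of `p` into `A`. -/
def CP (p T f A : N) : Prop := ∃ z, z ∈ p ∧ ∀ b, b ∈ BLI.Br T → b ⊆ z → ap f b ∈ A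

instance DR.CP (p T f A : (ι → N) → N) [DF p] [DF T] [DF f] [DF A] :
    DR (fun v => CP (p v) (T v) (f v) (A v)) := by
  unfold SP.CP
  infer_instance

theorem em_CP {M : Type u} [ZFM M] {i : M → N} [TEm i] {p T f A : M} :
    CP (i p) (i T) (i f) (i A) ↔ CP p T f A := by
  unfold CP
  constructor
  · rintro ⟨z, hz, h⟩
    obtain ⟨z, hz', rfl⟩ := em_elim.1 hz
    refine ⟨z, hz', fun b hb hbz => ?_⟩
    have := h (i b) (by rw [← em_Br]; exact em_mem.2 hb) (em_sub.2 hbz)
    rw [← em_ap] at this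
    exact em_mem.1 this
  · rintro ⟨z, hz, h⟩
    refine ⟨i z, em_mem.2 hz, fun b hb hbz => ?_⟩
    rw [← em_Br] at hb
    obtain ⟨b, hb', rfl⟩ := em_elim.1 hb
    rw [← em_ap]
    exact em_mem.2 (h b hb' (em_sub.1 hbz))

/-- `(T, f)` codes `U` relative to `p`. -/
def Code (p T f U : N) : Prop := T ⊆ BLI.fsw ∧ Fun f BLI.fsw omega ∧
  ∀ A, A ⊆ omega → (A ∈ U ↔ CP p T f A)

instance DR.Code (p T f U : (ι → N) → N) [DF p] [DF T] [DF f] [DF U] :
    DR (fun v => Code (p v) (T v) (f v) (U v)) := by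
  unfold SP.Code
  infer_instance

/-- The `n`-th section of a sequence of trees. -/
noncomputable def slT (X n : N) : N := sep BLI.fsw (fun b => opair n b ∈ X)

instance DF.slT (X n : (ι → N) → N) [DF X] [DF n] : DF (fun v => slT (X v) (n v)) := by
  unfold SP.slT
  infer_instance

/-- The `n`-th section of a sequence of functions. -/
noncomputable def slf (X n : N) : N := sep (prod BLI.fsw omega) (fun b => opair n b ∈ X)

instance DF.slf (X n : (ι → N) → N) [DF X] [DF n] : DF (fun v => slf (X v) (n v)) := by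
  unfold SP.slf
  infer_instance

theorem em_slT {M : Type u} [ZFM M] {i : M → N} [TEm i] {X n : M} :
    i (slT X n) = slT (i X) (i n) := by
  refine ext fun b => ?_
  unfold slT
  rw [mem_em_sep, mem_sep, ← em_fsw (i := i)]
  constructor
  · rintro ⟨b, hb, h, rfl⟩
    refine ⟨em_mem.2 hb, ?_⟩
    rw [← em_opair]
    exact em_mem.2 h
  · rintro ⟨hb, h⟩
    obtain ⟨b, hb', rfl⟩ := em_elim.1 hb
    rw [← em_opair] at h
    exact ⟨b, hb', em_mem.1 h, rfl⟩

theorem em_slf {M : Type u} [ZFM M] {i : M → N} [TEm i] {X n : M} :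
    i (slf X n) = slf (i X) (i n) := by
  refine ext fun b => ?_
  unfold slf
  rw [mem_em_sep, mem_sep, ← em_fsw (i := i), ← em_omega (i := i), ← em_prod (i := i)]
  constructor
  · rintro ⟨b, hb, h, rfl⟩
    refine ⟨em_mem.2 hb, ?_⟩
    rw [← em_opair]
    exact em_mem.2 h
  · rintro ⟨hb, h⟩
    obtain ⟨b, hb', rfl⟩ := em_elim.1 hb
    rw [← em_opair] at h
    exact ⟨b, hb', em_mem.1 h, rfl⟩

end code

section inner

variable {N : Type u} [ZFM N] {K : N → Prop} [hK : Inner K]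

private noncomputable def chv (z k : N) : N := sep (succ emp) (fun _ => k ∈ z)

private instance DF.chv {ι : Type} (z k : (ι → N) → N) [DF z] [DF k] :
    DF (fun v => chv (z v) (k v)) := by
  unfold SP.chv
  infer_instance

private theorem emp_mem_chv {z k : N} : emp ∈ chv z k ↔ k ∈ z := by
  unfold chv
  rw [mem_sep]
  exact ⟨fun h => h.2, fun h => ⟨by simp, h⟩⟩

private theorem chv_mem (z k : N) : chv z k ∈ (omega : N) := by
  by_cases h : k ∈ z
  · have e : chv z k = succ emp := by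
      refine ext fun y => ?_
      unfold chv
      rw [mem_sep]
      exact ⟨fun h => h.1, fun h' => ⟨h', h⟩⟩
    rw [e]
    exact succ_mem_omega emp_mem_omega
  · have e : chv z k = emp := by
      refine eq_emp fun y hy => ?_
      unfold chv at hy
      rw [mem_sep] at hy
      exact h hy.2
    rw [e]
    exact emp_mem_omega

private noncomputable def chf (z : N) : N := mkf omega omega (fun k => chv z k)

private instance DF.chf {ι : Type} (z : (ι → N) → N) [DF z] : DF (fun v => chf (z v)) := by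
  unfold SP.chf
  infer_instance

private theorem chf_RS (z : N) : chf z ∈ (RS : N) := by
  rw [mem_RS]
  unfold chf
  exact mkf_fun fun k _ => chv_mem z k

private theorem ap_chf {z k : N} (hk : k ∈ (omega : N)) : ap (chf z) k = chv z k := by
  unfold chf
  exact ap_mkf (fun k _ => chv_mem z k) hk

theorem ctb_fsw' : Ctb (BLI.fsw : N) := by
  refine ctb_rel (fun n z => ∃ m, m ∈ (omega : N) ∧ z ⊆ m ∧ n = sq (chf z) m) ?_ ?_
  · intro z hz
    rw [BLI.mem_fsw] at hz
    obtain ⟨b, hb, h⟩ := fin_bdd hz.2 hz.1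
    exact ⟨sq (chf z) b, sq_mem (chf_RS z) hb, b, hb, h, rfl⟩
  · rintro n z z' - - ⟨m, hm, hzm, e⟩ ⟨m', hm', hzm', e'⟩
    obtain ⟨h1, h2⟩ := sq_inj (chf_RS z) (chf_RS z') hm hm' (e.symm.trans e')
    subst h1
    have h3 : ∀ k, k ∈ m → (k ∈ z ↔ k ∈ z') := by
      intro k hk
      have hko : k ∈ (omega : N) := omega_sub hm k hk
      have h4 := h2 k hk
      rw [ap_chf hko, ap_chf hko] at h4
      rw [← emp_mem_chv (z := z), ← emp_mem_chv (z := z'), h4]
    refine ext fun k => ⟨fun hk => (h3 k (hzm k hk)).1 hk, fun hk => (h3 k (hzm' k hk)).2 hk⟩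

theorem inner_ctb' (hR : ∀ x, x ∈ (RS : N) → K x) {Y : Sub K} (hY : Ctb Y) {x : N}
    (hx : x ⊆ inc K Y) : K x := by
  obtain ⟨c, hc⟩ := hY
  have hc' : Inj (inc K c) (inc K Y) omega := by
    have := (em_Inj (i := inc K)).2 hc
    rwa [em_omega (i := inc K)] at this
  obtain ⟨A, hA⟩ : ∃ A, A = img x (fun s => ap (inc K c) s) := ⟨_, rfl⟩
  have hAo : A ⊆ omega := by
    intro z hz
    rw [hA, mem_img] at hz
    obtain ⟨s, hs, rfl⟩ := hz
    exact hc'.fun.ap_mem (hx s hs)
  obtain ⟨A', hA'⟩ := inc_mk (K := K) (inner_sub_omega hR hAo)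
  have e : x = sep (inc K Y) (fun s => ap (inc K c) s ∈ A) := by
    refine ext fun s => ?_
    rw [mem_sep]
    constructor
    · intro hs
      exact ⟨hx s hs, by rw [hA, mem_img]; exact ⟨s, hs, rfl⟩⟩
    · rintro ⟨hs, h⟩
      rw [hA, mem_img] at h
      obtain ⟨t, ht, h1⟩ := h
      rw [hc'.ap_inj hs (hx t ht) h1]
      exact ht
  rw [e]
  refine inner_sep Y.2 (fun s => ap (inc K c) s ∈ A) (fun s => ap c s ∈ A') fun s => ?_
  rw [← hA', ← em_ap (i := inc K), em_mem (i := inc K)]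

variable (hR : ∀ x, x ∈ (RS : N) → K x)

include hR

theorem inner_code {p T f U : N} (hp : K p) (hU : ∀ A, A ∈ U → A ⊆ omega)
    (h : Code p T f U) : K U := by
  obtain ⟨hT, hf, h⟩ := h
  obtain ⟨p', rfl⟩ := inc_mk hp
  obtain ⟨T', rfl⟩ := inc_mk (K := K) (inner_fsw hR hT)
  obtain ⟨f', rfl⟩ := inc_mk (K := K) (inner_fun hR hf)
  have e : U = sep (pow omega) (fun A => CP (inc K p') (inc K T') (inc K f') A) := by
    refine ext fun A => ?_
    rw [mem_sep, mem_pow]
    exact ⟨fun hA => ⟨hU A hA, (h A (hU A hA)).1 hA⟩, fun hA => (h A hA.1).2 hA.2⟩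
  rw [e]
  exact inner_sep (inner_pow hR) _ (fun A => CP p' T' f' A) fun A => em_CP.symm

theorem inner_img {g v : N} (hg : g ∈ (RS : N)) (hv : K v) : K (rkImg g v) := by
  obtain ⟨v', rfl⟩ := inc_mk hv
  obtain ⟨g', rfl⟩ := inc_mk (hR g hg)
  unfold rkImg
  refine inner_sep (inner_pow hR) _ (fun B => sep omega (fun k => ap g' k ∈ B) ∈ v') fun B => ?_
  have e : inc K (sep omega (fun k => ap g' k ∈ B)) =
      sep omega (fun k => ap (inc K g') k ∈ inc K B) := by
    refine ext fun k => ?_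
    rw [mem_em_sep, mem_sep, em_nat' (inc K)]
    constructor
    · rintro ⟨k, hk, h, rfl⟩
      refine ⟨⟨k, hk, rfl⟩, ?_⟩
      rw [← em_ap]
      exact em_mem.2 h
    · rintro ⟨⟨k, hk, rfl⟩, h⟩
      rw [← em_ap] at h
      exact ⟨k, hk, em_mem.1 h, rfl⟩
  rw [← e, em_mem (i := inc K)]

theorem inner_lim {p v s c : N} (hp : K p) (hv : K v) (hs : ∀ n, n ∈ (omega : N) → Uf (ap s n))
    (hc : ∀ n, n ∈ (omega : N) → Code p (fs (ap c n)) (sn (ap c n)) (ap s n)) :
    K (ulim v s) := by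
  obtain ⟨T, hT⟩ : ∃ T, T = sep (prod omega BLI.fsw) (fun w => sn w ∈ fs (ap c (fs w))) := ⟨_, rfl⟩
  obtain ⟨f, hf⟩ : ∃ f, f = sep (prod omega (prod BLI.fsw omega))
    (fun w => sn w ∈ sn (ap c (fs w))) := ⟨_, rfl⟩
  have h1 : ∀ n, n ∈ (omega : N) → slT T n = fs (ap c n) := by
    intro n hn
    refine ext fun b => ?_
    unfold slT
    rw [mem_sep, hT, mem_sep, opair_mem_prod, fs_opair, sn_opair]
    exact ⟨fun h => h.2.2, fun h => ⟨(hc n hn).1 b h, ⟨hn, (hc n hn).1 b h⟩, h⟩⟩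
  have h2 : ∀ n, n ∈ (omega : N) → slf f n = sn (ap c n) := by
    intro n hn
    refine ext fun b => ?_
    unfold slf
    rw [mem_sep, hf, mem_sep, opair_mem_prod, fs_opair, sn_opair]
    have h3 : b ∈ sn (ap c n) → b ∈ prod BLI.fsw omega := (hc n hn).2.1.sub_prod b
    exact ⟨fun h => h.2.2, fun h => ⟨h3 h, ⟨hn, h3 h⟩, h⟩⟩
  have kT : K T := by
    refine inner_ctb' hR (Y := prod omega BLI.fsw) (ctb_prod ctb_omega ctb_fsw') ?_
    rw [em_prod (i := inc K), em_fsw (i := inc K), em_omega (i := inc K), hT]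
    exact fun w hw => ((mem_sep _ _ _).1 hw).1
  have kf : K f := by
    refine inner_ctb' hR (Y := prod omega (prod BLI.fsw omega))
      (ctb_prod ctb_omega (ctb_prod ctb_fsw' ctb_omega)) ?_
    rw [em_prod (i := inc K), em_prod (i := inc K), em_fsw (i := inc K), em_omega (i := inc K), hf]
    exact fun w hw => ((mem_sep _ _ _).1 hw).1
  clear hT hf
  obtain ⟨T', rfl⟩ := inc_mk kT
  obtain ⟨f', rfl⟩ := inc_mk kf
  obtain ⟨p', rfl⟩ := inc_mk hp
  obtain ⟨v', rfl⟩ := inc_mk hv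
  have e : ulim (inc K v') s = sep (pow omega) (fun A =>
      sep omega (fun n => CP (inc K p') (slT (inc K T') n) (slf (inc K f') n) A) ∈ inc K v') := by
    refine ext fun A => ?_
    rw [mem_ulim, mem_sep, mem_pow]
    refine and_congr_right fun hA => ?_
    have e1 : sep omega (fun n => A ∈ ap s n) =
        sep omega (fun n => CP (inc K p') (slT (inc K T') n) (slf (inc K f') n) A) := by
      refine ext fun n => ?_
      rw [mem_sep, mem_sep]
      refine and_congr_right fun hn => ?_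
      rw [h1 n hn, h2 n hn]
      exact (hc n hn).2.2 A hA
    rw [e1]
  rw [e]
  refine inner_sep (inner_pow hR) _
    (fun A => sep omega (fun n => CP p' (slT T' n) (slf f' n) A) ∈ v') fun A => ?_
  have e2 : inc K (sep omega (fun n => CP p' (slT T' n) (slf f' n) A)) =
      sep omega (fun n => CP (inc K p') (slT (inc K T') n) (slf (inc K f') n) (inc K A)) := by
    refine ext fun k => ?_
    rw [mem_em_sep, mem_sep, em_nat' (inc K)]
    constructor
    · rintro ⟨k, hk, h, rfl⟩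
      refine ⟨⟨k, hk, rfl⟩, ?_⟩
      rw [← em_slT, ← em_slf, em_CP]
      exact h
    · rintro ⟨⟨k, hk, rfl⟩, h⟩
      rw [← em_slT, ← em_slf, em_CP] at h
      exact ⟨k, hk, h, rfl⟩
  rw [← e2, em_mem (i := inc K)]

end inner

section gp

variable {N : Type u} [ZFM N]

/-- The set of the ultrafilters which are coded by a tree and a function. -/
noncomputable def FT (p : N) : N :=
  sep (pow (pow omega)) (fun U => Uf U ∧ ∃ T f, Code p T f U)

theorem mem_FT {p U : N} : U ∈ FT p ↔ Uf U ∧ ∃ T f, Code p T f U := by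
  unfold FT
  rw [mem_sep, mem_pow]
  exact ⟨fun h => h.2, fun h => ⟨fun A hA => (mem_pow _ _).2 (h.1.1 A hA), h⟩⟩

theorem lrp_of_code {p U : N} (hU : U ∈ FT p) : InLRp p U := by
  rw [mem_FT] at hU
  obtain ⟨h1, T, f, h⟩ := hU
  intro K hK hR hp
  exact inner_code hR hp h1.1 h

theorem closed_FT (hAC : AC N) {p : N} (h : ∀ U, Uf U → InLRp p U → U ∈ FT p) :
    Closed (FT p) := by
  refine ⟨fun v hv => (mem_FT.1 hv).1, fun v f hv hf => ?_, fun v s hv hs hsF => ?_⟩
  · refine h _ (rkImg_uf hf (mem_FT.1 hv).1) ?_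
    intro K hK hR hp
    exact inner_img hR hf (lrp_of_code hv K hR hp)
  · have h1 : ∀ n, n ∈ (omega : N) → Uf (ap s n) := fun n hn => (mem_FT.1 (hsF n hn)).1
    refine h _ (ulim_uf (mem_FT.1 hv).1 h1) ?_
    obtain ⟨c, -, hc⟩ := ac_rel hAC omega (prod (pow BLI.fsw) (pow (prod BLI.fsw omega)))
      (fun n w => Code p (fs w) (sn w) (ap s n)) (by
        intro n hn
        obtain ⟨T, f, h2⟩ := (mem_FT.1 (hsF n hn)).2
        refine ⟨opair T f, (opair_mem_prod _ _ _ _).2 ⟨(mem_pow _ _).2 h2.1, (mem_pow _ _).2 h2.2.1.sub_prod⟩, ?_⟩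
        rw [fs_opair, sn_opair]
        exact h2)
    intro K hK hR hp
    exact inner_lim hR hp (lrp_of_code hv K hR hp) h1 hc

theorem lrp_of_gp (hAC : AC N) {p U : N} (hp : Uf p) (h : ∀ U, Uf U → InLRp p U → U ∈ FT p)
    (hU : InGp p U) : Uf U ∧ InLRp p U := by
  have hF := closed_FT hAC h
  have hpF : p ∈ FT p := h p hp fun K _ _ hp => hp
  have h1 := hU _ hF hpF
  exact ⟨(mem_FT.1 h1).1, lrp_of_code h1⟩

end gp

end Pool.Agent.ZFIter.NPA.BSM.SP
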