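import Pool.Agent.BSP.YEq

/-!
# BSP/YFull: Blass's conjecture, the equality

For `p` generic over `L(R)` the ultrafilters in `L(R)[p]` are exactly the elements of `G^p`
(`full_pos`); if `κ` is Mahlo this holds for every selective ultrafilter `p` (`full_mahlo`).
-/

universe u

namespace Pool.Agent.ZFIter.NPA.BSM.SP

open Pool.Agent.H78.ZF Pool.Agent.ZFIter Pool.Agent.ZFIter.NPA

section

variable {N : Type u} [ZFM N]
variable {Ψ : ∀ (N : Type u) [ZFM N], N → N → N → N → Prop}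
  [hΨ : UR (fun M _ (v : Fin 4 → M) => Ψ M (v 0) (v 1) (v 2) (v 3))]

include hΨ

theorem zcode (habs : ∀ (K : N → Prop) [Inner K], (∀ x, x ∈ (RS : N) → K x) →
    ∀ s r z A : Sub K, Ψ (Sub K) s r z A ↔ Ψ N s.1 r.1 z.1 A.1) {p U s r q : N} (hp : Uf p)
    (hn : Nonpr p) (hg : GenLR p) (hU : Uf U)
    (hs : Ord s) (hr : r ∈ (RS : N)) (hq : q ∈ p) (hqi : InfS q) (hax : PsiAx (Ψ N s r) q)
    (ht : ∀ A, A ⊆ omega → (A ∈ U ↔ ∃ z, z ∈ p ∧ z ⊆ q ∧ Ψ N s r z A))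
    (hXi : ∀ q', InfS q' → q' ⊆ q → Xi (PhiOf Ψ) N (opair (opair (opair s r) q) q')) :
    U ∈ FT p := by
  obtain ⟨x, T, f, hx, hxq, hxi, hT, hw, hf, hc⟩ := exists_good habs hp hn hg hs hr hq hqi hXi
  rw [mem_FT]
  refine ⟨hU, T, f, hT.1, hf, fun A hA => ⟨fun hAU => ?_, ?_⟩⟩
  · obtain ⟨z1, hz1, hz1q, h2⟩ := (ht _ hA).1 hAU
    exact meet2 habs hp hn hg hs hr hax hx hxq hT hf hc hA hz1 hz1q h2
  · rintro ⟨z, hz, h⟩
    by_contra hcon
    have h1 := BLI.UF.compl hU hA hcon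
    obtain ⟨z1, hz1, hz1q, h2⟩ := (ht _ (BLI.UF.sub hU h1)).1 h1
    obtain ⟨w, hw1, h3⟩ := meet2 habs hp hn hg hs hr hax hx hxq hT hf hc (BLI.UF.sub hU h1) hz1
      hz1q h2
    have h4 : cap z w ∈ p := hp.inter hz hw1
    obtain ⟨t, ht1, ht2⟩ := exists_br hT hw (inf_of_mem hp hn h4)
    have h5 := h t ht1 fun k hk => (mem_cap.1 (ht2 k hk)).1
    have h6 := h3 t ht1 fun k hk => (mem_cap.1 (ht2 k hk)).2
    unfold BLI.dif at h6
    rw [mem_sep] at h6
    exact h6.2 h5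

end

variable {M N : Type u} [ZFM M] [ZFM N]

theorem main_code [Countable M] (hAC : AC M) {κ : M} (hκ : Inacc κ) {G : M → Prop}
    (hG : Gen (Lev κ) (LevR κ) G) {i : M → N} (hi : IsExt i G) {p : N} (hp : Uf p) (hn : Nonpr p)
    (hg : GenLR p) {U : N} (hU : Uf U) (hL : InLRp p U) : U ∈ FT p := by
  obtain ⟨F, e, hF, -, he, hc⟩ := exists_e hG hi
  obtain ⟨Ψ, hΨ, habs, hspec⟩ := exists_psi.{u}
  obtain ⟨s, r, q, hs, hr, hq, hqi, hax, ht⟩ := hspec N p U hp hn hg hU hL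
  refine zcode (fun K _ hR => habs N K hR) hp hn hg hU hs hr hq hqi hax ht fun q' hq' hqq => ?_
  have hT : TEm (fun x => e x) := tem_equiv he
  have hop : ∀ x y, e (opair x y) = opair (e x) (e y) := em_opair (i := fun x => e x)
  have hax' := uax_of Ψ hax
  have e1 : ∀ x, e (e.symm x) = x := fun x => e.apply_symm_apply x
  have h1 : opair (opair (opair s r) q) q =
      e (opair (opair (opair (e.symm s) (e.symm r)) (e.symm q)) (e.symm q)) := by
    rw [hop, hop, hop, e1, e1, e1]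
  have h2 : opair (opair (opair s r) q) q' =
      e (opair (opair (opair (e.symm s) (e.symm r)) (e.symm q)) (e.symm q')) := by
    rw [hop, hop, hop, e1, e1, e1, e1]
  have u1 := (u1_UAx (PhiOf Ψ)).out
  have u2 := (u1_Xi (PhiOf Ψ)).out
  rw [h1] at hax'
  rw [h2]
  have h3 := (UR.iso (fun M _ (v : Unit → M) => UAx (PhiOf Ψ) M (v ())) e he
    (fun _ => opair (opair (opair (e.symm s) (e.symm r)) (e.symm q)) (e.symm q))).1 hax'
  refine (UR.iso (fun M _ (v : Unit → M) => Xi (PhiOf Ψ) M (v ())) e he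
    (fun _ => opair (opair (opair (e.symm s) (e.symm r)) (e.symm q)) (e.symm q'))).2 ?_
  refine chi_ext hAC hκ hF ?_ ?_ ?_ ?_ ?_ h3
  · rw [← em_Ord (i := fun x => e x), e1]
    exact hs
  · have := (UR.iso (fun M _ (v : Unit → M) => v () ∈ (RS : M)) e he (fun _ => e.symm r)).1
    refine this ?_
    show e (e.symm r) ∈ RS
    rw [e1]
    exact hr
  · rw [← em_InfS (i := fun x => e x), e1]
    exact hqi
  · rw [← em_InfS (i := fun x => e x), e1]
    exact hq'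
  · rw [← em_sub (i := fun x => e x), e1, e1]
    exact hqq

theorem ac_of_ext (hAC : AC M) {κ : M} {G : M → Prop} (hG : Gen (Lev κ) (LevR κ) G) {i : M → N}
    (hi : IsExt i G) : AC N := by
  obtain ⟨F, e, hF, -, he, hc⟩ := exists_e hG hi
  exact ac_iso e he (ac_ext hAC)

/-- Blass's conjecture for `p` generic over `L(R)`. -/
theorem full_pos [Countable M] (hAC : AC M) {κ : M} (hκ : Inacc κ) {G : M → Prop}
    (hG : Gen (Lev κ) (LevR κ) G) {i : M → N} (hi : IsExt i G) {p : N} (hp : Uf p) (hn : Nonpr p)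
    (hg : GenLR p) (U : N) : Uf U ∧ InLRp p U ↔ InGp p U :=
  ⟨fun h => main_pos hAC hκ hG hi hp hn hg h.1 h.2, fun h =>
    lrp_of_gp (ac_of_ext hAC hG hi) hp (fun _ hU hL => main_code hAC hκ hG hi hp hn hg hU hL) h⟩

/-- Blass's conjecture, `κ` Mahlo. -/
theorem full_mahlo [Countable M] (hAC : AC M) {κ : M} (hκ : Mahlo κ) {G : M → Prop}
    (hG : Gen (Lev κ) (LevR κ) G) {i : M → N} (hi : IsExt i G) {p : N} (hp : Selective p)
    (U : N) : Uf U ∧ InLRp p U ↔ InGp p U :=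
  full_pos hAC hκ.1 hG hi hp.1 hp.2.1 (genLR_mahlo hAC hκ hG hi hp) U

end Pool.Agent.ZFIter.NPA.BSM.SP
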