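import Pool.Agent.BSP.KNice

/-!
# BSP/YMah: Mahlo cardinals and closure points

`exists_mahlo`: let `κ` be Mahlo and `Φ` a definable class function with `Φ α ∈ κ` for `α ∈ κ`. Apply `Mahlo` to
`C := sep κ (fun μ => α0 ∈ μ ∧ ∀ α, α ∈ μ → Φ α ∈ μ)`: unbounded by `closure_pt` (BSM/VSm); closed: if `μ ≠ emp` is
a limit of elements of `C`, `α ∈ μ`, take `β ∈ C` with `α ∈ β ∈ μ`.
-/

universe u

namespace Pool.Agent.ZFIter.NPA.BSM.SP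

open Pool.Agent.H78.ZF Pool.Agent.ZFIter Pool.Agent.ZFIter.NPA

variable {M : Type u} [ZFM M]

/-- `κ` is a Mahlo cardinal: it is inaccessible and every closed unbounded subset of `κ` contains an
inaccessible cardinal. -/
def Mahlo (κ : M) : Prop := Inacc κ ∧ ∀ C, C ⊆ κ →
  (∀ α, α ∈ κ → ∃ β, β ∈ C ∧ α ∈ β) →
  (∀ μ, μ ∈ κ → μ ≠ emp → (∀ α, α ∈ μ → ∃ β, β ∈ C ∧ α ∈ β ∧ β ∈ μ) → μ ∈ C) →
  ∃ μ, μ ∈ C ∧ Inacc μ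

theorem exists_mahlo {κ : M} (hκ : Mahlo κ) (Φ : M → M) [F1 Φ] (hΦ : ∀ α, α ∈ κ → Φ α ∈ κ) {α0 : M}
    (h0 : α0 ∈ κ) : ∃ μ, μ ∈ κ ∧ Inacc μ ∧ α0 ∈ μ ∧ ∀ α, α ∈ μ → Φ α ∈ μ := by
  obtain ⟨hI, hC⟩ := hκ
  have hmem : ∀ μ, μ ∈ sep κ (fun μ => α0 ∈ μ ∧ ∀ α, α ∈ μ → Φ α ∈ μ) ↔
      μ ∈ κ ∧ α0 ∈ μ ∧ ∀ α, α ∈ μ → Φ α ∈ μ := by
    intro μ
    rw [mem_sep]
  have g1 : sep κ (fun μ => α0 ∈ μ ∧ ∀ α, α ∈ μ → Φ α ∈ μ) ⊆ κ := by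
    intro x hx
    exact ((hmem x).1 hx).1
  have g2 : ∀ α, α ∈ κ →
      ∃ β, β ∈ sep κ (fun μ => α0 ∈ μ ∧ ∀ α, α ∈ μ → Φ α ∈ μ) ∧ α ∈ β := by
    intro α hα
    obtain ⟨μ, h1, h2, -, h4⟩ := closure_pt hI Φ hΦ (inacc_un hI h0 hα)
    have hμo : Ord μ := hI.1.mem h1
    have hu : Ord (un α0 α) := hμo.mem h2
    have haux : ∀ δ, δ ∈ κ → δ ⊆ un α0 α → δ ∈ μ := by
      intro δ hδ hs
      rcases (ord_sub_iff (hI.1.mem hδ) hu).1 hs with h5 | h5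
      · exact hμo.trans h5 h2
      · rw [h5]; exact h2
    have h5 : α0 ∈ μ := by
      refine haux α0 h0 ?_
      intro x hx
      rw [mem_un]
      exact Or.inl hx
    have h6 : α ∈ μ := by
      refine haux α hα ?_
      intro x hx
      rw [mem_un]
      exact Or.inr hx
    exact ⟨μ, (hmem μ).2 ⟨h1, h5, h4⟩, h6⟩
  have g3 : ∀ μ, μ ∈ κ → μ ≠ emp → (∀ α, α ∈ μ →
      ∃ β, β ∈ sep κ (fun μ => α0 ∈ μ ∧ ∀ α, α ∈ μ → Φ α ∈ μ) ∧ α ∈ β ∧ β ∈ μ) →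
      μ ∈ sep κ (fun μ => α0 ∈ μ ∧ ∀ α, α ∈ μ → Φ α ∈ μ) := by
    intro μ h1 h2 h3
    have hμo : Ord μ := hI.1.mem h1
    obtain ⟨α, hα⟩ := ne_emp_iff.1 h2
    rw [hmem]
    refine ⟨h1, ?_, ?_⟩
    · obtain ⟨β, hβ, -, hβμ⟩ := h3 α hα
      exact hμo.trans ((hmem β).1 hβ).2.1 hβμ
    · intro γ hγ
      obtain ⟨β, hβ, hγβ, hβμ⟩ := h3 γ hγ
      exact hμo.trans (((hmem β).1 hβ).2.2 γ hγβ) hβμ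
  obtain ⟨μ, hμ, hμI⟩ := hC _ g1 g2 g3
  rw [hmem] at hμ
  exact ⟨μ, hμ.1, hμI, hμ.2.1, hμ.2.2⟩

end Pool.Agent.ZFIter.NPA.BSM.SP
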