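import Pool.Agent.BSP.ZCore
import Pool.Agent.BSP.PSel

/-!
# BSP/ZChi: `Xi` holds in every Levy extension of a countable model

`s = can F s0` (ordinals: `tem_can.ord`). `r ⊆ can F (prod omega omega)` (an element of `RS` is a function from
`omega` to `omega`; `em_prod`, `em_omega`), `q, q' ⊆ omega = can F omega`. `split_mem` for `r, q, q'` (small: `small_prod`,
`small_mem`) gives `μ1, μ2, μ3 ∈ κ`, let `μ ∈ κ` contain them (`inacc_un`). `lev_split` at `μ`: `F1` on `Lev μ`, `F2`,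
`e : F.Ext ≃ F2.Ext`; `e r = can F2 r1`, `e q = can F2 q1`, `e q' = can F2 q1'`, `e s = can F2 (can F1 s0)`.
With `b1 := opair (opair (can F1 s0) r1) q1`: `UAx Φ F2.Ext (can F2 (opair b1 q1))` by `UR.iso` for `e`
(`e (opair x y) = opair (e x) (e y)`: `em_opair` with `tem_equiv`), so `LF (UAx Φ) (can F1 κ) (opair b1 q1)`
in `F1.Ext` (`lf_of`). `F1.Ext` is countable, `ac_ext`, `inacc_ext` (`small_lev`). `q1, q1'` are infinite
(`em_InfS`), `q1' ⊆ q1` (`em_sub`).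
Let `F3 : Fo F1.Ext` be on `IS`, `ISR` with `F3.G q1'` (`exists_gen`, `pre_IS`), `p0 := gam F3`: `sel_gam` gives
`Selective p0`; `can F3 q1' ∈ p0`; `F3.G q1` (`is_up`), `can F3 q1 ∈ p0`. `F3.P = IS ⊆ pow omega` is small for
`can F1 κ` in `F1.Ext` (`small_pow`, `small_sub`), so by `lf_small`:
`LF (UAx Φ) (can F3 (can F1 κ)) (can F3 (opair b1 q1))`. `zcore` in `F3.Ext` (`ac_ext`, `inacc_ext`) gives
`LF (Xi Φ) (can F3 (can F1 κ)) (opair (can F3 b1) (can F3 q1'))`; back by `lf_small`: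
`LF (Xi Φ) (can F1 κ) (opair b1 q1')`; `lf_of`: `Xi Φ F2.Ext (can F2 (opair b1 q1'))`; `UR.iso` for `e`.
-/

universe u

namespace Pool.Agent.ZFIter.NPA.BSM.SP

open Pool.Agent.H78.ZF Pool.Agent.ZFIter Pool.Agent.ZFIter.NPA

variable {Φ : ∀ (M : Type u) [ZFM M], M → Prop} [hΦ : U1 Φ] {M : Type u} [ZFM M]

theorem chi_ext [Countable M] (hAC : AC M) {κ : M} (hκ : Inacc κ) {F : Fo M} (hF : IsLev F κ)
    {s r q q' : F.Ext} (hs : Ord s) (hr : r ∈ (RS : F.Ext)) (hq : InfS q) (hq' : InfS q')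
    (hqq : q' ⊆ q) (hax : UAx Φ F.Ext (opair (opair (opair s r) q) q)) :
    Xi Φ F.Ext (opair (opair (opair s r) q) q') := by
  obtain ⟨s0, rfl⟩ := TEm.ord (i := can F) s hs
  have hom : Small κ (omega : M) := small_mem hκ.2.1
  have hrs : r ⊆ can F (prod omega omega) := by
    rw [em_prod (i := can F), em_omega (i := can F)]
    exact (mem_RS.1 hr).sub_prod
  have hqs : q ⊆ can F omega := by
    rw [em_omega (i := can F)]
    exact hq.1
  have hqs' : q' ⊆ can F omega := by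
    rw [em_omega (i := can F)]
    exact hq'.1
  obtain ⟨μ1, hμ1, h1⟩ := split_mem hκ F hF (small_prod hκ hom hom) hrs
  obtain ⟨μ2, hμ2, h2⟩ := split_mem hκ F hF hom hqs
  obtain ⟨μ3, hμ3, h3⟩ := split_mem hκ F hF hom hqs'
  have hμ : un μ1 (un μ2 μ3) ∈ κ := inacc_un hκ hμ1 (inacc_un hκ hμ2 hμ3)
  obtain ⟨F1, F2, hF1, hG, hF2, e, he, hcan⟩ := lev_split hAC hκ F hF hμ
  obtain ⟨r1, hr1⟩ := h1 _ (fun x hx => by
    rw [mem_un]
    exact Or.inl hx) hμ F1 F2 e hF1 hG he hcan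
  obtain ⟨q1, hq1⟩ := h2 _ (fun x hx => by
    rw [mem_un, mem_un]
    exact Or.inr (Or.inl hx)) hμ F1 F2 e hF1 hG he hcan
  obtain ⟨q1', hq1'⟩ := h3 _ (fun x hx => by
    rw [mem_un, mem_un]
    exact Or.inr (Or.inr hx)) hμ F1 F2 e hF1 hG he hcan
  have te : TEm (fun x => e x) := tem_equiv he
  have eo : ∀ x y : F.Ext, e (opair x y) = opair (e x) (e y) := fun x y =>
    em_opair (i := fun x => e x) x y
  have ec : ∀ x y : F1.Ext, can F2 (opair x y) = opair (can F2 x) (can F2 y) := fun x y =>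
    em_opair (i := can F2) x y
  have eq1 : e (opair (opair (opair (can F s0) r) q) q) =
      can F2 (opair (opair (opair (can F1 s0) r1) q1) q1) := by
    rw [eo, eo, eo, hcan, hr1, hq1, ec, ec, ec]
  have eq2 : e (opair (opair (opair (can F s0) r) q) q') =
      can F2 (opair (opair (opair (can F1 s0) r1) q1) q1') := by
    rw [eo, eo, eo, hcan, hr1, hq1, hq1', ec, ec, ec]
  have hax2 : UAx Φ F2.Ext (can F2 (opair (opair (opair (can F1 s0) r1) q1) q1)) := by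
    rw [← eq1]
    exact (UR.iso (fun (M : Type u) [ZFM M] (v : Unit → M) => UAx Φ M (v ())) e he
      (fun _ => opair (opair (opair (can F s0) r) q) q)).2 hax
  have hLF := (lf_of (UAx Φ) F2 hF2).2 hax2
  have hκ1 : Inacc (can F1 κ) := inacc_ext hκ (by
    rw [hF1.1]
    exact small_lev hκ hμ)
  have hAC1 : AC F1.Ext := ac_ext hAC
  have hi : InfS q1 := by
    rw [← em_InfS (i := can F2), ← hq1]
    exact (em_InfS (i := fun x => e x)).2 hq
  have hi' : InfS q1' := by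
    rw [← em_InfS (i := can F2), ← hq1']
    exact (em_InfS (i := fun x => e x)).2 hq'
  have hsub : q1' ⊆ q1 := by
    rw [← em_sub (i := can F2), ← hq1, ← hq1']
    exact (em_sub (i := fun x => e x)).2 hqq
  obtain ⟨G, hG3, hGq⟩ := exists_gen (IS : F1.Ext) ISR q1' (mem_IS.2 hi')
  obtain ⟨F3, hP3, hR3, hGq3⟩ : ∃ F3 : Fo F1.Ext, F3.P = IS ∧ F3.R = ISR ∧ F3.G q1' :=
    ⟨Fo.mk IS ISR G pre_IS hG3, rfl, rfl, hGq⟩
  have hsel := sel_gam hP3 hR3 hAC1
  have hGq1 : F3.G q1 := is_up hP3 hR3 hGq3 hsub hi.1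
  have hsm : Small (can F1 κ) F3.P := by
    rw [hP3]
    refine small_sub (small_pow hκ1 (small_mem hκ1.2.1)) fun x hx => ?_
    rw [mem_pow]
    exact (mem_IS.1 hx).1
  have h4 := (lf_small (UAx Φ) hAC1 hκ1 F3 hsm).1 hLF
  rw [em_opair (i := can F3)] at h4
  have h5 := zcore (ac_ext hAC1) (inacc_ext hκ1 hsm) hsel (can_mem_gam.2 hGq1)
    (can_mem_gam.2 hGq3) h4
  rw [← em_opair (i := can F3)] at h5
  have h6 := (lf_of (Xi Φ) F2 hF2).1 ((lf_small (Xi Φ) hAC1 hκ1 F3 hsm).2 h5)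
  rw [← eq2] at h6
  exact (UR.iso (fun (M : Type u) [ZFM M] (v : Unit → M) => Xi Φ M (v ())) e he
      (fun _ => opair (opair (opair (can F s0) r) q) q')).1 h6

end Pool.Agent.ZFIter.NPA.BSM.SP
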