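import Pool.Agent.BSP.ZFin
import Pool.Agent.BSP.ZChi

/-!
# BSP/ZMain: Blass's conjecture for `p` generic over `L(R)`

`exists_e`: `IsExt i G` and the frame `F := ⟨Lev κ, LevR κ, G, pre_lev, hG⟩` give an isomorphism
`e : F.Ext ≃ N` over `M`: `exists_iso` (SGen) for `S := {g}`, `g ∈ N` from `IsExt.gen`, `GenBy` is `IsExt.least`
(`TEm i` from `mem`, `trans`, `ord`), with the name of `gam F` (`ev g (i gn) = g`, where `F.val gn = gam F`).
`main_pos`: `exists_psi` gives `Ψ`, `s, r, q`. `uax_of` gives `UAx (PhiOf Ψ) N (..)`; for `q' ⊆ q` infinite go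
to `F.Ext` along `e.symm` (`UR.iso` for the uniform relations `UAx`, `InfS`, `Ord`, `⊆`, `r ∈ RS`, `Xi`), apply
`chi_ext`, and come back. `zfin`. (`AC N`: from `ac_ext` and `UR.iso`, or by the isomorphism.)
-/

universe u

namespace Pool.Agent.ZFIter.NPA.BSM.SP

open Pool.Agent.H78.ZF Pool.Agent.ZFIter Pool.Agent.ZFIter.NPA

variable {M N : Type u} [ZFM M] [ZFM N]

theorem exists_e {κ : M} {G : M → Prop} (hG : Gen (Lev κ) (LevR κ) G) {i : M → N}
    (hi : IsExt i G) : ∃ (F : Fo M) (e : F.Ext ≃ N), IsLev F κ ∧ F.G = G ∧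
      (∀ x y, e x ∈ e y ↔ x ∈ y) ∧ ∀ x, e (can F x) = i x := by
  have hT : TEm i := ⟨hi.mem, hi.trans, hi.ord⟩
  obtain ⟨g, hg⟩ := hi.gen
  let F : Fo M := Fo.mk (Lev κ) (LevR κ) G pre_lev hG
  have hg' : ∀ z, z ∈ g ↔ ∃ q, F.G q ∧ z = i q := hg
  obtain ⟨j, hj, h1, h2, h3⟩ := exists_emb (i := i) (F := F) hg'
  obtain ⟨y0, hy0⟩ := Fo.exists_val (gam F)
  have hS : GenBy i (fun s => s = g) := by
    intro K ht hz hc hs z
    refine hi.least K ht hz hc (fun g' hg2 => ?_) z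
    have : g' = g := by
      refine ext fun z => ?_
      rw [hg2, hg]
    rw [this]
    exact hs g rfl
  obtain ⟨e, he, hc, -, -⟩ := exists_iso hS F hg' (fun s hs => ⟨y0, by
    rw [hs, ← h3, ← hy0, h2]⟩)
  exact ⟨F, e, ⟨rfl, rfl⟩, rfl, he, hc⟩

theorem ac_iso (e : M ≃ N) (he : ∀ x y, e x ∈ e y ↔ x ∈ y) (h : AC M) : AC N := by
  intro x
  obtain ⟨a, f, ha, hf⟩ := h (e.symm x)
  have hT : TEm (fun x => e x) := tem_equiv he
  refine ⟨e a, e f, (em_Ord (i := fun x => e x)).2 ha, ?_⟩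
  have := (em_Inj (i := fun x => e x)).2 hf
  simpa using this

theorem main_pos [Countable M] (hAC : AC M) {κ : M} (hκ : Inacc κ) {G : M → Prop}
    (hG : Gen (Lev κ) (LevR κ) G) {i : M → N} (hi : IsExt i G) {p : N} (hp : Uf p) (hn : Nonpr p)
    (hg : GenLR p) {U : N} (hU : Uf U) (hL : InLRp p U) : InGp p U := by
  obtain ⟨F, e, hF, -, he, hc⟩ := exists_e hG hi
  obtain ⟨Ψ, hΨ, habs, hspec⟩ := exists_psi.{u}
  obtain ⟨s, r, q, hs, hr, hq, hqi, hax, ht⟩ := hspec N p U hp hn hg hU hL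
  have hACN : AC N := ac_iso e he (ac_ext hAC)
  refine zfin (fun K _ hR => habs N K hR) hACN hp hn hg hU hs hr hq hqi hax ht fun q' hq' hqq => ?_
  have hT : TEm (fun x => e x) := tem_equiv he
  have hop : ∀ x y, e (opair x y) = opair (e x) (e y) := em_opair (i := fun x => e x)
  have hax' := uax_of Ψ hax
  have e1 : ∀ x, e (e.symm x) = x := fun x => e.apply_symm_apply x
  have h1 : opair (opair (opair s r) q) q =
      e (opair (opair (opair (e.symm s) (e.symm r)) (e.symm q)) (e.symm q)) := by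
    rw [hop, hop, hop, e1, e1, e1]
  have h2 : opair (opair (opair s r) q) q' =
      e (opair (opair (opair (e.symm s) (e.symm r)) (e.symm q)) (e.symm q')) := by
    rw [hop, hop, hop, e1, e1, e1, e1]
  have u1 := (u1_UAx (PhiOf Ψ)).out
  have u2 := (u1_Xi (PhiOf Ψ)).out
  rw [h1] at hax'
  rw [h2]
  have h3 := (UR.iso (fun M _ (v : Unit → M) => UAx (PhiOf Ψ) M (v ())) e he
    (fun _ => opair (opair (opair (e.symm s) (e.symm r)) (e.symm q)) (e.symm q))).1 hax'
  refine (UR.iso (fun M _ (v : Unit → M) => Xi (PhiOf Ψ) M (v ())) e he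
    (fun _ => opair (opair (opair (e.symm s) (e.symm r)) (e.symm q)) (e.symm q'))).2 ?_
  refine chi_ext hAC hκ hF ?_ ?_ ?_ ?_ ?_ h3
  · rw [← em_Ord (i := fun x => e x), e1]
    exact hs
  · have := (UR.iso (fun M _ (v : Unit → M) => v () ∈ (RS : M)) e he (fun _ => e.symm r)).1
    refine this ?_
    show e (e.symm r) ∈ RS
    rw [e1]
    exact hr
  · rw [← em_InfS (i := fun x => e x), e1]
    exact hqi
  · rw [← em_InfS (i := fun x => e x), e1]
    exact hq'
  · rw [← em_sub (i := fun x => e x), e1, e1]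
    exact hqq

end Pool.Agent.ZFIter.NPA.BSM.SP
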