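import Pool.Agent.BSP.YMeet
import Pool.Agent.BSP.ZMain

/-!
# BSP/YMain: Blass's conjecture for all selective ultrafilters, `κ` Mahlo

`genLR_mahlo`: let `D` be in all inner models with all reals; then `LR D` (`inner_LR`, `lr_real`), so
`D = hP s r` for an ordinal `s` and a real `r`. `Δ c := sn c ∈ hP (fs (fs c)) (sn (fs c))` is uniformly definable
(BSP/RUni). Transfer to `F.Ext` along `e.symm` (`exists_e`; `UR.iso`), `meet_delta`.
-/

universe u

namespace Pool.Agent.ZFIter.NPA.BSM.SP

open Pool.Agent.H78.ZF Pool.Agent.ZFIter Pool.Agent.ZFIter.NPA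

variable {M N : Type u} [ZFM M] [ZFM N]

/-- Mathias' theorem: if `κ` is Mahlo, every selective ultrafilter of the Levy extension is generic over
`L(R)`. -/
theorem genLR_mahlo [Countable M] (hAC : AC M) {κ : M} (hκ : Mahlo κ) {G : M → Prop}
    (hG : Gen (Lev κ) (LevR κ) G) {i : M → N} (hi : IsExt i G) {p : N} (hp : Selective p) :
    GenLR p := by
  intro D hD h1 h2
  obtain ⟨s, hs, r, hr, hDe⟩ := hD LR (fun x hx => lr_real hx)
  obtain ⟨F, e, hF, -, he, hc⟩ := exists_e hG hi
  have hT : TEm (fun x => e x) := tem_equiv he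
  have hop : ∀ x y, e (opair x y) = opair (e x) (e y) := em_opair (i := fun x => e x)
  have e1 : ∀ x, e (e.symm x) = x := fun x => e.apply_symm_apply x
  have hU : U1.{u} (fun M _ c => sn c ∈ hP (fs (fs c)) (sn (fs c))) :=
    ⟨(inferInstance : UR.{u} (fun M _ (v : Unit → M) =>
      sn (v ()) ∈ hP (fs (fs (v ()))) (sn (fs (v ())))))⟩
  have hΔ : ∀ x : F.Ext, (fun (M : Type u) [ZFM M] (c : M) => sn c ∈ hP (fs (fs c)) (sn (fs c)))
      F.Ext (opair (opair (e.symm s) (e.symm r)) x) ↔ e x ∈ D := by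
    intro x
    have h3 := UR.iso (fun M _ (v : Unit → M) => sn (v ()) ∈ hP (fs (fs (v ()))) (sn (fs (v ()))))
      e he (fun _ => opair (opair (e.symm s) (e.symm r)) x)
    have h4 : e (opair (opair (e.symm s) (e.symm r)) x) = opair (opair s r) (e x) := by
      rw [hop, hop, e1, e1]
    refine h3.symm.trans ?_
    rw [h4, fs_opair, sn_opair, fs_opair, sn_opair, ← hDe]
  have a1 : Selective (e.symm p) := by
    have := (UR.iso (fun M _ (v : Unit → M) => Selective (v ())) e he (fun _ => e.symm p)).1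
    refine this ?_
    show Selective (e (e.symm p))
    rw [e1]
    exact hp
  have a2 : Ord (e.symm s) := by
    rw [← em_Ord (i := fun x => e x), e1]
    exact hs
  have a3 : e.symm r ∈ (RS : F.Ext) := by
    have := (UR.iso (fun M _ (v : Unit → M) => v () ∈ (RS : M)) e he (fun _ => e.symm r)).1
    refine this ?_
    show e (e.symm r) ∈ RS
    rw [e1]
    exact hr
  obtain ⟨x, hx, hx2⟩ := meet_delta hAC hκ hF a1
    (fun M _ c => sn c ∈ hP (fs (fs c)) (sn (fs c))) a2 a3 (fun x hx => by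
      obtain ⟨y, hy, hyx⟩ := h2 (e x) ((em_InfS (i := fun x => e x)).2 hx)
      refine ⟨e.symm y, ?_, ?_, (hΔ _).2 ?_⟩
      · rw [← em_InfS (i := fun x => e x), e1]
        exact h1 y hy
      · rw [← em_sub (i := fun x => e x), e1]
        exact hyx
      · rw [e1]
        exact hy)
  refine ⟨e x, (hΔ x).1 hx2, ?_⟩
  have := (he x (e.symm p)).2 hx
  rwa [e1] at this

theorem main_mahlo [Countable M] (hAC : AC M) {κ : M} (hκ : Mahlo κ) {G : M → Prop}
    (hG : Gen (Lev κ) (LevR κ) G) {i : M → N} (hi : IsExt i G) {p : N} (hp : Selective p) {U : N}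
    (hU : Uf U) (hL : InLRp p U) : InGp p U :=
  main_pos hAC hκ.1 hG hi hp.1 hp.2.1 (genLR_mahlo hAC hκ hG hi hp) hU hL

end Pool.Agent.ZFIter.NPA.BSM.SP
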