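import Pool.Agent.BSP.YRef2
import Pool.Agent.BSP.YDic
import Pool.Agent.BSP.RInt

/-!
# BSP/YMeet: a selective ultrafilter of the Levy extension of a Mahlo cardinal meets dense sets

* `pp_sel`: `Sel.ppt` (BLI/Sel) with `P k n := n ∈ ap f k`.
* `meet_delta`: `s = can F s0`; `r ⊆ can F (prod omega omega)`: `split_mem` gives `μ0 ∈ κ`. `exists_refl` with
  `α0 := μ0` gives an inaccessible `μ`, and with `lev_split` at `μ`: `F1, F2, e`, `p1 : F1.Ext` selective,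
  `e r = can F2 r1` (`μ0 ⊆ μ` as `μ0 ∈ μ`). In `F2.Ext`, a Levy collapse of `can F1 κ` over `F1.Ext`:
  `lev_ctb` (KNice, for the small set `p1 ⊆ pow omega` of `F1.Ext`, `Inacc (can F1 κ)` by `inacc_ext`) gives
  `f : omega → can F2 p1` onto; its values are in `e p` (elements of `can F2 p1` are `can F2 x1`, `x1 ∈ p1`);
  `e p` is selective (`UR.iso`), `pp_sel` gives `x ∈ e p` almost contained in all `can F2 c`, `c ∈ p1`.
  `dicho` in `F1.Ext` (countable, `ac_ext`) for `Φ := Δ`, `b := opair (can F1 s0) r1`, `p := p1`: `a ∈ p1`. Let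
  `x' := sep x (· ∈ can F2 a) ∈ e p`, infinite (`Sel.unb` or `inf_of_mem`), almost contained in all `can F2 c`.
  First case of `dicho`: `Δ F2.Ext (opair (can F2 b) x')`, so `Δ F.Ext (opair (opair s r) (e.symm x'))`
  (`UR.iso`), done. Second case: by `hd` (transferred to `F2.Ext` along `e`) some infinite `y ⊆ x'` has
  `Δ F2.Ext (opair (can F2 b) y)`; `y` is almost contained in all `can F2 c` and `y ⊆ can F2 a`: contradiction.
-/

universe u

namespace Pool.Agent.ZFIter.NPA.BSM.SP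

open Pool.Agent.H78.ZF Pool.Agent.ZFIter Pool.Agent.ZFIter.NPA

theorem pp_sel {N : Type u} [ZFM N] {p f : N} (hp : Selective p)
    (hf : ∀ n, n ∈ (omega : N) → ap f n ∈ p) : ∃ x, x ∈ p ∧ ∀ n, n ∈ (omega : N) → AE x (ap f n) := by
  obtain ⟨A, hA, h⟩ := BLI.Sel.ppt hp (fun k n => n ∈ ap f k) (fun k hk =>
    (BLI.UF.self (BLI.UF.sub hp.1 (hf k hk))).2 (hf k hk))
  refine ⟨A, hA, fun z hz => ?_⟩
  obtain ⟨m, hm, -, h1⟩ := h z hz
  exact ⟨m, hm, fun n hn hmn => h1 n hn hmn z ((mem_succ _ _).2 (Or.inr rfl))⟩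

theorem meet_delta {M : Type u} [ZFM M] [Countable M] (hAC : AC M) {κ : M} (hκ : Mahlo κ)
    {F : Fo M} (hF : IsLev F κ) {p : F.Ext} (hp : Selective p)
    (Δ : ∀ (M : Type u) [ZFM M], M → Prop) [U1 Δ] {s r : F.Ext} (hs : Ord s)
    (hr : r ∈ (RS : F.Ext))
    (hd : ∀ x, InfS x → ∃ y, InfS y ∧ y ⊆ x ∧ Δ F.Ext (opair (opair s r) y)) :
    ∃ x, x ∈ p ∧ Δ F.Ext (opair (opair s r) x) := by
  have hκi : Inacc κ := hκ.1
  obtain ⟨s0, rfl⟩ := TEm.ord (i := can F) s hs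
  have hrs : r ⊆ can F (prod omega omega) := by
    rw [em_prod (i := can F), em_omega (i := can F)]
    intro z hz
    rw [mem_prod]
    exact (mem_RS.1 hr).1 z hz
  obtain ⟨μ0, hμ0, hsplit⟩ := split_mem hκi F hF
    (small_prod hκi (small_mem hκi.2.1) (small_mem hκi.2.1)) hrs
  obtain ⟨μ, hμ, hμi, hμ0μ, hrefl⟩ := exists_refl hAC hκ hF hp hμ0
  obtain ⟨F1, F2, hF1, hG1, hF2, e, he, hc⟩ := lev_split hAC hκi F hF hμ
  obtain ⟨p1, hp1, hp1e⟩ := hrefl F1 F2 e hF1 hG1 he hc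
  obtain ⟨r1, hr1⟩ := hsplit μ (hμi.1.1 _ hμ0μ) hμ F1 F2 e hF1 hG1 he hc
  have hT : TEm (fun x => e x) := tem_equiv he
  have hκ1 : Inacc (can F1 κ) := inacc_ext hκi (by rw [hF1.1]; exact small_lev hκi hμ)
  have hep : Selective (e p) :=
    (UR.iso (fun (M : Type u) [ZFM M] (v : Unit → M) => Selective (v ())) e he (fun _ => p)).2 hp
  -- a pseudo-intersection
  have hsm : Small (can F1 κ) p1 := small_sub (small_pow hκ1 (small_mem hκ1.2.1)) (fun x hx =>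
    (mem_pow _ _).2 (BLI.UF.sub hp1.1 hx))
  obtain ⟨f, hf, hfs⟩ := lev_ctb hκ1 hF2 hsm (ne_emp_iff.2 ⟨_, hp1.1.2.1⟩)
  have hfm : ∀ n, n ∈ (omega : F2.Ext) → ap f n ∈ e p := by
    intro n hn
    obtain ⟨x1, hx1, h1⟩ := em_elim.1 (hf.ap_mem hn)
    rw [h1]
    exact ((hp1e x1).1 hx1).2
  obtain ⟨x, hx, hxf⟩ := pp_sel hep hfm
  have hxc : ∀ c, c ∈ p1 → AE x (can F2 c) := by
    intro c hc'
    obtain ⟨n, hn, h1⟩ := hfs c hc'
    rw [← h1]
    exact hxf n hn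
  have hsub : ∀ y z : F2.Ext, y ⊆ x → z ⊆ y → ∀ c, c ∈ p1 → AE z (can F2 c) := by
    intro y z hy hz c hc'
    obtain ⟨m, hm, h1⟩ := hxc c hc'
    exact ⟨m, hm, fun n hn hmn => h1 n (hy n (hz n hn)) hmn⟩
  have hAC1 : AC F1.Ext := ac_ext hAC
  obtain ⟨a, ha, hdi⟩ := dicho Δ hAC1 (b := opair (can F1 s0) r1) hκ1 hp1
  have hae : can F2 a ∈ e p := ((hp1e a).1 ha).2
  have hx' : sep x (fun k => k ∈ can F2 a) ∈ e p := hep.1.2.2.2.1 _ _ hx hae
  have hx's : sep x (fun k => k ∈ can F2 a) ⊆ x := fun k hk => ((mem_sep _ _ _).1 hk).1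
  have hx'a : sep x (fun k => k ∈ can F2 a) ⊆ can F2 a := fun k hk => ((mem_sep _ _ _).1 hk).2
  have hx'i : InfS (sep x (fun k => k ∈ can F2 a)) := BLI.Sel.unb hep hx'
  generalize sep x (fun k => k ∈ can F2 a) = x' at hx' hx's hx'a hx'i
  have hbe : ∀ y : F.Ext, opair (can F2 (opair (can F1 s0) r1)) (e y) =
      e (opair (opair (can F s0) r) y) := by
    intro y
    rw [em_opair (i := can F2), ← hr1, ← hc]
    rw [em_opair (i := fun x => e x) (opair (can F s0) r) y,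
      em_opair (i := fun x => e x) (can F s0) r]
  have hiso : ∀ y : F.Ext, Δ F2.Ext (opair (can F2 (opair (can F1 s0) r1)) (e y)) ↔
      Δ F.Ext (opair (opair (can F s0) r) y) := by
    intro y
    rw [hbe]
    have := (inferInstance : U1 Δ).out
    exact UR.iso (fun (M : Type u) [ZFM M] (v : Unit → M) => Δ M (v ())) e he
      (fun _ => opair (opair (can F s0) r) y)
  have hinf : ∀ y : F.Ext, InfS (e y) ↔ InfS y := fun y =>
    UR.iso (fun (M : Type u) [ZFM M] (v : Unit → M) => InfS (v ())) e he (fun _ => y)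
  obtain ⟨x0, rfl⟩ := e.surjective x'
  rcases hdi with h | h
  · refine ⟨x0, (he _ _).1 hx', (hiso x0).1 ?_⟩
    exact h F2 hF2 (e x0) hx'i (hsub _ _ hx's (sub_refl _)) hx'a
  · exfalso
    obtain ⟨y, hy1, hy2, hy3⟩ := hd x0 ((hinf x0).1 hx'i)
    have hyx : e y ⊆ e x0 := by
      intro z hz
      obtain ⟨z0, rfl⟩ := e.surjective z
      exact (he _ _).2 (hy2 z0 ((he _ _).1 hz))
    exact h F2 hF2 (e y) ((hinf y).2 hy1) (hsub _ _ hx's hyx) (fun z hz => hx'a z (hyx z hz))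
      ((hiso y).2 hy3)

end Pool.Agent.ZFIter.NPA.BSM.SP
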