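import Pool.Agent.BLI.Mathias

/-!
# BSP/YPd: pure decision for the Mathias-Prikry forcing of a selective ultrafilter

`A`, `B` are definable classes of conditions, inherited by stronger conditions, closed under density,
and together dense.

PROOF. Let `P s := ∃ b, b ∈ p ∧ opair s b ∈ fs (MP p) ∧ (A (opair s b) ∨ B (opair s b))` for `s ∈ fsw`. Apply
`Sel.bar` (BLI/Sel). Hypothesis of `Sel.bar`: let `s ∈ fsw` and `X := {n : n above s, P (ins s n)} ∈ p`. For `n ∈ X`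
choose `b_n ∈ p` (`ac_rel`, BLI) with `A` or `B` for `(ins s n, b_n)`; one of `X_A := {n ∈ X : A (..)}`,
`X_B` is in `p` (`hp.1`: if `X_A ∉ p` its complement is). Say `X_A ∈ p`. `Sel.diag` gives `x ∈ p`, `x ⊆ X_A`, with
`m ∈ b_n` for `n, m ∈ x`, `n ∈ m`; let `c := {n ∈ x : n above s}`, `(s, c) ∈ MP p` (`Sel.above`). Every
extension `(t, c')` of `(s, c)` has an extension in `A`: if `t = s` first add an element `n` of `c'` (its least
element above): so let `t ≠ s` and let `n` be the least element of `t ∖ s` (a finite set of numbers), `n ∈ c`;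
then `(t, c' ∩ b_n)` is a condition below `(ins s n, b_n)`: the elements of `t ∖ (s ∪ {n})` are in `x` and
above `n`, so in `b_n`. So `A (t, c' ∩ b_n)` by monotonicity. By `A`-density `A (s, c)`. So `P s`.
Conclusion of `Sel.bar`: `P emp` — done — or some `x ∈ p` with `¬ P s` for all finite `s ⊆ x`: but the condition
`(emp, x)` has an extension `(s, b)` with `A` or `B`, and `s ⊆ x`: contradiction.
-/

universe u

namespace Pool.Agent.ZFIter.NPA.BSM.SP

open Pool.Agent.H78.ZF Pool.Agent.ZFIter Pool.Agent.ZFIter.NPA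

variable {M : Type u} [ZFM M]

/-- some condition with the stem `s` is in `C` -/
private def PP (p : M) (C : M → Prop) (s : M) : Prop :=
  ∃ b, b ∈ p ∧ opair s b ∈ fs (BLI.MP p) ∧ C (opair s b)

private instance dr_PP {ι : Type} (p : M) (C : M → Prop) [D1 C] (s : (ι → M) → M) [DF s] :
    DR (fun v => PP p C (s v)) := by
  have e1 : ∀ κ : Type, ∀ a : (κ → M) → M, [DF a] → DR (fun v => C (a v)) :=
    fun κ a _ => D1.comp C a
  unfold PP
  infer_instance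

private theorem pd_side (hAC : AC M) {p : M} (hp : Selective p) (C : M → Prop) [D1 C]
    (hC : ∀ d d', C d → BLI.LE (BLI.MP p) d' d → C d')
    (hC' : ∀ d, d ∈ fs (BLI.MP p) → (∀ d', BLI.LE (BLI.MP p) d' d → ∃ d'',
      BLI.LE (BLI.MP p) d'' d' ∧ C d'') → C d)
    {s : M} (hs : s ∈ (BLI.fsw : M))
    (hX : sep omega (fun n => (∀ i, i ∈ s → i ∈ n) ∧ PP p C (ins s n)) ∈ p) : PP p C s := by
  have e1 : ∀ κ : Type, ∀ a : (κ → M) → M, [DF a] → DR (fun v => C (a v)) :=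
    fun κ a _ => D1.comp C a
  obtain ⟨b, hb, h1⟩ := ac_rel hAC omega p
    (fun n b => PP p C (ins s n) → opair (ins s n) b ∈ fs (BLI.MP p) ∧ C (opair (ins s n) b))
    (fun n _ => by
      by_cases hn : PP p C (ins s n)
      · obtain ⟨b, hb1, hb2⟩ := hn
        exact ⟨b, hb1, fun _ => hb2⟩
      · exact ⟨omega, hp.1.2.1, fun h => absurd h hn⟩)
  obtain ⟨x0, hx0, hdiag⟩ := BLI.Sel.diag hp (fun k n => n ∈ ap b k) (fun k hk =>
    (BLI.UF.self (BLI.UF.sub hp.1 (hb.ap_mem hk))).2 (hb.ap_mem hk))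
  have hc := BLI.UF.itr hp.1 hx0 hX
  generalize hce : BLI.itr x0 (sep omega (fun n => (∀ i, i ∈ s → i ∈ n) ∧ PP p C (ins s n))) = c
    at hc
  have hmc : ∀ n, n ∈ c ↔ n ∈ x0 ∧ n ∈ (omega : M) ∧ (∀ i, i ∈ s → i ∈ n) ∧ PP p C (ins s n) := by
    intro n
    rw [← hce, BLI.mem_itr, mem_sep]
  have hsc : opair s c ∈ fs (BLI.MP p) :=
    BLI.opair_MP_of hs hc fun i hi j hj => ((hmc j).1 hj).2.2.1 i hi
  refine ⟨c, hc, hsc, hC' _ hsc ?_⟩
  have claim : ∀ d1, BLI.LE (BLI.MP p) d1 (opair s c) → (∃ n, n ∈ fs d1 ∧ n ∉ s) →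
      ∃ d'', BLI.LE (BLI.MP p) d'' d1 ∧ C d'' := by
    intro d1 hd1 hn
    have hd1' := hd1
    rw [BLI.LE_MP, fs_opair, sn_opair] at hd1'
    obtain ⟨hd, -, hsub, hnew, hsn⟩ := hd1'
    have hfs := BLI.MP_fs hd
    obtain ⟨n0, hn0, hn0s⟩ := hn
    have hfo : fs d1 ⊆ omega := (BLI.mem_fsw.1 hfs.1).1
    obtain ⟨n, hno, ⟨hn1, hn2⟩, hmin⟩ := exists_least (fun k => k ∈ fs d1 ∧ k ∉ s)
      ⟨n0, hfo n0 hn0, hn0, hn0s⟩
    have hnc := (hmc n).1 (hnew n hn1 hn2)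
    have hb1 := h1 n hno hnc.2.2.2
    have hbn := hb.ap_mem hno
    have hd'' := BLI.mp_shrink hd (BLI.UF.itr hp.1 hfs.2.1 hbn)
      (fun k hk => (BLI.mem_itr.1 hk).1)
    refine ⟨_, hd'', hC _ _ hb1.2 ?_⟩
    rw [BLI.LE_MP, fs_opair, sn_opair, fs_opair, sn_opair]
    refine ⟨hd''.1, hb1.1, ?_, ?_, fun k hk => (BLI.mem_itr.1 hk).2⟩
    · intro i hi
      rw [mem_ins] at hi
      rcases hi with hi | rfl
      · exact hsub i hi
      · exact hn1
    · intro i hi hin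
      rw [mem_ins, not_or] at hin
      have hic := (hmc i).1 (hnew i hi hin.1)
      refine hdiag n hnc.1 i hic.1 ?_
      rcases trichotomy hno hic.2.1 with h2 | h2 | h2
      · exact h2
      · exact absurd h2.symm hin.2
      · exact absurd ⟨hi, hin.1⟩ (hmin i h2)
  intro d' hd'
  by_cases hn : ∃ n, n ∈ fs d' ∧ n ∉ s
  · exact claim d' hd' hn
  · have hfs := BLI.MP_fs hd'.1
    obtain ⟨n, hn', -⟩ := BLI.Sel.exists_gt hp hfs.2.1 emp_mem_omega
    have hadd := BLI.mp_add hp hd'.1 hn'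
    have hns : n ∉ s := by
      intro hns
      rw [BLI.LE_MP, fs_opair, sn_opair] at hd'
      exact not_mem_self n (hfs.2.2.1 n (hd'.2.2.1 n hns) n hn')
    obtain ⟨d'', h2, h3⟩ := claim _ ((BLI.po_MP p).trans hadd hd') ⟨n, by
      rw [fs_opair, mem_ins]; exact Or.inr rfl, hns⟩
    exact ⟨d'', (BLI.po_MP p).trans h2 hadd, h3⟩

theorem pure_dec (hAC : AC M) {p : M} (hp : Selective p) (A B : M → Prop) [D1 A] [D1 B]
    (hA : ∀ d d', A d → BLI.LE (BLI.MP p) d' d → A d') (hB : ∀ d d', B d → BLI.LE (BLI.MP p) d' d → B d')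
    (hA' : ∀ d, d ∈ fs (BLI.MP p) → (∀ d', BLI.LE (BLI.MP p) d' d → ∃ d'', BLI.LE (BLI.MP p) d'' d' ∧
      A d'') → A d)
    (hB' : ∀ d, d ∈ fs (BLI.MP p) → (∀ d', BLI.LE (BLI.MP p) d' d → ∃ d'', BLI.LE (BLI.MP p) d'' d' ∧
      B d'') → B d)
    (hd : ∀ d, d ∈ fs (BLI.MP p) → ∃ d', BLI.LE (BLI.MP p) d' d ∧ (A d' ∨ B d')) :
    ∃ a, a ∈ p ∧ opair emp a ∈ fs (BLI.MP p) ∧ (A (opair emp a) ∨ B (opair emp a)) := by
  obtain (⟨b, h1, h2, h3⟩ | ⟨b, h1, h2, h3⟩) | ⟨x, hx, hxP⟩ :=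
    BLI.Sel.bar hp (fun s => PP p A s ∨ PP p B s) (by
      intro s hs hX
      rcases BLI.UF.sep_em hp.1 (fun n => (∀ i, i ∈ s → i ∈ n) ∧ PP p A (ins s n)) with h | h
      · exact Or.inl (pd_side hAC hp A hA hA' hs h)
      · right
        refine pd_side hAC hp B hB hB' hs ?_
        refine hp.1.up (BLI.UF.itr hp.1 hX h) (fun k hk => ?_) (fun k hk => by
          rw [mem_sep] at hk; exact hk.1)
        rw [BLI.mem_itr, mem_sep, mem_sep] at hk
        rw [mem_sep]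
        obtain ⟨⟨h1, h2, h3⟩, -, h4⟩ := hk
        refine ⟨h1, h2, ?_⟩
        rcases h3 with h3 | h3
        · exact absurd ⟨h2, h3⟩ h4
        · exact h3)
  · exact ⟨b, h1, h2, Or.inl h3⟩
  · exact ⟨b, h1, h2, Or.inr h3⟩
  · exfalso
    obtain ⟨d, hdx, hAB⟩ := hd (opair emp x) (BLI.opair_MP_of BLI.emp_fsw hx
      fun i hi => absurd hi (not_mem_emp i))
    have hfs := BLI.MP_fs hdx.1
    have hdx1 := hdx.1
    rw [BLI.LE_MP, fs_opair, sn_opair] at hdx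
    refine hxP (fs d) hfs.1 (fun i hi => hdx.2.2.2.1 i hi (not_mem_emp i)) ?_
    rw [hfs.2.2.2] at hAB hdx1
    rcases hAB with h | h
    · exact Or.inl ⟨sn d, hfs.2.1, hdx1, h⟩
    · exact Or.inr ⟨sn d, hfs.2.1, hdx1, h⟩

end Pool.Agent.ZFIter.NPA.BSM.SP
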