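import Pool.Agent.BSP.YMah
import Pool.Agent.BSP.KHom
import Pool.Agent.BSP.UBli

/-!
# BSP/YRef1: reflection of a selective ultrafilter at an inaccessible cardinal below a Mahlo cardinal

`nmc κ t` is the name with the value `{can F n : ∃ r ∈ G, (n, r) ∈ t}` (`mem_val_nmc`: `mem_val'`,
`can F n = F.val (chk F.P n)`).

`closure1`: some `g0`, `F.G g0`, forces `Selective` of `τ` (`truth_Fr` for the uniform relation `Selective`).
(i) for every `t` and `q ∈ Lev κ` some `q' ⊇ q` in `Lev κ` decides `nmc t ∈ τ` (`good_Fr`: take a generic filter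
through `q`, `exists_lev`-like with `exists_gen`, and `truth_Fr`, directedness).
(ii) for every `u ⊆ prod (prod omega omega) (Lev κ)` and `q ∈ Lev κ`, `g0 ⊆ q`, there are `q' ⊇ q`, `β ∈ κ`,
`t ⊆ prod omega (Lev β)` with `Fr SelP (..) q'`: take `H : Fo M` Levy with `H.G q`; `H.val τ` is selective; if
`f := H.val (nmc u) ∈ RS` let `A ∈ H.val τ` be such that `f` is constant or injective on `A` (`Selective`; in
the first case `A = {k : ap f k = n}`), otherwise `A = omega`; `nice_name` (KNice, `c := omega`) gives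
`A = H.val (nmc t)`; `truth_Fr` gives `q1`, take a common extension `q'` of `q`, `q1`.
Both `q'` and `t` are bounded: `q' ∈ Lev κ` is in some `Lev β`, `β ∈ κ` (`lev_lim`, BSM/VLev).
Let `Φ α` be the least `β ∈ κ` such that for all `t ⊆ prod omega (Lev α)`, `q ∈ Lev α` there is `q' ∈ Lev β` as
in (i), and for all `u ⊆ prod (prod omega omega) (Lev α)`, `q ∈ Lev α` with `g0 ⊆ q` there are `q' ∈ Lev β`,
`t ⊆ prod omega (Lev β)` as in (ii) (`leastO`). It exists: `small_bdd` for the small set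
`prod (pow (prod omega (Lev α))) (Lev α)` and the least `β'` for the pair `(t, q)`, the same for (ii)
(`small_pow`, `small_prod`, `small_lev`), and monotonicity in `β` (`lev_mono`). `exists_mahlo` for `Φ` (and
`un α0 γ`, where `g0 ∈ Lev γ`) gives `μ`. `μ` is a limit, so `q ∈ Lev μ` is in `Lev β`, `β ∈ μ`, `α ⊆ β`
(`lev_lim`); `Φ β ∈ μ`, `Lev (Φ β) ⊆ Lev μ`.
-/

universe u

namespace Pool.Agent.ZFIter.NPA.BSM.SP

open Pool.Agent.H78.ZF Pool.Agent.ZFIter Pool.Agent.ZFIter.NPA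

/-- `fs c ∈ sn c`. -/
def MemP : ∀ (M : Type u) [ZFM M], M → Prop := fun _ _ c => fs c ∈ sn c

instance u1_MemP : U1 MemP.{u} := by
  constructor
  unfold MemP
  infer_instance

/-- `fs c ∉ sn c`. -/
def NMemP : ∀ (M : Type u) [ZFM M], M → Prop := fun _ _ c => fs c ∉ sn c

instance u1_NMemP : U1 NMemP.{u} := by
  constructor
  unfold NMemP
  infer_instance

/-- For `c = (f, (A, p))`: `A ∈ p` and, if `f` is a real, it is constant or injective on `A`. -/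
def SelP : ∀ (M : Type u) [ZFM M], M → Prop := fun M _ c =>
  fs (sn c) ∈ sn (sn c) ∧ (fs c ∈ (RS : M) →
    (∃ n, ∀ k, k ∈ fs (sn c) → ap (fs c) k = n) ∨
      ∀ j k, j ∈ fs (sn c) → k ∈ fs (sn c) → ap (fs c) j = ap (fs c) k → j = k)

instance u1_SelP : U1 SelP.{u} := by
  constructor
  unfold SelP
  infer_instance

section

variable {M : Type u} [ZFM M] {ι : Type}

/-- The name with the value `{n : ∃ r ∈ G, (n, r) ∈ t}`. -/
noncomputable def nmc (κ t : M) : M := img t (fun w => opair (chk (Lev κ) (fs w)) (sn w))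

instance DF.nmc (κ t : (ι → M) → M) [DF κ] [DF t] : DF (fun v => nmc (κ v) (t v)) := by
  unfold SP.nmc
  infer_instance

theorem mem_val_nmc {F : Fo M} {κ c t : M} (hF : IsLev F κ) (ht : t ⊆ prod c (Lev κ)) {z : F.Ext} :
    z ∈ F.val (nmc κ t) ↔ ∃ n r, opair n r ∈ t ∧ F.G r ∧ z = can F n := by
  have hc : ∀ n, F.val (chk (Lev κ) n) = can F n := by
    intro n
    rw [← hF.1]
    rfl
  rw [mem_val']
  constructor
  · rintro ⟨x, s, hxs, hs, rfl⟩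
    unfold nmc at hxs
    rw [mem_img] at hxs
    obtain ⟨w, hw, e⟩ := hxs
    have hw' := ht w hw
    rw [mem_prod] at hw'
    obtain ⟨n, hn, r, hr, rfl⟩ := hw'
    rw [fs_opair, sn_opair] at e
    obtain ⟨rfl, rfl⟩ := opair_inj e
    exact ⟨n, s, hw, hs, hc n⟩
  · rintro ⟨n, r, hnr, hr, rfl⟩
    refine ⟨chk (Lev κ) n, r, ?_, hr, (hc n).symm⟩
    unfold nmc
    rw [mem_img]
    refine ⟨opair n r, hnr, ?_⟩
    rw [fs_opair, sn_opair]

private theorem fr_dr (Φ : ∀ (M : Type u) [ZFM M], M → Prop) [hΦ : U1 Φ] {ι : Type}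
    (P R τ p : (ι → M) → M) (hP : DF P) (hR : DF R) (hτ : DF τ) (hp : DF p) :
    DR (fun v => Fr Φ (P v) (R v) (τ v) (p v)) := by
  have h0 : UR.{u} (ι := Fin 4) (fun M _ (v : Fin 4 → M) => Fr Φ (v 0) (v 1) (v 2) (v 3)) :=
    inferInstance
  have h1 : DR (M := M) (ι := Fin 4) (fun v : Fin 4 → M => Fr Φ (v 0) (v 1) (v 2) (v 3)) :=
    UR.dr (fun M _ (v : Fin 4 → M) => Fr Φ (v 0) (v 1) (v 2) (v 3)) M
  have h2 : ∀ o : Fin 4, DF (M := M) (ι := ι) ((![P, R, τ, p] : Fin 4 → (ι → M) → M) o) := by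
    intro o
    fin_cases o
    · exact hP
    · exact hR
    · exact hτ
    · exact hp
  exact @DR.subst M _ ι (Fin 4) _ _ h1 (![P, R, τ, p]) h2

private instance dr_MemP {ι : Type} (P R τ p : (ι → M) → M) [hP : DF P] [hR : DF R] [hτ : DF τ]
    [hp : DF p] : DR (fun v => Fr MemP.{u} (P v) (R v) (τ v) (p v)) :=
  fr_dr MemP.{u} P R τ p hP hR hτ hp

private instance dr_NMemP {ι : Type} (P R τ p : (ι → M) → M) [hP : DF P] [hR : DF R] [hτ : DF τ]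
    [hp : DF p] : DR (fun v => Fr NMemP.{u} (P v) (R v) (τ v) (p v)) :=
  fr_dr NMemP.{u} P R τ p hP hR hτ hp

private instance dr_SelP {ι : Type} (P R τ p : (ι → M) → M) [hP : DF P] [hR : DF R] [hτ : DF τ]
    [hp : DF p] : DR (fun v => Fr SelP.{u} (P v) (R v) (τ v) (p v)) :=
  fr_dr SelP.{u} P R τ p hP hR hτ hp

/-- `q` decides whether `t` names an element of `τ` -/
private def DecP (κ τ t q : M) : Prop :=
  Fr MemP (Lev κ) (LevR κ) (opnm (Lev κ) (nmc κ t) τ) q ∨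
    Fr NMemP (Lev κ) (LevR κ) (opnm (Lev κ) (nmc κ t) τ) q

private def SlP (κ τ u t q : M) : Prop :=
  Fr SelP (Lev κ) (LevR κ) (opnm (Lev κ) (nmc κ u) (opnm (Lev κ) (nmc κ t) τ)) q

private instance dr_DecP {ι : Type} (κ τ t q : (ι → M) → M) [DF κ] [DF τ] [DF t] [DF q] :
    DR (fun v => DecP (κ v) (τ v) (t v) (q v)) := by
  unfold DecP
  infer_instance

private instance dr_SlP {ι : Type} (κ τ u t q : (ι → M) → M) [DF κ] [DF τ] [DF u] [DF t] [DF q] :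
    DR (fun v => SlP (κ v) (τ v) (u v) (t v) (q v)) := by
  unfold SlP
  infer_instance

private def B1 (κ τ z β : M) : Prop := ∃ q', q' ∈ Lev β ∧ sn z ⊆ q' ∧ DecP κ τ (fs z) q'

private def B2 (κ τ g0 z β : M) : Prop :=
  g0 ⊆ sn z → ∃ q' t, q' ∈ Lev β ∧ sn z ⊆ q' ∧ t ⊆ prod omega (Lev β) ∧ SlP κ τ (fs z) t q'

private instance dr_B1 {ι : Type} (κ τ z β : (ι → M) → M) [DF κ] [DF τ] [DF z] [DF β] :
    DR (fun v => B1 (κ v) (τ v) (z v) (β v)) := by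
  unfold B1
  infer_instance

private instance dr_B2 {ι : Type} (κ τ g z β : (ι → M) → M) [DF κ] [DF τ] [DF g] [DF z] [DF β] :
    DR (fun v => B2 (κ v) (τ v) (g v) (z v) (β v)) := by
  unfold B2
  infer_instance

private theorem bddP {κ : M} (hκ : Inacc κ) {X : M} (hX : Small κ X) (B : M → M → Prop) [D2 B]
    (hm : ∀ z β γ, β ⊆ γ → B z β → B z γ) (h : ∀ z, z ∈ X → ∃ β, β ∈ κ ∧ B z β) :
    ∃ η, η ∈ κ ∧ ∀ z, z ∈ X → B z η := by
  have hs : ∀ z, z ∈ X → leastO (fun β => β ∈ κ ∧ B z β) ∈ κ ∧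
      B z (leastO (fun β => β ∈ κ ∧ B z β)) := by
    intro z hz
    obtain ⟨β, hβ, h1⟩ := h z hz
    exact (leastO_spec (fun β => β ∈ κ ∧ B z β) ⟨β, hκ.1.mem hβ, hβ, h1⟩).2.1
  obtain ⟨η, hη, hb⟩ := small_bdd hκ hX (fun z => leastO (fun β => β ∈ κ ∧ B z β))
    (fun z hz => (hs z hz).1)
  exact ⟨η, hη, fun z hz => hm z _ _ ((hκ.1.mem hη).1 _ (hb z hz)) (hs z hz).2⟩

private theorem ext_q [Countable M] {κ q : M} (hq : q ∈ Lev κ) :
    ∃ H : Fo M, IsLev H κ ∧ H.G q := by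
  obtain ⟨G, hG, hGq⟩ := exists_gen (Lev κ) (LevR κ) q hq
  exact ⟨Fo.mk (Lev κ) (LevR κ) G inferInstance hG, ⟨rfl, rfl⟩, hGq⟩

/-- (i) -/
private theorem dec_ex [Countable M] {κ τ : M} (t : M) {q : M} (hq : q ∈ Lev κ) :
    ∃ q', q' ∈ Lev κ ∧ q ⊆ q' ∧ DecP κ τ t q' := by
  obtain ⟨H, hH, hHq⟩ := ext_q hq
  have key : ∃ r, H.G r ∧ DecP κ τ t r := by
    unfold DecP
    rw [← hH.1, ← hH.2]
    by_cases h : MemP H.Ext (H.val (opnm H.P (nmc κ t) τ))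
    · obtain ⟨r, hr, h1⟩ := (truth_Fr MemP H _).1 h
      exact ⟨r, hr, Or.inl h1⟩
    · obtain ⟨r, hr, h1⟩ := (truth_Fr NMemP H _).1 h
      exact ⟨r, hr, Or.inr h1⟩
  obtain ⟨r, hr, h1⟩ := key
  obtain ⟨s, hs, hsr, hsq⟩ := H.gen.dir r q hr hHq
  rw [hH.1, hH.2] at hsr hsq
  refine ⟨s, (le_lev.1 hsq).1, (le_lev.1 hsq).2.2, ?_⟩
  rcases h1 with h1 | h1
  · exact Or.inl ((good_Fr MemP (Lev κ) (LevR κ) _).mono h1 hsr)
  · exact Or.inr ((good_Fr NMemP (Lev κ) (LevR κ) _).mono h1 hsr)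

/-- (ii) -/
private theorem sel_ex [Countable M] {κ : M} (hκ : Inacc κ) {τ g0 : M} (hg0 : g0 ∈ Lev κ)
    (hS : Fr (fun (M : Type u) [ZFM M] (p : M) => Selective p) (Lev κ) (LevR κ) τ g0) (u : M) {q : M}
    (hq : q ∈ Lev κ) (hgq : g0 ⊆ q) :
    ∃ q' β t, q' ∈ Lev κ ∧ q ⊆ q' ∧ β ∈ κ ∧ t ⊆ prod omega (Lev β) ∧ SlP κ τ u t q' := by
  obtain ⟨H, hH, hHq⟩ := ext_q hq
  have hHg : H.G g0 := H.gen.up q g0 hHq (by rw [hH.1, hH.2]; exact le_lev.2 ⟨hq, hg0, hgq⟩)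
  have hsel : Selective (H.val τ) :=
    (truth_Fr (fun (M : Type u) [ZFM M] (p : M) => Selective p) H τ).2
      ⟨g0, hHg, by rw [hH.1, hH.2]; exact hS⟩
  obtain ⟨A, hA, hA'⟩ : ∃ A, A ∈ H.val τ ∧ (H.val (nmc κ u) ∈ (RS : H.Ext) →
      (∃ n, ∀ k, k ∈ A → ap (H.val (nmc κ u)) k = n) ∨
      ∀ j k, j ∈ A → k ∈ A → ap (H.val (nmc κ u)) j = ap (H.val (nmc κ u)) k → j = k) := by
    by_cases hf : H.val (nmc κ u) ∈ (RS : H.Ext)
    · rcases hsel.2.2 _ hf with ⟨n, hn, h⟩ | ⟨A, hA, h⟩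
      · refine ⟨_, h, fun _ => Or.inl ⟨n, fun k hk => ?_⟩⟩
        rw [mem_sep] at hk
        exact hk.2
      · exact ⟨A, hA, fun _ => Or.inr h⟩
    · exact ⟨omega, hsel.1.2.1, fun h => absurd h hf⟩
  have hAo : A ⊆ can H omega := by
    have := hsel.1.1 A hA
    rwa [em_omega (i := can H)]
  obtain ⟨β, t, hβ, ht, hAt⟩ := nice_name hκ hH (small_mem hκ.2.1) hAo
  have hβκ : β ⊆ κ := hκ.1.1 β hβ
  have ht' : t ⊆ prod omega (Lev κ) := by
    intro z hz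
    have := ht z hz
    rw [mem_prod] at this ⊢
    obtain ⟨n, hn, r, hr, rfl⟩ := this
    exact ⟨n, hn, r, lev_mono hβκ r hr, rfl⟩
  have hAeq : H.val (nmc κ t) = A := by
    apply ext
    intro z
    rw [mem_val_nmc hH ht']
    constructor
    · rintro ⟨n, r, hnr, hr, rfl⟩
      have := ht _ hnr
      rw [opair_mem_prod] at this
      exact (hAt n this.1).2 ⟨r, hr, hnr⟩
    · intro hz
      obtain ⟨n, hn, rfl⟩ := em_elim.1 (hAo z hz)
      obtain ⟨r, hr, hnr⟩ := (hAt n hn).1 hz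
      exact ⟨n, r, hnr, hr, rfl⟩
  have hT : SelP H.Ext (H.val (opnm H.P (nmc κ u) (opnm H.P (nmc κ t) τ))) := by
    rw [val_opnm, val_opnm, hAeq]
    unfold SelP
    rw [sn_opair, fs_opair, fs_opair, sn_opair]
    exact ⟨hA, hA'⟩
  obtain ⟨q1, hq1, h1⟩ := (truth_Fr SelP H _).1 hT
  rw [hH.1, hH.2] at h1
  obtain ⟨s, hs, hsr, hsq⟩ := H.gen.dir q1 q hq1 hHq
  rw [hH.1, hH.2] at hsr hsq
  exact ⟨s, β, t, (le_lev.1 hsq).1, (le_lev.1 hsq).2.2, hβ, ht,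
    (good_Fr SelP (Lev κ) (LevR κ) _).mono h1 hsr⟩

theorem closure1 [Countable M] (hAC : AC M) {κ : M} (hκ : Mahlo κ) {F : Fo M} (hF : IsLev F κ)
    {τ : M} (hp : Selective (F.val τ)) {α0 : M} (h0 : α0 ∈ κ) :
    ∃ μ g0, μ ∈ κ ∧ Inacc μ ∧ α0 ∈ μ ∧ F.G g0 ∧ g0 ∈ Lev μ ∧
      (∀ α t q, α ∈ μ → t ⊆ prod omega (Lev α) → q ∈ Lev μ → ∃ q', q' ∈ Lev μ ∧ q ⊆ q' ∧
        (Fr MemP (Lev κ) (LevR κ) (opnm (Lev κ) (nmc κ t) τ) q' ∨
          Fr NMemP (Lev κ) (LevR κ) (opnm (Lev κ) (nmc κ t) τ) q')) ∧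
      ∀ α u q, α ∈ μ → u ⊆ prod (prod omega omega) (Lev α) → q ∈ Lev μ → g0 ⊆ q →
        ∃ q' β t, q' ∈ Lev μ ∧ q ⊆ q' ∧ β ∈ μ ∧ t ⊆ prod omega (Lev β) ∧
          Fr SelP (Lev κ) (LevR κ) (opnm (Lev κ) (nmc κ u) (opnm (Lev κ) (nmc κ t) τ)) q' := by
  have hκi : Inacc κ := hκ.1
  have hlim : ∀ μ : M, Inacc μ → ∀ q, q ∈ Lev μ → ∃ β, β ∈ μ ∧ q ∈ Lev β := fun μ hμ q hq =>
    lev_lim hμ.1 (fun β hβ => inacc_succ hμ hβ) (ne_emp_iff.2 ⟨_, hμ.2.1⟩) hq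
  obtain ⟨g0, hg0, hS⟩ := (truth_Fr (fun (M : Type u) [ZFM M] (p : M) => Selective p) F τ).1 hp
  rw [hF.1, hF.2] at hS
  have hg0' : g0 ∈ Lev κ := by
    rw [← hF.1]
    exact Fo.G_mem hg0
  have hpm : ∀ (c α β : M), α ⊆ β → prod c (Lev α) ⊆ prod c (Lev β) := by
    intro c α β h z hz
    rw [mem_prod] at hz ⊢
    obtain ⟨n, hn, r, hr, rfl⟩ := hz
    exact ⟨n, hn, r, lev_mono h r hr, rfl⟩
  have key : ∀ α, α ∈ κ → ∃ η, η ∈ κ ∧
      (∀ z, z ∈ prod (pow (prod omega (Lev α))) (Lev α) → B1 κ τ z η) ∧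
      ∀ z, z ∈ prod (pow (prod (prod omega omega) (Lev α))) (Lev α) → B2 κ τ g0 z η := by
    intro α hα
    have hακ : α ⊆ κ := hκi.1.1 α hα
    have hsL : Small κ (Lev α) := small_lev hκi hα
    have hsω : Small κ (omega : M) := small_mem hκi.2.1
    obtain ⟨η1, hη1, hb1⟩ := bddP hκi
      (small_prod hκi (small_pow hκi (small_prod hκi hsω hsL)) hsL) (fun z β => B1 κ τ z β) (by
        rintro z β γ h ⟨q', h1, h2, h3⟩
        exact ⟨q', lev_mono h q' h1, h2, h3⟩) (by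
        intro z hz
        rw [mem_prod] at hz
        obtain ⟨t, ht, q, hq, rfl⟩ := hz
        obtain ⟨q', h1, h2, h3⟩ := dec_ex (τ := τ) t (lev_mono hακ q hq)
        obtain ⟨β, hβ, hq'⟩ := hlim κ hκi q' h1
        refine ⟨β, hβ, q', hq', ?_, ?_⟩
        · rw [sn_opair]; exact h2
        · rw [fs_opair]; exact h3)
    obtain ⟨η2, hη2, hb2⟩ := bddP hκi
      (small_prod hκi (small_pow hκi (small_prod hκi (small_prod hκi hsω hsω) hsL)) hsL)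
      (fun z β => B2 κ τ g0 z β) (by
        intro z β γ h hB hg
        obtain ⟨q', t, h1, h2, h3, h4⟩ := hB hg
        exact ⟨q', t, lev_mono h q' h1, h2, fun w hw => hpm omega β γ h w (h3 w hw), h4⟩) (by
        intro z hz
        rw [mem_prod] at hz
        obtain ⟨u, hu, q, hq, rfl⟩ := hz
        by_cases hg : g0 ⊆ q
        · obtain ⟨q', β, t, h1, h2, h3, h4, h5⟩ := sel_ex hκi hg0' hS u (lev_mono hακ q hq) hg
          obtain ⟨γ, hγ, hq'⟩ := hlim κ hκi q' h1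
          refine ⟨un β γ, inacc_un hκi h3 hγ, fun _ => ⟨q', t, ?_, ?_, ?_, ?_⟩⟩
          · exact lev_mono (sub_un_right β γ) q' hq'
          · rw [sn_opair]; exact h2
          · exact fun w hw => hpm omega β (un β γ) (sub_un_left β γ) w (h4 w hw)
          · rw [fs_opair]; exact h5
        · refine ⟨omega, hκi.2.1, fun h => ?_⟩
          rw [sn_opair] at h
          exact absurd h hg)
    refine ⟨un η1 η2, inacc_un hκi hη1 hη2, fun z hz => ?_, fun z hz => ?_⟩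
    · obtain ⟨q', h1, h2, h3⟩ := hb1 z hz
      exact ⟨q', lev_mono (sub_un_left η1 η2) q' h1, h2, h3⟩
    · intro hg
      obtain ⟨q', t, h1, h2, h3, h4⟩ := hb2 z hz hg
      exact ⟨q', t, lev_mono (sub_un_right η1 η2) q' h1, h2,
        fun w hw => hpm omega η2 _ (sub_un_right η1 η2) w (h3 w hw), h4⟩
  have hspec : ∀ α, α ∈ κ → leastO (fun η => η ∈ κ ∧
      (∀ z, z ∈ prod (pow (prod omega (Lev α))) (Lev α) → B1 κ τ z η) ∧
      ∀ z, z ∈ prod (pow (prod (prod omega omega) (Lev α))) (Lev α) → B2 κ τ g0 z η) ∈ κ ∧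
      (∀ z, z ∈ prod (pow (prod omega (Lev α))) (Lev α) → B1 κ τ z (leastO (fun η => η ∈ κ ∧
      (∀ z, z ∈ prod (pow (prod omega (Lev α))) (Lev α) → B1 κ τ z η) ∧
      ∀ z, z ∈ prod (pow (prod (prod omega omega) (Lev α))) (Lev α) → B2 κ τ g0 z η))) ∧
      ∀ z, z ∈ prod (pow (prod (prod omega omega) (Lev α))) (Lev α) → B2 κ τ g0 z
        (leastO (fun η => η ∈ κ ∧
      (∀ z, z ∈ prod (pow (prod omega (Lev α))) (Lev α) → B1 κ τ z η) ∧
      ∀ z, z ∈ prod (pow (prod (prod omega omega) (Lev α))) (Lev α) → B2 κ τ g0 z η)) := by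
    intro α hα
    obtain ⟨η, hη, h1⟩ := key α hα
    exact (leastO_spec (fun η => η ∈ κ ∧
      (∀ z, z ∈ prod (pow (prod omega (Lev α))) (Lev α) → B1 κ τ z η) ∧
      ∀ z, z ∈ prod (pow (prod (prod omega omega) (Lev α))) (Lev α) → B2 κ τ g0 z η)
      ⟨η, hκi.1.mem hη, hη, h1⟩).2.1
  obtain ⟨Φ, hΦ1, hΦd⟩ : ∃ Φ : M → M, F1 Φ ∧ ∀ α, α ∈ κ → Φ α ∈ κ ∧
      (∀ z, z ∈ prod (pow (prod omega (Lev α))) (Lev α) → B1 κ τ z (Φ α)) ∧
      ∀ z, z ∈ prod (pow (prod (prod omega omega) (Lev α))) (Lev α) → B2 κ τ g0 z (Φ α) :=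
    ⟨_, inferInstance, hspec⟩
  obtain ⟨γ0, hγ0, hgγ⟩ := hlim κ hκi g0 hg0'
  obtain ⟨μ, hμ, hμi, hμ0, hcl⟩ := exists_mahlo hκ Φ (fun α hα => (hΦd α hα).1)
    (inacc_un hκi h0 hγ0)
  have hμo : Ord μ := hμi.1
  have hμκ : μ ⊆ κ := hκi.1.1 μ hμ
  have hαμ : α0 ∈ μ := by
    rcases (ord_sub_iff (hκi.1.mem h0) (hκi.1.mem (inacc_un hκi h0 hγ0))).1
      (sub_un_left α0 γ0) with h | h
    · exact hμo.trans h hμ0
    · rw [h]; exact hμ0
  have hgμ : g0 ∈ Lev μ :=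
    lev_mono (fun x hx => hμo.1 _ hμ0 x (sub_un_right α0 γ0 x hx)) g0 hgγ
  refine ⟨μ, g0, hμ, hμi, hαμ, hg0, hgμ, ?_, ?_⟩
  · intro α t q hα ht hq
    obtain ⟨β, hβ, hqβ⟩ := hlim μ hμi q hq
    have hγ := inacc_un hμi hα hβ
    obtain ⟨q', h1, h2, h3⟩ := (hΦd _ (hμκ _ hγ)).2.1 (opair t q) (by
      rw [opair_mem_prod, mem_pow]
      exact ⟨fun w hw => hpm omega α _ (sub_un_left α β) w (ht w hw),
        lev_mono (sub_un_right α β) q hqβ⟩)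
    rw [sn_opair] at h2
    rw [fs_opair] at h3
    exact ⟨q', lev_mono (hμo.1 _ (hcl _ hγ)) q' h1, h2, h3⟩
  · intro α u q hα hu hq hgq
    obtain ⟨β, hβ, hqβ⟩ := hlim μ hμi q hq
    have hγ := inacc_un hμi hα hβ
    obtain ⟨q', t, h1, h2, h3, h4⟩ := (hΦd _ (hμκ _ hγ)).2.2 (opair u q) (by
      rw [opair_mem_prod, mem_pow]
      exact ⟨fun w hw => hpm _ α _ (sub_un_left α β) w (hu w hw),
        lev_mono (sub_un_right α β) q hqβ⟩) (by rw [sn_opair]; exact hgq)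
    rw [sn_opair] at h2
    rw [fs_opair] at h4
    exact ⟨q', Φ (un α β), t, lev_mono (hμo.1 _ (hcl _ hγ)) q' h1, h2, hcl _ hγ, h3, h4⟩

end

end Pool.Agent.ZFIter.NPA.BSM.SP
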