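import Pool.Agent.BSP.YRef1

/-!
# BSP/YRef2: the trace of a selective ultrafilter on an intermediate model is a selective ultrafilter of it

`p = F.val τ` (`Fo.exists_val`); `closure1` gives `μ`, `g0`. Let `F1, F2, e` be as in the statement. For
`t ⊆ prod c (Lev α)`, `α ∈ μ`, let `t₁ : F1.Ext` be `F1.val (nmc μ t)` and `t₂ : F.Ext` be `F.val (nmc κ t)`; then
`e t₂ = can F2 t₁` (`mem_val_nmc` twice: `opair n r ∈ t` gives `r ∈ Lev μ` (`lev_mono`), so `F1.G r ↔ F.G r`; and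
`e (can F n) = can F2 (can F1 n)`). By `nice_name` for the inaccessible cardinal `μ` and `F1`, every
`x1 ⊆ can F1 c` (`c` = `omega` or `prod omega omega`) of `F1.Ext` is `t₁` for some such `t`.
DEFINITION: `W0 := {(t, q) : q ∈ Lev μ, ∃ α ∈ μ, t ⊆ prod omega (Lev α), Fr MemP (Lev κ) (LevR κ) (opnm .. (nmc κ t) τ) q}`
(an element of `M`, `sep` of `prod (pow (prod omega (Lev μ))) (Lev μ)`) and
`p1 := sep (pow omega) (fun x => ∃ w, w ∈ can F1 W0 ∧ sn w ∈ gam F1 ∧ x = sep omega (fun n => ∃ r, r ∈ gam F1 ∧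
opair n r ∈ fs w))`.
CLAIM: `x1 ∈ p1 ↔ x1 ⊆ omega ∧ can F2 x1 ∈ e p`. (→): `w = can F1 (opair t q)` (`em_elim`, `em_opair`), `F1.G q`,
`x1 = t₁`, `F.G q` so `t₂ ∈ p` (`truth_Fr` for `MemP`, `val_opnm`). (←): `x1 = t₁`; by the first property of `closure1`
the set of all `q' ∈ Lev μ` deciding `nmc κ t ∈ τ` is dense in `Lev μ`, `F1.G q'` for one of them, and it is
not `NMemP` because `t₂ ∈ p`.
`Selective p1`: `Uf`, `Nonpr`: by the CLAIM and `Uf (e p)` (`UR.iso` for `Uf`, `Nonpr` or directly): `em_sub`,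
`em_omega`, `em_inter`, `em_compl` (BSP/RSpec), `can F2 (sing n) = sing (can F2 n)`. For `f1 ∈ RS` of `F1.Ext`:
`f1 ⊆ can F1 (prod omega omega)`, `f1 = u₁`; the second property of `closure1` (dense below `g0`, `F1.G g0`)
gives `q'` with `F1.G q'`, `t`, and `SelP` holds in `F.Ext` for `(u₂, (t₂, p))`; `u₂ ∈ RS` (`e u₂ = can F2 f1`). So
`x1 := t₁ ∈ p1` and `f1` is constant or injective on `x1` (`e`, `can F2` preserve `ap`: `em_ap`). If it is
constant with the value `n` then `x1 ⊆ sep omega (ap f1 k = n) ∈ p1`.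
-/

universe u

namespace Pool.Agent.ZFIter.NPA.BSM.SP

open Pool.Agent.H78.ZF Pool.Agent.ZFIter Pool.Agent.ZFIter.NPA

variable {M : Type u} [ZFM M]

private theorem tem_equiv' {N N' : Type u} [ZFM N] [ZFM N'] {e : N ≃ N'}
    (he : ∀ x y, e x ∈ e y ↔ x ∈ y) : TEm (fun x => e x) :=
  ⟨he, fun _ z _ => ⟨e.symm z, (e.apply_symm_apply z).symm⟩,
    fun α _ => ⟨e.symm α, (e.apply_symm_apply α).symm⟩⟩

/-- the class of all pairs for which a name is forced -/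
private instance dr_Fr {ι : Type} (Ψ : ∀ (M : Type u) [ZFM M], M → Prop) [hΨ : U1 Ψ]
    (P R τ q : (ι → M) → M) [hP : DF P] [hR : DF R] [hτ : DF τ] [hq : DF q] :
    DR (fun v => Fr Ψ (P v) (R v) (τ v) (q v)) := by
  have h1 := UR.dr (fun M _ (w : Fin 4 → M) => Fr Ψ (w 0) (w 1) (w 2) (w 3)) M
  have hF : ∀ i : Fin 4, DF ((fun i : Fin 4 => match i with
    | 0 => P | 1 => R | 2 => τ | 3 => q : Fin 4 → (ι → M) → M) i) := by
    intro i
    fin_cases i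
    · exact hP
    · exact hR
    · exact hτ
    · exact hq
  exact DR.subst (fun w : Fin 4 → M => Fr Ψ (w 0) (w 1) (w 2) (w 3))
    (fun i : Fin 4 => match i with
    | 0 => P | 1 => R | 2 => τ | 3 => q)

private theorem em_inter' {N N' : Type u} [ZFM N] [ZFM N'] (i : N → N') [TEm i] (A B : N) :
    i (sep A (fun k => k ∈ B)) = sep (i A) (fun k => k ∈ i B) := by
  refine ext fun w => ?_
  rw [mem_sep, em_elim (i := i), em_elim (i := i)]
  constructor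
  · rintro ⟨x, hx, rfl⟩
    rw [mem_sep] at hx
    exact ⟨⟨x, hx.1, rfl⟩, em_mem.2 hx.2⟩
  · rintro ⟨⟨x, hx, rfl⟩, h⟩
    exact ⟨x, (mem_sep _ _ _).2 ⟨hx, em_mem.1 h⟩, rfl⟩

private theorem em_compl' {N N' : Type u} [ZFM N] [ZFM N'] (i : N → N') [TEm i] (A : N) :
    i (sep omega (fun k => k ∉ A)) = sep omega (fun k => k ∉ i A) := by
  refine ext fun w => ?_
  rw [mem_sep, ← em_omega (i := i), em_elim (i := i), em_elim (i := i)]
  constructor
  · rintro ⟨x, hx, rfl⟩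
    rw [mem_sep] at hx
    exact ⟨⟨x, hx.1, rfl⟩, fun h => hx.2 (em_mem.1 h)⟩
  · rintro ⟨⟨x, hx, rfl⟩, h⟩
    exact ⟨x, (mem_sep _ _ _).2 ⟨hx, fun h' => h (em_mem.2 h')⟩, rfl⟩

/-- values of the same name in the two extensions -/
private theorem et {κ μ c t : M} (hLμ : Lev μ ⊆ Lev κ) {F F1 : Fo M} {F2 : Fo F1.Ext}
    {e : F.Ext ≃ F2.Ext} (hF : IsLev F κ) (hF1 : IsLev F1 μ)
    (hG1 : ∀ x, F1.G x ↔ x ∈ Lev μ ∧ F.G x) (he : ∀ x y, e x ∈ e y ↔ x ∈ y)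
    (hc : ∀ x, e (can F x) = can F2 (can F1 x)) (ht : t ⊆ prod c (Lev μ)) :
    e (F.val (nmc κ t)) = can F2 (F1.val (nmc μ t)) := by
  have ht' : t ⊆ prod c (Lev κ) := by
    intro w hw
    obtain ⟨n, hn, r, hr, rfl⟩ := (mem_prod _ _ _).1 (ht w hw)
    exact (opair_mem_prod _ _ _ _).2 ⟨hn, hLμ r hr⟩
  refine ext fun z => ?_
  obtain ⟨u, rfl⟩ := e.surjective z
  rw [he, mem_val_nmc hF ht', em_elim (i := can F2)]
  constructor
  · rintro ⟨n, r, h1, h2, rfl⟩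
    refine ⟨can F1 n, (mem_val_nmc hF1 ht).2 ⟨n, r, h1, (hG1 r).2 ⟨?_, h2⟩, rfl⟩, hc n⟩
    exact ((opair_mem_prod _ _ _ _).1 (ht _ h1)).2
  · rintro ⟨x, hx, hu⟩
    obtain ⟨n, r, h1, h2, rfl⟩ := (mem_val_nmc hF1 ht).1 hx
    rw [← hc] at hu
    exact ⟨n, r, h1, ((hG1 r).1 h2).2, e.injective hu⟩

/-- every subset of a small set of the ground model is the value of a nice name -/
private theorem nice_val {μ c : M} (hμ : Inacc μ) {F1 : Fo M} (hF1 : IsLev F1 μ) (hcs : Small μ c)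
    {x : F1.Ext} (hx : x ⊆ can F1 c) :
    ∃ α t, α ∈ μ ∧ t ⊆ prod c (Lev α) ∧ t ⊆ prod c (Lev μ) ∧ x = F1.val (nmc μ t) := by
  obtain ⟨α, t, hα, ht, h⟩ := nice_name hμ hF1 hcs hx
  have ht' : t ⊆ prod c (Lev μ) := by
    intro w hw
    obtain ⟨n, hn, r, hr, rfl⟩ := (mem_prod _ _ _).1 (ht w hw)
    exact (opair_mem_prod _ _ _ _).2 ⟨hn, lev_mono (hμ.1.1 α hα) r hr⟩
  refine ⟨α, t, hα, ht, ht', ext fun z => ?_⟩
  rw [mem_val_nmc hF1 ht']
  constructor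
  · intro hz
    obtain ⟨n, hn, rfl⟩ := em_elim.1 (hx z hz)
    obtain ⟨r, hr, h1⟩ := (h n hn).1 hz
    exact ⟨n, r, h1, hr, rfl⟩
  · rintro ⟨n, r, h1, h2, rfl⟩
    exact (h n ((opair_mem_prod _ _ _ _).1 (ht _ h1)).1).2 ⟨r, h2, h1⟩

/-- the set defined from the generic filter and `can F1 t` is the value of `nmc μ t` -/
private theorem val_eq {μ t : M} {F1 : Fo M} (hF1 : IsLev F1 μ) (ht : t ⊆ prod omega (Lev μ)) :
    sep omega (fun n => ∃ r, r ∈ gam F1 ∧ opair n r ∈ can F1 t) = F1.val (nmc μ t) := by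
  refine ext fun z => ?_
  rw [mem_sep, mem_val_nmc hF1 ht]
  constructor
  · rintro ⟨_, r, hr, h⟩
    obtain ⟨r', hr', rfl⟩ := mem_gam.1 hr
    obtain ⟨y, z', h1, h2, h3⟩ := em_opair_elim (i := can F1) h
    rw [em_inj (i := can F1) h3] at hr'
    exact ⟨y, z', h1, hr', h2⟩
  · rintro ⟨n, r, h1, h2, rfl⟩
    refine ⟨?_, can F1 r, can_mem_gam.2 h2, em_opair_mem.2 h1⟩
    rw [← em_omega (i := can F1)]
    exact em_mem.2 ((opair_mem_prod _ _ _ _).1 (ht _ h1)).1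

theorem exists_refl [Countable M] (hAC : AC M) {κ : M} (hκ : Mahlo κ) {F : Fo M} (hF : IsLev F κ)
    {p : F.Ext} (hp : Selective p) {α0 : M} (h0 : α0 ∈ κ) :
    ∃ μ, μ ∈ κ ∧ Inacc μ ∧ α0 ∈ μ ∧ ∀ (F1 : Fo M) (F2 : Fo F1.Ext) (e : F.Ext ≃ F2.Ext),
      IsLev F1 μ → (∀ x, F1.G x ↔ x ∈ Lev μ ∧ F.G x) → (∀ x y, e x ∈ e y ↔ x ∈ y) →
      (∀ x, e (can F x) = can F2 (can F1 x)) →
      ∃ p1 : F1.Ext, Selective p1 ∧ ∀ x1 : F1.Ext, x1 ∈ p1 ↔ x1 ⊆ omega ∧ can F2 x1 ∈ e p := by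
  obtain ⟨τ, rfl⟩ := Fo.exists_val p
  obtain ⟨μ, g0, hμ, hμI, h0μ, hGg0, hg0, c1, c2⟩ := closure1 hAC hκ hF hp h0
  refine ⟨μ, hμ, hμI, h0μ, ?_⟩
  intro F1 F2 e hF1 hG1 he hc
  have hTe : TEm (fun x => e x) := tem_equiv' he
  have hLμ : Lev μ ⊆ Lev κ := lev_mono (hκ.1.1.1 μ hμ)
  have hlift : ∀ {c t α : M}, α ∈ μ → t ⊆ prod c (Lev α) → t ⊆ prod c (Lev μ) := by
    intro c t α hα ht w hw
    obtain ⟨n, hn, r, hr, rfl⟩ := (mem_prod _ _ _).1 (ht w hw)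
    exact (opair_mem_prod _ _ _ _).2 ⟨hn, lev_mono (hμI.1.1 α hα) r hr⟩
  have hle1 : ∀ q r, Le F1.P F1.R q r ↔ q ∈ Lev μ ∧ r ∈ Lev μ ∧ r ⊆ q := by
    intro q r
    rw [hF1.1, hF1.2]
    exact le_lev
  -- the set of pairs
  have hd0 : D1 (fun w : M => (∃ α, α ∈ μ ∧ fs w ⊆ prod omega (Lev α)) ∧
      Fr MemP (Lev κ) (LevR κ) (opnm (Lev κ) (nmc κ (fs w)) τ) (sn w)) := by
    constructor
    have h1 := dr_Fr (M := M) (ι := Unit) MemP (fun _ => Lev κ) (fun _ => LevR κ)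
      (fun w => opnm (Lev κ) (nmc κ (fs (w ()))) τ) (fun w => sn (w ()))
    have h2 : DR (fun w : Unit → M => ∃ α, α ∈ μ ∧ fs (w ()) ⊆ prod omega (Lev α)) := by
      infer_instance
    exact @DR.and _ _ _ _ _ h2 h1
  obtain ⟨W0, hW0⟩ : ∃ W0 : M, ∀ t q, opair t q ∈ W0 ↔ (t ⊆ prod omega (Lev μ) ∧ q ∈ Lev μ) ∧
      (∃ α, α ∈ μ ∧ t ⊆ prod omega (Lev α)) ∧
      Fr MemP (Lev κ) (LevR κ) (opnm (Lev κ) (nmc κ t) τ) q := by
    refine ⟨sep (prod (pow (prod omega (Lev μ))) (Lev μ)) (fun w =>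
      (∃ α, α ∈ μ ∧ fs w ⊆ prod omega (Lev α)) ∧
      Fr MemP (Lev κ) (LevR κ) (opnm (Lev κ) (nmc κ (fs w)) τ) (sn w)), fun t q => ?_⟩
    rw [mem_sep, opair_mem_prod, mem_pow, fs_opair, sn_opair]
  obtain ⟨W, hW⟩ : ∃ W : F1.Ext, ∀ w, w ∈ W ↔ ∃ t q, w = opair (can F1 t) (can F1 q) ∧
      (t ⊆ prod omega (Lev μ) ∧ q ∈ Lev μ) ∧ (∃ α, α ∈ μ ∧ t ⊆ prod omega (Lev α)) ∧
      Fr MemP (Lev κ) (LevR κ) (opnm (Lev κ) (nmc κ t) τ) q := by
    refine ⟨can F1 (sep W0 (fun w => ∃ t q, w = opair t q)), fun w => ?_⟩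
    rw [em_elim (i := can F1)]
    constructor
    · rintro ⟨x, hx, rfl⟩
      rw [mem_sep] at hx
      obtain ⟨hx, t, q, rfl⟩ := hx
      exact ⟨t, q, em_opair (i := can F1) t q, (hW0 t q).1 hx⟩
    · rintro ⟨t, q, rfl, h⟩
      refine ⟨opair t q, (mem_sep _ _ _).2 ⟨(hW0 t q).2 h, t, q, rfl⟩, ?_⟩
      exact (em_opair (i := can F1) t q).symm
  obtain ⟨p1, hp1⟩ : ∃ p1 : F1.Ext, ∀ x, x ∈ p1 ↔ x ⊆ omega ∧ ∃ w, w ∈ W ∧ sn w ∈ gam F1 ∧
      x = sep omega (fun n => ∃ r, r ∈ gam F1 ∧ opair n r ∈ fs w) := by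
    refine ⟨sep (pow omega) (fun x => ∃ w, w ∈ W ∧ sn w ∈ gam F1 ∧
      x = sep omega (fun n => ∃ r, r ∈ gam F1 ∧ opair n r ∈ fs w)), fun x => ?_⟩
    rw [mem_sep, mem_pow]
  -- what the elements of the filter force
  have htr : ∀ (Ψ : ∀ (M : Type u) [ZFM M], M → Prop) [U1 Ψ] (σ q : M), F.G q →
      Fr Ψ (Lev κ) (LevR κ) σ q → Ψ F.Ext (F.val σ) := by
    intro Ψ _ σ q hq h
    refine (truth_Fr Ψ F σ).2 ⟨q, hq, ?_⟩
    rw [hF.1, hF.2]
    exact h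
  have hval : ∀ σ, F.val (opnm (Lev κ) σ τ) = opair (F.val σ) (F.val τ) := by
    intro σ
    rw [← hF.1, val_opnm]
  have hmem : ∀ t q, F.G q → Fr MemP (Lev κ) (LevR κ) (opnm (Lev κ) (nmc κ t) τ) q →
      F.val (nmc κ t) ∈ F.val τ := by
    intro t q hq h
    have h1 := htr MemP _ q hq h
    rw [hval] at h1
    unfold MemP at h1
    rwa [fs_opair, sn_opair] at h1
  have hnmem : ∀ t q, F.G q → Fr NMemP (Lev κ) (LevR κ) (opnm (Lev κ) (nmc κ t) τ) q →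
      F.val (nmc κ t) ∉ F.val τ := by
    intro t q hq h
    have h1 := htr NMemP _ q hq h
    rw [hval] at h1
    unfold NMemP at h1
    rwa [fs_opair, sn_opair] at h1
  have claim : ∀ x1 : F1.Ext, x1 ∈ p1 ↔ x1 ⊆ omega ∧ can F2 x1 ∈ e (F.val τ) := by
    intro x1
    rw [hp1]
    refine and_congr_right fun hx => ⟨?_, fun hx2 => ?_⟩
    · rintro ⟨w, hw, hsw, rfl⟩
      obtain ⟨t, q, rfl, ⟨ht, hq⟩, -, hfr⟩ := (hW w).1 hw
      rw [sn_opair] at hsw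
      have hGq := can_mem_gam.1 hsw
      simp only [fs_opair]
      rw [val_eq hF1 ht, ← et hLμ hF hF1 hG1 he hc ht, he]
      exact hmem t q ((hG1 q).1 hGq).2 hfr
    · have hx' : x1 ⊆ can F1 omega := by
        rw [em_omega (i := can F1)]
        exact hx
      obtain ⟨α, t, hα, ht, ht', rfl⟩ := nice_val hμI hF1 (small_mem hμI.2.1) hx'
      have hD1 : D1 (fun q' => Fr MemP (Lev κ) (LevR κ) (opnm (Lev κ) (nmc κ t) τ) q' ∨
          Fr NMemP (Lev κ) (LevR κ) (opnm (Lev κ) (nmc κ t) τ) q') := by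
        constructor
        have h1 := dr_Fr (M := M) (ι := Unit) MemP (fun _ => Lev κ) (fun _ => LevR κ)
          (fun _ => opnm (Lev κ) (nmc κ t) τ) (fun w => w ())
        have h2 := dr_Fr (M := M) (ι := Unit) NMemP (fun _ => Lev κ) (fun _ => LevR κ)
          (fun _ => opnm (Lev κ) (nmc κ t) τ) (fun w => w ())
        exact @DR.or _ _ _ _ _ h1 h2
      obtain ⟨q', hq', h | h⟩ := Fo.meet (F := F1)
        (fun q' => Fr MemP (Lev κ) (LevR κ) (opnm (Lev κ) (nmc κ t) τ) q' ∨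
          Fr NMemP (Lev κ) (LevR κ) (opnm (Lev κ) (nmc κ t) τ) q') (by
          intro q hq
          rw [hF1.1] at hq
          obtain ⟨q', h1, h2, h3⟩ := c1 α t q hα ht hq
          exact ⟨q', (hle1 _ _).2 ⟨h1, hq, h2⟩, h3⟩)
      · have hq'L : q' ∈ Lev μ := ((hG1 q').1 hq').1
        refine ⟨opair (can F1 t) (can F1 q'), (hW _).2 ⟨t, q', rfl, ⟨ht', hq'L⟩,
          ⟨α, hα, ht⟩, h⟩, ?_, ?_⟩
        · rw [sn_opair]
          exact can_mem_gam.2 hq'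
        · simp only [fs_opair]
          rw [val_eq hF1 ht']
      · exfalso
        rw [← et hLμ hF hF1 hG1 he hc ht', he] at hx2
        exact hnmem t q' ((hG1 q').1 hq').2 h hx2
  refine ⟨p1, ?_, claim⟩
  -- the ultrafilter in the large extension
  obtain ⟨P', hP'⟩ : ∃ P' : F2.Ext, P' = e (F.val τ) := ⟨_, rfl⟩
  have hS : Selective P' := by
    rw [hP']
    exact (UR.iso (fun (M : Type u) [ZFM M] (v : Unit → M) => Selective (v ())) e he
      (fun _ => F.val τ)).2 hp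
  rw [← hP'] at claim
  obtain ⟨⟨a1, a2, a3, a4, a5, a6⟩, hnp, -⟩ := hS
  have hom : can F2 (omega : F1.Ext) = omega := em_omega (i := can F2)
  have hsubo : ∀ A : F1.Ext, can F2 A ⊆ omega ↔ A ⊆ omega := by
    intro A
    rw [← hom, em_sub (i := can F2)]
  have hUf : Uf p1 := by
    refine ⟨fun A hA => ((claim A).1 hA).1, ?_, ?_, ?_, ?_, ?_⟩
    · rw [claim]
      exact ⟨sub_refl _, by rw [hom]; exact a2⟩
    · rw [claim]
      rintro ⟨-, h⟩
      rw [em_emp (i := can F2)] at h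
      exact a3 h
    · intro A B hA hB
      rw [claim] at hA hB ⊢
      refine ⟨fun k hk => hA.1 k ((mem_sep _ _ _).1 hk).1, ?_⟩
      rw [em_inter' (can F2)]
      exact a4 _ _ hA.2 hB.2
    · intro A B hA hAB hB
      rw [claim] at hA ⊢
      exact ⟨hB, a5 _ _ hA.2 ((em_sub (i := can F2)).2 hAB) ((hsubo B).2 hB)⟩
    · intro A hA
      rcases a6 (can F2 A) ((hsubo A).2 hA) with h | h
      · exact Or.inl ((claim A).2 ⟨hA, h⟩)
      · right
        rw [claim]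
        refine ⟨fun k hk => ((mem_sep _ _ _).1 hk).1, ?_⟩
        rw [em_compl' (can F2)]
        exact h
  refine ⟨hUf, ?_, ?_⟩
  · intro n hn h
    rw [claim] at h
    rw [em_sing (i := can F2)] at h
    refine hnp (can F2 n) ?_ h.2
    rw [← hom]
    exact em_mem.2 hn
  · intro f1 hf1
    have hf1' := mem_RS.1 hf1
    have hsub : f1 ⊆ can F1 (prod omega omega) := by
      rw [em_prod (i := can F1), em_omega (i := can F1)]
      exact hf1'.sub_prod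
    obtain ⟨α, u, hα, hu, hu', rfl⟩ := nice_val hμI hF1
      (small_prod hμI (small_mem hμI.2.1) (small_mem hμI.2.1)) hsub
    have hD1 : D1 (fun q' => ∃ β t, β ∈ μ ∧ t ⊆ prod omega (Lev β) ∧
        Fr SelP (Lev κ) (LevR κ) (opnm (Lev κ) (nmc κ u) (opnm (Lev κ) (nmc κ t) τ)) q') := by
      constructor
      infer_instance
    have hg1 : F1.G g0 := (hG1 g0).2 ⟨hg0, hGg0⟩
    obtain ⟨q', hq', β, t, hβ, ht, hfr⟩ := Fo.below (F := F1)
      (fun q' => ∃ β t, β ∈ μ ∧ t ⊆ prod omega (Lev β) ∧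
        Fr SelP (Lev κ) (LevR κ) (opnm (Lev κ) (nmc κ u) (opnm (Lev κ) (nmc κ t) τ)) q') hg1 (by
        intro q hq
        rw [hle1] at hq
        obtain ⟨q', β, t, h1, h2, h3, h4, h5⟩ := c2 α u q hα hu hq.1 hq.2.2
        exact ⟨q', (hle1 _ _).2 ⟨h1, hq.1, h2⟩, β, t, h3, h4, h5⟩)
    have ht' : t ⊆ prod omega (Lev μ) := hlift hβ ht
    have hsel := htr SelP _ q' ((hG1 q').1 hq').2 hfr
    have hv2 : F.val (opnm (Lev κ) (nmc κ u) (opnm (Lev κ) (nmc κ t) τ)) =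
        opair (F.val (nmc κ u)) (opair (F.val (nmc κ t)) (F.val τ)) := by
      rw [← hval, ← hF.1, val_opnm]
    rw [hv2] at hsel
    unfold SelP at hsel
    simp only [fs_opair, sn_opair] at hsel
    obtain ⟨hs1, hs2⟩ := hsel
    have eu : e (F.val (nmc κ u)) = can F2 (F1.val (nmc μ u)) :=
      et hLμ hF hF1 hG1 he hc hu'
    have ett : e (F.val (nmc κ t)) = can F2 (F1.val (nmc μ t)) :=
      et hLμ hF hF1 hG1 he hc ht'
    have hu2 : F.val (nmc κ u) ∈ (RS : F.Ext) := by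
      rw [mem_RS]
      have h1 : Fun (can F2 (F1.val (nmc μ u))) (can F2 omega) (can F2 omega) :=
        (em_Fun (i := can F2)).2 hf1'
      rw [← eu, hom] at h1
      have h2 : e (omega : F.Ext) = omega := em_omega (i := fun x => e x)
      rw [← h2] at h1
      exact (em_Fun (i := fun x => e x)).1 h1
    have hx1 : F1.val (nmc μ t) ∈ p1 := by
      rw [claim]
      refine ⟨fun z hz => ?_, ?_⟩
      · obtain ⟨n, r, h1, -, rfl⟩ := (mem_val_nmc hF1 ht').1 hz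
        rw [← em_omega (i := can F1)]
        exact em_mem.2 ((opair_mem_prod _ _ _ _).1 (ht' _ h1)).1
      · rw [← ett, hP', he]
        exact hs1
    have hx1o := ((claim _).1 hx1).1
    -- transfer of elements and values
    have hel : ∀ k, k ∈ F1.val (nmc μ t) → ∃ k', k' ∈ F.val (nmc κ t) ∧ e k' = can F2 k ∧
        e (ap (F.val (nmc κ u)) k') = can F2 (ap (F1.val (nmc μ u)) k) := by
      intro k hk
      obtain ⟨k', hk'⟩ := e.surjective (can F2 k)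
      refine ⟨k', ?_, hk', ?_⟩
      · rw [← he, hk', ett]
        exact em_mem.2 hk
      · have h1 : e (ap (F.val (nmc κ u)) k') = ap (e (F.val (nmc κ u))) (e k') :=
          em_ap (i := fun x => e x) _ _
        rw [h1, eu, hk', em_ap (i := can F2)]
    rcases hs2 hu2 with ⟨n', hn'⟩ | hinj
    · left
      have hne : F1.val (nmc μ t) ≠ emp := by
        intro h
        rw [h] at hx1
        exact hUf.2.2.1 hx1
      obtain ⟨k0, hk0⟩ := ne_emp_iff.1 hne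
      refine ⟨ap (F1.val (nmc μ u)) k0, hf1'.ap_mem (hx1o k0 hk0), ?_⟩
      refine hUf.2.2.2.2.1 _ _ hx1 (fun k hk => ?_) fun k hk => ((mem_sep _ _ _).1 hk).1
      rw [mem_sep]
      refine ⟨hx1o k hk, ?_⟩
      obtain ⟨k', h1, -, h3⟩ := hel k hk
      obtain ⟨k0', h1', -, h3'⟩ := hel k0 hk0
      rw [hn' k' h1] at h3
      rw [hn' k0' h1'] at h3'
      exact em_inj (i := can F2) (h3.symm.trans h3')
    · right
      refine ⟨_, hx1, fun j k hj hk hjk => ?_⟩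
      obtain ⟨j', j1, j2, j3⟩ := hel j hj
      obtain ⟨k', k1, k2, k3⟩ := hel k hk
      have h1 : j' = k' := hinj j' k' j1 k1 (e.injective (by rw [j3, k3, hjk]))
      rw [h1, k2] at j2
      exact (em_inj (i := can F2) j2).symm

end Pool.Agent.ZFIter.NPA.BSM.SP
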