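import Pool.Agent.BSP.RInt
import Pool.Agent.BSP.ARel0

/-!
# BSP/ZAx: `PsiAx` gives `UAx`

For `z` almost contained in `q` and infinite, `cap z q` is infinite (`InfS`: for `m` take `n ∈ z` above `m` and
above the bound of `AE`; the union (maximum) of two numbers is a number, `ord_un_cases`) and a subset of `q`.
By `p3_PhiOf`: first axiom: `cap z' q ⊆ cap z q`, `z'` is almost contained in `q`; fourth axiom: `tot` for
`cap z q` gives `z' ⊆ cap z q`, and `cap z' q = z'`.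
-/

universe u

namespace Pool.Agent.ZFIter.NPA.BSM.SP

open Pool.Agent.H78.ZF Pool.Agent.ZFIter Pool.Agent.ZFIter.NPA

theorem cap_inf {N : Type u} [ZFM N] {z q : N} (hz : InfS z) (h : AE z q) : InfS (cap z q) := by
  obtain ⟨m0, hm0, h0⟩ := h
  refine ⟨fun k hk => hz.1 k (mem_cap.1 hk).1, fun m hm => ?_⟩
  have hm' : un m m0 ∈ (omega : N) := by
    rcases ord_un_cases (ord_omega.mem hm) (ord_omega.mem hm0) with ⟨e, -⟩ | ⟨e, -⟩ <;> rw [e]
    · exact hm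
    · exact hm0
  obtain ⟨n, hn, h1⟩ := hz.2 (un m m0) hm'
  exact ⟨n, mem_cap.2 ⟨hn, h0 n hn (fun k hk => h1 k (sub_un_right m m0 k hk))⟩,
    fun k hk => h1 k (sub_un_left m m0 k hk)⟩

theorem uax_of {N : Type u} [ZFM N] (Ψ : ∀ (N : Type u) [ZFM N], N → N → N → N → Prop)
    {s r q : N} (h : PsiAx (Ψ N s r) q) :
    UAx (PhiOf Ψ) N (opair (opair (opair s r) q) q) := by
  have hcq : ∀ z : N, cap z q ⊆ q := fun z k hk => (mem_cap.1 hk).2
  unfold UAx
  simp only [fs_opair, sn_opair, p3_PhiOf]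
  refine ⟨?_, ?_, ?_, ?_⟩
  · intro z z' A A' hAE hz' hzz hAA hA' h1
    have h2 : AE z' q := by
      obtain ⟨m, hm, h3⟩ := hAE
      exact ⟨m, hm, fun n hn h4 => h3 n (hzz n hn) h4⟩
    have h3 := cap_inf hz' h2
    refine ⟨h3, h.mono (cap z q) (cap z' q) A A' (hcq z) h1.1 h3 ?_ hAA hA' h1.2⟩
    intro k hk
    exact mem_cap.2 ⟨hzz k (mem_cap.1 hk).1, (mem_cap.1 hk).2⟩
  · intro z A B _ h1 h2
    exact ⟨h1.1, h.inter (cap z q) A B (hcq z) h1.1 h1.2 h2.2⟩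
  · intro z A _ h1
    exact h.ne (cap z q) A (hcq z) h1.1 h1.2
  · intro z A hz hAE hA
    obtain ⟨z', h1, h2, h3⟩ := h.tot (cap z q) A (hcq z) (cap_inf hz hAE) hA
    have e : cap z' q = z' := ext fun k => by
      rw [mem_cap]
      exact ⟨fun hk => hk.1, fun hk => ⟨hk, (mem_cap.1 (h1 k hk)).2⟩⟩
    refine ⟨z', h2, fun k hk => (mem_cap.1 (h1 k hk)).1, ?_⟩
    rw [e]
    rcases h3 with h3 | h3
    · exact Or.inl ⟨h2, h3⟩
    · exact Or.inr ⟨h2, h3⟩

end Pool.Agent.ZFIter.NPA.BSM.SP
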