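import Pool.Agent.BSP.KNice
import Pool.Agent.BSP.ARel0

/-!
# BSP/ZPs: in the Levy extension an ultrafilter of the ground model has a pseudo-intersection

`p` is an ultrafilter of `M`, `p ⊆ pow omega` is small (`small_pow`, `small_mem`, `small_sub`), so by `lev_ctb`
there is `f : omega → can F p` onto in `F.Ext`. By induction on `k ∈ omega` (in `F.Ext`) the set
`W k := {n ∈ can F q' : ∀ i ∈ succ k, n ∈ ap f i}` is an element of `can F p` (elements of `can F p` are `can F a`,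
`a ∈ p`; `sep (can F a) (· ∈ can F b) = can F (sep a (· ∈ b))`), so it is infinite: elements of `p` are infinite
(`Uf p`, `Nonpr p`: a finite set is not in `p`), `em_InfS`. Let `g k` be the least `n ∈ omega` with `k ⊆ n`,
`n ∈ W k` (`DF.least`), `y := img omega g`. `y` is infinite, `y ⊆ can F q'`; for `j ∈ omega` and `k ⊇ j`,
`g k ∈ ap f j`; let `m ∈ omega` be above all `g k`, `k ∈ j` (`omega_induction` on `j`); so every `n ∈ y` with
`m ⊆ n` is in `ap f j`.
-/

universe u

namespace Pool.Agent.ZFIter.NPA.BSM.SP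

open Pool.Agent.H78.ZF Pool.Agent.ZFIter Pool.Agent.ZFIter.NPA

variable {M : Type u} [ZFM M]

private theorem uf_inf {p : M} (hp : Uf p) (hn : Nonpr p) {a : M} (ha : a ∈ p) : InfS a := by
  obtain ⟨h1, h2, h3, h4, h5, h6⟩ := hp
  have key : ∀ m, m ∈ (omega : M) → ∀ A, A ∈ p → ¬ A ⊆ m := by
    refine omega_induction (fun m => ∀ A, A ∈ p → ¬ A ⊆ m) ?_ ?_
    · intro A hA hsub
      have e : A = emp := ext fun z => ⟨fun hz => hsub z hz, fun hz => absurd hz (not_mem_emp z)⟩
      rw [e] at hA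
      exact h3 hA
    · intro m hm ih A hA hsub
      have hs : sing m ⊆ omega := by
        intro z hz
        rw [mem_sing] at hz
        rw [hz]
        exact hm
      rcases h6 (sing m) hs with h | h
      · exact hn m hm h
      · refine ih _ (h4 A _ hA h) ?_
        intro z hz
        rw [mem_sep, mem_sep, mem_sing] at hz
        rcases (mem_succ _ _).1 (hsub z hz.1) with h' | h'
        · exact h'
        · exact absurd h' hz.2.2
  refine ⟨h1 a ha, fun m hm => ?_⟩
  by_contra hc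
  refine key m hm a ha fun n hna => ?_
  rcases le_or_lt hm (h1 a ha n hna) with h | h
  · exact absurd ⟨n, hna, h⟩ hc
  · exact h

/-- the next element of the pseudo-intersection -/
private noncomputable def gn (q f k : M) : M :=
  least (fun n => k ⊆ n ∧ n ∈ q ∧ ∀ i, i ∈ succ k → n ∈ ap f i)

private instance df_gn {ι : Type} (q f k : (ι → M) → M) [DF q] [DF f] [DF k] :
    DF (fun v => gn (q v) (f v) (k v)) := by
  unfold gn
  infer_instance

theorem exists_pseudo {F : Fo M} {κ p q' : M} (hκ : Inacc κ) (hF : IsLev F κ) (hp : Uf p)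
    (hn : Nonpr p) (hq : q' ∈ p) :
    ∃ y : F.Ext, InfS y ∧ y ⊆ can F q' ∧ ∀ a, a ∈ p → AE y (can F a) := by
  have hne : p ≠ emp := ne_emp_iff.2 ⟨q', hq⟩
  have hsm : Small κ p := small_sub (small_pow hκ (small_mem hκ.2.1)) (fun a ha => by
    rw [mem_pow]
    exact hp.1 a ha)
  obtain ⟨f, hf, hsurj⟩ := lev_ctb hκ hF hsm hne
  have hinf : ∀ c, c ∈ can F p → InfS c := by
    intro c hc
    obtain ⟨a, ha, rfl⟩ := em_elim.1 hc
    exact em_InfS.2 (uf_inf hp hn ha)
  have hP : ∀ k, k ∈ (omega : F.Ext) →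
      ∃ c, c ∈ can F p ∧ c ⊆ can F q' ∧ ∀ i, i ∈ k → c ⊆ ap f i := by
    refine omega_induction (fun k : F.Ext =>
      ∃ c, c ∈ can F p ∧ c ⊆ can F q' ∧ ∀ i, i ∈ k → c ⊆ ap f i) ?_ ?_
    · exact ⟨can F q', em_mem.2 hq, sub_refl _, fun i hi => absurd hi (not_mem_emp i)⟩
    · rintro k hk ⟨c, hc, hcq, hci⟩
      have hfk := hf.ap_mem hk
      obtain ⟨a, ha, rfl⟩ := em_elim.1 hc
      obtain ⟨b, hb, e⟩ := em_elim.1 hfk
      have h1 : can F (sep a (fun k => k ∈ b)) ⊆ can F a := em_sub.2 (fun z hz => by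
        rw [mem_sep] at hz
        exact hz.1)
      have h2 : can F (sep a (fun k => k ∈ b)) ⊆ ap f k := by
        rw [e]
        exact em_sub.2 (fun z hz => by
          rw [mem_sep] at hz
          exact hz.2)
      refine ⟨can F (sep a (fun k => k ∈ b)), em_mem.2 (hp.2.2.2.1 a b ha hb), sub_trans h1 hcq, ?_⟩
      intro i hi
      rw [mem_succ] at hi
      rcases hi with hi | rfl
      · exact sub_trans h1 (hci i hi)
      · exact h2
  have hg : ∀ k, k ∈ (omega : F.Ext) → gn (can F q') f k ∈ (omega : F.Ext) ∧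
      k ⊆ gn (can F q') f k ∧ gn (can F q') f k ∈ can F q' ∧
        ∀ i, i ∈ succ k → gn (can F q') f k ∈ ap f i := by
    intro k hk
    obtain ⟨c, hc, hcq, hci⟩ := hP (succ k) (succ_mem_omega hk)
    obtain ⟨hcω, hcinf⟩ := hinf c hc
    obtain ⟨n, hnc, hkn⟩ := hcinf k hk
    obtain ⟨h1, ⟨h2, h3, h4⟩, _⟩ := least_spec
      (fun n => k ⊆ n ∧ n ∈ can F q' ∧ ∀ i, i ∈ succ k → n ∈ ap f i)
      ⟨n, hcω n hnc, hkn, hcq n hnc, fun i hi => hci i hi n hnc⟩
    exact ⟨h1, h2, h3, h4⟩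
  have hb : ∀ j, j ∈ (omega : F.Ext) →
      ∃ m, m ∈ (omega : F.Ext) ∧ ∀ k, k ∈ j → gn (can F q') f k ∈ m := by
    refine omega_induction (fun j : F.Ext =>
      ∃ m, m ∈ (omega : F.Ext) ∧ ∀ k, k ∈ j → gn (can F q') f k ∈ m) ?_ ?_
    · exact ⟨emp, emp_mem_omega, fun k hk => absurd hk (not_mem_emp k)⟩
    · rintro j hj ⟨m, hm, h⟩
      obtain ⟨h1, _⟩ := hg j hj
      have h2 := un_omega hm h1
      refine ⟨succ (un m (gn (can F q') f j)), succ_mem_omega h2, ?_⟩
      intro k hk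
      rw [mem_succ] at hk
      rcases hk with hk | rfl
      · rw [mem_succ]
        exact Or.inl (sub_un_left _ _ _ (h k hk))
      · rw [lt_succ_iff h1 h2]
        exact sub_un_right _ _
  refine ⟨img omega (fun k => gn (can F q') f k), ⟨?_, ?_⟩, ?_, ?_⟩
  · intro w hw
    rw [mem_img] at hw
    obtain ⟨k, hk, rfl⟩ := hw
    exact (hg k hk).1
  · intro m hm
    refine ⟨gn (can F q') f m, ?_, (hg m hm).2.1⟩
    rw [mem_img]
    exact ⟨m, hm, rfl⟩
  · intro w hw
    rw [mem_img] at hw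
    obtain ⟨k, hk, rfl⟩ := hw
    exact (hg k hk).2.2.1
  · intro a ha
    obtain ⟨j, hj, e⟩ := hsurj a ha
    obtain ⟨m, hm, h⟩ := hb j hj
    refine ⟨m, hm, ?_⟩
    intro w hw hmw
    rw [mem_img] at hw
    obtain ⟨k, hk, rfl⟩ := hw
    rcases le_or_lt hj hk with h1 | h1
    · rw [← e]
      refine (hg k hk).2.2.2 j ?_
      rw [lt_succ_iff hj hk]
      exact h1
    · exact absurd (hmw _ (h k h1)) (not_mem_self _)

end Pool.Agent.ZFIter.NPA.BSM.SP
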