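import Pool.Agent.BSP.ARel2
import Pool.Agent.BSP.KTr

/-!
# BSP/ZQ: the conclusion of the core theorem holds in all small extensions

Hypothesis `hmain`: the conclusion of `BLI.main` for `Sm := Small κ`, `R := Rel Φ κ p b`. Let `P` be small, `F` on
`P`, `z1 : F.Ext` infinite and almost contained in all `can F a`, `a ∈ p`. CLAIM: `LF (Ph2 Φ)` holds in
`F.Ext` for `(b, (z1, (T, f)))`.

PROOF. `z1 = vr F P y` (`exists_nice`). Assume not. The relation `fun M c => ¬ Th (Ph2 Φ) M c` is uniformly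
definable and holds in `F.Ext` for the value of the name
`τ := opnm (fs P) (chk κ) (opnm (chk b) (opnm (rn P y) (opnm (chk T) (chk f))))`, so some `h1`, `F.G h1`, forces
it (`truth_Fr`); `yy_truth` gives `h0`, `F.G h0`, with `Yy P p y h0`; let `h` be a common extension.
`hmain` for `P, y, h`: `Q, g, t, z` with `Rel Φ κ p b Q z (imgN Q (Br T) f (pull Q P g y)) t`, `FSub Q z (pull ..) t`.
Let `FQ : Fo M` be on `Q` with `FQ.G t` (`exists_onQ`), and `F1', F2', e` from `quot`. `F1'.G h` since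
`ap g t ≤ h`, so `¬ LF (Ph2 Φ) (can F1' κ) (opair (can b) (opair (vr F1' P y) (opair (can T) (can f))))`
(`truth_Fr`, `val_opnm`).
By `rel_iff` in `FQ.Ext`: `LF Φ (can FQ κ) (opair (can FQ b) (opair (vr FQ Q z) (vr FQ Q (imgN ..))))`. Let `L` be
a Levy collapse over `FQ.Ext` (`exists_lev`); by `lf_of`, `Φ` holds in `L.Ext`; so `Ph2 Φ` holds in `L.Ext` for
`(can L (can FQ b), (Z, (can L (can FQ T), can L (can FQ f))))`, `Z := can L (vr FQ Q (pull Q P g y))`: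
`z' := can L (vr FQ Q z)`, infinite (`em_InfS`), a subset of `Z` (`fsub_iff`, `em_sub`), and
`can L (vr FQ Q (imgN ..)) = fim .. Z` (`mem_vr_imgN`, `em_Br`, `em_ap`, `em_elim`: the branches of
`can L (can FQ T)` are the `can L (can FQ s)`, `s ∈ Br T`; `em_sub`). By `lf_of` `LF (Ph2 Φ)` holds in `FQ.Ext`
for `(can FQ b, (vr FQ Q (pull Q P g y), ..))`, and by `lf_quot` (`vr_pull`; `e` commutes with `opair`:
`em_opair`, `tem_equiv`) in `F1'.Ext` for `(can b, (vr F1' P y, ..))`. Contradiction.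
-/

universe u

namespace Pool.Agent.ZFIter.NPA.BSM.SP

open Pool.Agent.H78.ZF Pool.Agent.ZFIter Pool.Agent.ZFIter.NPA

variable {Φ : ∀ (M : Type u) [ZFM M], M → Prop} [hΦ : U1 Φ] {M : Type u} [ZFM M]

private noncomputable def tq (P κ b y T f : M) : M :=
  opnm (fs P) (chk (fs P) κ) (opnm (fs P) (chk (fs P) b) (opnm (fs P) (rn P y)
    (opnm (fs P) (chk (fs P) T) (chk (fs P) f))))

private theorem val_tq {F : Fo M} {P : M} (hF : OnQ F P) (κ b y T f : M) :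
    F.val (tq P κ b y T f) = opair (can F κ) (opair (can F b)
      (opair (vr F P y) (opair (can F T) (can F f)))) := by
  unfold tq
  rw [← hF.1, val_opnm, val_opnm, val_opnm, val_opnm]
  unfold vr can
  rfl

private theorem can_fim {F : Fo M} {Q T f y : M} (hF : OnQ F Q) (hQ : BLI.Po Q) (hT : BLI.Tr T)
    (hf : Fun f BLI.fsw omega) (L : Fo F.Ext) :
    can L (vr F Q (BLI.imgN Q (BLI.Br T) f y)) =
      fim (can L (can F T)) (can L (can F f)) (can L (vr F Q y)) := by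
  have hB : BLI.Br T ⊆ BLI.fsw := fun s hs => hT.1 s (BLI.mem_Br.1 hs).1
  have hfo : ∀ s, s ∈ BLI.Br T → ap f s ∈ (omega : M) := fun s hs => hf.ap_mem (hB s hs)
  have eB : BLI.Br (can L (can F T)) = can L (can F (BLI.Br T)) := by
    rw [em_Br (i := can F), em_Br (i := can L)]
  refine Pool.Agent.H78.ZF.ext fun z => ?_
  rw [em_elim, mem_fim, eB]
  constructor
  · rintro ⟨w, hw, rfl⟩
    have hwo : w ∈ (omega : F.Ext) := vr_sub hF w hw
    obtain ⟨s, hs, hsy, rfl⟩ := (mem_vr_imgN hF hQ hB hfo).1 hw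
    refine ⟨?_, can L s, em_mem.2 hs, em_sub.2 hsy, ?_⟩
    · rw [← em_omega (i := can L)]
      exact em_mem.2 hwo
    · rw [em_ap (i := can L)]
  · rintro ⟨_, s, hs, hsy, rfl⟩
    obtain ⟨s, hs', rfl⟩ := em_elim.1 hs
    refine ⟨ap (can F f) s, (mem_vr_imgN hF hQ hB hfo).2 ⟨s, hs', em_sub.1 hsy, rfl⟩, ?_⟩
    rw [em_ap (i := can L)]

theorem small_step [Countable M] (hAC : AC M) {κ b p T f : M} (hκ : Inacc κ) (hT : BLI.Tr T)
    (hf : Fun f BLI.fsw omega)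
    (hmain : ∀ P y h, BLI.SP (Small κ) P → BLI.Yy P p y h → ∃ Q g q z, BLI.SP (Small κ) Q ∧
      BLI.IsGen Q P g ∧ q ∈ fs Q ∧ BLI.LE P (ap g q) h ∧ BLI.FInf Q z q ∧
      BLI.FSub Q z (BLI.pull Q P g y) q ∧
      Rel Φ κ p b Q z (BLI.imgN Q (BLI.Br T) f (BLI.pull Q P g y)) q)
    {P : M} (hP : BLI.SP (Small κ) P) {F : Fo M} (hF : OnQ F P) {z1 : F.Ext} (h1 : InfS z1)
    (h2 : ∀ a, a ∈ p → AE z1 (can F a)) :
    LF (Ph2 Φ) (can F κ) (opair (can F b) (opair z1 (opair (can F T) (can F f)))) := by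
  obtain ⟨y, rfl⟩ := exists_nice hF hP.1 h1.1
  by_contra hcon
  have hU : U1 (fun (M : Type u) [ZFM M] (x : M) => ¬ Th (Ph2 Φ) M x) := by infer_instance
  have h3 : ¬ Th (Ph2 Φ) F.Ext (F.val (tq P κ b y T f)) := by
    rw [val_tq hF]
    unfold Th
    rw [fs_opair, sn_opair]
    exact hcon
  obtain ⟨k1, hk1, hFr⟩ := (truth_Fr (fun (M : Type u) [ZFM M] (x : M) => ¬ Th (Ph2 Φ) M x) F
    (tq P κ b y T f)).1 h3
  obtain ⟨k0, hk0, hY⟩ := yy_truth (p := p) hP.1 hF h1 h2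
  obtain ⟨h, hh, hle0, hle1⟩ := onQ_dir hF hk0 hk1
  have hYh : BLI.Yy P p y h := BLI.Yy.down hP.1 hY hle0
  obtain ⟨Q, g, q, z, hQ, hgen, hq, hgq, hinf, hsub, hrel⟩ := hmain P y h hP hYh
  obtain ⟨FQ, hFQ, hGq⟩ := exists_onQ hQ.1 hq
  obtain ⟨F1, F2, hF1, hG, h2', e, he, hc⟩ := quot FQ hQ.1 hP.1 hFQ hgen
  have hF1h : F1.G k1 := (hG k1).2 ⟨q, hGq, hP.1.2 _ _ _ hgq hle1⟩
  have h4 : ¬ Th (Ph2 Φ) F1.Ext (F1.val (tq P κ b y T f)) := by
    refine (truth_Fr (fun (M : Type u) [ZFM M] (x : M) => ¬ Th (Ph2 Φ) M x) F1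
      (tq P κ b y T f)).2 ⟨k1, hF1h, ?_⟩
    rw [hF.1, hF.2] at hFr
    rw [hF1.1, hF1.2]
    exact hFr
  rw [val_tq hF1] at h4
  unfold Th at h4
  rw [fs_opair, sn_opair] at h4
  apply h4
  -- the statement in the extension by `Q`
  obtain ⟨i1, _, i3⟩ := ((rel_iff hQ.1).1 hrel).2 FQ hFQ hGq
  obtain ⟨L, hL, _⟩ := exists_lev (can FQ κ) (emp_lev (κ := can FQ κ))
  have i4 := (lf_of Φ L hL).1 i3
  rw [em_opair (i := can L), em_opair (i := can L), can_fim hFQ hQ.1 hT hf L] at i4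
  have h5 : Ph2 Φ L.Ext (can L (opair (can FQ b) (opair (vr FQ Q (BLI.pull Q P g y))
      (opair (can FQ T) (can FQ f))))) := by
    rw [em_opair (i := can L), em_opair (i := can L), em_opair (i := can L)]
    unfold Ph2
    simp only [fs_opair, sn_opair]
    exact ⟨can L (vr FQ Q z), em_InfS.2 i1, em_sub.2 ((fsub_iff hQ.1 hq).1 hsub FQ hFQ hGq), i4⟩
  have h6 := (lf_of (Ph2 Φ) L hL).2 h5
  refine (lf_quot (Φ := Ph2 Φ) hAC hκ hQ.2 hP.2 hFQ hF1 h2' he hc ?_).1 h6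
  have hT' : TEm (fun x => e x) := tem_equiv he
  have e1 : ∀ u v, e (opair u v) = opair (e u) (e v) := fun u v => em_opair (i := fun x => e x) u v
  rw [e1, e1, e1, hc b, hc T, hc f, vr_pull hFQ hP.1 hgen.1 hF1 hG he hc,
    em_opair (i := can F2), em_opair (i := can F2), em_opair (i := can F2)]

end Pool.Agent.ZFIter.NPA.BSM.SP
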