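import Pool.Agent.BSP.ARel
import Pool.Agent.BSP.ZPs
import Pool.Agent.BSP.ZQ
import Pool.Agent.BLI.Main

/-!
# BSP/ZCore: the Levy collapse forces `Xi`

`absRel` and `BLI.main` (with `Sm := Small κ`, `R := Rel Φ κ p b`, `smC`; `D1 (Small κ)` by `DR.Small`) give
`T, r, θ, f` with `hmain`. Take a Levy collapse `F : Fo M` of `κ` (`exists_lev`, `emp_lev`); by `lf_of` it is
enough to show `Xi Φ F.Ext (can F (opair b q'))`, `em_opair`. `y` from `exists_pseudo`; the tree `can F T`, `can F r`,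
`can F θ`, `can F f` (`em_Tr`, `em_Rkd`, `em_Fun`, `em_fsw`, `em_omega`). Let `z ⊆ y`, `A ⊆ omega`, `P3 Φ (can F b) z A`.
By `nw` (KTr; `F.Ext` is countable, `ac_ext`) there is an infinite `x ⊆ z` such that all branches `s ⊆ x` have
`ap f s ∈ A` (done), or all have `ap f s ∉ A`. Assume the second.
`lev_split`, `split_mem` for `x` (`c := omega`): `μ ∈ κ`, `F1` on `Lev μ`, `F2`, `e : F.Ext ≃ F2.Ext`, `x1 : F1.Ext` with
`e x = can F2 x1`. `x1` is infinite and almost contained in all `can F1 a`, `a ∈ p` (`em_InfS`, `em_AE` for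
`can F2` and `e` (`tem_equiv`)). `small_step` for `P := opair (Lev μ) (LevR μ)` (`small_lev`, `po_of_pre`):
`LF (Ph2 Φ)` in `F1.Ext`, so `Ph2 Φ F2.Ext ..` (`lf_of`), so `Ph2 Φ F.Ext (opair (can F b) (opair x (opair (can F T)
(can F f))))` (`UR.iso` for `e`): some infinite `z2 ⊆ x` has `P3 Φ (can F b) z2 (fim (can F T) (can F f) x)`.
`UAx Φ F.Ext (opair (can F b) (can F q))` (`lf_of`); all sets are almost contained in `can F q` (`q ∈ p`).
mono: `P3 Φ (can F b) z2 A`; inter: `P3 Φ (can F b) z2 (fim ∩ A)`; ne: some `n` is in `fim` and in `A`;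
contradiction to the second alternative.
-/

universe u

namespace Pool.Agent.ZFIter.NPA.BSM.SP

open Pool.Agent.H78.ZF Pool.Agent.ZFIter Pool.Agent.ZFIter.NPA

variable {Φ : ∀ (M : Type u) [ZFM M], M → Prop} [hΦ : U1 Φ] {M : Type u} [ZFM M]

omit hΦ in
private theorem ae_mono {z y q : M} (h : AE y q) (hzy : z ⊆ y) : AE z q := by
  obtain ⟨m, hm, h1⟩ := h
  exact ⟨m, hm, fun n hn hmn => h1 n (hzy n hn) hmn⟩

theorem zcore [Countable M] (hAC : AC M) {κ b q q' p : M} (hκ : Inacc κ) (hp : Selective p)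
    (hq : q ∈ p) (hq' : q' ∈ p) (hax : LF (UAx Φ) κ (opair b q)) :
    LF (Xi Φ) κ (opair b q') := by
  have hD1 : D1 (Small κ) := ⟨by infer_instance⟩
  have hSm : BLI.SmC (Small κ) := smC hκ
  obtain ⟨-, -, T, r, θ, f, hT, hr, hf, hmain⟩ :=
    BLI.main hAC hSm hp (absRel (Φ := Φ) (b := b) hAC hκ hq hax)
  obtain ⟨F, hF, -⟩ := exists_lev κ (emp_lev (κ := κ))
  rw [lf_of (Xi Φ) F hF, em_opair (i := can F)]
  obtain ⟨y, hy, hyq, hyp⟩ := exists_pseudo hκ hF hp.1 hp.2.1 hq'
  refine ⟨y, can F T, can F r, can F θ, can F f, hy, ?_, (em_Tr (i := can F)).2 hT,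
    (em_Rkd (i := can F)).2 hr, ?_, ?_⟩
  · rw [sn_opair]
    exact hyq
  · rw [← em_fsw (i := can F), ← em_omega (i := can F)]
    exact (em_Fun (i := can F)).2 hf
  · rw [fs_opair]
    intro z A hz hzy hA hPz
    obtain ⟨x, hx, hxz, h | h⟩ := nw (ac_ext hAC) (T := can F T) (f := can F f) (A := A)
      ((em_Tr (i := can F)).2 hT) hz
    · exact ⟨x, hx, hxz, h⟩
    · exfalso
      have hx' : x ⊆ can F omega := by
        rw [em_omega (i := can F)]
        exact hx.1
      obtain ⟨μ, hμ, hsp⟩ := split_mem hκ F hF (small_mem hκ.2.1) hx'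
      obtain ⟨F1, F2, hF1, hG1, hF2, e, he, hc⟩ := lev_split hAC hκ F hF hμ
      obtain ⟨x1, hx1⟩ := hsp μ (sub_refl _) hμ F1 F2 e hF1 hG1 he hc
      have hTe : TEm (fun x => e x) := tem_equiv he
      have hi1 : InfS x1 := by
        rw [← em_InfS (i := can F2), ← hx1]
        exact (em_InfS (i := fun x => e x)).2 hx
      have hae1 : ∀ a, a ∈ p → AE x1 (can F1 a) := by
        intro a ha
        rw [← em_AE (i := can F2), ← hx1, ← hc a]
        exact (em_AE (i := fun x => e x)).2 (ae_mono (hyp a ha) (sub_trans hxz hzy))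
      have hPP : BLI.SP (Small κ) (opair (Lev μ) (LevR μ)) :=
        ⟨po_of_pre (pre_lev (κ := μ)), by rw [fs_opair]; exact small_lev hκ hμ⟩
      have hOn : OnQ F1 (opair (Lev μ) (LevR μ)) :=
        ⟨by rw [fs_opair]; exact hF1.1, by rw [sn_opair]; exact hF1.2⟩
      have hstep := small_step (Φ := Φ) hAC hκ hT hf hmain hPP hOn hi1 hae1
      rw [lf_of (Ph2 Φ) F2 hF2, em_opair (i := can F2), em_opair (i := can F2),
        em_opair (i := can F2), ← hc, ← hc, ← hc, ← hx1] at hstep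
      have e1 : ∀ u v, e (opair u v) = opair (e u) (e v) :=
        fun u v => em_opair (i := fun x => e x) u v
      rw [← e1, ← e1, ← e1] at hstep
      have hstep2 : Ph2 Φ F.Ext (opair (can F b) (opair x (opair (can F T) (can F f)))) :=
        (UR.iso (fun (M : Type u) [ZFM M] (v : Unit → M) => Ph2 Φ M (v ())) e he
          (fun _ => opair (can F b) (opair x (opair (can F T) (can F f))))).1 hstep
      obtain ⟨z2, hz2, hz2x, h3⟩ := hstep2
      simp only [fs_opair, sn_opair] at hz2x h3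
      have hU := (lf_of (UAx Φ) F hF).1 hax
      rw [em_opair (i := can F)] at hU
      obtain ⟨u1, u2, u3, -⟩ := hU
      rw [fs_opair, sn_opair] at u1 u2 u3
      have haz : AE z (can F q) := ae_mono (hyp q hq) hzy
      have haz2 : AE z2 (can F q) := ae_mono haz (sub_trans hz2x hxz)
      have h4 := u1 z z2 A A haz hz2 (sub_trans hz2x hxz) (sub_refl _) hA hPz
      obtain ⟨n, hn⟩ := u3 z2 _ haz2 (u2 z2 _ A haz2 h3 h4)
      rw [mem_sep, mem_fim] at hn
      obtain ⟨⟨_, s, hs1, hs2, hs3⟩, hnA⟩ := hn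
      refine h s hs1 hs2 ?_
      rw [hs3]
      exact hnA

end Pool.Agent.ZFIter.NPA.BSM.SP
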