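import Pool.Agent.BSP.ZGd
import Pool.Agent.BSP.ZAx
import Pool.Agent.BLI.GpT

/-!
# BSP/ZFin: the last step, in the model `N`

* `exists_br`: otherwise the set of all `s ∈ T` with `s ⊆ z` contains `emp` and, with `s`, some `ins s n`, `n ∈ z`
  above `s` (if `s ∈ T` is not a branch, `ins s m ∈ T` for some `m` above `s`, so `ins s n ∈ T` for all `n` above `s`
  by `Tr`; `z` is infinite, `s` finite so bounded): contradiction to `WfT`.
* `exists_good`: `gen_meet` for `y := q`, `P x := Gd (PhiOf Ψ) N (opair b x)`, `b = ((s, r), q)`; `hK`: `s`, `r`, `q` are in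
  `K` (`Inner.ord`, `hR`, `inner_sub_omega`), `P' x := Gd (PhiOf Ψ) (Sub K) (opair b' x)`, `gd_abs`; `D1` by
  `U1.comp`, `UR.dr` (parameters: `DR.subst` with constants). `hd`: `hXi x` gives `y' ⊆ x`, `T, r', θ, f`
  (`BLI.Rkd.wf`).
* `meet2`: let `A ∈ U`; some `z ∈ p`, `z ⊆ q`, `Ψ N s r z A`. Let `y := cap z x ∈ p`; `gen_meet` for `y` and
  `P w := ∀ s, s ∈ Br T → s ⊆ w → ap f s ∈ A`; `hK`: `T, f, A` are in `K`, the same formula in `Sub K` (`em_Br`, `em_ap`,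
  `em_sub`). `hd`: `w ⊆ y` infinite: `Ψ N s r w A` by `mono` (`w ⊆ z ⊆ q`, `A ⊆ omega`), so `P3 (PhiOf Ψ) b w A`
  (`p3_PhiOf`, `cap w q = w`), and the code gives `w' ⊆ w`.
* `zfin`: `BLI.gp_of_tree` with `sel_genLR`, `exists_good`: let `A ⊆ omega`, `z ∈ p`, `f[Br T | z] ⊆ A`. If `A ∉ U`
  then `omega ∖ A ∈ U`, `meet2` gives `w ∈ p`; `cap z w ∈ p` is infinite, `exists_br` gives `s ∈ Br T`,
  `s ⊆ cap z w`, so `ap f s` is in `A` and not in `A`.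
-/

universe u

namespace Pool.Agent.ZFIter.NPA.BSM.SP

open Pool.Agent.H78.ZF Pool.Agent.ZFIter Pool.Agent.ZFIter.NPA

variable {N : Type u} [ZFM N]

theorem exists_br {T z : N} (hT : BLI.Tr T) (hw : BLI.WfT T) (hz : InfS z) :
    ∃ s, s ∈ BLI.Br T ∧ s ⊆ z := by
  by_contra hc
  push Not at hc
  obtain ⟨s, hs, hmin⟩ := hw (sep T (fun s => s ⊆ z)) (fun y hy => ((mem_sep _ _ _).1 hy).1)
    (ne_emp_iff.2 ⟨emp, (mem_sep _ _ _).2 ⟨hT.2.1, emp_sub _⟩⟩)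
  rw [mem_sep] at hs
  have hb : s ∉ BLI.Br T := fun h => hc s h hs.2
  rw [BLI.mem_Br] at hb
  push Not at hb
  obtain ⟨m, hm, ham, hm'⟩ := hb hs.1
  obtain ⟨n, hn, hmn⟩ := hz.2 m hm
  have han : ∀ i, i ∈ s → i ∈ n := fun i hi => hmn i (ham i hi)
  have hno := hz.1 n hn
  refine hmin n hno han ((mem_sep _ _ _).2 ⟨hT.2.2.2 s m n hs.1 hm hno ham han hm', ?_⟩)
  intro i hi
  rw [mem_ins] at hi
  rcases hi with h | rfl
  · exact hs.2 i h
  · exact hn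

variable {Ψ : ∀ (N : Type u) [ZFM N], N → N → N → N → Prop}
  [hΨ : UR (fun M _ (v : Fin 4 → M) => Ψ M (v 0) (v 1) (v 2) (v 3))]

include hΨ

private theorem d1_gd {M : Type u} [ZFM M] (s r q : M) :
    D1 (fun x : M => Gd (PhiOf Ψ) M (opair (opair (opair s r) q) x)) := by
  have h1 : UR (fun M _ (v : Fin 4 → M) =>
      Gd (PhiOf Ψ) M (opair (opair (opair (v 0) (v 1)) (v 2)) (v 3))) :=
    U1.comp (Gd (PhiOf Ψ)) (fun M _ (v : Fin 4 → M) =>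
      opair (opair (opair (v 0) (v 1)) (v 2)) (v 3))
  have h2 : DR (fun v : Fin 4 → M =>
      Gd (PhiOf Ψ) M (opair (opair (opair (v 0) (v 1)) (v 2)) (v 3))) :=
    UR.dr (fun M _ (v : Fin 4 → M) =>
      Gd (PhiOf Ψ) M (opair (opair (opair (v 0) (v 1)) (v 2)) (v 3))) M
  have h3 : ∀ o : Fin 4, DF (M := M) (ι := Unit)
      ((fun o v => ![s, r, q, v ()] o : Fin 4 → (Unit → M) → M) o) := by
    intro o
    fin_cases o
    · exact DF.const s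
    · exact DF.const r
    · exact DF.const q
    · exact DF.var ()
  exact ⟨@DR.subst M _ Unit (Fin 4) _ _ h2 (fun o v => ![s, r, q, v ()] o) h3⟩

variable (habs : ∀ (K : N → Prop) [Inner K], (∀ x, x ∈ (RS : N) → K x) →
    ∀ s r z A : Sub K, Ψ (Sub K) s r z A ↔ Ψ N s.1 r.1 z.1 A.1)

include habs

theorem exists_good {p s r q : N} (hp : Uf p) (hn : Nonpr p) (hg : GenLR p) (hs : Ord s)
    (hr : r ∈ (RS : N)) (hq : q ∈ p) (hqi : InfS q)
    (hXi : ∀ q', InfS q' → q' ⊆ q → Xi (PhiOf Ψ) N (opair (opair (opair s r) q) q')) :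
    ∃ x T f, x ∈ p ∧ x ⊆ q ∧ InfS x ∧ BLI.Tr T ∧ BLI.WfT T ∧ Fun f BLI.fsw omega ∧
      Cd (PhiOf Ψ) (opair (opair s r) q) x T f := by
  have hd1 := d1_gd (Ψ := Ψ) s r q
  obtain ⟨x, hx, hxq, hxi, T, f, h1, h2, h3, h4⟩ := gen_meet hp hn hg hq
    (fun x => Gd (PhiOf Ψ) N (opair (opair (opair s r) q) x)) (by
      intro K hK hR
      obtain ⟨s', hs'⟩ := inc_mk (K := K) (Inner.ord s hs)
      obtain ⟨r', hr'⟩ := inc_mk (K := K) (hR r hr)
      obtain ⟨q', hq'⟩ := inc_mk (K := K) (inner_sub_omega hR hqi.1)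
      refine ⟨fun x => Gd (PhiOf Ψ) (Sub K) (opair (opair (opair s' r') q') x), d1_gd s' r' q',
        fun x _ => ?_⟩
      rw [← hs', ← hr', ← hq']
      exact gd_abs hR (habs K hR)) (by
      intro x hx hxq
      obtain ⟨y, T, r', θ, f, h1, h2, h3, h4, h5, h6⟩ := hXi x hx hxq
      rw [sn_opair] at h2
      refine ⟨y, h1, h2, T, f, h3, h4.wf, h5, ?_⟩
      rw [fs_opair] at h6 ⊢
      rw [sn_opair]
      exact h6)
  rw [fs_opair, sn_opair] at h4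
  exact ⟨x, T, f, hx, hxq, hxi, h1, h2, h3, h4⟩

theorem meet2 {p s r q x T f A z : N} (hp : Uf p) (hn : Nonpr p) (hg : GenLR p) (hs : Ord s)
    (hr : r ∈ (RS : N)) (hax : PsiAx (Ψ N s r) q) (hx : x ∈ p) (hxq : x ⊆ q) (hT : BLI.Tr T)
    (hf : Fun f BLI.fsw omega) (hc : Cd (PhiOf Ψ) (opair (opair s r) q) x T f) (hA : A ⊆ omega)
    (hz : z ∈ p) (hzq : z ⊆ q) (hzA : Ψ N s r z A) :
    ∃ w, w ∈ p ∧ ∀ s, s ∈ BLI.Br T → s ⊆ w → ap f s ∈ A := by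
  have hzi := inf_of_mem hp hn hz
  have hy : cap z x ∈ p := hp.inter hz hx
  obtain ⟨w, hw, -, -, h⟩ := gen_meet hp hn hg hy
    (fun w => ∀ s, s ∈ BLI.Br T → s ⊆ w → ap f s ∈ A) (by
      intro K hK hR
      obtain ⟨T', hT'⟩ := inc_mk (K := K) (inner_fsw hR hT.1)
      obtain ⟨f', hf'⟩ := inc_mk (K := K) (inner_fun hR hf)
      obtain ⟨A', hA'⟩ := inc_mk (K := K) (inner_sub_omega hR hA)
      refine ⟨fun w => ∀ s, s ∈ BLI.Br T' → s ⊆ w → ap f' s ∈ A', inferInstance, fun w _ => ?_⟩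
      rw [← hT', ← hf', ← hA', ← em_Br (i := inc K)]
      constructor
      · intro h s hs hsw
        obtain ⟨s', hs', rfl⟩ := em_elim.1 hs
        rw [← em_ap]
        exact em_mem.2 (h s' hs' (em_sub.1 hsw))
      · intro h s hs hsw
        have := h (inc K s) (em_mem.2 hs) (em_sub.2 hsw)
        rw [← em_ap] at this
        exact em_mem.1 this) (by
      intro w hw hwy
      have hwz : w ⊆ z := fun k hk => (mem_cap.1 (hwy k hk)).1
      have hwx : w ⊆ x := fun k hk => (mem_cap.1 (hwy k hk)).2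
      have e : cap w q = w := by
        refine ext fun k => ?_
        rw [mem_cap]
        exact ⟨fun h => h.1, fun h => ⟨h, hxq k (hwx k h)⟩⟩
      refine hc w A hw hwx hA ?_
      rw [p3_PhiOf, e]
      exact ⟨hw, hax.mono z w A A hzq hzi hw hwz (sub_refl _) hA hzA⟩)
  exact ⟨w, hw, h⟩

theorem zfin (hAC : AC N) {p U s r q : N} (hp : Uf p) (hn : Nonpr p) (hg : GenLR p) (hU : Uf U)
    (hs : Ord s) (hr : r ∈ (RS : N)) (hq : q ∈ p) (hqi : InfS q) (hax : PsiAx (Ψ N s r) q)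
    (ht : ∀ A, A ⊆ omega → (A ∈ U ↔ ∃ z, z ∈ p ∧ z ⊆ q ∧ Ψ N s r z A))
    (hXi : ∀ q', InfS q' → q' ⊆ q → Xi (PhiOf Ψ) N (opair (opair (opair s r) q) q')) :
    InGp p U := by
  obtain ⟨x, T, f, hx, hxq, hxi, hT, hw, hf, hc⟩ := exists_good habs hp hn hg hs hr hq hqi hXi
  refine BLI.gp_of_tree hAC (sel_genLR hp hn hg) hT hw hU
    (fun s hs => hf.ap_mem (hT.1 s ((BLI.mem_Br.1 hs).1))) ?_
  rintro A hA ⟨z, hz, h⟩
  by_contra hcon
  have h1 := BLI.UF.compl hU hA hcon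
  obtain ⟨z1, hz1, hz1q, h2⟩ := (ht _ (BLI.UF.sub hU h1)).1 h1
  obtain ⟨w, hw1, h3⟩ := meet2 habs hp hn hg hs hr hax hx hxq hT hf hc (BLI.UF.sub hU h1) hz1 hz1q h2
  have h4 : cap z w ∈ p := hp.inter hz hw1
  obtain ⟨t, ht1, ht2⟩ := exists_br hT hw (inf_of_mem hp hn h4)
  have h5 := h t ht1 fun k hk => (mem_cap.1 (ht2 k hk)).1
  have h6 := h3 t ht1 fun k hk => (mem_cap.1 (ht2 k hk)).2
  unfold BLI.dif at h6
  rw [mem_sep] at h6
  exact h6.2 h5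

end Pool.Agent.ZFIter.NPA.BSM.SP
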