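import Pool.Agent.BSP.ZMeet
import Pool.Agent.BSP.ARel0

/-!
# BSP/ZGd: codes are absolute between `N` and its inner models with all reals

`habs`: `Ψ` is absolute between `Sub K` and `N`. All subsets of `omega` of `N` are in `K` (`inner_sub_omega`),
so the quantifiers over `z, A ⊆ omega` in `Cd` range over the same sets; `InfS`, `⊆`, `cap`, `Br`, `ap` are absolute
(`em_InfS`, `em_sub`, `em_Br`, `em_ap` for `i := inc K`; the elements of `Br (inc K T)` are `inc K s`, `em_elim`), and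
`P3 (PhiOf Ψ)` by `p3_PhiOf` and `habs` (`em_opair` for the parameter). Note `inc K x = x.1` by definition.
`gd_abs`: in addition all `T ⊆ fsw` and `f : fsw → omega` of `N` are in `K` (`inner_fsw`, `inner_fun`); `em_Tr`,
`inner_wf`, `em_Fun`, `em_fsw`, `em_omega`.
-/

universe u

namespace Pool.Agent.ZFIter.NPA.BSM.SP

open Pool.Agent.H78.ZF Pool.Agent.ZFIter Pool.Agent.ZFIter.NPA

/-- Some `(T, f)` is a code below `x`; `c = (b, x)`. -/
def Gd (Φ : ∀ (M : Type u) [ZFM M], M → Prop) : ∀ (M : Type u) [ZFM M], M → Prop := fun M _ c =>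
  ∃ T f : M, BLI.Tr T ∧ BLI.WfT T ∧ Fun f BLI.fsw omega ∧ Cd Φ (fs c) (sn c) T f

instance u1_Gd (Φ : ∀ (M : Type u) [ZFM M], M → Prop) [hΦ : U1 Φ] : U1 (Gd Φ) := by
  constructor
  unfold Gd
  infer_instance

section

variable {N : Type u} [ZFM N] {K : N → Prop} [hK : Inner K]
  {Ψ : ∀ (N : Type u) [ZFM N], N → N → N → N → Prop}

omit hK in
private theorem zgd_cap [Inner K] {z q : Sub K} : inc K (cap z q) = cap (inc K z) (inc K q) := by
  refine ext fun k => ?_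
  rw [em_elim, mem_cap]
  constructor
  · rintro ⟨k, hk, rfl⟩
    rw [mem_cap] at hk
    exact ⟨em_mem.2 hk.1, em_mem.2 hk.2⟩
  · rintro ⟨h1, h2⟩
    obtain ⟨k, hk, rfl⟩ := em_elim.1 h1
    exact ⟨k, mem_cap.2 ⟨hk, em_mem.1 h2⟩, rfl⟩

private theorem zgd_p3 (habs : ∀ s r z A : Sub K, Ψ (Sub K) s r z A ↔ Ψ N s.1 r.1 z.1 A.1)
    {s r q z A : Sub K} : P3 (PhiOf Ψ) (opair (opair s r) q) z A ↔
      P3 (PhiOf Ψ) (opair (opair (inc K s) (inc K r)) (inc K q)) (inc K z) (inc K A) := by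
  rw [p3_PhiOf, p3_PhiOf, ← zgd_cap, em_InfS (i := inc K)]
  exact and_congr_right fun _ => habs s r (cap z q) A

theorem cd_abs (hR : ∀ x, x ∈ (RS : N) → K x)
    (habs : ∀ s r z A : Sub K, Ψ (Sub K) s r z A ↔ Ψ N s.1 r.1 z.1 A.1) {s r q y T f : Sub K} :
    Cd (PhiOf Ψ) (opair (opair s r) q) y T f ↔
      Cd (PhiOf Ψ) (opair (opair (inc K s) (inc K r)) (inc K q)) (inc K y) (inc K T) (inc K f) := by
  unfold Cd
  constructor
  · intro h z A hz hzy hA hP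
    obtain ⟨z, rfl⟩ := inc_mk (inner_sub_omega hR hz.1)
    obtain ⟨A, rfl⟩ := inc_mk (inner_sub_omega hR hA)
    rw [← em_omega (i := inc K), em_sub] at hA
    obtain ⟨z', h1, h2, h3⟩ := h z A (em_InfS.1 hz) (em_sub.1 hzy) hA ((zgd_p3 habs).2 hP)
    refine ⟨inc K z', em_InfS.2 h1, em_sub.2 h2, fun s hs hsz => ?_⟩
    rw [← em_Br (i := inc K)] at hs
    obtain ⟨s, hs', rfl⟩ := em_elim.1 hs
    rw [← em_ap (i := inc K)]
    exact em_mem.2 (h3 s hs' (em_sub.1 hsz))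
  · intro h z A hz hzy hA hP
    obtain ⟨z', h1, h2, h3⟩ := h (inc K z) (inc K A) (em_InfS.2 hz) (em_sub.2 hzy)
      (by rw [← em_omega (i := inc K)]; exact em_sub.2 hA) ((zgd_p3 habs).1 hP)
    obtain ⟨z', rfl⟩ := inc_mk (inner_sub_omega hR h1.1)
    refine ⟨z', em_InfS.1 h1, em_sub.1 h2, fun s hs hsz => ?_⟩
    have := h3 (inc K s) (by rw [← em_Br (i := inc K)]; exact em_mem.2 hs) (em_sub.2 hsz)
    rw [← em_ap (i := inc K)] at this
    exact em_mem.1 this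

theorem gd_abs (hR : ∀ x, x ∈ (RS : N) → K x)
    (habs : ∀ s r z A : Sub K, Ψ (Sub K) s r z A ↔ Ψ N s.1 r.1 z.1 A.1) {s r q y : Sub K} :
    Gd (PhiOf Ψ) (Sub K) (opair (opair (opair s r) q) y) ↔
      Gd (PhiOf Ψ) N (opair (opair (opair (inc K s) (inc K r)) (inc K q)) (inc K y)) := by
  unfold Gd
  simp only [fs_opair, sn_opair]
  constructor
  · rintro ⟨T, f, hT, hW, hf, hC⟩
    refine ⟨inc K T, inc K f, em_Tr.2 hT, ?_, ?_, (cd_abs hR habs).1 hC⟩
    · exact (inner_wf hR (em_Tr.2 hT).1).1 hW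
    · rw [← em_omega (i := inc K), ← em_fsw (i := inc K)]
      exact em_Fun.2 hf
  · rintro ⟨T, f, hT, hW, hf, hC⟩
    obtain ⟨T, rfl⟩ := inc_mk (inner_fsw hR hT.1)
    obtain ⟨f, rfl⟩ := inc_mk (inner_fun hR hf)
    refine ⟨T, f, em_Tr.1 hT, (inner_wf hR hT.1).2 hW, ?_, (cd_abs hR habs).2 hC⟩
    rw [← em_omega (i := inc K), ← em_fsw (i := inc K)] at hf
    exact em_Fun.1 hf

end

end Pool.Agent.ZFIter.NPA.BSM.SP
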