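import Pool.Agent.BSP.ZXi
import Pool.Agent.BSP.KTr

/-!
# BSP/ZIn: inner models which contain all reals

`K` is an `Inner` class of `N` with `RS ⊆ K`; `Sub K` is the inner model as a type, `Subtype.val : Sub K → N` is a
transitive embedding (`tem_sub`: `mem` by definition, `trans`: `Inner.trans`, `ord`: `Inner.ord`).

* `inner_sep`: the set `sep ⟨a, _⟩ P'` of `Sub K` is mapped to `sep a P` (`mem_em_sep` or extensionality).
* `inner_sub_omega`: `x ⊆ omega` is the set of all `n` with `ap f n = emp`, `f ∈ RS` the characteristic function of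
  its complement (values `emp`, `succ emp`; `mkf`): apply `inner_sep` to `omega` and the parameter `f`.
* `inner_pow`: `K (pow omega)`: the power set of `omega` in `Sub K` is mapped to it.
* `inner_fsw`: every `x ⊆ fsw` is in `K`: in every ZFM model there is an injection of `fsw` in `omega` (`fsw` is
  countable: `Ctb`, see BLI/Sel or NPA; with `em_fsw` take it in `Sub K`); so let `c ∈ Sub K` be an injection of
  `fsw` in `omega`; `x = {s ∈ fsw : ap c s ∈ img x (ap c)}` and `img x (ap c) ⊆ omega` is in `K`.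
* `inner_fun`: `f : fsw → omega` is in `K`: `{(c(s), f(s))}` is coded by a subset of `prod omega omega`, which is
  countable in the same way (or use an injection of `prod fsw omega` in `omega`).
* `inner_wf`: `BLI.WfT` is absolute: all subsets of `T ⊆ fsw` are in `K`.
-/

universe u

namespace Pool.Agent.ZFIter.NPA.BSM.SP

open Pool.Agent.H78.ZF Pool.Agent.ZFIter Pool.Agent.ZFIter.NPA

variable {N : Type u} [ZFM N] {K : N → Prop} [hK : Inner K]

/-- The inclusion of the inner model. -/
def inc (K : N → Prop) (x : Sub K) : N := x.1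

instance tem_inc : TEm (inc K) := by
  refine ⟨fun x y => Iff.rfl, fun x z hz => ?_, fun α hα => ?_⟩
  · exact ⟨⟨z, hK.trans z x.1 x.2 hz⟩, rfl⟩
  · exact ⟨⟨α, hK.ord α hα⟩, rfl⟩

theorem inc_mk {x : N} (h : K x) : ∃ x' : Sub K, inc K x' = x := ⟨⟨x, h⟩, rfl⟩

theorem inner_sep {a : N} (ha : K a) (P : N → Prop) [D1 P] (P' : Sub K → Prop) [D1 P']
    (h : ∀ x : Sub K, P' x ↔ P (inc K x)) : K (sep a P) := by
  obtain ⟨a', rfl⟩ := inc_mk ha
  have e : inc K (sep a' P') = sep (inc K a') P := by
    refine ext fun z => ?_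
    rw [mem_em_sep, mem_sep]
    constructor
    · rintro ⟨y, hy, hP, rfl⟩
      exact ⟨em_mem.2 hy, (h y).1 hP⟩
    · rintro ⟨hz, hP⟩
      rw [em_elim] at hz
      obtain ⟨z', hz', rfl⟩ := hz
      exact ⟨z', hz', (h z').2 hP, rfl⟩
  rw [← e]
  exact (sep a' P').2

private theorem k_inc (x : Sub K) : K (inc K x) := x.2

private theorem k_omega : K (omega : N) := by
  rw [← em_omega (i := inc K)]
  exact k_inc _

section

variable {M : Type u} [ZFM M]

/-- characteristic function, value `1` on `z` -/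
private noncomputable def chv (z k : M) : M := sep (succ emp) (fun _ => k ∈ z)

private instance DF.chv {ι : Type} (z k : (ι → M) → M) [DF z] [DF k] : DF (fun v => chv (z v) (k v)) := by
  unfold SP.chv
  infer_instance

private theorem emp_mem_chv {z k : M} : emp ∈ chv z k ↔ k ∈ z := by
  unfold chv
  rw [mem_sep]
  exact ⟨fun h => h.2, fun h => ⟨by simp, h⟩⟩

private theorem chv_mem (z k : M) : chv z k ∈ (omega : M) := by
  by_cases h : k ∈ z
  · have e : chv z k = succ emp := by
      refine ext fun y => ?_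
      unfold chv
      rw [mem_sep]
      exact ⟨fun h => h.1, fun h' => ⟨h', h⟩⟩
    rw [e]
    exact succ_mem_omega emp_mem_omega
  · have e : chv z k = emp := by
      refine eq_emp fun y hy => ?_
      unfold chv at hy
      rw [mem_sep] at hy
      exact h hy.2
    rw [e]
    exact emp_mem_omega

private noncomputable def chf (z : M) : M := mkf omega omega (fun k => chv z k)

private instance DF.chf {ι : Type} (z : (ι → M) → M) [DF z] : DF (fun v => chf (z v)) := by
  unfold SP.chf
  infer_instance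

private theorem chf_RS (z : M) : chf z ∈ (RS : M) := by
  rw [mem_RS]
  unfold chf
  exact mkf_fun fun k _ => chv_mem z k

private theorem ap_chf {z k : M} (hk : k ∈ (omega : M)) : ap (chf z) k = chv z k := by
  unfold chf
  exact ap_mkf (fun k _ => chv_mem z k) hk

private theorem ctb_fsw : Ctb (BLI.fsw : M) := by
  refine ctb_rel (fun n z => ∃ m, m ∈ (omega : M) ∧ z ⊆ m ∧ n = sq (chf z) m) ?_ ?_
  · intro z hz
    rw [BLI.mem_fsw] at hz
    obtain ⟨b, hb, h⟩ := fin_bdd hz.2 hz.1
    exact ⟨sq (chf z) b, sq_mem (chf_RS z) hb, b, hb, h, rfl⟩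
  · rintro n z z' - - ⟨m, hm, hzm, e⟩ ⟨m', hm', hzm', e'⟩
    obtain ⟨h1, h2⟩ := sq_inj (chf_RS z) (chf_RS z') hm hm' (e.symm.trans e')
    subst h1
    have h3 : ∀ k, k ∈ m → (k ∈ z ↔ k ∈ z') := by
      intro k hk
      have hko : k ∈ (omega : M) := omega_sub hm k hk
      have h4 := h2 k hk
      rw [ap_chf hko, ap_chf hko] at h4
      rw [← emp_mem_chv (z := z), ← emp_mem_chv (z := z'), h4]
    refine ext fun k => ⟨fun hk => (h3 k (hzm k hk)).1 hk, fun hk => (h3 k (hzm' k hk)).2 hk⟩

end

variable (hR : ∀ x, x ∈ (RS : N) → K x)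

include hR

theorem inner_sub_omega {x : N} (hx : x ⊆ omega) : K x := by
  obtain ⟨f, hf⟩ := inc_mk (hR _ (chf_RS x))
  have e : x = sep omega (fun n => emp ∈ ap (chf x) n) := by
    refine ext fun n => ?_
    rw [mem_sep]
    constructor
    · intro hn
      exact ⟨hx n hn, by rw [ap_chf (hx n hn), emp_mem_chv]; exact hn⟩
    · rintro ⟨hn, h⟩
      rwa [ap_chf hn, emp_mem_chv] at h
  rw [e]
  refine inner_sep k_omega (fun n => emp ∈ ap (chf x) n)
    (fun n => (emp : Sub K) ∈ ap f n) fun n => ?_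
  rw [← hf, ← em_ap (i := inc K), ← em_emp (i := inc K), em_mem (i := inc K)]

theorem inner_pow : K (pow omega) := by
  have e : inc K (pow omega) = pow omega := by
    refine ext fun z => ?_
    rw [em_elim, mem_pow]
    constructor
    · rintro ⟨y, hy, rfl⟩
      rw [mem_pow] at hy
      rw [← em_omega (i := inc K), em_sub]
      exact hy
    · intro hz
      obtain ⟨z', rfl⟩ := inc_mk (inner_sub_omega hR hz)
      refine ⟨z', ?_, rfl⟩
      rw [mem_pow, ← em_sub (i := inc K), em_omega (i := inc K)]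
      exact hz
  rw [← e]
  exact k_inc _

private theorem inner_ctb {Y : Sub K} (hY : Ctb Y) {x : N} (hx : x ⊆ inc K Y) : K x := by
  obtain ⟨c, hc⟩ := hY
  have hc' : Inj (inc K c) (inc K Y) omega := by
    have := (em_Inj (i := inc K)).2 hc
    rwa [em_omega (i := inc K)] at this
  obtain ⟨A, hA⟩ : ∃ A, A = img x (fun s => ap (inc K c) s) := ⟨_, rfl⟩
  have hAo : A ⊆ omega := by
    intro z hz
    rw [hA, mem_img] at hz
    obtain ⟨s, hs, rfl⟩ := hz
    exact hc'.fun.ap_mem (hx s hs)
  obtain ⟨A', hA'⟩ := inc_mk (inner_sub_omega hR hAo)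
  have e : x = sep (inc K Y) (fun s => ap (inc K c) s ∈ A) := by
    refine ext fun s => ?_
    rw [mem_sep]
    constructor
    · intro hs
      exact ⟨hx s hs, by rw [hA, mem_img]; exact ⟨s, hs, rfl⟩⟩
    · rintro ⟨hs, h⟩
      rw [hA, mem_img] at h
      obtain ⟨t, ht, h1⟩ := h
      rw [hc'.ap_inj hs (hx t ht) h1]
      exact ht
  rw [e]
  refine inner_sep Y.2 (fun s => ap (inc K c) s ∈ A)
    (fun s => ap c s ∈ A') fun s => ?_
  rw [← hA', ← em_ap (i := inc K), em_mem (i := inc K)]

theorem inner_fsw {x : N} (hx : x ⊆ BLI.fsw) : K x := by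
  refine inner_ctb hR (Y := BLI.fsw) ctb_fsw ?_
  rw [em_fsw (i := inc K)]
  exact hx

theorem inner_fun {f : N} (hf : Fun f BLI.fsw omega) : K f := by
  refine inner_ctb hR (Y := prod BLI.fsw omega) (ctb_prod ctb_fsw ctb_omega) ?_
  rw [em_prod (i := inc K), em_fsw (i := inc K), em_omega (i := inc K)]
  exact hf.sub_prod

theorem inner_wf {T : Sub K} (hT : inc K T ⊆ BLI.fsw) : BLI.WfT T ↔ BLI.WfT (inc K T) := by
  unfold BLI.WfT
  constructor
  · intro h X hX hne
    obtain ⟨X', rfl⟩ := inc_mk (inner_fsw hR (sub_trans hX hT))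
    obtain ⟨s, hs, h1⟩ := h X' (em_sub.1 hX) (fun e => hne (by rw [e, em_emp (i := inc K)]))
    refine ⟨inc K s, em_mem.2 hs, fun n hn h2 h3 => ?_⟩
    rw [← em_omega (i := inc K), em_elim] at hn
    obtain ⟨n', hn', rfl⟩ := hn
    rw [← em_ins (i := inc K)] at h3
    refine h1 n' hn' (fun i hi => em_mem.1 (h2 _ (em_mem.2 hi))) (em_mem.1 h3)
  · intro h X hX hne
    obtain ⟨s, hs, h1⟩ := h (inc K X) (em_sub.2 hX) (fun e => hne (em_inj (i := inc K) (by rw [e, em_emp (i := inc K)])))
    rw [em_elim] at hs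
    obtain ⟨s', hs', rfl⟩ := hs
    refine ⟨s', hs', fun n hn h2 h3 => ?_⟩
    refine h1 (inc K n) (by rw [← em_omega (i := inc K)]; exact em_mem.2 hn) (fun i hi => ?_) ?_
    · rw [em_elim] at hi
      obtain ⟨i', hi', rfl⟩ := hi
      exact em_mem.2 (h2 i' hi')
    · rw [← em_ins (i := inc K)]
      exact em_mem.2 h3

end Pool.Agent.ZFIter.NPA.BSM.SP
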