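import Pool.Agent.BSP.ZIn
import Pool.Agent.BSP.ARel0

/-!
# BSP/ZMeet: dense sets defined in all inner models

* `inf_of_mem`: elements of `p` are infinite (`Uf p`, `Nonpr p`: otherwise `x ⊆ k` for some `k ∈ omega`, and by
  induction on `k` (`omega_induction`) no subset of `k` is in `p`).
* `gen_meet`: let `D := sep (pow omega) (fun x => InfS x ∧ (¬ InfS (cap x y) ∨ (x ⊆ y ∧ P x)))`. For every Inner
  `K` with `RS ⊆ K`, `K D`: `inner_sep` (with `inner_pow`, `y ∈ K` by `inner_sub_omega`) for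
  `fun x => InfS x ∧ (¬ InfS (cap x y) ∨ (x ⊆ y ∧ P' x))` in `Sub K` (`em_InfS` of ARel0 for `inc K`, `em_sub`,
  `inc (cap x y) = cap ..`). Dense: let `x` be infinite; if `cap x y` is finite, `x ∈ D`; otherwise `hd` for
  `cap x y`. So `hg D` gives `x ∈ D`, `x ∈ p`; `cap x y ∈ p` is infinite, so `x ⊆ y` and `P x`.
* `sel_genLR`: `gen_meet` for `y := omega` and `P x :=` (`ap f` is constant on `x`, or injective on `x`), for
  `f ∈ RS` (which is in `K`; `em_ap`). `hd`: in `PSel.ramsey1`: every infinite `x` contains an infinite `x'` on which `f`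
  is constant or injective (if no value is taken infinitely often, choose recursively; see BSP/PSel,
  private theorem ramsey1: copy it or make it public).
-/

universe u

namespace Pool.Agent.ZFIter.NPA.BSM.SP

open Pool.Agent.H78.ZF Pool.Agent.ZFIter Pool.Agent.ZFIter.NPA

variable {N : Type u} [ZFM N]

private theorem not_unbZ {X : N} (hX : X ⊆ omega) (h : ¬ Unb X) :
    ∃ m, m ∈ (omega : N) ∧ ∀ k, k ∈ X → k ∈ m := by
  unfold Unb at h
  push Not at h
  obtain ⟨m, hm, h1⟩ := h hX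
  exact ⟨m, hm, fun k hk => (le_or_lt hm (hX k hk)).resolve_left (h1 k hk)⟩

private theorem ramseyZ {g p : N} (hp : Unb p) : ∃ q, Unb q ∧ q ⊆ p ∧
    ((∃ n, ∀ k, k ∈ q → ap g k = n) ∨
      ∀ j k, j ∈ q → k ∈ q → ap g j = ap g k → j = k) := by
  by_cases h : ∃ n, Unb (sep p (fun k => ap g k = n))
  · obtain ⟨n, hn⟩ := h
    exact ⟨_, hn, fun k hk => ((mem_sep _ _ _).1 hk).1, Or.inl ⟨n, fun k hk =>
      ((mem_sep _ _ _).1 hk).2⟩⟩
  · push Not at h
    refine ⟨sep p (fun k => ∀ j, j ∈ p → j ∈ k → ap g j ≠ ap g k), ?_,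
      fun k hk => ((mem_sep _ _ _).1 hk).1, Or.inr ?_⟩
    · by_contra hcon
      obtain ⟨m, hN, h1⟩ := not_unbZ (fun k hk => hp.1 k ((mem_sep _ _ _).1 hk).1) hcon
      obtain ⟨B, hB, h2⟩ := fin_bounded (fun z k => k ∈ p ∧ ap g k = ap g z) (nat_fin hN)
        (fun z _ => by
          obtain ⟨b, hb, h3⟩ := not_unbZ (fun k hk => hp.1 k ((mem_sep _ _ _).1 hk).1) (h (ap g z))
          exact ⟨b, hb, fun k _ hk => h3 k ((mem_sep _ _ _).2 hk)⟩)
      obtain ⟨k, hk, hBk⟩ := hp.2 B hB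
      have hko := hp.1 k hk
      obtain ⟨j, hjo, ⟨hj1, hj2⟩, hmin⟩ := exists_least (fun j => j ∈ p ∧ ap g j = ap g k)
        ⟨k, hko, hk, rfl⟩
      have hjN : j ∈ m := h1 j ((mem_sep _ _ _).2 ⟨hj1, fun i hi hij e =>
        hmin i hij ⟨hi, e.trans hj2⟩⟩)
      exact not_mem_self k (hBk k (h2 j hjN k hko ⟨hk, hj2.symm⟩))
    · intro j k hj hk e
      rw [mem_sep] at hj hk
      rcases trichotomy (hp.1 j hj.1) (hp.1 k hk.1) with h1 | h1 | h1
      · exact absurd e (hk.2 j hj.1 h1)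
      · exact h1
      · exact absurd e.symm (hj.2 k hk.1 h1)

private theorem omega_trans_sub {n : N} (hn : n ∈ (omega : N)) : n ⊆ omega := by
  have : ∀ n, n ∈ (omega : N) → n ⊆ omega := by
    apply omega_induction (fun n : N => n ⊆ (omega : N))
    · intro z hz
      exact absurd hz (not_mem_emp z)
    · intro n hn ih z hz
      rw [mem_succ] at hz
      rcases hz with hz | rfl
      · exact ih z hz
      · exact hn
  exact this n hn

theorem inf_of_mem {p x : N} (hp : Uf p) (hn : Nonpr p) (hx : x ∈ p) : InfS x := by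
  by_contra hcon
  obtain ⟨h1, h2, h3, h4, h5, h6⟩ := hp
  obtain ⟨m, hm, hxm⟩ := not_unbZ (h1 x hx) hcon
  have key : ∀ n, n ∈ (omega : N) → n ∉ p := by
    apply omega_induction (fun n : N => n ∉ p)
    · exact h3
    · intro n hn' ih hs
      rcases h6 n (omega_trans_sub hn') with h | h
      · exact ih h
      · have h7 := h4 _ _ hs h
        have e : sep (succ n) (fun k => k ∈ sep omega (fun k => k ∉ n)) = sing n := by
          refine ext fun z => ?_
          rw [mem_sep, mem_sep, mem_succ, mem_sing]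
          constructor
          · rintro ⟨h8 | h8, _, h9⟩
            · exact absurd h8 h9
            · exact h8
          · rintro rfl
            exact ⟨Or.inr rfl, hn', not_mem_self _⟩
        rw [e] at h7
        exact hn n hn' h7
  exact key m hm (h5 x m hx hxm (omega_trans_sub hm))

theorem gen_meet {p y : N} (hp : Uf p) (hn : Nonpr p) (hg : GenLR p) (hy : y ∈ p) (P : N → Prop)
    [D1 P] (hK : ∀ (K : N → Prop) [Inner K], (∀ x, x ∈ (RS : N) → K x) →
      ∃ P' : Sub K → Prop, D1 P' ∧ ∀ x : Sub K, InfS (inc K x) → (P' x ↔ P (inc K x)))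
    (hd : ∀ x, InfS x → x ⊆ y → ∃ x', InfS x' ∧ x' ⊆ x ∧ P x') :
    ∃ x, x ∈ p ∧ x ⊆ y ∧ InfS x ∧ P x := by
  have hyo : y ⊆ omega := hp.1 y hy
  obtain ⟨x, hxD, hxp⟩ := hg
    (sep (pow omega) (fun x => InfS x ∧ (¬ InfS (cap x y) ∨ (x ⊆ y ∧ P x))))
    (by
      intro K hI hR
      obtain ⟨P', hP', hPP⟩ := hK K hR
      obtain ⟨y', hy'⟩ := inc_mk (K := K) (inner_sub_omega hR hyo)
      refine inner_sep (inner_pow hR) _
        (fun x : Sub K => InfS x ∧ (¬ InfS (cap x y') ∨ (x ⊆ y' ∧ P' x))) ?_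
      intro x
      have e : inc K (cap x y') = cap (inc K x) y := by
        refine ext fun z => ?_
        rw [mem_cap, em_elim, ← hy']
        constructor
        · rintro ⟨w, hw, rfl⟩
          rw [mem_cap] at hw
          exact ⟨em_mem.2 hw.1, em_mem.2 hw.2⟩
        · rintro ⟨h1, h2⟩
          obtain ⟨w, hw, rfl⟩ := em_elim.1 h1
          exact ⟨w, mem_cap.2 ⟨hw, em_mem.1 h2⟩, rfl⟩
      have e1 : InfS x ↔ InfS (inc K x) := (em_InfS (i := inc K)).symm
      have e2 : InfS (cap x y') ↔ InfS (cap (inc K x) y) := by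
        rw [← e]
        exact (em_InfS (i := inc K)).symm
      have e3 : x ⊆ y' ↔ inc K x ⊆ y := by
        rw [← hy']
        exact (em_sub (i := inc K)).symm
      rw [e1, e2, e3]
      refine and_congr_right fun h => ?_
      rw [hPP x h])
    (fun x hx => ((mem_sep _ _ _).1 hx).2.1)
    (by
      intro x hx
      by_cases h : InfS (cap x y)
      · obtain ⟨x', h1, h2, h3⟩ := hd (cap x y) h (fun z hz => (mem_cap.1 hz).2)
        refine ⟨x', (mem_sep _ _ _).2 ⟨(mem_pow _ _).2 h1.1, h1,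
          Or.inr ⟨fun z hz => (mem_cap.1 (h2 z hz)).2, h3⟩⟩,
          fun z hz => (mem_cap.1 (h2 z hz)).1⟩
      · exact ⟨x, (mem_sep _ _ _).2 ⟨(mem_pow _ _).2 hx.1, hx, Or.inl h⟩, sub_refl _⟩)
  rw [mem_sep] at hxD
  obtain ⟨_, h1, h2⟩ := hxD
  have h3 : cap x y ∈ p := hp.2.2.2.1 x y hxp hy
  have h4 := inf_of_mem hp hn h3
  rcases h2 with h2 | h2
  · exact absurd h4 h2
  · exact ⟨x, hxp, h2.1, h1, h2.2⟩

theorem sel_genLR {p : N} (hp : Uf p) (hn : Nonpr p) (hg : GenLR p) : Selective p := by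
  refine ⟨hp, hn, fun f hf => ?_⟩
  obtain ⟨x, hxp, hxo, hxI, hx⟩ := gen_meet hp hn hg hp.2.1
    (fun x => (∃ n, ∀ k, k ∈ x → ap f k = n) ∨
      ∀ j k, j ∈ x → k ∈ x → ap f j = ap f k → j = k)
    (by
      intro K hI hR
      obtain ⟨f', hf'⟩ := inc_mk (K := K) (hR f hf)
      refine ⟨fun x => (∃ n, ∀ k, k ∈ x → ap f' k = n) ∨
        ∀ j k, j ∈ x → k ∈ x → ap f' j = ap f' k → j = k, inferInstance, ?_⟩
      intro x hx
      have hap : ∀ k : Sub K, inc K (ap f' k) = ap f (inc K k) := by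
        intro k
        rw [em_ap (i := inc K), hf']
      constructor
      · rintro (⟨n, h⟩ | h)
        · left
          refine ⟨inc K n, fun k hk => ?_⟩
          obtain ⟨k', hk', rfl⟩ := em_elim.1 hk
          rw [← hap, h k' hk']
        · right
          intro j k hj hk e
          obtain ⟨j', hj', rfl⟩ := em_elim.1 hj
          obtain ⟨k', hk', rfl⟩ := em_elim.1 hk
          rw [← hap, ← hap, em_eq] at e
          rw [h j' k' hj' hk' e]
      · rintro (⟨n, h⟩ | h)
        · left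
          obtain ⟨k0, hk0, _⟩ := hx.2 emp emp_mem_omega
          obtain ⟨k0', hk0', rfl⟩ := em_elim.1 hk0
          refine ⟨ap f' k0', fun k hk => ?_⟩
          rw [← em_eq (i := inc K), hap, hap, h _ (em_mem.2 hk), h _ hk0]
        · right
          intro j k hj hk e
          rw [← em_eq (i := inc K)]
          apply h _ _ (em_mem.2 hj) (em_mem.2 hk)
          rw [← hap, ← hap, e])
    (fun x hx _ => by
      obtain ⟨q, h1, h2, h3⟩ := ramseyZ (g := f) (p := x) hx
      exact ⟨q, h1, h2, h3⟩)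
  rcases hx with ⟨n, h⟩ | h
  · left
    obtain ⟨k0, hk0, _⟩ := hxI.2 emp emp_mem_omega
    have hno : n ∈ (omega : N) := by
      rw [← h k0 hk0]
      exact RS_ap hf (hxI.1 k0 hk0)
    refine ⟨n, hno, hp.2.2.2.2.1 x _ hxp ?_ ?_⟩
    · intro k hk
      exact (mem_sep _ _ _).2 ⟨hxI.1 k hk, h k hk⟩
    · intro k hk
      exact ((mem_sep _ _ _).1 hk).1
  · right
    exact ⟨x, hxp, h⟩

end Pool.Agent.ZFIter.NPA.BSM.SP
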